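import Pool.Agent.Lib_helper42.LVK.Defs
import Pool.Agent.Lib_helper41.HZF.YB
import Pool.Agent.Lib_helper41.HZF.KG
import Pool.Agent.Lib_helper92.KSA.BRG
import Pool.Agent.Lib_helper92.KSA.LATU
import Pool.Agent.Lib_helper92.KSA.LNZ

/-! Block FC1 (LVK, MP_77948b_nt): existence of Hecke characters. -/

namespace Pool.Agent.LVK

open NumberField NumberField.InfinitePlace NumberField.Units Complex MeasureTheory Filter Topology
open Pool.Agent.HZ Pool.Agent.AS Pool.Agent.KS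

variable {K : Type} [Field K] [NumberField K]

variable {𝔮 : Ideal (𝓞 K)}

/-- the circle is divisible -/
noncomputable def fc1_div : DivisibleBy (Additive Circle) ℤ where
  div z n := if n = 0 then 0 else
    Additive.ofMul (Circle.exp (Complex.arg ((Additive.toMul z : Circle) : ℂ) / n))
  div_zero z := by simp
  div_cancel {n} z hn := by
    rw [if_neg hn, ← ofMul_zpow]
    have h1 : Circle.exp (Complex.arg ((Additive.toMul z : Circle) : ℂ) / n) ^ n =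
        Additive.toMul z := by
      rw [← Circle.exp_intCast_mul]
      rw [mul_div_cancel₀ _ (by exact_mod_cast hn : (n : ℝ) ≠ 0)]
      exact Circle.exp_arg _
    rw [h1]
    rfl

theorem fc1_extend {A J : Type*} [CommGroup A] [CommGroup J] (f : A →* J) (Φ : A →* Circle)
    (h : ∀ a, f a = 1 → Φ a = 1) : ∃ Ψ : J →* Circle, ∀ a, Ψ (f a) = Φ a := by
  letI := fc1_div
  have hB : Module.Baer ℤ (Additive Circle) := Module.Baer.of_divisible _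
  have hle : f.ker ≤ Φ.ker := fun a ha => h a ha
  let f1 : A ⧸ f.ker →* J := QuotientGroup.kerLift f
  let g1 : A ⧸ f.ker →* Circle := QuotientGroup.lift f.ker Φ hle
  obtain ⟨Ψ, hΨ⟩ := hB.extension_property_addMonoidHom (MonoidHom.toAdditive f1)
    (QuotientGroup.kerLift_injective f) (MonoidHom.toAdditive g1)
  refine ⟨MonoidHom.toAdditive.symm Ψ, fun a => ?_⟩
  have h1 := DFunLike.congr_fun hΨ (Additive.ofMul (QuotientGroup.mk a))
  exact h1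

theorem fc1_norm_chi (h𝔮 : 𝔮 ≠ ⊥) (χ : MulChar (𝓞 K ⧸ 𝔮) ℂ) {x : 𝓞 K ⧸ 𝔮} (hx : IsUnit x) :
    ‖χ x‖ = 1 := by
  haveI : Finite (𝓞 K ⧸ 𝔮) := Ideal.finiteQuotientOfFreeOfNeBot 𝔮 h𝔮
  obtain ⟨u, rfl⟩ := hx
  have h1 : χ (u : 𝓞 K ⧸ 𝔮) ^ (orderOf u) = 1 := by
    rw [← map_pow, ← Units.val_pow_eq_pow_val, pow_orderOf_eq_one]
    simp
  exact Complex.norm_eq_one_of_pow_eq_one h1 (orderOf_pos u).ne'

theorem fc1_ne_zero (h𝔮' : 𝔮 ≠ ⊤) {α : 𝓞 K} (hα : IsUnit (Ideal.Quotient.mk 𝔮 α)) : α ≠ 0 := by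
  rintro rfl
  rw [map_zero] at hα
  haveI : Nontrivial (𝓞 K ⧸ 𝔮) := Ideal.Quotient.nontrivial_iff.mpr h𝔮'
  exact not_isUnit_zero hα

/-- the multiplicative monoid of the integers coprime to `𝔮` -/
def fc1_M (𝔮 : Ideal (𝓞 K)) : Submonoid (𝓞 K) :=
  Submonoid.comap (Ideal.Quotient.mk 𝔮) (IsUnit.submonoid (𝓞 K ⧸ 𝔮))

theorem fc1_mem {α : 𝓞 K} : α ∈ fc1_M 𝔮 ↔ IsUnit (Ideal.Quotient.mk 𝔮 α) := Iff.rfl

/-- the ideal of an integer coprime to `𝔮` -/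
noncomputable def fc1_f (h𝔮' : 𝔮 ≠ ⊤) :
    fc1_M 𝔮 →* (FractionalIdeal (nonZeroDivisors (𝓞 K)) K)ˣ where
  toFun α := FractionalIdeal.mk0 K ⟨Ideal.span {(α : 𝓞 K)}, mem_nonZeroDivisors_of_ne_zero (by
    rw [Ne, Ideal.zero_eq_bot, Ideal.span_singleton_eq_bot]; exact fc1_ne_zero h𝔮' α.2)⟩
  map_one' := by
    rw [← map_one (FractionalIdeal.mk0 K)]
    congr 1
    ext1
    simp [Ideal.one_eq_top]
  map_mul' α β := by
    rw [← map_mul (FractionalIdeal.mk0 K)]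
    congr 1
    ext1
    simp [Ideal.span_singleton_mul_span_singleton]

/-- the value of the character at the principal ideals -/
noncomputable def fc1_p (h𝔮 : 𝔮 ≠ ⊥) (h𝔮' : 𝔮 ≠ ⊤) (κ : InfinitePlace K → ℤ)
    (lam : InfinitePlace K → ℝ) (χ : MulChar (𝓞 K ⧸ 𝔮) ℂ) : fc1_M 𝔮 →* Circle where
  toFun α := ⟨χ (Ideal.Quotient.mk 𝔮 (α : 𝓞 K)) * psiInf κ lam ((α : 𝓞 K) : K), by
    change _ ∈ Metric.sphere (0 : ℂ) 1
    rw [mem_sphere_zero_iff_norm, norm_mul, fc1_norm_chi h𝔮 χ α.2,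
      psiInf_norm κ lam (by simpa using fc1_ne_zero h𝔮' α.2), one_mul]⟩
  map_one' := by
    apply Circle.ext
    have h1 : psiInf κ lam (1 : K) = 1 := by
      simp [psiInf]
    simp [h1]
  map_mul' α β := by
    apply Circle.ext
    have h1 : psiInf κ lam (((α : 𝓞 K) : K) * ((β : 𝓞 K) : K)) =
        psiInf κ lam ((α : 𝓞 K) : K) * psiInf κ lam ((β : 𝓞 K) : K) :=
      psiInf_mul κ lam (by simpa using fc1_ne_zero h𝔮' α.2) (by simpa using fc1_ne_zero h𝔮' β.2)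
    simp only [Submonoid.coe_mul, map_mul, Circle.coe_mul]
    rw [h1]
    ring

theorem fc1_main (h𝔮 : 𝔮 ≠ ⊥) (h𝔮' : 𝔮 ≠ ⊤) {κ : InfinitePlace K → ℤ}
    {lam : InfinitePlace K → ℝ} {χ : MulChar (𝓞 K ⧸ 𝔮) ℂ} (h : UnitOK 𝔮 κ lam χ) :
    ∃ Ψ : (FractionalIdeal (nonZeroDivisors (𝓞 K)) K)ˣ →* Circle,
      ∀ α : fc1_M 𝔮, Ψ (fc1_f h𝔮' α) = fc1_p h𝔮 h𝔮' κ lam χ α := by
  let F := Algebra.GrothendieckGroup.lift (fc1_f (K := K) h𝔮')
  let P := Algebra.GrothendieckGroup.lift (fc1_p h𝔮 h𝔮' κ lam χ)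
  have hF : ∀ α, F (Algebra.GrothendieckGroup.of α) = fc1_f h𝔮' α := fun α =>
    DFunLike.congr_fun (Algebra.GrothendieckGroup.lift.left_inv (fc1_f (K := K) h𝔮')) α
  have hP : ∀ α, P (Algebra.GrothendieckGroup.of α) = fc1_p h𝔮 h𝔮' κ lam χ α := fun α =>
    DFunLike.congr_fun (Algebra.GrothendieckGroup.lift.left_inv (fc1_p h𝔮 h𝔮' κ lam χ)) α
  have key : ∀ a, F a = 1 → P a = 1 := by
    intro a ha
    obtain ⟨x, y, hxy⟩ : ∃ x y : fc1_M 𝔮, a * Algebra.GrothendieckGroup.of y =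
        Algebra.GrothendieckGroup.of x := by
      obtain ⟨⟨x, y⟩, hxy⟩ := (Localization.monoidOf (⊤ : Submonoid (fc1_M 𝔮))).surj a
      exact ⟨x, y, hxy⟩
    have h1 : F a * fc1_f h𝔮' y = fc1_f h𝔮' x := by
      rw [← hF, ← hF, ← hxy, map_mul]
    have h2 : P a * fc1_p h𝔮 h𝔮' κ lam χ y = fc1_p h𝔮 h𝔮' κ lam χ x := by
      rw [← hP, ← hP, ← hxy, map_mul]
    rw [ha, one_mul] at h1
    have h3 : Ideal.span {(y : 𝓞 K)} = Ideal.span {(x : 𝓞 K)} := by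
      have h4 := congrArg (fun u : (FractionalIdeal (nonZeroDivisors (𝓞 K)) K)ˣ =>
        (u : FractionalIdeal (nonZeroDivisors (𝓞 K)) K)) h1
      simp only [fc1_f, MonoidHom.coe_mk, OneHom.coe_mk, FractionalIdeal.coe_mk0] at h4
      exact FractionalIdeal.coeIdeal_injective h4
    rw [Ideal.span_singleton_eq_span_singleton] at h3
    obtain ⟨ε, hε⟩ := h3
    have h5 : fc1_p h𝔮 h𝔮' κ lam χ y = fc1_p h𝔮 h𝔮' κ lam χ x := by
      apply Circle.ext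
      show χ (Ideal.Quotient.mk 𝔮 (y : 𝓞 K)) * psiInf κ lam ((y : 𝓞 K) : K) =
        χ (Ideal.Quotient.mk 𝔮 (x : 𝓞 K)) * psiInf κ lam ((x : 𝓞 K) : K)
      rw [← hε]
      push_cast
      rw [psiInf_mul κ lam (by simpa using fc1_ne_zero h𝔮' y.2) (by simp), map_mul, map_mul]
      have h6 := h ε
      linear_combination (-(χ (Ideal.Quotient.mk 𝔮 (y : 𝓞 K)) *
        psiInf κ lam ((y : 𝓞 K) : K))) * h6
    rw [h5] at h2
    exact mul_eq_right.mp h2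
  obtain ⟨Ψ, hΨ⟩ := fc1_extend F P key
  refine ⟨Ψ, fun α => ?_⟩
  rw [← hF, hΨ, hP]

theorem fc1_coprime_ne (h𝔮' : 𝔮 ≠ ⊤) {𝔞 : Ideal (𝓞 K)} (h : IsCoprime 𝔞 𝔮) : 𝔞 ≠ 0 := by
  rintro rfl
  rw [isCoprime_zero_left, Ideal.isUnit_iff] at h
  exact h𝔮' h

/-- existence of a Hecke character with given finite part and infinity type -/
theorem exists_hecke_pr (h𝔮 : 𝔮 ≠ ⊥) (h𝔮' : 𝔮 ≠ ⊤) {κ : InfinitePlace K → ℤ}
    {lam : InfinitePlace K → ℝ} {χ : MulChar (𝓞 K ⧸ 𝔮) ℂ} (h : UnitOK 𝔮 κ lam χ) :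
    ∃ ψ : Ideal (𝓞 K) →* ℂ, IsHecke 𝔮 κ lam χ ψ := by
  classical
  obtain ⟨Ψ, hΨ⟩ := fc1_main h𝔮 h𝔮' h
  let ψ : Ideal (𝓞 K) →* ℂ :=
    { toFun := fun 𝔞 => if hc : IsCoprime 𝔞 𝔮 then
        ((Ψ (FractionalIdeal.mk0 K ⟨𝔞, mem_nonZeroDivisors_of_ne_zero (fc1_coprime_ne h𝔮' hc)⟩) :
          Circle) : ℂ) else 0
      map_one' := by
        rw [dif_pos isCoprime_one_left]
        have h1 : FractionalIdeal.mk0 K (⟨1, mem_nonZeroDivisors_of_ne_zero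
            (fc1_coprime_ne h𝔮' isCoprime_one_left)⟩ : nonZeroDivisors (Ideal (𝓞 K))) = 1 :=
          map_one (FractionalIdeal.mk0 K)
        rw [h1, map_one]
        rfl
      map_mul' := fun 𝔞 𝔟 => by
        by_cases ha : IsCoprime 𝔞 𝔮
        · by_cases hb : IsCoprime 𝔟 𝔮
          · rw [dif_pos ha, dif_pos hb, dif_pos (ha.mul_left hb), ← Circle.coe_mul, ← map_mul,
              ← map_mul]
            rfl
          · rw [dif_neg hb, mul_zero, dif_neg]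
            exact fun hc => hb hc.of_mul_left_right
        · rw [dif_neg ha, zero_mul, dif_neg]
          exact fun hc => ha hc.of_mul_left_left }
  refine ⟨ψ, ⟨?_, ?_, ?_⟩⟩
  · intro 𝔞 hc
    show ‖(if hc : IsCoprime 𝔞 𝔮 then _ else _ : ℂ)‖ = 1
    rw [dif_pos hc]
    exact Circle.norm_coe _
  · intro 𝔞 hc
    show (if hc : IsCoprime 𝔞 𝔮 then _ else _ : ℂ) = 0
    rw [dif_neg hc]
  · intro α hα
    have hc : IsCoprime (Ideal.span {α}) 𝔮 := (RES_isUnit_iff α).mp hα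
    show (if hc : IsCoprime (Ideal.span {α}) 𝔮 then _ else _ : ℂ) = _
    rw [dif_pos hc]
    have h1 := hΨ ⟨α, hα⟩
    have h2 := congrArg (fun z : Circle => (z : ℂ)) h1
    exact h2


end Pool.Agent.LVK

namespace Pool.Agent.LVK

theorem exists_hecke : type_of% @exists_hecke_pr := @exists_hecke_pr

end Pool.Agent.LVK
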