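import Pool.Agent.Lib_helper42.LVK.Defs
import Pool.Agent.Lib_helper41.HZF.YB
import Pool.Agent.Lib_helper41.HZF.KG
import Pool.Agent.Lib_helper92.KSA.BRG
import Pool.Agent.Lib_helper92.KSA.LATU
import Pool.Agent.Lib_helper92.KSA.LNZ
import Pool.Agent.Lib_helper41.HZF.CLS
import Pool.Agent.Lib_helper39.LVX.K_FC1

/-! Block FC2 (LVK, MP_77948b_nt): the number of Hecke characters with given data. -/

namespace Pool.Agent.LVK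

open NumberField NumberField.InfinitePlace NumberField.Units Complex MeasureTheory Filter Topology
open Pool.Agent.HZ Pool.Agent.AS Pool.Agent.KS

variable {K : Type} [Field K] [NumberField K]

variable {𝔮 : Ideal (𝓞 K)}

theorem hecke_unitOK_pr (h𝔮 : 𝔮 ≠ ⊥) {κ : InfinitePlace K → ℤ} {lam : InfinitePlace K → ℝ}
    {χ : MulChar (𝓞 K ⧸ 𝔮) ℂ} {ψ : Ideal (𝓞 K) →* ℂ} (h : IsHecke 𝔮 κ lam χ ψ) :
    UnitOK 𝔮 κ lam χ := by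
  intro ε
  have hu : IsUnit (Ideal.Quotient.mk 𝔮 (ε : 𝓞 K)) := ε.isUnit.map _
  have h1 := h.principal (ε : 𝓞 K) hu
  rw [Ideal.span_singleton_eq_top.mpr ε.isUnit, ← Ideal.one_eq_top, map_one] at h1
  exact h1.symm

theorem fc2_ne (h𝔮' : 𝔮 ≠ ⊤) {𝔞 : Ideal (𝓞 K)} (h : IsCoprime 𝔞 𝔮) : 𝔞 ≠ 0 := by
  rintro rfl
  rw [isCoprime_zero_left, Ideal.isUnit_iff] at h
  exact h𝔮' h

/-- every class contains an ideal coprime to `𝔮` -/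
theorem fc2_rep (h𝔮 : 𝔮 ≠ ⊥) (c : ClassGroup (𝓞 K)) :
    ∃ 𝔞 : nonZeroDivisors (Ideal (𝓞 K)), IsCoprime (𝔞 : Ideal (𝓞 K)) 𝔮 ∧
      ClassGroup.mk0 𝔞 = c := by
  obtain ⟨𝔟, hb⟩ := ClassGroup.mk0_surjective c⁻¹
  have hb0 : (𝔟 : Ideal (𝓞 K)) ≠ ⊥ := nonZeroDivisors.ne_zero 𝔟.2
  obtain ⟨g, ρ, hg, hg0, hc, -⟩ := exists_res h𝔮 hb0
  have hq := quo_spec hg hg0
  have hq0 : quo (𝔟 : Ideal (𝓞 K)) g ≠ 0 := by
    intro h0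
    rw [h0, mul_zero] at hq
    exact hg0 (Ideal.span_singleton_eq_bot.mp hq.symm)
  refine ⟨⟨quo 𝔟 g, mem_nonZeroDivisors_of_ne_zero hq0⟩, hc, ?_⟩
  have hp : ((𝔟 : Ideal (𝓞 K)) * quo (𝔟 : Ideal (𝓞 K)) g).IsPrincipal := by
    rw [hq]
    infer_instance
  have h1 := (cls_principal_iff hb0 hq0).mp hp
  have h2 : (⟨(𝔟 : Ideal (𝓞 K)), mem_nonZeroDivisors_of_ne_zero hb0⟩ :
      nonZeroDivisors (Ideal (𝓞 K))) = 𝔟 := Subtype.ext rfl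
  rw [h2, hb] at h1
  exact (inv_mul_eq_one.mp h1).symm

/-- the twist of `ψ₀` by a character of the class group -/
noncomputable def fc2_T (ψ₀ : Ideal (𝓞 K) →* ℂ) (η : ClassGroup (𝓞 K) →* ℂˣ) :
    Ideal (𝓞 K) →* ℂ :=
  open scoped Classical in
  { toFun := fun 𝔞 => if h : 𝔞 = 0 then 0 else
      ψ₀ 𝔞 * (η (ClassGroup.mk0 ⟨𝔞, mem_nonZeroDivisors_of_ne_zero h⟩) : ℂ)
    map_one' := by
      rw [dif_neg one_ne_zero, map_one, one_mul]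
      have h1 : ClassGroup.mk0 (⟨1, mem_nonZeroDivisors_of_ne_zero one_ne_zero⟩ :
          nonZeroDivisors (Ideal (𝓞 K))) = 1 := map_one ClassGroup.mk0
      rw [h1, map_one]
      simp
    map_mul' := fun 𝔞 𝔟 => by
      by_cases ha : 𝔞 = 0
      · subst ha
        simp
      · by_cases hb : 𝔟 = 0
        · subst hb
          simp
        · rw [dif_neg ha, dif_neg hb, dif_neg (mul_ne_zero ha hb)]
          have h1 : ClassGroup.mk0 (⟨𝔞 * 𝔟, mem_nonZeroDivisors_of_ne_zero (mul_ne_zero ha hb)⟩ :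
              nonZeroDivisors (Ideal (𝓞 K))) =
              ClassGroup.mk0 ⟨𝔞, mem_nonZeroDivisors_of_ne_zero ha⟩ *
              ClassGroup.mk0 ⟨𝔟, mem_nonZeroDivisors_of_ne_zero hb⟩ := by
            rw [← map_mul]
            rfl
          rw [h1, map_mul, map_mul]
          push_cast
          ring }

theorem fc2_T_apply (ψ₀ : Ideal (𝓞 K) →* ℂ) (η : ClassGroup (𝓞 K) →* ℂˣ)
    (𝔞 : nonZeroDivisors (Ideal (𝓞 K))) :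
    fc2_T ψ₀ η 𝔞 = ψ₀ 𝔞 * (η (ClassGroup.mk0 𝔞) : ℂ) := by
  have h : (𝔞 : Ideal (𝓞 K)) ≠ 0 := nonZeroDivisors.ne_zero 𝔞.2
  show (if h : (𝔞 : Ideal (𝓞 K)) = 0 then (0 : ℂ) else _) = _
  rw [dif_neg h]

theorem fc2_T_zero (ψ₀ : Ideal (𝓞 K) →* ℂ) (η : ClassGroup (𝓞 K) →* ℂˣ) :
    fc2_T ψ₀ η 0 = 0 := by
  show (if h : (0 : Ideal (𝓞 K)) = 0 then (0 : ℂ) else _) = _
  rw [dif_pos rfl]

theorem fc2_T_hecke (h𝔮' : 𝔮 ≠ ⊤) {κ : InfinitePlace K → ℤ}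
    {lam : InfinitePlace K → ℝ} {χ : MulChar (𝓞 K ⧸ 𝔮) ℂ} {ψ₀ : Ideal (𝓞 K) →* ℂ}
    (h₀ : IsHecke 𝔮 κ lam χ ψ₀) (η : ClassGroup (𝓞 K) →* ℂˣ) :
    IsHecke 𝔮 κ lam χ (fc2_T ψ₀ η) := by
  refine ⟨?_, ?_, ?_⟩
  · intro 𝔞 hc
    have hne := fc2_ne h𝔮' hc
    have h1 := fc2_T_apply ψ₀ η ⟨𝔞, mem_nonZeroDivisors_of_ne_zero hne⟩
    simp only at h1
    rw [h1, norm_mul, h₀.norm_eq_one 𝔞 hc, one_mul]
    set c := ClassGroup.mk0 (⟨𝔞, mem_nonZeroDivisors_of_ne_zero hne⟩ :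
      nonZeroDivisors (Ideal (𝓞 K)))
    have h2 : ((η c : ℂˣ) : ℂ) ^ (orderOf c) = 1 := by
      rw [← Units.val_pow_eq_pow_val, ← map_pow, pow_orderOf_eq_one, map_one, Units.val_one]
    exact Complex.norm_eq_one_of_pow_eq_one h2 (orderOf_pos c).ne'
  · intro 𝔞 hc
    by_cases hne : 𝔞 = 0
    · subst hne
      exact fc2_T_zero ψ₀ η
    · have h1 := fc2_T_apply ψ₀ η ⟨𝔞, mem_nonZeroDivisors_of_ne_zero hne⟩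
      simp only at h1
      rw [h1, h₀.eq_zero 𝔞 hc, zero_mul]
  · intro α hα
    have hc : IsCoprime (Ideal.span {α}) 𝔮 := (RES_isUnit_iff α).mp hα
    have hne := fc2_ne h𝔮' hc
    have h1 := fc2_T_apply ψ₀ η ⟨Ideal.span {α}, mem_nonZeroDivisors_of_ne_zero hne⟩
    simp only at h1
    have h2 : ClassGroup.mk0 (⟨Ideal.span {α}, mem_nonZeroDivisors_of_ne_zero hne⟩ :
        nonZeroDivisors (Ideal (𝓞 K))) = 1 := by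
      rw [ClassGroup.mk0_eq_one_iff]
      exact ⟨α, rfl⟩
    rw [h1, h2, map_one, Units.val_one, mul_one, h₀.principal α hα]

theorem fc2_ne_zero {κ : InfinitePlace K → ℤ}
    {lam : InfinitePlace K → ℝ} {χ : MulChar (𝓞 K ⧸ 𝔮) ℂ} {ψ₀ : Ideal (𝓞 K) →* ℂ}
    (h₀ : IsHecke 𝔮 κ lam χ ψ₀) {𝔞 : Ideal (𝓞 K)} (h : IsCoprime 𝔞 𝔮) : ψ₀ 𝔞 ≠ 0 := by
  intro h1
  have h2 := h₀.norm_eq_one 𝔞 h
  rw [h1, norm_zero] at h2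
  exact zero_ne_one h2

theorem fc2_T_inj (h𝔮 : 𝔮 ≠ ⊥) {κ : InfinitePlace K → ℤ}
    {lam : InfinitePlace K → ℝ} {χ : MulChar (𝓞 K ⧸ 𝔮) ℂ} {ψ₀ : Ideal (𝓞 K) →* ℂ}
    (h₀ : IsHecke 𝔮 κ lam χ ψ₀) :
    Function.Injective (fc2_T (K := K) ψ₀) := by
  intro η η' he
  ext c
  obtain ⟨𝔞, hc, rfl⟩ := fc2_rep h𝔮 c
  have h1 := DFunLike.congr_fun he (𝔞 : Ideal (𝓞 K))
  rw [fc2_T_apply, fc2_T_apply] at h1
  exact mul_left_cancel₀ (fc2_ne_zero h₀ hc) h1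

theorem fc2_principal {κ : InfinitePlace K → ℤ}
    {lam : InfinitePlace K → ℝ} {χ : MulChar (𝓞 K ⧸ 𝔮) ℂ} {ψ₀ ψ : Ideal (𝓞 K) →* ℂ}
    (h₀ : IsHecke 𝔮 κ lam χ ψ₀) (h : IsHecke 𝔮 κ lam χ ψ)
    {𝔞 : nonZeroDivisors (Ideal (𝓞 K))} (hc : IsCoprime (𝔞 : Ideal (𝓞 K)) 𝔮)
    (h1 : ClassGroup.mk0 𝔞 = 1) : ψ 𝔞 = ψ₀ 𝔞 := by
  obtain ⟨⟨𝔞, ha⟩, rfl⟩ : ∃ b, b = 𝔞 := ⟨𝔞, rfl⟩
  rw [ClassGroup.mk0_eq_one_iff] at h1
  obtain ⟨α, hα⟩ := h1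
  have h2 : 𝔞 = Ideal.span {α} := hα
  subst h2
  have h3 : IsUnit (Ideal.Quotient.mk 𝔮 α) := (RES_isUnit_iff α).mpr hc
  show ψ (Ideal.span {α}) = ψ₀ (Ideal.span {α})
  rw [h.principal α h3, h₀.principal α h3]

theorem fc2_ratio (h𝔮 : 𝔮 ≠ ⊥) {κ : InfinitePlace K → ℤ}
    {lam : InfinitePlace K → ℝ} {χ : MulChar (𝓞 K ⧸ 𝔮) ℂ} {ψ₀ ψ : Ideal (𝓞 K) →* ℂ}
    (h₀ : IsHecke 𝔮 κ lam χ ψ₀) (h : IsHecke 𝔮 κ lam χ ψ)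
    {𝔞 𝔟 : nonZeroDivisors (Ideal (𝓞 K))} (ha : IsCoprime (𝔞 : Ideal (𝓞 K)) 𝔮)
    (hb : IsCoprime (𝔟 : Ideal (𝓞 K)) 𝔮) (he : ClassGroup.mk0 𝔞 = ClassGroup.mk0 𝔟) :
    ψ 𝔞 * ψ₀ 𝔟 = ψ 𝔟 * ψ₀ 𝔞 := by
  obtain ⟨𝔠, hc, hcc⟩ := fc2_rep h𝔮 (ClassGroup.mk0 𝔞)⁻¹
  have h1 : ψ ((𝔞 * 𝔠 : nonZeroDivisors (Ideal (𝓞 K))) : Ideal (𝓞 K)) =
      ψ₀ ((𝔞 * 𝔠 : nonZeroDivisors (Ideal (𝓞 K))) : Ideal (𝓞 K)) := by
    refine fc2_principal h₀ h ?_ ?_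
    · rw [Submonoid.coe_mul]
      exact ha.mul_left hc
    · rw [map_mul, hcc, mul_inv_cancel]
  have h2 : ψ ((𝔟 * 𝔠 : nonZeroDivisors (Ideal (𝓞 K))) : Ideal (𝓞 K)) =
      ψ₀ ((𝔟 * 𝔠 : nonZeroDivisors (Ideal (𝓞 K))) : Ideal (𝓞 K)) := by
    refine fc2_principal h₀ h ?_ ?_
    · rw [Submonoid.coe_mul]
      exact hb.mul_left hc
    · rw [map_mul, hcc, ← he, mul_inv_cancel]
  rw [Submonoid.coe_mul, map_mul, map_mul] at h1 h2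
  have h3 : ψ 𝔠 * ψ₀ 𝔠 ≠ 0 := mul_ne_zero (fc2_ne_zero h hc) (fc2_ne_zero h₀ hc)
  apply mul_right_cancel₀ h3
  linear_combination (ψ₀ 𝔟 * ψ₀ 𝔠) * h1 - (ψ₀ 𝔞 * ψ₀ 𝔠) * h2

theorem fc2_surj (h𝔮 : 𝔮 ≠ ⊥) (h𝔮' : 𝔮 ≠ ⊤) {κ : InfinitePlace K → ℤ}
    {lam : InfinitePlace K → ℝ} {χ : MulChar (𝓞 K ⧸ 𝔮) ℂ} {ψ₀ ψ : Ideal (𝓞 K) →* ℂ}
    (h₀ : IsHecke 𝔮 κ lam χ ψ₀) (h : IsHecke 𝔮 κ lam χ ψ) :
    ∃ η : ClassGroup (𝓞 K) →* ℂˣ, fc2_T ψ₀ η = ψ := by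
  choose rep hrc hrm using fc2_rep (K := K) h𝔮
  let η : ClassGroup (𝓞 K) →* ℂˣ :=
    { toFun := fun c => Units.mk0 (ψ (rep c) / ψ₀ (rep c))
        (div_ne_zero (fc2_ne_zero h (hrc c)) (fc2_ne_zero h₀ (hrc c)))
      map_one' := by
        apply Units.ext
        rw [Units.val_mk0, Units.val_one, div_eq_one_iff_eq (fc2_ne_zero h₀ (hrc 1))]
        exact fc2_principal h₀ h (hrc 1) (hrm 1)
      map_mul' := fun c d => by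
        apply Units.ext
        rw [Units.val_mul, Units.val_mk0, Units.val_mk0, Units.val_mk0, div_mul_div_comm,
          div_eq_div_iff (fc2_ne_zero h₀ (hrc _))
            (mul_ne_zero (fc2_ne_zero h₀ (hrc _)) (fc2_ne_zero h₀ (hrc _)))]
        have h1 := fc2_ratio h𝔮 h₀ h (𝔞 := rep (c * d)) (𝔟 := rep c * rep d) (hrc _)
          (by rw [Submonoid.coe_mul]; exact (hrc c).mul_left (hrc d))
          (by rw [map_mul, hrm, hrm, hrm])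
        rw [Submonoid.coe_mul, map_mul, map_mul] at h1
        exact h1 }
  refine ⟨η, ?_⟩
  ext 𝔞
  by_cases hne : 𝔞 = 0
  · subst hne
    rw [fc2_T_zero, h.eq_zero]
    rw [isCoprime_zero_left, Ideal.isUnit_iff]
    exact h𝔮'
  · have h1 := fc2_T_apply ψ₀ η ⟨𝔞, mem_nonZeroDivisors_of_ne_zero hne⟩
    simp only at h1
    rw [h1]
    by_cases hc : IsCoprime 𝔞 𝔮
    · have h2 := fc2_ratio h𝔮 h₀ h (𝔞 := ⟨𝔞, mem_nonZeroDivisors_of_ne_zero hne⟩)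
        (𝔟 := rep (ClassGroup.mk0 ⟨𝔞, mem_nonZeroDivisors_of_ne_zero hne⟩)) hc (hrc _)
        (hrm _).symm
      simp only at h2
      show ψ₀ 𝔞 * (ψ (rep _) / ψ₀ (rep _)) = ψ 𝔞
      rw [← mul_div_assoc, div_eq_iff (fc2_ne_zero h₀ (hrc _)), h2]
      ring
    · rw [h.eq_zero 𝔞 hc, h₀.eq_zero 𝔞 hc, zero_mul]

/-- exactly `classNumber K` extensions -/
theorem hecke_card_pr (h𝔮 : 𝔮 ≠ ⊥) (h𝔮' : 𝔮 ≠ ⊤) {κ : InfinitePlace K → ℤ}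
    {lam : InfinitePlace K → ℝ} {χ : MulChar (𝓞 K ⧸ 𝔮) ℂ} (h : UnitOK 𝔮 κ lam χ) :
    {ψ : Ideal (𝓞 K) →* ℂ | IsHecke 𝔮 κ lam χ ψ}.Finite ∧
    {ψ : Ideal (𝓞 K) →* ℂ | IsHecke 𝔮 κ lam χ ψ}.ncard = classNumber K := by
  obtain ⟨ψ₀, h₀⟩ := exists_hecke h𝔮 h𝔮' h
  have hcard : Nat.card (ClassGroup (𝓞 K) →* ℂˣ) = Nat.card (ClassGroup (𝓞 K)) :=
    CommGroup.card_monoidHom_of_hasEnoughRootsOfUnity (ClassGroup (𝓞 K)) ℂ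
  have hcl : Nat.card (ClassGroup (𝓞 K)) = classNumber K := by
    rw [Nat.card_eq_fintype_card]
    rfl
  have hfin : Finite (ClassGroup (𝓞 K) →* ℂˣ) := by
    apply Nat.finite_of_card_ne_zero
    rw [hcard]
    exact Nat.card_pos.ne'
  have hset : {ψ : Ideal (𝓞 K) →* ℂ | IsHecke 𝔮 κ lam χ ψ} = Set.range (fc2_T (K := K) ψ₀) := by
    ext ψ
    constructor
    · intro hψ
      exact fc2_surj h𝔮 h𝔮' h₀ hψ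
    · rintro ⟨η, rfl⟩
      exact fc2_T_hecke h𝔮' h₀ η
  rw [hset]
  refine ⟨Set.finite_range _, ?_⟩
  rw [← Nat.card_coe_set_eq, Nat.card_range_of_injective (fc2_T_inj h𝔮 h₀), hcard, hcl]


end Pool.Agent.LVK

namespace Pool.Agent.LVK

theorem hecke_unitOK : type_of% @hecke_unitOK_pr := @hecke_unitOK_pr
theorem hecke_card : type_of% @hecke_card_pr := @hecke_card_pr

end Pool.Agent.LVK
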