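import Pool.Agent.Lib_helper42.LVK.Defs
import Pool.Agent.Lib_helper92.KSA.BRG

/-!
# LVK part M, block MC1A: the ideals `𝔮 / ∏ p` (helper89)
-/

namespace Pool.Agent.LVK

open NumberField NumberField.InfinitePlace NumberField.Units Complex MeasureTheory Filter Topology
open Pool.Agent.HZ Pool.Agent.AS Pool.Agent.KS

variable {K : Type} [Field K] [NumberField K]

variable {𝔮 : Ideal (𝓞 K)}

theorem mc1a_mem (h𝔮 : 𝔮 ≠ ⊥) (p : PK K) : p ∈ QK 𝔮 ↔ p.asIdeal ∣ 𝔮 := by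
  have hfin : {p : PK K | p.asIdeal ∣ 𝔮}.Finite := Ideal.finite_factors h𝔮
  rw [QK, dif_pos hfin]
  simp

theorem mc1a_coprime {p q : PK K} (h : p ≠ q) : IsCoprime p.asIdeal q.asIdeal := by
  rw [Ideal.isCoprime_iff_sup_eq]
  have hp : p.asIdeal.IsMaximal := p.isMaximal
  have hq : q.asIdeal.IsMaximal := q.isMaximal
  apply Ideal.IsMaximal.coprime_of_ne hp hq
  intro h2
  exact h (IsDedekindDomain.HeightOneSpectrum.ext h2)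

theorem mc1a_prod_ne (S : Finset (PK K)) : ∏ p ∈ S, p.asIdeal ≠ ⊥ := by
  have : ∏ p ∈ S, p.asIdeal ≠ 0 := Finset.prod_ne_zero_iff.2 (fun p _ => p.ne_bot)
  exact this

theorem mc1a_exists (h𝔮 : 𝔮 ≠ ⊥) {S : Finset (PK K)} (hS : S ⊆ QK 𝔮) :
    ∃ 𝔡 : Ideal (𝓞 K), 𝔡 * ∏ p ∈ S, p.asIdeal = 𝔮 := by
  have h1 : ∏ p ∈ S, p.asIdeal ∣ 𝔮 := by
    apply Finset.prod_dvd_of_coprime
    · intro p _ q _ hpq
      exact mc1a_coprime hpq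
    · intro p hp
      exact (mc1a_mem h𝔮 p).1 (hS hp)
  obtain ⟨𝔡, h𝔡⟩ := h1
  exact ⟨𝔡, by rw [h𝔡, mul_comm]⟩

theorem dS_spec_pr (h𝔮 : 𝔮 ≠ ⊥) {S : Finset (PK K)} (hS : S ⊆ QK 𝔮) :
    dS 𝔮 S * ∏ p ∈ S, p.asIdeal = 𝔮 := by
  have h := mc1a_exists h𝔮 hS
  unfold dS
  rw [dif_pos h]
  exact h.choose_spec

theorem dS_empty_pr (h𝔮 : 𝔮 ≠ ⊥) : dS 𝔮 ∅ = 𝔮 := by
  have h := dS_spec_pr h𝔮 (Finset.empty_subset (QK 𝔮))
  simpa using h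

theorem le_dS_pr (h𝔮 : 𝔮 ≠ ⊥) {S : Finset (PK K)} (hS : S ⊆ QK 𝔮) : 𝔮 ≤ dS 𝔮 S := by
  calc 𝔮 = dS 𝔮 S * ∏ p ∈ S, p.asIdeal := (dS_spec_pr h𝔮 hS).symm
    _ ≤ dS 𝔮 S := Ideal.mul_le_left

open scoped Classical in
/-- `d_{S ∪ p} = d_S + d_p`, `d_S ∩ d_p = 𝔮` -/
theorem dS_insert_pr (h𝔮 : 𝔮 ≠ ⊥) {S : Finset (PK K)} {p : PK K} (hp : p ∉ S)
    (hS : insert p S ⊆ QK 𝔮) :
    dS 𝔮 (insert p S) = dS 𝔮 S ⊔ dS 𝔮 {p} ∧ dS 𝔮 S ⊓ dS 𝔮 {p} = 𝔮 := by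
  have hS1 : S ⊆ QK 𝔮 := (Finset.subset_insert p S).trans hS
  have hp1 : ({p} : Finset (PK K)) ⊆ QK 𝔮 := by
    intro x hx
    rw [Finset.mem_singleton] at hx
    exact hS (by rw [hx]; exact Finset.mem_insert_self p S)
  have e0 := dS_spec_pr h𝔮 hS
  have e1 := dS_spec_pr h𝔮 hS1
  have e2 := dS_spec_pr h𝔮 hp1
  rw [Finset.prod_insert hp] at e0
  rw [Finset.prod_singleton] at e2
  set D := dS 𝔮 (insert p S) with hD
  set P := p.asIdeal with hP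
  set Q := ∏ q ∈ S, q.asIdeal with hQ
  have hP0 : P ≠ 0 := p.ne_bot
  have hQ0 : Q ≠ 0 := mc1a_prod_ne S
  have hD0 : D ≠ 0 := by
    intro h
    rw [h, zero_mul] at e0
    exact h𝔮 e0.symm
  have f1 : dS 𝔮 S = D * P := by
    apply mul_right_cancel₀ hQ0
    rw [e1, ← e0, mul_assoc]
  have f2 : dS 𝔮 {p} = D * Q := by
    apply mul_right_cancel₀ hP0
    rw [e2, ← e0, mul_assoc, mul_comm Q P]
  have hcop : IsCoprime P Q := by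
    apply IsCoprime.prod_right
    intro q hq
    apply mc1a_coprime
    rintro rfl
    exact hp hq
  rw [Ideal.isCoprime_iff_sup_eq] at hcop
  constructor
  · rw [f1, f2, ← Ideal.mul_sup, hcop, Ideal.mul_top]
  · have h1 := Ideal.sup_mul_inf (D * P) (D * Q)
    rw [← Ideal.mul_sup, hcop, Ideal.mul_top] at h1
    rw [f1, f2]
    apply mul_left_cancel₀ hD0
    rw [h1, ← e0]
    ring


end Pool.Agent.LVK

namespace Pool.Agent.LVK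

theorem dS_spec : type_of% @dS_spec_pr := @dS_spec_pr
theorem dS_empty : type_of% @dS_empty_pr := @dS_empty_pr
theorem le_dS : type_of% @le_dS_pr := @le_dS_pr
theorem dS_insert : type_of% @dS_insert_pr := @dS_insert_pr

end Pool.Agent.LVK
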