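import Pool.Agent.Lib_helper42.LVK.Defs
import Pool.Agent.Lib_helper92.KSA.BRG
import Pool.Agent.Lib_helper39.LVX.K_MC1A

/-!
# LVK part M, block MC1B: primitive characters and the subgroups of units `≡ 1` (helper89)
-/

namespace Pool.Agent.LVK

open NumberField NumberField.InfinitePlace NumberField.Units Complex MeasureTheory Filter Topology
open Pool.Agent.HZ Pool.Agent.AS Pool.Agent.KS

variable {K : Type} [Field K] [NumberField K]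

variable {𝔮 : Ideal (𝓞 K)}

/-- units modulo `𝔮` in terms of elements -/
theorem mc1b_unit_iff (x : 𝓞 K) :
    IsUnit (Ideal.Quotient.mk 𝔮 x) ↔ ∃ y : 𝓞 K, x * y - 1 ∈ 𝔮 := by
  constructor
  · intro h
    obtain ⟨b, hb⟩ := h.exists_right_inv
    obtain ⟨y, rfl⟩ := Ideal.Quotient.mk_surjective b
    refine ⟨y, ?_⟩
    rw [← Ideal.Quotient.eq_zero_iff_mem, map_sub, map_mul, map_one, hb, sub_self]
  · rintro ⟨y, hy⟩
    rw [← Ideal.Quotient.eq_zero_iff_mem, map_sub, map_mul, map_one, sub_eq_zero] at hy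
    exact IsUnit.of_mul_eq_one _ hy

/-- the units `≡ 1 mod 𝔞 + 𝔟` are generated by those `≡ 1 mod 𝔞` and those `≡ 1 mod 𝔟`, if
`𝔞 ∩ 𝔟 = 𝔮` -/
theorem unit_split_pr (h𝔮 : 𝔮 ≠ ⊥) {𝔞 𝔟 : Ideal (𝓞 K)} (h : 𝔞 ⊓ 𝔟 = 𝔮) {x : 𝓞 K}
    (hx : x - 1 ∈ 𝔞 ⊔ 𝔟) (hu : IsUnit (Ideal.Quotient.mk 𝔮 x)) :
    ∃ y z : 𝓞 K, y - 1 ∈ 𝔞 ∧ z - 1 ∈ 𝔟 ∧ IsUnit (Ideal.Quotient.mk 𝔮 y) ∧
      IsUnit (Ideal.Quotient.mk 𝔮 z) ∧ x - y * z ∈ 𝔮 := by
  have hqa : 𝔮 ≤ 𝔞 := by rw [← h]; exact inf_le_left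
  have hqb : 𝔮 ≤ 𝔟 := by rw [← h]; exact inf_le_right
  obtain ⟨a, ha, b, hb, hab⟩ := Submodule.mem_sup.1 hx
  obtain ⟨x', hx'⟩ := (mc1b_unit_iff x).1 hu
  have hxe : x = 1 + a + b := by
    have : x = (x - 1) + 1 := by ring
    rw [this, ← hab]; ring
  -- `y = 1 + a`
  have h1 : (1 + a) * x' - 1 ∈ 𝔟 := by
    have e : (1 + a) * x' - 1 = (x * x' - 1) - b * x' := by rw [hxe]; ring
    rw [e]
    exact 𝔟.sub_mem (hqb hx') (𝔟.mul_mem_right _ hb)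
  have h2 : (1 + a) * (1 + x' - x' * (1 + a)) - 1 ∈ 𝔮 := by
    have e : (1 + a) * (1 + x' - x' * (1 + a)) - 1 = -(a * ((1 + a) * x' - 1)) := by ring
    rw [e, ← h]
    refine ⟨?_, ?_⟩
    · exact 𝔞.neg_mem (𝔞.mul_mem_right _ ha)
    · exact 𝔟.neg_mem (𝔟.mul_mem_left _ h1)
  set y' := 1 + x' - x' * (1 + a) with hy'
  refine ⟨1 + a, x * y', ?_, ?_, (mc1b_unit_iff _).2 ⟨y', h2⟩, ?_, ?_⟩
  · simpa using ha
  · have e : x * y' - 1 = b * y' + ((1 + a) * y' - 1) := by rw [hxe]; ring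
    rw [e]
    exact 𝔟.add_mem (𝔟.mul_mem_right _ hb) (hqb h2)
  · rw [map_mul]
    refine hu.mul ?_
    refine (mc1b_unit_iff _).2 ⟨1 + a, ?_⟩
    rw [mul_comm]
    exact h2
  · have e : x - (1 + a) * (x * y') = -(x * ((1 + a) * y' - 1)) := by ring
    rw [e]
    exact 𝔮.neg_mem (𝔮.mul_mem_left _ h2)

theorem mc1b_single {p : PK K} (hp : p ∈ QK 𝔮) : ({p} : Finset (PK K)) ⊆ QK 𝔮 := by
  intro x hx
  rw [Finset.mem_singleton] at hx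
  rwa [hx]

/-- `χ` is primitive iff for every `p ∣ 𝔮` it is non-trivial on the units `≡ 1 mod 𝔮/p` -/
theorem prim_iff_pr (h𝔮 : 𝔮 ≠ ⊥) (χ : MulChar (𝓞 K ⧸ 𝔮) ℂ) :
    IsPrim 𝔮 χ ↔ ∀ p ∈ QK 𝔮, ∃ α : 𝓞 K, α - 1 ∈ dS 𝔮 {p} ∧
      IsUnit (Ideal.Quotient.mk 𝔮 α) ∧ χ (Ideal.Quotient.mk 𝔮 α) ≠ 1 := by
  constructor
  · intro h p hp
    apply h
    have h1 := dS_spec h𝔮 (mc1b_single hp)
    rw [Finset.prod_singleton] at h1
    refine lt_of_le_of_ne (le_dS h𝔮 (mc1b_single hp)) ?_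
    intro h2
    rw [← h2] at h1
    have h3 : p.asIdeal = 1 := by
      apply mul_left_cancel₀ (a := 𝔮) h𝔮
      rw [h1, mul_one]
    exact p.isPrime.ne_top (by rw [h3, Ideal.one_eq_top])
  · intro h 𝔪 h𝔪
    obtain ⟨𝔫, h𝔫⟩ := Ideal.dvd_iff_le.2 h𝔪.le
    have hn1 : 𝔫 ≠ ⊤ := by
      rintro rfl
      rw [Ideal.mul_top] at h𝔫
      exact h𝔪.ne h𝔫
    have hn0 : 𝔫 ≠ ⊥ := by
      rintro rfl
      rw [Ideal.mul_bot] at h𝔫
      exact h𝔮 h𝔫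
    obtain ⟨P, hPmax, hPle⟩ := Ideal.exists_le_maximal 𝔫 hn1
    have hP0 : P ≠ ⊥ := by
      rintro rfl
      exact hn0 (le_bot_iff.1 hPle)
    let p : PK K := ⟨P, hPmax.isPrime, hP0⟩
    obtain ⟨𝔫', h𝔫'⟩ := Ideal.dvd_iff_le.2 hPle
    have hp : p ∈ QK 𝔮 := by
      rw [mem_QK h𝔮]
      refine ⟨𝔪 * 𝔫', ?_⟩
      change 𝔮 = P * (𝔪 * 𝔫')
      rw [h𝔫, h𝔫']
      ring
    obtain ⟨α, hα, h2, h3⟩ := h p hp
    refine ⟨α, ?_, h2, h3⟩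
    have h1 := dS_spec h𝔮 (mc1b_single hp)
    rw [Finset.prod_singleton] at h1
    have h4 : dS 𝔮 {p} = 𝔪 * 𝔫' := by
      apply mul_right_cancel₀ (b := P) hP0
      change dS 𝔮 {p} * p.asIdeal = _
      rw [h1, h𝔫, h𝔫']
      ring
    rw [h4] at hα
    exact Ideal.mul_le_left hα

/-- trivial on the units `≡ 1 mod d_S` iff trivial on the units `≡ 1 mod 𝔮/p` for all `p ∈ S` -/
theorem triv_iff_pr (h𝔮 : 𝔮 ≠ ⊥) {S : Finset (PK K)} (hS : S ⊆ QK 𝔮)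
    (χ : MulChar (𝓞 K ⧸ 𝔮) ℂ) :
    (∀ α : 𝓞 K, α - 1 ∈ dS 𝔮 S → IsUnit (Ideal.Quotient.mk 𝔮 α) →
      χ (Ideal.Quotient.mk 𝔮 α) = 1) ↔
    ∀ p ∈ S, ∀ α : 𝓞 K, α - 1 ∈ dS 𝔮 {p} → IsUnit (Ideal.Quotient.mk 𝔮 α) →
      χ (Ideal.Quotient.mk 𝔮 α) = 1 := by
  classical
  constructor
  · intro h p hp α hα hu
    refine h α ?_ hu
    have h1 := dS_spec h𝔮 hS
    have h2 := dS_spec h𝔮 (mc1b_single (hS hp))
    rw [Finset.prod_singleton] at h2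
    rw [← Finset.mul_prod_erase S (fun p => p.asIdeal) hp] at h1
    have h3 : dS 𝔮 {p} = dS 𝔮 S * ∏ q ∈ S.erase p, q.asIdeal := by
      apply mul_right_cancel₀ (b := p.asIdeal) p.ne_bot
      rw [h2]
      conv_lhs => rw [← h1]
      ring
    rw [h3] at hα
    exact Ideal.mul_le_left hα
  · induction S using Finset.induction_on with
    | empty =>
      intro _ α hα _
      rw [dS_empty h𝔮] at hα
      have h1 : Ideal.Quotient.mk 𝔮 α = 1 := by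
        rw [← Ideal.Quotient.eq_zero_iff_mem, map_sub, map_one, sub_eq_zero] at hα
        exact hα
      rw [h1, map_one]
    | insert p S hp ih =>
      intro h α hα hu
      have hS1 : S ⊆ QK 𝔮 := (Finset.subset_insert p S).trans hS
      obtain ⟨e1, e2⟩ := dS_insert h𝔮 hp hS
      have e3 : dS 𝔮 (insert p S) = dS 𝔮 S ⊔ dS 𝔮 {p} := by
        convert e1
      rw [e3] at hα
      obtain ⟨y, z, hy, hz, hyu, hzu, hyz⟩ := unit_split_pr h𝔮 e2 hα hu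
      have h1 : Ideal.Quotient.mk 𝔮 α = Ideal.Quotient.mk 𝔮 y * Ideal.Quotient.mk 𝔮 z := by
        rw [← Ideal.Quotient.eq_zero_iff_mem, map_sub, map_mul, sub_eq_zero] at hyz
        exact hyz
      rw [h1, map_mul, ih hS1 (fun q hq => h q (Finset.mem_insert_of_mem hq)) y hy hyu,
        h p (Finset.mem_insert_self p S) z hz hzu, mul_one]


end Pool.Agent.LVK

namespace Pool.Agent.LVK

theorem unit_split : type_of% @unit_split_pr := @unit_split_pr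
theorem prim_iff : type_of% @prim_iff_pr := @prim_iff_pr
theorem triv_iff : type_of% @triv_iff_pr := @triv_iff_pr

end Pool.Agent.LVK
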