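import Pool.Agent.Lib_helper42.LVK.Defs
import Pool.Agent.Lib_helper92.KSA.BRG
import Pool.Agent.Lib_helper39.LVX.K_MC1A
import Pool.Agent.Lib_helper39.LVX.K_MC1B

/-! Block MC2 (MP_77948b_nt, LVK): orthogonality of the characters modulo `𝔮`. -/

namespace Pool.Agent.LVK

open NumberField NumberField.InfinitePlace NumberField.Units Complex MeasureTheory Filter Topology
open Pool.Agent.HZ Pool.Agent.AS Pool.Agent.KS

variable {K : Type} [Field K] [NumberField K]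

variable {𝔮 : Ideal (𝓞 K)}

theorem mc2_ne_bot {𝔡 : Ideal (𝓞 K)} (h𝔮 : 𝔮 ≠ ⊥) (h : 𝔮 ≤ 𝔡) : 𝔡 ≠ ⊥ := by
  intro h0
  exact h𝔮 (le_bot_iff.mp (h0 ▸ h))

/-- a character trivial on the units `≡ 1 mod 𝔡`, non-trivial at a given unit -/
theorem mc2_exists {𝔡 : Ideal (𝓞 K)} (h𝔮 : 𝔮 ≠ ⊥) (h : 𝔮 ≤ 𝔡) {α : 𝓞 K}
    (hα : α - 1 ∉ 𝔡) (hu : IsUnit (Ideal.Quotient.mk 𝔮 α)) :
    ∃ χ : MulChar (𝓞 K ⧸ 𝔮) ℂ, (∀ β : 𝓞 K, β - 1 ∈ 𝔡 → IsUnit (Ideal.Quotient.mk 𝔮 β) →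
      χ (Ideal.Quotient.mk 𝔮 β) = 1) ∧ χ (Ideal.Quotient.mk 𝔮 α) ≠ 1 := by
  have h𝔡 := mc2_ne_bot h𝔮 h
  haveI : Finite (𝓞 K ⧸ 𝔡) := Ideal.finiteQuotientOfFreeOfNeBot 𝔡 h𝔡
  obtain ⟨u, hu'⟩ := hu
  set f : 𝓞 K ⧸ 𝔮 →+* 𝓞 K ⧸ 𝔡 := Ideal.Quotient.factor h with hf
  have hfm : ∀ β : 𝓞 K, f (Ideal.Quotient.mk 𝔮 β) = Ideal.Quotient.mk 𝔡 β := fun β => rfl
  have hne : Units.map (f : 𝓞 K ⧸ 𝔮 →* 𝓞 K ⧸ 𝔡) u ≠ 1 := by
    intro h1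
    have h2 : f (u : 𝓞 K ⧸ 𝔮) = 1 := by
      have := congrArg (fun x : (𝓞 K ⧸ 𝔡)ˣ => (x : 𝓞 K ⧸ 𝔡)) h1
      simpa using this
    rw [hu', hfm] at h2
    apply hα
    rw [← Ideal.Quotient.eq, h2, map_one]
  obtain ⟨φ, hφ⟩ := CommGroup.exists_apply_ne_one_of_hasEnoughRootsOfUnity (𝓞 K ⧸ 𝔡)ˣ ℂ hne
  refine ⟨MulChar.ofUnitHom (φ.comp (Units.map (f : 𝓞 K ⧸ 𝔮 →* 𝓞 K ⧸ 𝔡))), ?_, ?_⟩
  · intro β hβ hβu
    obtain ⟨v, hv⟩ := hβu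
    rw [← hv, MulChar.ofUnitHom_coe]
    have h3 : Units.map (f : 𝓞 K ⧸ 𝔮 →* 𝓞 K ⧸ 𝔡) v = 1 := by
      ext
      have : f (v : 𝓞 K ⧸ 𝔮) = 1 := by
        rw [hv, hfm, ← map_one (Ideal.Quotient.mk 𝔡), Ideal.Quotient.eq]
        exact hβ
      simpa using this
    rw [MonoidHom.comp_apply, h3, map_one, Units.val_one]
  · rw [← hu', MulChar.ofUnitHom_coe]
    intro h4
    apply hφ
    rw [MonoidHom.comp_apply] at h4
    exact Units.ext h4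

theorem mc2_sum_zero {ι : Type} [Fintype ι] (E : Finset ι) (F : ι → ℂ) (c : ℂ) (hc : c ≠ 1)
    (e : ι ≃ ι) (he : ∀ i, i ∈ E ↔ e i ∈ E) (hF : ∀ i, F (e i) = c * F i) :
    ∑ i ∈ E, F i = 0 := by
  have h1 : ∑ i ∈ E, F i = ∑ i ∈ E, F (e i) := by
    symm
    refine Finset.sum_bijective e e.bijective (fun i => he i) (fun i _ => rfl)
  have h2 : ∑ i ∈ E, F (e i) = c * ∑ i ∈ E, F i := by
    rw [Finset.mul_sum]
    exact Finset.sum_congr rfl fun i _ => hF i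
  rw [h2] at h1
  have h3 : (1 - c) * ∑ i ∈ E, F i = 0 := by linear_combination h1
  rcases mul_eq_zero.mp h3 with h4 | h4
  · exact absurd (sub_eq_zero.mp h4).symm hc
  · exact h4

theorem mc2_general {𝔡 : Ideal (𝓞 K)} (h𝔮 : 𝔮 ≠ ⊥) (h : 𝔮 ≤ 𝔡)
    (E : Finset (MulChar (𝓞 K ⧸ 𝔮) ℂ))
    (hE : ∀ χ, χ ∈ E ↔ ∀ α : 𝓞 K, α - 1 ∈ 𝔡 → IsUnit (Ideal.Quotient.mk 𝔮 α) →
      χ (Ideal.Quotient.mk 𝔮 α) = 1) {a b : 𝓞 K} (ha : IsUnit (Ideal.Quotient.mk 𝔮 a))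
    (hb : IsUnit (Ideal.Quotient.mk 𝔮 b)) [Decidable (a - b ∈ 𝔡)] :
    ∑ χ ∈ E, χ (Ideal.Quotient.mk 𝔮 a) * starRingEnd ℂ (χ (Ideal.Quotient.mk 𝔮 b)) =
      if a - b ∈ 𝔡 then (E.card : ℂ) else 0 := by
  classical
  haveI : Finite (𝓞 K ⧸ 𝔮) := Ideal.finiteQuotientOfFreeOfNeBot 𝔮 h𝔮
  haveI : Fintype (MulChar (𝓞 K ⧸ 𝔮) ℂ) := Fintype.ofFinite _
  obtain ⟨u, hu⟩ := hb
  obtain ⟨b', hb'⟩ := Ideal.Quotient.mk_surjective (u⁻¹ : (𝓞 K ⧸ 𝔮)ˣ).val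
  have hbb : Ideal.Quotient.mk 𝔮 (b * b') = 1 := by
    rw [map_mul, ← hu, hb', Units.mul_inv]
  have hbb1 : b * b' - 1 ∈ 𝔮 := by
    rw [← Ideal.Quotient.eq, hbb, map_one]
  have hαu : IsUnit (Ideal.Quotient.mk 𝔮 (a * b')) := by
    rw [map_mul, hb']
    exact ha.mul (Units.isUnit _)
  have hterm : ∀ χ : MulChar (𝓞 K ⧸ 𝔮) ℂ,
      χ (Ideal.Quotient.mk 𝔮 a) * starRingEnd ℂ (χ (Ideal.Quotient.mk 𝔮 b)) =
        χ (Ideal.Quotient.mk 𝔮 (a * b')) := by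
    intro χ
    have h1 : starRingEnd ℂ (χ (Ideal.Quotient.mk 𝔮 b)) = χ (Ideal.Quotient.mk 𝔮 b') := by
      have h2 := MulChar.star_apply' χ (Ideal.Quotient.mk 𝔮 b)
      rw [← Complex.star_def, h2, MulChar.inv_apply, ← hu, Ring.inverse_unit, hb']
    rw [h1, ← map_mul, ← map_mul]
  have hiff : a - b ∈ 𝔡 ↔ a * b' - 1 ∈ 𝔡 := by
    constructor
    · intro hab
      have : a * b' - 1 = (a - b) * b' + (b * b' - 1) := by ring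
      rw [this]
      exact 𝔡.add_mem (𝔡.mul_mem_right _ hab) (h hbb1)
    · intro hab
      have : a - b = (a * b' - 1) * b - a * (b * b' - 1) := by ring
      rw [this]
      exact 𝔡.sub_mem (𝔡.mul_mem_right _ hab) (𝔡.mul_mem_left _ (h hbb1))
  rw [Finset.sum_congr rfl fun χ _ => hterm χ]
  by_cases hd : a - b ∈ 𝔡
  · rw [if_pos hd, Finset.sum_congr rfl fun χ hχ => (hE χ).mp hχ _ (hiff.mp hd) hαu,
      Finset.sum_const, nsmul_eq_mul, mul_one]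
  · rw [if_neg hd]
    obtain ⟨χ₀, h0, h1⟩ := mc2_exists h𝔮 h (fun hh => hd (hiff.mpr hh)) hαu
    refine mc2_sum_zero E (fun χ => χ (Ideal.Quotient.mk 𝔮 (a * b'))) _ h1
      (Equiv.mulLeft χ₀) ?_ ?_
    · intro χ
      rw [hE, hE]
      refine forall_congr' fun α => forall_congr' fun hα => forall_congr' fun hu' => ?_
      rw [Equiv.coe_mulLeft, MulChar.mul_apply, h0 α hα hu', one_mul]
    · intro χ
      rw [Equiv.coe_mulLeft, MulChar.mul_apply]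

theorem mc2_nS {S : Finset (PK K)} (E : Finset (MulChar (𝓞 K ⧸ 𝔮) ℂ))
    (hE : ∀ χ, χ ∈ E ↔ ∀ α : 𝓞 K, α - 1 ∈ dS 𝔮 S → IsUnit (Ideal.Quotient.mk 𝔮 α) →
      χ (Ideal.Quotient.mk 𝔮 α) = 1) : (nS 𝔮 S : ℂ) = (E.card : ℂ) := by
  unfold nS
  rw [Nat.subtype_card E hE]
  push_cast
  rfl

open scoped Classical in
/-- the characters trivial on the units `≡ 1 mod 𝔡`, `𝔮 ≤ 𝔡` -/
theorem triv_orth_pr (h𝔮 : 𝔮 ≠ ⊥) {S : Finset (PK K)} (hS : S ⊆ QK 𝔮)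
    (E : Finset (MulChar (𝓞 K ⧸ 𝔮) ℂ))
    (hE : ∀ χ, χ ∈ E ↔ ∀ α : 𝓞 K, α - 1 ∈ dS 𝔮 S → IsUnit (Ideal.Quotient.mk 𝔮 α) →
      χ (Ideal.Quotient.mk 𝔮 α) = 1) {a b : 𝓞 K} (ha : IsUnit (Ideal.Quotient.mk 𝔮 a))
    (hb : IsUnit (Ideal.Quotient.mk 𝔮 b)) :
    ∑ χ ∈ E, χ (Ideal.Quotient.mk 𝔮 a) * starRingEnd ℂ (χ (Ideal.Quotient.mk 𝔮 b)) =
      if a - b ∈ dS 𝔮 S then (nS 𝔮 S : ℂ) else 0 := by
  rw [mc2_nS E hE]
  exact mc2_general h𝔮 (le_dS h𝔮 hS) E hE ha hb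

open scoped Classical in
theorem prim_orth_pr (h𝔮 : 𝔮 ≠ ⊥) (E : Finset (MulChar (𝓞 K ⧸ 𝔮) ℂ))
    (hE : ∀ χ, χ ∈ E ↔ IsPrim 𝔮 χ) {a b : 𝓞 K} (ha : IsUnit (Ideal.Quotient.mk 𝔮 a))
    (hb : IsUnit (Ideal.Quotient.mk 𝔮 b)) :
    ∑ χ ∈ E, χ (Ideal.Quotient.mk 𝔮 a) * starRingEnd ℂ (χ (Ideal.Quotient.mk 𝔮 b)) =
      ∑ S ∈ (QK 𝔮).powerset, (-1) ^ S.card * (nS 𝔮 S : ℂ) *
        (if a - b ∈ dS 𝔮 S then 1 else 0) := by
  haveI : Finite (𝓞 K ⧸ 𝔮) := Ideal.finiteQuotientOfFreeOfNeBot 𝔮 h𝔮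
  haveI : Fintype (MulChar (𝓞 K ⧸ 𝔮) ℂ) := Fintype.ofFinite _
  set F : MulChar (𝓞 K ⧸ 𝔮) ℂ → ℂ := fun χ =>
    χ (Ideal.Quotient.mk 𝔮 a) * starRingEnd ℂ (χ (Ideal.Quotient.mk 𝔮 b)) with hF
  set T : Finset (PK K) → MulChar (𝓞 K ⧸ 𝔮) ℂ → Prop := fun S χ =>
    ∀ α : 𝓞 K, α - 1 ∈ dS 𝔮 S → IsUnit (Ideal.Quotient.mk 𝔮 α) →
      χ (Ideal.Quotient.mk 𝔮 α) = 1 with hT
  have hind : ∀ χ : MulChar (𝓞 K ⧸ 𝔮) ℂ, (if χ ∈ E then F χ else 0) =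
      ∑ S ∈ (QK 𝔮).powerset, (-1) ^ S.card * (if T S χ then F χ else 0) := by
    intro χ
    have h1 : (if χ ∈ E then (1 : ℂ) else 0) =
        ∏ p ∈ QK 𝔮, ((if T {p} χ then (-1 : ℂ) else 0) + 1) := by
      by_cases hχ : χ ∈ E
      · rw [if_pos hχ]
        symm
        apply Finset.prod_eq_one
        intro p hp
        have h2 := (prim_iff h𝔮 χ).mp ((hE χ).mp hχ) p hp
        obtain ⟨α, h3, h4, h5⟩ := h2
        rw [if_neg, zero_add]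
        intro h6
        exact h5 (h6 α h3 h4)
      · rw [if_neg hχ]
        have h2 : ¬ IsPrim 𝔮 χ := fun h => hχ ((hE χ).mpr h)
        rw [prim_iff h𝔮 χ] at h2
        push Not at h2
        obtain ⟨p, hp, h3⟩ := h2
        symm
        apply Finset.prod_eq_zero hp
        rw [if_pos, neg_add_cancel]
        exact h3
    have h2 : (if χ ∈ E then (1 : ℂ) else 0) =
        ∑ S ∈ (QK 𝔮).powerset, (-1) ^ S.card * (if T S χ then 1 else 0) := by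
      rw [h1, Finset.prod_add]
      refine Finset.sum_congr rfl fun S hS => ?_
      rw [Finset.prod_const_one, mul_one]
      have hS' := Finset.mem_powerset.mp hS
      have h3 := triv_iff h𝔮 hS' χ
      by_cases hT' : T S χ
      · rw [if_pos hT', mul_one, Finset.prod_congr rfl
          (fun p hp => if_pos (h3.mp hT' p hp)), Finset.prod_const]
      · rw [if_neg hT', mul_zero]
        have h4 : ¬ ∀ p ∈ S, T {p} χ := fun hh => hT' (h3.mpr hh)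
        push Not at h4
        obtain ⟨p, hp, h5⟩ := h4
        exact Finset.prod_eq_zero hp (if_neg h5)
    calc (if χ ∈ E then F χ else 0) = (if χ ∈ E then (1 : ℂ) else 0) * F χ := by
          split_ifs <;> simp
      _ = _ := by
          rw [h2, Finset.sum_mul]
          refine Finset.sum_congr rfl fun S _ => ?_
          split_ifs <;> simp
  have hsum : ∑ χ ∈ E, F χ = ∑ χ, (if χ ∈ E then F χ else 0) := by
    rw [Finset.sum_ite_mem, Finset.univ_inter]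
  rw [hsum, Finset.sum_congr rfl fun χ _ => hind χ, Finset.sum_comm]
  refine Finset.sum_congr rfl fun S hS => ?_
  rw [← Finset.mul_sum, mul_assoc]
  congr 1
  rw [← Finset.sum_filter]
  have h5 := triv_orth_pr h𝔮 (Finset.mem_powerset.mp hS) (Finset.univ.filter (T S))
    (fun χ => by simp [hT]) ha hb
  rw [mul_ite, mul_one, mul_zero]
  exact h5


end Pool.Agent.LVK

namespace Pool.Agent.LVK

theorem triv_orth : type_of% @triv_orth_pr := @triv_orth_pr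
theorem prim_orth : type_of% @prim_orth_pr := @prim_orth_pr

end Pool.Agent.LVK
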