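import Pool.Agent.Lib_helper42.LVK.Defs
import Pool.Agent.Lib_helper92.KSA.BRG
import Pool.Agent.Lib_helper39.LVX.K_MC1A

/-!
# LVK block MC3A: the numbers of characters
-/

namespace Pool.Agent.LVK

open NumberField NumberField.InfinitePlace NumberField.Units Complex MeasureTheory Filter Topology
open Pool.Agent.HZ Pool.Agent.AS Pool.Agent.KS

variable {K : Type} [Field K] [NumberField K]

variable {𝔮 : Ideal (𝓞 K)}

theorem mc3a_isUnit_iff (𝔞 : Ideal (𝓞 K)) (x : 𝓞 K) :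
    IsUnit (Ideal.Quotient.mk 𝔞 x) ↔ Ideal.span {x} ⊔ 𝔞 = ⊤ := by
  rw [Ideal.eq_top_iff_one]
  constructor
  · intro h
    obtain ⟨y, hy⟩ := h.exists_right_inv
    obtain ⟨y, rfl⟩ := Ideal.Quotient.mk_surjective y
    rw [← map_mul, ← map_one (Ideal.Quotient.mk 𝔞), Ideal.Quotient.eq] at hy
    rw [Submodule.mem_sup]
    refine ⟨x * y, Ideal.mul_mem_right _ _ (Ideal.mem_span_singleton_self x), -(x * y - 1),
      neg_mem hy, by ring⟩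
  · intro h
    obtain ⟨a, ha, b, hb, hab⟩ := Submodule.mem_sup.mp h
    obtain ⟨c, rfl⟩ := Ideal.mem_span_singleton'.mp ha
    refine IsUnit.of_mul_eq_one (Ideal.Quotient.mk 𝔞 c) ?_
    rw [← map_mul, ← map_one (Ideal.Quotient.mk 𝔞), Ideal.Quotient.eq]
    have : x * c - 1 = -b := by rw [← hab]; ring
    rw [this]
    exact neg_mem hb

/-- a unit modulo `𝔡` lifts to a unit modulo `𝔮 ≤ 𝔡` -/
theorem mc3a_lift (h𝔮 : 𝔮 ≠ ⊥) {𝔡 : Ideal (𝓞 K)} {x : 𝓞 K}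
    (hx : IsUnit (Ideal.Quotient.mk 𝔡 x)) :
    ∃ y : 𝓞 K, y - x ∈ 𝔡 ∧ IsUnit (Ideal.Quotient.mk 𝔮 y) := by
  classical
  rw [mc3a_isUnit_iff] at hx
  set T : Finset (PK K) := (QK 𝔮).filter fun p => ¬ 𝔡 ≤ p.asIdeal with hT
  have hcop : 𝔡 ⊔ ∏ p ∈ T, p.asIdeal = ⊤ := by
    refine Ideal.sup_prod_eq_top fun p hp => ?_
    have h1 : ¬ 𝔡 ≤ p.asIdeal := (Finset.mem_filter.mp hp).2
    by_contra hne
    have h2 := p.isMaximal.eq_of_le hne (le_sup_right : p.asIdeal ≤ 𝔡 ⊔ p.asIdeal)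
    exact h1 (h2 ▸ le_sup_left)
  rw [Ideal.eq_top_iff_one] at hcop
  obtain ⟨a, ha, b, hb, hab⟩ := Submodule.mem_sup.mp hcop
  refine ⟨x * b + a, ?_, ?_⟩
  · have h1 : x * b + a - x = (1 - x) * a := by
      have : b = 1 - a := by rw [← hab]; ring
      rw [this]; ring
    rw [h1]
    exact Ideal.mul_mem_left _ _ ha
  · rw [mc3a_isUnit_iff]
    by_contra hne
    obtain ⟨m, hm, hle⟩ := Ideal.exists_le_maximal _ hne
    have hy : x * b + a ∈ m := hle (Ideal.mem_sup_left (Ideal.mem_span_singleton_self _))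
    have h2 : 𝔮 ≤ m := le_sup_right.trans hle
    have hm0 : m ≠ ⊥ := by
      rintro rfl
      exact h𝔮 (le_bot_iff.mp h2)
    set p : PK K := ⟨m, hm.isPrime, hm0⟩ with hp
    by_cases hd : 𝔡 ≤ m
    · have h3 : x ∈ m := by
        have h4 : x = (x * b + a) - (1 - x) * a := by
          have : b = 1 - a := by rw [← hab]; ring
          rw [this]; ring
        rw [h4]
        exact sub_mem hy (Ideal.mul_mem_left _ _ (hd ha))
      have h5 : Ideal.span {x} ⊔ 𝔡 ≤ m :=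
        sup_le ((Ideal.span_singleton_le_iff_mem _).mpr h3) hd
      rw [hx] at h5
      exact hm.ne_top (top_le_iff.mp h5)
    · have h3 : p ∈ T := by
        rw [hT, Finset.mem_filter]
        exact ⟨(mem_QK h𝔮 p).mpr (Ideal.dvd_iff_le.mpr h2), hd⟩
      have h4 : b ∈ m := by
        have h5 : ∏ p ∈ T, p.asIdeal ≤ p.asIdeal :=
          Ideal.le_of_dvd (Finset.dvd_prod_of_mem (fun p : PK K => p.asIdeal) h3)
        exact h5 hb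
      have h6 : a ∈ m := by
        have h7 : a = (x * b + a) - x * b := by ring
        rw [h7]
        exact sub_mem hy (Ideal.mul_mem_left _ _ h4)
      exact hm.ne_top ((Ideal.eq_top_iff_one m).mpr (hab ▸ add_mem h6 h4))

theorem mc3a_card (h𝔮 : 𝔮 ≠ ⊥) {𝔡 : Ideal (𝓞 K)} (hle : 𝔮 ≤ 𝔡) :
    Nat.card {χ : MulChar (𝓞 K ⧸ 𝔮) ℂ // ∀ α : 𝓞 K, α - 1 ∈ 𝔡 →
      IsUnit (Ideal.Quotient.mk 𝔮 α) → χ (Ideal.Quotient.mk 𝔮 α) = 1} =
      Nat.card (𝓞 K ⧸ 𝔡)ˣ := by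
  have hfin : Finite (𝓞 K ⧸ 𝔮) := Ideal.finiteQuotientOfFreeOfNeBot 𝔮 h𝔮
  have hne : NeZero (Monoid.exponent (𝓞 K ⧸ 𝔮)ˣ) := ⟨Monoid.exponent_ne_zero_of_finite⟩
  set f : (𝓞 K ⧸ 𝔮)ˣ →* (𝓞 K ⧸ 𝔡)ˣ :=
    Units.map (Ideal.Quotient.factor hle : (𝓞 K ⧸ 𝔮) →+* (𝓞 K ⧸ 𝔡)).toMonoidHom with hf
  have hsurj : Function.Surjective f := by
    intro u
    obtain ⟨x, hx⟩ := Ideal.Quotient.mk_surjective (u : 𝓞 K ⧸ 𝔡)
    obtain ⟨y, hy1, hy2⟩ := mc3a_lift h𝔮 (𝔡 := 𝔡) (x := x) (hx ▸ u.isUnit)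
    refine ⟨hy2.unit, ?_⟩
    ext
    rw [hf, Units.coe_map, IsUnit.unit_spec, ← hx]
    exact Ideal.Quotient.eq.mpr hy1
  have h1 : f.ker.index = Nat.card (𝓞 K ⧸ 𝔡)ˣ := by
    rw [Subgroup.index_ker, MonoidHom.range_eq_top.mpr hsurj]
    exact Nat.card_congr Subgroup.topEquiv.toEquiv
  rw [← h1, Subgroup.index, ← MulChar.card_subgroupOrderIsoSubgroupMulChar (M := 𝓞 K ⧸ 𝔮) (R := ℂ)]
  refine Nat.card_congr (Equiv.subtypeEquivRight fun χ => ?_)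
  have key : χ ∈ (MulChar.subgroupOrderIsoSubgroupMulChar (𝓞 K ⧸ 𝔮) ℂ f.ker).ofDual ↔
      ∀ m ∈ f.ker, χ m = 1 := MulChar.mem_subgroupOrderIsoSubgroupMulChar_iff
  refine Iff.trans ?_ key.symm
  constructor
  · intro h m hm
    obtain ⟨x, hx⟩ := Ideal.Quotient.mk_surjective (m : 𝓞 K ⧸ 𝔮)
    rw [← hx]
    refine h x ?_ (hx ▸ m.isUnit)
    have h2 : (f m : 𝓞 K ⧸ 𝔡) = 1 := by
      rw [MonoidHom.mem_ker.mp hm]; rfl
    rw [hf, Units.coe_map, ← hx] at h2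
    exact Ideal.Quotient.eq.mp h2
  · intro h α hα hu
    have h2 := h hu.unit (by
      rw [MonoidHom.mem_ker]
      ext
      rw [hf, Units.coe_map, IsUnit.unit_spec]
      exact Ideal.Quotient.eq.mpr hα)
    rwa [IsUnit.unit_spec] at h2

/-- `nS = φ(d_S)`; Euler's function as a product -/
theorem nS_eq_pr (h𝔮 : 𝔮 ≠ ⊥) {S : Finset (PK K)} (hS : S ⊆ QK 𝔮) :
    nS 𝔮 S = Nat.card (𝓞 K ⧸ dS 𝔮 S)ˣ := by
  unfold nS
  rw [mc3a_card h𝔮 (le_dS h𝔮 hS)]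

theorem nS_le_pr (h𝔮 : 𝔮 ≠ ⊥) {S : Finset (PK K)} (hS : S ⊆ QK 𝔮) :
    0 ≤ nS 𝔮 S ∧ nS 𝔮 S ≤ Ideal.absNorm (dS 𝔮 S) := by
  refine ⟨by unfold nS; positivity, ?_⟩
  rw [nS_eq_pr h𝔮 hS]
  have h0 : dS 𝔮 S ≠ ⊥ := by
    intro h
    have := le_dS h𝔮 hS
    rw [h] at this
    exact h𝔮 (le_bot_iff.mp this)
  have hfin : Finite (𝓞 K ⧸ dS 𝔮 S) := Ideal.finiteQuotientOfFreeOfNeBot _ h0
  rw [Ideal.absNorm_apply, Submodule.cardQuot_apply, Nat.cast_le]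
  exact Nat.card_le_card_of_injective (fun u : (𝓞 K ⧸ dS 𝔮 S)ˣ => (u : 𝓞 K ⧸ dS 𝔮 S))
    Units.val_injective


end Pool.Agent.LVK

namespace Pool.Agent.LVK

theorem nS_eq : type_of% @nS_eq_pr := @nS_eq_pr
theorem nS_le : type_of% @nS_le_pr := @nS_le_pr

end Pool.Agent.LVK
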