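import Pool.Agent.Lib_helper42.LVK.Defs
import Pool.Agent.Lib_helper41.HZF.YB
import Pool.Agent.Lib_helper41.HZF.KG
import Pool.Agent.Lib_helper92.KSA.BRG
import Pool.Agent.Lib_helper92.KSA.LATU
import Pool.Agent.Lib_helper92.KSA.LNZ
import Pool.Agent.Lib_helper39.LVX.K_MC2
import Pool.Agent.Lib_helper39.LVX.K_MC3A

/-!
# LVK block FC3: the sum over the primitive characters of the value at a unit
-/

namespace Pool.Agent.LVK

open NumberField NumberField.InfinitePlace NumberField.Units Complex MeasureTheory Filter Topology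
open Pool.Agent.HZ Pool.Agent.AS Pool.Agent.KS

variable {K : Type} [Field K] [NumberField K]

variable {𝔮 : Ideal (𝓞 K)}

open scoped Classical in
/-- the sum over primitive characters of `χ(ε)` for a fixed unit `ε ≠ 1` is `O(2^ω)` -/
theorem prim_unit_sum_pr (ε : (𝓞 K)ˣ) (hε : ε ≠ 1) : ∃ C : ℝ, 0 ≤ C ∧ ∀ (𝔮 : Ideal (𝓞 K))
    (_ : 𝔮 ≠ ⊥) (E : Finset (MulChar (𝓞 K ⧸ 𝔮) ℂ)) (_ : ∀ χ, χ ∈ E ↔ IsPrim 𝔮 χ),
    ‖∑ χ ∈ E, χ (Ideal.Quotient.mk 𝔮 (ε : 𝓞 K))‖ ≤ C * 2 ^ (QK 𝔮).card := by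
  have hne : (ε : 𝓞 K) - 1 ≠ 0 := by
    intro h
    exact hε (Units.ext (sub_eq_zero.1 h))
  set N : ℕ := Ideal.absNorm (Ideal.span {(ε : 𝓞 K) - 1}) with hN
  have hN0 : N ≠ 0 := by
    rw [hN, Ne, Ideal.absNorm_eq_zero_iff, Ideal.span_singleton_eq_bot]
    exact hne
  refine ⟨N, Nat.cast_nonneg _, fun 𝔮 h𝔮 E hE => ?_⟩
  have h1 : IsUnit (Ideal.Quotient.mk 𝔮 (ε : 𝓞 K)) := ε.isUnit.map (Ideal.Quotient.mk 𝔮)
  have h2 : IsUnit (Ideal.Quotient.mk 𝔮 (1 : 𝓞 K)) := isUnit_one.map (Ideal.Quotient.mk 𝔮)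
  have h3 := prim_orth h𝔮 E hE h1 h2
  have h4 : ∑ χ ∈ E, χ (Ideal.Quotient.mk 𝔮 (ε : 𝓞 K)) =
      ∑ χ ∈ E, χ (Ideal.Quotient.mk 𝔮 (ε : 𝓞 K)) *
        starRingEnd ℂ (χ (Ideal.Quotient.mk 𝔮 (1 : 𝓞 K))) := by
    refine Finset.sum_congr rfl fun χ _ => ?_
    rw [map_one, map_one, map_one, mul_one]
  rw [h4, h3]
  have h5 : ∀ S ∈ (QK 𝔮).powerset, ‖(-1 : ℂ) ^ S.card * (nS 𝔮 S : ℂ) *
      (if (ε : 𝓞 K) - 1 ∈ dS 𝔮 S then 1 else 0)‖ ≤ N := by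
    intro S hS
    by_cases h6 : (ε : 𝓞 K) - 1 ∈ dS 𝔮 S
    · rw [if_pos h6, mul_one, norm_mul, norm_pow, norm_neg, norm_one, one_pow, one_mul,
        Complex.norm_real]
      obtain ⟨h7, h8⟩ := nS_le h𝔮 (Finset.mem_powerset.1 hS)
      rw [Real.norm_of_nonneg h7]
      refine h8.trans ?_
      have h9 : Ideal.absNorm (dS 𝔮 S) ∣ N :=
        Ideal.absNorm_dvd_absNorm_of_le ((Ideal.span_singleton_le_iff_mem _).2 h6)
      exact_mod_cast Nat.le_of_dvd (Nat.pos_of_ne_zero hN0) h9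
    · rw [if_neg h6, mul_zero, norm_zero]
      exact Nat.cast_nonneg _
  refine (norm_sum_le_of_le _ h5).trans (le_of_eq ?_)
  rw [Finset.sum_const, Finset.card_powerset, nsmul_eq_mul]
  push_cast
  ring

end Pool.Agent.LVK

namespace Pool.Agent.LVK

theorem prim_unit_sum : type_of% @prim_unit_sum_pr := @prim_unit_sum_pr

end Pool.Agent.LVK
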