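import Pool.Agent.Lib_helper42.LVK.Defs
import Pool.Agent.Lib_helper41.HZF.YB
import Pool.Agent.Lib_helper41.HZF.KG
import Pool.Agent.Lib_helper92.KSA.BRG
import Pool.Agent.Lib_helper92.KSA.LATU
import Pool.Agent.Lib_helper92.KSA.LNZ

/-!
# LVK block FC4A: approximation of periodisations by trigonometric polynomials
-/

set_option autoImplicit false

namespace Pool.Agent.LVK

open NumberField NumberField.InfinitePlace NumberField.Units Complex MeasureTheory Filter Topology
open Pool.Agent.HZ Pool.Agent.AS Pool.Agent.KS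

open UnitAddTorus

/-- the periodisation -/
noncomputable def fc4a_G {r : ℕ} (H : (Fin r → ℝ) → ℝ) (x : Fin r → ℝ) : ℝ :=
  ∑' m : Fin r → ℤ, H (fun i => x i + m i)

theorem fc4a_fin {r : ℕ} {H : (Fin r → ℝ) → ℝ} (hc : HasCompactSupport H) (R : ℝ) :
    ∃ s : Finset (Fin r → ℤ), ∀ x : Fin r → ℝ, ‖x‖ ≤ R → ∀ m ∉ s, H (fun i => x i + m i) = 0 := by
  classical
  obtain ⟨A, hA⟩ := hc.isCompact.isBounded.exists_norm_le
  refine ⟨Fintype.piFinset fun _ => Finset.Icc (-⌈A + R⌉) ⌈A + R⌉, fun x hx m hm => ?_⟩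
  by_contra h
  refine hm (Fintype.mem_piFinset.2 fun i => ?_)
  have h1 := hA _ (subset_tsupport H h)
  have h2 : |x i + m i| ≤ A := by
    have := (norm_le_pi_norm (fun i => x i + (m i : ℝ)) i).trans h1
    simpa using this
  have h3 : |x i| ≤ R := by
    have := (norm_le_pi_norm x i).trans hx
    simpa using this
  have h4 : |(m i : ℝ)| ≤ A + R := by
    have h5 : (m i : ℝ) = (x i + m i) - x i := by ring
    rw [h5]
    exact (abs_sub _ _).trans (add_le_add h2 h3)
  have h6 := abs_le.1 h4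
  rw [Finset.mem_Icc]
  constructor
  · have h7 : -((⌈A + R⌉ : ℤ) : ℝ) ≤ m i := by linarith [Int.le_ceil (A + R)]
    exact_mod_cast h7
  · have h7 : (m i : ℝ) ≤ ((⌈A + R⌉ : ℤ) : ℝ) := by linarith [Int.le_ceil (A + R)]
    exact_mod_cast h7

theorem fc4a_cont {r : ℕ} {H : (Fin r → ℝ) → ℝ} (hH : Continuous H) (hc : HasCompactSupport H) :
    Continuous (fc4a_G H) := by
  rw [continuous_iff_continuousAt]
  intro x₀
  obtain ⟨s, hs⟩ := fc4a_fin hc (‖x₀‖ + 1)
  have h1 : ContinuousAt (fun x : Fin r → ℝ => ∑ m ∈ s, H (fun i => x i + m i)) x₀ := by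
    have : Continuous (fun x : Fin r → ℝ => ∑ m ∈ s, H (fun i => x i + m i)) := by
      refine continuous_finsetSum _ fun m _ => hH.comp ?_
      fun_prop
    exact this.continuousAt
  refine h1.congr ?_
  have h2 : ∀ᶠ x in 𝓝 x₀, ‖x‖ < ‖x₀‖ + 1 :=
    (continuous_norm.tendsto x₀).eventually (gt_mem_nhds (lt_add_one _))
  filter_upwards [h2] with x hx
  exact (tsum_eq_sum (fun m hm => hs x hx.le m hm)).symm

theorem fc4a_per {r : ℕ} (H : (Fin r → ℝ) → ℝ) (x : Fin r → ℝ) (n : Fin r → ℤ) :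
    fc4a_G H (fun i => x i + n i) = fc4a_G H x := by
  unfold fc4a_G
  rw [← Equiv.tsum_eq (Equiv.addLeft n) (fun m : Fin r → ℤ => H (fun i => x i + m i))]
  refine tsum_congr fun m => ?_
  congr 1
  funext i
  simp only [Equiv.coe_addLeft, Pi.add_apply]
  push_cast
  ring

/-- the quotient map -/
def fc4a_pi (r : ℕ) (x : Fin r → ℝ) : UnitAddTorus (Fin r) := fun i => (x i : UnitAddCircle)

theorem fc4a_quot (r : ℕ) : IsOpenQuotientMap (fc4a_pi r) := by
  have h : ∀ i : Fin r, IsOpenQuotientMap (fun x : ℝ => (x : UnitAddCircle)) := fun i =>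
    QuotientAddGroup.isOpenQuotientMap_mk
  exact IsOpenQuotientMap.piMap h

theorem fc4a_factors {r : ℕ} (H : (Fin r → ℝ) → ℝ) {x y : Fin r → ℝ}
    (h : fc4a_pi r x = fc4a_pi r y) : fc4a_G H x = fc4a_G H y := by
  have h1 : ∀ i, ∃ n : ℤ, x i = y i + n := by
    intro i
    have h2 : ((x i : ℝ) : UnitAddCircle) = (y i : ℝ) := congrFun h i
    have h3 : ((x i - y i : ℝ) : UnitAddCircle) = 0 := by
      rw [AddCircle.coe_sub, h2, sub_self]
    obtain ⟨n, hn⟩ := (AddCircle.coe_eq_zero_iff (1 : ℝ)).1 h3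
    refine ⟨n, ?_⟩
    rw [zsmul_eq_mul, mul_one] at hn
    linarith
  choose n hn using h1
  have h2 : x = fun i => y i + n i := funext hn
  rw [h2]
  exact fc4a_per H y n

theorem fc4a_lift {r : ℕ} {H : (Fin r → ℝ) → ℝ} (hH : Continuous H) (hc : HasCompactSupport H) :
    ∃ g : C(UnitAddTorus (Fin r), ℂ), ∀ x : Fin r → ℝ, g (fc4a_pi r x) = (fc4a_G H x : ℝ) := by
  let G : C(Fin r → ℝ, ℂ) := ⟨fun x => ((fc4a_G H x : ℝ) : ℂ),
    Complex.continuous_ofReal.comp (fc4a_cont hH hc)⟩
  let p : C(Fin r → ℝ, UnitAddTorus (Fin r)) := ⟨fc4a_pi r, (fc4a_quot r).continuous⟩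
  have hp : Topology.IsQuotientMap p := (fc4a_quot r).isQuotientMap
  have hf : Function.FactorsThrough G p := by
    intro x y hxy
    change ((fc4a_G H x : ℝ) : ℂ) = ((fc4a_G H y : ℝ) : ℂ)
    rw [fc4a_factors H hxy]
  refine ⟨hp.lift G hf, fun x => ?_⟩
  exact DFunLike.congr_fun (hp.lift_comp G hf) x

/-- the box -/
def fc4a_box (r : ℕ) : Set (Fin r → ℝ) :=
  {x : Fin r → ℝ | ∀ i, x i ∈ Set.Ioc ((0 : Fin r → ℝ) i) ((0 : Fin r → ℝ) i + 1)}

theorem fc4a_box_meas (r : ℕ) : MeasurableSet (fc4a_box r) :=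
  MeasurableSet.univ_pi' (fun _ => measurableSet_Ioc)

theorem fc4a_unfold {r : ℕ} {H : (Fin r → ℝ) → ℝ} (hH : Continuous H)
    (hc : HasCompactSupport H) : ∫ x in fc4a_box r, fc4a_G H x = ∫ x, H x := by
  classical
  have hHi : Integrable H := hH.integrable_of_hasCompactSupport hc
  obtain ⟨s, hs⟩ := fc4a_fin hc 1
  have hbox : ∀ x ∈ fc4a_box r, ‖x‖ ≤ 1 := by
    intro x hx
    refine (pi_norm_le_iff_of_nonneg zero_le_one).2 fun i => ?_
    have h1 := hx i
    simp only [Pi.zero_apply, zero_add, Set.mem_Ioc] at h1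
    rw [Real.norm_of_nonneg h1.1.le]
    exact h1.2
  have h1 : ∫ x in fc4a_box r, fc4a_G H x =
      ∫ x in fc4a_box r, ∑ m ∈ s, H (fun i => x i + m i) := by
    refine setIntegral_congr_fun (fc4a_box_meas r) fun x hx => ?_
    exact tsum_eq_sum (fun m hm => hs x (hbox x hx) m hm)
  have hint : ∀ m : Fin r → ℤ, Integrable (fun x : Fin r → ℝ => H (fun i => x i + m i)) := by
    intro m
    exact hHi.comp_add_right (fun i => (m i : ℝ))
  have h2 : ∫ x in fc4a_box r, ∑ m ∈ s, H (fun i => x i + m i) =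
      ∑ m ∈ s, ∫ y, (fc4a_box r).indicator (fun x : Fin r → ℝ => H (fun i => x i + m i))
        (y - fun i => (m i : ℝ)) := by
    rw [integral_finsetSum _ fun m _ => (hint m).integrableOn]
    refine Finset.sum_congr rfl fun m _ => ?_
    rw [integral_sub_right_eq_self
      ((fc4a_box r).indicator (fun x : Fin r → ℝ => H (fun i => x i + m i))),
      integral_indicator (fc4a_box_meas r)]
  rw [h1, h2, ← integral_finsetSum]
  · refine integral_congr_ae (Eventually.of_forall fun y => ?_)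
    simp only
    let m₀ : Fin r → ℤ := fun i => ⌈y i⌉ - 1
    have hm₀ : (y - fun i => (m₀ i : ℝ)) ∈ fc4a_box r := by
      intro i
      simp only [Pi.sub_apply, Pi.zero_apply, zero_add, Set.mem_Ioc, m₀]
      push_cast
      constructor
      · linarith [Int.ceil_lt_add_one (y i)]
      · linarith [Int.le_ceil (y i)]
    have hval : ∀ m : Fin r → ℤ, (fun i => (y - fun i => (m i : ℝ)) i + (m i : ℝ)) = y := by
      intro m
      funext i
      simp
    rw [Finset.sum_eq_single m₀]
    · rw [Set.indicator_of_mem hm₀, hval]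
    · intro m _ hm
      refine Set.indicator_of_notMem (fun h => hm ?_) _
      funext i
      have h3 := h i
      simp only [Pi.sub_apply, Pi.zero_apply, zero_add, Set.mem_Ioc] at h3
      have h4 : ⌈y i⌉ = m i + 1 := by
        rw [Int.ceil_eq_iff]
        push_cast
        constructor <;> linarith
      simp only [m₀]
      omega
    · intro hm
      rw [Set.indicator_of_mem hm₀]
      exact hs _ (hbox _ hm₀) m₀ hm
  · intro m _
    exact ((hint m).indicator (fc4a_box_meas r)).comp_sub_right _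

theorem fc4a_mf {r : ℕ} (k : Fin r → ℤ) (x : Fin r → ℝ) :
    mFourier k (fc4a_pi r x) = cexp (((∑ i, k i * (2 * Real.pi * x i) : ℝ) : ℂ) * I) := by
  have h1 : mFourier k (fc4a_pi r x) = ∏ i, fourier (k i) (x i : UnitAddCircle) := rfl
  rw [h1]
  push_cast
  rw [Finset.sum_mul, Complex.exp_sum]
  refine Finset.prod_congr rfl fun i _ => ?_
  rw [fourier_coe_apply]
  congr 1
  push_cast
  ring

theorem fc4a_mf_int {r : ℕ} (k : Fin r → ℤ) :
    ∫ x in fc4a_box r, mFourier k (fc4a_pi r x) = if k = 0 then 1 else 0 := by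
  have h1 := orthonormal_iff_ite.1 (orthonormal_mFourier (d := Fin r)) 0 k
  simp only [ContinuousMap.inner_toLp, mFourier_zero] at h1
  rw [integral_preimage _ (0 : Fin r → ℝ)] at h1
  simp only [ContinuousMap.one_apply, map_one, mul_one, eq_comm (a := (0 : Fin r → ℤ))] at h1
  exact h1

theorem fc4a_box_vol (r : ℕ) : volume (fc4a_box r) = 1 := by
  have h1 : fc4a_box r = Set.pi Set.univ (fun i : Fin r => Set.Ioc ((0 : Fin r → ℝ) i)
      ((1 : Fin r → ℝ) i)) := by
    ext x
    simp [fc4a_box, Set.mem_pi]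
  rw [h1, Real.volume_pi_Ioc]
  simp

theorem fc4a_io {r : ℕ} {f : (Fin r → ℝ) → ℂ} (hf : Continuous f) :
    IntegrableOn f (fc4a_box r) := by
  refine (hf.locallyIntegrable.integrableOn_isCompact
    (isCompact_closedBall (0 : Fin r → ℝ) 1)).mono_set fun x hx => ?_
  rw [mem_closedBall_zero_iff]
  refine (pi_norm_le_iff_of_nonneg zero_le_one).2 fun i => ?_
  have h1 := hx i
  simp only [Pi.zero_apply, zero_add, Set.mem_Ioc] at h1
  rw [Real.norm_of_nonneg h1.1.le]
  exact h1.2

/-- approximation of periodizations by trigonometric polynomials -/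
theorem trig_approx_pr {r : ℕ} {F : (Fin r → ℝ) → ℝ} (hF : Continuous F)
    (hc : HasCompactSupport F) {ε : ℝ} (hε : 0 < ε) :
    ∃ (N : Finset (Fin r → ℤ)) (c : (Fin r → ℤ) → ℂ), (0 : Fin r → ℤ) ∈ N ∧
      ‖c 0 - ((∫ θ, F θ) / (2 * Real.pi) ^ r : ℝ)‖ ≤ ε ∧
      ∀ φ : Fin r → ℝ, ‖((∑' m : Fin r → ℤ, F (fun i => φ i + 2 * Real.pi * m i) : ℝ) : ℂ) -
        ∑ k ∈ N, c k * cexp (((∑ i, k i * φ i : ℝ) : ℂ) * I)‖ ≤ ε := by
  classical
  have hpi : (2 * Real.pi) ≠ 0 := by positivity
  let H : (Fin r → ℝ) → ℝ := fun x => F ((2 * Real.pi) • x)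
  have hH : Continuous H := hF.comp (continuous_const_smul _)
  have hcH : HasCompactSupport H := hc.comp_homeomorph (Homeomorph.smulOfNeZero _ hpi)
  have hHint : ∫ x, H x = (∫ θ, F θ) / (2 * Real.pi) ^ r := by
    have h1 := Measure.integral_comp_smul (volume : Measure (Fin r → ℝ)) F (2 * Real.pi)
    rw [Module.finrank_fin_fun, smul_eq_mul, abs_of_pos (by positivity)] at h1
    rw [h1]
    ring
  obtain ⟨g, hg⟩ := fc4a_lift hH hcH
  have hcl : g ∈ (Submodule.span ℂ (Set.range (mFourier (d := Fin r)))).topologicalClosure := by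
    rw [span_mFourier_closure_eq_top]
    exact Submodule.mem_top
  obtain ⟨P, hP, hgP⟩ := Metric.mem_closure_iff.1 hcl ε hε
  obtain ⟨c, rfl⟩ := Finsupp.mem_span_range_iff_exists_finsupp.1 hP
  have hPt : ∀ x : Fin r → ℝ, (c.sum fun k a => a • mFourier k) (fc4a_pi r x) =
      ∑ k ∈ insert 0 c.support, c k * mFourier k (fc4a_pi r x) := by
    intro x
    have h1 : (c.sum fun k a => a • mFourier k) =
        ∑ k ∈ insert 0 c.support, c k • mFourier k := by
      exact Finsupp.sum_of_support_subset c (Finset.subset_insert _ _)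
        (fun (k : Fin r → ℤ) (a : ℂ) => a • (mFourier k : C(UnitAddTorus (Fin r), ℂ)))
        (fun k _ => by ext t; exact zero_mul _)
    rw [h1, ContinuousMap.sum_apply]
    rfl
  have hbd : ∀ x : Fin r → ℝ, ‖((fc4a_G H x : ℝ) : ℂ) -
      ∑ k ∈ insert 0 c.support, c k * mFourier k (fc4a_pi r x)‖ ≤ ε := by
    intro x
    rw [← hg, ← hPt, ← dist_eq_norm]
    exact (ContinuousMap.dist_apply_le_dist _).trans hgP.le
  refine ⟨insert 0 c.support, c, Finset.mem_insert_self _ _, ?_, fun φ => ?_⟩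
  · rw [← hHint, ← fc4a_unfold hH hcH]
    have hic : ∀ k : Fin r → ℤ, IntegrableOn (fun x => c k * mFourier k (fc4a_pi r x))
        (fc4a_box r) := by
      intro k
      exact fc4a_io (continuous_const.mul ((mFourier k).continuous.comp
        (fc4a_quot r).continuous))
    have h2 : ∫ x in fc4a_box r, ∑ k ∈ insert 0 c.support, c k * mFourier k (fc4a_pi r x) =
        c 0 := by
      rw [integral_finsetSum _ fun k _ => hic k, Finset.sum_eq_single 0]
      · rw [integral_const_mul, fc4a_mf_int, if_pos rfl, mul_one]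
      · intro k _ hk
        rw [integral_const_mul, fc4a_mf_int, if_neg hk, mul_zero]
      · intro h
        exact absurd (Finset.mem_insert_self _ _) h
    have hiG : IntegrableOn (fun x => ((fc4a_G H x : ℝ) : ℂ)) (fc4a_box r) := by
      exact fc4a_io (Complex.continuous_ofReal.comp (fc4a_cont hH hcH))
    have h3 : ((∫ x in fc4a_box r, fc4a_G H x : ℝ) : ℂ) =
        ∫ x in fc4a_box r, ((fc4a_G H x : ℝ) : ℂ) := integral_ofReal.symm
    rw [h3, norm_sub_rev, ← h2, ← integral_sub hiG (integrable_finsetSum _ fun k _ => hic k)]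
    have h4 := norm_setIntegral_le_of_norm_le_const (μ := volume) (s := fc4a_box r) (C := ε)
      (f := fun x => ((fc4a_G H x : ℝ) : ℂ) -
        ∑ k ∈ insert 0 c.support, c k * mFourier k (fc4a_pi r x))
      (by rw [fc4a_box_vol]; exact ENNReal.one_lt_top) (fun x _ => hbd x)
    rw [measureReal_def, fc4a_box_vol, ENNReal.toReal_one, mul_one] at h4
    exact h4
  · have h5 := hbd (fun i => φ i / (2 * Real.pi))
    have h6 : fc4a_G H (fun i => φ i / (2 * Real.pi)) =
        ∑' m : Fin r → ℤ, F (fun i => φ i + 2 * Real.pi * m i) := by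
      unfold fc4a_G
      refine tsum_congr fun m => ?_
      change F _ = F _
      congr 1
      funext i
      simp only [Pi.smul_apply, smul_eq_mul]
      field_simp
    have h7 : ∀ k : Fin r → ℤ, mFourier k (fc4a_pi r (fun i => φ i / (2 * Real.pi))) =
        cexp (((∑ i, k i * φ i : ℝ) : ℂ) * I) := by
      intro k
      rw [fc4a_mf]
      congr 3
      refine Finset.sum_congr rfl fun i _ => ?_
      field_simp
    rw [h6] at h5
    simp only [h7] at h5
    exact h5


end Pool.Agent.LVK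

namespace Pool.Agent.LVK

theorem trig_approx : type_of% @trig_approx_pr := @trig_approx_pr

end Pool.Agent.LVK
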