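import Pool.Agent.Lib_helper42.LVK.Defs
import Pool.Agent.Lib_helper92.KSA.BRG

/-! Block MC3B (MP_77948b_nt, LVK): the number of units modulo an ideal. -/

namespace Pool.Agent.LVK

open NumberField NumberField.InfinitePlace NumberField.Units Complex MeasureTheory Filter Topology
open Pool.Agent.HZ Pool.Agent.AS Pool.Agent.KS

variable {K : Type} [Field K] [NumberField K]

variable {𝔮 : Ideal (𝓞 K)}

/-- the units modulo a power of a prime ideal -/
theorem mc3b_pow (p : PK K) {k : ℕ} (hk : k ≠ 0) :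
    (Nat.card (𝓞 K ⧸ p.asIdeal ^ k)ˣ : ℝ) =
      (NK K p : ℝ) ^ k * (1 - (NK K p : ℝ)⁻¹) := by
  classical
  set I : Ideal (𝓞 K) := p.asIdeal with hI
  have hI0 : I ≠ ⊥ := p.ne_bot
  have hIk : I ^ k ≠ ⊥ := by
    rw [← Ideal.zero_eq_bot]
    exact pow_ne_zero _ hI0
  have hfin : Finite (𝓞 K ⧸ I ^ k) := Ideal.finiteQuotientOfFreeOfNeBot _ hIk
  have hfin' : Finite (𝓞 K ⧸ I) := Ideal.finiteQuotientOfFreeOfNeBot _ hI0
  have hle : I ^ k ≤ I := Ideal.pow_le_self hk
  have hmax : I.IsMaximal := p.isMaximal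
  set f : 𝓞 K ⧸ I ^ k →+* 𝓞 K ⧸ I := Ideal.Quotient.factor hle with hf
  have hfm : ∀ β : 𝓞 K, f (Ideal.Quotient.mk _ β) = Ideal.Quotient.mk I β := fun β => rfl
  have hsurj : Function.Surjective f := Ideal.Quotient.factor_surjective hle
  -- units
  have hunit : ∀ x : 𝓞 K ⧸ I ^ k, IsUnit x ↔ f x ≠ 0 := by
    intro x
    obtain ⟨β, rfl⟩ := Ideal.Quotient.mk_surjective x
    rw [hfm]
    constructor
    · intro hx h0
      have h1 := hx.map f
      rw [hfm, h0] at h1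
      exact not_isUnit_zero h1
    · intro hx
      have h1 : β ∉ I := fun h => hx (Ideal.Quotient.eq_zero_iff_mem.mpr h)
      have h2 : IsCoprime (Ideal.span {β}) I := by
        rw [Ideal.isCoprime_iff_sup_eq]
        refine hmax.1.2 _ (lt_of_le_of_ne le_sup_right ?_)
        intro h3
        apply h1
        rw [h3]
        exact Ideal.mem_sup_left (Ideal.mem_span_singleton_self β)
      have h3 : IsCoprime (Ideal.span {β}) (I ^ k) := IsCoprime.pow_right h2
      rw [Ideal.isCoprime_iff_exists] at h3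
      obtain ⟨i, hi, j, hj, hij⟩ := h3
      obtain ⟨c, hc⟩ := Ideal.mem_span_singleton.mp hi
      refine IsUnit.of_mul_eq_one (Ideal.Quotient.mk _ c) ?_
      rw [← map_mul, ← hc, ← map_one (Ideal.Quotient.mk (I ^ k)), Ideal.Quotient.eq]
      have : i - 1 = - j := by rw [← hij]; ring
      rw [this]
      exact neg_mem hj
  -- the kernel
  have hker : Nat.card {x // f x = 0} * Nat.card (𝓞 K ⧸ I) = Nat.card (𝓞 K ⧸ I ^ k) := by
    have h1 := AddSubgroup.card_mul_index (f : 𝓞 K ⧸ I ^ k →+ 𝓞 K ⧸ I).ker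
    rw [AddSubgroup.index_ker] at h1
    have h2 : Nat.card (f : 𝓞 K ⧸ I ^ k →+ 𝓞 K ⧸ I).range = Nat.card (𝓞 K ⧸ I) := by
      have h3 : (f : 𝓞 K ⧸ I ^ k →+ 𝓞 K ⧸ I).range = ⊤ :=
        AddMonoidHom.range_eq_top.mpr hsurj
      rw [h3]
      exact Nat.card_congr AddSubgroup.topEquiv.toEquiv
    rw [h2] at h1
    exact h1
  have hsum : Nat.card {x // f x = 0} + Nat.card {x // ¬ f x = 0} = Nat.card (𝓞 K ⧸ I ^ k) := by
    rw [← Nat.card_sum]
    exact Nat.card_congr (Equiv.sumCompl fun x => f x = 0)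
  have hU : Nat.card (𝓞 K ⧸ I ^ k)ˣ = Nat.card {x // ¬ f x = 0} := by
    rw [Nat.card_congr (Submonoid.unitsTypeEquivIsUnitSubmonoid (M := 𝓞 K ⧸ I ^ k)).toEquiv]
    exact Nat.card_congr (Equiv.subtypeEquivRight fun x => hunit x)
  have hN1 : Nat.card (𝓞 K ⧸ I) = NK K p := rfl
  have hN2 : Nat.card (𝓞 K ⧸ I ^ k) = NK K p ^ k := by
    have : Nat.card (𝓞 K ⧸ I ^ k) = Ideal.absNorm (I ^ k) := rfl
    rw [this, map_pow]
    rfl
  have hp2 : (NK K p : ℝ) ≠ 0 := by
    have := two_le_NK_pr p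
    positivity
  rw [hN1, hN2] at hker
  rw [hN2] at hsum
  rw [hU]
  have h1 : (Nat.card {x // f x = 0} : ℝ) * NK K p = (NK K p : ℝ) ^ k := by exact_mod_cast hker
  have h2 : (Nat.card {x // f x = 0} : ℝ) + Nat.card {x // ¬ f x = 0} = (NK K p : ℝ) ^ k := by
    exact_mod_cast hsum
  have h3 : (Nat.card {x // f x = 0} : ℝ) = (NK K p : ℝ) ^ k * (NK K p : ℝ)⁻¹ := by
    rw [← h1, mul_assoc, mul_inv_cancel₀ hp2, mul_one]
  rw [mul_sub, mul_one, ← h3]
  linarith

theorem mc3b_mul {I J : Ideal (𝓞 K)} (h : IsCoprime I J) :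
    Nat.card (𝓞 K ⧸ (I * J))ˣ = Nat.card (𝓞 K ⧸ I)ˣ * Nat.card (𝓞 K ⧸ J)ˣ := by
  rw [← Nat.card_prod]
  exact Nat.card_congr ((Units.mapEquiv
    (Ideal.quotientMulEquivQuotientProd I J h).toMulEquiv).trans MulEquiv.prodUnits).toEquiv

theorem mc3b_IK (g : PK K →₀ ℕ) : (Nat.card (𝓞 K ⧸ IK g)ˣ : ℝ) =
    ∏ p ∈ g.support, ((NK K p : ℝ) ^ g p * (1 - (NK K p : ℝ)⁻¹)) := by
  classical
  induction g using Finsupp.induction with
  | zero =>
    rw [IK_zero_pr]
    have h1 : Nat.card (𝓞 K ⧸ (⊤ : Ideal (𝓞 K)))ˣ = 1 := by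
      have : Subsingleton (𝓞 K ⧸ (⊤ : Ideal (𝓞 K))) := Ideal.Quotient.subsingleton_iff.mpr rfl
      exact Nat.card_unique
    rw [h1]
    simp
  | single_add p k f hp hk ih =>
    have hcop : IsCoprime (IK (Finsupp.single p k)) (IK f) := by
      have h1 : IK (Finsupp.single p k) ⊔ IK f = ⊤ := by
        rw [IK_sup_pr, ← IK_zero_pr]
        congr 1
        ext q
        by_cases hq : q = p
        · rw [hq, Finsupp.inf_apply, Finsupp.notMem_support_iff.mp hp]
          simp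
        · rw [Finsupp.inf_apply, Finsupp.single_eq_of_ne hq]
          simp
      rwa [Ideal.isCoprime_iff_sup_eq]
    have hsupp : (Finsupp.single p k + f).support = insert p f.support := by
      rw [Finsupp.support_add_eq]
      · rw [Finsupp.support_single _ hk]
        rfl
      · rw [Finsupp.support_single _ hk]
        exact Finset.disjoint_singleton_left.mpr hp
    rw [IK_add_pr, mc3b_mul hcop, Nat.cast_mul, ih, IK_single_pr, mc3b_pow p hk, hsupp,
      Finset.prod_insert hp]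
    have hfp := Finsupp.notMem_support_iff.mp hp
    congr 1
    · rw [Finsupp.add_apply, Finsupp.single_eq_same, hfp, add_zero]
    · refine Finset.prod_congr rfl fun q hq => ?_
      have hqp : q ≠ p := fun h => hp (h ▸ hq)
      rw [Finsupp.add_apply, Finsupp.single_eq_of_ne hqp, zero_add]

/-- Euler's function -/
theorem card_units_eq_pr {𝔡 : Ideal (𝓞 K)} (h𝔡 : 𝔡 ≠ ⊥) :
    (Nat.card (𝓞 K ⧸ 𝔡)ˣ : ℝ) = Ideal.absNorm 𝔡 * ∏ p ∈ QK 𝔡, (1 - (NK K p : ℝ)⁻¹) := by
  obtain ⟨g, rfl⟩ := IK_surj_pr h𝔡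
  have h1 : QK (IK g) = g.support := by
    ext p
    rw [mem_QK_pr h𝔡, brg_dvd_IK, Finsupp.mem_support_iff]
  rw [mc3b_IK, h1, absNorm_IK_pr, nm, Finsupp.prod, Finset.prod_mul_distrib]
  push_cast
  rfl


end Pool.Agent.LVK

namespace Pool.Agent.LVK

theorem card_units_eq : type_of% @card_units_eq_pr := @card_units_eq_pr

end Pool.Agent.LVK
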