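import Pool.Agent.Lib_helper42.LVK.Defs
import Pool.Agent.Lib_helper92.KSA.BRG
import Pool.Agent.Lib_helper39.LVX.K_MC1A
import Pool.Agent.Lib_helper39.LVX.K_MC2
import Pool.Agent.Lib_helper39.LVX.K_MC3A
import Pool.Agent.Lib_helper39.LVX.K_MC3B

namespace Pool.Agent.LVK

open NumberField NumberField.InfinitePlace NumberField.Units Complex MeasureTheory Filter Topology
open Pool.Agent.HZ Pool.Agent.AS Pool.Agent.KS

variable {K : Type} [Field K] [NumberField K]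

variable {𝔮 : Ideal (𝓞 K)}

theorem mc4a_eq_of_dvd {p p' : PK K} (h : p.asIdeal ∣ p'.asIdeal) : p = p' := by
  have h1 : p'.asIdeal ≤ p.asIdeal := Ideal.dvd_iff_le.1 h
  have h2 : p'.asIdeal = p.asIdeal :=
    (p'.isMaximal).eq_of_le p.isPrime.ne_top h1
  exact (IsDedekindDomain.HeightOneSpectrum.ext h2).symm

theorem mc4a_not_dvd_prod {p : PK K} {S : Finset (PK K)} (hp : p ∉ S) :
    ¬ p.asIdeal ∣ ∏ p' ∈ S, p'.asIdeal := by
  intro h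
  obtain ⟨p', hp', h'⟩ := (p.prime.dvd_finsetProd_iff _).1 h
  exact hp ((mc4a_eq_of_dvd h') ▸ hp')

open scoped Classical in
/-- the primes of `d_S` -/
theorem mc4a_QK (h𝔮 : 𝔮 ≠ ⊥) {S : Finset (PK K)} (hS : S ⊆ QK 𝔮) :
    QK (dS 𝔮 S) = S.filter (fun p => p.asIdeal ^ 2 ∣ 𝔮) ∪ (QK 𝔮 \ S) := by
  have hd : dS 𝔮 S ≠ ⊥ := by
    intro h0
    apply h𝔮
    rw [← dS_spec h𝔮 hS, h0, Ideal.bot_mul]
  ext p
  rw [mem_QK hd, Finset.mem_union, Finset.mem_filter, Finset.mem_sdiff, mem_QK h𝔮]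
  by_cases hp : p ∈ S
  · simp only [hp, true_and, not_true_eq_false, and_false, or_false]
    have e : 𝔮 = dS 𝔮 S * (p.asIdeal * ∏ p' ∈ S.erase p, p'.asIdeal) := by
      rw [Finset.mul_prod_erase S (fun p : PK K => p.asIdeal) hp, dS_spec h𝔮 hS]
    constructor
    · rintro ⟨c, hc⟩
      refine ⟨c * ∏ p' ∈ S.erase p, p'.asIdeal, ?_⟩
      rw [e, hc]
      ring
    · rintro ⟨c, hc⟩
      have h1 : p.asIdeal * (p.asIdeal * c) =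
          p.asIdeal * (dS 𝔮 S * ∏ p' ∈ S.erase p, p'.asIdeal) := by
        calc p.asIdeal * (p.asIdeal * c) = p.asIdeal ^ 2 * c := by ring
          _ = 𝔮 := hc.symm
          _ = dS 𝔮 S * (p.asIdeal * ∏ p' ∈ S.erase p, p'.asIdeal) := e
          _ = _ := by ring
      have h2 : p.asIdeal * c = dS 𝔮 S * ∏ p' ∈ S.erase p, p'.asIdeal :=
        mul_left_cancel₀ p.ne_bot h1
      have h3 : p.asIdeal ∣ dS 𝔮 S * ∏ p' ∈ S.erase p, p'.asIdeal := ⟨c, h2.symm⟩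
      rcases p.prime.dvd_or_dvd h3 with h4 | h4
      · exact h4
      · exact absurd h4 (mc4a_not_dvd_prod (Finset.notMem_erase p S))
  · simp only [hp, false_and, not_false_eq_true, and_true, false_or]
    constructor
    · intro h1
      rw [← dS_spec h𝔮 hS]
      exact h1.mul_right _
    · intro h1
      rw [← dS_spec h𝔮 hS] at h1
      rcases p.prime.dvd_or_dvd h1 with h4 | h4
      · exact h4
      · exact absurd h4 (mc4a_not_dvd_prod hp)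

open scoped Classical in
/-- the number of characters as a product -/
theorem mc4a_nS (h𝔮 : 𝔮 ≠ ⊥) {S : Finset (PK K)} (hS : S ⊆ QK 𝔮) :
    nS 𝔮 S = Ideal.absNorm 𝔮 * ((∏ p ∈ S, (NK K p : ℝ)⁻¹ *
      (if p.asIdeal ^ 2 ∣ 𝔮 then 1 - (NK K p : ℝ)⁻¹ else 1)) *
        ∏ p ∈ QK 𝔮 \ S, (1 - (NK K p : ℝ)⁻¹)) := by
  have hd : dS 𝔮 S ≠ ⊥ := by
    intro h0
    apply h𝔮
    rw [← dS_spec h𝔮 hS, h0, Ideal.bot_mul]
  rw [nS_eq h𝔮 hS, card_units_eq hd, mc4a_QK h𝔮 hS, Finset.prod_union, Finset.prod_mul_distrib,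
    Finset.prod_filter]
  · have h1 : (Ideal.absNorm 𝔮 : ℝ) = Ideal.absNorm (dS 𝔮 S) * ∏ p ∈ S, (NK K p : ℝ) := by
      conv_lhs => rw [← dS_spec h𝔮 hS]
      rw [map_mul, map_prod]
      push_cast
      rfl
    have h2 : (∏ p ∈ S, (NK K p : ℝ)) * ∏ p ∈ S, (NK K p : ℝ)⁻¹ = 1 := by
      rw [← Finset.prod_mul_distrib]
      refine Finset.prod_eq_one fun p _ => mul_inv_cancel₀ ?_
      have := two_le_NK p
      positivity
    rw [h1]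
    linear_combination (-((Ideal.absNorm (dS 𝔮 S) : ℝ) *
      (∏ p ∈ S, if p.asIdeal ^ 2 ∣ 𝔮 then 1 - (NK K p : ℝ)⁻¹ else 1) *
        ∏ p ∈ QK 𝔮 \ S, (1 - (NK K p : ℝ)⁻¹))) * h2
  · rw [Finset.disjoint_left]
    intro p hp hp'
    exact (Finset.mem_sdiff.1 hp').2 (Finset.mem_filter.1 hp).1

open scoped Classical in
theorem mc4a_nprim (h𝔮 : 𝔮 ≠ ⊥) :
    nprim 𝔮 = Ideal.absNorm 𝔮 * ∏ p ∈ QK 𝔮, (-((NK K p : ℝ)⁻¹ *
      (if p.asIdeal ^ 2 ∣ 𝔮 then 1 - (NK K p : ℝ)⁻¹ else 1)) + (1 - (NK K p : ℝ)⁻¹)) := by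
  have : Finite (𝓞 K ⧸ 𝔮) := Ideal.finiteQuotientOfFreeOfNeBot 𝔮 h𝔮
  have : Finite (MulChar (𝓞 K ⧸ 𝔮) ℂ) := inferInstance
  set E : Finset (MulChar (𝓞 K ⧸ 𝔮) ℂ) := (Set.toFinite {χ | IsPrim 𝔮 χ}).toFinset with hE
  have hmem : ∀ χ, χ ∈ E ↔ IsPrim 𝔮 χ := fun χ => by
    rw [hE, Set.Finite.mem_toFinset]
    rfl
  have hcard : nprim 𝔮 = E.card := by
    unfold nprim
    rw [Nat.card_congr (Equiv.subtypeEquivRight (fun χ => (hmem χ).symm) :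
      {χ : MulChar (𝓞 K ⧸ 𝔮) ℂ // IsPrim 𝔮 χ} ≃ {χ // χ ∈ E}), Nat.card_eq_fintype_card,
      Fintype.card_coe]
  have hu : IsUnit (Ideal.Quotient.mk 𝔮 (1 : 𝓞 K)) := by
    rw [map_one]
    exact isUnit_one
  have h1 := prim_orth h𝔮 E hmem hu hu
  rw [map_one] at h1
  have h2 : ∑ χ ∈ E, χ (1 : 𝓞 K ⧸ 𝔮) * starRingEnd ℂ (χ (1 : 𝓞 K ⧸ 𝔮)) = (E.card : ℂ) := by
    simp
  have h3 : ∀ S : Finset (PK K), (if (1 : 𝓞 K) - 1 ∈ dS 𝔮 S then (1 : ℂ) else 0) = 1 := by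
    intro S
    rw [sub_self, if_pos (Submodule.zero_mem _)]
  simp only [h3, mul_one] at h1
  rw [h2] at h1
  have h4 : (E.card : ℝ) = ∑ S ∈ (QK 𝔮).powerset, (-1) ^ S.card * nS 𝔮 S := by
    have : ((E.card : ℝ) : ℂ) = ((∑ S ∈ (QK 𝔮).powerset, (-1) ^ S.card * nS 𝔮 S : ℝ) : ℂ) := by
      push_cast
      exact h1
    exact_mod_cast this
  rw [hcard, h4, Finset.prod_add, Finset.mul_sum]
  refine Finset.sum_congr rfl fun S hS => ?_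
  rw [mc4a_nS h𝔮 (Finset.mem_powerset.1 hS), Finset.prod_neg]
  ring

open scoped Classical in
theorem mc4a_factor (p : PK K) :
    (let t : ℝ := -((NK K p : ℝ)⁻¹ * (if p.asIdeal ^ 2 ∣ 𝔮 then 1 - (NK K p : ℝ)⁻¹ else 1)) +
      (1 - (NK K p : ℝ)⁻¹); (t = 0 ∨ 1 / 4 ≤ t) ∧ 0 ≤ t ∧ t ≤ 1) := by
  intro t
  have h2 := two_le_NK p
  have hN : (2 : ℝ) ≤ NK K p := by exact_mod_cast h2
  have hi : (NK K p : ℝ)⁻¹ ≤ 1 / 2 := by
    rw [inv_le_comm₀ (by linarith) (by norm_num)]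
    linarith
  have hi0 : 0 < (NK K p : ℝ)⁻¹ := by positivity
  by_cases hM : p.asIdeal ^ 2 ∣ 𝔮
  · have ht : t = (1 - (NK K p : ℝ)⁻¹) ^ 2 := by
      simp only [t, if_pos hM]
      ring
    rw [ht]
    refine ⟨Or.inr ?_, by positivity, ?_⟩
    · nlinarith
    · nlinarith
  · have ht : t = 1 - 2 * (NK K p : ℝ)⁻¹ := by
      simp only [t, if_neg hM]
      ring
    rw [ht]
    rcases h2.eq_or_lt with h | h
    · rw [← h]
      norm_num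
    · have hN3 : (3 : ℝ) ≤ NK K p := by exact_mod_cast h
      have hi3 : (NK K p : ℝ)⁻¹ ≤ 1 / 3 := by
        rw [inv_le_comm₀ (by linarith) (by norm_num)]
        linarith
      exact ⟨Or.inr (by linarith), by linarith, by linarith⟩

/-- `nprim = ∏_{p^k ∥ 𝔮} (φ(p^k) - φ(p^{k-1}))`, hence it is `0` or at least `N𝔮 / 4^{ω(𝔮)}` -/
theorem nprim_ge_pr (h𝔮 : 𝔮 ≠ ⊥) :
    nprim 𝔮 = 0 ∨ (Ideal.absNorm 𝔮 : ℝ) / 4 ^ (QK 𝔮).card ≤ nprim 𝔮 := by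
  classical
  rw [mc4a_nprim h𝔮]
  by_cases h : ∃ p ∈ QK 𝔮, (-((NK K p : ℝ)⁻¹ *
      (if p.asIdeal ^ 2 ∣ 𝔮 then 1 - (NK K p : ℝ)⁻¹ else 1)) + (1 - (NK K p : ℝ)⁻¹)) = 0
  · obtain ⟨p, hp, h0⟩ := h
    left
    rw [Finset.prod_eq_zero hp h0, mul_zero]
  · right
    push Not at h
    rw [div_eq_mul_inv]
    refine mul_le_mul_of_nonneg_left ?_ (Nat.cast_nonneg _)
    calc ((4 : ℝ) ^ (QK 𝔮).card)⁻¹ = ∏ p ∈ QK 𝔮, (1 / 4 : ℝ) := by
          rw [Finset.prod_const, one_div, inv_pow]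
      _ ≤ _ := by
          refine Finset.prod_le_prod (fun _ _ => by norm_num) fun p hp => ?_
          exact ((mc4a_factor (𝔮 := 𝔮) p).1).resolve_left (h p hp)

theorem nprim_le_pr (h𝔮 : 𝔮 ≠ ⊥) : nprim 𝔮 ≤ Ideal.absNorm 𝔮 := by
  classical
  rw [mc4a_nprim h𝔮]
  refine mul_le_of_le_one_right (Nat.cast_nonneg _) ?_
  exact Finset.prod_le_one (fun p _ => (mc4a_factor (𝔮 := 𝔮) p).2.1)
    (fun p _ => (mc4a_factor (𝔮 := 𝔮) p).2.2)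


end Pool.Agent.LVK

namespace Pool.Agent.LVK

theorem nprim_ge : type_of% @nprim_ge_pr := @nprim_ge_pr
theorem nprim_le : type_of% @nprim_le_pr := @nprim_le_pr

end Pool.Agent.LVK
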