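import Pool.Agent.Lib_helper42.LVK.Defs
import Pool.Agent.Lib_helper41.HZF.YB
import Pool.Agent.Lib_helper41.HZF.KG

/-!
# LVK block MB1 (helper3)
-/

namespace Pool.Agent.LVK

open NumberField NumberField.InfinitePlace NumberField.Units Complex MeasureTheory Filter Topology
open Pool.Agent.HZ Pool.Agent.AS Pool.Agent.KS

variable {K : Type} [Field K] [NumberField K]

variable {𝔮 : Ideal (𝓞 K)} {κ : InfinitePlace K → ℤ} {χ : MulChar (𝓞 K ⧸ 𝔮) ℂ}

theorem th_inj_pr {lam lam' : InfinitePlace K → ℝ} (h : ∑ w, lam w = 0) (h' : ∑ w, lam' w = 0)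
    (e : th lam = th lam') : lam = lam' := by
  obtain ⟨T, hT⟩ := Yv_log (K := K)
  set μ : InfinitePlace K → ℝ := fun w => lam w - lam' w with hμ
  obtain ⟨p, hp⟩ := T.surjective μ
  have h1 : ∀ w, μ w = p.1 / Module.finrank ℚ K + ∑ i, p.2 i * ybl K i w := by
    intro w
    rw [← yb_log, ← hT, hp]
  have h2 : ∑ w, μ w = 0 := by
    simp only [hμ, Finset.sum_sub_distrib, h, h', sub_self]
  have h3 : ∀ i, ∑ w, μ w * ybl K i w = 0 := by
    intro i
    have := congrFun e i
    unfold th at this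
    simp only [hμ, sub_mul, Finset.sum_sub_distrib]
    unfold ybl
    rw [this, sub_self]
  have h4 : ∑ w, μ w * μ w = 0 := by
    calc ∑ w, μ w * μ w = ∑ w, μ w * (p.1 / Module.finrank ℚ K + ∑ i, p.2 i * ybl K i w) :=
          Finset.sum_congr rfl fun w _ => by rw [← h1 w]
      _ = (∑ w, μ w) * (p.1 / Module.finrank ℚ K) +
          ∑ i, p.2 i * ∑ w, μ w * ybl K i w := by
          simp_rw [mul_add, Finset.sum_add_distrib, Finset.mul_sum]
          rw [Finset.sum_mul, Finset.sum_comm (γ := Fin (rank K))]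
          congr 1
          refine Finset.sum_congr rfl fun i _ => Finset.sum_congr rfl fun w _ => by ring
      _ = 0 := by
          rw [h2, zero_mul, zero_add]
          exact Finset.sum_eq_zero fun i _ => by rw [h3 i, mul_zero]
  have h5 := (Finset.sum_eq_zero_iff_of_nonneg (fun w _ => mul_self_nonneg (μ w))).mp h4
  funext w
  have := mul_self_eq_zero.mp (h5 w (Finset.mem_univ w))
  simp only [hμ] at this
  linarith

theorem mb1_psi (lam : InfinitePlace K → ℝ) (a : K) :
    psiInf κ lam a = (∏ w : InfinitePlace K, (w.embedding a / (w a : ℂ)) ^ κ w) *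
      cexp (-((∑ w, lam w * Real.log (w a) : ℝ) : ℂ) * I) := by
  unfold psiInf
  rw [Finset.prod_mul_distrib, ← Complex.exp_sum]
  congr 2
  push_cast
  rw [← Finset.sum_neg_distrib, Finset.sum_mul]

theorem th_mod_pr {lam lam' : InfinitePlace K → ℝ} {ψ ψ' : Ideal (𝓞 K) →* ℂ}
    (h : IsHecke 𝔮 κ lam χ ψ) (h' : IsHecke 𝔮 κ lam' χ ψ') (i : Fin (rank K)) :
    ∃ k : ℤ, th lam i - th lam' i = 2 * Real.pi * k := by
  set ε : 𝓞 K := (fundSystem K i : 𝓞 K) with hε
  have hu : IsUnit ε := (fundSystem K i).isUnit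
  have hm : IsUnit (Ideal.Quotient.mk 𝔮 ε) := hu.map _
  have hs : Ideal.span {ε} = 1 := by
    rw [Ideal.one_eq_top]
    exact Ideal.span_singleton_eq_top.mpr hu
  have e1 := h.principal ε hm
  have e2 := h'.principal ε hm
  rw [hs, map_one] at e1 e2
  have e3 : χ (Ideal.Quotient.mk 𝔮 ε) * psiInf κ lam (ε : K) =
      χ (Ideal.Quotient.mk 𝔮 ε) * psiInf κ lam' (ε : K) := e1.symm.trans e2
  have hχ : χ (Ideal.Quotient.mk 𝔮 ε) ≠ 0 := fun h0 => by
    rw [h0, zero_mul] at e1
    exact one_ne_zero e1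
  have e4 := mul_left_cancel₀ hχ e3
  have hP : psiInf κ lam (ε : K) ≠ 0 := fun h0 => by
    rw [h0, mul_zero] at e1
    exact one_ne_zero e1
  rw [mb1_psi, mb1_psi] at e4
  have hP' : (∏ w : InfinitePlace K, (w.embedding (ε : K) / (w (ε : K) : ℂ)) ^ κ w) ≠ 0 := by
    rw [mb1_psi] at hP
    exact left_ne_zero_of_mul hP
  have e5 := mul_left_cancel₀ hP' e4
  change cexp (-((th lam i : ℝ) : ℂ) * I) = cexp (-((th lam' i : ℝ) : ℂ) * I) at e5
  rw [Complex.exp_eq_exp_iff_exists_int] at e5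
  obtain ⟨n, hn⟩ := e5
  refine ⟨-n, ?_⟩
  have h6 : (((th lam' i - th lam i : ℝ) : ℂ)) * I = ((2 * Real.pi * n : ℝ) : ℂ) * I := by
    push_cast
    linear_combination hn
  have h7 := mul_right_cancel₀ Complex.I_ne_zero h6
  have h8 : th lam' i - th lam i = 2 * Real.pi * n := by exact_mod_cast h7
  push_cast
  linarith

theorem mb1_int (k : ℤ) : ∫ x in Set.Icc (0 : ℝ) 1, cexp (((2 * Real.pi * k * x : ℝ) : ℂ) * I) =
    if k = 0 then 1 else 0 := by
  rw [integral_Icc_eq_integral_Ioc, ← intervalIntegral.integral_of_le zero_le_one]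
  split_ifs with hk
  · subst hk
    simp
  · have hc : (2 * Real.pi * k * I : ℂ) ≠ 0 := by
      have : (k : ℂ) ≠ 0 := by exact_mod_cast hk
      have h2 : (Real.pi : ℂ) ≠ 0 := by exact_mod_cast Real.pi_ne_zero
      simp [this, h2]
    have h1 : ∀ x : ℝ, cexp (((2 * Real.pi * k * x : ℝ) : ℂ) * I) =
        cexp ((2 * Real.pi * k * I : ℂ) * x) := by
      intro x
      congr 1
      push_cast
      ring
    simp_rw [h1]
    rw [integral_exp_mul_complex hc]
    have h2 : cexp (2 * Real.pi * k * I * ((1 : ℝ) : ℂ)) = 1 := by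
      rw [Complex.ofReal_one, mul_one]
      have := Complex.exp_int_mul_two_pi_mul_I k
      rw [← this]
      congr 1
      ring
    rw [h2]
    simp

theorem eth_orth_pr {lam lam' : InfinitePlace K → ℝ} {ψ ψ' : Ideal (𝓞 K) →* ℂ}
    (h : IsHecke 𝔮 κ lam χ ψ) (h' : IsHecke 𝔮 κ lam' χ ψ') (h0 : ∑ w, lam w = 0)
    (h0' : ∑ w, lam' w = 0) :
    ∫ x in Set.Icc (0 : Fin (rank K) → ℝ) 1, eth lam x * starRingEnd ℂ (eth lam' x) =
      open scoped Classical in if lam = lam' then 1 else 0 := by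
  classical
  choose k hk using th_mod_pr h h'
  have h1 : ∀ x : Fin (rank K) → ℝ, eth lam x * starRingEnd ℂ (eth lam' x) =
      ∏ i, cexp (((2 * Real.pi * k i * x i : ℝ) : ℂ) * I) := by
    intro x
    unfold eth
    rw [← Complex.exp_conj, ← Complex.exp_add, ← Complex.exp_sum]
    congr 1
    rw [map_mul, Complex.conj_I, Complex.conj_ofReal, ← Finset.sum_mul]
    have : (∑ i, th lam i * x i) - (∑ i, th lam' i * x i) = ∑ i, 2 * Real.pi * k i * x i := by
      rw [← Finset.sum_sub_distrib]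
      refine Finset.sum_congr rfl fun i _ => ?_
      rw [← hk i]
      ring
    rw [← Complex.ofReal_sum, ← this]
    push_cast
    ring
  simp_rw [h1]
  have h2 : ∫ x in Set.Icc (0 : Fin (rank K) → ℝ) 1,
      ∏ i, cexp (((2 * Real.pi * k i * x i : ℝ) : ℂ) * I) =
      ∏ i, ∫ x in Set.Icc (0 : ℝ) 1, cexp (((2 * Real.pi * k i * x : ℝ) : ℂ) * I) := by
    have h3 : (volume : Measure (Fin (rank K) → ℝ)).restrict (Set.Icc 0 1) =
        Measure.pi (fun _ => (volume : Measure ℝ).restrict (Set.Icc 0 1)) := by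
      rw [← Set.pi_univ_Icc, volume_pi, Measure.restrict_pi_pi]
      rfl
    rw [h3]
    exact integral_fintype_prod_eq_prod (𝕜 := ℂ)
      (f := fun i (x : ℝ) => cexp (((2 * Real.pi * k i * x : ℝ) : ℂ) * I))
  rw [h2]
  simp_rw [mb1_int]
  split_ifs with hl
  · refine Finset.prod_eq_one fun i _ => ?_
    have : (k i : ℝ) = 0 := by
      have := hk i
      rw [hl, sub_self] at this
      have hp := Real.pi_pos
      rcases mul_eq_zero.mp this.symm with h | h
      · linarith
      · exact h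
    rw [if_pos (by exact_mod_cast this)]
  · obtain ⟨i, hi⟩ : ∃ i, k i ≠ 0 := by
      by_contra hcon
      push Not at hcon
      apply hl
      apply th_inj_pr h0 h0'
      funext i
      have := hk i
      rw [hcon i] at this
      simp only [Int.cast_zero, mul_zero] at this
      linarith
    exact Finset.prod_eq_zero (Finset.mem_univ i) (if_neg hi)


end Pool.Agent.LVK

namespace Pool.Agent.LVK

theorem th_inj : type_of% @th_inj_pr := @th_inj_pr
theorem th_mod : type_of% @th_mod_pr := @th_mod_pr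
theorem eth_orth : type_of% @eth_orth_pr := @eth_orth_pr

end Pool.Agent.LVK
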