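import Pool.Agent.Lib_helper42.LVK.Defs
import Pool.Agent.Lib_helper41.HZF.YB
import Pool.Agent.Lib_helper41.HZF.KG
import Pool.Agent.Lib_helper92.KSA.BRG
import Pool.Agent.Lib_helper92.KSA.LATU
import Pool.Agent.Lib_helper92.KSA.LNZ
import Pool.Agent.Lib_helper39.LVX.K_MB1

namespace Pool.Agent.LVK

open NumberField NumberField.InfinitePlace NumberField.Units Complex MeasureTheory Filter Topology
open Pool.Agent.HZ Pool.Agent.AS Pool.Agent.KS

variable {K : Type} [Field K] [NumberField K]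

theorem tf2_th_add (lam lam' : InfinitePlace K → ℝ) : th (lam + lam') = th lam + th lam' := by
  funext i
  simp only [th, Pi.add_apply, add_mul, Finset.sum_add_distrib]

theorem tf2_th_smul (c : ℝ) (lam : InfinitePlace K → ℝ) : th (c • lam) = c • th lam := by
  funext i
  simp only [th, Pi.smul_apply, smul_eq_mul, Finset.mul_sum, mul_assoc]

theorem tf2_th_zero : th (0 : InfinitePlace K → ℝ) = 0 := by
  funext i
  simp [th]

theorem tf2_th_cont : Continuous (th (K := K)) := by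
  unfold th
  fun_prop

/-- the linear map `lam ↦ (∑ lam, th lam)` -/
noncomputable def tf2L (K : Type) [Field K] [NumberField K] :
    (InfinitePlace K → ℝ) →ₗ[ℝ] (ℝ × (Fin (rank K) → ℝ)) where
  toFun lam := (∑ w, lam w, th lam)
  map_add' lam lam' := by
    rw [tf2_th_add]
    simp [Finset.sum_add_distrib]
  map_smul' c lam := by
    rw [tf2_th_smul]
    simp [Finset.mul_sum]

theorem tf2L_inj : Function.Injective (tf2L K) := by
  rw [injective_iff_map_eq_zero]
  intro lam h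
  have h1 : ∑ w, lam w = 0 := congrArg Prod.fst h
  have h2 : th lam = 0 := congrArg Prod.snd h
  refine th_inj h1 (by simp) ?_
  rw [h2, tf2_th_zero]

/-- the inverse of `th` on `{∑ lam = 0}` -/
theorem th_equiv_pr : ∃ Λ : (Fin (rank K) → ℝ) →L[ℝ] (InfinitePlace K → ℝ),
    (∀ θ, ∑ w, Λ θ w = 0) ∧ (∀ θ, th (Λ θ) = θ) ∧
    ∀ lam : InfinitePlace K → ℝ, ∑ w, lam w = 0 → Λ (th lam) = lam := by
  let e : (InfinitePlace K → ℝ) ≃ₗ[ℝ] (ℝ × (Fin (rank K) → ℝ)) :=
    LinearEquiv.ofInjectiveOfFinrankEq (tf2L K) tf2L_inj yb_finrank.symm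
  have he : ∀ lam, e lam = (∑ w, lam w, th lam) := fun lam => rfl
  let Λ : (Fin (rank K) → ℝ) →ₗ[ℝ] (InfinitePlace K → ℝ) :=
    e.symm.toLinearMap.comp (LinearMap.inr ℝ ℝ (Fin (rank K) → ℝ))
  have hΛ : ∀ θ, e (Λ θ) = (0, θ) := by
    intro θ
    change e (e.symm ((LinearMap.inr ℝ ℝ (Fin (rank K) → ℝ)) θ)) = _
    rw [LinearEquiv.apply_symm_apply]
    rfl
  refine ⟨LinearMap.toContinuousLinearMap Λ, fun θ => ?_, fun θ => ?_, fun lam hlam => ?_⟩
  · have h1 := hΛ θ
    rw [he] at h1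
    exact congrArg Prod.fst h1
  · have h1 := hΛ θ
    rw [he] at h1
    exact congrArg Prod.snd h1
  · apply e.injective
    have h1 := hΛ (th lam)
    rw [LinearMap.coe_toContinuousLinearMap', h1, he, hlam]

theorem ThB_compact_pr (B : ℝ) : IsCompact (ThB K B) := by
  have h1 : ThB K B = th '' {lam : InfinitePlace K → ℝ | ∑ w, lam w = 0 ∧ ∀ w, |lam w| ≤ B} := by
    ext x
    constructor
    · rintro ⟨lam, h0, hB, rfl⟩
      exact ⟨lam, ⟨h0, hB⟩, rfl⟩
    · rintro ⟨lam, ⟨h0, hB⟩, rfl⟩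
      exact ⟨lam, h0, hB, rfl⟩
  rw [h1]
  refine IsCompact.image ?_ tf2_th_cont
  have h2 : {lam : InfinitePlace K → ℝ | ∑ w, lam w = 0 ∧ ∀ w, |lam w| ≤ B} =
      (Set.univ.pi fun _ : InfinitePlace K => Set.Icc (-B) B) ∩
        {lam : InfinitePlace K → ℝ | ∑ w, lam w = 0} := by
    ext lam
    constructor
    · rintro ⟨h0, hB⟩
      exact ⟨fun w _ => abs_le.1 (hB w), h0⟩
    · rintro ⟨hB, h0⟩
      exact ⟨h0, fun w => abs_le.2 (hB w (Set.mem_univ w))⟩
  rw [h2]
  refine (isCompact_univ_pi fun _ => isCompact_Icc).inter_right ?_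
  exact isClosed_eq (by fun_prop) continuous_const

theorem ThB_volume_pr {B : ℝ} (hB : 0 < B) : 0 < (volume (ThB K B)).toReal := by
  obtain ⟨Λ, h0, h1, -⟩ := th_equiv_pr (K := K)
  have hfin : volume (ThB K B) ≠ ⊤ := (ThB_compact_pr B).measure_lt_top.ne
  refine ENNReal.toReal_pos (ne_of_gt ?_) hfin
  set U : Set (Fin (rank K) → ℝ) := {θ | ∀ w, |Λ θ w| < B} with hU
  have hUo : IsOpen U := by
    rw [hU, Set.ofPred_forall]
    refine isOpen_iInter_of_finite fun w => isOpen_lt ?_ continuous_const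
    exact continuous_abs.comp ((continuous_apply w).comp Λ.continuous)
  have hU0 : (0 : Fin (rank K) → ℝ) ∈ U := by
    intro w
    rw [map_zero, Pi.zero_apply, abs_zero]
    exact hB
  have hsub : U ⊆ ThB K B := fun θ hθ => ⟨Λ θ, h0 θ, fun w => (hθ w).le, (h1 θ).symm⟩
  exact (hUo.measure_pos volume ⟨0, hU0⟩).trans_le (measure_mono hsub)

theorem ThB_scale_pr {B c : ℝ} (hB : 0 ≤ B) (hc : 0 < c) :
    ThB K (c * B) = (fun x => c • x) '' ThB K B := by
  ext x
  constructor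
  · rintro ⟨lam, h0, hb, rfl⟩
    refine ⟨th (c⁻¹ • lam), ⟨c⁻¹ • lam, ?_, fun w => ?_, rfl⟩, ?_⟩
    · simp only [Pi.smul_apply, smul_eq_mul, ← Finset.mul_sum, h0, mul_zero]
    · rw [Pi.smul_apply, smul_eq_mul, abs_mul, abs_inv, abs_of_pos hc, inv_mul_le_iff₀ hc]
      exact hb w
    · simp only []
      rw [tf2_th_smul, smul_smul, mul_inv_cancel₀ hc.ne', one_smul]
  · rintro ⟨y, ⟨lam, h0, hb, rfl⟩, rfl⟩
    refine ⟨c • lam, ?_, fun w => ?_, (tf2_th_smul c lam).symm⟩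
    · simp only [Pi.smul_apply, smul_eq_mul, ← Finset.mul_sum, h0, mul_zero]
    · rw [Pi.smul_apply, smul_eq_mul, abs_mul, abs_of_pos hc]
      exact mul_le_mul_of_nonneg_left (hb w) hc.le


end Pool.Agent.LVK

namespace Pool.Agent.LVK

theorem th_equiv : type_of% @th_equiv_pr := @th_equiv_pr
theorem ThB_compact : type_of% @ThB_compact_pr := @ThB_compact_pr
theorem ThB_volume : type_of% @ThB_volume_pr := @ThB_volume_pr
theorem ThB_scale : type_of% @ThB_scale_pr := @ThB_scale_pr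

end Pool.Agent.LVK
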