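import Pool.Agent.Lib_helper42.LVK.Defs
import Pool.Agent.Lib_helper41.HZF.YB
import Pool.Agent.Lib_helper41.HZF.KG
import Pool.Agent.Lib_helper92.KSA.BRG
import Pool.Agent.Lib_helper92.KSA.LATU
import Pool.Agent.Lib_helper92.KSA.LNZ
import Pool.Agent.Lib_helper41.HZF.INF
import Pool.Agent.Lib_helper39.LVX.K_FC3
import Pool.Agent.Lib_helper39.LVX.K_FC4A
import Pool.Agent.Lib_helper39.LVX.K_MC4A
import Pool.Agent.Lib_helper39.LVX.K_MC4B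
import Pool.Agent.Lib_helper39.LVX.K_TF2

/-!
# LVK block FC4B: the number of pairs `(χ, lam)`
-/

namespace Pool.Agent.LVK

open NumberField NumberField.InfinitePlace NumberField.Units Complex MeasureTheory Filter Topology
open Pool.Agent.HZ Pool.Agent.AS Pool.Agent.KS
open scoped Pointwise

variable {K : Type} [Field K] [NumberField K]

variable {𝔮 : Ideal (𝓞 K)}

/-! ### The characters on the units -/

omit [NumberField K] in
theorem fcb_unit_ne (ε : (𝓞 K)ˣ) : ((ε : 𝓞 K) : K) ≠ 0 := by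
  have h : (ε : 𝓞 K) ≠ 0 := ε.ne_zero
  intro h0
  exact h (by exact_mod_cast h0)

/-- `ε ↦ χ(ε) ψ_∞(ε)` -/
noncomputable def uh (κ : InfinitePlace K → ℤ) (lam : InfinitePlace K → ℝ)
    (χ : MulChar (𝓞 K ⧸ 𝔮) ℂ) : (𝓞 K)ˣ →* ℂ where
  toFun ε := χ (Ideal.Quotient.mk 𝔮 (ε : 𝓞 K)) * psiInf κ lam ((ε : 𝓞 K) : K)
  map_one' := by
    have h1 : psiInf κ lam (1 : K) = 1 := by
      unfold psiInf
      refine Finset.prod_eq_one fun w _ => ?_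
      simp
    simp [h1]
  map_mul' ε δ := by
    have h1 := psiInf_mul κ lam (fcb_unit_ne ε) (fcb_unit_ne δ)
    simp only [Units.val_mul, map_mul, h1]
    ring

theorem uh_apply (κ : InfinitePlace K → ℤ) (lam : InfinitePlace K → ℝ)
    (χ : MulChar (𝓞 K ⧸ 𝔮) ℂ) (ε : (𝓞 K)ˣ) :
    uh κ lam χ ε = χ (Ideal.Quotient.mk 𝔮 (ε : 𝓞 K)) * psiInf κ lam ((ε : 𝓞 K) : K) := rfl

theorem uh_split (κ : InfinitePlace K → ℤ) (lam : InfinitePlace K → ℝ)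
    (χ : MulChar (𝓞 K ⧸ 𝔮) ℂ) (ε : (𝓞 K)ˣ) :
    uh κ lam χ ε = uh κ 0 χ ε *
      cexp (-((∑ w, lam w * Real.log (w ((ε : 𝓞 K) : K)) : ℝ) : ℂ) * I) := by
  rw [uh_apply, uh_apply, mul_assoc]
  congr 1
  unfold psiInf
  rw [Finset.prod_mul_distrib, Finset.prod_mul_distrib, ← Complex.exp_sum, ← Complex.exp_sum,
    mul_assoc, ← Complex.exp_add]
  congr 2
  push_cast
  simp only [Pi.zero_apply, ofReal_zero, zero_mul, neg_zero, Finset.sum_const_zero, zero_add,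
    Finset.sum_neg_distrib, Finset.sum_mul, neg_mul]

theorem uh_tors (κ : InfinitePlace K → ℤ) (lam : InfinitePlace K → ℝ)
    (χ : MulChar (𝓞 K ⧸ 𝔮) ℂ) {ζ : (𝓞 K)ˣ} (hζ : ζ ∈ torsion K) :
    uh κ lam χ ζ = uh κ 0 χ ζ := by
  rw [uh_split]
  have h := (mem_torsion K).1 hζ
  have h1 : ∑ w : InfinitePlace K, lam w * Real.log (w ((ζ : 𝓞 K) : K)) = 0 := by
    refine Finset.sum_eq_zero fun w _ => ?_
    rw [h w, Real.log_one, mul_zero]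
  rw [h1]
  simp

theorem uh_fund (κ : InfinitePlace K → ℤ) (lam : InfinitePlace K → ℝ)
    (χ : MulChar (𝓞 K ⧸ 𝔮) ℂ) (i : Fin (rank K)) :
    uh κ lam χ (fundSystem K i) = uh κ 0 χ (fundSystem K i) *
      cexp (-((th lam i : ℝ) : ℂ) * I) := by
  rw [uh_split]
  rfl

theorem unitOK_iff (κ : InfinitePlace K → ℤ) (lam : InfinitePlace K → ℝ)
    (χ : MulChar (𝓞 K ⧸ 𝔮) ℂ) :
    UnitOK 𝔮 κ lam χ ↔ (∀ ζ ∈ torsion K, uh κ 0 χ ζ = 1) ∧
      ∀ i, uh κ 0 χ (fundSystem K i) = cexp (((th lam i : ℝ) : ℂ) * I) := by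
  have hfund : ∀ i, (uh κ lam χ (fundSystem K i) = 1 ↔
      uh κ 0 χ (fundSystem K i) = cexp (((th lam i : ℝ) : ℂ) * I)) := by
    intro i
    rw [uh_fund]
    have h1 : cexp (-((th lam i : ℝ) : ℂ) * I) * cexp (((th lam i : ℝ) : ℂ) * I) = 1 := by
      rw [← Complex.exp_add]
      simp
    constructor
    · intro h
      calc uh κ 0 χ (fundSystem K i) = uh κ 0 χ (fundSystem K i) *
            (cexp (-((th lam i : ℝ) : ℂ) * I) * cexp (((th lam i : ℝ) : ℂ) * I)) := by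
              rw [h1, mul_one]
        _ = _ := by rw [← mul_assoc, h, one_mul]
    · intro h
      rw [h, mul_comm, h1]
  constructor
  · intro h
    refine ⟨fun ζ hζ => ?_, fun i => ?_⟩
    · rw [← uh_tors κ lam χ hζ]
      exact h ζ
    · rw [← hfund]
      exact h _
  · rintro ⟨h1, h2⟩ ε
    obtain ⟨⟨ζ, e⟩, he, -⟩ := exist_unique_eq_mul_prod K ε
    show uh κ lam χ ε = 1
    rw [he, map_mul, map_prod, uh_tors κ lam χ ζ.2, h1 _ ζ.2, one_mul]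
    refine Finset.prod_eq_one fun i _ => ?_
    rw [map_zpow, (hfund i).2 (h2 i), one_zpow]

theorem uh_norm (κ : InfinitePlace K → ℤ) (lam : InfinitePlace K → ℝ) [Finite (𝓞 K ⧸ 𝔮)]
    (χ : MulChar (𝓞 K ⧸ 𝔮) ℂ) (ε : (𝓞 K)ˣ) : ‖uh κ lam χ ε‖ = 1 := by
  rw [uh_apply, norm_mul, psiInf_norm κ lam (fcb_unit_ne ε), mul_one]
  have hu : IsUnit (Ideal.Quotient.mk 𝔮 (ε : 𝓞 K)) := ε.isUnit.map _
  obtain ⟨u, hu⟩ := hu
  have hfin : IsOfFinOrder u := isOfFinOrder_of_finite u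
  obtain ⟨n, hn, h1⟩ := isOfFinOrder_iff_pow_eq_one.1 hfin
  have h2 : χ (Ideal.Quotient.mk 𝔮 (ε : 𝓞 K)) ^ n = 1 := by
    rw [← hu, ← map_pow, ← Units.val_pow_eq_pow_val, h1, Units.val_one, map_one]
  exact Complex.norm_eq_one_of_pow_eq_one h2 hn.ne'

/-- the phases -/
noncomputable def phi (κ : InfinitePlace K → ℤ) (χ : MulChar (𝓞 K ⧸ 𝔮) ℂ)
    (i : Fin (rank K)) : ℝ := Complex.arg (uh κ 0 χ (fundSystem K i))

theorem phi_exp (κ : InfinitePlace K → ℤ) [Finite (𝓞 K ⧸ 𝔮)]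
    (χ : MulChar (𝓞 K ⧸ 𝔮) ℂ) (i : Fin (rank K)) :
    cexp (((phi κ χ i : ℝ) : ℂ) * I) = uh κ 0 χ (fundSystem K i) := by
  have h := Complex.norm_mul_exp_arg_mul_I (uh κ 0 χ (fundSystem K i))
  rw [uh_norm, ofReal_one, one_mul] at h
  exact h

/-- the unit with exponents `k` -/
noncomputable def uu (k : Fin (rank K) → ℤ) : (𝓞 K)ˣ := ∏ i, (fundSystem K i) ^ (k i)

theorem phi_sum (κ : InfinitePlace K → ℤ) [Finite (𝓞 K ⧸ 𝔮)]
    (χ : MulChar (𝓞 K ⧸ 𝔮) ℂ) (k : Fin (rank K) → ℤ) :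
    cexp (((∑ i, k i * phi κ χ i : ℝ) : ℂ) * I) = uh κ 0 χ (uu k) := by
  unfold uu
  rw [map_prod]
  push_cast
  rw [Finset.sum_mul, Complex.exp_sum]
  refine Finset.prod_congr rfl fun i _ => ?_
  rw [map_zpow, ← phi_exp, ← Complex.exp_int_mul]
  congr 1
  ring

theorem phi_iff (κ : InfinitePlace K → ℤ) [Finite (𝓞 K ⧸ 𝔮)] (lam : InfinitePlace K → ℝ)
    (χ : MulChar (𝓞 K ⧸ 𝔮) ℂ) :
    UnitOK 𝔮 κ lam χ ↔ (∀ ζ ∈ torsion K, uh κ 0 χ ζ = 1) ∧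
      ∃ m : Fin (rank K) → ℤ, ∀ i, th lam i = phi κ χ i + 2 * Real.pi * m i := by
  rw [unitOK_iff]
  refine and_congr_right fun _ => ?_
  have key : ∀ i, (uh κ 0 χ (fundSystem K i) = cexp (((th lam i : ℝ) : ℂ) * I) ↔
      ∃ n : ℤ, th lam i = phi κ χ i + 2 * Real.pi * n) := by
    intro i
    rw [← phi_exp, eq_comm, Complex.exp_eq_exp_iff_exists_int]
    constructor
    · rintro ⟨n, hn⟩
      refine ⟨n, ?_⟩
      have h1 : ((th lam i : ℝ) : ℂ) * I = ((phi κ χ i + 2 * Real.pi * n : ℝ) : ℂ) * I := by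
        rw [hn]
        push_cast
        ring
      have h2 := mul_right_cancel₀ I_ne_zero h1
      exact_mod_cast h2
    · rintro ⟨n, hn⟩
      refine ⟨n, ?_⟩
      rw [hn]
      push_cast
      ring
  constructor
  · intro h
    choose m hm using fun i => (key i).1 (h i)
    exact ⟨m, hm⟩
  · rintro ⟨m, hm⟩ i
    exact (key i).2 ⟨m i, hm i⟩

/-! ### The cut-off function -/

theorem fcb_cut {B ε : ℝ} (hB : 0 < B) (hε : 0 < ε) :
    ∃ F : (Fin (rank K) → ℝ) → ℝ, Continuous F ∧ HasCompactSupport F ∧ (∀ θ, 0 ≤ F θ) ∧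
      (∀ θ, F θ ≤ 1) ∧ (∀ θ, θ ∉ ThB K B → F θ = 0) ∧
      (volume (ThB K B)).toReal - ε ≤ ∫ θ, F θ := by
  obtain ⟨Λ, h0, h1, h2⟩ := th_equiv (K := K)
  have hmem : ∀ (b : ℝ), 0 ≤ b → ∀ θ, θ ∈ ThB K b ↔ ‖Λ θ‖ ≤ b := by
    intro b hb θ
    rw [pi_norm_le_iff_of_nonneg hb]
    constructor
    · rintro ⟨lam, hl, hl', rfl⟩ w
      rw [h2 lam hl]
      exact hl' w
    · intro h
      exact ⟨Λ θ, h0 θ, h, (h1 θ).symm⟩
  set V : ℝ := (volume (ThB K B)).toReal with hV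
  obtain ⟨c, hc0, hc1, hc⟩ : ∃ c : ℝ, 0 < c ∧ c < 1 ∧ V - ε ≤ c ^ rank K * V := by
    have hcont : Continuous fun c : ℝ => c ^ rank K * V := by fun_prop
    have h3 : ∀ᶠ c in 𝓝 (1 : ℝ), V - ε < c ^ rank K * V := by
      refine hcont.continuousAt.eventually_const_lt ?_
      show V - ε < (1 : ℝ) ^ rank K * V
      rw [one_pow, one_mul]
      linarith
    have h4 : ∀ᶠ c in 𝓝[<] (1 : ℝ), V - ε < c ^ rank K * V := h3.filter_mono nhdsWithin_le_nhds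
    have h5 : ∀ᶠ c in 𝓝[<] (1 : ℝ), c ∈ Set.Ioo (0 : ℝ) 1 := Ioo_mem_nhdsLT zero_lt_one
    obtain ⟨c, hc, hc'⟩ := (h4.and h5).exists
    exact ⟨c, hc'.1, hc'.2, hc.le⟩
  have hden : 0 < (1 - c) * B := mul_pos (by linarith) hB
  set F : (Fin (rank K) → ℝ) → ℝ := fun θ => max 0 (min 1 ((B - ‖Λ θ‖) / ((1 - c) * B))) with hF
  have hFc : Continuous F := by
    rw [hF]
    have := Λ.continuous
    fun_prop
  have hF0 : ∀ θ, θ ∉ ThB K B → F θ = 0 := by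
    intro θ hθ
    rw [hmem B hB.le, not_le] at hθ
    rw [hF]
    refine max_eq_left ((min_le_right _ _).trans ?_)
    exact div_nonpos_of_nonpos_of_nonneg (by linarith) hden.le
  have hFs : HasCompactSupport F := HasCompactSupport.intro (ThB_compact B) hF0
  refine ⟨F, hFc, hFs, fun θ => le_max_left _ _, fun θ => max_le zero_le_one (min_le_left _ _),
    hF0, ?_⟩
  have hFi : Integrable F := hFc.integrable_of_hasCompactSupport hFs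
  have hms : MeasurableSet (ThB K (c * B)) := (ThB_compact (K := K) (c * B)).measurableSet
  have h6 : ∫ θ in ThB K (c * B), F θ = c ^ rank K * V := by
    have h7 : ∫ θ in ThB K (c * B), F θ = ∫ θ in ThB K (c * B), (1 : ℝ) := by
      refine setIntegral_congr_fun hms fun θ hθ => ?_
      rw [hmem _ (by positivity)] at hθ
      have h8 : 1 ≤ (B - ‖Λ θ‖) / ((1 - c) * B) := by
        rw [le_div_iff₀ hden]
        linarith
      show max 0 (min 1 ((B - ‖Λ θ‖) / ((1 - c) * B))) = 1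
      rw [min_eq_left h8]
      exact max_eq_right zero_le_one
    rw [h7, setIntegral_const, smul_eq_mul, mul_one, ThB_scale hB.le hc0]
    have h9 : (fun x : Fin (rank K) → ℝ => c • x) '' ThB K B = c • ThB K B := rfl
    rw [h9, measureReal_def, Measure.addHaar_smul, ENNReal.toReal_mul,
      ENNReal.toReal_ofReal (abs_nonneg _), Module.finrank_fintype_fun_eq_card, Fintype.card_fin,
      abs_of_pos (by positivity)]
  calc V - ε ≤ c ^ rank K * V := hc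
    _ = ∫ θ in ThB K (c * B), F θ := h6.symm
    _ ≤ ∫ θ, F θ := setIntegral_le_integral hFi (ae_of_all _ fun θ => le_max_left _ _)

theorem fcb_fin (φ : Fin (rank K) → ℝ) (B : ℝ) :
    {m : Fin (rank K) → ℤ | (fun i => φ i + 2 * Real.pi * m i) ∈ ThB K B}.Finite := by
  obtain ⟨R, hR⟩ := (ThB_compact (K := K) B).isBounded.exists_norm_le
  set N : ℤ := ⌈R + ‖φ‖⌉ with hN
  refine (Set.finite_Icc (fun _ => -N : Fin (rank K) → ℤ) (fun _ => N)).subset fun m hm => ?_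
  have h1 := hR _ hm
  have h2 : ∀ i, |(m i : ℝ)| ≤ N := by
    intro i
    have h3 : |φ i + 2 * Real.pi * m i| ≤ R := by
      have := (norm_le_pi_norm (fun i => φ i + 2 * Real.pi * m i) i).trans h1
      simpa [Real.norm_eq_abs] using this
    have h4 : |φ i| ≤ ‖φ‖ := norm_le_pi_norm φ i
    have h5 : |2 * Real.pi * m i| ≤ R + ‖φ‖ := by
      calc |2 * Real.pi * m i| = |(φ i + 2 * Real.pi * m i) - φ i| := by congr 1; ring
        _ ≤ |φ i + 2 * Real.pi * m i| + |φ i| := abs_sub _ _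
        _ ≤ _ := add_le_add h3 h4
    have h6 : |(m i : ℝ)| ≤ |2 * Real.pi * m i| := by
      rw [abs_mul]
      have h7 : 1 ≤ |2 * Real.pi| := by
        rw [abs_of_pos (by positivity)]
        linarith [Real.two_le_pi]
      nlinarith [abs_nonneg (m i : ℝ)]
    exact h6.trans (h5.trans (Int.le_ceil _))
  rw [Set.mem_Icc]
  constructor
  · intro i
    have := (abs_le.1 (h2 i)).1
    exact_mod_cast this
  · intro i
    have := (abs_le.1 (h2 i)).2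
    exact_mod_cast this

theorem fcb_count {B : ℝ} {F : (Fin (rank K) → ℝ) → ℝ} (h1 : ∀ θ, F θ ≤ 1)
    (h0 : ∀ θ, θ ∉ ThB K B → F θ = 0) (φ : Fin (rank K) → ℝ) :
    ∑' m : Fin (rank K) → ℤ, F (fun i => φ i + 2 * Real.pi * m i) ≤
      ((fcb_fin φ B).toFinset.card : ℝ) := by
  rw [tsum_eq_sum (s := (fcb_fin φ B).toFinset)]
  · calc ∑ m ∈ (fcb_fin φ B).toFinset, F (fun i => φ i + 2 * Real.pi * m i) ≤
        ∑ m ∈ (fcb_fin φ B).toFinset, (1 : ℝ) := Finset.sum_le_sum fun m _ => h1 _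
      _ = _ := by rw [Finset.sum_const, nsmul_eq_mul, mul_one]
  · intro m hm
    refine h0 _ fun h => hm ?_
    rw [Set.Finite.mem_toFinset]
    exact h

/-! ### Small terms -/

theorem fcb_small {δ : ℝ} (hδ : 0 < δ) : ∃ C : ℝ, ∀ 𝔮 : Ideal (𝓞 K), C ≤ Ideal.absNorm 𝔮 →
    𝔮 ≠ ⊥ ∧ (nprim 𝔮 = 0 ∨ (2 : ℝ) ^ (QK 𝔮).card ≤ δ * nprim 𝔮) := by
  obtain ⟨C, hC1, hC⟩ := four_omega K (ε := 1 / 4) (by norm_num)
  have hC0 : 0 < C := zero_lt_one.trans_le hC1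
  refine ⟨max 1 ((C ^ 2 / δ) ^ 2), fun 𝔮 h𝔮 => ?_⟩
  set N : ℝ := (Ideal.absNorm 𝔮 : ℝ) with hN
  have hN1 : 1 ≤ N := (le_max_left _ _).trans h𝔮
  have hN2 : (C ^ 2 / δ) ^ 2 ≤ N := (le_max_right _ _).trans h𝔮
  have hne : 𝔮 ≠ ⊥ := by
    rintro rfl
    rw [hN, Ideal.absNorm_bot] at hN1
    norm_num at hN1
  refine ⟨hne, ?_⟩
  rcases nprim_ge hne with h | h
  · exact Or.inl h
  right
  have h4 := hC 𝔮 hne
  have hN0 : 0 < N := zero_lt_one.trans_le hN1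
  have h4p : (0 : ℝ) < 4 ^ (QK 𝔮).card := by positivity
  have h2 : (2 : ℝ) ^ (QK 𝔮).card ≤ 4 ^ (QK 𝔮).card :=
    pow_le_pow_left₀ (by norm_num) (by norm_num) _
  have hsq : C ^ 2 / δ ≤ Real.sqrt N := Real.le_sqrt_of_sq_le hN2
  have hr : N ^ (1 / 4 : ℝ) * N ^ (1 / 4 : ℝ) = Real.sqrt N := by
    rw [← Real.rpow_add hN0, Real.sqrt_eq_rpow]
    norm_num
  have h5 : (4 : ℝ) ^ (QK 𝔮).card * 4 ^ (QK 𝔮).card ≤ δ * N := by
    calc (4 : ℝ) ^ (QK 𝔮).card * 4 ^ (QK 𝔮).card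
        ≤ (C * N ^ (1 / 4 : ℝ)) * (C * N ^ (1 / 4 : ℝ)) := mul_le_mul h4 h4 h4p.le (by positivity)
      _ = C ^ 2 * Real.sqrt N := by rw [← hr]; ring
      _ ≤ (δ * Real.sqrt N) * Real.sqrt N := by
          refine mul_le_mul_of_nonneg_right ?_ (Real.sqrt_nonneg _)
          rw [div_le_iff₀ hδ] at hsq
          linarith
      _ = δ * N := by rw [mul_assoc, Real.mul_self_sqrt hN0.le]
  calc (2 : ℝ) ^ (QK 𝔮).card ≤ 4 ^ (QK 𝔮).card := h2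
    _ ≤ δ * (N / 4 ^ (QK 𝔮).card) := by
        rw [mul_div_assoc', le_div_iff₀ h4p]
        exact h5
    _ ≤ δ * nprim 𝔮 := mul_le_mul_of_nonneg_left h hδ.le

/-! ### The character sum -/

theorem fcb_unit_eq {ζ : torsion K} {k : Fin (rank K) → ℤ}
    (h : (ζ : (𝓞 K)ˣ) * uu k = 1) : ζ = 1 ∧ k = 0 := by
  obtain ⟨p, -, hp⟩ := exist_unique_eq_mul_prod K 1
  have h1 := hp (ζ, k) h.symm
  have h2 := hp (1, 0) (by simp)
  have h3 : (ζ, k) = ((1 : torsion K), (0 : Fin (rank K) → ℤ)) := h1.trans h2.symm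
  exact ⟨congrArg Prod.fst h3, congrArg Prod.snd h3⟩

theorem fcb_asymp [Fintype (torsion K)] (κ : InfinitePlace K → ℤ)
    (N : Finset (Fin (rank K) → ℤ))
    (c : (Fin (rank K) → ℤ) → ℂ) (h0 : (0 : Fin (rank K) → ℤ) ∈ N) :
    ∃ D : ℝ, 0 ≤ D ∧ ∀ (𝔮 : Ideal (𝓞 K)) (_ : 𝔮 ≠ ⊥) (E : Finset (MulChar (𝓞 K ⧸ 𝔮) ℂ))
      (_ : ∀ χ, χ ∈ E ↔ IsPrim 𝔮 χ),
      ‖∑ χ ∈ E, (∑ ζ : torsion K, uh κ 0 χ (ζ : (𝓞 K)ˣ)) * ∑ k ∈ N, c k * uh κ 0 χ (uu k) -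
        nprim 𝔮 * c 0‖ ≤ D * 2 ^ (QK 𝔮).card := by
  classical
  have hex : ∀ ε : (𝓞 K)ˣ, ∃ C : ℝ, 0 ≤ C ∧ (ε ≠ 1 → ∀ (𝔮 : Ideal (𝓞 K)) (_ : 𝔮 ≠ ⊥)
      (E : Finset (MulChar (𝓞 K ⧸ 𝔮) ℂ)) (_ : ∀ χ, χ ∈ E ↔ IsPrim 𝔮 χ),
      ‖∑ χ ∈ E, χ (Ideal.Quotient.mk 𝔮 (ε : 𝓞 K))‖ ≤ C * 2 ^ (QK 𝔮).card) := by
    intro ε
    by_cases hε : ε = 1
    · exact ⟨0, le_rfl, fun h => absurd hε h⟩
    · obtain ⟨C, hC, h⟩ := prim_unit_sum ε hε
      exact ⟨C, hC, fun _ => h⟩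
  choose Cu hCu0 hCu using hex
  refine ⟨∑ ζ : torsion K, ∑ k ∈ N, ‖c k‖ * Cu ((ζ : (𝓞 K)ˣ) * uu k),
    Finset.sum_nonneg fun ζ _ => Finset.sum_nonneg fun k _ =>
      mul_nonneg (norm_nonneg _) (hCu0 _), fun 𝔮 h𝔮 E hE => ?_⟩
  have hcard : nprim 𝔮 = (E.card : ℝ) := by
    unfold nprim
    rw [Nat.subtype_card E hE]
  have hsum : ∑ χ ∈ E, (∑ ζ : torsion K, uh κ 0 χ (ζ : (𝓞 K)ˣ)) *
      ∑ k ∈ N, c k * uh κ 0 χ (uu k) =
      ∑ ζ : torsion K, ∑ k ∈ N, c k * ∑ χ ∈ E, uh κ 0 χ ((ζ : (𝓞 K)ˣ) * uu k) := by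
    calc ∑ χ ∈ E, (∑ ζ : torsion K, uh κ 0 χ (ζ : (𝓞 K)ˣ)) * ∑ k ∈ N, c k * uh κ 0 χ (uu k)
        = ∑ χ ∈ E, ∑ ζ : torsion K, ∑ k ∈ N, c k * uh κ 0 χ ((ζ : (𝓞 K)ˣ) * uu k) := by
          refine Finset.sum_congr rfl fun χ _ => ?_
          rw [Finset.sum_mul]
          refine Finset.sum_congr rfl fun ζ _ => ?_
          rw [Finset.mul_sum]
          refine Finset.sum_congr rfl fun k _ => ?_
          rw [map_mul]
          ring
      _ = ∑ ζ : torsion K, ∑ χ ∈ E, ∑ k ∈ N, c k * uh κ 0 χ ((ζ : (𝓞 K)ˣ) * uu k) :=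
          Finset.sum_comm
      _ = _ := by
          refine Finset.sum_congr rfl fun ζ _ => ?_
          rw [Finset.sum_comm]
          refine Finset.sum_congr rfl fun k _ => ?_
          rw [Finset.mul_sum]
  have hmain : (nprim 𝔮 : ℂ) * c 0 = ∑ ζ : torsion K, ∑ k ∈ N,
      if ζ = 1 ∧ k = 0 then c k * (nprim 𝔮 : ℂ) else 0 := by
    rw [Finset.sum_eq_single (1 : torsion K), Finset.sum_eq_single (0 : Fin (rank K) → ℤ)]
    · simp [mul_comm]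
    · intro k _ hk
      rw [if_neg]
      exact fun h => hk h.2
    · exact fun h => absurd h0 h
    · intro ζ _ hζ
      refine Finset.sum_eq_zero fun k _ => ?_
      rw [if_neg]
      exact fun h => hζ h.1
    · exact fun h => absurd (Finset.mem_univ _) h
  rw [hsum, hmain, ← Finset.sum_sub_distrib]
  simp only [← Finset.sum_sub_distrib]
  rw [Finset.sum_mul]
  refine norm_sum_le_of_le _ fun ζ _ => ?_
  rw [Finset.sum_mul]
  refine norm_sum_le_of_le _ fun k _ => ?_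
  by_cases hk : ζ = 1 ∧ k = 0
  · rw [if_pos hk]
    obtain ⟨rfl, rfl⟩ := hk
    have h1 : ∑ χ ∈ E, uh κ 0 χ (((1 : torsion K) : (𝓞 K)ˣ) * uu 0) = (nprim 𝔮 : ℂ) := by
      rw [hcard]
      have h2 : ((1 : torsion K) : (𝓞 K)ˣ) * uu 0 = 1 := by simp [uu]
      rw [h2]
      simp
    rw [h1, sub_self, norm_zero]
    exact mul_nonneg (mul_nonneg (norm_nonneg _) (hCu0 _)) (by positivity)
  · rw [if_neg hk, sub_zero, norm_mul, mul_assoc]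
    refine mul_le_mul_of_nonneg_left ?_ (norm_nonneg _)
    have hne : (ζ : (𝓞 K)ˣ) * uu k ≠ 1 := fun h => hk (fcb_unit_eq h)
    have h1 : ∑ χ ∈ E, uh κ 0 χ ((ζ : (𝓞 K)ˣ) * uu k) =
        (∑ χ ∈ E, χ (Ideal.Quotient.mk 𝔮 (((ζ : (𝓞 K)ˣ) * uu k : (𝓞 K)ˣ) : 𝓞 K))) *
          psiInf κ 0 ((((ζ : (𝓞 K)ˣ) * uu k : (𝓞 K)ˣ) : 𝓞 K) : K) := by
      rw [Finset.sum_mul]
      rfl
    rw [h1, norm_mul, psiInf_norm κ 0 (fcb_unit_ne _), mul_one]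
    exact hCu _ hne 𝔮 h𝔮 E hE

/-- the sum over the torsion units detects triviality -/
theorem fcb_tors [Fintype (torsion K)] (κ : InfinitePlace K → ℤ) (χ : MulChar (𝓞 K ⧸ 𝔮) ℂ)
    [Decidable (∀ ζ ∈ torsion K, uh κ 0 χ ζ = 1)] :
    ∑ ζ : torsion K, uh κ 0 χ (ζ : (𝓞 K)ˣ) =
      if (∀ ζ ∈ torsion K, uh κ 0 χ ζ = 1) then (torsionOrder K : ℂ) else 0 := by
  classical
  have h := sum_hom_units ((uh κ 0 χ).comp (torsion K).subtype)
  have hiff : (uh κ 0 χ).comp (torsion K).subtype = 1 ↔ ∀ ζ ∈ torsion K, uh κ 0 χ ζ = 1 := by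
    rw [MonoidHom.ext_iff]
    constructor
    · intro h ζ hζ
      exact h ⟨ζ, hζ⟩
    · intro h ζ
      exact h ζ ζ.2
  have hcard : (torsionOrder K : ℂ) = Fintype.card (torsion K) := by
    unfold torsionOrder
    rw [Nat.card_eq_fintype_card]
  rw [hcard]
  by_cases h1 : ∀ ζ ∈ torsion K, uh κ 0 χ ζ = 1
  · rw [if_pos h1]
    rw [if_pos (hiff.2 h1)] at h
    exact h
  · rw [if_neg h1]
    rw [if_neg (fun h2 => h1 (hiff.1 h2)), Nat.cast_zero] at h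
    exact h

/-- the pairs -/
theorem fcb_pairs (κ : InfinitePlace K → ℤ) {B : ℝ} (h𝔮 : 𝔮 ≠ ⊥)
    (E1 : Finset (MulChar (𝓞 K ⧸ 𝔮) ℂ))
    (hE1 : ∀ χ, χ ∈ E1 ↔ IsPrim 𝔮 χ ∧ ∀ ζ ∈ torsion K, uh κ 0 χ ζ = 1) :
    {p : MulChar (𝓞 K ⧸ 𝔮) ℂ × (InfinitePlace K → ℝ) | IsPrim 𝔮 p.1 ∧
        UnitOK 𝔮 κ p.2 p.1 ∧ ∑ w, p.2 w = 0 ∧ ∀ w, |p.2 w| ≤ B}.Finite ∧
    ({p : MulChar (𝓞 K ⧸ 𝔮) ℂ × (InfinitePlace K → ℝ) | IsPrim 𝔮 p.1 ∧
        UnitOK 𝔮 κ p.2 p.1 ∧ ∑ w, p.2 w = 0 ∧ ∀ w, |p.2 w| ≤ B}.ncard : ℝ) =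
      ∑ χ ∈ E1, ((fcb_fin (phi κ χ) B).toFinset.card : ℝ) := by
  classical
  have : Finite (𝓞 K ⧸ 𝔮) := Ideal.finiteQuotientOfFreeOfNeBot 𝔮 h𝔮
  obtain ⟨Λ, h0, h1, h2⟩ := th_equiv (K := K)
  set S : Set (MulChar (𝓞 K ⧸ 𝔮) ℂ × (InfinitePlace K → ℝ)) := {p | IsPrim 𝔮 p.1 ∧
        UnitOK 𝔮 κ p.2 p.1 ∧ ∑ w, p.2 w = 0 ∧ ∀ w, |p.2 w| ≤ B} with hS
  set T : Finset (Σ _ : MulChar (𝓞 K ⧸ 𝔮) ℂ, Fin (rank K) → ℤ) :=
    E1.sigma fun χ => (fcb_fin (phi κ χ) B).toFinset with hT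
  set g : (Σ _ : MulChar (𝓞 K ⧸ 𝔮) ℂ, Fin (rank K) → ℤ) →
      MulChar (𝓞 K ⧸ 𝔮) ℂ × (InfinitePlace K → ℝ) :=
    fun q => (q.1, Λ (fun i => phi κ q.1 i + 2 * Real.pi * q.2 i)) with hg
  have himg : S = g '' (T : Set _) := by
    ext ⟨χ, lam⟩
    constructor
    · rintro ⟨hp, hu, hs, hb⟩
      obtain ⟨ht, m, hm⟩ := (phi_iff κ lam χ).1 hu
      have hth : (fun i => phi κ χ i + 2 * Real.pi * m i) = th lam := by
        funext i
        exact (hm i).symm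
      refine ⟨⟨χ, m⟩, ?_, ?_⟩
      · rw [Finset.mem_coe, hT, Finset.mem_sigma]
        refine ⟨(hE1 χ).2 ⟨hp, ht⟩, ?_⟩
        rw [Set.Finite.mem_toFinset]
        show (fun i => phi κ χ i + 2 * Real.pi * m i) ∈ ThB K B
        rw [hth]
        exact ⟨lam, hs, hb, rfl⟩
      · show (χ, Λ (fun i => phi κ χ i + 2 * Real.pi * m i)) = (χ, lam)
        rw [hth, h2 lam hs]
    · rintro ⟨⟨χ', m⟩, hm, he⟩
      rw [Finset.mem_coe, hT, Finset.mem_sigma, Set.Finite.mem_toFinset] at hm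
      obtain ⟨hm1, hm2⟩ := hm
      have hm2' : (fun i => phi κ χ' i + 2 * Real.pi * m i) ∈ ThB K B := hm2
      obtain ⟨lam', hs, hb, hl⟩ := hm2'
      have he' : (χ', Λ (fun i => phi κ χ' i + 2 * Real.pi * m i)) = (χ, lam) := he
      rw [hl, h2 lam' hs, Prod.mk.injEq] at he'
      obtain ⟨rfl, rfl⟩ := he'
      obtain ⟨hp, ht⟩ := (hE1 χ').1 hm1
      refine ⟨hp, (phi_iff κ lam' χ').2 ⟨ht, m, fun i => ?_⟩, hs, hb⟩
      exact (congrFun hl i).symm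
  have hinj : Set.InjOn g (T : Set _) := by
    rintro ⟨χ, m⟩ - ⟨χ', m'⟩ - he
    have he' : (χ, Λ (fun i => phi κ χ i + 2 * Real.pi * m i)) =
      (χ', Λ (fun i => phi κ χ' i + 2 * Real.pi * m' i)) := he
    rw [Prod.mk.injEq] at he'
    obtain ⟨rfl, he2⟩ := he'
    have h3 := congrArg th he2
    rw [h1, h1] at h3
    have h4 : m = m' := by
      funext i
      have h5 := congrFun h3 i
      have h6 : 2 * Real.pi * (m i : ℝ) = 2 * Real.pi * (m' i : ℝ) := by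
        simpa using h5
      have h7 := mul_left_cancel₀ (by positivity) h6
      exact_mod_cast h7
    rw [h4]
  constructor
  · rw [himg]
    exact T.finite_toSet.image g
  · rw [himg, hinj.ncard_image, Set.ncard_coe_finset, hT, Finset.card_sigma]
    push_cast
    rfl

theorem pair_count_pr (κ : InfinitePlace K → ℤ) {B ε : ℝ} (hB : 0 < B) (hε : 0 < ε) :
    ∃ C : ℝ, ∀ 𝔮 : Ideal (𝓞 K), C ≤ Ideal.absNorm 𝔮 →
      {p : MulChar (𝓞 K ⧸ 𝔮) ℂ × (InfinitePlace K → ℝ) | IsPrim 𝔮 p.1 ∧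
        UnitOK 𝔮 κ p.2 p.1 ∧ ∑ w, p.2 w = 0 ∧ ∀ w, |p.2 w| ≤ B}.Finite ∧
      (1 - ε) * nprim 𝔮 / torsionOrder K * ((volume (ThB K B)).toReal /
        (2 * Real.pi) ^ rank K) ≤
      ({p : MulChar (𝓞 K ⧸ 𝔮) ℂ × (InfinitePlace K → ℝ) | IsPrim 𝔮 p.1 ∧
        UnitOK 𝔮 κ p.2 p.1 ∧ ∑ w, p.2 w = 0 ∧ ∀ w, |p.2 w| ≤ B}.ncard : ℝ) := by
  classical
  have : Fintype (torsion K) := Fintype.ofFinite _
  set V : ℝ := (volume (ThB K B)).toReal with hV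
  have hV0 : 0 < V := ThB_volume hB
  set P : ℝ := (2 * Real.pi) ^ rank K with hP
  have hP0 : 0 < P := by positivity
  set W : ℝ := V / P with hW
  have hW0 : 0 < W := div_pos hV0 hP0
  set ω : ℝ := (torsionOrder K : ℝ) with hω
  have hω1 : 1 ≤ ω := by
    have := torsionOrder_pos K
    rw [hω]
    exact_mod_cast this
  have hω0 : 0 < ω := zero_lt_one.trans_le hω1
  obtain ⟨F, hFc, hFs, hF0, hF1, hFz, hFI⟩ := fcb_cut (K := K) hB (ε := ε * V / 4) (by positivity)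
  obtain ⟨N, c, h0N, hc0, happ⟩ := trig_approx hFc hFs (ε := ε * W / (8 * ω)) (by positivity)
  obtain ⟨D, hD0, hD⟩ := fcb_asymp κ N c h0N
  obtain ⟨C, hC⟩ := fcb_small (K := K) (δ := ε * W / (8 * (D + 1))) (by positivity)
  refine ⟨C, fun 𝔮 h𝔮 => ?_⟩
  obtain ⟨hne, hsm⟩ := hC 𝔮 h𝔮
  have : Finite (𝓞 K ⧸ 𝔮) := Ideal.finiteQuotientOfFreeOfNeBot 𝔮 hne
  set E : Finset (MulChar (𝓞 K ⧸ 𝔮) ℂ) :=
    (Set.toFinite {χ : MulChar (𝓞 K ⧸ 𝔮) ℂ | IsPrim 𝔮 χ}).toFinset with hEdef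
  have hE : ∀ χ, χ ∈ E ↔ IsPrim 𝔮 χ := fun χ => by
    rw [hEdef, Set.Finite.mem_toFinset]
    rfl
  have hcard : nprim 𝔮 = (E.card : ℝ) := by
    unfold nprim
    rw [Nat.subtype_card E hE]
  set E1 := E.filter fun χ => ∀ ζ ∈ torsion K, uh κ 0 χ ζ = 1 with hE1def
  have hE1 : ∀ χ, χ ∈ E1 ↔ IsPrim 𝔮 χ ∧ ∀ ζ ∈ torsion K, uh κ 0 χ ζ = 1 := fun χ => by
    rw [hE1def, Finset.mem_filter, hE]
  obtain ⟨hfin, hnc⟩ := fcb_pairs κ (B := B) hne E1 hE1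
  refine ⟨hfin, ?_⟩
  rcases hsm with h0 | hsm
  · rw [h0, mul_zero, zero_div, zero_mul]
    positivity
  rw [hnc]
  set Q : MulChar (𝓞 K ⧸ 𝔮) ℂ → ℂ := fun χ => ∑ k ∈ N, c k * uh κ 0 χ (uu k) with hQ
  have hn0 : 0 ≤ nprim 𝔮 := by rw [hcard]; positivity
  -- pointwise
  have hpt : ∀ χ ∈ E1, (Q χ).re - ε * W / (8 * ω) ≤
      ((fcb_fin (phi κ χ) B).toFinset.card : ℝ) := by
    intro χ _
    refine le_trans ?_ (fcb_count hF1 hFz (phi κ χ))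
    have h1 := happ (phi κ χ)
    have h2 : ∑ k ∈ N, c k * cexp (((∑ i, k i * phi κ χ i : ℝ) : ℂ) * I) = Q χ := by
      refine Finset.sum_congr rfl fun k _ => ?_
      rw [phi_sum]
    rw [h2] at h1
    have h3 := (abs_le.1 ((Complex.abs_re_le_norm _).trans h1)).1
    rw [Complex.sub_re, Complex.ofReal_re] at h3
    linarith
  have hsum : ∑ χ ∈ E, (∑ ζ : torsion K, uh κ 0 χ (ζ : (𝓞 K)ˣ)) * Q χ =
      (ω : ℂ) * ∑ χ ∈ E1, Q χ := by
    rw [hE1def, Finset.sum_filter, Finset.mul_sum]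
    refine Finset.sum_congr rfl fun χ _ => ?_
    rw [fcb_tors]
    split_ifs
    · rw [hω]
      push_cast
      rfl
    · ring
  have hmain := hD 𝔮 hne E hE
  rw [hsum] at hmain
  have hre := (abs_le.1 ((Complex.abs_re_le_norm _).trans hmain)).1
  rw [Complex.sub_re, Complex.re_ofReal_mul, Complex.re_ofReal_mul] at hre
  have hc0' : W - ε * W / 4 - ε * W / (8 * ω) ≤ (c 0).re := by
    have h1 := (abs_le.1 ((Complex.abs_re_le_norm _).trans hc0)).1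
    rw [Complex.sub_re, Complex.ofReal_re] at h1
    have h2 : W - ε * W / 4 ≤ (∫ θ, F θ) / (2 * Real.pi) ^ rank K := by
      rw [le_div_iff₀ hP0]
      have h3 : (W - ε * W / 4) * (2 * Real.pi) ^ rank K = V - ε * V / 4 := by
        have : W * P = V := by rw [hW]; field_simp
        calc (W - ε * W / 4) * (2 * Real.pi) ^ rank K = W * P - ε * (W * P) / 4 := by
              rw [hP]; ring
          _ = _ := by rw [this]
      rw [h3]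
      exact hFI
    linarith
  have hS1 : (∑ χ ∈ E1, Q χ).re - ε * W / (8 * ω) * nprim 𝔮 ≤
      ∑ χ ∈ E1, ((fcb_fin (phi κ χ) B).toFinset.card : ℝ) := by
    have h1 := Finset.sum_le_sum hpt
    rw [Finset.sum_sub_distrib, Finset.sum_const, nsmul_eq_mul] at h1
    have h2 : (E1.card : ℝ) ≤ nprim 𝔮 := by
      rw [hcard]
      exact_mod_cast Finset.card_le_card (Finset.filter_subset _ _)
    have h3 : (E1.card : ℝ) * (ε * W / (8 * ω)) ≤ ε * W / (8 * ω) * nprim 𝔮 := by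
      rw [mul_comm]
      exact mul_le_mul_of_nonneg_left h2 (by positivity)
    rw [Complex.re_sum]
    linarith
  refine le_trans ?_ hS1
  have hDs : D * 2 ^ (QK 𝔮).card ≤ ε * W / 8 * nprim 𝔮 := by
    calc D * 2 ^ (QK 𝔮).card ≤ D * (ε * W / (8 * (D + 1)) * nprim 𝔮) :=
          mul_le_mul_of_nonneg_left hsm hD0
      _ = (D / (D + 1)) * (ε * W / 8 * nprim 𝔮) := by field_simp
      _ ≤ 1 * (ε * W / 8 * nprim 𝔮) := by
          refine mul_le_mul_of_nonneg_right ?_ (by positivity)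
          rw [div_le_one (by positivity)]
          linarith
      _ = _ := one_mul _
  have he1 : ε * W / (8 * ω) ≤ ε * W / 8 := by
    refine div_le_div_of_nonneg_left (by positivity) (by norm_num) ?_
    linarith
  have he2 : ω * (ε * W / (8 * ω)) = ε * W / 8 := by field_simp
  -- multiply by ω
  have hgoal : (1 - ε) * nprim 𝔮 * W ≤
      ω * ((∑ χ ∈ E1, Q χ).re - ε * W / (8 * ω) * nprim 𝔮) := by
    have h1 : nprim 𝔮 * (W - ε * W / 4 - ε * W / 8) ≤ nprim 𝔮 * (c 0).re :=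
      mul_le_mul_of_nonneg_left (by linarith) hn0
    have h2 : ω * (ε * W / (8 * ω) * nprim 𝔮) = ε * W / 8 * nprim 𝔮 := by
      rw [← mul_assoc, he2]
    rw [mul_sub, h2]
    have h3 : 0 ≤ ε * W * nprim 𝔮 := by positivity
    nlinarith
  have : (1 - ε) * nprim 𝔮 / ω * W = ((1 - ε) * nprim 𝔮 * W) / ω := by ring
  rw [this, div_le_iff₀ hω0, mul_comm _ ω]
  exact hgoal



end Pool.Agent.LVK

namespace Pool.Agent.LVK

theorem pair_count : type_of% @pair_count_pr := @pair_count_pr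

end Pool.Agent.LVK
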