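import Pool.Agent.Lib_helper42.LVK.Defs
import Pool.Agent.Lib_helper41.HZF.YB
import Pool.Agent.Lib_helper41.HZF.KG
import Pool.Agent.Lib_helper92.KSA.BRG
import Pool.Agent.Lib_helper92.KSA.LATU
import Pool.Agent.Lib_helper92.KSA.LNZ
import Pool.Agent.Lib_helper39.LVX.K_FC2
import Pool.Agent.Lib_helper39.LVX.K_FC4B

/-!
# LVK block FC5: the size of the family
-/

set_option autoImplicit false

namespace Pool.Agent.LVK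

open NumberField NumberField.InfinitePlace NumberField.Units Complex MeasureTheory Filter Topology
open Pool.Agent.HZ Pool.Agent.AS Pool.Agent.KS

variable {K : Type} [Field K] [NumberField K]

variable {𝔮 : Ideal (𝓞 K)}

/-- the pairs -/
def fc5_P (𝔮 : Ideal (𝓞 K)) (κ : InfinitePlace K → ℤ) (B : ℝ) :
    Set (MulChar (𝓞 K ⧸ 𝔮) ℂ × (InfinitePlace K → ℝ)) :=
  {p : MulChar (𝓞 K ⧸ 𝔮) ℂ × (InfinitePlace K → ℝ) | IsPrim 𝔮 p.1 ∧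
        UnitOK 𝔮 κ p.2 p.1 ∧ ∑ w, p.2 w = 0 ∧ ∀ w, |p.2 w| ≤ B}

/-- the family as a sum over the pairs -/
noncomputable def fc5_equiv (h𝔮 : 𝔮 ≠ ⊥) (κ : InfinitePlace K → ℤ) (B : ℝ) :
    (Σ p : fc5_P 𝔮 κ B, {ψ : Ideal (𝓞 K) →* ℂ // IsHecke 𝔮 κ p.1.2 p.1.1 ψ}) ≃ FamB 𝔮 κ B where
  toFun x := ⟨⟨κ, x.1.1.2, x.1.1.1, x.2.1⟩, ⟨rfl, x.1.2.1, x.2.2, x.1.2.2.2.1⟩, x.1.2.2.2.2⟩
  invFun t := ⟨⟨(t.1.χ, t.1.lam), t.2.1.2.1,
    hecke_unitOK h𝔮 (by have h := t.2.1.2.2.1; rw [t.2.1.1] at h; exact h), t.2.1.2.2.2, t.2.2⟩,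
    ⟨t.1.ψ, by have h := t.2.1.2.2.1; rw [t.2.1.1] at h; exact h⟩⟩
  left_inv x := rfl
  right_inv t := by
    obtain ⟨⟨κ', lam, χ, ψ⟩, ⟨h1, h2, h3, h4⟩, h5⟩ := t
    have h1' : κ' = κ := h1
    subst h1'
    rfl

theorem family_count_pr (κ : InfinitePlace K → ℤ) {B ε : ℝ} (hB : 0 < B) (hε : 0 < ε) :
    ∃ C : ℝ, ∀ 𝔮 : Ideal (𝓞 K), C ≤ Ideal.absNorm 𝔮 → (FamB 𝔮 κ B).Finite ∧
      (1 - ε) * (hT K * nprim 𝔮 * ((volume (ThB K B)).toReal / (2 * Real.pi) ^ rank K)) ≤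
        ((FamB 𝔮 κ B).ncard : ℝ) := by
  obtain ⟨C, hC⟩ := pair_count (K := K) κ hB hε
  refine ⟨max C 2, fun 𝔮 h => ?_⟩
  have h2 : (2 : ℝ) ≤ Ideal.absNorm 𝔮 := (le_max_right _ _).trans h
  have h𝔮 : 𝔮 ≠ ⊥ := by
    rintro rfl
    rw [Ideal.absNorm_bot] at h2
    norm_num at h2
  have h𝔮' : 𝔮 ≠ ⊤ := by
    rintro rfl
    rw [Ideal.absNorm_top] at h2
    norm_num at h2
  obtain ⟨hfin, hle⟩ := hC 𝔮 ((le_max_left _ _).trans h)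
  change (fc5_P 𝔮 κ B).Finite at hfin
  have hle' : (1 - ε) * nprim 𝔮 / torsionOrder K * ((volume (ThB K B)).toReal /
      (2 * Real.pi) ^ rank K) ≤ ((fc5_P 𝔮 κ B).ncard : ℝ) := hle
  have hcard : ∀ p : fc5_P 𝔮 κ B,
      Finite {ψ : Ideal (𝓞 K) →* ℂ // IsHecke 𝔮 κ p.1.2 p.1.1 ψ} ∧
      Nat.card {ψ : Ideal (𝓞 K) →* ℂ // IsHecke 𝔮 κ p.1.2 p.1.1 ψ} = classNumber K := by
    intro p
    have h3 := hecke_card h𝔮 h𝔮' p.2.2.1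
    exact ⟨h3.1.to_subtype, h3.2⟩
  have : Finite (fc5_P 𝔮 κ B) := hfin.to_subtype
  have : Fintype (fc5_P 𝔮 κ B) := Fintype.ofFinite _
  have : ∀ p : fc5_P 𝔮 κ B, Finite {ψ : Ideal (𝓞 K) →* ℂ // IsHecke 𝔮 κ p.1.2 p.1.1 ψ} :=
    fun p => (hcard p).1
  have hF : Finite (FamB 𝔮 κ B) := Finite.of_equiv _ (fc5_equiv h𝔮 κ B)
  have hN : (FamB 𝔮 κ B).ncard = (fc5_P 𝔮 κ B).ncard * classNumber K := by
    change Nat.card (FamB 𝔮 κ B) = Nat.card (fc5_P 𝔮 κ B) * classNumber K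
    rw [← Nat.card_congr (fc5_equiv h𝔮 κ B), Nat.card_sigma, Finset.sum_congr rfl
      (fun p _ => (hcard p).2), Finset.sum_const, Finset.card_univ, smul_eq_mul,
      Nat.card_eq_fintype_card]
  refine ⟨Set.toFinite _, ?_⟩
  rw [hN, Nat.cast_mul]
  have h4 := mul_le_mul_of_nonneg_right hle' (Nat.cast_nonneg (α := ℝ) (classNumber K))
  refine le_trans (le_of_eq ?_) h4
  unfold hT
  ring


end Pool.Agent.LVK

namespace Pool.Agent.LVK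

theorem family_count : type_of% @family_count_pr := @family_count_pr

end Pool.Agent.LVK
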