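import Pool.Agent.Lib_helper42.LVK.Defs
import Pool.Agent.Lib_helper41.HZF.YB
import Pool.Agent.Lib_helper41.HZF.KG
import Pool.Agent.Lib_helper92.KSA.BRG
import Pool.Agent.Lib_helper92.KSA.LATU
import Pool.Agent.Lib_helper92.KSA.LNZ
import Pool.Agent.Lib_helper92.LVA.Defs
import Pool.Agent.Lib_helper92.KSA.KPO
import Pool.Agent.Lib_helper92.KSA.ZKA

/-!
# LVK block KP1: the Gaussian kernel with complex argument
-/

namespace Pool.Agent.LVK

open NumberField NumberField.InfinitePlace NumberField.Units Complex MeasureTheory Filter Topology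
open Pool.Agent.HZ Pool.Agent.AS Pool.Agent.KS

variable {K : Type} [Field K] [NumberField K]

theorem kp1_qn (u : ℝ) (x : Fin (rank K) → ℝ) :
    qn (Yv K u x) = Real.exp (2 * u / Module.finrank ℚ K) * qn (Yv K 0 x) := by
  unfold qn
  rw [Finset.mul_sum]
  refine Finset.sum_congr rfl fun w _ => ?_
  have h : Yv K u x w = Real.exp (u / Module.finrank ℚ K) * Yv K 0 x w := by
    unfold Yv
    rw [zero_div, Real.exp_zero, one_mul]
  rw [h, mul_pow, ← Real.exp_nat_mul]
  have h2 : (2 : ℕ) * (u / Module.finrank ℚ K) = 2 * u / Module.finrank ℚ K := by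
    push_cast
    ring
  rw [h2]
  ring

theorem kp1_qn_nonneg (y : InfinitePlace K → ℝ) : 0 ≤ qn y := by
  unfold qn
  exact Finset.sum_nonneg fun w _ => by positivity

theorem kgC_real_pr (u : ℝ) : kgC K u = (kg K Real.pi u : ℂ) := by
  unfold kgC kg
  rw [← integral_complex_ofReal]
  congr 1
  funext x
  rw [kp1_qn u x]
  push_cast
  congr 1
  ring

theorem kp1_cos : 0 < Real.cos 1 := Real.cos_one_pos

theorem kp1_norm {z : ℂ} (hz : |z.im| < 1 / 2) {q : ℝ} (hq : 0 ≤ q) :
    ‖cexp (-(Real.pi * cexp (2 * z / Module.finrank ℚ K) * (q : ℝ)))‖ ≤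
      Real.exp (-(Real.pi * Real.cos 1) * (Real.exp (2 * z.re / Module.finrank ℚ K) * q)) := by
  have hn : (1 : ℝ) ≤ Module.finrank ℚ K := by
    exact_mod_cast (Module.finrank_pos (R := ℚ) (M := K))
  rw [Complex.norm_exp]
  refine Real.exp_le_exp.mpr ?_
  have hre : (2 * z / (Module.finrank ℚ K : ℂ)).re = 2 * z.re / Module.finrank ℚ K := by
    rw [Complex.div_natCast_re]
    simp
  have him : (2 * z / (Module.finrank ℚ K : ℂ)).im = 2 * z.im / Module.finrank ℚ K := by
    rw [Complex.div_natCast_im]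
    simp
  have h1 : (-(Real.pi * cexp (2 * z / Module.finrank ℚ K) * (q : ℝ)) : ℂ).re =
      -(Real.pi * (Real.exp (2 * z.re / Module.finrank ℚ K) *
        Real.cos (2 * z.im / Module.finrank ℚ K)) * q) := by
    rw [Complex.neg_re, Complex.re_mul_ofReal, Complex.re_ofReal_mul, Complex.exp_re, hre, him]
  rw [h1]
  have h2 : |2 * z.im / Module.finrank ℚ K| ≤ 1 := by
    rw [abs_div, abs_mul, abs_two, Nat.abs_cast, div_le_one (by linarith)]
    linarith
  have h3 : Real.cos 1 ≤ Real.cos (2 * z.im / Module.finrank ℚ K) := by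
    rw [← Real.cos_abs (2 * z.im / Module.finrank ℚ K)]
    refine Real.cos_le_cos_of_nonneg_of_le_pi (abs_nonneg _) ?_ h2
    linarith [Real.pi_gt_three]
  have h4 : 0 ≤ Real.pi * Real.exp (2 * z.re / Module.finrank ℚ K) * q := by positivity
  nlinarith [mul_le_mul_of_nonneg_left h3 h4]

theorem kp1_norm2 {z : ℂ} (hz : |z.im| < 1 / 2) (x : Fin (rank K) → ℝ) :
    ‖cexp (-(Real.pi * cexp (2 * z / Module.finrank ℚ K) * (qn (Yv K 0 x) : ℝ)))‖ ≤
      Real.exp (-(Real.pi * Real.cos 1) * qn (Yv K z.re x)) := by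
  rw [kp1_qn z.re x]
  exact kp1_norm hz (kp1_qn_nonneg _)

theorem kp1_cont (z : ℂ) : Continuous (fun x : Fin (rank K) → ℝ =>
    cexp (-(Real.pi * cexp (2 * z / Module.finrank ℚ K) * (qn (Yv K 0 x) : ℝ)))) := by
  have h1 : Continuous (fun x : Fin (rank K) → ℝ => qn (Yv K 0 x)) :=
    kgb_qn_cont.comp (kgb_cont_x 0)
  have h2 : Continuous (fun x : Fin (rank K) → ℝ => ((qn (Yv K 0 x) : ℝ) : ℂ)) :=
    Complex.continuous_ofReal.comp h1
  exact Complex.continuous_exp.comp ((continuous_const.mul h2).neg)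

theorem kp1_le_exp {c X : ℝ} (hc : 0 < c) :
    X * Real.exp (-(c * X)) ≤ 2 / c * Real.exp (-(c / 2 * X)) := by
  have h1 : c / 2 * X ≤ Real.exp (c / 2 * X) := by
    have := Real.add_one_le_exp (c / 2 * X)
    linarith
  have h2 : X ≤ 2 / c * Real.exp (c / 2 * X) := by
    rw [div_mul_eq_mul_div, le_div_iff₀ hc]
    linarith
  calc X * Real.exp (-(c * X)) ≤ (2 / c * Real.exp (c / 2 * X)) * Real.exp (-(c * X)) := by
        gcongr
    _ = _ := by
        rw [mul_assoc, ← Real.exp_add]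
        congr 2
        ring

theorem kgC_diff_pr : DifferentiableOn ℂ (kgC K) {z | |z.im| < 1 / 2} := by
  intro z₀ hz₀
  have hn : (1 : ℝ) ≤ Module.finrank ℚ K := by
    exact_mod_cast (Module.finrank_pos (R := ℚ) (M := K))
  have hn0 : (Module.finrank ℚ K : ℂ) ≠ 0 := by
    have : (Module.finrank ℚ K : ℝ) ≠ 0 := by linarith
    exact_mod_cast this
  have hc := kp1_cos
  refine DifferentiableAt.differentiableWithinAt ?_
  have hopen : IsOpen {z : ℂ | |z.im| < 1 / 2} :=
    isOpen_lt (continuous_abs.comp Complex.continuous_im) continuous_const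
  have hs : {z : ℂ | |z.im| < 1 / 2} ∩ {z : ℂ | z₀.re - 1 < z.re} ∈ 𝓝 z₀ := by
    refine Filter.inter_mem (hopen.mem_nhds hz₀) ?_
    exact (isOpen_lt continuous_const Complex.continuous_re).mem_nhds
      (show z₀.re - 1 < z₀.re by linarith)
  refine (hasDerivAt_integral_of_dominated_loc_of_deriv_le
    (F := fun z x => cexp (-(Real.pi * cexp (2 * z / Module.finrank ℚ K) *
      (qn (Yv K 0 x) : ℝ))))
    (F' := fun z x => cexp (-(Real.pi * cexp (2 * z / Module.finrank ℚ K) *
      (qn (Yv K 0 x) : ℝ))) * (-(Real.pi * (cexp (2 * z / Module.finrank ℚ K) *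
        (2 * 1 / Module.finrank ℚ K)) * (qn (Yv K 0 x) : ℝ))))
    (bound := fun x => 2 * (2 / Real.cos 1) *
      Real.exp (-(Real.pi * (Real.cos 1 / 2)) * qn (Yv K (z₀.re - 1) x)))
    hs ?_ ?_ ?_ ?_ ?_ ?_).2.differentiableAt
  · exact Eventually.of_forall fun z => (kp1_cont z).aestronglyMeasurable
  · refine (kg_integrable (K := K) (c := Real.pi * Real.cos 1) (by positivity) z₀.re).mono'
      (kp1_cont z₀).aestronglyMeasurable (ae_of_all _ fun x => ?_)
    exact kp1_norm2 hz₀ x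
  · have h1 : Continuous (fun x : Fin (rank K) → ℝ => qn (Yv K 0 x)) :=
      kgb_qn_cont.comp (kgb_cont_x 0)
    have h2 : Continuous (fun x : Fin (rank K) → ℝ => ((qn (Yv K 0 x) : ℝ) : ℂ)) :=
      Complex.continuous_ofReal.comp h1
    exact ((kp1_cont z₀).mul ((continuous_const.mul h2).neg)).aestronglyMeasurable
  · refine ae_of_all _ fun x z hz => ?_
    have hzi : |z.im| < 1 / 2 := hz.1
    have hzr : z₀.re - 1 < z.re := hz.2
    rw [norm_mul]
    have hq : 0 ≤ qn (Yv K 0 x) := kp1_qn_nonneg _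
    have h1 : ‖(-(Real.pi * (cexp (2 * z / Module.finrank ℚ K) *
        (2 * 1 / Module.finrank ℚ K)) * (qn (Yv K 0 x) : ℝ)) : ℂ)‖ =
        (2 / Module.finrank ℚ K) * (Real.pi * qn (Yv K z.re x)) := by
      rw [norm_neg, norm_mul, norm_mul, norm_mul, Complex.norm_real, Complex.norm_real,
        Complex.norm_exp, Complex.div_natCast_re, norm_div, Complex.norm_natCast,
        Real.norm_of_nonneg hq, Real.norm_of_nonneg Real.pi_pos.le, kp1_qn z.re x]
      simp
      ring
    rw [h1]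
    have h2 := kp1_norm2 (K := K) hzi x
    have h3 := kp1_le_exp (c := Real.cos 1) (X := Real.pi * qn (Yv K z.re x)) hc
    have hq2 : 0 ≤ qn (Yv K z.re x) := kp1_qn_nonneg _
    have h4 : (2 : ℝ) / Module.finrank ℚ K ≤ 2 := by
      rw [div_le_iff₀ (by linarith)]
      linarith
    have h5 : qn (Yv K (z₀.re - 1) x) ≤ qn (Yv K z.re x) := by
      rw [kp1_qn z.re x, kp1_qn (z₀.re - 1) x]
      gcongr
    calc ‖cexp (-(Real.pi * cexp (2 * z / Module.finrank ℚ K) * (qn (Yv K 0 x) : ℝ)))‖ *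
          (2 / Module.finrank ℚ K * (Real.pi * qn (Yv K z.re x)))
        ≤ Real.exp (-(Real.pi * Real.cos 1) * qn (Yv K z.re x)) *
          (2 * (Real.pi * qn (Yv K z.re x))) := by gcongr
      _ = 2 * ((Real.pi * qn (Yv K z.re x)) *
          Real.exp (-(Real.cos 1 * (Real.pi * qn (Yv K z.re x))))) := by
          rw [show -(Real.pi * Real.cos 1) * qn (Yv K z.re x) =
            -(Real.cos 1 * (Real.pi * qn (Yv K z.re x))) by ring]
          ring
      _ ≤ 2 * (2 / Real.cos 1 *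
          Real.exp (-(Real.cos 1 / 2 * (Real.pi * qn (Yv K z.re x))))) := by gcongr
      _ ≤ 2 * (2 / Real.cos 1 *
          Real.exp (-(Real.cos 1 / 2 * (Real.pi * qn (Yv K (z₀.re - 1) x))))) := by gcongr
      _ = _ := by
          rw [show -(Real.cos 1 / 2 * (Real.pi * qn (Yv K (z₀.re - 1) x))) =
            -(Real.pi * (Real.cos 1 / 2)) * qn (Yv K (z₀.re - 1) x) by ring]
          ring
  · exact (kg_integrable (K := K) (c := Real.pi * (Real.cos 1 / 2)) (by positivity)
      (z₀.re - 1)).const_mul _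
  · refine ae_of_all _ fun x z hz => ?_
    have h1 : HasDerivAt (fun z : ℂ => 2 * z / Module.finrank ℚ K)
        (2 * 1 / Module.finrank ℚ K) z := ((hasDerivAt_id z).const_mul 2).div_const _
    exact (((h1.cexp.const_mul (Real.pi : ℂ)).mul_const ((qn (Yv K 0 x) : ℝ) : ℂ)).neg).cexp

theorem kgC_decay_pr {A : ℝ} (hA : 0 < A) : ∃ C : ℝ, ∀ z : ℂ, |z.im| < 1 / 2 →
    ‖kgC K z‖ ≤ C * Real.exp (-(A * z.re)) := by
  have hc := kp1_cos
  obtain ⟨C, hC, h⟩ := kg_le (K := K) (c := Real.pi * Real.cos 1) (by positivity) hA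
  refine ⟨C, fun z hz => ?_⟩
  refine le_trans ?_ (h z.re)
  unfold kgC kg
  refine norm_integral_le_of_norm_le (kg_integrable (K := K) (by positivity) z.re)
    (ae_of_all _ fun x => ?_)
  exact kp1_norm2 hz x


end Pool.Agent.LVK

namespace Pool.Agent.LVK

theorem kgC_real : type_of% @kgC_real_pr := @kgC_real_pr
theorem kgC_diff : type_of% @kgC_diff_pr := @kgC_diff_pr
theorem kgC_decay : type_of% @kgC_decay_pr := @kgC_decay_pr

end Pool.Agent.LVK
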