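import Pool.Agent.Lib_helper42.LVK.Defs
import Pool.Agent.Lib_helper41.HZF.YB
import Pool.Agent.Lib_helper41.HZF.KG
import Pool.Agent.Lib_helper92.KSA.BRG
import Pool.Agent.Lib_helper92.KSA.LATU
import Pool.Agent.Lib_helper92.KSA.LNZ
import Pool.Agent.Lib_helper92.LVA.Defs
import Pool.Agent.Lib_helper92.KSA.KPO
import Pool.Agent.Lib_helper92.KSA.ZKA

/-! LVK, block KP2A: theta functions with complex argument -/

namespace Pool.Agent.LVK

open NumberField NumberField.InfinitePlace NumberField.Units Complex MeasureTheory Filter Topology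
open Pool.Agent.HZ Pool.Agent.AS Pool.Agent.KS

variable {K : Type} [Field K] [NumberField K]

theorem kp2a_theta {ι : Type} {q : ι → ℝ} (hq : ∀ i, 0 ≤ q i)
    (hs : ∀ c : ℝ, 0 < c → Summable fun i => Real.exp (-c * q i)) :
    DifferentiableOn ℂ (fun s : ℂ => ∑' i, cexp (-(Real.pi * s * (q i : ℝ)))) {s | 0 < s.re} := by
  intro s hs'
  have hs0 : 0 < s.re := hs'
  have hpi := Real.pi_pos
  have hU : IsOpen {w : ℂ | s.re / 2 < w.re} := isOpen_lt continuous_const Complex.continuous_re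
  have h1 : DifferentiableOn ℂ (fun s : ℂ => ∑' i, cexp (-(Real.pi * s * (q i : ℝ))))
      {w : ℂ | s.re / 2 < w.re} := by
    refine differentiableOn_tsum_of_summable_norm
      (hs (Real.pi * (s.re / 2)) (by positivity)) (fun i => ?_) hU fun i w hw => ?_
    · refine Differentiable.differentiableOn ?_
      fun_prop
    · rw [Complex.norm_exp]
      refine Real.exp_le_exp.2 ?_
      have e1 : (-(Real.pi * w * (q i : ℝ) : ℂ)).re = -(Real.pi * w.re * q i) := by
        simp [Complex.mul_re]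
      rw [e1]
      have hw' : s.re / 2 < w.re := hw
      have h2 : Real.pi * (s.re / 2) * q i ≤ Real.pi * w.re * q i :=
        mul_le_mul_of_nonneg_right (mul_le_mul_of_nonneg_left hw'.le hpi.le) (hq i)
      linarith
  have h3 : s ∈ {w : ℂ | s.re / 2 < w.re} := by
    show s.re / 2 < s.re
    linarith
  exact (h1.differentiableAt (hU.mem_nhds h3)).differentiableWithinAt

theorem kp2a_re {n : ℕ} (hn : 0 < n) {z : ℂ} (hz : |z.im| < 1 / 2) :
    0 < (cexp (2 * z / n)).re ∧ 0 < (cexp (-(2 * z / n))).re := by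
  have hn1 : (1 : ℝ) ≤ n := by exact_mod_cast hn
  have hn0 : (0 : ℝ) < n := by linarith
  have h1 : (2 * z / n : ℂ).im = 2 * z.im / n := by
    simp [Complex.div_natCast_im, Complex.mul_im]
  have h2 : |2 * z.im / n| < 1 := by
    rw [abs_div, abs_mul, abs_of_pos hn0, abs_of_pos (by norm_num : (0 : ℝ) < 2), div_lt_one hn0]
    linarith
  have h3 := Real.pi_gt_three
  have hcos : ∀ t : ℝ, |t| < 1 → 0 < Real.cos t := fun t ht => by
    have := abs_lt.1 ht
    exact Real.cos_pos_of_mem_Ioo ⟨by linarith, by linarith⟩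
  rw [Complex.exp_re, Complex.exp_re, Complex.neg_im, h1]
  refine ⟨mul_pos (Real.exp_pos _) (hcos _ h2), mul_pos (Real.exp_pos _) (hcos _ ?_)⟩
  rwa [abs_neg]

theorem kp2a_Yv (u : ℝ) (x : Fin (rank K) → ℝ) (w : InfinitePlace K) :
    Yv K u x w = Real.exp (u / Module.finrank ℚ K) * Yv K 0 x w := by
  unfold Yv
  simp

theorem kp2a_qn (c : ℝ) (y : InfinitePlace K → ℝ) : qn (fun w => c * y w) = c ^ 2 * qn y := by
  unfold qn
  rw [Finset.mul_sum]
  refine Finset.sum_congr rfl fun w _ => ?_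
  ring

theorem kp2a_qn_nonneg (y : InfinitePlace K → ℝ) : 0 ≤ qn y := by
  unfold qn
  positivity

theorem kp2a_exp_sq (t : ℝ) : Real.exp t ^ 2 = Real.exp (2 * t) := by
  rw [← Real.exp_nat_mul]
  norm_num

/-- theta functions of one ideal, complex argument, by analytic continuation of `nf_poisson` -/
theorem theta_C_pr {𝔩 𝔫 : Ideal (𝓞 K)} {N : ℕ} (hN : 0 < N)
    (h : 𝔩 * 𝔫 * differentIdeal ℤ (𝓞 K) = Ideal.span {(N : 𝓞 K)}) : ∃ C₀ : ℝ, 0 < C₀ ∧
    ∀ (z : ℂ) (x : Fin (rank K) → ℝ), |z.im| < 1 / 2 →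
      ∑' α : 𝔩, cexp (-(Real.pi * cexp (2 * z / Module.finrank ℚ K) *
        (qn (fun w => Yv K 0 x w * w ((α : 𝓞 K) : K)) : ℝ))) =
      C₀ * cexp (-z) * ∑' β : 𝔫, cexp (-(Real.pi * cexp (-(2 * z / Module.finrank ℚ K)) *
        (qn (fun w => w ((β : 𝓞 K) : K) / (N * Yv K 0 x w)) : ℝ))) := by
  obtain ⟨C₀, hC₀, hP⟩ := nf_poisson (K := K)
  have hN' : (0 : ℝ) < N := by exact_mod_cast hN
  have h𝔩 : 𝔩 ≠ ⊥ := by
    rintro rfl
    rw [Ideal.bot_mul, Ideal.bot_mul] at h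
    have h1 := Ideal.span_singleton_eq_bot.1 h.symm
    exact hN.ne' (by exact_mod_cast h1)
  have hnl : (0 : ℝ) < Ideal.absNorm 𝔩 := by
    have : 0 < Ideal.absNorm 𝔩 :=
      Nat.pos_of_ne_zero (by rw [Ne, Ideal.absNorm_eq_zero_iff]; exact h𝔩)
    exact_mod_cast this
  have hn : 0 < Module.finrank ℚ K := Module.finrank_pos
  have hn' : (0 : ℝ) < (Module.finrank ℚ K : ℝ) := by exact_mod_cast hn
  refine ⟨C₀ / Ideal.absNorm 𝔩, by positivity, fun z x hz => ?_⟩
  set n : ℕ := Module.finrank ℚ K with hndef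
  -- the two quadratic forms
  have hY : ∀ w, 0 < Yv K 0 x w := Yv_pos 0 x
  have hsum1 : ∀ c : ℝ, 0 < c → Summable fun α : 𝔩 =>
      Real.exp (-c * qn (fun w => Yv K 0 x w * w ((α : 𝓞 K) : K))) := by
    intro c hc
    have h1 := lattice_summable 𝔩 hc (Yv K 0 x) hY 0
    simpa only [zero_add] using h1
  have hsum2 : ∀ c : ℝ, 0 < c → Summable fun β : 𝔫 =>
      Real.exp (-c * qn (fun w => w ((β : 𝓞 K) : K) / (N * Yv K 0 x w))) := by
    intro c hc
    have h1 := lattice_summable 𝔫 hc (fun w => 1 / (N * Yv K 0 x w))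
      (fun w => by have := hY w; positivity) 0
    have e1 : ∀ (β : 𝔫) (w : InfinitePlace K), 1 / (N * Yv K 0 x w) * w ((β : 𝓞 K) : K) =
        w ((β : 𝓞 K) : K) / (N * Yv K 0 x w) := fun β w => by ring
    simpa only [zero_add, e1] using h1
  have hd1 := kp2a_theta (fun α : 𝔩 => kp2a_qn_nonneg
    (fun w => Yv K 0 x w * w ((α : 𝓞 K) : K))) hsum1
  have hd2 := kp2a_theta (fun β : 𝔫 => kp2a_qn_nonneg
    (fun w => w ((β : 𝓞 K) : K) / (N * Yv K 0 x w))) hsum2
  set Ω : Set ℂ := {z : ℂ | |z.im| < 1 / 2} with hΩ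
  have hΩo : IsOpen Ω := isOpen_lt (by fun_prop) continuous_const
  have hΩc : Convex ℝ Ω := by
    have e1 : Ω = (Complex.imLm : ℂ →ₗ[ℝ] ℝ) ⁻¹' (Set.Ioo (-(1 / 2)) (1 / 2)) := by
      ext w
      simp only [hΩ, Set.mem_ofPred_eq, Set.mem_preimage, Set.mem_Ioo, abs_lt]
      exact Iff.rfl
    rw [e1]
    exact (convex_Ioo _ _).linear_preimage _
  have hf : DifferentiableOn ℂ (fun z : ℂ => ∑' α : 𝔩, cexp (-(Real.pi *
      cexp (2 * z / n) * (qn (fun w => Yv K 0 x w * w ((α : 𝓞 K) : K)) : ℝ)))) Ω := by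
    refine DifferentiableOn.comp (g := fun s : ℂ => ∑' α : 𝔩, cexp (-(Real.pi *
      s * (qn (fun w => Yv K 0 x w * w ((α : 𝓞 K) : K)) : ℝ)))) hd1 ?_ ?_
    · exact Differentiable.differentiableOn (by fun_prop)
    · intro z hz
      exact (kp2a_re hn hz).1
  have hg : DifferentiableOn ℂ (fun z : ℂ => ((C₀ / Ideal.absNorm 𝔩 : ℝ) : ℂ) * cexp (-z) *
      ∑' β : 𝔫, cexp (-(Real.pi * cexp (-(2 * z / n)) *
        (qn (fun w => w ((β : 𝓞 K) : K) / (N * Yv K 0 x w)) : ℝ)))) Ω := by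
    refine DifferentiableOn.mul (Differentiable.differentiableOn (by fun_prop)) ?_
    refine DifferentiableOn.comp (g := fun s : ℂ => ∑' β : 𝔫, cexp (-(Real.pi *
      s * (qn (fun w => w ((β : 𝓞 K) : K) / (N * Yv K 0 x w)) : ℝ)))) hd2 ?_ ?_
    · exact Differentiable.differentiableOn (by fun_prop)
    · intro z hz
      exact (kp2a_re hn hz).2
  -- the real axis
  have hreal : ∀ u : ℝ, (∑' α : 𝔩, cexp (-(Real.pi * cexp (2 * (u : ℂ) / n) *
        (qn (fun w => Yv K 0 x w * w ((α : 𝓞 K) : K)) : ℝ)))) =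
      ((C₀ / Ideal.absNorm 𝔩 : ℝ) : ℂ) * cexp (-(u : ℂ)) *
      ∑' β : 𝔫, cexp (-(Real.pi * cexp (-(2 * (u : ℂ) / n)) *
        (qn (fun w => w ((β : 𝓞 K) : K) / (N * Yv K 0 x w)) : ℝ))) := by
    intro u
    have h1 := kpo_poisson hP 𝔩 𝔫 N hN h u x
    have e1 : kpoS 𝔩 (Yv K u x) = ∑' α : 𝔩, Real.exp (-(Real.pi * Real.exp (2 * u / n) *
        qn (fun w => Yv K 0 x w * w ((α : 𝓞 K) : K)))) := by
      unfold kpoS
      refine tsum_congr fun α => ?_
      have e2 : (fun w => Yv K u x w * w ((α : 𝓞 K) : K)) = fun w =>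
          Real.exp (u / n) * (Yv K 0 x w * w ((α : 𝓞 K) : K)) := by
        funext w
        rw [kp2a_Yv u x w]
        ring
      rw [e2, kp2a_qn, kp2a_exp_sq]
      congr 1
      have e3 : 2 * (u / (n : ℝ)) = 2 * u / n := by ring
      rw [e3]
      ring
    have e4 : kpoS 𝔫 (Yv K (-u - Module.finrank ℚ K * Real.log N) (-x)) =
        ∑' β : 𝔫, Real.exp (-(Real.pi * Real.exp (-(2 * u / n)) *
        qn (fun w => w ((β : 𝓞 K) : K) / (N * Yv K 0 x w)))) := by
      unfold kpoS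
      refine tsum_congr fun β => ?_
      have e2 : (fun w => Yv K (-u - Module.finrank ℚ K * Real.log N) (-x) w *
          w ((β : 𝓞 K) : K)) = fun w =>
          Real.exp (-(u / n)) * (w ((β : 𝓞 K) : K) / (N * Yv K 0 x w)) := by
        funext w
        rw [kpo_dual u x hN, kp2a_Yv u x w, Real.exp_neg, ← hndef]
        have h5 := hY w
        have h6 := Real.exp_pos (u / n)
        field_simp
      rw [e2, kp2a_qn, kp2a_exp_sq]
      congr 1
      have e3 : 2 * -(u / (n : ℝ)) = -(2 * u / n) := by ring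
      rw [e3]
      ring
    rw [e1, e4] at h1
    have h7 := congrArg (fun r : ℝ => (r : ℂ)) h1
    simp only [Complex.ofReal_mul, Complex.ofReal_tsum, Complex.ofReal_exp, Complex.ofReal_neg,
      Complex.ofReal_div, Complex.ofReal_natCast, Complex.ofReal_ofNat] at h7
    rw [h7]
    push_cast
    rfl
  have hfreq : ∃ᶠ z : ℂ in 𝓝[≠] 0, (∑' α : 𝔩, cexp (-(Real.pi * cexp (2 * z / n) *
        (qn (fun w => Yv K 0 x w * w ((α : 𝓞 K) : K)) : ℝ)))) =
      ((C₀ / Ideal.absNorm 𝔩 : ℝ) : ℂ) * cexp (-z) *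
      ∑' β : 𝔫, cexp (-(Real.pi * cexp (-(2 * z / n)) *
        (qn (fun w => w ((β : 𝓞 K) : K) / (N * Yv K 0 x w)) : ℝ))) := by
    have ht : Tendsto (fun u : ℝ => (u : ℂ)) (𝓝[≠] 0) (𝓝[≠] 0) := by
      refine tendsto_nhdsWithin_iff.2 ⟨?_, ?_⟩
      · have h8 : Tendsto (fun u : ℝ => (u : ℂ)) (𝓝 0) (𝓝 ((0 : ℝ) : ℂ)) :=
          Complex.continuous_ofReal.tendsto 0
        rw [Complex.ofReal_zero] at h8
        exact h8.mono_left nhdsWithin_le_nhds
      · filter_upwards [self_mem_nhdsWithin] with u hu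
        have hu' : u ≠ 0 := hu
        exact Complex.ofReal_ne_zero.2 hu'
    exact ht.frequently (Frequently.of_forall fun u => hreal u)
  have h0 : (0 : ℂ) ∈ Ω := by
    show |(0 : ℂ).im| < 1 / 2
    simp
  exact (hf.analyticOnNhd hΩo).eqOn_of_preconnected_of_frequently_eq (hg.analyticOnNhd hΩo)
    hΩc.isPreconnected h0 hfreq hz

end Pool.Agent.LVK

namespace Pool.Agent.LVK

theorem theta_C : type_of% @theta_C_pr := @theta_C_pr

end Pool.Agent.LVK
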