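import Pool.Agent.Lib_helper42.LVK.Defs
import Pool.Agent.Lib_helper41.HZF.YB
import Pool.Agent.Lib_helper41.HZF.KG
import Pool.Agent.Lib_helper92.KSA.BRG
import Pool.Agent.Lib_helper92.KSA.LATU
import Pool.Agent.Lib_helper92.KSA.LNZ
import Pool.Agent.Lib_helper92.LVA.Defs
import Pool.Agent.Lib_helper92.KSA.KPO
import Pool.Agent.Lib_helper92.KSA.ZKA
import Pool.Agent.Lib_helper39.LVX.K_KP1
import Pool.Agent.Lib_helper39.LVX.K_KP2A

/-!
# LVK part KP, block KP2B: the Poisson formula for the Gaussian kernel with complex argument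
-/

namespace Pool.Agent.LVK

open NumberField NumberField.InfinitePlace NumberField.Units Complex MeasureTheory Filter Topology
open Pool.Agent.HZ Pool.Agent.AS Pool.Agent.KS

variable {K : Type} [Field K] [NumberField K]

/-- the Gaussian of complex width -/
noncomputable def kp2bF (t : ℝ) (y : InfinitePlace K → ℝ) : ℂ :=
  cexp (-(Real.pi * cexp (2 * (t * I) / Module.finrank ℚ K) * (qn y : ℝ)))

theorem kp2b_qn_nonneg (y : InfinitePlace K → ℝ) : 0 ≤ qn y := by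
  unfold qn
  positivity

/-- the real part of `e^{2it/n}` -/
theorem kp2b_cos {n : ℕ} (hn : 0 < n) {t : ℝ} (ht : |t| < 1 / 2) :
    Real.cos 1 ≤ (cexp (2 * (t * I) / n)).re ∧ Real.cos 1 ≤ (cexp (-(2 * (t * I) / n))).re := by
  have hn' : (1 : ℝ) ≤ n := by exact_mod_cast hn
  have e1 : (2 * (t * I) / n : ℂ) = ((2 * t / n : ℝ) : ℂ) * I := by
    push_cast
    ring
  have e2 : (-(2 * (t * I) / n) : ℂ) = ((-(2 * t / n) : ℝ) : ℂ) * I := by
    push_cast
    ring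
  have h1 : Real.cos 1 ≤ Real.cos (2 * t / n) := by
    rw [← Real.cos_abs (2 * t / n)]
    apply Real.cos_le_cos_of_nonneg_of_le_pi (abs_nonneg _)
    · linarith [Real.pi_gt_three]
    · rw [abs_div, abs_mul, abs_two, Nat.abs_cast, div_le_one (by linarith)]
      linarith
  rw [e2, e1, Complex.exp_ofReal_mul_I_re, Complex.exp_ofReal_mul_I_re, Real.cos_neg]
  exact ⟨h1, h1⟩

/-- the norm of the Gaussian of complex width -/
theorem kp2b_norm {E : ℂ} (hE : Real.cos 1 ≤ E.re) {q : ℝ} (hq : 0 ≤ q) :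
    ‖cexp (-(Real.pi * E * (q : ℝ)))‖ ≤ Real.exp (-(Real.pi * Real.cos 1) * q) := by
  rw [Complex.norm_exp]
  apply Real.exp_le_exp.mpr
  have h1 : (-(Real.pi * E * (q : ℝ)) : ℂ).re = -(Real.pi * E.re * q) := by
    simp
  rw [h1]
  have h2 : Real.pi * Real.cos 1 * q ≤ Real.pi * E.re * q := by
    have := Real.pi_pos
    gcongr
  linarith

theorem kp2b_good {t : ℝ} (ht : |t| < 1 / 2) :
    GoodF (kp2bF (K := K) t) 1 (Real.pi * Real.cos 1) := by
  have hn : 0 < Module.finrank ℚ K := Module.finrank_pos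
  refine ⟨zero_le_one, mul_pos Real.pi_pos Real.cos_one_pos, Continuous.continuousOn ?_,
    fun y _ => ?_⟩
  · unfold kp2bF
    have := kpo_qn_continuous (K := K)
    fun_prop
  · rw [one_mul]
    exact kp2b_norm (kp2b_cos hn ht).1 (kp2b_qn_nonneg y)

theorem kp2b_scale (u : ℝ) (x : Fin (rank K) → ℝ) (w : InfinitePlace K) :
    Yv K u x w = Real.exp (u / Module.finrank ℚ K) * Yv K 0 x w := by
  unfold Yv
  simp

theorem kp2b_qn (u : ℝ) (x : Fin (rank K) → ℝ) (a : InfinitePlace K → ℝ) :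
    qn (fun w => Yv K u x w * a w) =
      Real.exp (2 * u / Module.finrank ℚ K) * qn (fun w => Yv K 0 x w * a w) := by
  unfold qn
  rw [Finset.mul_sum]
  refine Finset.sum_congr rfl fun w _ => ?_
  simp only
  rw [kp2b_scale u x w]
  have : Real.exp (2 * u / Module.finrank ℚ K) = Real.exp (u / Module.finrank ℚ K) ^ 2 := by
    rw [← Real.exp_nat_mul]
    congr 1
    push_cast
    ring
  rw [this]
  ring

/-- the Gaussian at `z = u + it` -/
theorem kp2b_term (u t : ℝ) (x : Fin (rank K) → ℝ) (a : InfinitePlace K → ℝ) :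
    cexp (-(Real.pi * cexp (2 * (u + t * I : ℂ) / Module.finrank ℚ K) *
      (qn (fun w => Yv K 0 x w * a w) : ℝ))) = kp2bF t (fun w => Yv K u x w * a w) := by
  unfold kp2bF
  rw [kp2b_qn u x a]
  have h1 : cexp (2 * (u + t * I : ℂ) / Module.finrank ℚ K) =
      (Real.exp (2 * u / Module.finrank ℚ K) : ℂ) * cexp (2 * (t * I) / Module.finrank ℚ K) := by
    rw [Complex.ofReal_exp, ← Complex.exp_add]
    congr 1
    push_cast
    ring
  rw [h1]
  push_cast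
  congr 1
  ring

theorem kp2b_kgC (u t : ℝ) : kgC K (u + t * I) = kint K (kp2bF t) u := by
  unfold kgC kint
  congr 1
  funext x
  have h1 := kp2b_term (K := K) u t x (fun _ => 1)
  simp only [mul_one] at h1
  exact h1

/-- the dual term at `z = u + it` -/
theorem kp2b_dual (u t : ℝ) (x : Fin (rank K) → ℝ) {N : ℕ} (hN : 0 < N)
    (a : InfinitePlace K → ℝ) :
    cexp (-(Real.pi * cexp (-(2 * (u + t * I : ℂ) / Module.finrank ℚ K)) *
      (qn (fun w => a w / (N * Yv K 0 x w)) : ℝ))) =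
    cexp (-(Real.pi * cexp (-(2 * (t * I) / Module.finrank ℚ K)) *
      (qn (fun w => Yv K (-u - Module.finrank ℚ K * Real.log N) (-x) w * a w) : ℝ))) := by
  have h0 : qn (fun w => Yv K (-u - Module.finrank ℚ K * Real.log N) (-x) w * a w) =
      Real.exp (-(2 * u / Module.finrank ℚ K)) * qn (fun w => a w / (N * Yv K 0 x w)) := by
    unfold qn
    rw [Finset.mul_sum]
    refine Finset.sum_congr rfl fun w _ => ?_
    simp only
    rw [kpo_dual u x hN, kp2b_scale u x w]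
    have h2 : Real.exp (-(2 * u / Module.finrank ℚ K)) =
        (Real.exp (u / Module.finrank ℚ K) ^ 2)⁻¹ := by
      rw [← Real.exp_nat_mul, ← Real.exp_neg]
      congr 1
      push_cast
      ring
    rw [h2]
    have h3 := Real.exp_pos (u / Module.finrank ℚ K)
    have h4 := Yv_pos (K := K) 0 x w
    have hN' : (0 : ℝ) < N := by exact_mod_cast hN
    field_simp
  rw [h0]
  have h1 : cexp (-(2 * (u + t * I : ℂ) / Module.finrank ℚ K)) =
      (Real.exp (-(2 * u / Module.finrank ℚ K)) : ℂ) *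
        cexp (-(2 * (t * I) / Module.finrank ℚ K)) := by
    rw [Complex.ofReal_exp, ← Complex.exp_add]
    congr 1
    push_cast
    ring
  rw [h1]
  push_cast
  congr 1
  ring

/-- splitting off the term of `0` -/
theorem kp2b_split (𝔫 : Ideal (𝓞 K)) {E : ℂ} (hE : Real.cos 1 ≤ E.re) (u : ℝ)
    (x : Fin (rank K) → ℝ) :
    open scoped Classical in
    ∑' α : 𝔫, cexp (-(Real.pi * E * (qn (fun w => Yv K u x w * w ((α : 𝓞 K) : K)) : ℝ))) - 1 =
      ∑' α : 𝔫, if α = 0 then 0 else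
        cexp (-(Real.pi * E * (qn (fun w => Yv K u x w * w ((α : 𝓞 K) : K)) : ℝ))) := by
  classical
  have h1 := lattice_summable 𝔫 (mul_pos Real.pi_pos Real.cos_one_pos) (Yv K u x) (Yv_pos u x) 0
  simp only [zero_add] at h1
  have h2 : Summable fun α : 𝔫 =>
      cexp (-(Real.pi * E * (qn (fun w => Yv K u x w * w ((α : 𝓞 K) : K)) : ℝ))) :=
    Summable.of_norm_bounded h1 fun α => kp2b_norm hE (kp2b_qn_nonneg _)
  rw [h2.tsum_eq_add_tsum_ite 0]
  have h3 : cexp (-(Real.pi * E *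
      (qn (fun w => Yv K u x w * w (((0 : 𝔫) : 𝓞 K) : K)) : ℝ))) = 1 := by
    simp [qn]
  rw [h3, add_sub_cancel_left]

/-- the bound for the nonzero terms -/
theorem kp2b_rest : ∃ C : ℝ, 0 ≤ C ∧ ∀ 𝔫 : Ideal (𝓞 K), 𝔫 ≠ ⊥ → ∀ (E : ℂ)
    (_ : Real.cos 1 ≤ E.re) (u : ℝ) (x : Fin (rank K) → ℝ),
    ‖∑' α : 𝔫, cexp (-(Real.pi * E *
      (qn (fun w => Yv K u x w * w ((α : 𝓞 K) : K)) : ℝ))) - 1‖ ≤
      C * (Real.exp (-u) / Ideal.absNorm 𝔫) := by
  classical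
  obtain ⟨C, hC, h⟩ := lattice_nz (K := K) (mul_pos Real.pi_pos Real.cos_one_pos)
  refine ⟨C, hC, fun 𝔫 h𝔫 E hE u x => ?_⟩
  rw [kp2b_split 𝔫 hE u x]
  refine le_trans ?_ (h 𝔫 h𝔫 u x)
  have h1 := lattice_summable 𝔫 (mul_pos Real.pi_pos Real.cos_one_pos) (Yv K u x) (Yv_pos u x) 0
  simp only [zero_add] at h1
  have h2 : Summable fun α : 𝔫 => if α = 0 then (0 : ℝ) else
      Real.exp (-(Real.pi * Real.cos 1) * qn (fun w => Yv K u x w * w ((α : 𝓞 K) : K))) := by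
    refine Summable.of_nonneg_of_le (fun α => ?_) (fun α => ?_) h1
    · split_ifs
      · exact le_rfl
      · exact (Real.exp_pos _).le
    · split_ifs
      · exact (Real.exp_pos _).le
      · exact le_rfl
  refine tsum_of_norm_bounded h2.hasSum fun α => ?_
  split_ifs
  · rw [norm_zero]
  · exact kp2b_norm hE (kp2b_qn_nonneg _)

open scoped Classical in
/-- one class -/
theorem kp2b_class {𝔟 : Ideal (𝓞 K)} (h𝔟 : 𝔟 ≠ ⊥) : ∃ ρ C : ℝ, ∀ t v : ℝ, |t| < 1 / 2 →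
    ‖Scl 𝔟 (fun 𝔠 => if 𝔠 = ⊥ then 0 else 1) (kp2bF t) v -
      (ρ : ℂ) * cexp (-(v + t * I))‖ ≤ C := by
  -- the dual ideal
  have hdiff : differentIdeal ℤ (𝓞 K) ≠ ⊥ := differentIdeal_ne_bot
  set 𝔪 := 𝔟 * differentIdeal ℤ (𝓞 K) with h𝔪
  have h𝔪0 : 𝔪 ≠ ⊥ := mul_ne_zero h𝔟 hdiff
  set N := Ideal.absNorm 𝔪 with hNdef
  have hN : 0 < N := Nat.pos_of_ne_zero (by rw [hNdef, Ne, Ideal.absNorm_eq_zero_iff]; exact h𝔪0)
  have hdvd : 𝔪 ∣ Ideal.span {(N : 𝓞 K)} := by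
    rw [Ideal.dvd_span_singleton]
    exact Ideal.absNorm_mem 𝔪
  obtain ⟨𝔫, h𝔫⟩ := hdvd
  have hspan : Ideal.span {(N : 𝓞 K)} ≠ ⊥ := by
    rw [Ne, Ideal.span_singleton_eq_bot]
    exact_mod_cast hN.ne'
  have h𝔫0 : 𝔫 ≠ ⊥ := by
    rintro rfl
    rw [Ideal.mul_bot] at h𝔫
    exact hspan h𝔫
  have hmul : 𝔟 * 𝔫 * differentIdeal ℤ (𝓞 K) = Ideal.span {(N : 𝓞 K)} := by
    rw [h𝔫, h𝔪]
    ring
  obtain ⟨C₀, hC₀, hθ⟩ := theta_C hN hmul
  obtain ⟨C1, hC1, hR⟩ := kp2b_rest (K := K)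
  have hNb : (0 : ℝ) < Ideal.absNorm 𝔟 := by
    have : 0 < Ideal.absNorm 𝔟 :=
      Nat.pos_of_ne_zero (by rw [Ne, Ideal.absNorm_eq_zero_iff]; exact h𝔟)
    exact_mod_cast this
  have hNn : (0 : ℝ) < Ideal.absNorm 𝔫 := by
    have : 0 < Ideal.absNorm 𝔫 :=
      Nat.pos_of_ne_zero (by rw [Ne, Ideal.absNorm_eq_zero_iff]; exact h𝔫0)
    exact_mod_cast this
  have hN' : (0 : ℝ) < N := by exact_mod_cast hN
  have hn0 : 0 < Module.finrank ℚ K := Module.finrank_pos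
  have hn : (0 : ℝ) < Module.finrank ℚ K := by exact_mod_cast hn0
  set n := Module.finrank ℚ K with hndef
  set M : ℝ := 1 + C₀ * (C1 * ((N : ℝ) ^ n / Ideal.absNorm 𝔫)) with hM
  -- pointwise bound
  have hpt : ∀ (u t : ℝ) (x : Fin (rank K) → ℝ), |t| < 1 / 2 →
      ‖(∑' α : 𝔟, kp2bF t (fun w => Yv K u x w * w ((α : 𝓞 K) : K)) - 1) -
        (C₀ : ℂ) * cexp (-(u + t * I))‖ ≤ M := by
    intro u t x ht
    have hz : |(u + t * I : ℂ).im| < 1 / 2 := by simpa using ht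
    have h1 := hθ (u + t * I) x hz
    have h2 : ∀ α : 𝔟, kp2bF t (fun w => Yv K u x w * w ((α : 𝓞 K) : K)) =
        cexp (-(Real.pi * cexp (2 * (u + t * I : ℂ) / Module.finrank ℚ K) *
        (qn (fun w => Yv K 0 x w * w ((α : 𝓞 K) : K)) : ℝ))) := fun α =>
      (kp2b_term u t x (fun w => w ((α : 𝓞 K) : K))).symm
    have h3 : ∀ β : 𝔫, cexp (-(Real.pi * cexp (-(2 * (u + t * I : ℂ) / Module.finrank ℚ K)) *
        (qn (fun w => w ((β : 𝓞 K) : K) / (N * Yv K 0 x w)) : ℝ))) =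
        cexp (-(Real.pi * cexp (-(2 * (t * I) / Module.finrank ℚ K)) *
        (qn (fun w => Yv K (-u - Module.finrank ℚ K * Real.log N) (-x) w *
          w ((β : 𝓞 K) : K)) : ℝ))) := fun β =>
      kp2b_dual u t x hN (fun w => w ((β : 𝓞 K) : K))
    rw [tsum_congr h2, h1, tsum_congr h3]
    set S : ℂ := ∑' β : 𝔫, cexp (-(Real.pi * cexp (-(2 * (t * I) / Module.finrank ℚ K)) *
        (qn (fun w => Yv K (-u - Module.finrank ℚ K * Real.log N) (-x) w *
          w ((β : 𝓞 K) : K)) : ℝ))) with hS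
    have h4 : ‖S - 1‖ ≤ C1 * (Real.exp (-(-u - n * Real.log N)) / Ideal.absNorm 𝔫) :=
      hR 𝔫 h𝔫0 _ (kp2b_cos hn0 ht).2 (-u - n * Real.log N) (-x)
    have h5 : (C₀ : ℂ) * cexp (-(u + t * I)) * S - 1 - (C₀ : ℂ) * cexp (-(u + t * I)) =
        (C₀ : ℂ) * cexp (-(u + t * I)) * (S - 1) - 1 := by ring
    rw [h5]
    have h6 : ‖cexp (-(u + t * I : ℂ))‖ = Real.exp (-u) := by
      rw [Complex.norm_exp]
      simp
    have h7 : Real.exp (-(-u - n * Real.log N)) = Real.exp u * (N : ℝ) ^ n := by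
      have h30 : (N : ℝ) ^ n = Real.exp (n * Real.log N) := by
        rw [Real.exp_nat_mul, Real.exp_log hN']
      rw [h30, ← Real.exp_add]
      congr 1
      ring
    rw [h7] at h4
    refine (norm_sub_le _ _).trans ?_
    rw [norm_mul, norm_mul, h6, Complex.norm_real, Real.norm_eq_abs, abs_of_pos hC₀, norm_one, hM,
      add_comm]
    have h8 : Real.exp (-u) * Real.exp u = 1 := by
      rw [← Real.exp_add]
      simp
    have h9 : C₀ * Real.exp (-u) * ‖S - 1‖ ≤ C₀ * (C1 * ((N : ℝ) ^ n / Ideal.absNorm 𝔫)) := by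
      calc C₀ * Real.exp (-u) * ‖S - 1‖ ≤ C₀ * Real.exp (-u) *
            (C1 * (Real.exp u * (N : ℝ) ^ n / Ideal.absNorm 𝔫)) :=
            mul_le_mul_of_nonneg_left h4 (by positivity)
        _ = C₀ * (C1 * ((N : ℝ) ^ n / Ideal.absNorm 𝔫)) * (Real.exp (-u) * Real.exp u) := by ring
        _ = _ := by rw [h8, mul_one]
    linarith
  have hτ : 0 < torsionOrder K := torsionOrder_pos K
  have hτ' : (0 : ℝ) < torsionOrder K := by exact_mod_cast hτ
  refine ⟨C₀ * Ideal.absNorm 𝔟 / torsionOrder K, M / torsionOrder K, fun t v ht => ?_⟩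
  set u := v - Real.log (Ideal.absNorm 𝔟) with hu
  have hb : ∀ 𝔠 : Ideal (𝓞 K), ‖(fun 𝔠 : Ideal (𝓞 K) => if 𝔠 = ⊥ then (0 : ℂ) else 1) 𝔠‖ ≤ 1 := by
    intro 𝔠
    dsimp only
    split_ifs <;> simp
  obtain ⟨hint, heq⟩ := unfold_units h𝔟 (kp2b_good (K := K) ht) hb (by simp) 1 (Or.inl rfl) u
  rw [show u + Real.log (Ideal.absNorm 𝔟) = v by rw [hu]; ring] at heq
  have hval : ∀ x : Fin (rank K) → ℝ,
      ∑' α : 𝔟, (fun 𝔠 : Ideal (𝓞 K) => if 𝔠 = ⊥ then (0 : ℂ) else 1) (quo 𝔟 α) *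
        kp2bF t (fun w => Yv K u ((1 : ℝ) • x) w * w ((α : 𝓞 K) : K)) =
      ∑' α : 𝔟, kp2bF t (fun w => Yv K u x w * w ((α : 𝓞 K) : K)) - 1 := by
    intro x
    have h1 := kp2b_split 𝔟 (kp2b_cos hn0 ht).1 u x
    have h2 : ∑' α : 𝔟, kp2bF t (fun w => Yv K u x w * w ((α : 𝓞 K) : K)) - 1 = _ := h1
    rw [h2]
    refine tsum_congr fun α => ?_
    by_cases hα : α = 0
    · have hq : quo 𝔟 ((α : 𝔟) : 𝓞 K) = ⊥ := by
        unfold quo
        rw [dif_neg]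
        rw [hα]
        simp
      change (if quo 𝔟 ((α : 𝔟) : 𝓞 K) = ⊥ then (0 : ℂ) else 1) * _ = _
      rw [if_pos hq, if_pos hα, zero_mul]
    · have hα0 : (α : 𝓞 K) ≠ 0 := by simpa using hα
      have hq : quo 𝔟 ((α : 𝔟) : 𝓞 K) ≠ ⊥ := by
        intro hq
        have h1 := quo_spec α.2 hα0
        rw [hq, Ideal.mul_bot] at h1
        exact hα0 (Ideal.span_singleton_eq_bot.mp h1.symm)
      simp only [hq, hα, if_false, one_mul, one_smul, kp2bF]
      rfl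
  have hvol : (volume : Measure (Fin (rank K) → ℝ)).real (Set.Icc 0 1) = 1 := by
    rw [Measure.real, Real.volume_Icc_pi]
    simp
  have hvol' : (volume : Measure (Fin (rank K) → ℝ)) (Set.Icc 0 1) < ⊤ := by
    rw [Real.volume_Icc_pi]
    simp
  have hc : ∫ _x in Set.Icc (0 : Fin (rank K) → ℝ) 1, (C₀ : ℂ) * cexp (-(u + t * I)) =
      (C₀ : ℂ) * cexp (-(u + t * I)) := by
    rw [setIntegral_const, hvol, one_smul]
  have hmain : ‖(torsionOrder K : ℂ) *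
      Scl 𝔟 (fun 𝔠 : Ideal (𝓞 K) => if 𝔠 = ⊥ then (0 : ℂ) else 1) (kp2bF t) v -
      (C₀ : ℂ) * cexp (-(u + t * I))‖ ≤ M := by
    rw [← heq, ← hc, ← integral_sub hint (integrableOn_const (by exact hvol'.ne))]
    refine (norm_setIntegral_le_of_norm_le_const hvol' (C := M) ?_).trans ?_
    · intro x _
      rw [hval x]
      exact hpt u t x ht
    · rw [hvol, mul_one]
  have hexp : cexp (-(u + t * I : ℂ)) = (Ideal.absNorm 𝔟 : ℂ) * cexp (-(v + t * I)) := by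
    have h1 : (-(u + t * I) : ℂ) = (Real.log (Ideal.absNorm 𝔟) : ℝ) + -(v + t * I) := by
      rw [hu]
      push_cast
      ring
    rw [h1, Complex.exp_add, ← Complex.ofReal_exp, Real.exp_log hNb]
    simp
  rw [hexp] at hmain
  have hτc : (torsionOrder K : ℂ) ≠ 0 := by exact_mod_cast hτ.ne'
  have hfin : Scl 𝔟 (fun 𝔠 : Ideal (𝓞 K) => if 𝔠 = ⊥ then (0 : ℂ) else 1) (kp2bF t) v -
      ((C₀ * Ideal.absNorm 𝔟 / torsionOrder K : ℝ) : ℂ) * cexp (-(v + t * I)) =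
      ((torsionOrder K : ℂ))⁻¹ * ((torsionOrder K : ℂ) *
      Scl 𝔟 (fun 𝔠 : Ideal (𝓞 K) => if 𝔠 = ⊥ then (0 : ℂ) else 1) (kp2bF t) v -
      (C₀ : ℂ) * ((Ideal.absNorm 𝔟 : ℂ) * cexp (-(v + t * I)))) := by
    push_cast
    field_simp
  rw [hfin, norm_mul, norm_inv, Complex.norm_natCast, inv_mul_eq_div]
  exact div_le_div_of_nonneg_right hmain hτ'.le

theorem kgC_strip_pr : StripK K (kgC K) := by
  classical
  refine ⟨1 / 2, by norm_num, kgC_diff, fun A hA => kgC_decay hA, ?_⟩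
  have hrep : ∀ cl : ClassGroup (𝓞 K), ∃ I : Ideal (𝓞 K), ∃ h : I ≠ ⊥,
      ClassGroup.mk0 ⟨I, mem_nonZeroDivisors_of_ne_zero h⟩ = cl := by
    intro cl
    obtain ⟨I, hI⟩ := ClassGroup.mk0_surjective cl
    exact ⟨I, nonZeroDivisors.ne_zero I.2, hI⟩
  choose rep h0 hrep using hrep
  choose ρc Cc hcl using fun c => kp2b_class (h0 c)
  refine ⟨((∑ c, ρc c : ℝ) : ℂ), ∑ c, Cc c, fun z hz => ?_⟩
  set v := z.re with hv
  set t := z.im with ht
  have hzvt : z = v + t * I := (Complex.re_add_im z).symm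
  have hb : ∀ 𝔠 : Ideal (𝓞 K), ‖(fun 𝔠 : Ideal (𝓞 K) => if 𝔠 = ⊥ then (0 : ℂ) else 1) 𝔠‖ ≤ 1 := by
    intro 𝔠
    dsimp only
    split_ifs <;> simp
  have h1 := Dser_classes rep h0 hrep (kp2b_good (K := K) hz) hb (by simp) v
  unfold Dser at h1
  have hE : (Real.exp (v / 2) : ℂ) ≠ 0 := by exact_mod_cast (Real.exp_pos _).ne'
  have h2 := mul_left_cancel₀ hE h1
  have h3 := (summable_IK' (fun 𝔠 : Ideal (𝓞 K) => (if 𝔠 = ⊥ then (0 : ℂ) else 1) *
    kint K (kp2bF t) (v + Real.log (Ideal.absNorm 𝔠))) (by simp)).2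
  have h4 : ∑' g : PK K →₀ ℕ, kgC K (z + lK g) =
      ∑ c, Scl (rep c) (fun 𝔠 => if 𝔠 = ⊥ then 0 else 1) (kp2bF t) v := by
    rw [← h2]
    refine Eq.trans ?_ h3.symm
    refine tsum_congr fun g => ?_
    rw [if_neg (IK_ne_bot g), one_mul, absNorm_IK, ← kp2b_kgC]
    congr 1
    rw [hzvt, lK]
    push_cast
    ring
  rw [h4, Complex.ofReal_sum, Finset.sum_mul, ← Finset.sum_sub_distrib]
  refine (norm_sum_le _ _).trans (Finset.sum_le_sum fun c _ => ?_)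
  have h5 := hcl c t v hz
  rw [← hzvt] at h5
  exact h5


end Pool.Agent.LVK

namespace Pool.Agent.LVK

theorem kgC_strip : type_of% @kgC_strip_pr := @kgC_strip_pr

end Pool.Agent.LVK
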