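import Pool.Agent.Lib_helper42.LVK.Defs
import Pool.Agent.Lib_helper41.HZF.YB
import Pool.Agent.Lib_helper41.HZF.KG
import Pool.Agent.Lib_helper92.KSA.BRG
import Pool.Agent.Lib_helper92.KSA.LATU
import Pool.Agent.Lib_helper92.KSA.LNZ
import Pool.Agent.Lib_helper92.LVA.Defs
import Pool.Agent.Lib_helper92.KSA.KPO
import Pool.Agent.Lib_helper92.KSA.ZKA
import Pool.Agent.Lib_helper92.KSA.GDK

/-!
# LVK part KP, block KP3A: the class of kernels
-/

namespace Pool.Agent.LVK

open NumberField NumberField.InfinitePlace NumberField.Units Complex MeasureTheory Filter Topology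
open Pool.Agent.HZ Pool.Agent.AS Pool.Agent.KS

variable {K : Type} [Field K] [NumberField K]

/-- The norms are at least 1. -/
theorem kp3a_nm (g : PK K →₀ ℕ) : 0 < (nm (NK K) g : ℝ) := by
  rw [← absNorm_IK]
  have h := IK_ne_bot g
  have h2 : Ideal.absNorm (IK g) ≠ 0 := by
    rw [Ne, Ideal.absNorm_eq_zero_iff]
    exact h
  exact_mod_cast Nat.pos_of_ne_zero h2

theorem kp3a_exp (g : PK K →₀ ℕ) (a : ℝ) :
    Real.exp (-(a * lK g)) = (nm (NK K) g : ℝ) ^ (-a) := by
  unfold lK
  rw [Real.rpow_def_of_pos (kp3a_nm g)]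
  congr 1
  ring

theorem kp3a_summable : Summable (fun g : PK K →₀ ℕ => Real.exp (-(2 * lK g))) := by
  have h := (good_NK K).summable 1 one_pos
  refine h.congr fun g => ?_
  rw [kp3a_exp]
  norm_num

/-- The terms of the Poisson sum. -/
theorem kp3a_term {k : ℂ → ℂ} {δ C : ℝ}
    (h : ∀ z : ℂ, |z.im| < δ → ‖k z‖ ≤ C * Real.exp (-(2 * z.re))) {z : ℂ} (hz : |z.im| < δ)
    (g : PK K →₀ ℕ) : ‖k (z + lK g)‖ ≤ C * Real.exp (-(2 * z.re)) * Real.exp (-(2 * lK g)) := by
  have h1 := h (z + lK g) (by simpa using hz)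
  have h2 : (z + (lK g : ℂ)).re = z.re + lK g := by simp
  rw [h2] at h1
  refine h1.trans (le_of_eq ?_)
  rw [mul_assoc, ← Real.exp_add]
  congr 2
  ring

theorem kp3a_sum {k : ℂ → ℂ} {δ : ℝ}
    (h : ∀ A : ℝ, 0 < A → ∃ C : ℝ, ∀ z : ℂ, |z.im| < δ → ‖k z‖ ≤ C * Real.exp (-(A * z.re)))
    {z : ℂ} (hz : |z.im| < δ) : Summable (fun g : PK K →₀ ℕ => k (z + lK g)) := by
  obtain ⟨C, hC⟩ := h 2 two_pos
  exact Summable.of_norm_bounded (kp3a_summable.mul_left _) (fun g => kp3a_term hC hz g)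

theorem strip_add_pr {k k' : ℂ → ℂ} (h : StripK K k) (h' : StripK K k') (c c' : ℂ) :
    StripK K (fun z => c * k z + c' * k' z) := by
  obtain ⟨δ, hδ, hd, hdec, ρ, C, hP⟩ := h
  obtain ⟨δ', hδ', hd', hdec', ρ', C', hP'⟩ := h'
  refine ⟨min δ δ', lt_min hδ hδ', ?_, ?_, c * ρ + c' * ρ', ‖c‖ * C + ‖c'‖ * C', ?_⟩
  · have h1 : DifferentiableOn ℂ k {z : ℂ | |z.im| < min δ δ'} :=
      hd.mono fun z (hz : |z.im| < min δ δ') => (lt_of_lt_of_le hz (min_le_left _ _) : |z.im| < δ)
    have h2 : DifferentiableOn ℂ k' {z : ℂ | |z.im| < min δ δ'} :=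
      hd'.mono fun z (hz : |z.im| < min δ δ') => (lt_of_lt_of_le hz (min_le_right _ _) : |z.im| < δ')
    exact (h1.const_mul c).add (h2.const_mul c')
  · intro A hA
    obtain ⟨D, hD⟩ := hdec A hA
    obtain ⟨D', hD'⟩ := hdec' A hA
    refine ⟨‖c‖ * D + ‖c'‖ * D', fun z hz => ?_⟩
    have h1 := hD z (lt_of_lt_of_le hz (min_le_left _ _))
    have h2 := hD' z (lt_of_lt_of_le hz (min_le_right _ _))
    calc ‖c * k z + c' * k' z‖ ≤ ‖c * k z‖ + ‖c' * k' z‖ := norm_add_le _ _
      _ = ‖c‖ * ‖k z‖ + ‖c'‖ * ‖k' z‖ := by rw [norm_mul, norm_mul]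
      _ ≤ ‖c‖ * (D * Real.exp (-(A * z.re))) + ‖c'‖ * (D' * Real.exp (-(A * z.re))) := by gcongr
      _ = (‖c‖ * D + ‖c'‖ * D') * Real.exp (-(A * z.re)) := by ring
  · intro z hz
    have hz1 := lt_of_lt_of_le hz (min_le_left _ _)
    have hz2 := lt_of_lt_of_le hz (min_le_right _ _)
    have h1 := hP z hz1
    have h2 := hP' z hz2
    have s1 : Summable (fun g : PK K →₀ ℕ => k (z + lK g)) := kp3a_sum hdec hz1
    have s2 : Summable (fun g : PK K →₀ ℕ => k' (z + lK g)) := kp3a_sum hdec' hz2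
    have e1 : (∑' g : PK K →₀ ℕ, (c * k (z + lK g) + c' * k' (z + lK g))) -
        (c * ρ + c' * ρ') * cexp (-z) = c * (∑' g : PK K →₀ ℕ, k (z + lK g) - ρ * cexp (-z)) +
        c' * (∑' g : PK K →₀ ℕ, k' (z + lK g) - ρ' * cexp (-z)) := by
      rw [(s1.mul_left c).tsum_add (s2.mul_left c'), tsum_mul_left, tsum_mul_left]
      ring
    rw [e1]
    calc _ ≤ ‖c * (∑' g : PK K →₀ ℕ, k (z + lK g) - ρ * cexp (-z))‖ +
          ‖c' * (∑' g : PK K →₀ ℕ, k' (z + lK g) - ρ' * cexp (-z))‖ := norm_add_le _ _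
      _ = ‖c‖ * ‖∑' g : PK K →₀ ℕ, k (z + lK g) - ρ * cexp (-z)‖ +
          ‖c'‖ * ‖∑' g : PK K →₀ ℕ, k' (z + lK g) - ρ' * cexp (-z)‖ := by rw [norm_mul, norm_mul]
      _ ≤ ‖c‖ * C + ‖c'‖ * C' := by gcongr

theorem strip_shift_pr {k : ℂ → ℂ} (h : StripK K k) (v : ℝ) : StripK K (fun z => k (z + v)) := by
  obtain ⟨δ, hδ, hd, hdec, ρ, C, hP⟩ := h
  refine ⟨δ, hδ, ?_, ?_, ρ * cexp (-v), C, ?_⟩
  · refine hd.comp (Differentiable.differentiableOn (by fun_prop)) ?_
    intro z hz
    simpa using hz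
  · intro A hA
    obtain ⟨D, hD⟩ := hdec A hA
    refine ⟨D * Real.exp (-(A * v)), fun z hz => ?_⟩
    have h1 := hD (z + v) (by simpa using hz)
    refine h1.trans (le_of_eq ?_)
    rw [mul_assoc, ← Real.exp_add]
    have h2 : (z + (v : ℂ)).re = z.re + v := by simp
    rw [h2]
    congr 2
    ring
  · intro z hz
    have h1 := hP (z + v) (by simpa using hz)
    have e1 : cexp (-(z + (v : ℂ))) = cexp (-v) * cexp (-z) := by
      rw [← Complex.exp_add]; congr 1; ring
    rw [e1, ← mul_assoc] at h1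
    have e2 : (∑' g : PK K →₀ ℕ, k (z + lK g + v)) = ∑' g : PK K →₀ ℕ, k (z + v + lK g) :=
      tsum_congr fun g => by congr 1; ring
    simp only [e2]
    exact h1

/-- Cauchy's estimate in the strip. -/
theorem kp3a_cauchy {f : ℂ → ℂ} {δ r M : ℝ} (hr : 0 < r) (hrδ : r ≤ δ / 4)
    (hf : DifferentiableOn ℂ f {z | |z.im| < δ}) {z : ℂ} (hz : |z.im| < δ / 2)
    (hM : ∀ w : ℂ, ‖w - z‖ ≤ r → ‖f w‖ ≤ M) : ‖deriv f z‖ ≤ M / r := by
  have hsub : Metric.closedBall z r ⊆ {w : ℂ | |w.im| < δ} := by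
    intro w hw
    rw [Metric.mem_closedBall, dist_eq_norm] at hw
    have h1 : |w.im - z.im| ≤ r := by
      have := Complex.abs_im_le_norm (w - z)
      rw [Complex.sub_im] at this
      exact this.trans hw
    have h2 := abs_sub_abs_le_abs_sub w.im z.im
    show |w.im| < δ
    linarith
  refine Complex.norm_deriv_le_of_forall_mem_sphere_norm_le hr ?_ ?_
  · exact (hf.mono hsub).diffContOnCl_ball (Set.Subset.refl _)
  · intro w hw
    refine hM w ?_
    rw [mem_sphere_iff_norm] at hw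
    exact hw.le

theorem kp3a_open (δ : ℝ) : IsOpen {z : ℂ | |z.im| < δ} :=
  isOpen_lt (by fun_prop) continuous_const

theorem strip_deriv_pr {k : ℂ → ℂ} (h : StripK K k) : StripK K (deriv k) := by
  obtain ⟨δ, hδ, hd, hdec, ρ, C, hP⟩ := h
  set r : ℝ := min (δ / 4) 1 with hr
  have hr0 : 0 < r := lt_min (by linarith) one_pos
  have hr1 : r ≤ 1 := min_le_right _ _
  have hrδ : r ≤ δ / 4 := min_le_left _ _
  have hmem : ∀ z w : ℂ, |z.im| < δ / 2 → ‖w - z‖ ≤ r → |w.im| < δ := by
    intro z w hz hw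
    have h1 : |w.im - z.im| ≤ r := by
      have := Complex.abs_im_le_norm (w - z)
      rw [Complex.sub_im] at this
      exact this.trans hw
    have h2 := abs_sub_abs_le_abs_sub w.im z.im
    linarith
  have hre : ∀ z w : ℂ, ‖w - z‖ ≤ r → z.re - 1 ≤ w.re := by
    intro z w hw
    have h1 : |w.re - z.re| ≤ r := by
      have := Complex.abs_re_le_norm (w - z)
      rw [Complex.sub_re] at this
      exact this.trans hw
    have := (abs_le.1 h1).1
    linarith
  refine ⟨δ / 2, by linarith, ?_, ?_, -ρ, C / r, ?_⟩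
  · have h1 : DifferentiableOn ℂ (deriv k) {z : ℂ | |z.im| < δ} := hd.deriv (kp3a_open δ)
    exact h1.mono fun z (hz : |z.im| < δ / 2) => (lt_trans hz (by linarith) : |z.im| < δ)
  · intro A hA
    obtain ⟨D, hD⟩ := hdec A hA
    refine ⟨|D| * Real.exp A / r, fun z hz => ?_⟩
    have h1 := kp3a_cauchy (M := |D| * Real.exp A * Real.exp (-(A * z.re))) hr0 hrδ hd hz (by
      intro w hw
      refine (hD w (hmem z w hz hw)).trans ?_
      have h2 := hre z w hw
      calc D * Real.exp (-(A * w.re)) ≤ |D| * Real.exp (-(A * w.re)) :=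
            mul_le_mul_of_nonneg_right (le_abs_self D) (Real.exp_nonneg _)
        _ ≤ |D| * Real.exp (A + -(A * z.re)) := by
            refine mul_le_mul_of_nonneg_left (Real.exp_le_exp.2 ?_) (abs_nonneg _)
            nlinarith
        _ = |D| * Real.exp A * Real.exp (-(A * z.re)) := by
            rw [Real.exp_add, mul_assoc])
    refine h1.trans (le_of_eq ?_)
    ring
  · intro z hz
    have hzδ : |z.im| < δ := lt_trans hz (by linarith)
    obtain ⟨D, hD⟩ := hdec 2 two_pos
    -- the open set around `z`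
    set U : Set ℂ := {w : ℂ | |w.im| < δ} ∩ {w : ℂ | z.re - 1 < w.re} with hU
    have hUo : IsOpen U := (kp3a_open δ).inter (isOpen_lt continuous_const (by fun_prop))
    have hzU : z ∈ U := ⟨hzδ, by show z.re - 1 < z.re; linarith⟩
    have hDsum := Complex.hasSum_deriv_of_summable_norm
      (F := fun (g : PK K →₀ ℕ) (w : ℂ) => k (w + lK g))
      (u := fun g : PK K →₀ ℕ => |D| * Real.exp (-(2 * (z.re - 1))) * Real.exp (-(2 * lK g)))
      (kp3a_summable.mul_left _) (U := U) (fun g => by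
        refine hd.comp (Differentiable.differentiableOn (by fun_prop)) ?_
        intro w hw
        simpa using hw.1) hUo (fun g w hw => by
        refine (kp3a_term hD hw.1 g).trans ?_
        refine mul_le_mul_of_nonneg_right ?_ (Real.exp_nonneg _)
        refine mul_le_mul (le_abs_self D) (Real.exp_le_exp.2 ?_) (Real.exp_nonneg _)
          (abs_nonneg _)
        have : z.re - 1 < w.re := hw.2
        linarith) hzU
    have hFd : DifferentiableOn ℂ (fun w => ∑' g : PK K →₀ ℕ, k (w + lK g) - ρ * cexp (-w))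
        {w : ℂ | |w.im| < δ} := by
      intro w hw
      set V : Set ℂ := {w' : ℂ | |w'.im| < δ} ∩ {w' : ℂ | w.re - 1 < w'.re} with hV
      have hVo : IsOpen V := (kp3a_open δ).inter (isOpen_lt continuous_const (by fun_prop))
      have hwV : w ∈ V := ⟨hw, by show w.re - 1 < w.re; linarith⟩
      have h1 := Complex.differentiableOn_tsum_of_summable_norm
        (F := fun (g : PK K →₀ ℕ) (w : ℂ) => k (w + lK g))
        (u := fun g : PK K →₀ ℕ => |D| * Real.exp (-(2 * (w.re - 1))) * Real.exp (-(2 * lK g)))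
        (kp3a_summable.mul_left _) (U := V) (fun g => by
          refine hd.comp (Differentiable.differentiableOn (by fun_prop)) ?_
          intro w' hw'
          simpa using hw'.1) hVo (fun g w' hw' => by
          refine (kp3a_term hD hw'.1 g).trans ?_
          refine mul_le_mul_of_nonneg_right ?_ (Real.exp_nonneg _)
          refine mul_le_mul (le_abs_self D) (Real.exp_le_exp.2 ?_) (Real.exp_nonneg _)
            (abs_nonneg _)
          have : w.re - 1 < w'.re := hw'.2
          linarith)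
      have h2 := h1.differentiableAt (hVo.mem_nhds hwV)
      have h3 : DifferentiableAt ℂ (fun w : ℂ => ρ * cexp (-w)) w := by fun_prop
      exact (h2.sub h3).differentiableWithinAt
    have h1 := kp3a_cauchy (M := C) hr0 hrδ hFd hz (fun w hw => hP w (hmem z w hz hw))
    have h2 : deriv (fun w => ∑' g : PK K →₀ ℕ, k (w + lK g) - ρ * cexp (-w)) z =
        ∑' g : PK K →₀ ℕ, deriv k (z + lK g) - -ρ * cexp (-z) := by
      have hdiff : DifferentiableAt ℂ (fun w => ∑' g : PK K →₀ ℕ, k (w + lK g)) z := by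
        have h3 := (hFd.differentiableAt ((kp3a_open δ).mem_nhds hzδ)).add
          (show DifferentiableAt ℂ (fun w : ℂ => ρ * cexp (-w)) z by fun_prop)
        refine h3.congr_of_eventuallyEq (Filter.Eventually.of_forall fun w => ?_)
        simp
      have h4 : HasDerivAt (fun w : ℂ => ρ * cexp (-w)) (-ρ * cexp (-z)) z := by
        have h5 := ((hasDerivAt_neg z).cexp).const_mul ρ
        refine h5.congr_deriv ?_
        ring
      have h6 := (hdiff.hasDerivAt.sub h4).deriv
      rw [← hDsum.tsum_eq] at h6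
      refine Eq.trans h6 ?_
      congr 1
      refine tsum_congr fun g => ?_
      exact deriv_comp_add_const k (lK g : ℂ) z
    rw [h2] at h1
    exact h1

end Pool.Agent.LVK

namespace Pool.Agent.LVK

theorem strip_add : type_of% @strip_add_pr := @strip_add_pr
theorem strip_deriv : type_of% @strip_deriv_pr := @strip_deriv_pr
theorem strip_shift : type_of% @strip_shift_pr := @strip_shift_pr

end Pool.Agent.LVK
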