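import Pool.Agent.Lib_helper42.LVK.Defs
import Pool.Agent.Lib_helper41.HZF.YB
import Pool.Agent.Lib_helper41.HZF.KG
import Pool.Agent.Lib_helper92.KSA.BRG
import Pool.Agent.Lib_helper92.KSA.LATU
import Pool.Agent.Lib_helper92.KSA.LNZ
import Pool.Agent.Lib_helper92.LVA.Defs
import Pool.Agent.Lib_helper92.KSA.KPO
import Pool.Agent.Lib_helper92.KSA.ZKA
import Pool.Agent.Lib_helper92.KSA.ZK

/-!
# LVK part KP, block KP3B: the main term of the kernels is the residue of the zeta function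
-/

namespace Pool.Agent.LVK

open NumberField NumberField.InfinitePlace NumberField.Units Complex MeasureTheory Filter Topology
open Pool.Agent.HZ Pool.Agent.AS Pool.Agent.KS

variable {K : Type} [Field K] [NumberField K]

/-- the Dedekind zeta function as a sum over ideals -/
theorem kp3b_zeta_ideal (K : Type) [Field K] [NumberField K] {σ : ℝ} (hσ : 1 < σ) :
    ((∑' 𝔠 : Ideal (𝓞 K), (Ideal.absNorm 𝔠 : ℝ) ^ (-σ) : ℝ) : ℂ) = dedekindZeta K (σ : ℂ) := by
  have hσ0 : -σ ≠ 0 := by linarith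
  have hs := ideal_summable (K := K) hσ
  have h1 : ∑' 𝔠 : Ideal (𝓞 K), (Ideal.absNorm 𝔠 : ℝ) ^ (-σ) =
      ∑' n : ℕ, (Nat.card {I : Ideal (𝓞 K) // Ideal.absNorm I = n} : ℝ) * (n : ℝ) ^ (-σ) := by
    rw [← (Equiv.sigmaFiberEquiv (fun I : Ideal (𝓞 K) => Ideal.absNorm I)).tsum_eq]
    refine Eq.trans (Summable.tsum_sigma (((Equiv.sigmaFiberEquiv
      (fun I : Ideal (𝓞 K) => Ideal.absNorm I)).summable_iff).2 hs)) ?_
    refine tsum_congr fun n => ?_
    have h : ∀ y : {I : Ideal (𝓞 K) // Ideal.absNorm I = n},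
        (fun 𝔠 : Ideal (𝓞 K) => (Ideal.absNorm 𝔠 : ℝ) ^ (-σ))
          ((Equiv.sigmaFiberEquiv (fun I : Ideal (𝓞 K) => Ideal.absNorm I)) ⟨n, y⟩) =
            (n : ℝ) ^ (-σ) := by
      intro y
      simp [Equiv.sigmaFiberEquiv, y.2]
    simp_rw [h, tsum_const, nsmul_eq_mul]
  rw [h1, Complex.ofReal_tsum]
  unfold dedekindZeta LSeries
  refine tsum_congr fun n => ?_
  by_cases hn : n = 0
  · subst hn
    rw [LSeries.term_zero, Nat.cast_zero, Real.zero_rpow hσ0, mul_zero, Complex.ofReal_zero]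
  · rw [LSeries.term_of_ne_zero hn, Complex.ofReal_mul, Complex.ofReal_natCast,
      Complex.ofReal_cpow (Nat.cast_nonneg _), Complex.ofReal_natCast, Complex.ofReal_neg,
      Complex.cpow_neg, div_eq_mul_inv]

/-- the Dedekind zeta function as a sum over the semigroup -/
theorem kp3b_zeta (K : Type) [Field K] [NumberField K] {σ : ℝ} (hσ : 1 < σ) :
    ∑' g : PK K →₀ ℕ, (((nm (NK K) g : ℕ) : ℝ) : ℂ) ^ (-(σ : ℂ)) = dedekindZeta K (σ : ℂ) := by
  rw [← kp3b_zeta_ideal K hσ]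
  have h2 := (summable_IK (fun 𝔠 : Ideal (𝓞 K) => (Ideal.absNorm 𝔠 : ℝ) ^ (-σ)) (by
    rw [Ideal.absNorm_bot, Nat.cast_zero, Real.zero_rpow (by linarith)])).2
  rw [h2, Complex.ofReal_tsum]
  refine tsum_congr fun g => ?_
  simp only [absNorm_IK]
  rw [Complex.ofReal_cpow (Nat.cast_nonneg _), Complex.ofReal_neg]

/-- continuity of the Laplace transform at one -/
theorem kp3b_lim {k : ℝ → ℝ} (hk : Continuous k) (hk0 : ∀ w, 0 ≤ k w)
    (hkd : ∀ A : ℝ, 0 < A → ∃ C : ℝ, ∀ w, k w ≤ C * Real.exp (-(A * w))) :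
    Tendsto (fun σ : ℝ => ∫ u : ℝ, k u * Real.exp (σ * u)) (𝓝[>] 1)
      (𝓝 (∫ u : ℝ, k u * Real.exp u)) := by
  refine tendsto_integral_filter_of_dominated_convergence
    (fun u => k u * Real.exp (1 * u) + k u * Real.exp (4 * u)) ?_ ?_ ?_ ?_
  · filter_upwards with σ
    exact (hk.mul (by fun_prop)).aestronglyMeasurable
  · filter_upwards [Ioo_mem_nhdsGT (show (1 : ℝ) < 4 by norm_num)] with σ hσ
    filter_upwards with u
    rw [Real.norm_of_nonneg (mul_nonneg (hk0 u) (Real.exp_pos _).le), ← mul_add]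
    refine mul_le_mul_of_nonneg_left ?_ (hk0 u)
    rcases le_total u 0 with hu | hu
    · have h2 : Real.exp (σ * u) ≤ Real.exp (1 * u) :=
        Real.exp_le_exp.mpr (mul_le_mul_of_nonpos_right hσ.1.le hu)
      have h3 := Real.exp_pos (4 * u)
      linarith
    · have h2 : Real.exp (σ * u) ≤ Real.exp (4 * u) :=
        Real.exp_le_exp.mpr (mul_le_mul_of_nonneg_right hσ.2.le hu)
      have h3 := Real.exp_pos (1 * u)
      linarith
  · exact (zk_int hk hk0 hkd one_pos).add (zk_int hk hk0 hkd (by norm_num))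
  · filter_upwards with u
    have h1 : Continuous (fun σ : ℝ => k u * Real.exp (σ * u)) := by fun_prop
    have h2 := (h1.tendsto 1).mono_left (nhdsWithin_le_nhds (s := Set.Ioi (1 : ℝ)))
    rwa [one_mul] at h2

/-- identification of the main term with the residue of the zeta function -/
theorem strip_kern_pr {k : ℂ → ℂ} (h : StripK K k) {k₀ : ℝ → ℝ}
    (hk : ∀ u : ℝ, k u = (k₀ u : ℂ)) (h0 : ∀ u, 0 ≤ k₀ u) :
    Kern (NK K) k₀ (dedekindZeta_residue K * ∫ u : ℝ, k₀ u * Real.exp u) := by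
  obtain ⟨δ, hδ, hdiff, hdec, ρ, C, hP⟩ := h
  have him : ∀ u : ℝ, |((u : ℂ)).im| < δ := fun u => by simpa using hδ
  -- continuity
  have hcont : Continuous k₀ := by
    have h1 : Continuous (fun u : ℝ => k (u : ℂ)) :=
      hdiff.continuousOn.comp_continuous Complex.continuous_ofReal fun u => him u
    have h2 : k₀ = fun u : ℝ => (k (u : ℂ)).re := by
      funext u
      rw [hk, Complex.ofReal_re]
    rw [h2]
    exact Complex.continuous_re.comp h1
  -- decay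
  have hkd : ∀ A : ℝ, 0 < A → ∃ C : ℝ, ∀ w, k₀ w ≤ C * Real.exp (-(A * w)) := by
    intro A hA
    obtain ⟨C₁, hC₁⟩ := hdec A hA
    refine ⟨C₁, fun w => ?_⟩
    have h1 := hC₁ w (him w)
    rw [hk, Complex.norm_real, Real.norm_of_nonneg (h0 w), Complex.ofReal_re] at h1
    exact h1
  -- the Poisson formula on the real line
  have hreal : ∀ u : ℝ, |∑' g : PK K →₀ ℕ, k₀ (u + Real.log (nm (NK K) g : ℝ)) -
      ρ.re * Real.exp (-u)| ≤ C := by
    intro u
    have h1 := hP u (him u)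
    have h2 : (∑' g : PK K →₀ ℕ, k ((u : ℂ) + (lK g : ℂ))) =
        ((∑' g : PK K →₀ ℕ, k₀ (u + Real.log (nm (NK K) g : ℝ)) : ℝ) : ℂ) := by
      rw [Complex.ofReal_tsum]
      refine tsum_congr fun g => ?_
      rw [← Complex.ofReal_add, hk]
      rfl
    rw [h2] at h1
    have h3 := (Complex.abs_re_le_norm _).trans h1
    have h4 : (((∑' g : PK K →₀ ℕ, k₀ (u + Real.log (nm (NK K) g : ℝ)) : ℝ) : ℂ) -
        ρ * cexp (-(u : ℂ))).re = ∑' g : PK K →₀ ℕ, k₀ (u + Real.log (nm (NK K) g : ℝ)) -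
          ρ.re * Real.exp (-u) := by
      rw [Complex.sub_re, Complex.ofReal_re, ← Complex.ofReal_neg, ← Complex.ofReal_exp,
        Complex.re_mul_ofReal]
    rwa [h4] at h3
  -- the main term
  have hcount := zk_countable K
  obtain ⟨C₁, hC₁, hmain⟩ := zk_main (zk_one_le K) (zk_summable K) hcont h0 hkd hreal
  have hlim1 : Tendsto (fun σ : ℝ => ((σ : ℂ) - 1) * dedekindZeta K (σ : ℂ) *
      ((∫ u : ℝ, k₀ u * Real.exp (σ * u) : ℝ) : ℂ)) (𝓝[>] 1)
      (𝓝 ((dedekindZeta_residue K : ℂ) * ((∫ u : ℝ, k₀ u * Real.exp u : ℝ) : ℂ))) :=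
    (tendsto_sub_one_mul_dedekindZeta_nhdsGT K).mul
      ((Complex.continuous_ofReal.tendsto _).comp (kp3b_lim hcont h0 hkd))
  have hlim2 : Tendsto (fun σ : ℝ => ((σ : ℂ) - 1) * dedekindZeta K (σ : ℂ) *
      ((∫ u : ℝ, k₀ u * Real.exp (σ * u) : ℝ) : ℂ)) (𝓝[>] 1) (𝓝 ((ρ.re : ℝ) : ℂ)) := by
    rw [tendsto_iff_norm_sub_tendsto_zero]
    have h1 : Tendsto (fun σ : ℝ => C₁ * (σ - 1)) (𝓝[>] 1) (𝓝 0) := by
      have h2 : Continuous (fun σ : ℝ => C₁ * (σ - 1)) := by fun_prop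
      have h3 := (h2.tendsto 1).mono_left (nhdsWithin_le_nhds (s := Set.Ioi (1 : ℝ)))
      rwa [sub_self, mul_zero] at h3
    refine squeeze_zero' (Eventually.of_forall fun σ => norm_nonneg _) ?_ h1
    filter_upwards [Ioo_mem_nhdsGT (show (1 : ℝ) < 4 by norm_num)] with σ hσ
    have h4 := hmain (σ : ℂ) (by rw [Complex.ofReal_re]; exact hσ.1)
      (by rw [Complex.ofReal_re]; exact hσ.2.le)
    rw [kp3b_zeta K hσ.1, zk_phi_real] at h4
    have h5 : (0 : ℝ) < σ - 1 := by linarith [hσ.1]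
    have h6 : ((σ : ℂ) - 1) ≠ 0 := by
      rw [← Complex.ofReal_one, ← Complex.ofReal_sub]
      exact_mod_cast h5.ne'
    have h7 : ((σ : ℂ) - 1) * dedekindZeta K (σ : ℂ) *
        ((∫ u : ℝ, k₀ u * Real.exp (σ * u) : ℝ) : ℂ) - ((ρ.re : ℝ) : ℂ) =
        ((σ : ℂ) - 1) * (dedekindZeta K (σ : ℂ) *
          ((∫ u : ℝ, k₀ u * Real.exp (σ * u) : ℝ) : ℂ) - ((ρ.re : ℝ) : ℂ) / ((σ : ℂ) - 1)) := by
      field_simp
    have h8 : ‖((σ : ℂ) - 1)‖ = σ - 1 := by
      rw [← Complex.ofReal_one, ← Complex.ofReal_sub, Complex.norm_real,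
        Real.norm_of_nonneg h5.le]
    rw [h7, norm_mul, h8, mul_comm]
    exact mul_le_mul_of_nonneg_right h4 h5.le
  have heq : dedekindZeta_residue K * ∫ u : ℝ, k₀ u * Real.exp u = ρ.re := by
    have h1 := tendsto_nhds_unique hlim1 hlim2
    exact_mod_cast h1
  refine ⟨hcont, h0, hkd, ?_, C, ?_⟩
  · exact mul_nonneg (dedekindZeta_residue_pos K).le
      (integral_nonneg fun u => mul_nonneg (h0 u) (Real.exp_pos _).le)
  · rw [heq]
    exact hreal


end Pool.Agent.LVK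

namespace Pool.Agent.LVK

theorem strip_kern : type_of% @strip_kern_pr := @strip_kern_pr

end Pool.Agent.LVK
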