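import Pool.Agent.Lib_helper42.LVK.Defs
import Pool.Agent.Lib_helper41.HZF.YB
import Pool.Agent.Lib_helper41.HZF.KG
import Pool.Agent.Lib_helper92.KSA.BRG
import Pool.Agent.Lib_helper92.KSA.LATU
import Pool.Agent.Lib_helper92.KSA.LNZ
import Pool.Agent.Lib_helper92.LVA.Defs
import Pool.Agent.Lib_helper92.KSA.KPO
import Pool.Agent.Lib_helper92.KSA.ZKA
import Pool.Agent.Lib_helper39.LVX.K_KP1
import Pool.Agent.Lib_helper39.LVX.K_KP2B
import Pool.Agent.Lib_helper39.LVX.K_KP3A

namespace Pool.Agent.LVK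

open NumberField NumberField.InfinitePlace NumberField.Units Complex MeasureTheory Filter Topology
open Pool.Agent.HZ Pool.Agent.AS Pool.Agent.KS

variable {K : Type} [Field K] [NumberField K]

theorem kM_zero_pr (u : ℝ) : kM (K := K) 0 u = kg K Real.pi u := by
  unfold kM kg
  refine integral_congr_ae (ae_of_all _ fun x => ?_)
  simp only [Pi.zero_apply, mul_zero, pow_zero, one_mul]
  rw [← Real.exp_sum]
  congr 1
  unfold qn
  rw [Finset.sum_neg_distrib, neg_mul, Finset.mul_sum]
  congr 1
  exact Finset.sum_congr rfl fun w _ => by ring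

/-- the integrand of `kM` -/
noncomputable def kp4F (j : InfinitePlace K → ℕ) (y : InfinitePlace K → ℝ) : ℝ :=
  ∏ w : InfinitePlace K, (y w ^ (2 * j w) * Real.exp (-(Real.pi * w.mult * y w ^ 2)))

theorem kp4_kM (j : InfinitePlace K → ℕ) (u : ℝ) :
    kM j u = ∫ x : Fin (rank K) → ℝ, kp4F j (Yv K u x) := rfl

theorem kp4F_cont (j : InfinitePlace K → ℕ) : Continuous (kp4F (K := K) j) := by
  unfold kp4F
  fun_prop

theorem kp4F_nonneg (j : InfinitePlace K → ℕ) (y : InfinitePlace K → ℝ) : 0 ≤ kp4F j y := by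
  unfold kp4F
  refine Finset.prod_nonneg fun w _ => mul_nonneg ?_ (Real.exp_pos _).le
  rw [pow_mul]
  positivity

theorem kp4F_le (j : InfinitePlace K → ℕ) : ∃ C : ℝ, 0 ≤ C ∧ ∀ y : InfinitePlace K → ℝ,
    (∀ w, 0 < y w) → kp4F j y ≤ C * Real.exp (-(Real.pi / 2) * qn y) := by
  refine ⟨∏ w : InfinitePlace K, ((2 * j w).factorial * Real.exp 1), Finset.prod_nonneg
    fun w _ => by positivity, fun y hy => ?_⟩
  unfold kp4F qn
  rw [Finset.mul_sum, Real.exp_sum, ← Finset.prod_mul_distrib]
  refine Finset.prod_le_prod (fun w _ => ?_) (fun w _ => ?_)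
  · exact mul_nonneg (pow_nonneg (hy w).le _) (Real.exp_pos _).le
  · exact kgb_pow_le (2 * j w) w.mult (by exact_mod_cast one_le_mult) (hy w).le

/-- the coordinates of the direction `w` -/
theorem kp4_dir [DecidableEq (InfinitePlace K)] (w : InfinitePlace K) :
    ∃ ξ : Fin (rank K) → ℝ, ∀ (s u : ℝ) (x : Fin (rank K) → ℝ) (v : InfinitePlace K),
      Yv K (u + w.mult * s) (x + s • ξ) v = if v = w then Real.exp s * Yv K u x v
        else Yv K u x v := by
  obtain ⟨T, hT⟩ := Yv_log (K := K)
  obtain ⟨p, hp⟩ := T.surjective (fun v => if v = w then 1 else 0)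
  have h1 : ∀ (s : ℝ) (v : InfinitePlace K), Yv K (s * p.1) (s • p.2) v =
      Real.exp (if v = w then s else 0) := by
    intro s v
    have h2 : Real.log (Yv K (s * p.1) (s • p.2) v) = if v = w then s else 0 := by
      rw [← hT (s * p.1, s • p.2) v]
      have : ((s * p.1, s • p.2) : ℝ × (Fin (rank K) → ℝ)) = s • p := by
        ext <;> simp
      rw [this, map_smul, hp, Pi.smul_apply, smul_eq_mul]
      split_ifs <;> simp
    rw [← h2, Real.exp_log (Yv_pos _ _ _)]
  have hp1 : p.1 = w.mult := by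
    have h3 := prod_Yv (K := K) p.1 p.2
    have h4 : ∀ v : InfinitePlace K, Yv K p.1 p.2 v = Real.exp (if v = w then 1 else 0) := by
      intro v
      have := h1 1 v
      rwa [one_mul, one_smul] at this
    simp_rw [h4, ← Real.exp_nat_mul] at h3
    rw [← Real.exp_sum] at h3
    have h5 := Real.exp_injective h3
    rw [← h5]
    simp
  refine ⟨p.2, fun s u x v => ?_⟩
  rw [Yv_add, ← hp1, mul_comm p.1 s, h1 s v]
  split_ifs
  · ring
  · rw [Real.exp_zero, mul_one]

theorem kp4_split [DecidableEq (InfinitePlace K)] (j : InfinitePlace K → ℕ)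
    (w : InfinitePlace K) (y : InfinitePlace K → ℝ) (e : ℝ) :
    kp4F j (fun v => if v = w then e * y v else y v) =
      ((e * y w) ^ (2 * j w) * Real.exp (-(Real.pi * w.mult * (e * y w) ^ 2))) *
      ∏ v ∈ Finset.univ.erase w, (y v ^ (2 * j v) *
        Real.exp (-(Real.pi * v.mult * y v ^ 2))) := by
  unfold kp4F
  rw [← Finset.mul_prod_erase Finset.univ _ (Finset.mem_univ w)]
  simp only [if_true]
  congr 1
  refine Finset.prod_congr rfl fun v hv => ?_
  rw [if_neg (Finset.ne_of_mem_erase hv)]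

theorem kp4_update [DecidableEq (InfinitePlace K)] (j : InfinitePlace K → ℕ)
    (w : InfinitePlace K) (y : InfinitePlace K → ℝ) :
    kp4F (Function.update j w (j w + 1)) y = y w ^ 2 * kp4F j y := by
  unfold kp4F
  rw [← Finset.mul_prod_erase Finset.univ _ (Finset.mem_univ w),
    ← Finset.mul_prod_erase Finset.univ (fun v => y v ^ (2 * j v) *
      Real.exp (-(Real.pi * v.mult * y v ^ 2))) (Finset.mem_univ w)]
  have h1 : ∏ v ∈ Finset.univ.erase w, (y v ^ (2 * Function.update j w (j w + 1) v) *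
      Real.exp (-(Real.pi * v.mult * y v ^ 2))) = ∏ v ∈ Finset.univ.erase w, (y v ^ (2 * j v) *
      Real.exp (-(Real.pi * v.mult * y v ^ 2))) := by
    refine Finset.prod_congr rfl fun v hv => ?_
    rw [Function.update_of_ne (Finset.ne_of_mem_erase hv)]
  rw [h1, Function.update_self]
  ring

theorem kp4_hasDeriv (k : ℕ) (m a s : ℝ) :
    HasDerivAt (fun s : ℝ => (Real.exp s * a) ^ (2 * k) *
      Real.exp (-(Real.pi * m * (Real.exp s * a) ^ 2)))
      ((2 * k - 2 * Real.pi * m * (Real.exp s * a) ^ 2) * ((Real.exp s * a) ^ (2 * k) *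
      Real.exp (-(Real.pi * m * (Real.exp s * a) ^ 2)))) s := by
  have h0 : HasDerivAt (fun s : ℝ => Real.exp s * a) (Real.exp s * a) s :=
    (Real.hasDerivAt_exp s).mul_const a
  have h1 : HasDerivAt (fun s : ℝ => (Real.exp s * a) ^ (2 * k))
      (((2 * k : ℕ) : ℝ) * (Real.exp s * a) ^ (2 * k - 1) * (Real.exp s * a)) s :=
    h0.fun_pow (2 * k)
  have h2 : HasDerivAt (fun s : ℝ => Real.exp (-(Real.pi * m * (Real.exp s * a) ^ 2)))
      (Real.exp (-(Real.pi * m * (Real.exp s * a) ^ 2)) *
        (-(Real.pi * m * (((2 : ℕ) : ℝ) * (Real.exp s * a) ^ (2 - 1) * (Real.exp s * a))))) s :=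
    (((h0.fun_pow 2).const_mul (Real.pi * m)).fun_neg).exp
  refine (h1.fun_mul h2).congr_deriv ?_
  rcases Nat.eq_zero_or_pos k with hk | hk
  · subst hk
    simp
    ring
  · have h4 : (Real.exp s * a) ^ (2 * k - 1) * (Real.exp s * a) = (Real.exp s * a) ^ (2 * k) := by
      rw [← pow_succ, Nat.sub_add_cancel (by omega)]
    push_cast
    rw [← h4]
    ring

theorem kp4_qn_ge [DecidableEq (InfinitePlace K)] (w : InfinitePlace K)
    (y : InfinitePlace K → ℝ) {s : ℝ} (hs : |s| ≤ 1) :
    Real.exp (-2) * qn y ≤ qn (fun v => if v = w then Real.exp s * y v else y v) := by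
  unfold qn
  rw [Finset.mul_sum]
  refine Finset.sum_le_sum fun v _ => ?_
  have h1 : Real.exp (-2) ≤ 1 := Real.exp_le_one_iff.2 (by norm_num)
  have h2 : 0 ≤ (v.mult : ℝ) * y v ^ 2 := by positivity
  beta_reduce
  split_ifs
  · rw [mul_pow, ← Real.exp_nat_mul]
    have h3 : Real.exp (-2) ≤ Real.exp ((2 : ℕ) * s) := by
      apply Real.exp_le_exp.2
      have := (abs_le.1 hs).1
      push_cast
      linarith
    calc Real.exp (-2) * ((v.mult : ℝ) * y v ^ 2)
        ≤ Real.exp ((2 : ℕ) * s) * ((v.mult : ℝ) * y v ^ 2) := by gcongr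
      _ = _ := by ring
  · nlinarith

/-- `2 π n_w k_{j+e_w} = (2 j_w - n_w d/du) k_j` -/
theorem kM_succ_pr (j : InfinitePlace K → ℕ) (w : InfinitePlace K) [DecidableEq (InfinitePlace K)]
    (u : ℝ) :
    HasDerivAt (kM j) (-(2 * Real.pi * w.mult * kM (Function.update j w (j w + 1)) u -
      2 * j w * kM j u) / w.mult) u := by
  obtain ⟨ξ, hξ⟩ := kp4_dir (K := K) w
  have hm : (0 : ℝ) < w.mult := by exact_mod_cast mult_pos
  set j' := Function.update j w (j w + 1) with hj'
  obtain ⟨C₁, hC₁, hb₁⟩ := kp4F_le (K := K) j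
  obtain ⟨C₂, hC₂, hb₂⟩ := kp4F_le (K := K) j'
  -- the function of `s`
  set Y : ℝ → (Fin (rank K) → ℝ) → InfinitePlace K → ℝ := fun s x v =>
    if v = w then Real.exp s * Yv K u x v else Yv K u x v with hY
  have hYpos : ∀ s x v, 0 < Y s x v := by
    intro s x v
    simp only [hY]
    split_ifs
    · exact mul_pos (Real.exp_pos _) (Yv_pos _ _ _)
    · exact Yv_pos _ _ _
  have hint : ∀ s : ℝ, kM j (u + w.mult * s) = ∫ x : Fin (rank K) → ℝ, kp4F j (Y s x) := by
    intro s
    rw [kp4_kM, ← integral_add_right_eq_self _ (s • ξ)]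
    refine integral_congr_ae (ae_of_all _ fun x => ?_)
    simp only []
    congr 1
    funext v
    exact hξ s u x v
  have hYcont : ∀ s : ℝ, Continuous (Y s) := by
    intro s
    refine continuous_pi fun v => ?_
    simp only [hY]
    have hc : Continuous fun x : Fin (rank K) → ℝ => Yv K u x v :=
      (continuous_apply v).comp (kgb_cont_x u)
    split_ifs
    · exact continuous_const.mul hc
    · exact hc
  have hderiv : ∀ (x : Fin (rank K) → ℝ) (s : ℝ), HasDerivAt (fun s => kp4F j (Y s x))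
      ((2 * j w - 2 * Real.pi * w.mult * (Y s x w) ^ 2) * kp4F j (Y s x)) s := by
    intro x s
    have h1 : ∀ s : ℝ, kp4F j (Y s x) = ((Real.exp s * Yv K u x w) ^ (2 * j w) *
        Real.exp (-(Real.pi * w.mult * (Real.exp s * Yv K u x w) ^ 2))) *
      ∏ v ∈ Finset.univ.erase w, (Yv K u x v ^ (2 * j v) *
        Real.exp (-(Real.pi * v.mult * Yv K u x v ^ 2))) := fun s =>
      kp4_split j w (Yv K u x) (Real.exp s)
    have h2 : Y s x w = Real.exp s * Yv K u x w := by simp [hY]
    simp_rw [h1]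
    rw [h2]
    refine ((kp4_hasDeriv (j w) w.mult (Yv K u x w) s).mul_const _).congr_deriv ?_
    ring
  have hqn : ∀ (x : Fin (rank K) → ℝ) (s : ℝ), |s| ≤ 1 →
      Real.exp (-(Real.pi / 2) * qn (Y s x)) ≤
        Real.exp (-(Real.pi / 2 * Real.exp (-2)) * qn (Yv K u x)) := by
    intro x s hs
    apply Real.exp_le_exp.2
    have := kp4_qn_ge w (Yv K u x) hs
    have h3 := mul_le_mul_of_nonneg_left this (by positivity : 0 ≤ Real.pi / 2)
    have h4 : qn (Y s x) = qn (fun v => if v = w then Real.exp s * Yv K u x v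
      else Yv K u x v) := rfl
    rw [h4]
    linarith
  have hc : 0 < Real.pi / 2 * Real.exp (-2) := by positivity
  have hmain := hasDerivAt_integral_of_dominated_loc_of_deriv_le (𝕜 := ℝ) (μ := volume)
    (F := fun (s : ℝ) (x : Fin (rank K) → ℝ) => kp4F j (Y s x))
    (F' := fun (s : ℝ) (x : Fin (rank K) → ℝ) =>
      (2 * j w - 2 * Real.pi * w.mult * (Y s x w) ^ 2) * kp4F j (Y s x))
    (x₀ := (0 : ℝ)) (s := Metric.ball (0 : ℝ) 1)
    (bound := fun x => (2 * j w * C₁ + 2 * Real.pi * w.mult * C₂) *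
      Real.exp (-(Real.pi / 2 * Real.exp (-2)) * qn (Yv K u x)))
    (Metric.ball_mem_nhds _ one_pos)
    (Eventually.of_forall fun s => ((kp4F_cont j).comp (hYcont s)).aestronglyMeasurable)
    (by
      refine ((kg_integrable hc u).const_mul C₁).mono'
        ((kp4F_cont j).comp (hYcont 0)).aestronglyMeasurable (ae_of_all _ fun x => ?_)
      rw [Real.norm_of_nonneg (kp4F_nonneg _ _)]
      refine (hb₁ _ (hYpos 0 x)).trans (mul_le_mul_of_nonneg_left (hqn x 0 (by simp)) hC₁))
    (by
      have h5 : Continuous fun x : Fin (rank K) → ℝ => Y 0 x w :=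
        (continuous_apply w).comp (hYcont 0)
      have h6 := (kp4F_cont j).comp (hYcont 0)
      exact ((continuous_const.sub (continuous_const.mul (h5.pow 2))).mul h6).aestronglyMeasurable)
    (by
      refine ae_of_all _ fun x s hs => ?_
      have hs' : |s| ≤ 1 := by
        rw [Metric.mem_ball, Real.dist_eq, sub_zero] at hs
        exact hs.le
      have e1 := hb₁ _ (hYpos s x)
      have e2 := hb₂ _ (hYpos s x)
      rw [hj', kp4_update] at e2
      have e3 := hqn x s hs'
      have e4 := kp4F_nonneg j (Y s x)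
      rw [Real.norm_eq_abs, abs_mul, abs_of_nonneg e4]
      have e5 : |2 * (j w : ℝ) - 2 * Real.pi * w.mult * (Y s x w) ^ 2| ≤
          2 * j w + 2 * Real.pi * w.mult * (Y s x w) ^ 2 := by
        have p1 : 0 ≤ 2 * (j w : ℝ) := by positivity
        have p2 : 0 ≤ 2 * Real.pi * w.mult * (Y s x w) ^ 2 := by positivity
        rw [abs_le]
        constructor <;> linarith
      calc |2 * (j w : ℝ) - 2 * Real.pi * w.mult * (Y s x w) ^ 2| * kp4F j (Y s x)
          ≤ (2 * j w + 2 * Real.pi * w.mult * (Y s x w) ^ 2) * kp4F j (Y s x) := by gcongr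
        _ = 2 * j w * kp4F j (Y s x) +
            2 * Real.pi * w.mult * ((Y s x w) ^ 2 * kp4F j (Y s x)) := by ring
        _ ≤ 2 * j w * (C₁ * Real.exp (-(Real.pi / 2) * qn (Y s x))) +
            2 * Real.pi * w.mult * (C₂ * Real.exp (-(Real.pi / 2) * qn (Y s x))) := by gcongr
        _ = (2 * j w * C₁ + 2 * Real.pi * w.mult * C₂) *
            Real.exp (-(Real.pi / 2) * qn (Y s x)) := by ring
        _ ≤ _ := by gcongr)
    ((kg_integrable hc u).const_mul _)
    (ae_of_all _ fun x s _ => hderiv x s)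
  obtain ⟨hF'int, hD⟩ := hmain
  -- the value of the derivative
  have hval : ∫ x : Fin (rank K) → ℝ, (2 * j w - 2 * Real.pi * w.mult * (Y 0 x w) ^ 2) *
      kp4F j (Y 0 x) = 2 * j w * kM j u - 2 * Real.pi * w.mult * kM j' u := by
    have hY0 : ∀ x, Y 0 x = Yv K u x := by
      intro x
      funext v
      simp only [hY, Real.exp_zero, one_mul, ite_self]
    have i1 : Integrable fun x : Fin (rank K) → ℝ => kp4F j (Yv K u x) :=
      kgb_gen_int (K := K) (G := kp4F j) hC₁ (by positivity : 0 < Real.pi / 2)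
        (kp4F_cont j).continuousOn (fun y hy => by
          rw [Real.norm_of_nonneg (kp4F_nonneg _ _)]
          exact hb₁ y hy) u
    have i2 : Integrable fun x : Fin (rank K) → ℝ => kp4F j' (Yv K u x) :=
      kgb_gen_int (K := K) (G := kp4F j') hC₂ (by positivity : 0 < Real.pi / 2)
        (kp4F_cont j').continuousOn (fun y hy => by
          rw [Real.norm_of_nonneg (kp4F_nonneg _ _)]
          exact hb₂ y hy) u
    rw [kp4_kM, kp4_kM, ← integral_const_mul, ← integral_const_mul,
      ← integral_sub (i1.const_mul _) (i2.const_mul _)]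
    refine integral_congr_ae (ae_of_all _ fun x => ?_)
    simp only []
    rw [hY0, hj', kp4_update]
    ring
  rw [hval] at hD
  have hD' : HasDerivAt (fun s : ℝ => kM j (u + w.mult * s))
      (2 * j w * kM j u - 2 * Real.pi * w.mult * kM j' u) 0 := by
    have : (fun s : ℝ => kM j (u + w.mult * s)) =
        fun s => ∫ x : Fin (rank K) → ℝ, kp4F j (Y s x) := funext hint
    rw [this]
    exact hD
  have h7 : HasDerivAt (fun t : ℝ => (t - u) / w.mult) (1 / w.mult) u :=
    ((hasDerivAt_id u).sub_const u).div_const _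
  have h8 : (u - u) / (w.mult : ℝ) = 0 := by simp
  have h9 := HasDerivAt.scomp (g₁ := fun t : ℝ => kM j (u + w.mult * t)) (x := u)
    (h := fun t : ℝ => (t - u) / w.mult) (h' := 1 / w.mult) (by rw [h8]; exact hD') h7
  have h10 : ((fun t : ℝ => kM j (u + w.mult * t)) ∘ fun t : ℝ => (t - u) / w.mult) = kM j := by
    funext t
    simp only [Function.comp]
    congr 1
    field_simp
    ring
  rw [h10] at h9
  refine h9.congr_deriv ?_
  rw [smul_eq_mul]
  field_simp
  ring

theorem kM_strip_pr (j : InfinitePlace K → ℕ) :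
    ∃ k : ℂ → ℂ, StripK K k ∧ ∀ u : ℝ, k u = (kM j u : ℂ) := by
  classical
  suffices H : ∀ (n : ℕ) (j : InfinitePlace K → ℕ), ∑ w, j w = n →
      ∃ k : ℂ → ℂ, StripK K k ∧ ∀ u : ℝ, k u = (kM j u : ℂ) from H _ j rfl
  intro n
  induction n with
  | zero =>
    intro j hj
    have hj0 : j = 0 := by
      funext w
      exact (Finset.sum_eq_zero_iff.1 hj) w (Finset.mem_univ w)
    refine ⟨kgC K, kgC_strip, fun u => ?_⟩
    rw [hj0, kgC_real, kM_zero_pr]
  | succ n ih =>
    intro j hj
    obtain ⟨w, -, hw⟩ : ∃ w ∈ (Finset.univ : Finset (InfinitePlace K)), j w ≠ 0 := by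
      apply Finset.exists_ne_zero_of_sum_ne_zero
      omega
    set i : InfinitePlace K → ℕ := Function.update j w (j w - 1) with hi
    have hij : j = Function.update i w (i w + 1) := by
      funext v
      by_cases hv : v = w
      · subst hv
        rw [Function.update_self, hi, Function.update_self]
        omega
      · rw [Function.update_of_ne hv, hi, Function.update_of_ne hv]
    have hsum : ∑ v, i v = n := by
      have h1 : ∑ v, j v = j w + ∑ v ∈ Finset.univ.erase w, j v :=
        (Finset.add_sum_erase _ _ (Finset.mem_univ w)).symm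
      have h2 : ∑ v, i v = i w + ∑ v ∈ Finset.univ.erase w, i v :=
        (Finset.add_sum_erase _ _ (Finset.mem_univ w)).symm
      have h3 : ∑ v ∈ Finset.univ.erase w, i v = ∑ v ∈ Finset.univ.erase w, j v := by
        refine Finset.sum_congr rfl fun v hv => ?_
        rw [hi, Function.update_of_ne (Finset.ne_of_mem_erase hv)]
      have h4 : i w = j w - 1 := by rw [hi, Function.update_self]
      omega
    obtain ⟨k, hk, hku⟩ := ih i hsum
    have hm : (0 : ℝ) < w.mult := by exact_mod_cast mult_pos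
    refine ⟨fun z => ((i w / (Real.pi * w.mult) : ℝ) : ℂ) * k z +
      ((-(1 / (2 * Real.pi)) : ℝ) : ℂ) * deriv k z,
      strip_add hk (strip_deriv hk) _ _, fun u => ?_⟩
    have hkd : DifferentiableAt ℂ k u := by
      obtain ⟨δ, hδ, hd, -⟩ := hk
      have hopen : IsOpen {z : ℂ | |z.im| < δ} :=
        isOpen_lt (continuous_abs.comp Complex.continuous_im) continuous_const
      exact (hd u (by simpa using hδ)).differentiableAt (hopen.mem_nhds (by simpa using hδ))
    have h1 : HasDerivAt (fun t : ℝ => k t) (deriv k u) u := hkd.hasDerivAt.comp_ofReal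
    have h2 := (kM_succ_pr i w u).ofReal_comp
    have h3 : (fun t : ℝ => k t) = fun t : ℝ => (kM i t : ℂ) := funext hku
    rw [h3] at h1
    have h4 := h1.unique h2
    simp only []
    rw [h4, hku u, ← hij]
    have hpi := Real.pi_pos
    rw [← Complex.ofReal_mul, ← Complex.ofReal_mul, ← Complex.ofReal_add]
    congr 1
    field_simp
    ring


end Pool.Agent.LVK

namespace Pool.Agent.LVK

theorem kM_zero : type_of% @kM_zero_pr := @kM_zero_pr
theorem kM_succ : type_of% @kM_succ_pr := @kM_succ_pr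
theorem kM_strip : type_of% @kM_strip_pr := @kM_strip_pr

end Pool.Agent.LVK
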