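import Pool.Agent.Lib_helper42.LVK.Defs
import Pool.Agent.Lib_helper41.HZF.YB
import Pool.Agent.Lib_helper41.HZF.KG
import Pool.Agent.Lib_helper92.KSA.BRG
import Pool.Agent.Lib_helper92.KSA.LATU
import Pool.Agent.Lib_helper92.KSA.LNZ
import Pool.Agent.Lib_helper92.LVA.Defs
import Pool.Agent.Lib_helper92.KSA.KPO
import Pool.Agent.Lib_helper92.KSA.ZKA

/-!
# LVK block KP5A: `k_T` is a combination of translates of the moments
-/

namespace Pool.Agent.LVK

open NumberField NumberField.InfinitePlace NumberField.Units Complex MeasureTheory Filter Topology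
open Pool.Agent.HZ Pool.Agent.AS Pool.Agent.KS

variable {K : Type} [Field K] [NumberField K]

/-- the real Gaussian with monomial factor -/
noncomputable def kp5a_g (j : InfinitePlace K → ℕ) (y : InfinitePlace K → ℝ) : ℝ :=
  ∏ w : InfinitePlace K, (y w ^ j w * Real.exp (-(Real.pi * w.mult * y w ^ 2)))

theorem kp5a_Gf (κ : InfinitePlace K → ℤ) (y : InfinitePlace K → ℝ) :
    Gf κ 0 y = ((kp5a_g (fun w => (κ w).natAbs) y : ℝ) : ℂ) := by
  unfold Gf kp5a_g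
  push_cast
  refine Finset.prod_congr rfl fun w _ => ?_
  simp

theorem kp5a_kM (j : InfinitePlace K → ℕ) (u : ℝ) :
    kM j u = ∫ x : Fin (rank K) → ℝ, kp5a_g (fun w => 2 * j w) (Yv K u x) := rfl

theorem kp5a_int (j : InfinitePlace K → ℕ) (u : ℝ) :
    Integrable (fun x : Fin (rank K) → ℝ => kp5a_g j (Yv K u x)) := by
  obtain ⟨C, hC⟩ := Gf_good (K := K) (fun w => (j w : ℤ))
  have h := (kint_integrable (hC 0) u).re
  have h2 : (fun x : Fin (rank K) → ℝ => RCLike.re (Gf (fun w => (j w : ℤ)) 0 (Yv K u x))) =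
      fun x => kp5a_g j (Yv K u x) := by
    funext x
    rw [kp5a_Gf]
    simp
  rwa [h2] at h

theorem kp5a_prod (j : InfinitePlace K → ℕ) {y a b V : InfinitePlace K → ℝ}
    (ha : ∀ w, 0 < a w) (hb : ∀ w, 0 < b w) (hV : ∀ w, 0 < V w)
    (h : ∀ w, V w ^ 2 = (a w)⁻¹ ^ 2 + (b w)⁻¹ ^ 2) :
    kp5a_g j (fun w => y w / a w) * kp5a_g j (fun w => y w / b w) =
      (∏ w, (V w ^ 2 * a w * b w)⁻¹ ^ j w) * kp5a_g (fun w => 2 * j w) (fun w => y w * V w) := by
  unfold kp5a_g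
  rw [← Finset.prod_mul_distrib, ← Finset.prod_mul_distrib]
  refine Finset.prod_congr rfl fun w _ => ?_
  have ha' := (ha w).ne'
  have hb' := (hb w).ne'
  have hV' := (hV w).ne'
  have h1 : Real.exp (-(Real.pi * w.mult * (y w / a w) ^ 2)) *
      Real.exp (-(Real.pi * w.mult * (y w / b w) ^ 2)) =
      Real.exp (-(Real.pi * w.mult * (y w * V w) ^ 2)) := by
    rw [← Real.exp_add]
    congr 1
    have h2 : (y w * V w) ^ 2 = (y w / a w) ^ 2 + (y w / b w) ^ 2 := by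
      rw [mul_pow, h w]
      field_simp
    rw [h2]
    ring
  have h3 : (y w / a w) ^ j w * (y w / b w) ^ j w =
      (V w ^ 2 * a w * b w)⁻¹ ^ j w * (y w * V w) ^ (2 * j w) := by
    rw [pow_mul, ← mul_pow, ← mul_pow]
    congr 1
    field_simp
  calc (y w / a w) ^ j w * Real.exp (-(Real.pi * w.mult * (y w / a w) ^ 2)) *
      ((y w / b w) ^ j w * Real.exp (-(Real.pi * w.mult * (y w / b w) ^ 2)))
      = ((y w / a w) ^ j w * (y w / b w) ^ j w) *
        (Real.exp (-(Real.pi * w.mult * (y w / a w) ^ 2)) *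
          Real.exp (-(Real.pi * w.mult * (y w / b w) ^ 2))) := by ring
    _ = _ := by rw [h1, h3]; ring

theorem kp5a_pair (j : InfinitePlace K → ℕ) (u₁ u₂ : ℝ) (x₁ x₂ : Fin (rank K) → ℝ) :
    ∃ c v : ℝ, ∀ u : ℝ,
      Integrable (fun x : Fin (rank K) → ℝ => kp5a_g j (fun w => Yv K u x w / Yv K u₁ x₁ w) *
        kp5a_g j (fun w => Yv K u x w / Yv K u₂ x₂ w)) ∧
      (∫ x : Fin (rank K) → ℝ, kp5a_g j (fun w => Yv K u x w / Yv K u₁ x₁ w) *
        kp5a_g j (fun w => Yv K u x w / Yv K u₂ x₂ w)) = c * kM j (u + v) := by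
  set V : InfinitePlace K → ℝ := fun w =>
    Real.sqrt ((Yv K u₁ x₁ w)⁻¹ ^ 2 + (Yv K u₂ x₂ w)⁻¹ ^ 2) with hVdef
  have hpos : ∀ w, 0 < (Yv K u₁ x₁ w)⁻¹ ^ 2 + (Yv K u₂ x₂ w)⁻¹ ^ 2 := by
    intro w
    have h1 := Yv_pos (K := K) u₁ x₁ w
    have h2 := Yv_pos (K := K) u₂ x₂ w
    positivity
  have hV : ∀ w, 0 < V w := fun w => Real.sqrt_pos.2 (hpos w)
  have hV2 : ∀ w, V w ^ 2 = (Yv K u₁ x₁ w)⁻¹ ^ 2 + (Yv K u₂ x₂ w)⁻¹ ^ 2 := fun w =>
    Real.sq_sqrt (hpos w).le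
  obtain ⟨x', hx'⟩ := exists_Yv V hV
  set u' : ℝ := Real.log (∏ w, V w ^ w.mult) with hu'
  refine ⟨∏ w, (V w ^ 2 * Yv K u₁ x₁ w * Yv K u₂ x₂ w)⁻¹ ^ j w, u', fun u => ?_⟩
  have key : ∀ x : Fin (rank K) → ℝ, kp5a_g j (fun w => Yv K u x w / Yv K u₁ x₁ w) *
      kp5a_g j (fun w => Yv K u x w / Yv K u₂ x₂ w) =
      (∏ w, (V w ^ 2 * Yv K u₁ x₁ w * Yv K u₂ x₂ w)⁻¹ ^ j w) *
        kp5a_g (fun w => 2 * j w) (Yv K (u + u') (x + x')) := by
    intro x
    rw [kp5a_prod j (Yv_pos u₁ x₁) (Yv_pos u₂ x₂) hV hV2]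
    congr 2
    funext w
    rw [Yv_add, hx' w]
  constructor
  · simp_rw [key]
    exact ((kp5a_int (fun w => 2 * j w) (u + u')).comp_add_right x').const_mul _
  · simp_rw [key]
    rw [integral_const_mul, kp5a_kM]
    congr 1
    exact integral_add_right_eq_self
      (fun x : Fin (rank K) → ℝ => kp5a_g (fun w => 2 * j w) (Yv K (u + u') x)) x'

theorem kp5a_sq (κ : InfinitePlace K → ℤ) (T : TD K) (y : InfinitePlace K → ℝ) :
    ((‖fT κ T y‖ ^ 2 : ℝ) : ℂ) = ∑ i, ∑ l, (T.c i * (Real.exp (-(T.u i / 2)) : ℂ) *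
      starRingEnd ℂ (T.c l * (Real.exp (-(T.u l / 2)) : ℂ))) *
      ((kp5a_g (fun w => (κ w).natAbs) (fun w => y w / Yv K (T.u i) (T.x i) w) *
        kp5a_g (fun w => (κ w).natAbs) (fun w => y w / Yv K (T.u l) (T.x l) w) : ℝ) : ℂ) := by
  have h1 : ((‖fT κ T y‖ ^ 2 : ℝ) : ℂ) = fT κ T y * starRingEnd ℂ (fT κ T y) := by
    rw [Complex.mul_conj, Complex.normSq_eq_norm_sq]
  rw [h1]
  unfold fT
  simp_rw [kp5a_Gf]
  rw [map_sum, Finset.sum_mul_sum]
  refine Finset.sum_congr rfl fun i _ => Finset.sum_congr rfl fun l _ => ?_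
  simp only [map_mul, Complex.conj_ofReal]
  push_cast
  ring

theorem kk_eq_pr (κ : InfinitePlace K → ℤ) (T : TD K) :
    ∃ (n : ℕ) (c : Fin n → ℂ) (v : Fin n → ℝ), ∀ u : ℝ,
      (kk κ T u : ℂ) = ∑ i, c i * (kM (fun w => (κ w).natAbs) (u + v i) : ℂ) := by
  classical
  have hp := fun i l : Fin T.n => kp5a_pair (K := K) (fun w => (κ w).natAbs) (T.u i) (T.u l)
    (T.x i) (T.x l)
  choose c v hcv using hp
  refine ⟨T.n * T.n, fun q => (T.c (finProdFinEquiv.symm q).1 *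
      (Real.exp (-(T.u (finProdFinEquiv.symm q).1 / 2)) : ℂ) *
      starRingEnd ℂ (T.c (finProdFinEquiv.symm q).2 *
        (Real.exp (-(T.u (finProdFinEquiv.symm q).2 / 2)) : ℂ))) *
      (c (finProdFinEquiv.symm q).1 (finProdFinEquiv.symm q).2 : ℂ),
    fun q => v (finProdFinEquiv.symm q).1 (finProdFinEquiv.symm q).2, fun u => ?_⟩
  rw [Equiv.sum_comp finProdFinEquiv.symm (fun p : Fin T.n × Fin T.n =>
    (T.c p.1 * (Real.exp (-(T.u p.1 / 2)) : ℂ) *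
      starRingEnd ℂ (T.c p.2 * (Real.exp (-(T.u p.2 / 2)) : ℂ))) *
      (c p.1 p.2 : ℂ) * (kM (fun w => (κ w).natAbs) (u + v p.1 p.2) : ℂ)),
    Fintype.sum_prod_type]
  unfold kk
  rw [← integral_complex_ofReal]
  simp_rw [kp5a_sq]
  rw [integral_finsetSum]
  · refine Finset.sum_congr rfl fun i _ => ?_
    rw [integral_finsetSum]
    · refine Finset.sum_congr rfl fun l _ => ?_
      rw [integral_const_mul, integral_complex_ofReal, (hcv i l u).2]
      push_cast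
      ring
    · intro l _
      exact ((hcv i l u).1.ofReal).const_mul _
  · intro i _
    exact integrable_finsetSum _ fun l _ => ((hcv i l u).1.ofReal).const_mul _


end Pool.Agent.LVK

namespace Pool.Agent.LVK

theorem kk_eq : type_of% @kk_eq_pr := @kk_eq_pr

end Pool.Agent.LVK
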