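import Pool.Agent.Lib_helper42.LVK.Defs
import Pool.Agent.Lib_helper41.HZF.YB
import Pool.Agent.Lib_helper41.HZF.KG
import Pool.Agent.Lib_helper92.KSA.BRG
import Pool.Agent.Lib_helper92.KSA.LATU
import Pool.Agent.Lib_helper92.KSA.LNZ
import Pool.Agent.Lib_helper92.LVA.Defs
import Pool.Agent.Lib_helper92.KSA.KPO
import Pool.Agent.Lib_helper92.KSA.ZKA
import Pool.Agent.Lib_helper39.LVX.K_KP3A
import Pool.Agent.Lib_helper39.LVX.K_KP3B
import Pool.Agent.Lib_helper39.LVX.K_KP4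
import Pool.Agent.Lib_helper39.LVX.K_KP5A

/-!
# LVK block KP5B: the dual test data and the kernels of part A
-/

namespace Pool.Agent.LVK

open NumberField NumberField.InfinitePlace NumberField.Units Complex MeasureTheory Filter Topology
open Pool.Agent.HZ Pool.Agent.AS Pool.Agent.KS

variable {K : Type} [Field K] [NumberField K]

/-- the real Gaussian with monomial factor -/
noncomputable def kp5b_g (j : InfinitePlace K → ℕ) (y : InfinitePlace K → ℝ) : ℝ :=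
  ∏ w : InfinitePlace K, (y w ^ j w * Real.exp (-(Real.pi * w.mult * y w ^ 2)))

theorem kp5b_Gf (κ : InfinitePlace K → ℤ) (y : InfinitePlace K → ℝ) :
    Gf κ 0 y = ((kp5b_g (fun w => (κ w).natAbs) y : ℝ) : ℂ) := by
  unfold Gf kp5b_g
  push_cast
  refine Finset.prod_congr rfl fun w _ => ?_
  simp

theorem kp5b_kM (j : InfinitePlace K → ℕ) (u : ℝ) :
    kM j u = ∫ x : Fin (rank K) → ℝ, kp5b_g (fun w => 2 * j w) (Yv K u x) := rfl

theorem kp5b_int (j : InfinitePlace K → ℕ) (u : ℝ) :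
    Integrable (fun x : Fin (rank K) → ℝ => kp5b_g j (Yv K u x)) := by
  obtain ⟨C, hC⟩ := Gf_good (K := K) (fun w => (j w : ℤ))
  have h := (kint_integrable (hC 0) u).re
  have h2 : (fun x : Fin (rank K) → ℝ => RCLike.re (Gf (fun w => (j w : ℤ)) 0 (Yv K u x))) =
      fun x => kp5b_g j (Yv K u x) := by
    funext x
    rw [kp5b_Gf]
    simp
  rwa [h2] at h

theorem kp5b_prod (j : InfinitePlace K → ℕ) {y a b V : InfinitePlace K → ℝ}
    (ha : ∀ w, 0 < a w) (hb : ∀ w, 0 < b w) (hV : ∀ w, 0 < V w)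
    (h : ∀ w, V w ^ 2 = (a w)⁻¹ ^ 2 + (b w)⁻¹ ^ 2) :
    kp5b_g j (fun w => y w / a w) * kp5b_g j (fun w => y w / b w) =
      (∏ w, (V w ^ 2 * a w * b w)⁻¹ ^ j w) * kp5b_g (fun w => 2 * j w) (fun w => y w * V w) := by
  unfold kp5b_g
  rw [← Finset.prod_mul_distrib, ← Finset.prod_mul_distrib]
  refine Finset.prod_congr rfl fun w _ => ?_
  have ha' := (ha w).ne'
  have hb' := (hb w).ne'
  have hV' := (hV w).ne'
  have h1 : Real.exp (-(Real.pi * w.mult * (y w / a w) ^ 2)) *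
      Real.exp (-(Real.pi * w.mult * (y w / b w) ^ 2)) =
      Real.exp (-(Real.pi * w.mult * (y w * V w) ^ 2)) := by
    rw [← Real.exp_add]
    congr 1
    have h2 : (y w * V w) ^ 2 = (y w / a w) ^ 2 + (y w / b w) ^ 2 := by
      rw [mul_pow, h w]
      field_simp
    rw [h2]
    ring
  have h3 : (y w / a w) ^ j w * (y w / b w) ^ j w =
      (V w ^ 2 * a w * b w)⁻¹ ^ j w * (y w * V w) ^ (2 * j w) := by
    rw [pow_mul, ← mul_pow, ← mul_pow]
    congr 1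
    field_simp
  calc (y w / a w) ^ j w * Real.exp (-(Real.pi * w.mult * (y w / a w) ^ 2)) *
      ((y w / b w) ^ j w * Real.exp (-(Real.pi * w.mult * (y w / b w) ^ 2)))
      = ((y w / a w) ^ j w * (y w / b w) ^ j w) *
        (Real.exp (-(Real.pi * w.mult * (y w / a w) ^ 2)) *
          Real.exp (-(Real.pi * w.mult * (y w / b w) ^ 2))) := by ring
    _ = _ := by rw [h1, h3]; ring

/-- the integral of the product of two translates -/
noncomputable def kp5b_J (j : InfinitePlace K → ℕ) (u₁ u₂ : ℝ) (x₁ x₂ : Fin (rank K) → ℝ)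
    (u : ℝ) : ℝ :=
  ∫ x : Fin (rank K) → ℝ, kp5b_g j (fun w => Yv K u x w / Yv K u₁ x₁ w) *
        kp5b_g j (fun w => Yv K u x w / Yv K u₂ x₂ w)

theorem kp5b_pair (j : InfinitePlace K → ℕ) (u₁ u₂ : ℝ) (x₁ x₂ : Fin (rank K) → ℝ) :
    ∃ c v : ℝ, ∀ u : ℝ,
      Integrable (fun x : Fin (rank K) → ℝ => kp5b_g j (fun w => Yv K u x w / Yv K u₁ x₁ w) *
        kp5b_g j (fun w => Yv K u x w / Yv K u₂ x₂ w)) ∧
      kp5b_J j u₁ u₂ x₁ x₂ u = c * kM j (u + v) := by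
  set V : InfinitePlace K → ℝ := fun w =>
    Real.sqrt ((Yv K u₁ x₁ w)⁻¹ ^ 2 + (Yv K u₂ x₂ w)⁻¹ ^ 2) with hVdef
  have hpos : ∀ w, 0 < (Yv K u₁ x₁ w)⁻¹ ^ 2 + (Yv K u₂ x₂ w)⁻¹ ^ 2 := by
    intro w
    have h1 := Yv_pos (K := K) u₁ x₁ w
    have h2 := Yv_pos (K := K) u₂ x₂ w
    positivity
  have hV : ∀ w, 0 < V w := fun w => Real.sqrt_pos.2 (hpos w)
  have hV2 : ∀ w, V w ^ 2 = (Yv K u₁ x₁ w)⁻¹ ^ 2 + (Yv K u₂ x₂ w)⁻¹ ^ 2 := fun w =>
    Real.sq_sqrt (hpos w).le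
  obtain ⟨x', hx'⟩ := exists_Yv V hV
  set u' : ℝ := Real.log (∏ w, V w ^ w.mult) with hu'
  refine ⟨∏ w, (V w ^ 2 * Yv K u₁ x₁ w * Yv K u₂ x₂ w)⁻¹ ^ j w, u', fun u => ?_⟩
  have key : ∀ x : Fin (rank K) → ℝ, kp5b_g j (fun w => Yv K u x w / Yv K u₁ x₁ w) *
      kp5b_g j (fun w => Yv K u x w / Yv K u₂ x₂ w) =
      (∏ w, (V w ^ 2 * Yv K u₁ x₁ w * Yv K u₂ x₂ w)⁻¹ ^ j w) *
        kp5b_g (fun w => 2 * j w) (Yv K (u + u') (x + x')) := by
    intro x
    rw [kp5b_prod j (Yv_pos u₁ x₁) (Yv_pos u₂ x₂) hV hV2]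
    congr 2
    funext w
    rw [Yv_add, hx' w]
  constructor
  · simp_rw [key]
    exact ((kp5b_int (fun w => 2 * j w) (u + u')).comp_add_right x').const_mul _
  · unfold kp5b_J
    simp_rw [key]
    rw [integral_const_mul, kp5b_kM]
    congr 1
    exact integral_add_right_eq_self
      (fun x : Fin (rank K) → ℝ => kp5b_g (fun w => 2 * j w) (Yv K (u + u') x)) x'

theorem kp5b_sq (κ : InfinitePlace K → ℤ) (T : TD K) (y : InfinitePlace K → ℝ) :
    ((‖fT κ T y‖ ^ 2 : ℝ) : ℂ) = ∑ i, ∑ l, (T.c i * (Real.exp (-(T.u i / 2)) : ℂ) *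
      starRingEnd ℂ (T.c l * (Real.exp (-(T.u l / 2)) : ℂ))) *
      ((kp5b_g (fun w => (κ w).natAbs) (fun w => y w / Yv K (T.u i) (T.x i) w) *
        kp5b_g (fun w => (κ w).natAbs) (fun w => y w / Yv K (T.u l) (T.x l) w) : ℝ) : ℂ) := by
  have h1 : ((‖fT κ T y‖ ^ 2 : ℝ) : ℂ) = fT κ T y * starRingEnd ℂ (fT κ T y) := by
    rw [Complex.mul_conj, Complex.normSq_eq_norm_sq]
  rw [h1]
  unfold fT
  simp_rw [kp5b_Gf]
  rw [map_sum, Finset.sum_mul_sum]
  refine Finset.sum_congr rfl fun i _ => Finset.sum_congr rfl fun l _ => ?_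
  simp only [map_mul, Complex.conj_ofReal]
  push_cast
  ring

/-- the kernel as a double sum -/
theorem kp5b_kk (κ : InfinitePlace K → ℤ) (T : TD K) (u : ℝ) :
    (kk κ T u : ℂ) = ∑ i, ∑ l, (T.c i * (Real.exp (-(T.u i / 2)) : ℂ) *
      starRingEnd ℂ (T.c l * (Real.exp (-(T.u l / 2)) : ℂ))) *
      (kp5b_J (fun w => (κ w).natAbs) (T.u i) (T.u l) (T.x i) (T.x l) u : ℂ) := by
  have hp := fun i l : Fin T.n => kp5b_pair (K := K) (fun w => (κ w).natAbs) (T.u i) (T.u l)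
    (T.x i) (T.x l)
  choose c v hcv using hp
  unfold kk
  rw [← integral_complex_ofReal]
  simp_rw [kp5b_sq]
  rw [integral_finsetSum]
  · refine Finset.sum_congr rfl fun i _ => ?_
    rw [integral_finsetSum]
    · refine Finset.sum_congr rfl fun l _ => ?_
      rw [integral_const_mul, integral_complex_ofReal]
      rfl
    · intro l _
      exact ((hcv i l u).1.ofReal).const_mul _
  · intro i _
    exact integrable_finsetSum _ fun l _ => ((hcv i l u).1.ofReal).const_mul _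

theorem kp5b_kM_cont (j : InfinitePlace K → ℕ) : Continuous (kM (K := K) j) := by
  obtain ⟨C, hC⟩ := Gf_good (K := K) (fun w => ((2 * j w : ℕ) : ℤ))
  have h := Complex.continuous_re.comp (kint_continuous (hC 0))
  have h2 : (Complex.re ∘ kint K (Gf (fun w => ((2 * j w : ℕ) : ℤ)) 0)) = kM (K := K) j := by
    funext u
    have h3 : kint K (Gf (fun w => ((2 * j w : ℕ) : ℤ)) 0) u = ((kM j u : ℝ) : ℂ) := by
      unfold kint
      simp_rw [kp5b_Gf, Int.natAbs_natCast]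
      rw [integral_complex_ofReal, kp5b_kM]
    rw [Function.comp_apply, h3, Complex.ofReal_re]
  rwa [h2] at h

theorem kp5b_kM_le (j : InfinitePlace K → ℕ) {A : ℝ} (hA : 0 < A) : ∃ C : ℝ, ∀ u : ℝ,
    |kM (K := K) j u| ≤ C * Real.exp (-(A * u)) := by
  obtain ⟨C, hC⟩ := Gf_good (K := K) (fun w => ((2 * j w : ℕ) : ℤ))
  obtain ⟨C', hC'0, hC'⟩ := kg_le (K := K) (c := Real.pi / 2) (by positivity) hA
  refine ⟨C * C', fun u => ?_⟩
  have h3 : kint K (Gf (fun w => ((2 * j w : ℕ) : ℤ)) 0) u = ((kM j u : ℝ) : ℂ) := by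
    unfold kint
    simp_rw [kp5b_Gf, Int.natAbs_natCast]
    rw [integral_complex_ofReal, kp5b_kM]
  have h4 := kint_le (hC 0) u
  rw [h3, Complex.norm_real, Real.norm_eq_abs] at h4
  rw [mul_assoc]
  exact h4.trans (mul_le_mul_of_nonneg_left (hC' u) (hC 0).1)

theorem kp5b_exp_int (j : InfinitePlace K → ℕ) :
    Integrable (fun u : ℝ => kM (K := K) j u * Real.exp u) := by
  obtain ⟨C₁, h1⟩ := kp5b_kM_le (K := K) j (A := 1 / 2) (by norm_num)
  obtain ⟨C₂, h2⟩ := kp5b_kM_le (K := K) j (A := 2) (by norm_num)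
  have hcont : Continuous (fun u : ℝ => kM (K := K) j u * Real.exp u) :=
    (kp5b_kM_cont j).mul Real.continuous_exp
  have hleft : IntegrableOn (fun u : ℝ => kM (K := K) j u * Real.exp u) (Set.Iic 0) := by
    have h3 : IntegrableOn (fun u : ℝ => Real.exp ((1 / 2 : ℝ) * u)) (Set.Iic 0) :=
      integrableOn_exp_mul_Iic (by norm_num) 0
    refine (h3.const_mul C₁).mono' hcont.aestronglyMeasurable (ae_of_all _ fun u => ?_)
    rw [norm_mul, Real.norm_eq_abs, Real.norm_of_nonneg (Real.exp_pos u).le]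
    calc |kM j u| * Real.exp u ≤ C₁ * Real.exp (-(1 / 2 * u)) * Real.exp u :=
          mul_le_mul_of_nonneg_right (h1 u) (Real.exp_pos u).le
      _ = C₁ * Real.exp ((1 / 2 : ℝ) * u) := by
          rw [mul_assoc, ← Real.exp_add]; congr 2; ring
  have hright : IntegrableOn (fun u : ℝ => kM (K := K) j u * Real.exp u) (Set.Ioi 0) := by
    have h3 : IntegrableOn (fun u : ℝ => Real.exp ((-1 : ℝ) * u)) (Set.Ioi 0) :=
      integrableOn_exp_mul_Ioi (by norm_num) 0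
    refine (h3.const_mul C₂).mono' hcont.aestronglyMeasurable (ae_of_all _ fun u => ?_)
    rw [norm_mul, Real.norm_eq_abs, Real.norm_of_nonneg (Real.exp_pos u).le]
    calc |kM j u| * Real.exp u ≤ C₂ * Real.exp (-(2 * u)) * Real.exp u :=
          mul_le_mul_of_nonneg_right (h2 u) (Real.exp_pos u).le
      _ = C₂ * Real.exp ((-1 : ℝ) * u) := by
          rw [mul_assoc, ← Real.exp_add]; congr 2; ring
  rw [← integrableOn_univ, ← Set.Iic_union_Ioi (a := (0 : ℝ))]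
  exact hleft.union hright

theorem kp5b_J_int (j : InfinitePlace K → ℕ) (u₁ u₂ : ℝ) (x₁ x₂ : Fin (rank K) → ℝ) :
    Integrable (fun u : ℝ => kp5b_J j u₁ u₂ x₁ x₂ u * Real.exp u) := by
  obtain ⟨c, v, h⟩ := kp5b_pair j u₁ u₂ x₁ x₂
  have h1 : (fun u : ℝ => kp5b_J j u₁ u₂ x₁ x₂ u * Real.exp u) =
      fun u : ℝ => (c * Real.exp (-v)) * (kM j (u + v) * Real.exp (u + v)) := by
    funext u
    rw [(h u).2]
    have : Real.exp u = Real.exp (-v) * Real.exp (u + v) := by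
      rw [← Real.exp_add]; congr 1; ring
    rw [this]
    ring
  rw [h1]
  exact ((kp5b_exp_int j).comp_add_right v).const_mul _

/-- integration of a double sum -/
theorem kp5b_sum {n : ℕ} (a : Fin n → Fin n → ℂ) (J : Fin n → Fin n → ℝ → ℝ)
    (hJ : ∀ i l, Integrable (fun u => J i l u * Real.exp u)) (f : ℝ → ℝ)
    (hf : ∀ u, (f u : ℂ) = ∑ i, ∑ l, a i l * (J i l u : ℂ)) :
    ((∫ u, f u * Real.exp u : ℝ) : ℂ) =
      ∑ i, ∑ l, a i l * ((∫ u, J i l u * Real.exp u : ℝ) : ℂ) := by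
  rw [← integral_complex_ofReal]
  have h1 : (fun u => ((f u * Real.exp u : ℝ) : ℂ)) =
      fun u => ∑ i, ∑ l, a i l * ((J i l u * Real.exp u : ℝ) : ℂ) := by
    funext u
    rw [Complex.ofReal_mul, hf, Finset.sum_mul]
    refine Finset.sum_congr rfl fun i _ => ?_
    rw [Finset.sum_mul]
    refine Finset.sum_congr rfl fun l _ => ?_
    rw [Complex.ofReal_mul, mul_assoc]
  have h2 : ∀ i l, Integrable (fun u => a i l * ((J i l u * Real.exp u : ℝ) : ℂ)) := fun i l =>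
    ((hJ i l).ofReal).const_mul _
  rw [h1, integral_finsetSum _ fun i _ => integrable_finsetSum _ fun l _ => h2 i l]
  refine Finset.sum_congr rfl fun i _ => ?_
  rw [integral_finsetSum _ fun l _ => h2 i l]
  refine Finset.sum_congr rfl fun l _ => ?_
  rw [integral_const_mul, integral_complex_ofReal]

/-- the norm as a double sum -/
theorem kp5b_nrm (κ : InfinitePlace K → ℤ) (T : TD K) :
    (nrm κ T : ℂ) = ∑ i, ∑ l, (T.c i * (Real.exp (-(T.u i / 2)) : ℂ) *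
      starRingEnd ℂ (T.c l * (Real.exp (-(T.u l / 2)) : ℂ))) *
      ((∫ u : ℝ, kp5b_J (fun w => (κ w).natAbs) (T.u i) (T.u l) (T.x i) (T.x l) u *
        Real.exp u : ℝ) : ℂ) := by
  unfold nrm
  exact kp5b_sum (fun i l => T.c i * (Real.exp (-(T.u i / 2)) : ℂ) *
      starRingEnd ℂ (T.c l * (Real.exp (-(T.u l / 2)) : ℂ)))
    (fun i l => kp5b_J (fun w => (κ w).natAbs) (T.u i) (T.u l) (T.x i) (T.x l))
    (fun i l => kp5b_J_int _ _ _ _ _) (kk κ T) (fun u => kp5b_kk κ T u)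

theorem kp5b_div (u u' : ℝ) (x x' : Fin (rank K) → ℝ) (w : InfinitePlace K) :
    Yv K u x w / Yv K u' x' w = Yv K (u - u') (x - x') w := by
  have h := Yv_add (K := K) (u - u') u' (x - x') x' w
  rw [sub_add_cancel, sub_add_cancel] at h
  rw [h, mul_div_assoc, div_self (Yv_pos u' x' w).ne', mul_one]

/-- the translation by the sum of the two translation vectors -/
theorem kp5b_J_neg (j : InfinitePlace K → ℕ) (u₁ u₂ : ℝ) (x₁ x₂ : Fin (rank K) → ℝ) (u : ℝ) :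
    kp5b_J j (-u₁) (-u₂) (-x₁) (-x₂) u = kp5b_J j u₂ u₁ x₂ x₁ (u + (u₁ + u₂)) := by
  unfold kp5b_J
  simp_rw [kp5b_div]
  rw [← integral_sub_right_eq_self (fun x : Fin (rank K) → ℝ =>
    kp5b_g j (fun w => Yv K (u - -u₁) (x - -x₁) w) *
      kp5b_g j (fun w => Yv K (u - -u₂) (x - -x₂) w)) (x₁ + x₂)]
  refine integral_congr_ae (ae_of_all _ fun x => ?_)
  have h1 : u - -u₁ = u + (u₁ + u₂) - u₂ := by ring
  have h2 : u - -u₂ = u + (u₁ + u₂) - u₁ := by ring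
  have h3 : x - (x₁ + x₂) - -x₁ = x - x₂ := by abel
  have h4 : x - (x₁ + x₂) - -x₂ = x - x₁ := by abel
  simp only [h1, h2, h3, h4]

theorem kp5b_J_star (j : InfinitePlace K → ℕ) (u₁ u₂ : ℝ) (x₁ x₂ : Fin (rank K) → ℝ) :
    (∫ u : ℝ, kp5b_J j (-u₁) (-u₂) (-x₁) (-x₂) u * Real.exp u) =
      Real.exp (-(u₁ + u₂)) * ∫ u : ℝ, kp5b_J j u₂ u₁ x₂ x₁ u * Real.exp u := by
  rw [← integral_const_mul, ← integral_add_right_eq_self (fun u : ℝ =>
    Real.exp (-(u₁ + u₂)) * (kp5b_J j u₂ u₁ x₂ x₁ u * Real.exp u)) (u₁ + u₂)]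
  refine integral_congr_ae (ae_of_all _ fun u => ?_)
  have h1 : Real.exp (-(u₁ + u₂)) * Real.exp (u + (u₁ + u₂)) = Real.exp u := by
    rw [← Real.exp_add]; congr 1; ring
  change kp5b_J j (-u₁) (-u₂) (-x₁) (-x₂) u * Real.exp u = Real.exp (-(u₁ + u₂)) *
    (kp5b_J j u₂ u₁ x₂ x₁ (u + (u₁ + u₂)) * Real.exp (u + (u₁ + u₂)))
  rw [kp5b_J_neg, ← h1]
  ring

theorem kp5b_term (κ : InfinitePlace K → ℤ) (c₁ c₂ : ℂ) (u₁ u₂ : ℝ)
    (x₁ x₂ : Fin (rank K) → ℝ) :
    (starRingEnd ℂ c₁ * (Real.exp (-(-u₁ / 2)) : ℂ) *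
      starRingEnd ℂ (starRingEnd ℂ c₂ * (Real.exp (-(-u₂ / 2)) : ℂ))) *
      ((∫ u : ℝ, kp5b_J (fun w => (κ w).natAbs) (-u₁) (-u₂) (-x₁) (-x₂) u *
        Real.exp u : ℝ) : ℂ) =
    (c₂ * (Real.exp (-(u₂ / 2)) : ℂ) * starRingEnd ℂ (c₁ * (Real.exp (-(u₁ / 2)) : ℂ))) *
      ((∫ u : ℝ, kp5b_J (fun w => (κ w).natAbs) u₂ u₁ x₂ x₁ u * Real.exp u : ℝ) : ℂ) := by
  rw [kp5b_J_star]
  generalize (∫ u : ℝ, kp5b_J (fun w => (κ w).natAbs) u₂ u₁ x₂ x₁ u * Real.exp u) = I₀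
  simp only [map_mul, Complex.conj_conj, Complex.conj_ofReal, Complex.ofReal_mul]
  have h5 : (Real.exp (-(-u₁ / 2)) : ℂ) * (Real.exp (-(-u₂ / 2)) : ℂ) *
      (Real.exp (-(u₁ + u₂)) : ℂ) = (Real.exp (-(u₁ / 2)) : ℂ) *
        (Real.exp (-(u₂ / 2)) : ℂ) := by
    rw [← Complex.ofReal_mul, ← Complex.ofReal_mul, ← Complex.ofReal_mul]
    congr 1
    rw [← Real.exp_add, ← Real.exp_add, ← Real.exp_add]
    congr 1
    ring
  linear_combination (starRingEnd ℂ c₁ * c₂ * (I₀ : ℂ)) * h5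

theorem nrm_star_pr (κ : InfinitePlace K → ℤ) (T : TD K) : nrm κ T.star = nrm κ T := by
  have h : (nrm κ T.star : ℂ) = (nrm κ T : ℂ) := by
    have h1 := kp5b_nrm κ T.star
    have h2 := kp5b_nrm κ T
    rw [Finset.sum_comm] at h2
    rw [h1, h2]
    refine Finset.sum_congr rfl fun i _ => Finset.sum_congr rfl fun l _ => ?_
    exact kp5b_term κ (T.c i) (T.c l) (T.u i) (T.u l) (T.x i) (T.x l)
  exact_mod_cast h

theorem kern_kk_pr (κ : InfinitePlace K → ℤ) (T : TD K) :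
    Kern (NK K) (kk κ T) (dedekindZeta_residue K * nrm κ T) := by
  classical
  obtain ⟨n, c, v, hkk⟩ := kk_eq κ T
  obtain ⟨k, hk, hkr⟩ := kM_strip (K := K) (fun w => (κ w).natAbs)
  have h0 : StripK K (fun _ => 0) := by
    have := strip_add hk hk 0 0
    simpa using this
  have hs : ∀ s : Finset (Fin n), StripK K (fun z => ∑ i ∈ s, c i * k (z + v i)) := by
    intro s
    induction s using Finset.induction_on with
    | empty => simpa using h0
    | insert i s his ih =>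
      have h1 := strip_add (strip_shift hk (v i)) ih (c i) 1
      simpa [Finset.sum_insert his] using h1
  refine strip_kern (hs Finset.univ) (k₀ := kk κ T) (fun u => ?_) (fun u => ?_)
  · rw [hkk]
    refine Finset.sum_congr rfl fun i _ => ?_
    rw [← hkr]
    push_cast
    rfl
  · unfold kk
    exact integral_nonneg fun x => by positivity


end Pool.Agent.LVK

namespace Pool.Agent.LVK

theorem nrm_star : type_of% @nrm_star_pr := @nrm_star_pr
theorem kern_kk : type_of% @kern_kk_pr := @kern_kk_pr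

end Pool.Agent.LVK
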