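import Pool.Agent.Lib_helper42.LVK.Defs
import Pool.Agent.Lib_helper41.HZF.YB
import Pool.Agent.Lib_helper41.HZF.KG
import Pool.Agent.Lib_helper92.KSA.BRG
import Pool.Agent.Lib_helper92.KSA.LATU
import Pool.Agent.Lib_helper92.KSA.LNZ
import Pool.Agent.Lib_helper92.LVA.Defs
import Pool.Agent.Lib_helper92.KSA.KPO
import Pool.Agent.Lib_helper92.KSA.ZKA

/-! Block KP6 (LVK): the density of the ideals. -/

namespace Pool.Agent.LVK

open NumberField NumberField.InfinitePlace NumberField.Units Complex MeasureTheory Filter Topology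
open Pool.Agent.HZ Pool.Agent.AS Pool.Agent.KS
open scoped nonZeroDivisors

variable {K : Type} [Field K] [NumberField K]

/-- ideals of bounded norm -/
theorem kp6_equiv (x : ℝ) : Nonempty ({g : PK K →₀ ℕ // (nm (NK K) g : ℝ) ≤ x} ≃
    {I : (Ideal (𝓞 K))⁰ // (Ideal.absNorm (I : Ideal (𝓞 K)) : ℝ) ≤ x}) := by
  refine ⟨Equiv.ofBijective (fun g => ⟨⟨IK g.1, mem_nonZeroDivisors_of_ne_zero (IK_ne_bot_pr g.1)⟩,
    by
      show ((Ideal.absNorm (IK g.1) : ℕ) : ℝ) ≤ x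
      rw [absNorm_IK_pr]
      exact g.2⟩) ⟨?_, ?_⟩⟩
  · intro g h hgh
    have h1 : IK g.1 = IK h.1 := congrArg (fun I => ((I.1 : (Ideal (𝓞 K))⁰) : Ideal (𝓞 K))) hgh
    exact Subtype.ext (IK_inj_pr h1)
  · rintro ⟨⟨I, hI⟩, hx⟩
    obtain ⟨g, hg⟩ := IK_surj_pr (nonZeroDivisors.ne_zero hI)
    refine ⟨⟨g, ?_⟩, ?_⟩
    · rw [← absNorm_IK_pr, hg]
      exact hx
    · exact Subtype.ext (Subtype.ext hg)

theorem kp6_finite (x : ℝ) : {g : PK K →₀ ℕ | (nm (NK K) g : ℝ) ≤ x}.Finite := by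
  have h1 : {I : Ideal (𝓞 K) | Ideal.absNorm I ≤ ⌊x⌋₊}.Finite :=
    Ideal.finite_setOfPred_absNorm_le _
  refine (h1.preimage IK_inj_pr.injOn).subset fun g hg => ?_
  show Ideal.absNorm (IK g) ≤ ⌊x⌋₊
  rw [absNorm_IK_pr]
  exact Nat.le_floor hg

theorem kp6_card (x : ℝ) :
    Nat.card {I : (Ideal (𝓞 K))⁰ // (Ideal.absNorm (I : Ideal (𝓞 K)) : ℝ) ≤ x} =
      (ball (NK K) x).card := by
  classical
  obtain ⟨e⟩ := kp6_equiv (K := K) x
  rw [← Nat.card_congr e]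
  unfold ball
  rw [dif_pos (kp6_finite x)]
  exact Nat.card_eq_card_finite_toFinset (kp6_finite x)

theorem cnt_K_pr : LVA.Cnt (NK K) (dedekindZeta_residue K) := by
  refine ⟨dedekindZeta_residue_pos K, ?_⟩
  have h := NumberField.Ideal.tendsto_norm_le_div_atTop₀ K
  rw [← dedekindZeta_residue_def] at h
  refine h.congr fun x => ?_
  rw [kp6_card]

end Pool.Agent.LVK

namespace Pool.Agent.LVK

theorem cnt_K : type_of% @cnt_K_pr := @cnt_K_pr

end Pool.Agent.LVK
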