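import Pool.Agent.Lib_helper42.LVK.Defs
import Pool.Agent.Lib_helper41.HZF.YB
import Pool.Agent.Lib_helper41.HZF.KG

/-!
# LVK part M, block MA1: the unit coordinates and the test functions
-/

namespace Pool.Agent.LVK

open NumberField NumberField.InfinitePlace NumberField.Units Complex MeasureTheory Filter Topology
open Pool.Agent.HZ Pool.Agent.AS Pool.Agent.KS

variable {K : Type} [Field K] [NumberField K]

theorem Yv_ratio_pr (u u' : ℝ) (x x' : Fin (rank K) → ℝ) (w : InfinitePlace K) :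
    Yv K u x w / Yv K u' x' w = Yv K (u - u') (x - x') w := by
  rw [div_eq_iff (Yv_pos u' x' w).ne', ← Yv_add]
  simp

/-- the phase of `lam` at `Y(u,x)` (here `∑ lam = 0` is used) -/
theorem th_Yv_pr {lam : InfinitePlace K → ℝ} (hlam : ∑ w, lam w = 0) (u : ℝ)
    (x : Fin (rank K) → ℝ) : ∑ w, lam w * Real.log (Yv K u x w) = ∑ i, th lam i * x i := by
  simp_rw [yb_log, mul_add, Finset.sum_add_distrib, ← Finset.sum_mul, hlam, zero_mul, zero_add,
    Finset.mul_sum]
  rw [Finset.sum_comm]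
  refine Finset.sum_congr rfl fun i _ => ?_
  unfold th
  rw [Finset.sum_mul]
  refine Finset.sum_congr rfl fun w _ => ?_
  unfold ybl
  ring

theorem ma1_Gf (κ : InfinitePlace K → ℤ) (lam : InfinitePlace K → ℝ) (z : InfinitePlace K → ℝ) :
    Gf κ lam z = Gf κ 0 z * cexp (((∑ w, lam w * Real.log (z w) : ℝ) : ℂ) * I) := by
  unfold Gf
  rw [Complex.ofReal_sum, Finset.sum_mul, Complex.exp_sum, ← Finset.prod_mul_distrib]
  refine Finset.prod_congr rfl fun w _ => ?_
  simp only [Pi.zero_apply, zero_mul, Complex.ofReal_zero, Complex.exp_zero, mul_one]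
  ring

theorem FT_eq_pr (κ : InfinitePlace K → ℤ) {lam : InfinitePlace K → ℝ} (hlam : ∑ w, lam w = 0)
    (T : TD K) {y : InfinitePlace K → ℝ} (hy : ∀ w, 0 < y w) :
    FT κ lam T y = ∑ j, T.c j * (Real.exp (-(T.u j / 2)) : ℂ) * eth lam (T.x j) *
      Gf κ lam (fun w => y w / Yv K (T.u j) (T.x j) w) := by
  unfold FT fT
  rw [Finset.sum_mul]
  refine Finset.sum_congr rfl fun j _ => ?_
  rw [ma1_Gf κ lam]
  have h1 : ∑ w, lam w * Real.log (y w / Yv K (T.u j) (T.x j) w) =
      ∑ w, lam w * Real.log (y w) - ∑ i, th lam i * T.x j i := by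
    rw [← th_Yv_pr hlam (T.u j) (T.x j), ← Finset.sum_sub_distrib]
    refine Finset.sum_congr rfl fun w _ => ?_
    rw [Real.log_div (hy w).ne' (Yv_pos _ _ w).ne']
    ring
  rw [h1]
  have h2 : eth lam (T.x j) * cexp (((∑ w, lam w * Real.log (y w) - ∑ i, th lam i * T.x j i : ℝ) : ℂ) * I)
      = cexp (((∑ w, lam w * Real.log (y w) : ℝ) : ℂ) * I) := by
    unfold eth
    rw [← Complex.exp_add]
    congr 1
    push_cast
    ring
  rw [← h2]
  ring

theorem norm_FT_pr (κ : InfinitePlace K → ℤ) (lam : InfinitePlace K → ℝ) (T : TD K)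
    (y : InfinitePlace K → ℝ) : ‖FT κ lam T y‖ = ‖fT κ T y‖ := by
  unfold FT
  rw [norm_mul, Complex.norm_exp_ofReal_mul_I, mul_one]

theorem ma1_qn (B : ℝ) (_hB : 0 < B) {Y y : InfinitePlace K → ℝ} (hY : ∀ w, 0 < Y w)
    (hYB : ∀ w, Y w ≤ B) : qn y / B ^ 2 ≤ qn (fun w => y w / Y w) := by
  unfold qn
  rw [Finset.sum_div]
  refine Finset.sum_le_sum fun w _ => ?_
  rw [mul_div_assoc]
  refine mul_le_mul_of_nonneg_left ?_ (Nat.cast_nonneg _)
  rw [div_pow]
  have h1 : Y w ^ 2 ≤ B ^ 2 := pow_le_pow_left₀ (hY w).le (hYB w) 2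
  exact div_le_div_of_nonneg_left (sq_nonneg _) (pow_pos (hY w) 2) h1

theorem fT_good_pr (κ : InfinitePlace K → ℤ) (T : TD K) : ∃ C c : ℝ, GoodF (fT κ T) C c := by
  obtain ⟨C, hC⟩ := Gf_good κ
  have hG := hC 0
  set B : ℝ := 1 + ∑ j, ∑ w, Yv K (T.u j) (T.x j) w with hB
  have hB0 : 0 < B := by
    have : 0 ≤ ∑ j, ∑ w, Yv K (T.u j) (T.x j) w :=
      Finset.sum_nonneg fun j _ => Finset.sum_nonneg fun w _ => (Yv_pos _ _ w).le
    linarith
  have hYB : ∀ j w, Yv K (T.u j) (T.x j) w ≤ B := by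
    intro j w
    have h1 : Yv K (T.u j) (T.x j) w ≤ ∑ w, Yv K (T.u j) (T.x j) w :=
      Finset.single_le_sum (f := fun w => Yv K (T.u j) (T.x j) w)
        (fun w _ => (Yv_pos _ _ w).le) (Finset.mem_univ w)
    have h2 : ∑ w, Yv K (T.u j) (T.x j) w ≤ ∑ j, ∑ w, Yv K (T.u j) (T.x j) w :=
      Finset.single_le_sum (f := fun j => ∑ w, Yv K (T.u j) (T.x j) w)
        (fun j _ => Finset.sum_nonneg fun w _ => (Yv_pos _ _ w).le) (Finset.mem_univ j)
    linarith
  refine ⟨∑ j, ‖T.c j * (Real.exp (-(T.u j / 2)) : ℂ)‖ * C, Real.pi / 2 / B ^ 2,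
    Finset.sum_nonneg fun j _ => mul_nonneg (norm_nonneg _) hG.1, by positivity, ?_, ?_⟩
  · unfold fT
    refine continuousOn_finsetSum _ fun j _ => ?_
    refine continuousOn_const.mul ?_
    refine hG.2.2.1.comp (Continuous.continuousOn ?_) ?_
    · exact continuous_pi fun w => (continuous_apply w).div_const _
    · intro y hy w
      exact div_pos (hy w) (Yv_pos _ _ w)
  · intro y hy
    unfold fT
    refine (norm_sum_le _ _).trans ?_
    rw [Finset.sum_mul]
    refine Finset.sum_le_sum fun j _ => ?_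
    rw [norm_mul, mul_assoc]
    refine mul_le_mul_of_nonneg_left ?_ (norm_nonneg _)
    refine (hG.2.2.2 _ fun w => div_pos (hy w) (Yv_pos _ _ w)).trans ?_
    refine mul_le_mul_of_nonneg_left ?_ hG.1
    apply Real.exp_le_exp.2
    have h1 := ma1_qn (y := y) B hB0 (fun w => Yv_pos (K := K) (T.u j) (T.x j) w) (hYB j)
    have h2 : Real.pi / 2 / B ^ 2 * qn y = Real.pi / 2 * (qn y / B ^ 2) := by ring
    have h3 := mul_le_mul_of_nonneg_left h1 (by positivity : (0:ℝ) ≤ Real.pi / 2)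
    linarith

theorem FT_good_pr (κ : InfinitePlace K → ℤ) (T : TD K) :
    ∃ C c : ℝ, ∀ lam : InfinitePlace K → ℝ, GoodF (FT κ lam T) C c := by
  obtain ⟨C, c, h⟩ := fT_good_pr κ T
  refine ⟨C, c, fun lam => ⟨h.1, h.2.1, ?_, ?_⟩⟩
  · unfold FT
    refine h.2.2.1.mul ?_
    refine ContinuousOn.cexp ?_
    refine ContinuousOn.mul ?_ continuousOn_const
    refine Complex.continuous_ofReal.comp_continuousOn ?_
    refine continuousOn_finsetSum _ fun w _ => ?_
    refine continuousOn_const.mul ?_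
    refine ContinuousOn.log (continuous_apply w).continuousOn ?_
    intro y hy
    exact (hy w).ne'
  · intro y hy
    rw [norm_FT_pr]
    exact h.2.2.2 y hy

theorem star_star_pr (T : TD K) : T.star.star = T := by
  cases T with
  | mk n c u x => simp [TD.star]

end Pool.Agent.LVK

namespace Pool.Agent.LVK

theorem Yv_ratio : type_of% @Yv_ratio_pr := @Yv_ratio_pr
theorem th_Yv : type_of% @th_Yv_pr := @th_Yv_pr
theorem FT_eq : type_of% @FT_eq_pr := @FT_eq_pr
theorem fT_good : type_of% @fT_good_pr := @fT_good_pr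
theorem FT_good : type_of% @FT_good_pr := @FT_good_pr
theorem norm_FT : type_of% @norm_FT_pr := @norm_FT_pr
theorem star_star : type_of% @star_star_pr := @star_star_pr

end Pool.Agent.LVK
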