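import Pool.Agent.Lib_helper42.LVK.Defs
import Pool.Agent.Lib_helper41.HZF.YB
import Pool.Agent.Lib_helper41.HZF.KG
import Pool.Agent.Lib_helper39.LVX.K_MA1

/-!
# LVK part M, block MA2: `kint` and `Dser` of the test functions
-/

namespace Pool.Agent.LVK

open NumberField NumberField.InfinitePlace NumberField.Units Complex MeasureTheory Filter Topology
open Pool.Agent.HZ Pool.Agent.AS Pool.Agent.KS

variable {K : Type} [Field K] [NumberField K]

theorem kint_FT_pr (κ : InfinitePlace K → ℤ) {lam : InfinitePlace K → ℝ} (hlam : ∑ w, lam w = 0)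
    (T : TD K) (u : ℝ) :
    kint K (FT κ lam T) u = ∑ j, T.c j * (Real.exp (-(T.u j / 2)) : ℂ) * eth lam (T.x j) *
      kint K (Gf κ lam) (u - T.u j) := by
  obtain ⟨C, hC⟩ := Gf_good κ
  have hG := hC lam
  unfold kint
  have h1 : ∀ x : Fin (rank K) → ℝ, FT κ lam T (Yv K u x) =
      ∑ j, T.c j * (Real.exp (-(T.u j / 2)) : ℂ) * eth lam (T.x j) *
        Gf κ lam (Yv K (u - T.u j) (x - T.x j)) := by
    intro x
    rw [FT_eq_pr κ hlam T (Yv_pos u x)]
    refine Finset.sum_congr rfl fun j _ => ?_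
    congr 2
    funext w
    exact Yv_ratio_pr u (T.u j) x (T.x j) w
  simp_rw [h1]
  rw [integral_finsetSum]
  · refine Finset.sum_congr rfl fun j _ => ?_
    rw [integral_const_mul]
    congr 1
    exact integral_sub_right_eq_self (fun x => Gf κ lam (Yv K (u - T.u j) x)) (T.x j)
  · intro j _
    exact ((kint_integrable hG (u - T.u j)).comp_sub_right (T.x j)).const_mul _

theorem DT_eq_pr (κ : InfinitePlace K → ℤ) {lam : InfinitePlace K → ℝ} (hlam : ∑ w, lam w = 0)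
    (T : TD K) {ψ : Ideal (𝓞 K) →* ℂ} (hψ : ∀ 𝔞, ‖ψ 𝔞‖ ≤ 1) (h0 : ψ ⊥ = 0) (u : ℝ) :
    DT κ lam T ψ u = ∑ j, T.c j * eth lam (T.x j) * Dser ψ (Gf κ lam) (u - T.u j) := by
  obtain ⟨C, hC⟩ := Gf_good κ
  have hG := hC lam
  unfold DT Dser
  have h1 : ∀ 𝔠 : Ideal (𝓞 K), ψ 𝔠 * kint K (FT κ lam T) (u + Real.log (Ideal.absNorm 𝔠)) =
      ∑ j, T.c j * (Real.exp (-(T.u j / 2)) : ℂ) * eth lam (T.x j) *
        (ψ 𝔠 * kint K (Gf κ lam) (u - T.u j + Real.log (Ideal.absNorm 𝔠))) := by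
    intro 𝔠
    rw [kint_FT_pr κ hlam T, Finset.mul_sum]
    refine Finset.sum_congr rfl fun j _ => ?_
    rw [show u + Real.log (Ideal.absNorm 𝔠) - T.u j = u - T.u j + Real.log (Ideal.absNorm 𝔠) by ring]
    ring
  simp_rw [h1]
  rw [Summable.tsum_finsetSum]
  · rw [Finset.mul_sum]
    refine Finset.sum_congr rfl fun j _ => ?_
    rw [tsum_mul_left]
    have h2 : (Real.exp ((u - T.u j) / 2) : ℂ) =
        (Real.exp (u / 2) : ℂ) * (Real.exp (-(T.u j / 2)) : ℂ) := by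
      rw [← Complex.ofReal_mul, ← Real.exp_add]
      congr 2
      ring
    rw [h2]
    ring
  · intro j _
    exact (Dser_summable hG hψ h0 (u - T.u j)).mul_left _

end Pool.Agent.LVK

namespace Pool.Agent.LVK

theorem kint_FT : type_of% @kint_FT_pr := @kint_FT_pr
theorem DT_eq : type_of% @DT_eq_pr := @DT_eq_pr

end Pool.Agent.LVK
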