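import Pool.Agent.Lib_helper42.LVK.Defs
import Pool.Agent.Lib_helper41.HZF.YB
import Pool.Agent.Lib_helper41.HZF.KG
import Pool.Agent.Lib_helper39.LVX.K_MA2

/-!
# LVK part M, block MA3A: functional equation
-/

namespace Pool.Agent.LVK

open NumberField NumberField.InfinitePlace NumberField.Units Complex MeasureTheory Filter Topology
open Pool.Agent.HZ Pool.Agent.AS Pool.Agent.KS

variable {K : Type} [Field K] [NumberField K]

variable {𝔮 : Ideal (𝓞 K)} {κ : InfinitePlace K → ℤ} {lam : InfinitePlace K → ℝ}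
  {χ : MulChar (𝓞 K ⧸ 𝔮) ℂ} {ψ : Ideal (𝓞 K) →* ℂ}

theorem ma3a_fe (κ : InfinitePlace K → ℤ) (lam : InfinitePlace K → ℝ)
    (ψ : Ideal (𝓞 K) →* ℂ) (Ω : ℂ) (l : ℝ)
    (hfe : ∀ u : ℝ, Dser ψ (Gf κ lam) u = Ω * starRingEnd ℂ (Dser ψ (Gf κ lam) (-u - l)))
    (s : ℂ) : LamD κ lam ψ s = Ω * cexp (-((s - 1 / 2) * l)) *
      starRingEnd ℂ (LamD κ lam ψ (1 - starRingEnd ℂ s)) := by
  unfold LamD
  have h1 : (fun u : ℝ => Dser ψ (Gf κ lam) u * cexp ((s - 1 / 2) * u)) = fun u : ℝ =>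
      (fun v : ℝ => Ω * starRingEnd ℂ (Dser ψ (Gf κ lam) v) *
        cexp ((s - 1 / 2) * ((-l - v : ℝ) : ℂ))) (-l - u) := by
    funext u
    show _ = Ω * starRingEnd ℂ (Dser ψ (Gf κ lam) (-l - u)) *
        cexp ((s - 1 / 2) * ((-l - (-l - u) : ℝ) : ℂ))
    rw [hfe u, show -l - (-l - u) = u by ring, show -u - l = -l - u by ring]
  rw [h1, integral_sub_left_eq_self (fun v : ℝ => Ω * starRingEnd ℂ (Dser ψ (Gf κ lam) v) *
        cexp ((s - 1 / 2) * ((-l - v : ℝ) : ℂ))) volume (-l), ← integral_conj,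
    ← integral_const_mul]
  refine integral_congr_ae (Eventually.of_forall fun v => ?_)
  show Ω * starRingEnd ℂ (Dser ψ (Gf κ lam) v) * cexp ((s - 1 / 2) * ((-l - v : ℝ) : ℂ)) =
    Ω * cexp (-((s - 1 / 2) * l)) *
      starRingEnd ℂ (Dser ψ (Gf κ lam) v * cexp ((1 - starRingEnd ℂ s - 1 / 2) * v))
  rw [map_mul, ← Complex.exp_conj]
  have h2 : starRingEnd ℂ ((1 - starRingEnd ℂ s - 1 / 2) * (v : ℂ)) = (1 / 2 - s) * v := by
    simp only [map_mul, map_sub, map_one, map_div₀, Complex.conj_conj, Complex.conj_ofReal,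
      map_ofNat]
    ring
  have h3 : cexp ((s - 1 / 2) * ((-l - v : ℝ) : ℂ)) =
      cexp (-((s - 1 / 2) * l)) * cexp ((1 / 2 - s) * v) := by
    rw [← Complex.exp_add]
    congr 1
    push_cast
    ring
  rw [h2, h3]
  ring

theorem ma3a_eth (lam : InfinitePlace K → ℝ) (x : Fin (rank K) → ℝ) :
    starRingEnd ℂ (eth lam (-x)) = eth lam x := by
  unfold eth
  rw [← Complex.exp_conj, map_mul, Complex.conj_ofReal, Complex.conj_I]
  congr 1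
  have : ∑ i, th lam i * (-x) i = -∑ i, th lam i * x i := by
    rw [← Finset.sum_neg_distrib]
    refine Finset.sum_congr rfl fun i _ => ?_
    rw [Pi.neg_apply]
    ring
  rw [this]
  push_cast
  ring

theorem DT_fe_pr (h : HD 𝔮 κ lam χ ψ) : ∃ Ω : ℂ, ‖Ω‖ = 1 ∧
    (∀ s : ℂ, LamD κ lam ψ s = Ω * cexp (-((s - 1 / 2) * Real.log (cond 𝔮))) *
      starRingEnd ℂ (LamD κ lam ψ (1 - starRingEnd ℂ s))) ∧
    ∀ (T : TD K) (u : ℝ), DT κ lam T ψ u =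
      Ω * starRingEnd ℂ (DT κ lam T.star ψ (-u - Real.log (cond 𝔮))) := by
  obtain ⟨Ω, hΩ, hfe⟩ := h.fe
  refine ⟨Ω, hΩ, fun s => ma3a_fe κ lam ψ Ω _ hfe s, fun T u => ?_⟩
  have hψ : ∀ 𝔞, ‖ψ 𝔞‖ ≤ 1 := fun 𝔞 => h.hecke.norm_le 𝔞
  rw [DT_eq_pr κ h.hlam T hψ h.psi_bot, DT_eq_pr κ h.hlam T.star hψ h.psi_bot, map_sum,
    Finset.mul_sum]
  show ∑ j : Fin T.n, _ = ∑ j : Fin T.n, Ω * starRingEnd ℂ (starRingEnd ℂ (T.c j) *
    eth lam (-T.x j) * Dser ψ (Gf κ lam) (-u - Real.log (cond 𝔮) - -T.u j))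
  refine Finset.sum_congr rfl fun j _ => ?_
  rw [hfe (u - T.u j), map_mul, map_mul, Complex.conj_conj, ma3a_eth,
    show -(u - T.u j) - Real.log (cond 𝔮) = -u - Real.log (cond 𝔮) - -T.u j by ring]
  ring

end Pool.Agent.LVK

namespace Pool.Agent.LVK

theorem DT_fe : type_of% @DT_fe_pr := @DT_fe_pr

end Pool.Agent.LVK
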