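import Pool.Agent.Lib_helper42.LVK.Defs
import Pool.Agent.Lib_helper41.HZF.YB
import Pool.Agent.Lib_helper41.HZF.KG
import Pool.Agent.Lib_helper39.LVX.K_MA1
import Pool.Agent.Lib_helper39.LVX.K_MA2

namespace Pool.Agent.LVK

open NumberField NumberField.InfinitePlace NumberField.Units Complex MeasureTheory Filter Topology
open Pool.Agent.HZ Pool.Agent.AS Pool.Agent.KS

variable {K : Type} [Field K] [NumberField K]

/-- faster than exponential decay -/
def Ma3bDec (f : ℝ → ℂ) : Prop := ∀ A : ℝ, ∃ C : ℝ, ∀ u : ℝ, ‖f u‖ ≤ C * Real.exp (-(A * |u|))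

theorem ma3b_nonneg {f : ℝ → ℂ} {A C : ℝ} (h : ∀ u : ℝ, ‖f u‖ ≤ C * Real.exp (-(A * |u|))) :
    0 ≤ C := by
  have := (norm_nonneg _).trans (h 0)
  exact nonneg_of_mul_nonneg_left this (Real.exp_pos _)

theorem ma3b_shift {f : ℝ → ℂ} (hf : Ma3bDec f) (c : ℝ) : Ma3bDec (fun u => f (u + c)) := by
  intro A
  obtain ⟨C, hC⟩ := hf |A|
  have hC0 := ma3b_nonneg hC
  refine ⟨C * Real.exp (|A| * |c|), fun u => ?_⟩
  refine (hC _).trans ?_
  rw [mul_assoc, ← Real.exp_add]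
  refine mul_le_mul_of_nonneg_left (Real.exp_le_exp.2 ?_) hC0
  have h1 : |u| ≤ |u + c| + |c| := by
    have := abs_sub_abs_le_abs_sub u (-c)
    rw [abs_neg, sub_neg_eq_add] at this
    linarith
  have h2 := mul_le_mul_of_nonneg_left h1 (abs_nonneg A)
  have h3 := mul_le_mul_of_nonneg_right (le_abs_self A) (abs_nonneg u)
  linarith

theorem ma3b_mul {f : ℝ → ℂ} (hf : Ma3bDec f) (c : ℂ) : Ma3bDec (fun u => c * f u) := by
  intro A
  obtain ⟨C, hC⟩ := hf A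
  refine ⟨‖c‖ * C, fun u => ?_⟩
  rw [norm_mul, mul_assoc]
  exact mul_le_mul_of_nonneg_left (hC u) (norm_nonneg _)

theorem ma3b_sum {ι : Type*} (s : Finset ι) (f : ι → ℝ → ℂ) (hf : ∀ i ∈ s, Ma3bDec (f i)) :
    Ma3bDec (fun u => ∑ i ∈ s, f i u) := by
  intro A
  choose! C hC using fun i (hi : i ∈ s) => hf i hi A
  refine ⟨∑ i ∈ s, C i, fun u => ?_⟩
  rw [Finset.sum_mul]
  exact (norm_sum_le _ _).trans (Finset.sum_le_sum fun i hi => hC i hi u)

theorem ma3b_lin {f : ℝ → ℂ} (hf : Ma3bDec f) (a b : ℝ) :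
    Ma3bDec (fun u => ((a + b * u : ℝ) : ℂ) * f u) := by
  intro A
  obtain ⟨C, hC⟩ := hf (A + 1)
  have hC0 := ma3b_nonneg hC
  refine ⟨(|a| + |b|) * C, fun u => ?_⟩
  rw [norm_mul, Complex.norm_real, Real.norm_eq_abs]
  have h1 : |a + b * u| ≤ (|a| + |b|) * Real.exp |u| := by
    have h2 : 1 + |u| ≤ Real.exp |u| := by
      have := Real.add_one_le_exp |u|
      linarith
    have h3 := abs_add_le a (b * u)
    rw [abs_mul] at h3
    have h4 : (|a| + |b|) * (1 + |u|) ≤ (|a| + |b|) * Real.exp |u| :=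
      mul_le_mul_of_nonneg_left h2 (by positivity)
    nlinarith [abs_nonneg a, abs_nonneg b, abs_nonneg u, mul_nonneg (abs_nonneg a) (abs_nonneg u)]
  calc |a + b * u| * ‖f u‖ ≤ ((|a| + |b|) * Real.exp |u|) * (C * Real.exp (-((A + 1) * |u|))) :=
        mul_le_mul h1 (hC u) (norm_nonneg _) (by positivity)
    _ = (|a| + |b|) * C * (Real.exp |u| * Real.exp (-((A + 1) * |u|))) := by ring
    _ = _ := by
        rw [← Real.exp_add]
        congr 2
        ring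

theorem ma3b_norm_eth (lam : InfinitePlace K → ℝ) (x : Fin (rank K) → ℝ) : ‖eth lam x‖ = 1 := by
  unfold eth
  exact Complex.norm_exp_ofReal_mul_I _

variable {𝔮 : Ideal (𝓞 K)} {κ : InfinitePlace K → ℤ} {lam : InfinitePlace K → ℝ}
  {χ : MulChar (𝓞 K ⧸ 𝔮) ℂ} {ψ : Ideal (𝓞 K) →* ℂ}

theorem ma3b_DT_eq (h : HD 𝔮 κ lam χ ψ) (T : TD K) : DT κ lam T ψ =
    fun u => ∑ j, T.c j * eth lam (T.x j) * Dser ψ (Gf κ lam) (u + -T.u j) := by
  funext u
  rw [DT_eq κ h.hlam T (fun 𝔞 => h.hecke.norm_le 𝔞) h.psi_bot u]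
  simp only [sub_eq_add_neg]

theorem DT_decay_pr (h : HD 𝔮 κ lam χ ψ) (T : TD K) (A : ℝ) :
    ∃ C : ℝ, ∀ u : ℝ, ‖DT κ lam T ψ u‖ ≤ C * Real.exp (-(A * |u|)) := by
  have h1 : Ma3bDec (Dser ψ (Gf κ lam)) := h.decay
  rw [ma3b_DT_eq h T]
  exact ma3b_sum Finset.univ _ (fun j _ => ma3b_mul (ma3b_shift h1 (-T.u j)) _) A

theorem DT_continuous_pr (h : HD 𝔮 κ lam χ ψ) (T : TD K) : Continuous (DT κ lam T ψ) := by
  rw [ma3b_DT_eq h T]
  refine continuous_finsetSum _ fun j _ => continuous_const.mul ?_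
  exact h.continuous.comp (by fun_prop)

theorem ma3b_EM_eq (T : TD K) (S : Finset (PK K →₀ ℕ))
    (a : (PK K →₀ ℕ) → ℝ) (η L : ℝ) : EM κ lam T ψ S a η L = fun u => ∑ m ∈ S,
      ((a m : ℂ) * ψ (IK m) * (((√(nm (NK K) m : ℝ))⁻¹ : ℝ) : ℂ)) *
      (fun v => ((1 + η / L * v : ℝ) : ℂ) * DT κ lam T ψ v) (u + lK m) := by
  funext u
  unfold EM
  refine Finset.sum_congr rfl fun m _ => ?_
  simp only []
  have : (1 + η * (u + lK m) / L : ℝ) = 1 + η / L * (u + lK m) := by ring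
  rw [this]
  ring

theorem EM_decay_pr (h : HD 𝔮 κ lam χ ψ) (T : TD K) (S : Finset (PK K →₀ ℕ))
    (a : (PK K →₀ ℕ) → ℝ) (η L : ℝ) (A : ℝ) :
    ∃ C : ℝ, ∀ u : ℝ, ‖EM κ lam T ψ S a η L u‖ ≤ C * Real.exp (-(A * |u|)) := by
  have h1 : Ma3bDec (DT κ lam T ψ) := DT_decay_pr h T
  rw [ma3b_EM_eq T S a η L]
  exact ma3b_sum S _ (fun m _ => ma3b_mul (ma3b_shift (ma3b_lin h1 1 (η / L)) (lK m)) _) A

theorem EM_continuous_pr (h : HD 𝔮 κ lam χ ψ) (T : TD K) (S : Finset (PK K →₀ ℕ))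
    (a : (PK K →₀ ℕ) → ℝ) (η L : ℝ) : Continuous (EM κ lam T ψ S a η L) := by
  have h1 := DT_continuous_pr h T
  rw [ma3b_EM_eq T S a η L]
  refine continuous_finsetSum _ fun m _ => continuous_const.mul ?_
  have h2 : Continuous (fun v : ℝ => ((1 + η / L * v : ℝ) : ℂ) * DT κ lam T ψ v) :=
    (Complex.continuous_ofReal.comp (by fun_prop)).mul h1
  exact h2.comp (by fun_prop : Continuous fun u : ℝ => u + lK m)

theorem E0_continuous_pr (κ : InfinitePlace K → ℤ) (lam : InfinitePlace K → ℝ) (T : TD K)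
    (η L : ℝ) : Continuous (E0 κ lam T η L) := by
  obtain ⟨C, c, hG⟩ := FT_good κ T
  unfold E0
  refine (Complex.continuous_ofReal.comp (by fun_prop)).mul
    ((Complex.continuous_ofReal.comp (by fun_prop)).mul (kint_continuous (hG lam)))

theorem ma3b_E0 (κ : InfinitePlace K → ℤ) (T : TD K) (η : ℝ) {A : ℝ} (hA : 0 < A) :
    ∃ C : ℝ, 0 ≤ C ∧ ∀ (lam : InfinitePlace K → ℝ) (L : ℝ), 1 ≤ L → ∀ u : ℝ,
      ‖E0 κ lam T η L u‖ ≤ C * Real.exp (|u| / 40 + u / 2 - A * u) := by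
  obtain ⟨C, c, hG⟩ := FT_good κ T
  have hC : 0 ≤ C := (hG 0).1
  obtain ⟨C', hC', hkg⟩ := kg_le (K := K) (hG 0).2.1 hA
  refine ⟨(1 + |η|) * 40 * (C * C'), by positivity, fun lam L hL u => ?_⟩
  unfold E0
  rw [norm_mul, norm_mul, Complex.norm_real, Complex.norm_real, Real.norm_eq_abs,
    Real.norm_of_nonneg (Real.exp_pos _).le]
  have h1 : |1 + η * u / L| ≤ (1 + |η|) * 40 * Real.exp (|u| / 40) := by
    have h2 : |η * u / L| ≤ |η| * |u| := by
      rw [abs_div, abs_mul, abs_of_pos (by linarith : 0 < L)]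
      exact div_le_self (by positivity) hL
    have h3 := abs_add_le 1 (η * u / L)
    rw [abs_one] at h3
    have h4 : |u| + 40 ≤ 40 * Real.exp (|u| / 40) := by
      have := Real.add_one_le_exp (|u| / 40)
      linarith
    have h5 : (1 + |η|) * (1 + |u|) ≤ (1 + |η|) * (40 * Real.exp (|u| / 40)) :=
      mul_le_mul_of_nonneg_left (by linarith) (by positivity)
    nlinarith [abs_nonneg η, abs_nonneg u]
  have h6 : ‖kint K (FT κ lam T) u‖ ≤ C * (C' * Real.exp (-(A * u))) :=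
    (kint_le (hG lam) u).trans (mul_le_mul_of_nonneg_left (hkg u) hC)
  calc |1 + η * u / L| * (Real.exp (u / 2) * ‖kint K (FT κ lam T) u‖)
      ≤ ((1 + |η|) * 40 * Real.exp (|u| / 40)) *
        (Real.exp (u / 2) * (C * (C' * Real.exp (-(A * u))))) := by
        refine mul_le_mul h1 ?_ (by positivity) (by positivity)
        exact mul_le_mul_of_nonneg_left h6 (Real.exp_pos _).le
    _ = (1 + |η|) * 40 * (C * C') *
        (Real.exp (|u| / 40) * Real.exp (u / 2) * Real.exp (-(A * u))) := by ring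
    _ = _ := by
        rw [← Real.exp_add, ← Real.exp_add]
        rfl

/-- `E0` is `O(e^{0.45 u})` at `-∞` and decays at `+∞`, uniformly in `lam` and `L ≥ 1` -/
theorem E0_decay_pr (κ : InfinitePlace K → ℤ) (T : TD K) (η : ℝ) {A : ℝ} (hA : 0 < A) :
    ∃ C : ℝ, 0 ≤ C ∧ ∀ (lam : InfinitePlace K → ℝ) (L : ℝ), 1 ≤ L → ∀ u : ℝ,
      ‖E0 κ lam T η L u‖ ≤ C * Real.exp (9 / 20 * u) ∧
      ‖E0 κ lam T η L u‖ ≤ C * Real.exp (-(A * u)) := by
  obtain ⟨C₁, hC₁, h₁⟩ := ma3b_E0 κ T η (A := 1 / 40) (by norm_num)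
  obtain ⟨C₂, hC₂, h₂⟩ := ma3b_E0 κ T η (A := 1) (by norm_num)
  obtain ⟨C₃, hC₃, h₃⟩ := ma3b_E0 κ T η (A := A + 1) (by linarith)
  obtain ⟨C₄, hC₄, h₄⟩ := ma3b_E0 κ T η (A := A) hA
  have key : ∀ (x C' s t : ℝ), 0 ≤ C' → C' ≤ C₁ + C₂ + C₃ + C₄ → s ≤ t → x ≤ C' * Real.exp s →
      x ≤ (C₁ + C₂ + C₃ + C₄) * Real.exp t := by
    intro x C' s t h0 hC hst hx
    refine hx.trans ?_
    exact mul_le_mul hC (Real.exp_le_exp.2 hst) (Real.exp_pos _).le (h0.trans hC)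
  refine ⟨C₁ + C₂ + C₃ + C₄, by positivity, fun lam L hL u => ⟨?_, ?_⟩⟩
  · rcases le_total 0 u with hu | hu
    · refine key _ _ _ _ hC₂ (by linarith) ?_ (h₂ lam L hL u)
      rw [abs_of_nonneg hu]
      linarith
    · refine key _ _ _ _ hC₁ (by linarith) ?_ (h₁ lam L hL u)
      rw [abs_of_nonpos hu]
      linarith
  · rcases le_total 0 u with hu | hu
    · refine key _ _ _ _ hC₃ (by linarith) ?_ (h₃ lam L hL u)
      rw [abs_of_nonneg hu]
      linarith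
    · refine key _ _ _ _ hC₄ (by linarith) ?_ (h₄ lam L hL u)
      rw [abs_of_nonpos hu]
      linarith


end Pool.Agent.LVK

namespace Pool.Agent.LVK

theorem DT_decay : type_of% @DT_decay_pr := @DT_decay_pr
theorem DT_continuous : type_of% @DT_continuous_pr := @DT_continuous_pr
theorem EM_decay : type_of% @EM_decay_pr := @EM_decay_pr
theorem EM_continuous : type_of% @EM_continuous_pr := @EM_continuous_pr
theorem E0_continuous : type_of% @E0_continuous_pr := @E0_continuous_pr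
theorem E0_decay : type_of% @E0_decay_pr := @E0_decay_pr

end Pool.Agent.LVK
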