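import Pool.Agent.Lib_helper42.LVK.Defs
import Pool.Agent.Lib_helper41.HZF.YB
import Pool.Agent.Lib_helper41.HZF.KG
import Pool.Agent.Lib_helper39.LVX.K_MA2

/-!
# LVK part M, block MA4A: the transforms
-/

namespace Pool.Agent.LVK

open NumberField NumberField.InfinitePlace NumberField.Units Complex MeasureTheory Filter Topology
open Pool.Agent.HZ Pool.Agent.AS Pool.Agent.KS

variable {K : Type} [Field K] [NumberField K]

variable {𝔮 : Ideal (𝓞 K)} {κ : InfinitePlace K → ℤ} {lam : InfinitePlace K → ℝ}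
  {χ : MulChar (𝓞 K ⧸ 𝔮) ℂ} {ψ : Ideal (𝓞 K) →* ℂ}

theorem C0_pos_pr : 0 < C0 K := (mellin_kint (K := K)).choose_spec.1

theorem C0_spec_pr (κ : InfinitePlace K → ℤ) (lam : InfinitePlace K → ℝ) {s : ℂ} (hs : 0 < s.re) :
    Integrable (fun u : ℝ => kint K (Gf κ lam) u * cexp (s * u)) ∧
      ∫ u : ℝ, kint K (Gf κ lam) u * cexp (s * u) = C0 K * gam κ lam s :=
  (mellin_kint (K := K)).choose_spec.2 κ lam s hs

theorem Xf_diff_pr (h : HD 𝔮 κ lam χ ψ) (T : TD K) : Differentiable ℂ (Xf κ lam T ψ) := by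
  unfold Xf PT
  refine Differentiable.mul ?_ h.differentiable
  refine Differentiable.fun_sum fun j _ => ?_
  refine (differentiable_const _).mul ?_
  fun_prop

theorem ma4a_int (h : HD 𝔮 κ lam χ ψ) (s : ℂ) :
    Integrable (fun u : ℝ => Dser ψ (Gf κ lam) u * cexp ((s - 1 / 2) * u)) := by
  obtain ⟨C, hC⟩ := h.decay (|s.re| + 2)
  have hc : Continuous (fun u : ℝ => Dser ψ (Gf κ lam) u * cexp ((s - 1 / 2) * u)) := by
    have := h.continuous
    fun_prop
  refine Integrable.mono' (exp_abs_integrable.const_mul C) hc.aestronglyMeasurable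
    (ae_of_all _ fun u => ?_)
  rw [norm_mul, Complex.norm_exp]
  have h1 : ((s - 1 / 2) * (u : ℂ)).re = (s.re - 1 / 2) * u := by
    rw [Complex.re_mul_ofReal]
    norm_num [Complex.sub_re]
  rw [h1]
  have hC0 : 0 ≤ C := by
    have := (norm_nonneg _).trans (hC 0)
    exact nonneg_of_mul_nonneg_left this (Real.exp_pos _)
  calc ‖Dser ψ (Gf κ lam) u‖ * Real.exp ((s.re - 1 / 2) * u)
      ≤ (C * Real.exp (-((|s.re| + 2) * |u|))) * Real.exp ((s.re - 1 / 2) * u) := by
        gcongr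
        exact hC u
    _ = C * Real.exp (-((|s.re| + 2) * |u|) + (s.re - 1 / 2) * u) := by
        rw [Real.exp_add, mul_assoc]
    _ ≤ C * Real.exp (-(1 * |u|)) := by
        gcongr
        have h2 : (s.re - 1 / 2) * u ≤ |s.re - 1 / 2| * |u| := by
          rw [← abs_mul]
          exact le_abs_self _
        have h3 : |s.re - 1 / 2| ≤ |s.re| + 1 / 2 := by
          refine (abs_sub _ _).trans ?_
          norm_num
        have h4 := mul_le_mul_of_nonneg_right h3 (abs_nonneg u)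
        nlinarith [abs_nonneg u]

theorem DT_mellin_pr (h : HD 𝔮 κ lam χ ψ) (T : TD K) (s : ℂ) :
    ∫ u : ℝ, DT κ lam T ψ u * cexp ((s - 1 / 2) * u) = Xf κ lam T ψ s := by
  have hψ : ∀ 𝔞, ‖ψ 𝔞‖ ≤ 1 := fun 𝔞 => h.hecke.norm_le 𝔞
  have hint := ma4a_int h s
  have h1 : ∀ u : ℝ, DT κ lam T ψ u * cexp ((s - 1 / 2) * u) = ∑ j, T.c j * eth lam (T.x j) *
      cexp ((s - 1 / 2) * T.u j) * (Dser ψ (Gf κ lam) (u - T.u j) *
        cexp ((s - 1 / 2) * ((u - T.u j : ℝ) : ℂ))) := by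
    intro u
    rw [DT_eq_pr κ h.hlam T hψ h.psi_bot, Finset.sum_mul]
    refine Finset.sum_congr rfl fun j _ => ?_
    have h2 : cexp ((s - 1 / 2) * u) = cexp ((s - 1 / 2) * T.u j) *
        cexp ((s - 1 / 2) * ((u - T.u j : ℝ) : ℂ)) := by
      rw [← Complex.exp_add]
      congr 1
      push_cast
      ring
    rw [h2]
    ring
  simp_rw [h1]
  rw [integral_finsetSum]
  · unfold Xf PT
    rw [Finset.sum_mul]
    refine Finset.sum_congr rfl fun j _ => ?_
    rw [integral_const_mul]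
    congr 1
    exact integral_sub_right_eq_self
      (fun u : ℝ => Dser ψ (Gf κ lam) u * cexp ((s - 1 / 2) * (u : ℂ))) (T.u j)
  · intro j _
    exact (hint.comp_sub_right (T.u j)).const_mul _

end Pool.Agent.LVK

namespace Pool.Agent.LVK

theorem C0_pos : type_of% @C0_pos_pr := @C0_pos_pr
theorem C0_spec : type_of% @C0_spec_pr := @C0_spec_pr
theorem Xf_diff : type_of% @Xf_diff_pr := @Xf_diff_pr
theorem DT_mellin : type_of% @DT_mellin_pr := @DT_mellin_pr

end Pool.Agent.LVK
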