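import Pool.Agent.Lib_helper42.LVK.Defs
import Pool.Agent.Lib_helper41.HZF.YB
import Pool.Agent.Lib_helper41.HZF.KG
import Pool.Agent.Lib_helper39.LVX.K_MA3B
import Pool.Agent.Lib_helper39.LVX.K_MA4A

/-!
# LVK part M, block MA4B: the transform of the mollified density
-/

namespace Pool.Agent.LVK

open NumberField NumberField.InfinitePlace NumberField.Units Complex MeasureTheory Filter Topology
open Pool.Agent.HZ Pool.Agent.AS Pool.Agent.KS

variable {K : Type} [Field K] [NumberField K]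

theorem ma4b_int_exp {r : ℝ} (hr : 0 < r) : Integrable (fun u : ℝ => Real.exp (-(r * |u|))) := by
  have h := exp_abs_integrable.comp_mul_left' hr.ne'
  refine h.congr (Eventually.of_forall fun u => ?_)
  simp only [one_mul, abs_mul, abs_of_pos hr]

/-- `|u| e^{-r|u|} ≤ (2/r) e^{-(r/2)|u|}` -/
theorem ma4b_abs_exp {r : ℝ} (hr : 0 < r) (u : ℝ) :
    |u| * Real.exp (-(r * |u|)) ≤ (2 / r) * Real.exp (-((r / 2) * |u|)) := by
  have h1 : (r / 2) * |u| ≤ Real.exp ((r / 2) * |u|) := by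
    have := Real.add_one_le_exp ((r / 2) * |u|)
    linarith
  have h2 : |u| ≤ (2 / r) * Real.exp ((r / 2) * |u|) := by
    rw [div_mul_eq_mul_div, le_div_iff₀ hr]
    nlinarith
  calc |u| * Real.exp (-(r * |u|)) ≤ (2 / r) * Real.exp ((r / 2) * |u|) * Real.exp (-(r * |u|)) :=
        mul_le_mul_of_nonneg_right h2 (Real.exp_pos _).le
    _ = (2 / r) * Real.exp (-((r / 2) * |u|)) := by
        rw [mul_assoc, ← Real.exp_add]
        congr 2
        ring

/-- the two-sided Laplace transform in a strip, and its derivative -/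
theorem ma4b_lap {G : ℝ → ℂ} (hG : AEStronglyMeasurable G volume) {C a b : ℝ}
    (h1 : ∀ u : ℝ, ‖G u‖ ≤ C * Real.exp (-(a * u))) (h2 : ∀ u : ℝ, ‖G u‖ ≤ C * Real.exp (-(b * u)))
    {s : ℂ} (hs1 : a < s.re) (hs2 : s.re < b) :
    Integrable (fun u : ℝ => G u * cexp (s * u)) ∧
      Integrable (fun u : ℝ => G u * (u * cexp (s * u))) ∧
      HasDerivAt (fun z : ℂ => ∫ u : ℝ, G u * cexp (z * u)) (∫ u : ℝ, G u * (u * cexp (s * u)))
        s := by
  have hC : 0 ≤ C := by
    have := h1 0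
    simp only [mul_zero, neg_zero, Real.exp_zero, mul_one] at this
    exact (norm_nonneg _).trans this
  set r : ℝ := min (s.re - a) (b - s.re) / 2 with hr
  have hr0 : 0 < r := by
    have : 0 < min (s.re - a) (b - s.re) := lt_min (by linarith) (by linarith)
    linarith
  have hra : 2 * r ≤ s.re - a := by
    have := min_le_left (s.re - a) (b - s.re)
    linarith
  have hrb : 2 * r ≤ b - s.re := by
    have := min_le_right (s.re - a) (b - s.re)
    linarith
  have key : ∀ u : ℝ, ∀ z ∈ Metric.ball s r, ‖G u‖ * Real.exp (z.re * u) ≤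
      C * Real.exp (-(r * |u|)) := by
    intro u z hz
    have hz1 : |z.re - s.re| < r := by
      have h3 : |(z - s).re| ≤ ‖z - s‖ := Complex.abs_re_le_norm _
      rw [Complex.sub_re] at h3
      exact h3.trans_lt (by simpa [dist_eq_norm] using hz)
    have hz2 := abs_lt.1 hz1
    rcases le_total 0 u with hu | hu
    · calc ‖G u‖ * Real.exp (z.re * u) ≤ C * Real.exp (-(b * u)) * Real.exp (z.re * u) :=
            mul_le_mul_of_nonneg_right (h2 u) (Real.exp_pos _).le
        _ = C * Real.exp (-(b * u) + z.re * u) := by rw [mul_assoc, ← Real.exp_add]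
        _ ≤ C * Real.exp (-(r * |u|)) := by
            apply mul_le_mul_of_nonneg_left _ hC
            apply Real.exp_le_exp.2
            rw [abs_of_nonneg hu]
            nlinarith
    · calc ‖G u‖ * Real.exp (z.re * u) ≤ C * Real.exp (-(a * u)) * Real.exp (z.re * u) :=
            mul_le_mul_of_nonneg_right (h1 u) (Real.exp_pos _).le
        _ = C * Real.exp (-(a * u) + z.re * u) := by rw [mul_assoc, ← Real.exp_add]
        _ ≤ C * Real.exp (-(r * |u|)) := by
            apply mul_le_mul_of_nonneg_left _ hC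
            apply Real.exp_le_exp.2
            rw [abs_of_nonpos hu]
            nlinarith
  have hnorm : ∀ (z : ℂ) (u : ℝ), ‖cexp (z * u)‖ = Real.exp (z.re * u) := by
    intro z u
    rw [Complex.norm_exp]
    congr 1
    simp
  have hmeas : ∀ z : ℂ, AEStronglyMeasurable (fun u : ℝ => G u * cexp (z * u)) volume := fun z =>
    hG.mul (by fun_prop : Continuous fun u : ℝ => cexp (z * u)).aestronglyMeasurable
  have hmeas' : ∀ z : ℂ, AEStronglyMeasurable (fun u : ℝ => G u * (u * cexp (z * u))) volume :=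
    fun z => hG.mul
      (by fun_prop : Continuous fun u : ℝ => (u : ℂ) * cexp (z * u)).aestronglyMeasurable
  have hint : Integrable (fun u : ℝ => G u * cexp (s * u)) := by
    refine ((ma4b_int_exp hr0).const_mul C).mono' (hmeas s) (Eventually.of_forall fun u => ?_)
    rw [norm_mul, hnorm]
    exact key u s (Metric.mem_ball_self hr0)
  have hbd : Integrable (fun u : ℝ => C * ((2 / r) * Real.exp (-((r / 2) * |u|)))) :=
    ((ma4b_int_exp (half_pos hr0)).const_mul (2 / r)).const_mul C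
  have hbound : ∀ u : ℝ, ∀ z ∈ Metric.ball s r, ‖G u * (u * cexp (z * u))‖ ≤
      C * ((2 / r) * Real.exp (-((r / 2) * |u|))) := by
    intro u z hz
    rw [norm_mul, norm_mul, hnorm, Complex.norm_real, Real.norm_eq_abs]
    calc ‖G u‖ * (|u| * Real.exp (z.re * u)) = |u| * (‖G u‖ * Real.exp (z.re * u)) := by ring
      _ ≤ |u| * (C * Real.exp (-(r * |u|))) :=
          mul_le_mul_of_nonneg_left (key u z hz) (abs_nonneg u)
      _ = C * (|u| * Real.exp (-(r * |u|))) := by ring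
      _ ≤ _ := mul_le_mul_of_nonneg_left (ma4b_abs_exp hr0 u) hC
  have hmain := hasDerivAt_integral_of_dominated_loc_of_deriv_le
    (F := fun (z : ℂ) (u : ℝ) => G u * cexp (z * u))
    (F' := fun (z : ℂ) (u : ℝ) => G u * (u * cexp (z * u))) (μ := volume) (x₀ := s)
    (s := Metric.ball s r) (Metric.ball_mem_nhds s hr0) (Eventually.of_forall hmeas) hint
    (hmeas' s) (Eventually.of_forall hbound) hbd
    (Eventually.of_forall fun u z _ => by
      have h4 : HasDerivAt (fun z : ℂ => z * (u : ℂ)) (u : ℂ) z := by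
        simpa using (hasDerivAt_id z).mul_const (u : ℂ)
      have h5 := (h4.cexp).const_mul (G u)
      simpa [mul_comm, mul_left_comm] using h5)
  exact ⟨hint, hmain.1, hmain.2⟩

theorem ma4b_nm_pos (g : PK K →₀ ℕ) : (0 : ℝ) < nm (NK K) g := by
  have h0 : ∀ p : PK K, 0 < NK K p := by
    intro p
    rw [Nat.pos_iff_ne_zero]
    intro h
    exact p.ne_bot (Ideal.absNorm_eq_zero_iff.mp h)
  have : 0 < nm (NK K) g := by
    unfold nm
    exact Finset.prod_pos fun p _ => pow_pos (h0 p) _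
  exact_mod_cast this

theorem ma4b_sqrt (g : PK K →₀ ℕ) :
    ((√(nm (NK K) g : ℝ))⁻¹ : ℝ) = Real.exp (-(lK g / 2)) := by
  rw [Real.exp_neg, lK, Real.exp_half, Real.exp_log (ma4b_nm_pos g)]

variable {𝔮 : Ideal (𝓞 K)} {κ : InfinitePlace K → ℤ} {lam : InfinitePlace K → ℝ}
  {χ : MulChar (𝓞 K ⧸ 𝔮) ℂ} {ψ : Ideal (𝓞 K) →* ℂ}

theorem ma4b_DT (h : HD 𝔮 κ lam χ ψ) (T : TD K) (s : ℂ) :
    Integrable (fun u : ℝ => DT κ lam T ψ u * cexp ((s - 1 / 2) * u)) ∧
      Integrable (fun u : ℝ => DT κ lam T ψ u * (u * cexp ((s - 1 / 2) * u))) ∧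
      HasDerivAt (Xf κ lam T ψ) (∫ u : ℝ, DT κ lam T ψ u * (u * cexp ((s - 1 / 2) * u))) s := by
  obtain ⟨C, hC⟩ := DT_decay h T (|(s - 1 / 2).re| + 1)
  have hC0 : 0 ≤ C := by
    have := hC 0
    simp only [abs_zero, mul_zero, neg_zero, Real.exp_zero, mul_one] at this
    exact (norm_nonneg _).trans this
  have hA : 0 ≤ |(s - 1 / 2).re| + 1 := by positivity
  have hbd : ∀ c : ℝ, |c| ≤ |(s - 1 / 2).re| + 1 → ∀ u : ℝ, ‖DT κ lam T ψ u‖ ≤
      C * Real.exp (-(c * u)) := by
    intro c hc u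
    refine (hC u).trans (mul_le_mul_of_nonneg_left (Real.exp_le_exp.2 ?_) hC0)
    have h1 : c * u ≤ |c| * |u| := by
      rw [← abs_mul]
      exact le_abs_self _
    have h2 := mul_le_mul_of_nonneg_right hc (abs_nonneg u)
    linarith
  have ha : |(s - 1 / 2).re - 1| ≤ |(s - 1 / 2).re| + 1 := by
    have := abs_sub (s - 1 / 2).re 1
    simpa using this
  have hb : |(s - 1 / 2).re + 1| ≤ |(s - 1 / 2).re| + 1 := by
    have := abs_add_le (s - 1 / 2).re 1
    simpa using this
  obtain ⟨i1, i2, i3⟩ := ma4b_lap (DT_continuous h T).aestronglyMeasurable (hbd _ ha) (hbd _ hb)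
    (s := s - 1 / 2) (by linarith) (by linarith)
  refine ⟨i1, i2, ?_⟩
  have h3 : HasDerivAt (fun z : ℂ => z - 1 / 2) 1 s := (hasDerivAt_id s).sub_const _
  have h4 := HasDerivAt.comp s i3 h3
  rw [mul_one] at h4
  refine h4.congr_of_eventuallyEq (Eventually.of_forall fun z => ?_)
  exact (DT_mellin h T z).symm

/-- the transform of the mollified density -/
theorem EM_mellin_pr (h : HD 𝔮 κ lam χ ψ) (T : TD K) (S : Finset (PK K →₀ ℕ))
    (a : (PK K →₀ ℕ) → ℝ) (η L : ℝ) (s : ℂ) :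
    ∫ u : ℝ, EM κ lam T ψ S a η L u * cexp ((s - 1 / 2) * u) =
      (Xf κ lam T ψ s + ((η / L : ℝ) : ℂ) * deriv (Xf κ lam T ψ) s) * Mf ψ S a s := by
  obtain ⟨i1, i2, i3⟩ := ma4b_DT h T s
  set Φ : ℝ → ℂ := fun w => DT κ lam T ψ w * cexp ((s - 1 / 2) * w) +
    ((η / L : ℝ) : ℂ) * (DT κ lam T ψ w * (w * cexp ((s - 1 / 2) * w))) with hΦ
  have hΦi : Integrable Φ := i1.add (i2.const_mul _)
  have hΦv : ∫ w, Φ w = Xf κ lam T ψ s + ((η / L : ℝ) : ℂ) * deriv (Xf κ lam T ψ) s := by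
    rw [hΦ, integral_add i1 (i2.const_mul _), integral_const_mul, DT_mellin h T s, i3.deriv]
  have hpt : ∀ u : ℝ, EM κ lam T ψ S a η L u * cexp ((s - 1 / 2) * u) =
      ∑ m ∈ S, ((a m : ℂ) * ψ (IK m) * cexp (-(s * lK m))) * Φ (u + lK m) := by
    intro u
    unfold EM
    rw [Finset.sum_mul]
    refine Finset.sum_congr rfl fun m _ => ?_
    rw [ma4b_sqrt, hΦ]
    have e1 : cexp (-(s * lK m)) * cexp ((s - 1 / 2) * ((u + lK m : ℝ) : ℂ)) =
        ((Real.exp (-(lK m / 2)) : ℝ) : ℂ) * cexp ((s - 1 / 2) * u) := by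
      rw [Complex.ofReal_exp, ← Complex.exp_add, ← Complex.exp_add]
      congr 1
      push_cast
      ring
    have e2 : ((1 + η * (u + lK m) / L : ℝ) : ℂ) = 1 + ((η / L : ℝ) : ℂ) * ((u + lK m : ℝ) : ℂ) := by
      push_cast
      ring
    rw [e2]
    calc (a m : ℂ) * ψ (IK m) * ((Real.exp (-(lK m / 2)) : ℝ) : ℂ) *
          (1 + ((η / L : ℝ) : ℂ) * ((u + lK m : ℝ) : ℂ)) * DT κ lam T ψ (u + lK m) *
          cexp ((s - 1 / 2) * u)
        = (a m : ℂ) * ψ (IK m) * (((Real.exp (-(lK m / 2)) : ℝ) : ℂ) *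
          cexp ((s - 1 / 2) * u)) *
          (1 + ((η / L : ℝ) : ℂ) * ((u + lK m : ℝ) : ℂ)) * DT κ lam T ψ (u + lK m) := by ring
      _ = _ := by
          rw [← e1]
          ring
  rw [integral_congr_ae (Eventually.of_forall hpt), integral_finsetSum _
    (fun m _ => (hΦi.comp_add_right (lK m)).const_mul _)]
  have hterm : ∀ m ∈ S, ∫ u : ℝ, ((a m : ℂ) * ψ (IK m) * cexp (-(s * lK m))) * Φ (u + lK m) =
      ((a m : ℂ) * ψ (IK m) * cexp (-(s * lK m))) * ∫ w, Φ w := by
    intro m _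
    rw [integral_const_mul, integral_add_right_eq_self Φ (lK m)]
  rw [Finset.sum_congr rfl hterm, ← Finset.sum_mul, hΦv, mul_comm]
  rfl


end Pool.Agent.LVK

namespace Pool.Agent.LVK

theorem EM_mellin : type_of% @EM_mellin_pr := @EM_mellin_pr

end Pool.Agent.LVK
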