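import Pool.Agent.Lib_helper42.LVK.Defs
import Pool.Agent.Lib_helper41.HZF.YB
import Pool.Agent.Lib_helper41.HZF.KG
import Pool.Agent.Lib_helper39.LVX.K_MA2
import Pool.Agent.Lib_helper39.LVX.K_MA3B
import Pool.Agent.Lib_helper39.LVX.K_MA4A
import Pool.Agent.Lib_helper39.LVX.K_MA4B

/-!
# LVK part M, block MA4C: the transform of the first term
-/

namespace Pool.Agent.LVK

open NumberField NumberField.InfinitePlace NumberField.Units Complex MeasureTheory Filter Topology
open Pool.Agent.HZ Pool.Agent.AS Pool.Agent.KS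

variable {K : Type} [Field K] [NumberField K]

/-- the basic density `e^{u/2} kint(F_T)(u)` -/
theorem ma4c_E0_eq (κ : InfinitePlace K → ℤ) (lam : InfinitePlace K → ℝ) (T : TD K)
    (η L u : ℝ) : E0 κ lam T η L u = (1 + ((η / L : ℝ) : ℂ) * u) * E0 κ lam T 0 1 u := by
  unfold E0
  push_cast
  ring

/-- the transform of the basic density -/
theorem ma4c_gh (κ : InfinitePlace K → ℤ) {lam : InfinitePlace K → ℝ}
    (hlam : ∑ w, lam w = 0) (T : TD K) {s : ℂ} (hs : 0 < s.re) :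
    ∫ u : ℝ, E0 κ lam T 0 1 u * cexp ((s - 1 / 2) * u) = gh κ lam T s := by
  obtain ⟨i1, i2⟩ := C0_spec (K := K) κ lam hs
  have hpt : ∀ u : ℝ, E0 κ lam T 0 1 u * cexp ((s - 1 / 2) * u) =
      ∑ j, (T.c j * eth lam (T.x j) * cexp ((s - 1 / 2) * T.u j)) *
        (fun v : ℝ => kint K (Gf κ lam) v * cexp (s * v)) (u - T.u j) := by
    intro u
    unfold E0
    rw [kint_FT κ hlam T u, Finset.mul_sum, Finset.mul_sum, Finset.sum_mul]
    refine Finset.sum_congr rfl fun j _ => ?_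
    have e1 : (Real.exp (u / 2) : ℂ) * (Real.exp (-(T.u j / 2)) : ℂ) * cexp ((s - 1 / 2) * u) =
        cexp ((s - 1 / 2) * T.u j) * cexp (s * ((u - T.u j : ℝ) : ℂ)) := by
      rw [Complex.ofReal_exp, Complex.ofReal_exp, ← Complex.exp_add, ← Complex.exp_add,
        ← Complex.exp_add]
      congr 1
      push_cast
      ring
    have e2 : ((1 + 0 * u / 1 : ℝ) : ℂ) = 1 := by
      push_cast
      ring
    rw [e2]
    calc (1 : ℂ) * ((Real.exp (u / 2) : ℂ) * (T.c j * (Real.exp (-(T.u j / 2)) : ℂ) *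
          eth lam (T.x j) * kint K (Gf κ lam) (u - T.u j))) * cexp ((s - 1 / 2) * u)
        = T.c j * eth lam (T.x j) * kint K (Gf κ lam) (u - T.u j) *
          ((Real.exp (u / 2) : ℂ) * (Real.exp (-(T.u j / 2)) : ℂ) * cexp ((s - 1 / 2) * u)) := by
          ring
      _ = _ := by
          rw [e1]
          ring
  rw [integral_congr_ae (Eventually.of_forall hpt), integral_finsetSum _
    (fun j _ => (i1.comp_sub_right (T.u j)).const_mul _)]
  have hterm : ∀ j ∈ Finset.univ, ∫ u : ℝ, (T.c j * eth lam (T.x j) *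
      cexp ((s - 1 / 2) * T.u j)) * (fun v : ℝ => kint K (Gf κ lam) v * cexp (s * v))
        (u - T.u j) = (T.c j * eth lam (T.x j) * cexp ((s - 1 / 2) * T.u j)) *
          (C0 K * gam κ lam s) := by
    intro j _
    rw [integral_const_mul,
      integral_sub_right_eq_self (fun v : ℝ => kint K (Gf κ lam) v * cexp (s * v)) (T.u j), i2]
  rw [Finset.sum_congr rfl hterm, ← Finset.sum_mul]
  rfl

theorem E0_mellin_pr (κ : InfinitePlace K → ℤ) {lam : InfinitePlace K → ℝ}
    (hlam : ∑ w, lam w = 0) (T : TD K) (η L : ℝ) {s : ℂ} (hs : 1 / 10 < s.re) :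
    ∫ u : ℝ, E0 κ lam T η L u * cexp ((s - 1 / 2) * u) =
      gh κ lam T s + ((η / L : ℝ) : ℂ) * deriv (gh κ lam T) s := by
  have hA : 0 < |(s - 1 / 2).re| + 1 := by positivity
  obtain ⟨C, hC0, hC⟩ := E0_decay κ T 0 hA
  have hb1 : ∀ u : ℝ, ‖E0 κ lam T 0 1 u‖ ≤ C * Real.exp (-(-(9 / 20) * u)) := by
    intro u
    have := (hC lam 1 le_rfl u).1
    rwa [show -(-(9 / 20 : ℝ) * u) = 9 / 20 * u by ring]
  have hb2 : ∀ u : ℝ, ‖E0 κ lam T 0 1 u‖ ≤ C * Real.exp (-((|(s - 1 / 2).re| + 1) * u)) :=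
    fun u => (hC lam 1 le_rfl u).2
  have hre : (s - 1 / 2).re = s.re - 1 / 2 := by
    rw [Complex.sub_re]
    norm_num
  have hs1 : -(9 / 20 : ℝ) < (s - 1 / 2).re := by
    rw [hre]
    linarith
  have hs2 : (s - 1 / 2).re < |(s - 1 / 2).re| + 1 := by
    have := le_abs_self (s - 1 / 2).re
    linarith
  obtain ⟨i1, i2, i3⟩ := ma4b_lap (E0_continuous κ lam T 0 1).aestronglyMeasurable hb1 hb2 hs1 hs2
  have hd : HasDerivAt (gh κ lam T) (∫ u : ℝ, E0 κ lam T 0 1 u * (u * cexp ((s - 1 / 2) * u)))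
      s := by
    have h3 : HasDerivAt (fun z : ℂ => z - 1 / 2) 1 s := (hasDerivAt_id s).sub_const _
    have h4 := HasDerivAt.comp s i3 h3
    rw [mul_one] at h4
    refine h4.congr_of_eventuallyEq ?_
    have h5 : ∀ᶠ z : ℂ in 𝓝 s, 0 < z.re :=
      (Complex.continuous_re.continuousAt).eventually (lt_mem_nhds (by linarith))
    filter_upwards [h5] with z hz
    exact (ma4c_gh κ hlam T hz).symm
  have hpt : ∀ u : ℝ, E0 κ lam T η L u * cexp ((s - 1 / 2) * u) =
      E0 κ lam T 0 1 u * cexp ((s - 1 / 2) * u) +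
        ((η / L : ℝ) : ℂ) * (E0 κ lam T 0 1 u * (u * cexp ((s - 1 / 2) * u))) := by
    intro u
    rw [ma4c_E0_eq]
    ring
  rw [integral_congr_ae (Eventually.of_forall hpt), integral_add i1 (i2.const_mul _),
    integral_const_mul, hd.deriv, ma4c_gh κ hlam T (by linarith)]


end Pool.Agent.LVK

namespace Pool.Agent.LVK

theorem E0_mellin : type_of% @E0_mellin_pr := @E0_mellin_pr

end Pool.Agent.LVK
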