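import Pool.Agent.Lib_helper42.LVK.Defs
import Pool.Agent.Lib_helper41.HZF.YB
import Pool.Agent.Lib_helper41.HZF.KG
import Pool.Agent.Lib_helper92.KSA.NZK
import Pool.Agent.Lib_helper39.LVX.K_MA4A

/-!
# LVK part M, block MA4D: the L-function
-/

namespace Pool.Agent.LVK

open NumberField NumberField.InfinitePlace NumberField.Units Complex MeasureTheory Filter Topology
open Pool.Agent.HZ Pool.Agent.AS Pool.Agent.KS

variable {K : Type} [Field K] [NumberField K]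

variable {𝔮 : Ideal (𝓞 K)} {κ : InfinitePlace K → ℤ} {lam : InfinitePlace K → ℝ}
  {χ : MulChar (𝓞 K ⧸ 𝔮) ℂ} {ψ : Ideal (𝓞 K) →* ℂ}

theorem ma4d_ne (κ : InfinitePlace K → ℤ) (lam : InfinitePlace K → ℝ) {s : ℂ} (hs : 0 < s.re) :
    (C0 K : ℂ) * gam κ lam s ≠ 0 :=
  mul_ne_zero (by exact_mod_cast (C0_pos_pr (K := K)).ne') (nzk_gam_ne κ lam hs)

/-- `X = ĝ L` on `Re s > 0` -/
theorem Xf_eq_pr (κ : InfinitePlace K → ℤ) (lam : InfinitePlace K → ℝ) (T : TD K)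
    (ψ : Ideal (𝓞 K) →* ℂ) {s : ℂ} (hs : 0 < s.re) :
    Xf κ lam T ψ s = gh κ lam T s * Lf κ lam ψ s := by
  unfold Xf gh Lf
  have h := ma4d_ne κ lam hs
  rw [mul_assoc, mul_div_cancel₀ _ h]

theorem Lf_series_pr (h : HD 𝔮 κ lam χ ψ) {s : ℂ} (hs : 1 < s.re) :
    Lf κ lam ψ s = ∑' 𝔞 : Ideal (𝓞 K), ψ 𝔞 * (Ideal.absNorm 𝔞 : ℂ) ^ (-s) := by
  have hψ : ∀ 𝔞, ‖ψ 𝔞‖ ≤ 1 := fun 𝔞 => h.hecke.norm_le 𝔞
  have h1 : LamD κ lam ψ s = (C0 K * gam κ lam s) *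
      ∑' 𝔞 : Ideal (𝓞 K), ψ 𝔞 * (Ideal.absNorm 𝔞 : ℂ) ^ (-s) := by
    unfold LamD
    rw [mellin_Dser hψ h.psi_bot hs, (C0_spec_pr κ lam (by linarith)).2]
  unfold Lf
  rw [h1, mul_div_cancel_left₀ _ (ma4d_ne κ lam (by linarith))]

/-- every completed function is `LamD / C₀` -/
theorem completed_eq_pr (h : HD 𝔮 κ lam χ ψ) {Λ : ℂ → ℂ} (hΛ : IsCompleted κ lam ψ Λ) (s : ℂ) :
    Λ s = (C0 K : ℂ)⁻¹ * LamD κ lam ψ s := by
  have hψ : ∀ 𝔞, ‖ψ 𝔞‖ ≤ 1 := fun 𝔞 => h.hecke.norm_le 𝔞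
  have h1 : LamD κ lam ψ s = C0 K * Λ s :=
    nzk_F_eq κ lam ψ hψ h.psi_bot (C0 K) (fun s hs => (C0_spec_pr κ lam hs).2)
      h.differentiable Λ hΛ s
  have h0 : (C0 K : ℂ) ≠ 0 := by exact_mod_cast (C0_pos_pr (K := K)).ne'
  rw [h1, ← mul_assoc, inv_mul_cancel₀ h0, one_mul]

end Pool.Agent.LVK

namespace Pool.Agent.LVK

theorem Xf_eq : type_of% @Xf_eq_pr := @Xf_eq_pr
theorem Lf_series : type_of% @Lf_series_pr := @Lf_series_pr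
theorem completed_eq : type_of% @completed_eq_pr := @completed_eq_pr

end Pool.Agent.LVK
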