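import Pool.Agent.Lib_helper42.LVK.Defs
import Pool.Agent.Lib_helper41.HZF.YB
import Pool.Agent.Lib_helper41.HZF.KG

/-!
# LVK block MB2: orthogonality over the class group
-/

namespace Pool.Agent.LVK

open NumberField NumberField.InfinitePlace NumberField.Units Complex MeasureTheory Filter Topology
open Pool.Agent.HZ Pool.Agent.AS Pool.Agent.KS

variable {K : Type} [Field K] [NumberField K]

variable {𝔮 : Ideal (𝓞 K)} {κ : InfinitePlace K → ℤ} {χ : MulChar (𝓞 K ⧸ 𝔮) ℂ}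

/-- the quotient of the two characters -/
noncomputable def mb2_eta (ψ ψ' : Ideal (𝓞 K) →* ℂ) (J : Ideal (𝓞 K)) : ℂ :=
  ψ J * starRingEnd ℂ (ψ' J)

omit [NumberField K] in
theorem mb2_eta_mul (ψ ψ' : Ideal (𝓞 K) →* ℂ) (J J' : Ideal (𝓞 K)) :
    mb2_eta ψ ψ' (J * J') = mb2_eta ψ ψ' J * mb2_eta ψ ψ' J' := by
  simp only [mb2_eta, map_mul]
  ring

omit [NumberField K] in
theorem mb2_ne_bot (h𝔮' : 𝔮 ≠ ⊤) {J : Ideal (𝓞 K)} (hJ : IsCoprime J 𝔮) : J ≠ ⊥ := by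
  rintro rfl
  rw [Ideal.isCoprime_iff_sup_eq, bot_sup_eq] at hJ
  exact h𝔮' hJ

theorem mb2_principal {lam : InfinitePlace K → ℝ}
    {ψ ψ' : Ideal (𝓞 K) →* ℂ} (h : IsHecke 𝔮 κ lam χ ψ) (h' : IsHecke 𝔮 κ lam χ ψ')
    {J : Ideal (𝓞 K)} (hJ : IsCoprime J 𝔮) (hp : J.IsPrincipal) : mb2_eta ψ ψ' J = 1 := by
  obtain ⟨τ, rfl⟩ := hp
  have hJ' : IsCoprime (Ideal.span {τ}) 𝔮 := hJ
  have hu : IsUnit (Ideal.Quotient.mk 𝔮 τ) := (RES_isUnit_iff τ).2 hJ'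
  show mb2_eta ψ ψ' (Ideal.span {τ}) = 1
  have e : ψ (Ideal.span {τ}) = ψ' (Ideal.span {τ}) := by
    rw [h.principal τ hu, h'.principal τ hu]
  rw [mb2_eta, e, Complex.mul_conj', h'.norm_eq_one _ hJ']
  norm_num

theorem mb2_class {lam : InfinitePlace K → ℝ}
    {ψ ψ' : Ideal (𝓞 K) →* ℂ} (h : IsHecke 𝔮 κ lam χ ψ) (h' : IsHecke 𝔮 κ lam χ ψ')
    {J J' : Ideal (𝓞 K)} (hJ : IsCoprime J 𝔮) (hJ' : IsCoprime J' 𝔮)
    (hJ0 : J ≠ ⊥) (hJ0' : J' ≠ ⊥)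
    (hc : ClassGroup.mk0 ⟨J, mem_nonZeroDivisors_of_ne_zero hJ0⟩ =
      ClassGroup.mk0 ⟨J', mem_nonZeroDivisors_of_ne_zero hJ0'⟩) :
    mb2_eta ψ ψ' J = mb2_eta ψ ψ' J' := by
  classical
  set N := Fintype.card (ClassGroup (𝓞 K)) with hN
  have hn : 0 < N := Fintype.card_pos
  have h1 : (J ^ N).IsPrincipal := by
    rw [← ClassGroup.mk0_eq_one_iff (pow_mem (mem_nonZeroDivisors_of_ne_zero hJ0) _)]
    have := pow_card_eq_one (x := ClassGroup.mk0 ⟨J, mem_nonZeroDivisors_of_ne_zero hJ0⟩)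
    rw [← map_pow] at this
    exact this
  have e1 : J * J ^ (N - 1) = J ^ N := by
    rw [← pow_succ', Nat.sub_add_cancel hn]
  have hpow0 : J ^ (N - 1) ≠ ⊥ := pow_ne_zero _ hJ0
  have h2 : (J' * J ^ (N - 1)).IsPrincipal := by
    rw [cls_principal_iff hJ0' hpow0, ← hc, ← cls_principal_iff hJ0 hpow0, e1]
    exact h1
  have hcop : IsCoprime (J ^ (N - 1)) 𝔮 := hJ.pow_left
  have h3 : mb2_eta ψ ψ' (J * J ^ (N - 1)) = 1 := by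
    rw [e1]
    exact mb2_principal h h' hJ.pow_left h1
  have h4 : mb2_eta ψ ψ' (J' * J ^ (N - 1)) = 1 :=
    mb2_principal h h' (hJ'.mul_left hcop) h2
  rw [mb2_eta_mul] at h3 h4
  have h5 : mb2_eta ψ ψ' (J ^ (N - 1)) ≠ 0 := by
    intro h0
    rw [h0, mul_zero] at h3
    exact zero_ne_one h3
  exact mul_right_cancel₀ h5 (h3.trans h4.symm)

theorem class_orth_pr (h𝔮 : 𝔮 ≠ ⊥) (h𝔮' : 𝔮 ≠ ⊤) {lam : InfinitePlace K → ℝ}
    {ψ ψ' : Ideal (𝓞 K) →* ℂ} (h : IsHecke 𝔮 κ lam χ ψ) (h' : IsHecke 𝔮 κ lam χ ψ')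
    (hne : ψ ≠ ψ')
    (rep : ClassGroup (𝓞 K) → Ideal (𝓞 K)) (h0 : ∀ c, rep c ≠ ⊥)
    (hrep : ∀ c, ClassGroup.mk0 ⟨rep c, mem_nonZeroDivisors_of_ne_zero (h0 c)⟩ = c)
    (g : ClassGroup (𝓞 K) → 𝓞 K) (hg : ∀ c, g c ∈ rep c) (hg0 : ∀ c, g c ≠ 0)
    (hgc : ∀ c, IsCoprime (quo (rep c) (g c)) 𝔮) :
    ∑ c, tw κ lam ψ (rep c) (g c) * starRingEnd ℂ (tw κ lam ψ' (rep c) (g c)) = 0 := by
  classical
  have hJ0 : ∀ c, quo (rep c) (g c) ≠ ⊥ := fun c => mb2_ne_bot h𝔮' (hgc c)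
  have hF : ∀ c, tw κ lam ψ (rep c) (g c) * starRingEnd ℂ (tw κ lam ψ' (rep c) (g c)) =
      mb2_eta ψ ψ' (quo (rep c) (g c)) := by
    intro c
    have hgK : ((g c : 𝓞 K) : K) ≠ 0 := by simpa using hg0 c
    have hn : ‖psiInf κ lam ((g c : 𝓞 K) : K)‖ = 1 := psiInf_norm κ lam hgK
    have hn' : (psiInf κ lam ((g c : 𝓞 K) : K))⁻¹ *
        starRingEnd ℂ ((psiInf κ lam ((g c : 𝓞 K) : K))⁻¹) = 1 := by
      rw [Complex.mul_conj', norm_inv, hn]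
      norm_num
    rw [tw, tw, mb2_eta, map_mul]
    calc ψ (quo (rep c) (g c)) * (psiInf κ lam ((g c : 𝓞 K) : K))⁻¹ *
          (starRingEnd ℂ (ψ' (quo (rep c) (g c))) *
            starRingEnd ℂ ((psiInf κ lam ((g c : 𝓞 K) : K))⁻¹)) =
        ψ (quo (rep c) (g c)) * starRingEnd ℂ (ψ' (quo (rep c) (g c))) *
          ((psiInf κ lam ((g c : 𝓞 K) : K))⁻¹ *
            starRingEnd ℂ ((psiInf κ lam ((g c : 𝓞 K) : K))⁻¹)) := by ring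
      _ = _ := by rw [hn', mul_one]
  have hcls : ∀ c, ClassGroup.mk0 ⟨quo (rep c) (g c), mem_nonZeroDivisors_of_ne_zero (hJ0 c)⟩ =
      c⁻¹ := by
    intro c
    have h1 : (rep c * quo (rep c) (g c)).IsPrincipal := by
      rw [quo_spec (hg c) (hg0 c)]
      exact ⟨g c, rfl⟩
    rw [cls_principal_iff (h0 c) (hJ0 c), hrep] at h1
    exact eq_inv_of_mul_eq_one_right h1
  obtain ⟨J₁, hJ₁, hJ₁n⟩ : ∃ J₁ : Ideal (𝓞 K), IsCoprime J₁ 𝔮 ∧ mb2_eta ψ ψ' J₁ ≠ 1 := by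
    by_contra hcon
    push Not at hcon
    apply hne
    ext J
    by_cases hJ : IsCoprime J 𝔮
    · have h1 := hcon J hJ
      have h2 : ψ' J * starRingEnd ℂ (ψ' J) = 1 := by
        rw [Complex.mul_conj', h'.norm_eq_one _ hJ]
        norm_num
      have h3 : starRingEnd ℂ (ψ' J) ≠ 0 := by
        intro h0
        rw [h0, mul_zero] at h2
        exact zero_ne_one h2
      exact mul_right_cancel₀ h3 (h1.trans h2.symm)
    · rw [h.eq_zero _ hJ, h'.eq_zero _ hJ]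
  have hJ₁0 : J₁ ≠ ⊥ := mb2_ne_bot h𝔮' hJ₁
  set c₁ : ClassGroup (𝓞 K) := ClassGroup.mk0 ⟨J₁, mem_nonZeroDivisors_of_ne_zero hJ₁0⟩ with hc₁
  rw [Finset.sum_congr rfl fun c _ => hF c]
  have hshift : ∀ c, mb2_eta ψ ψ' (quo (rep (c * c₁⁻¹)) (g (c * c₁⁻¹))) =
      mb2_eta ψ ψ' (quo (rep c) (g c)) * mb2_eta ψ ψ' J₁ := by
    intro c
    rw [← mb2_eta_mul]
    have hprod0 : quo (rep c) (g c) * J₁ ≠ ⊥ := mul_ne_zero (hJ0 c) hJ₁0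
    refine mb2_class h h' (hgc _) ((hgc c).mul_left hJ₁) (hJ0 _) hprod0 ?_
    rw [hcls, mul_inv_rev, inv_inv]
    have e : (⟨quo (rep c) (g c) * J₁, mem_nonZeroDivisors_of_ne_zero hprod0⟩ :
        nonZeroDivisors (Ideal (𝓞 K))) =
        ⟨quo (rep c) (g c), mem_nonZeroDivisors_of_ne_zero (hJ0 c)⟩ *
          ⟨J₁, mem_nonZeroDivisors_of_ne_zero hJ₁0⟩ := rfl
    rw [e, map_mul, hcls, mul_comm]
  have hsum : ∑ c, mb2_eta ψ ψ' (quo (rep c) (g c)) =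
      (∑ c, mb2_eta ψ ψ' (quo (rep c) (g c))) * mb2_eta ψ ψ' J₁ := by
    rw [Finset.sum_mul, ← Finset.sum_congr rfl fun c _ => hshift c]
    exact (Equiv.sum_comp (Equiv.mulRight c₁⁻¹)
      (fun c => mb2_eta ψ ψ' (quo (rep c) (g c)))).symm
  have h6 : (∑ c, mb2_eta ψ ψ' (quo (rep c) (g c))) * (1 - mb2_eta ψ ψ' J₁) = 0 := by
    rw [mul_sub, mul_one, ← hsum, sub_self]
  rcases mul_eq_zero.1 h6 with h7 | h7
  · exact h7
  · exact absurd (sub_eq_zero.1 h7).symm hJ₁n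


end Pool.Agent.LVK

namespace Pool.Agent.LVK

theorem class_orth : type_of% @class_orth_pr := @class_orth_pr

end Pool.Agent.LVK
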