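import Pool.Agent.Lib_helper42.LVK.Defs
import Pool.Agent.Lib_helper41.HZF.YB
import Pool.Agent.Lib_helper41.HZF.KG

/-!
# LVK block MB3A: Bessel's inequality, abstract form
-/

namespace Pool.Agent.LVK

open Complex MeasureTheory Filter Topology
open scoped ComplexConjugate

theorem mb3a_expand {ι : Type} (E : Finset ι) (H : ℝ) (a : ℂ) (S v : ι → ℂ) :
    ((‖a - (H : ℂ)⁻¹ * ∑ t ∈ E, S t * conj (v t)‖ ^ 2 : ℝ) : ℂ) =
      ((‖a‖ ^ 2 : ℝ) : ℂ) - (H : ℂ)⁻¹ * ∑ t ∈ E, conj (S t) * (v t * a) -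
        (H : ℂ)⁻¹ * ∑ t ∈ E, S t * conj (v t * a) +
        (H : ℂ)⁻¹ * (H : ℂ)⁻¹ * ∑ s ∈ E, ∑ t ∈ E, S s * conj (S t) * (v t * conj (v s)) := by
  have h1 : ∀ z : ℂ, ((‖z‖ ^ 2 : ℝ) : ℂ) = z * conj z := fun z => by
    rw [Complex.mul_conj, Complex.normSq_eq_norm_sq]
  rw [h1, h1, map_sub, map_mul, map_inv₀, Complex.conj_ofReal, map_sum]
  have h2 : ∀ t, conj (S t * conj (v t)) = conj (S t) * v t := fun t => by
    rw [map_mul, Complex.conj_conj]
  simp only [h2, map_mul]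
  have h3 : ∑ t ∈ E, conj (S t) * (v t * a) = (∑ t ∈ E, conj (S t) * v t) * a := by
    rw [Finset.sum_mul]
    exact Finset.sum_congr rfl fun t _ => by ring
  have h4 : ∑ t ∈ E, S t * (conj (v t) * conj a) = (∑ t ∈ E, S t * conj (v t)) * conj a := by
    rw [Finset.sum_mul]
    exact Finset.sum_congr rfl fun t _ => by ring
  have h5 : ∑ s ∈ E, ∑ t ∈ E, S s * conj (S t) * (v t * conj (v s)) =
      (∑ s ∈ E, S s * conj (v s)) * ∑ t ∈ E, conj (S t) * v t := by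
    rw [Finset.sum_mul_sum]
    exact Finset.sum_congr rfl fun s _ => Finset.sum_congr rfl fun t _ => by ring
  rw [h3, h4, h5]
  ring

theorem mb3a_int {X : Type} [MeasurableSpace X] {μ : Measure X} {a b c d : X → ℂ}
    (ha : Integrable a μ) (hb : Integrable b μ) (hc : Integrable c μ) (hd : Integrable d μ) :
    ∫ x, (a x - b x - c x + d x) ∂μ = ∫ x, a x ∂μ - ∫ x, b x ∂μ - ∫ x, c x ∂μ + ∫ x, d x ∂μ := by
  have h1 : Integrable (fun x => a x - b x) μ := ha.sub hb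
  have h2 : Integrable (fun x => a x - b x - c x) μ := h1.sub hc
  rw [integral_add h2 hd, integral_sub h1 hc, integral_sub ha hb]

/-- abstract form: `v_t(c,x) = w_t(c) e_t(x)` orthogonal of norm² `H` -/
theorem bessel_abs_pr {ι κ' : Type} [Fintype κ'] {r : ℕ} (E : Finset ι) (H : ℝ) (hH : 0 < H)
    (w : ι → κ' → ℂ) (e : ι → (Fin r → ℝ) → ℂ) (he : ∀ t, Continuous (e t))
    (horth : ∀ s ∈ E, ∀ t ∈ E, s ≠ t →
      (∑ c, w s c * starRingEnd ℂ (w t c)) * ∫ x in Set.Icc (0 : Fin r → ℝ) 1,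
        e s x * starRingEnd ℂ (e t x) = 0)
    (hnorm : ∀ t ∈ E, (∑ c, w t c * starRingEnd ℂ (w t c)) * ∫ x in Set.Icc (0 : Fin r → ℝ) 1,
        e t x * starRingEnd ℂ (e t x) = H)
    (A : κ' → (Fin r → ℝ) → ℂ) (hA1 : ∀ c, IntegrableOn (A c) (Set.Icc 0 1))
    (hA2 : ∀ c, IntegrableOn (fun x => ‖A c x‖ ^ 2) (Set.Icc 0 1)) :
    ∑ t ∈ E, ‖∑ c, w t c * ∫ x in Set.Icc (0 : Fin r → ℝ) 1, e t x * A c x‖ ^ 2 ≤
      H * ∑ c, ∫ x in Set.Icc (0 : Fin r → ℝ) 1, ‖A c x‖ ^ 2 := by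
  classical
  have hQc : IsCompact (Set.Icc (0 : Fin r → ℝ) 1) := isCompact_Icc
  have hcj : Continuous (fun z : ℂ => conj z) := Complex.continuous_conj
  have hee : ∀ s t, IntegrableOn (fun x => e s x * conj (e t x)) (Set.Icc (0 : Fin r → ℝ) 1) :=
    fun s t => ((he s).mul (hcj.comp (he t))).continuousOn.integrableOn_compact hQc
  have heA : ∀ t c, IntegrableOn (fun x => e t x * A c x) (Set.Icc (0 : Fin r → ℝ) 1) :=
    fun t c => (hA1 c).continuousOn_mul (he t).continuousOn hQc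
  have heA' : ∀ t c, IntegrableOn (fun x => conj (e t x * A c x)) (Set.Icc (0 : Fin r → ℝ) 1) :=
    fun t c => Complex.conjLIE.toContinuousLinearEquiv.toContinuousLinearMap.integrable_comp
      (heA t c)
  have hA3 : ∀ c, IntegrableOn (fun x => ((‖A c x‖ ^ 2 : ℝ) : ℂ)) (Set.Icc (0 : Fin r → ℝ) 1) :=
    fun c => (hA2 c).ofReal
  set I : ι → κ' → ℂ := fun t c => ∫ x in Set.Icc (0 : Fin r → ℝ) 1, e t x * A c x with hI
  set M : ι → ι → ℂ := fun s t => ∫ x in Set.Icc (0 : Fin r → ℝ) 1, e s x * conj (e t x) with hM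
  set J : κ' → ℝ := fun c => ∫ x in Set.Icc (0 : Fin r → ℝ) 1, ‖A c x‖ ^ 2 with hJ
  set S : ι → ℂ := fun t => ∑ c, w t c * I t c with hS
  set G : κ' → (Fin r → ℝ) → ℂ := fun c x =>
    A c x - (H : ℂ)⁻¹ * ∑ t ∈ E, S t * conj (w t c * e t x) with hG
  have hint : ∀ c, ((∫ x in Set.Icc (0 : Fin r → ℝ) 1, ‖G c x‖ ^ 2 : ℝ) : ℂ) =
      (J c : ℂ) - (H : ℂ)⁻¹ * ∑ t ∈ E, conj (S t) * (w t c * I t c) -
        (H : ℂ)⁻¹ * ∑ t ∈ E, S t * conj (w t c * I t c) +
        (H : ℂ)⁻¹ * (H : ℂ)⁻¹ * ∑ s ∈ E, ∑ t ∈ E, S s * conj (S t) *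
          ((w t c * conj (w s c)) * M t s) := by
    intro c
    have e1 : (fun x => ((‖G c x‖ ^ 2 : ℝ) : ℂ)) = fun x =>
        ((‖A c x‖ ^ 2 : ℝ) : ℂ) - (H : ℂ)⁻¹ * ∑ t ∈ E, conj (S t) * w t c * (e t x * A c x) -
        (H : ℂ)⁻¹ * ∑ t ∈ E, S t * conj (w t c) * conj (e t x * A c x) +
        (H : ℂ)⁻¹ * (H : ℂ)⁻¹ * ∑ s ∈ E, ∑ t ∈ E, S s * conj (S t) *
          (w t c * conj (w s c)) * (e t x * conj (e s x)) := by
      funext x
      rw [hG]
      simp only []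
      rw [mb3a_expand E H (A c x) S fun t => w t c * e t x]
      congr 1
      · congr 1
        · congr 2
          exact Finset.sum_congr rfl fun t _ => by ring
        · congr 1
          refine Finset.sum_congr rfl fun t _ => ?_
          simp only [map_mul]
          ring
      · congr 1
        refine Finset.sum_congr rfl fun s _ => Finset.sum_congr rfl fun t _ => ?_
        simp only [map_mul]
        ring
    have i1 : Integrable (fun x => (H : ℂ)⁻¹ * ∑ t ∈ E, conj (S t) * w t c * (e t x * A c x))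
        (volume.restrict (Set.Icc (0 : Fin r → ℝ) 1)) :=
      (integrable_finsetSum _ fun t _ => (heA t c).const_mul _).const_mul _
    have i2 : Integrable (fun x => (H : ℂ)⁻¹ * ∑ t ∈ E, S t * conj (w t c) *
        conj (e t x * A c x)) (volume.restrict (Set.Icc (0 : Fin r → ℝ) 1)) :=
      (integrable_finsetSum _ fun t _ => (heA' t c).const_mul _).const_mul _
    have i3 : Integrable (fun x => (H : ℂ)⁻¹ * (H : ℂ)⁻¹ * ∑ s ∈ E, ∑ t ∈ E, S s * conj (S t) *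
          (w t c * conj (w s c)) * (e t x * conj (e s x)))
          (volume.restrict (Set.Icc (0 : Fin r → ℝ) 1)) :=
      (integrable_finsetSum _ fun s _ => integrable_finsetSum _ fun t _ =>
        (hee t s).const_mul _).const_mul _
    have i0 : Integrable (fun x => ((‖A c x‖ ^ 2 : ℝ) : ℂ))
        (volume.restrict (Set.Icc (0 : Fin r → ℝ) 1)) := hA3 c
    have e0 : ((∫ x in Set.Icc (0 : Fin r → ℝ) 1, ‖G c x‖ ^ 2 : ℝ) : ℂ) =
        ∫ x in Set.Icc (0 : Fin r → ℝ) 1, ((‖G c x‖ ^ 2 : ℝ) : ℂ) :=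
      integral_complex_ofReal.symm
    rw [e0, e1]
    rw [mb3a_int i0 i1 i2 i3,
      integral_complex_ofReal, integral_const_mul, integral_const_mul, integral_const_mul,
      integral_finsetSum _ (fun t _ => (heA t c).const_mul _),
      integral_finsetSum _ (fun t _ => (heA' t c).const_mul _),
      integral_finsetSum _ (fun s _ => integrable_finsetSum _ fun t _ =>
        (hee t s).const_mul _)]
    congr 1
    · congr 1
      · congr 2
        refine Finset.sum_congr rfl fun t _ => ?_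
        rw [integral_const_mul, mul_assoc]
      · congr 1
        refine Finset.sum_congr rfl fun t _ => ?_
        rw [integral_const_mul, integral_conj, map_mul, mul_assoc]
    · congr 1
      refine Finset.sum_congr rfl fun s _ => ?_
      rw [integral_finsetSum _ (fun t _ => (hee t s).const_mul _)]
      refine Finset.sum_congr rfl fun t _ => ?_
      rw [integral_const_mul, mul_assoc (S s * conj (S t))]
  have hH0 : (H : ℂ) ≠ 0 := by exact_mod_cast hH.ne'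
  have hsum : ((∑ c, ∫ x in Set.Icc (0 : Fin r → ℝ) 1, ‖G c x‖ ^ 2 : ℝ) : ℂ) =
      ((∑ c, J c - H⁻¹ * ∑ t ∈ E, ‖S t‖ ^ 2 : ℝ) : ℂ) := by
    push_cast
    have h0 : ∀ c, (((∫ x in Set.Icc (0 : Fin r → ℝ) 1, ‖G c x‖ ^ 2 : ℝ)) : ℂ) = _ := hint
    rw [Finset.sum_congr rfl fun c _ => h0 c]
    rw [Finset.sum_add_distrib, Finset.sum_sub_distrib, Finset.sum_sub_distrib, ← Finset.mul_sum,
      ← Finset.mul_sum, ← Finset.mul_sum]
    have h1 : ∑ c, ∑ t ∈ E, conj (S t) * (w t c * I t c) = ∑ t ∈ E, ((‖S t‖ : ℝ) : ℂ) ^ 2 := by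
      rw [Finset.sum_comm]
      refine Finset.sum_congr rfl fun t _ => ?_
      rw [← Finset.mul_sum, ← Complex.conj_mul']
    have h2 : ∑ c, ∑ t ∈ E, S t * conj (w t c * I t c) = ∑ t ∈ E, ((‖S t‖ : ℝ) : ℂ) ^ 2 := by
      rw [Finset.sum_comm]
      refine Finset.sum_congr rfl fun t _ => ?_
      rw [← Finset.mul_sum, ← map_sum, ← Complex.mul_conj']
    have h3 : ∑ c, ∑ s ∈ E, ∑ t ∈ E, S s * conj (S t) * ((w t c * conj (w s c)) * M t s) =
        (H : ℂ) * ∑ t ∈ E, ((‖S t‖ : ℝ) : ℂ) ^ 2 := by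
      rw [Finset.sum_comm, Finset.mul_sum]
      refine Finset.sum_congr rfl fun s hs => ?_
      rw [Finset.sum_comm]
      have h4 : ∀ t ∈ E, ∑ c, S s * conj (S t) * ((w t c * conj (w s c)) * M t s) =
          if t = s then (H : ℂ) * ((‖S s‖ : ℝ) : ℂ) ^ 2 else 0 := by
        intro t ht
        rw [← Finset.mul_sum, ← Finset.sum_mul]
        split_ifs with h
        · subst h
          rw [hnorm t ht, Complex.mul_conj', mul_comm]
        · rw [horth t ht s hs h, mul_zero]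
      rw [Finset.sum_congr rfl h4, Finset.sum_ite_eq' E s, if_pos hs]
    rw [h1, h2, h3]
    field_simp
    ring
  have hnn : 0 ≤ ∑ c, ∫ x in Set.Icc (0 : Fin r → ℝ) 1, ‖G c x‖ ^ 2 :=
    Finset.sum_nonneg fun c _ => integral_nonneg fun x => by positivity
  have h6 : ∑ c, ∫ x in Set.Icc (0 : Fin r → ℝ) 1, ‖G c x‖ ^ 2 =
      ∑ c, J c - H⁻¹ * ∑ t ∈ E, ‖S t‖ ^ 2 := by exact_mod_cast hsum
  rw [h6] at hnn
  have h7 : H⁻¹ * ∑ t ∈ E, ‖S t‖ ^ 2 ≤ ∑ c, J c := by linarith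
  have h8 := mul_le_mul_of_nonneg_left h7 hH.le
  rwa [← mul_assoc, mul_inv_cancel₀ hH.ne', one_mul] at h8


end Pool.Agent.LVK

namespace Pool.Agent.LVK

theorem bessel_abs : type_of% @bessel_abs_pr := @bessel_abs_pr

end Pool.Agent.LVK
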