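import Pool.Agent.Lib_helper42.LVK.Defs
import Pool.Agent.Lib_helper41.HZF.YB
import Pool.Agent.Lib_helper41.HZF.KG
import Pool.Agent.Lib_helper39.LVX.K_MB1
import Pool.Agent.Lib_helper39.LVX.K_MB2
import Pool.Agent.Lib_helper39.LVX.K_MB3A

/-!
# LVK block MB3B (helper26): Bessel's inequality over the characters with the same finite part
-/

namespace Pool.Agent.LVK

open NumberField NumberField.InfinitePlace NumberField.Units Complex MeasureTheory Filter Topology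
open Pool.Agent.HZ Pool.Agent.AS Pool.Agent.KS

variable {K : Type} [Field K] [NumberField K]

variable {𝔮 : Ideal (𝓞 K)} {κ : InfinitePlace K → ℤ} {χ : MulChar (𝓞 K ⧸ 𝔮) ℂ}

theorem mb3b_cont (lam : InfinitePlace K → ℝ) : Continuous (eth lam) := by
  unfold eth
  fun_prop

theorem torus_bessel_pr (h𝔮 : 𝔮 ≠ ⊥) (h𝔮' : 𝔮 ≠ ⊤)
    (rep : ClassGroup (𝓞 K) → Ideal (𝓞 K)) (h0 : ∀ c, rep c ≠ ⊥)
    (hrep : ∀ c, ClassGroup.mk0 ⟨rep c, mem_nonZeroDivisors_of_ne_zero (h0 c)⟩ = c)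
    (g : ClassGroup (𝓞 K) → 𝓞 K) (hg : ∀ c, g c ∈ rep c) (hg0 : ∀ c, g c ≠ 0)
    (hgc : ∀ c, IsCoprime (quo (rep c) (g c)) 𝔮)
    (E : Finset (HDat 𝔮)) (hE : ∀ t ∈ E, t ∈ FamK 𝔮 κ ∧ t.χ = χ)
    (A : ClassGroup (𝓞 K) → (Fin (rank K) → ℝ) → ℂ)
    (hA1 : ∀ c, IntegrableOn (A c) (Set.Icc 0 1))
    (hA2 : ∀ c, IntegrableOn (fun x => ‖A c x‖ ^ 2) (Set.Icc 0 1)) :
    ∑ t ∈ E, ‖∑ c, tw κ t.lam t.ψ (rep c) (g c) *
        ∫ x in Set.Icc (0 : Fin (rank K) → ℝ) 1, eth t.lam x * A c x‖ ^ 2 ≤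
      classNumber K * ∑ c, ∫ x in Set.Icc (0 : Fin (rank K) → ℝ) 1, ‖A c x‖ ^ 2 := by
  have hEh : ∀ t ∈ E, IsHecke 𝔮 κ t.lam χ t.ψ ∧ ∑ w, t.lam w = 0 := by
    intro t ht
    obtain ⟨⟨h1, h2, h3, h4⟩, h5⟩ := hE t ht
    rw [h1, h5] at h3
    exact ⟨h3, h4⟩
  have hH : (0 : ℝ) < (classNumber K : ℝ) := by
    have := NumberField.classNumber_ne_zero K
    positivity
  refine bessel_abs (κ' := ClassGroup (𝓞 K)) E (classNumber K : ℝ) hH
    (fun t c => tw κ t.lam t.ψ (rep c) (g c)) (fun t => eth t.lam) (fun t => mb3b_cont t.lam)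
    ?_ ?_ A hA1 hA2
  · intro s hs t ht hst
    obtain ⟨hs1, hs2⟩ := hEh s hs
    obtain ⟨ht1, ht2⟩ := hEh t ht
    by_cases hl : s.lam = t.lam
    · have hψ : s.ψ ≠ t.ψ := by
        intro hψ
        apply hst
        obtain ⟨⟨h1, -, -, -⟩, h5⟩ := hE s hs
        obtain ⟨⟨h1', -, -, -⟩, h5'⟩ := hE t ht
        cases s
        cases t
        simp only at h1 h1' h5 h5' hl hψ
        subst h1 h5 hl hψ
        rw [h1', h5']
      have ht1' : IsHecke 𝔮 κ s.lam χ t.ψ := by rw [hl]; exact ht1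
      have h2 := class_orth h𝔮 h𝔮' hs1 ht1' hψ rep h0 hrep g hg hg0 hgc
      have h3 : ∑ c, tw κ s.lam s.ψ (rep c) (g c) *
          starRingEnd ℂ (tw κ t.lam t.ψ (rep c) (g c)) = 0 := by
        rw [← hl]; exact h2
      rw [h3, zero_mul]
    · have h2 := eth_orth hs1 ht1 hs2 ht2
      rw [if_neg hl] at h2
      rw [h2, mul_zero]
  · intro t ht
    obtain ⟨ht1, ht2⟩ := hEh t ht
    have h2 := eth_orth ht1 ht1 ht2 ht2
    rw [if_pos rfl] at h2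
    rw [h2, mul_one]
    have h3 : ∀ c, tw κ t.lam t.ψ (rep c) (g c) *
        starRingEnd ℂ (tw κ t.lam t.ψ (rep c) (g c)) = 1 := by
      intro c
      rw [Complex.mul_conj, Complex.normSq_eq_norm_sq, tw_norm ht1 (hg0 c) (hgc c)]
      simp
    rw [Finset.sum_congr rfl (fun c _ => h3 c)]
    simp [classNumber]


end Pool.Agent.LVK

namespace Pool.Agent.LVK

theorem torus_bessel : type_of% @torus_bessel_pr := @torus_bessel_pr

end Pool.Agent.LVK
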