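import Pool.Agent.Lib_helper42.LVK.Defs
import Pool.Agent.Lib_helper92.KSA.BRG

/-! Block MC4B (LVK): the number of prime divisors. -/

namespace Pool.Agent.LVK

open NumberField NumberField.InfinitePlace NumberField.Units Complex MeasureTheory Filter Topology
open Pool.Agent.HZ Pool.Agent.AS Pool.Agent.KS

theorem mc4b_finite (K : Type) [Field K] [NumberField K] (n : ℕ) :
    {p : PK K | NK K p ≤ n}.Finite := by
  have h1 : {I : Ideal (𝓞 K) | Ideal.absNorm I ≤ n}.Finite :=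
    Ideal.finite_setOfPred_absNorm_le n
  exact (h1.preimage (f := fun p : PK K => p.asIdeal)
    (fun p _ q _ h => IsDedekindDomain.HeightOneSpectrum.ext h)).subset fun p hp => hp

/-- `4^{ω(𝔮)} = O(N𝔮^ε)` -/
theorem four_omega_pr (K : Type) [Field K] [NumberField K] {ε : ℝ} (hε : 0 < ε) :
    ∃ C : ℝ, 1 ≤ C ∧ ∀ 𝔮 : Ideal (𝓞 K), 𝔮 ≠ ⊥ →
      (4 : ℝ) ^ (QK 𝔮).card ≤ C * (Ideal.absNorm 𝔮 : ℝ) ^ ε := by
  classical
  obtain ⟨n, hn⟩ : ∃ n : ℕ, Real.exp (Real.log 4 / ε) ≤ n := exists_nat_ge _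
  obtain ⟨T, hT⟩ : ∃ T : Finset (PK K), ∀ p : PK K, p ∉ T → n < NK K p := by
    refine ⟨(mc4b_finite K n).toFinset, fun p hp => ?_⟩
    rw [Set.Finite.mem_toFinset, Set.mem_setOf_eq, not_le] at hp
    exact hp
  have hlog : ∀ p : PK K, p ∉ T → Real.log 4 ≤ ε * Real.log (NK K p) := by
    intro p hp
    have h1 : Real.exp (Real.log 4 / ε) ≤ (NK K p : ℝ) :=
      hn.trans (by exact_mod_cast (hT p hp).le)
    have h2 : Real.log 4 / ε ≤ Real.log (NK K p) := by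
      rw [← Real.log_exp (Real.log 4 / ε)]
      exact Real.log_le_log (Real.exp_pos _) h1
    rw [div_le_iff₀ hε] at h2
    linarith
  refine ⟨4 ^ T.card, one_le_pow₀ (by norm_num), fun 𝔮 h𝔮 => ?_⟩
  have hN : 0 < (Ideal.absNorm 𝔮 : ℝ) := by
    have : Ideal.absNorm 𝔮 ≠ 0 := fun h => h𝔮 (Ideal.absNorm_eq_zero_iff.mp h)
    exact_mod_cast Nat.pos_of_ne_zero this
  have hcard : (QK 𝔮).card ≤ T.card + (QK 𝔮 \ T).card := by
    have := Finset.card_le_card_sdiff_add_card (s := QK 𝔮) (t := T)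
    omega
  have h3 : (4 : ℝ) ^ (QK 𝔮 \ T).card ≤ (Ideal.absNorm 𝔮 : ℝ) ^ ε := by
    have h4 : (4 : ℝ) ^ (QK 𝔮 \ T).card = Real.exp (∑ p ∈ QK 𝔮 \ T, Real.log 4) := by
      rw [Finset.sum_const, nsmul_eq_mul, Real.exp_nat_mul, Real.exp_log (by norm_num)]
    rw [h4, Real.rpow_def_of_pos hN]
    apply Real.exp_le_exp.mpr
    calc ∑ p ∈ QK 𝔮 \ T, Real.log 4 ≤ ∑ p ∈ QK 𝔮 \ T, ε * Real.log (NK K p) :=
          Finset.sum_le_sum fun p hp => hlog p (Finset.mem_sdiff.mp hp).2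
      _ ≤ ∑ p ∈ QK 𝔮, ε * Real.log (NK K p) :=
          Finset.sum_le_sum_of_subset_of_nonneg Finset.sdiff_subset fun p _ _ =>
            mul_nonneg hε.le (Real.log_natCast_nonneg _)
      _ = ε * ∑ p ∈ QK 𝔮, Real.log (NK K p) := by rw [Finset.mul_sum]
      _ ≤ ε * Real.log (Ideal.absNorm 𝔮) := mul_le_mul_of_nonneg_left (sum_log_QK_pr h𝔮) hε.le
      _ = Real.log (Ideal.absNorm 𝔮) * ε := mul_comm _ _
  calc (4 : ℝ) ^ (QK 𝔮).card ≤ 4 ^ (T.card + (QK 𝔮 \ T).card) :=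
        pow_le_pow_right₀ (by norm_num) hcard
    _ = 4 ^ T.card * 4 ^ (QK 𝔮 \ T).card := pow_add _ _ _
    _ ≤ 4 ^ T.card * (Ideal.absNorm 𝔮 : ℝ) ^ ε := mul_le_mul_of_nonneg_left h3 (by positivity)

end Pool.Agent.LVK

namespace Pool.Agent.LVK

theorem four_omega : type_of% @four_omega_pr := @four_omega_pr

end Pool.Agent.LVK
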