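import Pool.Agent.Lib_helper42.LVK.Defs
import Pool.Agent.Lib_helper92.KSA.BRG
import Pool.Agent.Lib_helper39.LVX.K_MC2
import Pool.Agent.Lib_helper39.LVX.K_MC3A

/-!
# LVK block MC5: the quadratic form of the primitive characters
-/

namespace Pool.Agent.LVK

open NumberField NumberField.InfinitePlace NumberField.Units Complex MeasureTheory Filter Topology
open Pool.Agent.HZ Pool.Agent.AS Pool.Agent.KS

variable {K : Type} [Field K] [NumberField K]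

variable {𝔮 : Ideal (𝓞 K)}

theorem mc5_finite (h𝔮 : 𝔮 ≠ ⊥) : Finite (𝓞 K ⧸ 𝔮) :=
  Ideal.finiteQuotientOfFreeOfNeBot 𝔮 h𝔮

theorem mc5_norm (h𝔮 : 𝔮 ≠ ⊥) (χ : MulChar (𝓞 K ⧸ 𝔮) ℂ) (x : 𝓞 K ⧸ 𝔮) : ‖χ x‖ ≤ 1 := by
  have := mc5_finite h𝔮
  by_cases hx : IsUnit x
  · obtain ⟨u, rfl⟩ := hx
    have : Finite (𝓞 K ⧸ 𝔮)ˣ := inferInstance
    have h1 : u ^ Nat.card (𝓞 K ⧸ 𝔮)ˣ = 1 := pow_card_eq_one'
    have h2 : (χ (u : 𝓞 K ⧸ 𝔮)) ^ Nat.card (𝓞 K ⧸ 𝔮)ˣ = 1 := by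
      rw [← map_pow, ← Units.val_pow_eq_pow_val, h1, Units.val_one, map_one]
    have h3 : ‖χ (u : 𝓞 K ⧸ 𝔮)‖ ^ Nat.card (𝓞 K ⧸ 𝔮)ˣ = 1 := by
      rw [← norm_pow, h2, norm_one]
    exact ((pow_eq_one_iff_of_nonneg (norm_nonneg _) Nat.card_pos.ne').mp h3).le
  · rw [MulChar.map_nonunit χ hx, norm_zero]
    exact zero_le_one

open scoped Classical in
theorem mc5_summable {ι : Type} (a : ι → 𝓞 K) (A : ι → ℂ) (hA : Summable fun i => ‖A i‖)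
    (S : Finset (PK K)) : Summable fun p : ι × ι =>
      if p.1 ≠ p.2 ∧ a p.1 - a p.2 ∈ dS 𝔮 S then ‖A p.1‖ * ‖A p.2‖ else 0 := by
  have h := hA.mul_of_nonneg hA (fun i => norm_nonneg _) (fun i => norm_nonneg _)
  refine Summable.of_nonneg_of_le (fun p => ?_) (fun p => ?_) h
  · split_ifs
    · positivity
    · exact le_rfl
  · split_ifs
    · exact le_rfl
    · positivity

theorem mc5_diag {ι : Type} (f : ι → ℝ) (hf : Summable f) [DecidableEq ι] :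
    (Summable fun p : ι × ι => if p.1 = p.2 then f p.1 else 0) ∧
      ∑' p : ι × ι, (if p.1 = p.2 then f p.1 else 0) = ∑' i, f i := by
  have hinj : Function.Injective (fun i : ι => (i, i)) := fun i j h => (Prod.ext_iff.mp h).1
  have hsupp : Function.support (fun p : ι × ι => if p.1 = p.2 then f p.1 else 0) ⊆
      Set.range (fun i : ι => (i, i)) := by
    intro p hp
    rw [Function.mem_support] at hp
    by_cases h : p.1 = p.2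
    · exact ⟨p.1, Prod.ext rfl h⟩
    · exact absurd (if_neg h) hp
  constructor
  · refine (hinj.summable_iff fun p hp => ?_).mp ?_
    · by_contra h
      exact hp (hsupp (Function.mem_support.mpr h))
    · simpa [Function.comp_def] using hf
  · rw [← hinj.tsum_eq hsupp]
    simp

open scoped Classical in
theorem mc5_coef (h𝔮 : 𝔮 ≠ ⊥) (P : Finset (MulChar (𝓞 K ⧸ 𝔮) ℂ))
    (hP : ∀ χ, χ ∈ P ↔ IsPrim 𝔮 χ) (x y : 𝓞 K) :
    ‖∑ χ ∈ P, χ (Ideal.Quotient.mk 𝔮 x) * starRingEnd ℂ (χ (Ideal.Quotient.mk 𝔮 y))‖ ≤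
      ∑ S ∈ (QK 𝔮).powerset, (Ideal.absNorm (dS 𝔮 S) : ℝ) *
        (if x - y ∈ dS 𝔮 S then 1 else 0) := by
  have hnn : 0 ≤ ∑ S ∈ (QK 𝔮).powerset, (Ideal.absNorm (dS 𝔮 S) : ℝ) *
        (if x - y ∈ dS 𝔮 S then 1 else 0) :=
    Finset.sum_nonneg fun S _ => mul_nonneg (Nat.cast_nonneg _) (by split_ifs <;> norm_num)
  by_cases hx : IsUnit (Ideal.Quotient.mk 𝔮 x)
  · by_cases hy : IsUnit (Ideal.Quotient.mk 𝔮 y)
    · rw [prim_orth h𝔮 P hP hx hy]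
      refine (norm_sum_le _ _).trans (Finset.sum_le_sum fun S hS => ?_)
      obtain ⟨h0, h1⟩ := nS_le h𝔮 (Finset.mem_powerset.mp hS)
      rw [norm_mul, norm_mul, norm_pow, norm_neg, norm_one, one_pow, one_mul, Complex.norm_real,
        Real.norm_of_nonneg h0]
      have h2 : ‖(if x - y ∈ dS 𝔮 S then 1 else 0 : ℂ)‖ =
          (if x - y ∈ dS 𝔮 S then 1 else 0 : ℝ) := by
        split_ifs <;> simp
      rw [h2]
      exact mul_le_mul_of_nonneg_right h1 (by split_ifs <;> norm_num)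
    · have : ∑ χ ∈ P, χ (Ideal.Quotient.mk 𝔮 x) *
          starRingEnd ℂ (χ (Ideal.Quotient.mk 𝔮 y)) = 0 :=
        Finset.sum_eq_zero fun χ _ => by rw [MulChar.map_nonunit χ hy, map_zero, mul_zero]
      rw [this, norm_zero]
      exact hnn
  · have : ∑ χ ∈ P, χ (Ideal.Quotient.mk 𝔮 x) *
        starRingEnd ℂ (χ (Ideal.Quotient.mk 𝔮 y)) = 0 :=
      Finset.sum_eq_zero fun χ _ => by rw [MulChar.map_nonunit χ hx, zero_mul]
    rw [this, norm_zero]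
    exact hnn

theorem mc5_nprim (P : Finset (MulChar (𝓞 K ⧸ 𝔮) ℂ)) (hP : ∀ χ, χ ∈ P ↔ IsPrim 𝔮 χ) :
    nprim 𝔮 = P.card := by
  unfold nprim
  congr 1
  rw [← Nat.card_eq_finsetCard]
  exact Nat.card_congr (Equiv.subtypeEquivRight fun χ => (hP χ).symm)

open scoped Classical in
theorem mc5_coef2 (h𝔮 : 𝔮 ≠ ⊥) (P : Finset (MulChar (𝓞 K ⧸ 𝔮) ℂ))
    (hP : ∀ χ, χ ∈ P ↔ IsPrim 𝔮 χ) (x y : 𝓞 K) :
    ‖∑ χ ∈ P, χ (Ideal.Quotient.mk 𝔮 x) * starRingEnd ℂ (χ (Ideal.Quotient.mk 𝔮 y))‖ ≤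
      nprim 𝔮 := by
  rw [mc5_nprim P hP]
  refine (norm_sum_le _ _).trans ?_
  rw [← nsmul_one P.card]
  refine Finset.sum_le_card_nsmul _ _ _ fun χ _ => ?_
  rw [norm_mul, RCLike.norm_conj]
  exact mul_le_one₀ (mc5_norm h𝔮 χ _) (norm_nonneg _) (mc5_norm h𝔮 χ _)

theorem mc5_expand {ι : Type} (x : ι → ℂ) (hx : Summable fun i => ‖x i‖) :
    ((‖∑' i, x i‖ ^ 2 : ℝ) : ℂ) = ∑' p : ι × ι, x p.1 * starRingEnd ℂ (x p.2) := by
  have hx2 : Summable fun i => ‖starRingEnd ℂ (x i)‖ := by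
    simpa [RCLike.norm_conj] using hx
  rw [← tsum_mul_tsum_of_summable_norm hx hx2, ← Complex.conj_tsum]
  rw [Complex.mul_conj, Complex.normSq_eq_norm_sq]

open scoped Classical in
theorem prim_ineq_pr (h𝔮 : 𝔮 ≠ ⊥) (E : Finset (MulChar (𝓞 K ⧸ 𝔮) ℂ)) (hE : ∀ χ ∈ E, IsPrim 𝔮 χ)
    {ι : Type} (a : ι → 𝓞 K) (A : ι → ℂ) (hA : Summable fun i => ‖A i‖) :
    (∀ S : Finset (PK K), Summable fun p : ι × ι =>
      if p.1 ≠ p.2 ∧ a p.1 - a p.2 ∈ dS 𝔮 S then ‖A p.1‖ * ‖A p.2‖ else 0) ∧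
    ∑ χ ∈ E, ‖∑' i, χ (Ideal.Quotient.mk 𝔮 (a i)) * A i‖ ^ 2 ≤
      nprim 𝔮 * ∑' i, ‖A i‖ ^ 2 +
      ∑ S ∈ (QK 𝔮).powerset, Ideal.absNorm (dS 𝔮 S) * ∑' p : ι × ι,
        if p.1 ≠ p.2 ∧ a p.1 - a p.2 ∈ dS 𝔮 S then ‖A p.1‖ * ‖A p.2‖ else 0 := by
  refine ⟨fun S => mc5_summable a A hA S, ?_⟩
  have := mc5_finite h𝔮
  have : Finite (MulChar (𝓞 K ⧸ 𝔮) ℂ) := inferInstance
  set P : Finset (MulChar (𝓞 K ⧸ 𝔮) ℂ) := (Set.toFinite {χ | IsPrim 𝔮 χ}).toFinset with hPdef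
  have hP : ∀ χ, χ ∈ P ↔ IsPrim 𝔮 χ := fun χ => by simp [hPdef]
  have hEP : E ⊆ P := fun χ hχ => (hP χ).mpr (hE χ hχ)
  -- summability
  have hx : ∀ χ : MulChar (𝓞 K ⧸ 𝔮) ℂ,
      Summable fun i => ‖χ (Ideal.Quotient.mk 𝔮 (a i)) * A i‖ := fun χ => by
    refine Summable.of_nonneg_of_le (fun i => norm_nonneg _) (fun i => ?_) hA
    rw [norm_mul]
    exact mul_le_of_le_one_left (norm_nonneg _) (mc5_norm h𝔮 χ _)
  have hAA : Summable fun p : ι × ι => ‖A p.1‖ * ‖A p.2‖ :=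
    hA.mul_of_nonneg hA (fun i => norm_nonneg _) (fun i => norm_nonneg _)
  have hA2 : Summable fun i => ‖A i‖ ^ 2 := by
    have h1 : Summable fun i => ‖A i‖ * ‖A i‖ := hAA.comp_injective
      (i := fun i : ι => (i, i)) (fun i j h => (Prod.ext_iff.mp h).1)
    simpa [pow_two] using h1
  obtain ⟨hd1, hd2⟩ := mc5_diag (fun i => ‖A i‖ ^ 2) hA2
  -- the coefficients
  set c : ι × ι → ℂ := fun p => ∑ χ ∈ P, χ (Ideal.Quotient.mk 𝔮 (a p.1)) *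
    starRingEnd ℂ (χ (Ideal.Quotient.mk 𝔮 (a p.2))) with hc
  have hexp : ((∑ χ ∈ P, ‖∑' i, χ (Ideal.Quotient.mk 𝔮 (a i)) * A i‖ ^ 2 : ℝ) : ℂ) =
      ∑' p : ι × ι, c p * (A p.1 * starRingEnd ℂ (A p.2)) := by
    push_cast
    have h1 : ∀ χ ∈ P, (‖∑' i, χ (Ideal.Quotient.mk 𝔮 (a i)) * A i‖ : ℂ) ^ 2 =
        ∑' p : ι × ι, (χ (Ideal.Quotient.mk 𝔮 (a p.1)) * A p.1) *
          starRingEnd ℂ (χ (Ideal.Quotient.mk 𝔮 (a p.2)) * A p.2) := fun χ _ => by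
      rw [← mc5_expand _ (hx χ)]
      push_cast
      rfl
    rw [Finset.sum_congr rfl h1, ← Summable.tsum_finsetSum]
    · refine tsum_congr fun p => ?_
      rw [hc]
      simp only
      rw [Finset.sum_mul]
      refine Finset.sum_congr rfl fun χ _ => ?_
      rw [map_mul]
      ring
    · intro χ _
      refine Summable.of_norm ?_
      have h2 := (hx χ).mul_of_nonneg (hx χ) (fun i => norm_nonneg _) (fun i => norm_nonneg _)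
      refine h2.congr fun p => ?_
      rw [norm_mul (_ * _) (starRingEnd ℂ _), RCLike.norm_conj]
  set W : ℝ := ∑ S ∈ (QK 𝔮).powerset, (Ideal.absNorm (dS 𝔮 S) : ℝ) with hW
  have hcle : ∀ p : ι × ι, ‖c p * (A p.1 * starRingEnd ℂ (A p.2))‖ ≤
      nprim 𝔮 * (if p.1 = p.2 then ‖A p.1‖ ^ 2 else 0) +
      ∑ S ∈ (QK 𝔮).powerset, (Ideal.absNorm (dS 𝔮 S) : ℝ) *
        (if p.1 ≠ p.2 ∧ a p.1 - a p.2 ∈ dS 𝔮 S then ‖A p.1‖ * ‖A p.2‖ else 0) := by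
    intro p
    rw [norm_mul, norm_mul, RCLike.norm_conj]
    by_cases hp : p.1 = p.2
    · rw [if_pos hp]
      have h1 : ∀ S : Finset (PK K), (if p.1 ≠ p.2 ∧ a p.1 - a p.2 ∈ dS 𝔮 S then
          ‖A p.1‖ * ‖A p.2‖ else 0) = 0 := fun S => if_neg fun h => h.1 hp
      simp_rw [h1, mul_zero]
      rw [Finset.sum_const_zero, add_zero, ← hp, ← pow_two]
      exact mul_le_mul_of_nonneg_right (by rw [hc]; exact mc5_coef2 h𝔮 P hP _ _) (by positivity)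
    · rw [if_neg hp, mul_zero, zero_add]
      have h1 : ∀ S : Finset (PK K), (if p.1 ≠ p.2 ∧ a p.1 - a p.2 ∈ dS 𝔮 S then
          ‖A p.1‖ * ‖A p.2‖ else 0) =
          (if a p.1 - a p.2 ∈ dS 𝔮 S then 1 else 0 : ℝ) * (‖A p.1‖ * ‖A p.2‖) := fun S => by
        by_cases h : a p.1 - a p.2 ∈ dS 𝔮 S
        · rw [if_pos ⟨hp, h⟩, if_pos h, one_mul]
        · rw [if_neg fun h' => h h'.2, if_neg h, zero_mul]
      simp_rw [h1, ← mul_assoc]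
      rw [← Finset.sum_mul, ← Finset.sum_mul, mul_assoc]
      rw [mul_assoc]
      refine mul_le_mul_of_nonneg_right ?_ (by positivity)
      rw [hc]
      exact mc5_coef h𝔮 P hP _ _
  have hs1 : Summable fun p : ι × ι => nprim 𝔮 * (if p.1 = p.2 then ‖A p.1‖ ^ 2 else 0) :=
    hd1.mul_left _
  have hs2 : Summable fun p : ι × ι =>
      ∑ S ∈ (QK 𝔮).powerset, (Ideal.absNorm (dS 𝔮 S) : ℝ) *
        (if p.1 ≠ p.2 ∧ a p.1 - a p.2 ∈ dS 𝔮 S then ‖A p.1‖ * ‖A p.2‖ else 0) :=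
    summable_sum fun S _ => (mc5_summable a A hA S).mul_left _
  have hfin : ∑ χ ∈ P, ‖∑' i, χ (Ideal.Quotient.mk 𝔮 (a i)) * A i‖ ^ 2 ≤
      nprim 𝔮 * ∑' i, ‖A i‖ ^ 2 +
      ∑ S ∈ (QK 𝔮).powerset, Ideal.absNorm (dS 𝔮 S) * ∑' p : ι × ι,
        if p.1 ≠ p.2 ∧ a p.1 - a p.2 ∈ dS 𝔮 S then ‖A p.1‖ * ‖A p.2‖ else 0 := by
    have h0 : 0 ≤ ∑ χ ∈ P, ‖∑' i, χ (Ideal.Quotient.mk 𝔮 (a i)) * A i‖ ^ 2 :=
      Finset.sum_nonneg fun χ _ => by positivity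
    have h1 : ∑ χ ∈ P, ‖∑' i, χ (Ideal.Quotient.mk 𝔮 (a i)) * A i‖ ^ 2 =
        ‖∑' p : ι × ι, c p * (A p.1 * starRingEnd ℂ (A p.2))‖ := by
      rw [← hexp, Complex.norm_real, Real.norm_of_nonneg h0]
    rw [h1]
    refine (tsum_of_norm_bounded (hs1.add hs2).hasSum hcle).trans (le_of_eq ?_)
    rw [hs1.tsum_add hs2, tsum_mul_left, hd2, Summable.tsum_finsetSum]
    · congr 1
      exact Finset.sum_congr rfl fun S _ => tsum_mul_left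
    · exact fun S _ => (mc5_summable a A hA S).mul_left _
  exact (Finset.sum_le_sum_of_subset_of_nonneg hEP fun χ _ _ => by positivity).trans hfin


end Pool.Agent.LVK

namespace Pool.Agent.LVK

theorem prim_ineq : type_of% @prim_ineq_pr := @prim_ineq_pr

end Pool.Agent.LVK
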