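import Pool.Agent.Lib_helper42.LVK.Defs
import Pool.Agent.Lib_helper92.KSA.LATU
import Pool.Agent.Lib_helper92.KSA.LNZ

/-!
# LVK part M, block MD1: sums over ideals and cosets
-/

namespace Pool.Agent.LVK

open NumberField NumberField.InfinitePlace NumberField.Units Complex MeasureTheory Filter Topology
open Pool.Agent.HZ Pool.Agent.AS Pool.Agent.KS

variable {K : Type} [Field K] [NumberField K]

/-- the real inequality behind `nz_pow_pr` -/
theorem md1_real {c A : ℝ} (hc : 0 < c) (hA : 1 ≤ A) {n : ℕ} (hn : 0 < n) :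
    ∃ D : ℝ, 0 ≤ D ∧ ∀ X : ℝ, 0 < X →
      Real.exp (-c * X ^ (2 / (n : ℝ))) * (1 + 1 / X) ≤ D * (1 / X) ^ A := by
  set k : ℕ := ⌈(n : ℝ) * A / 2⌉₊ with hk
  have hn' : (0 : ℝ) < n := by exact_mod_cast hn
  refine ⟨3 + 2 * ((k.factorial : ℝ) / c ^ k), by positivity, fun X hX => ?_⟩
  set t : ℝ := X ^ (2 / (n : ℝ)) with ht
  have ht0 : 0 < t := Real.rpow_pos_of_pos hX _
  have hXA : X ^ A ≤ 1 + t ^ k := by
    rcases le_total X 1 with h | h
    · have h1 : X ^ A ≤ 1 := Real.rpow_le_one hX.le h (by linarith)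
      have h2 : 0 ≤ t ^ k := by positivity
      linarith
    · have ht1 : 1 ≤ t := Real.one_le_rpow h (by positivity)
      have h1 : X ^ A = t ^ ((n : ℝ) * A / 2) := by
        rw [ht, ← Real.rpow_mul hX.le]
        congr 1
        field_simp
      have h2 : t ^ ((n : ℝ) * A / 2) ≤ t ^ (k : ℝ) :=
        Real.rpow_le_rpow_of_exponent_le ht1 (Nat.le_ceil _)
      rw [Real.rpow_natCast] at h2
      rw [h1]
      linarith
  have hXA1 : X ^ (A - 1) ≤ 1 + X ^ A := by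
    rcases le_total X 1 with h | h
    · have h1 : X ^ (A - 1) ≤ 1 := Real.rpow_le_one hX.le h (by linarith)
      have h2 : 0 ≤ X ^ A := Real.rpow_nonneg hX.le _
      linarith
    · have h1 : X ^ (A - 1) ≤ X ^ A := Real.rpow_le_rpow_of_exponent_le h (by linarith)
      linarith
  have hexp : t ^ k * Real.exp (-c * t) ≤ (k.factorial : ℝ) / c ^ k := by
    have h1 : (c * t) ^ k / (k.factorial : ℝ) ≤ Real.exp (c * t) :=
      Real.pow_div_factorial_le_exp _ (by positivity) k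
    have hf : (0 : ℝ) < (k.factorial : ℝ) := by positivity
    rw [div_le_iff₀ hf, mul_pow] at h1
    rw [le_div_iff₀ (by positivity), neg_mul, Real.exp_neg]
    have h2 : 0 < Real.exp (c * t) := Real.exp_pos _
    rw [show t ^ k * (Real.exp (c * t))⁻¹ * c ^ k = c ^ k * t ^ k / Real.exp (c * t) by
      field_simp]
    rw [div_le_iff₀ h2]
    linarith
  have he1 : Real.exp (-c * t) ≤ 1 := by
    rw [Real.exp_le_one_iff]
    nlinarith
  have hmain : Real.exp (-c * t) * (X ^ A + X ^ (A - 1)) ≤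
      3 + 2 * ((k.factorial : ℝ) / c ^ k) := by
    have h1 : X ^ A + X ^ (A - 1) ≤ 3 + 2 * t ^ k := by linarith
    calc Real.exp (-c * t) * (X ^ A + X ^ (A - 1)) ≤ Real.exp (-c * t) * (3 + 2 * t ^ k) :=
          mul_le_mul_of_nonneg_left h1 (Real.exp_pos _).le
      _ = 3 * Real.exp (-c * t) + 2 * (t ^ k * Real.exp (-c * t)) := by ring
      _ ≤ 3 + 2 * ((k.factorial : ℝ) / c ^ k) := by linarith
  have hXApos : 0 < X ^ A := Real.rpow_pos_of_pos hX _
  have h3 : X ^ (A - 1) = X ^ A * (1 / X) := by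
    rw [Real.rpow_sub_one hX.ne']
    ring
  have h4 : (1 / X) ^ A = (X ^ A)⁻¹ := by
    rw [one_div, Real.inv_rpow hX.le]
  rw [h4, ← div_eq_mul_inv, le_div_iff₀ hXApos]
  calc Real.exp (-c * t) * (1 + 1 / X) * X ^ A = Real.exp (-c * t) * (X ^ A + X ^ (A - 1)) := by
        rw [h3]; ring
    _ ≤ _ := hmain

open scoped Classical in
/-- sums over the nonzero elements of an ideal, any exponent -/
theorem nz_pow_pr (K : Type) [Field K] [NumberField K] {c A : ℝ} (hc : 0 < c) (hA : 1 ≤ A) :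
    ∃ C : ℝ, 0 ≤ C ∧ ∀ 𝔞 : Ideal (𝓞 K), 𝔞 ≠ ⊥ → ∀ (u : ℝ) (x : Fin (rank K) → ℝ),
      Summable (fun α : 𝔞 => if α = 0 then 0 else
        Real.exp (-c * qn (fun w => Yv K u x w * w ((α : 𝓞 K) : K)))) ∧
      ∑' α : 𝔞, (if α = 0 then 0 else
        Real.exp (-c * qn (fun w => Yv K u x w * w ((α : 𝓞 K) : K)))) ≤
        C * (Real.exp (-u) / Ideal.absNorm 𝔞) ^ A := by
  obtain ⟨C1, hC10, hC1⟩ := lattice_unif (K := K) (show 0 < c / 2 by positivity)
  set n : ℕ := Module.finrank ℚ K with hn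
  have hn0 : 0 < n := Module.finrank_pos
  obtain ⟨D, hD0, hD⟩ := md1_real (show 0 < c / 2 by positivity) hA hn0
  refine ⟨C1 * D, by positivity, fun 𝔞 h𝔞 u x => ?_⟩
  obtain ⟨hS, hB⟩ := hC1 𝔞 h𝔞 u x
  have hNa : (0 : ℝ) < Ideal.absNorm 𝔞 := by
    have : Ideal.absNorm 𝔞 ≠ 0 := by
      rw [Ne, Ideal.absNorm_eq_zero_iff]
      exact h𝔞
    positivity
  set X : ℝ := Real.exp u * Ideal.absNorm 𝔞 with hX
  have hX0 : 0 < X := by positivity
  have hXinv : Real.exp (-u) / Ideal.absNorm 𝔞 = 1 / X := by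
    rw [hX, Real.exp_neg]
    field_simp
  have hpt : ∀ α : 𝔞, (if α = 0 then 0 else
        Real.exp (-c * qn (fun w => Yv K u x w * w ((α : 𝓞 K) : K)))) ≤
      Real.exp (-(c / 2) * X ^ (2 / (n : ℝ))) *
        Real.exp (-(c / 2) * qn (fun w => Yv K u x w * w ((α : 𝓞 K) : K))) := by
    intro α
    split_ifs with h
    · positivity
    · have hα : (α : 𝓞 K) ≠ 0 := fun h' => h (Subtype.ext h')
      have hmem : (α : 𝓞 K) ∈ 𝔞 * (⊤ : Ideal (𝓞 K)) := by
        rw [Ideal.mul_top]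
        exact α.2
      have h1 := am_gm h𝔞 (show (⊤ : Ideal (𝓞 K)) ≠ ⊥ from top_ne_bot) hmem hα u x
      rw [← Real.exp_add]
      apply Real.exp_le_exp.mpr
      have h2 : c / 2 * X ^ (2 / (n : ℝ)) ≤
          c / 2 * qn (fun w => Yv K u x w * w ((α : 𝓞 K) : K)) := by
        gcongr
      linarith
  have hnn : ∀ α : 𝔞, 0 ≤ (if α = 0 then 0 else
        Real.exp (-c * qn (fun w => Yv K u x w * w ((α : 𝓞 K) : K)))) := by
    intro α
    split_ifs
    · exact le_rfl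
    · exact (Real.exp_pos _).le
  have hS2 := hS.mul_left (Real.exp (-(c / 2) * X ^ (2 / (n : ℝ))))
  have hS3 := Summable.of_nonneg_of_le hnn hpt hS2
  refine ⟨hS3, ?_⟩
  calc ∑' α : 𝔞, (if α = 0 then 0 else
        Real.exp (-c * qn (fun w => Yv K u x w * w ((α : 𝓞 K) : K))))
      ≤ ∑' α : 𝔞, Real.exp (-(c / 2) * X ^ (2 / (n : ℝ))) *
        Real.exp (-(c / 2) * qn (fun w => Yv K u x w * w ((α : 𝓞 K) : K))) :=
        hS3.tsum_le_tsum hpt hS2
    _ = Real.exp (-(c / 2) * X ^ (2 / (n : ℝ))) *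
        ∑' α : 𝔞, Real.exp (-(c / 2) * qn (fun w => Yv K u x w * w ((α : 𝓞 K) : K))) :=
        tsum_mul_left
    _ ≤ Real.exp (-(c / 2) * X ^ (2 / (n : ℝ))) *
        (C1 * (1 + Real.exp (-u) / Ideal.absNorm 𝔞)) := by gcongr
    _ = C1 * (Real.exp (-(c / 2) * X ^ (2 / (n : ℝ))) * (1 + 1 / X)) := by rw [hXinv]; ring
    _ ≤ C1 * (D * (1 / X) ^ A) := mul_le_mul_of_nonneg_left (hD X hX0) hC10
    _ = C1 * D * (Real.exp (-u) / Ideal.absNorm 𝔞) ^ A := by
        rw [hXinv]; ring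

/-- `qn` of a difference -/
theorem md1_qn_sub (u : ℝ) (x : Fin (rank K) → ℝ) (a b : K) :
    qn (fun w => Yv K u x w * w (a - b)) ≤
      2 * qn (fun w => Yv K u x w * w a) + 2 * qn (fun w => Yv K u x w * w b) := by
  unfold qn
  rw [Finset.mul_sum, Finset.mul_sum, ← Finset.sum_add_distrib]
  refine Finset.sum_le_sum fun w _ => ?_
  have h1 : w (a - b) ≤ w a + w b := by
    rw [sub_eq_add_neg]
    refine (w.1.add_le _ _).trans ?_
    rw [show w.1 (-b) = w b from w.1.map_neg b]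
    exact le_rfl
  have h0 : 0 ≤ w (a - b) := apply_nonneg w _
  have h2 : w (a - b) ^ 2 ≤ 2 * w a ^ 2 + 2 * w b ^ 2 := by
    have h3 : w (a - b) ^ 2 ≤ (w a + w b) ^ 2 := pow_le_pow_left₀ h0 h1 2
    nlinarith [sq_nonneg (w a - w b)]
  have hY : 0 ≤ (w.mult : ℝ) * Yv K u x w ^ 2 := by positivity
  calc (w.mult : ℝ) * (Yv K u x w * w (a - b)) ^ 2 =
        (w.mult : ℝ) * Yv K u x w ^ 2 * w (a - b) ^ 2 := by ring
    _ ≤ (w.mult : ℝ) * Yv K u x w ^ 2 * (2 * w a ^ 2 + 2 * w b ^ 2) :=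
        mul_le_mul_of_nonneg_left h2 hY
    _ = _ := by ring

open scoped Classical in
/-- sums over a coset of an ideal (take an element of the coset which is minimal for `qn`) -/
theorem coset_sum_pr (K : Type) [Field K] [NumberField K] {c : ℝ} (hc : 0 < c) :
    ∃ C : ℝ, 0 ≤ C ∧ ∀ 𝔞 : Ideal (𝓞 K), 𝔞 ≠ ⊥ → ∀ (δ : 𝓞 K) (u : ℝ) (x : Fin (rank K) → ℝ),
      Summable (fun α : 𝓞 K => if α - δ ∈ 𝔞 then
        Real.exp (-c * qn (fun w => Yv K u x w * w (α : K))) else 0) ∧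
      ∑' α : 𝓞 K, (if α - δ ∈ 𝔞 then
        Real.exp (-c * qn (fun w => Yv K u x w * w (α : K))) else 0) ≤
        C * (1 + Real.exp (-u) / Ideal.absNorm 𝔞) := by
  obtain ⟨C0, hC00, hC0⟩ := lattice_unif (K := K) hc
  obtain ⟨C1, hC10, hC1⟩ := lattice_unif (K := K) (show 0 < c / 4 by positivity)
  refine ⟨C1, hC10, fun 𝔞 h𝔞 δ u x => ?_⟩
  -- summability over the whole ring
  have hall : Summable (fun α : 𝓞 K => Real.exp (-c * qn (fun w => Yv K u x w * w (α : K)))) := by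
    have h1 := (hC0 (⊤ : Ideal (𝓞 K)) top_ne_bot u x).1
    let e : 𝓞 K ≃ (⊤ : Ideal (𝓞 K)) := ⟨fun a => ⟨a, Submodule.mem_top⟩, fun a => a.1,
      fun a => rfl, fun a => rfl⟩
    have h2 := (e.summable_iff (f := fun α : (⊤ : Ideal (𝓞 K)) =>
      Real.exp (-c * qn (fun w => Yv K u x w * w ((α : 𝓞 K) : K))))).2 h1
    exact h2
  have hnn : ∀ α : 𝓞 K, 0 ≤ (if α - δ ∈ 𝔞 then
        Real.exp (-c * qn (fun w => Yv K u x w * w (α : K))) else 0) := by
    intro α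
    split_ifs
    · exact (Real.exp_pos _).le
    · exact le_rfl
  have hsum : Summable (fun α : 𝓞 K => if α - δ ∈ 𝔞 then
        Real.exp (-c * qn (fun w => Yv K u x w * w (α : K))) else 0) := by
    refine Summable.of_nonneg_of_le hnn (fun α => ?_) hall
    split_ifs
    · exact le_rfl
    · exact (Real.exp_pos _).le
  refine ⟨hsum, ?_⟩
  -- the minimal element
  have hmin : ∃ α₀ : 𝓞 K, α₀ - δ ∈ 𝔞 ∧ ∀ α : 𝓞 K, α - δ ∈ 𝔞 →
      qn (fun w => Yv K u x w * w (α₀ : K)) ≤ qn (fun w => Yv K u x w * w (α : K)) := by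
    have h1 : ∀ᶠ α : 𝓞 K in cofinite, Real.exp (-c * qn (fun w => Yv K u x w * w (α : K))) <
        Real.exp (-c * qn (fun w => Yv K u x w * w (δ : K))) :=
      hall.tendsto_cofinite_zero.eventually_lt_const (Real.exp_pos _)
    have h2 : {α : 𝓞 K | α - δ ∈ 𝔞 ∧ ¬ Real.exp (-c * qn (fun w => Yv K u x w * w (α : K))) <
        Real.exp (-c * qn (fun w => Yv K u x w * w (δ : K)))}.Finite :=
      (Filter.eventually_cofinite.1 h1).subset fun α hα => hα.2
    have h3 : {α : 𝓞 K | α - δ ∈ 𝔞 ∧ ¬ Real.exp (-c * qn (fun w => Yv K u x w * w (α : K))) <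
        Real.exp (-c * qn (fun w => Yv K u x w * w (δ : K)))}.Nonempty :=
      ⟨δ, by simp, lt_irrefl _⟩
    obtain ⟨α₀, hα₀, hmin⟩ := Set.exists_min_image _
      (fun α : 𝓞 K => qn (fun w => Yv K u x w * w (α : K))) h2 h3
    refine ⟨α₀, hα₀.1, fun α hα => ?_⟩
    by_cases h4 : Real.exp (-c * qn (fun w => Yv K u x w * w (α : K))) <
        Real.exp (-c * qn (fun w => Yv K u x w * w (δ : K)))
    · have h5 := hmin δ ⟨by simp, lt_irrefl _⟩
      have h6 := Real.exp_lt_exp.1 h4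
      have h7 : qn (fun w => Yv K u x w * w (δ : K)) <
          qn (fun w => Yv K u x w * w (α : K)) := by nlinarith
      exact h5.trans h7.le
    · exact hmin α ⟨hα, h4⟩
  obtain ⟨α₀, hα₀, hmin⟩ := hmin
  obtain ⟨hS, hB⟩ := hC1 𝔞 h𝔞 u x
  -- reindex
  have hinj : Function.Injective (fun f : 𝔞 => α₀ + (f : 𝓞 K)) := fun f g hfg =>
    Subtype.ext (add_left_cancel hfg)
  have hsupp : Function.support (fun α : 𝓞 K => if α - δ ∈ 𝔞 then
        Real.exp (-c * qn (fun w => Yv K u x w * w (α : K))) else 0) ⊆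
      Set.range (fun f : 𝔞 => α₀ + (f : 𝓞 K)) := by
    intro α hα
    rw [Function.mem_support] at hα
    have h1 : α - δ ∈ 𝔞 := by
      by_contra h
      exact hα (if_neg h)
    refine ⟨⟨α - α₀, ?_⟩, add_sub_cancel _ _⟩
    have := 𝔞.sub_mem h1 hα₀
    rwa [sub_sub_sub_cancel_right] at this
  rw [← hinj.tsum_eq hsupp]
  have hle : ∀ f : 𝔞, (if α₀ + (f : 𝓞 K) - δ ∈ 𝔞 then
      Real.exp (-c * qn (fun w => Yv K u x w * w ((α₀ + (f : 𝓞 K) : 𝓞 K) : K))) else 0) ≤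
      Real.exp (-(c / 4) * qn (fun w => Yv K u x w * w ((f : 𝓞 K) : K))) := by
    intro f
    split_ifs with h
    · apply Real.exp_le_exp.mpr
      have h1 := md1_qn_sub u x ((α₀ + (f : 𝓞 K) : 𝓞 K) : K) (α₀ : K)
      have h2 := hmin _ h
      have h3 : ((α₀ + (f : 𝓞 K) : 𝓞 K) : K) - (α₀ : K) = ((f : 𝓞 K) : K) := by
        push_cast
        ring
      rw [h3] at h1
      nlinarith
    · exact (Real.exp_pos _).le
  refine le_trans (Summable.tsum_le_tsum hle ?_ hS) hB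
  exact Summable.of_nonneg_of_le (fun f => hnn _) hle hS



end Pool.Agent.LVK

namespace Pool.Agent.LVK

theorem nz_pow : type_of% @nz_pow_pr := @nz_pow_pr
theorem coset_sum : type_of% @coset_sum_pr := @coset_sum_pr

end Pool.Agent.LVK
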