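import Pool.Agent.Lib_helper42.LVK.Defs
import Pool.Agent.Lib_helper92.KSA.LATU
import Pool.Agent.Lib_helper92.KSA.LNZ
import Pool.Agent.Lib_helper39.LVX.K_MD1

/-!
# LVK part M, block MD2: the off-diagonal lattice sums
-/

namespace Pool.Agent.LVK

open NumberField NumberField.InfinitePlace NumberField.Units Complex MeasureTheory Filter Topology
open Pool.Agent.HZ Pool.Agent.AS Pool.Agent.KS

variable {K : Type} [Field K] [NumberField K]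

/-- `qn` of a difference -/
theorem md2_qn_sub (u : ℝ) (x : Fin (rank K) → ℝ) (a b : K) :
    qn (fun w => Yv K u x w * w (a - b)) ≤
      2 * qn (fun w => Yv K u x w * w a) + 2 * qn (fun w => Yv K u x w * w b) := by
  unfold qn
  rw [Finset.mul_sum, Finset.mul_sum, ← Finset.sum_add_distrib]
  refine Finset.sum_le_sum fun w _ => ?_
  have h1 : w (a - b) ≤ w a + w b := by
    rw [sub_eq_add_neg]
    refine (w.1.add_le _ _).trans ?_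
    rw [show w.1 (-b) = w b from w.1.map_neg b]
    exact le_rfl
  have h0 : 0 ≤ w (a - b) := apply_nonneg w _
  have h2 : w (a - b) ^ 2 ≤ 2 * w a ^ 2 + 2 * w b ^ 2 := by
    have h3 : w (a - b) ^ 2 ≤ (w a + w b) ^ 2 := pow_le_pow_left₀ h0 h1 2
    nlinarith [sq_nonneg (w a - w b)]
  have hY : 0 ≤ (w.mult : ℝ) * Yv K u x w ^ 2 := by positivity
  calc (w.mult : ℝ) * (Yv K u x w * w (a - b)) ^ 2 =
        (w.mult : ℝ) * Yv K u x w ^ 2 * w (a - b) ^ 2 := by ring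
    _ ≤ (w.mult : ℝ) * Yv K u x w ^ 2 * (2 * w a ^ 2 + 2 * w b ^ 2) :=
        mul_le_mul_of_nonneg_left h2 hY
    _ = _ := by ring

open scoped Classical in
/-- `nz_pow` as a sum over the whole ring -/
theorem md2_nz (K : Type) [Field K] [NumberField K] {c A : ℝ} (hc : 0 < c) (hA : 1 ≤ A) :
    ∃ C : ℝ, 0 ≤ C ∧ ∀ 𝔞 : Ideal (𝓞 K), 𝔞 ≠ ⊥ → ∀ (u : ℝ) (x : Fin (rank K) → ℝ),
      Summable (fun α : 𝓞 K => if α ∈ 𝔞 ∧ α ≠ 0 then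
        Real.exp (-c * qn (fun w => Yv K u x w * w (α : K))) else 0) ∧
      ∑' α : 𝓞 K, (if α ∈ 𝔞 ∧ α ≠ 0 then
        Real.exp (-c * qn (fun w => Yv K u x w * w (α : K))) else 0) ≤
        C * (Real.exp (-u) / Ideal.absNorm 𝔞) ^ A := by
  obtain ⟨C, hC0, hC⟩ := nz_pow K hc hA
  refine ⟨C, hC0, fun 𝔞 h𝔞 u x => ?_⟩
  obtain ⟨hS, hB⟩ := hC 𝔞 h𝔞 u x
  have hinj : Function.Injective (fun f : 𝔞 => (f : 𝓞 K)) := Subtype.val_injective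
  have hsupp : Function.support (fun α : 𝓞 K => if α ∈ 𝔞 ∧ α ≠ 0 then
        Real.exp (-c * qn (fun w => Yv K u x w * w (α : K))) else 0) ⊆
      Set.range (fun f : 𝔞 => (f : 𝓞 K)) := by
    intro α hα
    rw [Function.mem_support] at hα
    have h1 : α ∈ 𝔞 ∧ α ≠ 0 := by
      by_contra h
      exact hα (if_neg h)
    exact ⟨⟨α, h1.1⟩, rfl⟩
  have hcongr : ∀ f : 𝔞, (if (f : 𝓞 K) ∈ 𝔞 ∧ (f : 𝓞 K) ≠ 0 then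
      Real.exp (-c * qn (fun w => Yv K u x w * w ((f : 𝓞 K) : K))) else 0) =
      (if f = 0 then 0 else
        Real.exp (-c * qn (fun w => Yv K u x w * w ((f : 𝓞 K) : K)))) := by
    intro f
    by_cases h : f = 0
    · have h' : ¬ ((f : 𝓞 K) ∈ 𝔞 ∧ (f : 𝓞 K) ≠ 0) := fun h2 => h2.2 (by rw [h]; rfl)
      rw [if_neg h', if_pos h]
    · have h' : ((f : 𝓞 K) ∈ 𝔞 ∧ (f : 𝓞 K) ≠ 0) := ⟨f.2, fun h2 => h (Subtype.ext h2)⟩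
      rw [if_pos h', if_neg h]
  constructor
  · rw [← hinj.summable_iff (fun α hα => Function.notMem_support.1 fun h => hα (hsupp h))]
    refine hS.congr fun f => ?_
    exact (hcongr f).symm
  · rw [← hinj.tsum_eq hsupp]
    simp_rw [hcongr]
    exact hB

omit [NumberField K] in
/-- the ideal which contains the differences -/
theorem md2_mem {𝔟 𝔡 𝔫 𝔫' : Ideal (𝓞 K)} (h : IsCoprime 𝔫 𝔡) {α α' : 𝓞 K}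
    (h1 : α ∈ 𝔫 * 𝔟) (h2 : α' ∈ 𝔫' * 𝔟) (h3 : α - α' ∈ 𝔡 * 𝔟) :
    α - α' ∈ 𝔡 * (𝔫 ⊔ 𝔫') * 𝔟 := by
  have h4 : α - α' ∈ (𝔫 ⊔ 𝔫') * 𝔟 :=
    Ideal.sub_mem _ (Ideal.mul_mono_left le_sup_left h1) (Ideal.mul_mono_left le_sup_right h2)
  have h5 : IsCoprime 𝔡 (𝔫 ⊔ 𝔫') := by
    rw [Ideal.isCoprime_iff_sup_eq] at h ⊢
    rw [eq_top_iff, ← h]
    exact sup_le (le_sup_left.trans le_sup_right) le_sup_left
  have h6 : (𝔡 * 𝔟) ⊓ ((𝔫 ⊔ 𝔫') * 𝔟) = 𝔡 * (𝔫 ⊔ 𝔫') * 𝔟 := by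
    refine le_antisymm ?_ ?_
    · have h7 : 𝔡 ⊔ (𝔫 ⊔ 𝔫') = ⊤ := Ideal.isCoprime_iff_sup_eq.1 h5
      calc (𝔡 * 𝔟) ⊓ ((𝔫 ⊔ 𝔫') * 𝔟) = ((𝔡 * 𝔟) ⊓ ((𝔫 ⊔ 𝔫') * 𝔟)) * (𝔡 ⊔ (𝔫 ⊔ 𝔫')) := by
            rw [h7, Ideal.mul_top]
        _ = ((𝔡 * 𝔟) ⊓ ((𝔫 ⊔ 𝔫') * 𝔟)) * 𝔡 ⊔ ((𝔡 * 𝔟) ⊓ ((𝔫 ⊔ 𝔫') * 𝔟)) * (𝔫 ⊔ 𝔫') :=
            Ideal.mul_sup _ _ _
        _ ≤ (𝔫 ⊔ 𝔫') * 𝔟 * 𝔡 ⊔ 𝔡 * 𝔟 * (𝔫 ⊔ 𝔫') :=
            sup_le_sup (Ideal.mul_mono_left inf_le_right) (Ideal.mul_mono_left inf_le_left)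
        _ = 𝔡 * (𝔫 ⊔ 𝔫') * 𝔟 := by
            rw [show (𝔫 ⊔ 𝔫') * 𝔟 * 𝔡 = 𝔡 * (𝔫 ⊔ 𝔫') * 𝔟 by ring,
              show 𝔡 * 𝔟 * (𝔫 ⊔ 𝔫') = 𝔡 * (𝔫 ⊔ 𝔫') * 𝔟 by ring, sup_idem]
    · exact le_inf (Ideal.mul_mono_left Ideal.mul_le_left) (Ideal.mul_mono_left Ideal.mul_le_right)
  rw [← h6]
  exact ⟨h3, h4⟩

open scoped Classical in
/-- the sum over `α` for a fixed difference -/
theorem md2_fibre (K : Type) [Field K] [NumberField K] {c : ℝ} (hc : 0 < c) :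
    ∃ C : ℝ, 0 ≤ C ∧ ∀ 𝔞 𝔞' 𝔪 : Ideal (𝓞 K), 𝔪 ≠ ⊥ → 𝔞 ⊓ 𝔞' ≤ 𝔪 →
      ∀ (δ : 𝓞 K) (u : ℝ) (x : Fin (rank K) → ℝ),
      Summable (fun α : 𝓞 K => if α ∈ 𝔞 ∧ α - δ ∈ 𝔞' then
        Real.exp (-c * qn (fun w => Yv K u x w * w (α : K))) else 0) ∧
      ∑' α : 𝓞 K, (if α ∈ 𝔞 ∧ α - δ ∈ 𝔞' then
        Real.exp (-c * qn (fun w => Yv K u x w * w (α : K))) else 0) ≤
        C * (1 + Real.exp (-u) / Ideal.absNorm 𝔪) := by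
  obtain ⟨C, hC0, hC⟩ := coset_sum K hc
  refine ⟨C, hC0, fun 𝔞 𝔞' 𝔪 h𝔪 hle δ u x => ?_⟩
  by_cases hne : ∃ α₁ : 𝓞 K, α₁ ∈ 𝔞 ∧ α₁ - δ ∈ 𝔞'
  · obtain ⟨α₁, h1, h2⟩ := hne
    obtain ⟨hS, hB⟩ := hC 𝔪 h𝔪 α₁ u x
    have hnn : ∀ α : 𝓞 K, 0 ≤ (if α ∈ 𝔞 ∧ α - δ ∈ 𝔞' then
        Real.exp (-c * qn (fun w => Yv K u x w * w (α : K))) else 0) := by
      intro α
      split_ifs
      · exact (Real.exp_pos _).le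
      · exact le_rfl
    have hpt : ∀ α : 𝓞 K, (if α ∈ 𝔞 ∧ α - δ ∈ 𝔞' then
        Real.exp (-c * qn (fun w => Yv K u x w * w (α : K))) else 0) ≤
        (if α - α₁ ∈ 𝔪 then
        Real.exp (-c * qn (fun w => Yv K u x w * w (α : K))) else 0) := by
      intro α
      by_cases h : α ∈ 𝔞 ∧ α - δ ∈ 𝔞'
      · have h3 : α - α₁ ∈ 𝔪 := by
          refine hle ⟨𝔞.sub_mem h.1 h1, ?_⟩
          have := 𝔞'.sub_mem h.2 h2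
          rwa [sub_sub_sub_cancel_right] at this
        rw [if_pos h, if_pos h3]
      · rw [if_neg h]
        split_ifs
        · exact (Real.exp_pos _).le
        · exact le_rfl
    have hS' := Summable.of_nonneg_of_le hnn hpt hS
    exact ⟨hS', (hS'.tsum_le_tsum hpt hS).trans hB⟩
  · have h0 : (fun α : 𝓞 K => if α ∈ 𝔞 ∧ α - δ ∈ 𝔞' then
        Real.exp (-c * qn (fun w => Yv K u x w * w (α : K))) else 0) = fun _ => 0 := by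
      funext α
      exact if_neg fun h => hne ⟨α, h⟩
    rw [h0]
    refine ⟨summable_zero, ?_⟩
    rw [tsum_zero]
    positivity

open scoped Classical in
theorem off_diag_pr {c A : ℝ} (hc : 0 < c) (hA : 1 ≤ A) {𝔟 : Ideal (𝓞 K)} (h𝔟 : 𝔟 ≠ ⊥) :
    ∃ C : ℝ, 0 ≤ C ∧ ∀ (𝔡 𝔫 𝔫' : Ideal (𝓞 K)), 𝔡 ≠ ⊥ → 𝔫 ≠ ⊥ → 𝔫' ≠ ⊥ → IsCoprime 𝔫 𝔡 →
      IsCoprime 𝔫' 𝔡 → ∀ (u : ℝ) (x : Fin (rank K) → ℝ),
      Summable (fun p : 𝔟 × 𝔟 => if p.1 ≠ p.2 ∧ (p.1 : 𝓞 K) ∈ 𝔫 * 𝔟 ∧ (p.2 : 𝓞 K) ∈ 𝔫' * 𝔟 ∧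
          (p.1 : 𝓞 K) - p.2 ∈ 𝔡 * 𝔟 then
        Real.exp (-c * qn (fun w => Yv K u x w * w ((p.1 : 𝓞 K) : K))) *
          Real.exp (-c * qn (fun w => Yv K u x w * w ((p.2 : 𝓞 K) : K))) else 0) ∧
      ∑' p : 𝔟 × 𝔟, (if p.1 ≠ p.2 ∧ (p.1 : 𝓞 K) ∈ 𝔫 * 𝔟 ∧ (p.2 : 𝓞 K) ∈ 𝔫' * 𝔟 ∧
          (p.1 : 𝓞 K) - p.2 ∈ 𝔡 * 𝔟 then
        Real.exp (-c * qn (fun w => Yv K u x w * w ((p.1 : 𝓞 K) : K))) *
          Real.exp (-c * qn (fun w => Yv K u x w * w ((p.2 : 𝓞 K) : K))) else 0) ≤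
        C * ((Real.exp (-u) / (Ideal.absNorm 𝔡 * Ideal.absNorm (𝔫 ⊔ 𝔫'))) ^ A *
          (1 + Real.exp (-u) / Ideal.absNorm (𝔫 ⊓ 𝔫'))) := by
  obtain ⟨C1, hC10, hC1⟩ := md2_nz K (show 0 < c / 4 by positivity) hA
  obtain ⟨C2, hC20, hC2⟩ := md2_fibre K (show 0 < c / 2 by positivity)
  refine ⟨C1 * C2, by positivity, fun 𝔡 𝔫 𝔫' h𝔡 h𝔫 h𝔫' hc1 hc2 u x => ?_⟩
  have hpos : ∀ I : Ideal (𝓞 K), I ≠ ⊥ → (1 : ℝ) ≤ Ideal.absNorm I := by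
    intro I hI
    have : 0 < Ideal.absNorm I := by
      rw [Nat.pos_iff_ne_zero, Ne, Ideal.absNorm_eq_zero_iff]
      exact hI
    exact_mod_cast this
  have hsup : 𝔫 ⊔ 𝔫' ≠ ⊥ := fun h => h𝔫 (le_bot_iff.1 (h ▸ le_sup_left))
  have hinf : 𝔫 ⊓ 𝔫' ≠ ⊥ := by
    intro h
    have h1 : 𝔫 * 𝔫' ≤ ⊥ := h ▸ Ideal.mul_le_inf
    rcases Ideal.mul_eq_bot.1 (le_bot_iff.1 h1) with h2 | h2
    · exact h𝔫 h2
    · exact h𝔫' h2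
  have hg : 𝔡 * (𝔫 ⊔ 𝔫') * 𝔟 ≠ ⊥ := by
    intro h
    rcases Ideal.mul_eq_bot.1 h with h2 | h2
    · rcases Ideal.mul_eq_bot.1 h2 with h3 | h3
      · exact h𝔡 h3
      · exact hsup h3
    · exact h𝔟 h2
  have hm : (𝔫 ⊓ 𝔫') ≠ ⊥ := hinf
  obtain ⟨hS1, hB1⟩ := hC1 (𝔡 * (𝔫 ⊔ 𝔫') * 𝔟) hg u x
  have hfib := fun δ : 𝓞 K => hC2 (𝔫 * 𝔟) (𝔫' * 𝔟) (𝔫 ⊓ 𝔫') hinf
    (inf_le_inf Ideal.mul_le_left Ideal.mul_le_left) δ u x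
  set a : 𝓞 K → ℝ := fun δ => if δ ∈ 𝔡 * (𝔫 ⊔ 𝔫') * 𝔟 ∧ δ ≠ 0 then
    Real.exp (-(c / 4) * qn (fun w => Yv K u x w * w (δ : K))) else 0 with ha
  set b : 𝓞 K → 𝓞 K → ℝ := fun δ α => if α ∈ 𝔫 * 𝔟 ∧ α - δ ∈ 𝔫' * 𝔟 then
    Real.exp (-(c / 2) * qn (fun w => Yv K u x w * w (α : K))) else 0 with hb
  have ha0 : ∀ δ, 0 ≤ a δ := by
    intro δ
    simp only [ha]
    split_ifs
    · exact (Real.exp_pos _).le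
    · exact le_rfl
  have hb0 : ∀ δ α, 0 ≤ b δ α := by
    intro δ α
    simp only [hb]
    split_ifs
    · exact (Real.exp_pos _).le
    · exact le_rfl
  set T : ℝ := C2 * (1 + Real.exp (-u) / Ideal.absNorm (𝔫 ⊓ 𝔫')) with hT
  have hT0 : 0 ≤ T := by positivity
  have hin : ∀ δ, Summable (fun α => a δ * b δ α) := fun δ => (hfib δ).1.mul_left (a δ)
  have hout : ∀ δ, ∑' α, a δ * b δ α ≤ T * a δ := by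
    intro δ
    rw [tsum_mul_left, mul_comm]
    exact mul_le_mul_of_nonneg_right (hfib δ).2 (ha0 δ)
  have hout0 : ∀ δ, 0 ≤ ∑' α, a δ * b δ α := fun δ =>
    tsum_nonneg fun α => mul_nonneg (ha0 δ) (hb0 δ α)
  have hSout : Summable (fun δ => ∑' α, a δ * b δ α) :=
    Summable.of_nonneg_of_le hout0 hout (hS1.mul_left T)
  have hG : Summable (fun q : 𝓞 K × 𝓞 K => a q.1 * b q.1 q.2) :=
    (summable_prod_of_nonneg fun q => mul_nonneg (ha0 _) (hb0 _ _)).2 ⟨hin, hSout⟩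
  have hGle : ∑' q : 𝓞 K × 𝓞 K, a q.1 * b q.1 q.2 ≤
      T * (C1 * (Real.exp (-u) / Ideal.absNorm (𝔡 * (𝔫 ⊔ 𝔫') * 𝔟)) ^ A) := by
    rw [hG.tsum_prod' hin]
    calc ∑' δ, ∑' α, a δ * b δ α ≤ ∑' δ, T * a δ := hSout.tsum_le_tsum hout (hS1.mul_left T)
      _ = T * ∑' δ, a δ := tsum_mul_left
      _ ≤ _ := mul_le_mul_of_nonneg_left hB1 hT0
  -- the injection
  set e : 𝔟 × 𝔟 → 𝓞 K × 𝓞 K := fun p => ((p.1 : 𝓞 K) - p.2, (p.1 : 𝓞 K)) with he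
  have hinj : Function.Injective e := by
    rintro ⟨p1, p2⟩ ⟨q1, q2⟩ h
    simp only [he, Prod.mk.injEq] at h
    obtain ⟨h1, h2⟩ := h
    rw [h2] at h1
    rw [Prod.mk.injEq]
    exact ⟨Subtype.ext h2, Subtype.ext (sub_right_injective h1)⟩
  have hnn : ∀ p : 𝔟 × 𝔟, 0 ≤ (if p.1 ≠ p.2 ∧ (p.1 : 𝓞 K) ∈ 𝔫 * 𝔟 ∧ (p.2 : 𝓞 K) ∈ 𝔫' * 𝔟 ∧
          (p.1 : 𝓞 K) - p.2 ∈ 𝔡 * 𝔟 then
        Real.exp (-c * qn (fun w => Yv K u x w * w ((p.1 : 𝓞 K) : K))) *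
          Real.exp (-c * qn (fun w => Yv K u x w * w ((p.2 : 𝓞 K) : K))) else 0) := by
    intro p
    split_ifs
    · positivity
    · exact le_rfl
  have hpt : ∀ p : 𝔟 × 𝔟, (if p.1 ≠ p.2 ∧ (p.1 : 𝓞 K) ∈ 𝔫 * 𝔟 ∧ (p.2 : 𝓞 K) ∈ 𝔫' * 𝔟 ∧
          (p.1 : 𝓞 K) - p.2 ∈ 𝔡 * 𝔟 then
        Real.exp (-c * qn (fun w => Yv K u x w * w ((p.1 : 𝓞 K) : K))) *
          Real.exp (-c * qn (fun w => Yv K u x w * w ((p.2 : 𝓞 K) : K))) else 0) ≤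
        a (e p).1 * b (e p).1 (e p).2 := by
    intro p
    by_cases h : p.1 ≠ p.2 ∧ (p.1 : 𝓞 K) ∈ 𝔫 * 𝔟 ∧ (p.2 : 𝓞 K) ∈ 𝔫' * 𝔟 ∧
          (p.1 : 𝓞 K) - p.2 ∈ 𝔡 * 𝔟
    · obtain ⟨h1, h2, h3, h4⟩ := h
      rw [if_pos ⟨h1, h2, h3, h4⟩]
      have h5 : (p.1 : 𝓞 K) - p.2 ≠ 0 := fun h5 => h1 (Subtype.ext (sub_eq_zero.1 h5))
      have h6 := md2_mem hc1 h2 h3 h4
      have ea : a (e p).1 = Real.exp (-(c / 4) *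
          qn (fun w => Yv K u x w * w (((p.1 : 𝓞 K) - (p.2 : 𝓞 K) : 𝓞 K) : K))) := by
        simp only [ha, he]
        rw [if_pos ⟨h6, h5⟩]
      have eb : b (e p).1 (e p).2 = Real.exp (-(c / 2) *
          qn (fun w => Yv K u x w * w ((p.1 : 𝓞 K) : K))) := by
        simp only [hb, he]
        rw [if_pos ⟨h2, by rwa [sub_sub_cancel]⟩]
      rw [ea, eb, ← Real.exp_add, ← Real.exp_add]
      apply Real.exp_le_exp.mpr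
      have h7 := md2_qn_sub u x ((p.1 : 𝓞 K) : K) ((p.2 : 𝓞 K) : K)
      have h8 : (((p.1 : 𝓞 K) - (p.2 : 𝓞 K) : 𝓞 K) : K) = ((p.1 : 𝓞 K) : K) - ((p.2 : 𝓞 K) : K) := by
        push_cast
        ring
      rw [h8]
      have h9 : 0 ≤ qn (fun w => Yv K u x w * w ((p.2 : 𝓞 K) : K)) :=
        Finset.sum_nonneg fun w _ => by positivity
      nlinarith
    · rw [if_neg h]
      exact mul_nonneg (ha0 _) (hb0 _ _)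
  have hSe : Summable (fun p : 𝔟 × 𝔟 => a (e p).1 * b (e p).1 (e p).2) := hG.comp_injective hinj
  have hS := Summable.of_nonneg_of_le hnn hpt hSe
  refine ⟨hS, ?_⟩
  have h1 := Summable.tsum_le_tsum_of_inj e hinj
    (fun q _ => mul_nonneg (ha0 q.1) (hb0 q.1 q.2)) hpt hS hG
  refine h1.trans (hGle.trans ?_)
  have h2 : (Real.exp (-u) / Ideal.absNorm (𝔡 * (𝔫 ⊔ 𝔫') * 𝔟)) ^ A ≤
      (Real.exp (-u) / (Ideal.absNorm 𝔡 * Ideal.absNorm (𝔫 ⊔ 𝔫'))) ^ A := by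
    have hd1 := hpos 𝔡 h𝔡
    have hd2 := hpos _ hsup
    have hd3 := hpos 𝔟 h𝔟
    refine Real.rpow_le_rpow (by positivity) ?_ (by linarith)
    refine div_le_div_of_nonneg_left (Real.exp_pos _).le (by positivity) ?_
    rw [map_mul, map_mul]
    push_cast
    exact le_mul_of_one_le_right (by positivity) hd3
  calc T * (C1 * (Real.exp (-u) / Ideal.absNorm (𝔡 * (𝔫 ⊔ 𝔫') * 𝔟)) ^ A) ≤
      T * (C1 * (Real.exp (-u) / (Ideal.absNorm 𝔡 * Ideal.absNorm (𝔫 ⊔ 𝔫'))) ^ A) :=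
        mul_le_mul_of_nonneg_left (mul_le_mul_of_nonneg_left h2 hC10) hT0
    _ = _ := by
        rw [hT]
        ring


end Pool.Agent.LVK

namespace Pool.Agent.LVK

theorem off_diag : type_of% @off_diag_pr := @off_diag_pr

end Pool.Agent.LVK
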