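import Pool.Agent.Lib_helper42.LVK.Defs
import Pool.Agent.Lib_helper41.HZF.YB
import Pool.Agent.Lib_helper41.HZF.KG
import Pool.Agent.Lib_helper92.KSA.BRG
import Pool.Agent.Lib_helper92.KSA.LATU
import Pool.Agent.Lib_helper92.KSA.LNZ
import Pool.Agent.Lib_helper39.LVX.K_MA1

namespace Pool.Agent.LVK

open NumberField NumberField.InfinitePlace NumberField.Units Complex MeasureTheory Filter Topology
open Pool.Agent.HZ Pool.Agent.AS Pool.Agent.KS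

variable {K : Type} [Field K] [NumberField K]

variable {𝔮 : Ideal (𝓞 K)} {κ : InfinitePlace K → ℤ}

/-- pointwise bound for the terms -/
theorem Hh_le_pr (κ : InfinitePlace K → ℤ) (T : TD K) : ∃ C c : ℝ, 0 ≤ C ∧ 0 < c ∧
    ∀ (y : InfinitePlace K → ℝ), (∀ w, 0 < y w) → ∀ a : K, a ≠ 0 →
      ‖Hh κ T y a‖ = ‖fT κ T (fun w => y w * w a)‖ ∧
      ‖Hh κ T y a‖ ≤ C * Real.exp (-c * qn (fun w => y w * w a)) := by
  obtain ⟨C, c, hC, hc, -, hb⟩ := fT_good κ T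
  refine ⟨C, c, hC, hc, fun y hy a ha => ?_⟩
  have h1 : ‖Hh κ T y a‖ = ‖fT κ T (fun w => y w * w a)‖ := by
    unfold Hh
    rw [norm_mul, norm_prod]
    have : ∏ w : InfinitePlace K, ‖(w.embedding a / (w a : ℂ)) ^ κ w‖ = 1 := by
      refine Finset.prod_eq_one fun w _ => ?_
      rw [norm_zpow, inf_unit w ha, one_zpow]
    rw [this, mul_one]
  refine ⟨h1, ?_⟩
  rw [h1]
  refine hb _ fun w => ?_
  exact mul_pos (hy w) (lt_of_le_of_ne (apply_nonneg w a) (inf_ne w ha).symm)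

theorem me1a_psiInf (κ : InfinitePlace K → ℤ) (lam : InfinitePlace K → ℝ) {a : K} (ha : a ≠ 0) :
    (psiInf κ lam a)⁻¹ * ∏ w : InfinitePlace K, (w.embedding a / (w a : ℂ)) ^ κ w =
      cexp (((∑ w, lam w * Real.log (w a) : ℝ) : ℂ) * I) := by
  have hE : cexp (((∑ w, lam w * Real.log (w a) : ℝ) : ℂ) * I) =
      ∏ w, cexp (((lam w * Real.log (w a) : ℝ) : ℂ) * I) := by
    rw [← Complex.exp_sum]
    congr 1
    push_cast
    rw [Finset.sum_mul]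
  rw [hE]
  unfold psiInf
  rw [← Finset.prod_inv_distrib, ← Finset.prod_mul_distrib]
  refine Finset.prod_congr rfl fun w _ => ?_
  have hu : (w.embedding a / (w a : ℂ)) ^ κ w ≠ 0 := by
    apply zpow_ne_zero
    intro h
    have := inf_unit w ha
    rw [h, norm_zero] at this
    exact zero_ne_one this
  rw [mul_inv, ← Complex.exp_neg, neg_mul, neg_neg]
  field_simp

/-- the pointwise identity -/
theorem me1a_FT (κ : InfinitePlace K → ℤ) {lam : InfinitePlace K → ℝ} (hlam : ∑ w, lam w = 0)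
    (T : TD K) (u : ℝ) (x : Fin (rank K) → ℝ) {a : K} (ha : a ≠ 0) :
    FT κ lam T (fun w => Yv K u x w * w a) =
      (psiInf κ lam a)⁻¹ * Hh κ T (Yv K u x) a * eth lam x := by
  have h1 : ∑ w, lam w * Real.log (Yv K u x w * w a) =
      ∑ i, th lam i * x i + ∑ w, lam w * Real.log (w a) := by
    rw [← th_Yv hlam u x, ← Finset.sum_add_distrib]
    refine Finset.sum_congr rfl fun w _ => ?_
    have hwa : 0 < w a := lt_of_le_of_ne (apply_nonneg w a) (inf_ne w ha).symm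
    rw [Real.log_mul (Yv_pos u x w).ne' hwa.ne']
    ring
  unfold FT
  rw [h1]
  have h2 : cexp (((∑ i, th lam i * x i + ∑ w, lam w * Real.log (w a) : ℝ) : ℂ) * I) =
      eth lam x * cexp (((∑ w, lam w * Real.log (w a) : ℝ) : ℂ) * I) := by
    unfold eth
    rw [← Complex.exp_add]
    congr 1
    push_cast
    ring
  rw [h2, ← me1a_psiInf κ lam ha]
  unfold Hh
  ring

omit [NumberField K] in
theorem me1a_quo_zero (𝔟 : Ideal (𝓞 K)) : quo 𝔟 0 = ⊥ := by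
  unfold quo
  simp

theorem unfold_t_pr (h𝔮 : 𝔮 ≠ ⊥) (h𝔮' : 𝔮 ≠ ⊤) (T : TD K) {t : HDat 𝔮} (ht : t ∈ FamK 𝔮 κ)
    {𝔟 : Ideal (𝓞 K)} (h𝔟 : 𝔟 ≠ ⊥) {g : 𝓞 K} {ρ : 𝓞 K → 𝓞 K ⧸ 𝔮} (hg : g ∈ 𝔟) (hg0 : g ≠ 0)
    (hgc : IsCoprime (quo 𝔟 g) 𝔮)
    (hρ : ∀ α ∈ 𝔟, ∀ a : 𝓞 K, ρ α = Ideal.Quotient.mk 𝔮 a ↔ α - a * g ∈ 𝔮 * 𝔟)
    {b : Ideal (𝓞 K) → ℂ} {β : ℝ} (hb : ∀ 𝔠, ‖b 𝔠‖ ≤ β) (hb0 : b ⊥ = 0) (u : ℝ) :
    (torsionOrder K : ℂ) * Scl 𝔟 (fun 𝔠 => b 𝔠 * t.ψ 𝔠) (FT κ t.lam T)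
        (u + Real.log (Ideal.absNorm 𝔟)) =
      tw κ t.lam t.ψ 𝔟 g * ∫ x in Set.Icc (0 : Fin (rank K) → ℝ) 1, eth t.lam x *
        ∑' α : 𝔟, t.χ (ρ α) * (b (quo 𝔟 α) * Hh κ T (Yv K u x) ((α : 𝓞 K) : K)) := by
  obtain ⟨hκ, hprim, hψ, hlam⟩ := ht
  rw [hκ] at hψ
  obtain ⟨C, c, hG⟩ := FT_good κ T
  have hb' : ∀ 𝔠, ‖b 𝔠 * t.ψ 𝔠‖ ≤ β := fun 𝔠 => by
    rw [norm_mul]
    calc ‖b 𝔠‖ * ‖t.ψ 𝔠‖ ≤ ‖b 𝔠‖ * 1 :=
          mul_le_mul_of_nonneg_left (hψ.norm_le 𝔠) (norm_nonneg _)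
      _ ≤ β := by rw [mul_one]; exact hb 𝔠
  have h := (unfold_units h𝔟 (hG t.lam) (b := fun 𝔠 => b 𝔠 * t.ψ 𝔠) hb'
    (by simp only [hb0, zero_mul]) 1 (Or.inl rfl) u).2
  rw [← h, ← integral_const_mul]
  refine integral_congr_ae (ae_of_all _ fun x => ?_)
  simp only [one_smul]
  rw [← tsum_mul_left, ← tsum_mul_left]
  refine tsum_congr fun α => ?_
  by_cases h0 : (α : 𝓞 K) = 0
  · rw [h0, me1a_quo_zero, hb0]
    simp
  · obtain ⟨a, ha⟩ := Ideal.Quotient.mk_surjective (ρ α)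
    have h1 := (hρ α α.2 a).mp ha.symm
    have h2 := tw_eq h𝔮 hψ h𝔟 hg hg0 hgc α.2 h0 h1
    have h0' : ((α : 𝓞 K) : K) ≠ 0 := by simpa using h0
    rw [me1a_FT κ hlam T u x h0', ← ha]
    have h3 : tw κ t.lam t.ψ 𝔟 (α : 𝓞 K) =
      t.ψ (quo 𝔟 α) * (psiInf κ t.lam ((α : 𝓞 K) : K))⁻¹ := rfl
    rw [h3] at h2
    linear_combination (b (quo 𝔟 ↑α) * Hh κ T (Yv K u x) ((α : 𝓞 K) : K) * eth t.lam x) * h2


end Pool.Agent.LVK

namespace Pool.Agent.LVK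

theorem Hh_le : type_of% @Hh_le_pr := @Hh_le_pr
theorem unfold_t : type_of% @unfold_t_pr := @unfold_t_pr

end Pool.Agent.LVK
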