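import Pool.Agent.Lib_helper42.LVK.Defs
import Pool.Agent.Lib_helper41.HZF.YB
import Pool.Agent.Lib_helper41.HZF.KG
import Pool.Agent.Lib_helper92.KSA.BRG
import Pool.Agent.Lib_helper92.KSA.LATU
import Pool.Agent.Lib_helper92.KSA.LNZ
import Pool.Agent.Lib_helper39.LVX.K_MA1
import Pool.Agent.Lib_helper39.LVX.K_ME1A

/-!
# LVK part M, block ME1B: integrability of the unfolded sums
-/

namespace Pool.Agent.LVK

open NumberField NumberField.InfinitePlace NumberField.Units Complex MeasureTheory Filter Topology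
open Pool.Agent.HZ Pool.Agent.AS Pool.Agent.KS

variable {K : Type} [Field K] [NumberField K]

variable {𝔮 : Ideal (𝓞 K)} {κ : InfinitePlace K → ℤ}

theorem me1b_char_le {R : Type*} [CommRing R] [Finite R] (χ : MulChar R ℂ) (x : R) :
    ‖χ x‖ ≤ 1 := by
  classical
  have := Fintype.ofFinite R
  by_cases hx : IsUnit x
  · obtain ⟨u, rfl⟩ := hx
    have h1 : χ ^ Fintype.card Rˣ = 1 := MulChar.pow_card_eq_one χ
    have h2 : (χ (u : R)) ^ Fintype.card Rˣ = 1 := by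
      rw [← MulChar.pow_apply_coe, h1, MulChar.one_apply_coe]
    exact (norm_eq_one_of_pow_eq_one h2 Fintype.card_ne_zero).le
  · rw [MulChar.map_nonunit χ hx, norm_zero]
    exact zero_le_one

/-- a positive lower bound for the unit coordinates on the cube -/
theorem me1b_lower (u : ℝ) : ∃ m : InfinitePlace K → ℝ, (∀ w, 0 < m w) ∧
    ∀ x ∈ Set.Icc (0 : Fin (rank K) → ℝ) 1, ∀ w, m w ≤ Yv K u x w := by
  have h1 : ∀ w : InfinitePlace K, ∃ x₀ ∈ Set.Icc (0 : Fin (rank K) → ℝ) 1,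
      IsMinOn (fun x => Yv K u x w) (Set.Icc (0 : Fin (rank K) → ℝ) 1) x₀ := fun w =>
    isCompact_Icc.exists_isMinOn (Set.nonempty_Icc.2 zero_le_one)
      ((continuous_apply w).comp (kgb_cont_x (K := K) u)).continuousOn
  choose x₀ hx₀ hmin using h1
  exact ⟨fun w => Yv K u (x₀ w) w, fun w => Yv_pos u _ w, fun x hx w => hmin w hx⟩

theorem me1b_qn_mono {y z : InfinitePlace K → ℝ} (hy : ∀ w, 0 ≤ y w) (h : ∀ w, y w ≤ z w) :
    qn y ≤ qn z := by
  unfold qn
  exact Finset.sum_le_sum fun w _ =>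
    mul_le_mul_of_nonneg_left (pow_le_pow_left₀ (hy w) (h w) 2) (Nat.cast_nonneg _)

/-- the terms are continuous in `x` -/
theorem me1b_cont (T : TD K) (u : ℝ) {a : K} (ha : a ≠ 0) :
    Continuous (fun x : Fin (rank K) → ℝ => Hh κ T (Yv K u x) a) := by
  obtain ⟨C, c, hG⟩ := fT_good κ T
  unfold Hh
  refine Continuous.mul ?_ continuous_const
  refine hG.2.2.1.comp_continuous (f := fun x : Fin (rank K) → ℝ =>
    fun w => Yv K u x w * w a) ?_ ?_
  · exact continuous_pi fun w =>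
      ((continuous_apply w).comp (kgb_cont_x (K := K) u)).mul continuous_const
  · intro x w
    exact mul_pos (Yv_pos u x w) (w.pos_iff.2 ha)

theorem unfold_int_pr (T : TD K) {𝔟 : Ideal (𝓞 K)} (h𝔟 : 𝔟 ≠ ⊥) (χ : MulChar (𝓞 K ⧸ 𝔮) ℂ)
    (ρ : 𝓞 K → 𝓞 K ⧸ 𝔮) {b : Ideal (𝓞 K) → ℂ} {β : ℝ} (hb : ∀ 𝔠, ‖b 𝔠‖ ≤ β) (hb0 : b ⊥ = 0)
    (h𝔮 : 𝔮 ≠ ⊥) (u : ℝ) :
    (∀ x : Fin (rank K) → ℝ, Summable fun α : 𝔟 =>
      ‖b (quo 𝔟 α) * Hh κ T (Yv K u x) ((α : 𝓞 K) : K)‖) ∧
    IntegrableOn (fun x => ∑' α : 𝔟, χ (ρ α) * (b (quo 𝔟 α) *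
      Hh κ T (Yv K u x) ((α : 𝓞 K) : K))) (Set.Icc 0 1) ∧
    IntegrableOn (fun x => ‖∑' α : 𝔟, χ (ρ α) * (b (quo 𝔟 α) *
      Hh κ T (Yv K u x) ((α : 𝓞 K) : K))‖ ^ 2) (Set.Icc 0 1) := by
  obtain ⟨C, c, hC, hc, hH⟩ := Hh_le κ T
  have hβ : 0 ≤ β := (norm_nonneg _).trans (hb ⊥)
  have hfin : Finite (𝓞 K ⧸ 𝔮) := Ideal.finiteQuotientOfFreeOfNeBot 𝔮 h𝔮
  have hle : ∀ (x : Fin (rank K) → ℝ) (α : 𝔟),
      ‖b (quo 𝔟 α) * Hh κ T (Yv K u x) ((α : 𝓞 K) : K)‖ ≤
        β * C * Real.exp (-c * qn (fun w => Yv K u x w * w ((α : 𝓞 K) : K))) := by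
    intro x α
    by_cases hα : (α : 𝓞 K) = 0
    · rw [hα, unf_quo_zero, hb0, zero_mul, norm_zero]
      positivity
    · have hα' : ((α : 𝓞 K) : K) ≠ 0 := by simpa using hα
      rw [norm_mul, mul_assoc]
      exact mul_le_mul (hb _) (hH (Yv K u x) (fun w => Yv_pos u x w) _ hα').2 (norm_nonneg _) hβ
  obtain ⟨m, hm, hmY⟩ := me1b_lower (K := K) u
  have hsum : Summable (fun α : 𝔟 =>
      β * C * Real.exp (-c * qn (fun w => m w * w ((α : 𝓞 K) : K)))) := by
    have := (lattice_summable 𝔟 hc m hm 0).mul_left (β * C)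
    simpa using this
  have hcont : ContinuousOn (fun x => ∑' α : 𝔟, χ (ρ α) * (b (quo 𝔟 α) *
      Hh κ T (Yv K u x) ((α : 𝓞 K) : K))) (Set.Icc (0 : Fin (rank K) → ℝ) 1) := by
    refine continuousOn_tsum (fun α => ?_) hsum fun α x hx => ?_
    · by_cases hα : (α : 𝓞 K) = 0
      · have h0 : (fun x : Fin (rank K) → ℝ => χ (ρ α) * (b (quo 𝔟 α) *
            Hh κ T (Yv K u x) ((α : 𝓞 K) : K))) = fun _ => 0 := by
          funext x
          rw [hα, unf_quo_zero, hb0, zero_mul, mul_zero]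
        rw [h0]
        exact continuousOn_const
      · have hα' : ((α : 𝓞 K) : K) ≠ 0 := by simpa using hα
        exact (continuous_const.mul (continuous_const.mul
          (me1b_cont T u hα'))).continuousOn
    · rw [norm_mul]
      calc ‖χ (ρ α)‖ * ‖b (quo 𝔟 α) * Hh κ T (Yv K u x) ((α : 𝓞 K) : K)‖ ≤
          1 * (β * C * Real.exp (-c * qn (fun w => Yv K u x w * w ((α : 𝓞 K) : K)))) :=
            mul_le_mul (me1b_char_le χ _) (hle x α) (norm_nonneg _) zero_le_one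
        _ ≤ β * C * Real.exp (-c * qn (fun w => m w * w ((α : 𝓞 K) : K))) := by
            rw [one_mul]
            refine mul_le_mul_of_nonneg_left (Real.exp_le_exp.2 ?_) (by positivity)
            have h1 : qn (fun w => m w * w ((α : 𝓞 K) : K)) ≤
                qn (fun w => Yv K u x w * w ((α : 𝓞 K) : K)) :=
              me1b_qn_mono (fun w => mul_nonneg (hm w).le (apply_nonneg w _)) fun w =>
                mul_le_mul_of_nonneg_right (hmY x hx w) (apply_nonneg w _)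
            have h2 := mul_le_mul_of_nonneg_left h1 hc.le
            linarith
  refine ⟨fun x => ?_, hcont.integrableOn_compact isCompact_Icc,
    (hcont.norm.pow 2).integrableOn_compact isCompact_Icc⟩
  refine Summable.of_nonneg_of_le (fun α => norm_nonneg _) (hle x) ?_
  have := (lattice_summable 𝔟 hc (Yv K u x) (fun w => Yv_pos u x w) 0).mul_left (β * C)
  simpa using this


end Pool.Agent.LVK

namespace Pool.Agent.LVK

theorem unfold_int : type_of% @unfold_int_pr := @unfold_int_pr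

end Pool.Agent.LVK
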