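import Pool.Agent.Lib_helper42.LVK.Defs
import Pool.Agent.Lib_helper41.HZF.YB
import Pool.Agent.Lib_helper41.HZF.KG
import Pool.Agent.Lib_helper92.KSA.BRG
import Pool.Agent.Lib_helper92.KSA.LATU
import Pool.Agent.Lib_helper92.KSA.LNZ
import Pool.Agent.Lib_helper39.LVX.K_MA1
import Pool.Agent.Lib_helper39.LVX.K_ME1A

/-! LVK block ME2: folding back the diagonal. -/

namespace Pool.Agent.LVK

open NumberField NumberField.InfinitePlace NumberField.Units Complex MeasureTheory Filter Topology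
open Pool.Agent.HZ Pool.Agent.AS Pool.Agent.KS

variable {K : Type} [Field K] [NumberField K]

variable {𝔮 : Ideal (𝓞 K)} {κ : InfinitePlace K → ℤ}

/-- The square of the absolute value of the test function, as a complex valued function. -/
noncomputable def me2_F (κ : InfinitePlace K → ℤ) (T : TD K) (y : InfinitePlace K → ℝ) : ℂ :=
  ((‖fT κ T y‖ ^ 2 : ℝ) : ℂ)

theorem me2_good (κ : InfinitePlace K → ℤ) (T : TD K) : ∃ C c : ℝ, GoodF (me2_F κ T) C c := by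
  obtain ⟨C, c, hC, hc, hcont, hle⟩ := fT_good κ T
  refine ⟨C ^ 2, 2 * c, by positivity, by linarith, ?_, ?_⟩
  · unfold me2_F
    exact continuous_ofReal.comp_continuousOn (hcont.norm.pow 2)
  · intro y hy
    rw [me2_F, Complex.norm_real, Real.norm_of_nonneg (by positivity)]
    have h1 := hle y hy
    have h2 : ‖fT κ T y‖ ^ 2 ≤ (C * Real.exp (-c * qn y)) ^ 2 :=
      pow_le_pow_left₀ (norm_nonneg _) h1 2
    refine le_trans h2 (le_of_eq ?_)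
    rw [mul_pow, ← Real.exp_nat_mul]
    congr 2
    push_cast
    ring

theorem me2_kint (κ : InfinitePlace K → ℤ) (T : TD K) (v : ℝ) :
    kint K (me2_F κ T) v = ((kk κ T v : ℝ) : ℂ) := by
  unfold kint me2_F kk
  exact integral_ofReal

theorem fold_sq_pr (κ : InfinitePlace K → ℤ) (T : TD K)
    (rep : ClassGroup (𝓞 K) → Ideal (𝓞 K)) (h0 : ∀ c, rep c ≠ ⊥)
    (hrep : ∀ c, ClassGroup.mk0 ⟨rep c, mem_nonZeroDivisors_of_ne_zero (h0 c)⟩ = c)
    {b : Ideal (𝓞 K) → ℂ} {β : ℝ} (hb : ∀ 𝔠, ‖b 𝔠‖ ≤ β) (hb0 : b ⊥ = 0) (u : ℝ) :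
    (∀ c, IntegrableOn (fun x => ∑' α : rep c, ‖b (quo (rep c) α) *
      Hh κ T (Yv K (u - Real.log (Ideal.absNorm (rep c))) x) ((α : 𝓞 K) : K)‖ ^ 2)
        (Set.Icc (0 : Fin (rank K) → ℝ) 1)) ∧
    (Summable fun 𝔠 : Ideal (𝓞 K) => ‖b 𝔠‖ ^ 2 * kk κ T (u + Real.log (Ideal.absNorm 𝔠))) ∧
    ∑ c, ∫ x in Set.Icc (0 : Fin (rank K) → ℝ) 1, ∑' α : rep c, ‖b (quo (rep c) α) *
      Hh κ T (Yv K (u - Real.log (Ideal.absNorm (rep c))) x) ((α : 𝓞 K) : K)‖ ^ 2 =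
    torsionOrder K * ∑' 𝔠 : Ideal (𝓞 K), ‖b 𝔠‖ ^ 2 *
      kk κ T (u + Real.log (Ideal.absNorm 𝔠)) := by
  classical
  obtain ⟨C, c₀, hF⟩ := me2_good κ T
  obtain ⟨CH, cH, _, _, hH⟩ := Hh_le κ T
  set b' : Ideal (𝓞 K) → ℂ := fun 𝔠 => ((‖b 𝔠‖ ^ 2 : ℝ) : ℂ) with hb'
  have hb'n : ∀ 𝔠, ‖b' 𝔠‖ ≤ β ^ 2 := by
    intro 𝔠
    rw [hb']
    show ‖((‖b 𝔠‖ ^ 2 : ℝ) : ℂ)‖ ≤ β ^ 2
    rw [Complex.norm_real, Real.norm_of_nonneg (by positivity)]
    exact pow_le_pow_left₀ (norm_nonneg _) (hb 𝔠) 2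
  have hb'0 : b' ⊥ = 0 := by
    rw [hb']
    show ((‖b ⊥‖ ^ 2 : ℝ) : ℂ) = 0
    rw [hb0]
    simp
  -- the real and the complex summands
  have hterm : ∀ (c : ClassGroup (𝓞 K)) (x : Fin (rank K) → ℝ) (α : rep c),
      ((‖b (quo (rep c) α) * Hh κ T (Yv K (u - Real.log (Ideal.absNorm (rep c))) x)
        ((α : 𝓞 K) : K)‖ ^ 2 : ℝ) : ℂ) =
      b' (quo (rep c) α) * me2_F κ T (fun w =>
        Yv K (u - Real.log (Ideal.absNorm (rep c))) ((1 : ℝ) • x) w * w ((α : 𝓞 K) : K)) := by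
    intro c x α
    rw [one_smul]
    by_cases hα : (α : 𝓞 K) = 0
    · rw [hα, unf_quo_zero, hb0, hb'0]
      simp
    · have hαK : ((α : 𝓞 K) : K) ≠ 0 := RingOfIntegers.coe_ne_zero_iff.2 hα
      have h1 := (hH (Yv K (u - Real.log (Ideal.absNorm (rep c))) x)
        (fun w => Yv_pos _ _ _) ((α : 𝓞 K) : K) hαK).1
      rw [norm_mul, mul_pow, h1, hb', me2_F]
      push_cast
      rfl
  have hfun : ∀ (c : ClassGroup (𝓞 K)) (x : Fin (rank K) → ℝ),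
      ((∑' α : rep c, ‖b (quo (rep c) α) *
        Hh κ T (Yv K (u - Real.log (Ideal.absNorm (rep c))) x) ((α : 𝓞 K) : K)‖ ^ 2 : ℝ) : ℂ) =
      ∑' α : rep c, b' (quo (rep c) α) * me2_F κ T (fun w =>
        Yv K (u - Real.log (Ideal.absNorm (rep c))) ((1 : ℝ) • x) w * w ((α : 𝓞 K) : K)) := by
    intro c x
    rw [Complex.ofReal_tsum]
    exact tsum_congr fun α => hterm c x α
  have hunf := fun c : ClassGroup (𝓞 K) => unfold_units (h0 c) hF hb'n hb'0 1 (Or.inl rfl)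
    (u - Real.log (Ideal.absNorm (rep c)))
  have hint : ∀ c : ClassGroup (𝓞 K), IntegrableOn (fun x => ∑' α : rep c,
      ‖b (quo (rep c) α) * Hh κ T (Yv K (u - Real.log (Ideal.absNorm (rep c))) x)
        ((α : 𝓞 K) : K)‖ ^ 2) (Set.Icc (0 : Fin (rank K) → ℝ) 1) := by
    intro c
    have h1 := (hunf c).1
    have h2 : IntegrableOn (fun x : Fin (rank K) → ℝ => ((∑' α : rep c,
      ‖b (quo (rep c) α) * Hh κ T (Yv K (u - Real.log (Ideal.absNorm (rep c))) x)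
        ((α : 𝓞 K) : K)‖ ^ 2 : ℝ) : ℂ)) (Set.Icc (0 : Fin (rank K) → ℝ) 1) := by
      refine h1.congr ?_
      exact ae_of_all _ fun x => (hfun c x).symm
    have h3 := h2.re
    simp only [Complex.ofReal_re, RCLike.re_to_complex] at h3
    exact h3
  have hval : ∀ c : ClassGroup (𝓞 K), ((∫ x in Set.Icc (0 : Fin (rank K) → ℝ) 1,
      ∑' α : rep c, ‖b (quo (rep c) α) *
      Hh κ T (Yv K (u - Real.log (Ideal.absNorm (rep c))) x) ((α : 𝓞 K) : K)‖ ^ 2 : ℝ) : ℂ) =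
      (torsionOrder K : ℂ) * Scl (rep c) b' (me2_F κ T) u := by
    intro c
    rw [← integral_complex_ofReal]
    have h1 := (hunf c).2
    rw [sub_add_cancel] at h1
    rw [← h1]
    exact integral_congr_ae (ae_of_all _ fun x => hfun c x)
  have hcl := Dser_classes rep h0 hrep hF hb'n hb'0 u
  unfold Dser at hcl
  have hexp : ((Real.exp (u / 2) : ℝ) : ℂ) ≠ 0 := by
    rw [Complex.ofReal_ne_zero]
    exact (Real.exp_pos _).ne'
  have hcl2 := mul_left_cancel₀ hexp hcl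
  have hser : ∀ 𝔠 : Ideal (𝓞 K), b' 𝔠 * kint K (me2_F κ T) (u + Real.log (Ideal.absNorm 𝔠)) =
      ((‖b 𝔠‖ ^ 2 * kk κ T (u + Real.log (Ideal.absNorm 𝔠)) : ℝ) : ℂ) := by
    intro 𝔠
    rw [me2_kint, hb']
    push_cast
    rfl
  have hsum := Dser_summable hF hb'n hb'0 u
  have hsum2 : Summable fun 𝔠 : Ideal (𝓞 K) =>
      ‖b 𝔠‖ ^ 2 * kk κ T (u + Real.log (Ideal.absNorm 𝔠)) := by
    have h1 : Summable fun 𝔠 : Ideal (𝓞 K) =>
      ((‖b 𝔠‖ ^ 2 * kk κ T (u + Real.log (Ideal.absNorm 𝔠)) : ℝ) : ℂ) := by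
      refine hsum.congr fun 𝔠 => ?_
      exact hser 𝔠
    exact Complex.summable_ofReal.mp h1
  refine ⟨hint, hsum2, ?_⟩
  apply Complex.ofReal_injective
  rw [Complex.ofReal_sum, Finset.sum_congr rfl (fun c _ => hval c), ← Finset.mul_sum, ← hcl2,
    tsum_congr hser]
  push_cast
  rfl


end Pool.Agent.LVK

namespace Pool.Agent.LVK

theorem fold_sq : type_of% @fold_sq_pr := @fold_sq_pr

end Pool.Agent.LVK
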