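import Pool.Agent.Lib_helper42.LVK.Defs
import Pool.Agent.Lib_helper41.HZF.YB
import Pool.Agent.Lib_helper41.HZF.KG
import Pool.Agent.Lib_helper92.KSA.BRG
import Pool.Agent.Lib_helper92.KSA.LATU
import Pool.Agent.Lib_helper92.KSA.LNZ
import Pool.Agent.Lib_helper39.LVX.K_MC1A
import Pool.Agent.Lib_helper39.LVX.K_MC5
import Pool.Agent.Lib_helper39.LVX.K_MD2
import Pool.Agent.Lib_helper39.LVX.K_ME1A
import Pool.Agent.Lib_helper39.LVX.K_ME1B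

/-!
# LVK part M, block ME3: one class, all primitive characters
-/

namespace Pool.Agent.LVK

open NumberField NumberField.InfinitePlace NumberField.Units Complex MeasureTheory Filter Topology
open Pool.Agent.HZ Pool.Agent.AS Pool.Agent.KS

variable {K : Type} [Field K] [NumberField K]

variable {𝔮 : Ideal (𝓞 K)} {κ : InfinitePlace K → ℤ}

theorem me3_scal {N X A : ℝ} (hN : 1 ≤ N) (hX : 0 ≤ X) (hA : 1 ≤ A) : N * (X / N) ^ A ≤ X ^ A := by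
  have hN0 : 0 < N := lt_of_lt_of_le one_pos hN
  rw [Real.div_rpow hX hN0.le]
  have h1 : N ≤ N ^ A := Real.self_le_rpow_of_one_le hN hA
  have h2 : 0 < N ^ A := Real.rpow_pos_of_pos hN0 A
  rw [mul_div_assoc', div_le_iff₀ h2, mul_comm]
  exact mul_le_mul_of_nonneg_left h1 (Real.rpow_nonneg hX A)

theorem me3_norm {𝔡 : Ideal (𝓞 K)} (h : 𝔡 ≠ ⊥) : (1 : ℝ) ≤ Ideal.absNorm 𝔡 := by
  have : 0 < Ideal.absNorm 𝔡 := Nat.pos_of_ne_zero (by rwa [Ne, Ideal.absNorm_eq_zero_iff])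
  exact_mod_cast this

theorem me3_prod {ι : Type} (J : Finset ι) (f g : ι → ℝ) (C0 e1 e2 : ℝ) :
    (∑ i ∈ J, f i) * (C0 * e1) * ((∑ j ∈ J, g j) * (C0 * e2)) =
      ∑ i ∈ J, ∑ j ∈ J, f i * g j * (C0 ^ 2 * (e1 * e2)) := by
  have h1 : (∑ i ∈ J, f i) * (C0 * e1) * ((∑ j ∈ J, g j) * (C0 * e2)) =
      ((∑ i ∈ J, f i) * (∑ j ∈ J, g j)) * (C0 ^ 2 * (e1 * e2)) := by ring
  rw [h1, Finset.sum_mul_sum, Finset.sum_mul]
  exact Finset.sum_congr rfl fun i _ => by rw [Finset.sum_mul]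

theorem me3_tsum {ι P : Type} (J : Finset ι) (c : ι → ι → ℝ) (F : ι → ι → P → ℝ)
    (h : ∀ i ∈ J, ∀ j ∈ J, Summable (F i j)) :
    ∑' p, ∑ i ∈ J, ∑ j ∈ J, c i j * F i j p = ∑ i ∈ J, ∑ j ∈ J, c i j * ∑' p, F i j p := by
  have h1 : ∀ i ∈ J, ∀ j ∈ J, Summable fun p => c i j * F i j p :=
    fun i hi j hj => (h i hi j hj).mul_left _
  rw [Summable.tsum_finsetSum (fun i hi => summable_sum fun j hj => h1 i hi j hj)]
  refine Finset.sum_congr rfl fun i hi => ?_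
  rw [Summable.tsum_finsetSum (fun j hj => h1 i hi j hj)]
  exact Finset.sum_congr rfl fun j hj => tsum_mul_left

theorem me3_mem_mul {𝔟 : Ideal (𝓞 K)} {α : 𝓞 K} (hα : α ∈ 𝔟) (h0 : α ≠ 0) {m : Ideal (𝓞 K)}
    (h : m ∣ quo 𝔟 α) : α ∈ m * 𝔟 := by
  have h1 := quo_spec hα h0
  have h2 : m * 𝔟 ∣ Ideal.span {α} := by
    rw [← h1, mul_comm m 𝔟]
    exact mul_dvd_mul_left 𝔟 h
  exact Ideal.dvd_span_singleton.mp h2

omit [NumberField K] in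
theorem me3_quo_zero (𝔟 : Ideal (𝓞 K)) : quo 𝔟 (0 : 𝓞 K) = ⊥ := by
  unfold quo
  rw [dif_neg]
  simp

open scoped Classical in
theorem class_ineq_pr (κ : InfinitePlace K → ℤ) (T : TD K) {A : ℝ} (hA : 1 ≤ A)
    {𝔟 : Ideal (𝓞 K)} (h𝔟 : 𝔟 ≠ ⊥) : ∃ C : ℝ, 0 ≤ C ∧ ∀ (𝔮 : Ideal (𝓞 K)) (_ : 𝔮 ≠ ⊥)
      (g : 𝓞 K) (ρ : 𝓞 K → 𝓞 K ⧸ 𝔮) (_ : g ∈ 𝔟) (_ : g ≠ 0) (_ : IsCoprime (quo 𝔟 g) 𝔮)
      (_ : ∀ α ∈ 𝔟, ∀ a : 𝓞 K, ρ α = Ideal.Quotient.mk 𝔮 a ↔ α - a * g ∈ 𝔮 * 𝔟)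
      (ι : Type) (J : Finset ι) (n : ι → Ideal (𝓞 K)) (a : ι → ℝ)
      (_ : ∀ i ∈ J, 0 ≤ a i ∧ n i ≠ ⊥ ∧ IsCoprime (n i) 𝔮)
      (b : Ideal (𝓞 K) → ℂ) (_ : ∀ 𝔠, 𝔠 = ⊥ ∨ ¬ IsCoprime 𝔠 𝔮 → b 𝔠 = 0)
      (_ : ∀ 𝔠, ‖b 𝔠‖ ≤ ∑ i ∈ J, if n i ∣ 𝔠 then a i else 0)
      (E : Finset (MulChar (𝓞 K ⧸ 𝔮) ℂ)) (_ : ∀ χ ∈ E, IsPrim 𝔮 χ) (u : ℝ)
      (x : Fin (rank K) → ℝ),
      ∑ χ ∈ E, ‖∑' α : 𝔟, χ (ρ α) * (b (quo 𝔟 α) * Hh κ T (Yv K u x) ((α : 𝓞 K) : K))‖ ^ 2 ≤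
        nprim 𝔮 * ∑' α : 𝔟, ‖b (quo 𝔟 α) * Hh κ T (Yv K u x) ((α : 𝓞 K) : K)‖ ^ 2 +
        C * (2 ^ (QK 𝔮).card * ∑ i ∈ J, ∑ j ∈ J, a i * a j *
          ((Real.exp (-u) / Ideal.absNorm (n i ⊔ n j)) ^ A *
            (1 + Real.exp (-u) / Ideal.absNorm (n i ⊓ n j)))) := by
  obtain ⟨C0, c, hC0, hc, hH⟩ := Hh_le κ T
  obtain ⟨C1, hC1, hoff⟩ := off_diag (K := K) hc hA h𝔟
  refine ⟨C0 ^ 2 * C1, by positivity, ?_⟩
  intro 𝔮 h𝔮 g ρ hg hg0 hgc hρ ι J n a hJ b hb0 hbb E hE u x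
  choose la hla using fun y : 𝓞 K ⧸ 𝔮 => Ideal.Quotient.mk_surjective y
  set AA : 𝔟 → ℂ := fun α => b (quo 𝔟 α) * Hh κ T (Yv K u x) ((α : 𝓞 K) : K) with hAA
  have hρ' : ∀ α : 𝔟, (α : 𝓞 K) - la (ρ α) * g ∈ 𝔮 * 𝔟 := fun α =>
    (hρ α α.2 (la (ρ α))).1 (hla _).symm
  have hβ : ∀ 𝔠, ‖b 𝔠‖ ≤ ∑ i ∈ J, a i := fun 𝔠 => (hbb 𝔠).trans
    (Finset.sum_le_sum fun i hi => by
      split_ifs
      · exact le_rfl
      · exact (hJ i hi).1)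
  have hsA : Summable fun α => ‖AA α‖ :=
    (unfold_int T h𝔟 (1 : MulChar (𝓞 K ⧸ 𝔮) ℂ) ρ hβ (hb0 ⊥ (Or.inl rfl)) h𝔮 u).1 x
  obtain ⟨hp1, hp2⟩ := prim_ineq h𝔮 E hE (fun α : 𝔟 => la (ρ α)) AA hsA
  have hLHS : ∑ χ ∈ E, ‖∑' α : 𝔟, χ (ρ α) * AA α‖ ^ 2 =
      ∑ χ ∈ E, ‖∑' α : 𝔟, χ (Ideal.Quotient.mk 𝔮 (la (ρ α))) * AA α‖ ^ 2 := by
    simp only [hla]
  rw [hLHS]
  refine hp2.trans (add_le_add le_rfl ?_)
  set Z : ℝ := ∑ i ∈ J, ∑ j ∈ J, a i * a j *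
          ((Real.exp (-u) / Ideal.absNorm (n i ⊔ n j)) ^ A *
            (1 + Real.exp (-u) / Ideal.absNorm (n i ⊓ n j))) with hZ
  have hS : ∀ S ∈ (QK 𝔮).powerset, ∀ W : 𝔟 × 𝔟 → ℝ,
      (∀ p, (p.1 ≠ p.2 ∧ la (ρ p.1) - la (ρ p.2) ∈ dS 𝔮 S → W p = ‖AA p.1‖ * ‖AA p.2‖) ∧
        (¬ (p.1 ≠ p.2 ∧ la (ρ p.1) - la (ρ p.2) ∈ dS 𝔮 S) → W p = 0)) → Summable W →
      (Ideal.absNorm (dS 𝔮 S) : ℝ) * ∑' p, W p ≤ C0 ^ 2 * C1 * Z := by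
    intro S hS W hW hWs
    rw [Finset.mem_powerset] at hS
    have hle := le_dS h𝔮 hS
    have hne : dS 𝔮 S ≠ ⊥ := fun h => h𝔮 (le_bot_iff.1 (h ▸ hle))
    have hcop : ∀ i ∈ J, IsCoprime (n i) (dS 𝔮 S) := by
      intro i hi
      have h1 := (hJ i hi).2.2
      rw [Ideal.isCoprime_iff_sup_eq] at h1 ⊢
      exact top_le_iff.1 (h1 ▸ sup_le_sup_left hle (n i))
    set G : ι → ι → 𝔟 × 𝔟 → ℝ := fun i j p =>
      if p.1 ≠ p.2 ∧ (p.1 : 𝓞 K) ∈ n i * 𝔟 ∧ (p.2 : 𝓞 K) ∈ n j * 𝔟 ∧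
          (p.1 : 𝓞 K) - p.2 ∈ dS 𝔮 S * 𝔟 then
        Real.exp (-c * qn (fun w => Yv K u x w * w ((p.1 : 𝓞 K) : K))) *
          Real.exp (-c * qn (fun w => Yv K u x w * w ((p.2 : 𝓞 K) : K))) else 0 with hG
    have hG0 : ∀ i j p, 0 ≤ G i j p := by
      intro i j p
      simp only [hG]
      split_ifs
      · positivity
      · exact le_rfl
    have hGo : ∀ i ∈ J, ∀ j ∈ J, Summable (G i j) ∧ ∑' p, G i j p ≤
        C1 * ((Real.exp (-u) / (Ideal.absNorm (dS 𝔮 S) * Ideal.absNorm (n i ⊔ n j))) ^ A *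
          (1 + Real.exp (-u) / Ideal.absNorm (n i ⊓ n j))) := by
      intro i hi j hj
      exact hoff (dS 𝔮 S) (n i) (n j) hne (hJ i hi).2.1 (hJ j hj).2.1 (hcop i hi) (hcop j hj) u x
    have hpt : ∀ p : 𝔟 × 𝔟, W p ≤ ∑ i ∈ J, ∑ j ∈ J, a i * a j * C0 ^ 2 * G i j p := by
      intro p
      have hnn : 0 ≤ ∑ i ∈ J, ∑ j ∈ J, a i * a j * C0 ^ 2 * G i j p :=
        Finset.sum_nonneg fun i hi => Finset.sum_nonneg fun j hj => by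
          have h1 := (hJ i hi).1
          have h2 := (hJ j hj).1
          have h3 := hG0 i j p
          positivity
      by_cases hcond : p.1 ≠ p.2 ∧ la (ρ p.1) - la (ρ p.2) ∈ dS 𝔮 S
      swap
      · rw [(hW p).2 hcond]
        exact hnn
      rw [(hW p).1 hcond]
      have hz : ∀ α : 𝔟, (α : 𝓞 K) = 0 → ‖AA α‖ = 0 := by
        intro α hα
        simp only [hAA]
        rw [hα, me3_quo_zero, hb0 ⊥ (Or.inl rfl), zero_mul, norm_zero]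
      by_cases h10 : (p.1 : 𝓞 K) = 0
      · rw [hz _ h10, zero_mul]
        exact hnn
      by_cases h20 : (p.2 : 𝓞 K) = 0
      · rw [hz _ h20, mul_zero]
        exact hnn
      have hyp : ∀ w, 0 < Yv K u x w := fun w => Yv_pos u x w
      have hbd : ∀ α : 𝔟, (α : 𝓞 K) ≠ 0 → ‖AA α‖ ≤ (∑ i ∈ J, if n i ∣ quo 𝔟 α then a i else 0) *
          (C0 * Real.exp (-c * qn (fun w => Yv K u x w * w ((α : 𝓞 K) : K)))) := by
        intro α hα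
        simp only [hAA, norm_mul]
        have h1 : ((α : 𝓞 K) : K) ≠ 0 := by
          intro h
          apply hα
          exact_mod_cast h
        exact mul_le_mul (hbb _) (hH _ hyp _ h1).2 (norm_nonneg _)
          ((norm_nonneg _).trans (hbb _))
      have h1 := mul_le_mul (hbd p.1 h10) (hbd p.2 h20) (norm_nonneg _)
        ((norm_nonneg _).trans (hbd p.1 h10))
      refine h1.trans ?_
      set e1 := Real.exp (-c * qn (fun w => Yv K u x w * w ((p.1 : 𝓞 K) : K))) with he1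
      set e2 := Real.exp (-c * qn (fun w => Yv K u x w * w ((p.2 : 𝓞 K) : K))) with he2
      have h2 : (∑ i ∈ J, if n i ∣ quo 𝔟 p.1 then a i else 0) * (C0 * e1) *
          ((∑ j ∈ J, if n j ∣ quo 𝔟 p.2 then a j else 0) * (C0 * e2)) =
          ∑ i ∈ J, ∑ j ∈ J, (if n i ∣ quo 𝔟 p.1 then a i else 0) *
            (if n j ∣ quo 𝔟 p.2 then a j else 0) * (C0 ^ 2 * (e1 * e2)) := by
        exact me3_prod J _ _ C0 e1 e2
      rw [h2]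
      refine Finset.sum_le_sum fun i hi => Finset.sum_le_sum fun j hj => ?_
      have hai := (hJ i hi).1
      have haj := (hJ j hj).1
      have hGij := hG0 i j p
      split_ifs with hi1 hj1 hj1
      · have hmem : p.1 ≠ p.2 ∧ (p.1 : 𝓞 K) ∈ n i * 𝔟 ∧ (p.2 : 𝓞 K) ∈ n j * 𝔟 ∧
          (p.1 : 𝓞 K) - p.2 ∈ dS 𝔮 S * 𝔟 := by
          refine ⟨hcond.1, me3_mem_mul p.1.2 h10 hi1, me3_mem_mul p.2.2 h20 hj1, ?_⟩
          have h3 : (p.1 : 𝓞 K) - p.2 = ((p.1 : 𝓞 K) - la (ρ p.1) * g) -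
              ((p.2 : 𝓞 K) - la (ρ p.2) * g) + (la (ρ p.1) - la (ρ p.2)) * g := by ring
          rw [h3]
          have h4 : 𝔮 * 𝔟 ≤ dS 𝔮 S * 𝔟 := Ideal.mul_mono_left hle
          exact Ideal.add_mem _ (Ideal.sub_mem _ (h4 (hρ' p.1)) (h4 (hρ' p.2)))
            (Ideal.mul_mem_mul hcond.2 hg)
        have h5 : G i j p = e1 * e2 := by
          simp only [hG]
          rw [if_pos hmem]
        rw [h5]
        exact le_of_eq (by ring)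
      · rw [mul_zero, zero_mul]
        positivity
      · rw [zero_mul, zero_mul]
        positivity
      · rw [zero_mul, zero_mul]
        positivity
    have hsum1 : ∀ i ∈ J, ∀ j ∈ J, Summable fun p => a i * a j * C0 ^ 2 * G i j p :=
      fun i hi j hj => (hGo i hi j hj).1.mul_left _
    have hsum2 : Summable fun p => ∑ i ∈ J, ∑ j ∈ J, a i * a j * C0 ^ 2 * G i j p :=
      summable_sum fun i hi => summable_sum fun j hj => hsum1 i hi j hj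
    have h6 := hWs.tsum_le_tsum hpt hsum2
    have h7 : ∑' p, ∑ i ∈ J, ∑ j ∈ J, a i * a j * C0 ^ 2 * G i j p =
        ∑ i ∈ J, ∑ j ∈ J, a i * a j * C0 ^ 2 * ∑' p, G i j p :=
      me3_tsum J (fun i j => a i * a j * C0 ^ 2) G fun i hi j hj => (hGo i hi j hj).1
    rw [h7] at h6
    have hN1 := me3_norm hne
    have hN0 : (0 : ℝ) ≤ Ideal.absNorm (dS 𝔮 S) := by positivity
    refine (mul_le_mul_of_nonneg_left h6 hN0).trans ?_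
    rw [hZ, Finset.mul_sum, Finset.mul_sum]
    refine Finset.sum_le_sum fun i hi => ?_
    rw [Finset.mul_sum, Finset.mul_sum]
    refine Finset.sum_le_sum fun j hj => ?_
    have hai := (hJ i hi).1
    have haj := (hJ j hj).1
    have h8 := (hGo i hi j hj).2
    set X : ℝ := Real.exp (-u) / Ideal.absNorm (n i ⊔ n j) with hX
    set V : ℝ := 1 + Real.exp (-u) / Ideal.absNorm (n i ⊓ n j) with hV
    have hX0 : 0 ≤ X := by positivity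
    have hV0 : 0 ≤ V := by positivity
    have h9 : Real.exp (-u) / (Ideal.absNorm (dS 𝔮 S) * Ideal.absNorm (n i ⊔ n j)) =
        X / Ideal.absNorm (dS 𝔮 S) := by
      rw [hX, div_div, mul_comm]
    rw [h9] at h8
    have h10 := me3_scal hN1 hX0 hA
    calc (Ideal.absNorm (dS 𝔮 S) : ℝ) * (a i * a j * C0 ^ 2 * ∑' p, G i j p)
        ≤ (Ideal.absNorm (dS 𝔮 S) : ℝ) * (a i * a j * C0 ^ 2 *
          (C1 * ((X / Ideal.absNorm (dS 𝔮 S)) ^ A * V))) :=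
          mul_le_mul_of_nonneg_left (mul_le_mul_of_nonneg_left h8 (by positivity)) hN0
      _ = C0 ^ 2 * C1 * (a i * a j * V) *
          ((Ideal.absNorm (dS 𝔮 S) : ℝ) * (X / Ideal.absNorm (dS 𝔮 S)) ^ A) := by ring
      _ ≤ C0 ^ 2 * C1 * (a i * a j * V) * X ^ A :=
          mul_le_mul_of_nonneg_left h10 (by positivity)
      _ = C0 ^ 2 * C1 * (a i * a j * (X ^ A * V)) := by ring
  refine (Finset.sum_le_sum fun S hS' =>
    hS S hS' _ (fun p => ⟨fun h => if_pos h, fun h => if_neg h⟩) (hp1 S)).trans (le_of_eq ?_)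
  rw [Finset.sum_const, Finset.card_powerset, nsmul_eq_mul]
  push_cast
  ring


end Pool.Agent.LVK

namespace Pool.Agent.LVK

theorem class_ineq : type_of% @class_ineq_pr := @class_ineq_pr

end Pool.Agent.LVK
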