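import Pool.Agent.Lib_helper42.LVK.Defs
import Pool.Agent.Lib_helper41.HZF.YB
import Pool.Agent.Lib_helper41.HZF.KG
import Pool.Agent.Lib_helper92.KSA.BRG
import Pool.Agent.Lib_helper92.KSA.LATU
import Pool.Agent.Lib_helper92.KSA.LNZ
import Pool.Agent.Lib_helper39.LVX.K_MA1
import Pool.Agent.Lib_helper39.LVX.K_MB3B
import Pool.Agent.Lib_helper39.LVX.K_ME1A
import Pool.Agent.Lib_helper39.LVX.K_ME1B
import Pool.Agent.Lib_helper39.LVX.K_ME2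
import Pool.Agent.Lib_helper39.LVX.K_ME3

/-!
# LVK part M, block ME4: the key inequality
-/

namespace Pool.Agent.LVK

open NumberField NumberField.InfinitePlace NumberField.Units Complex MeasureTheory Filter Topology
open Pool.Agent.HZ Pool.Agent.AS Pool.Agent.KS

variable {K : Type} [Field K] [NumberField K]

variable {𝔮 : Ideal (𝓞 K)} {κ : InfinitePlace K → ℤ}

/-- the change of the error term under the shift by `log N` -/
theorem me4_shift {N e : ℝ} (A : ℝ) (hN : 1 ≤ N) (he : 0 < e) {D : ℝ} (D' : ℝ) (hD : 0 ≤ D) :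
    (N * e / D) ^ A * (1 + N * e / D') ≤ N ^ (A + 1) * ((e / D) ^ A * (1 + e / D')) := by
  have hN0 : 0 < N := by linarith
  rw [mul_div_assoc, Real.mul_rpow hN0.le (by positivity), Real.rpow_add hN0, Real.rpow_one]
  have h1 : 1 + N * e / D' ≤ N * (1 + e / D') := by
    rw [mul_div_assoc, mul_add, mul_one]
    linarith
  calc N ^ A * (e / D) ^ A * (1 + N * e / D') ≤ N ^ A * (e / D) ^ A * (N * (1 + e / D')) :=
        mul_le_mul_of_nonneg_left h1 (by positivity)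
    _ = _ := by ring

open scoped Classical in
theorem key_ineq_pr (κ : InfinitePlace K → ℤ) (T : TD K) {A : ℝ} (hA : 1 ≤ A) :
    ∃ C : ℝ, 0 ≤ C ∧ ∀ (𝔮 : Ideal (𝓞 K)) (_ : 𝔮 ≠ ⊥) (_ : 𝔮 ≠ ⊤)
      (ι : Type) (J : Finset ι) (n : ι → Ideal (𝓞 K)) (a : ι → ℝ)
      (_ : ∀ i ∈ J, 0 ≤ a i ∧ n i ≠ ⊥ ∧ IsCoprime (n i) 𝔮)
      (b : Ideal (𝓞 K) → ℂ) (_ : ∀ 𝔠, 𝔠 = ⊥ ∨ ¬ IsCoprime 𝔠 𝔮 → b 𝔠 = 0)
      (_ : ∀ 𝔠, ‖b 𝔠‖ ≤ ∑ i ∈ J, if n i ∣ 𝔠 then a i else 0)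
      (E : Finset (HDat 𝔮)) (_ : ∀ t ∈ E, t ∈ FamK 𝔮 κ) (u : ℝ),
      ∑ t ∈ E, ‖∑' 𝔠 : Ideal (𝓞 K), b 𝔠 * t.ψ 𝔠 *
          kint K (FT κ t.lam T) (u + Real.log (Ideal.absNorm 𝔠))‖ ^ 2 ≤
        hT K * nprim 𝔮 * ∑' 𝔠 : Ideal (𝓞 K), ‖b 𝔠‖ ^ 2 *
          kk κ T (u + Real.log (Ideal.absNorm 𝔠)) +
        C * (2 ^ (QK 𝔮).card * ∑ i ∈ J, ∑ j ∈ J, a i * a j *
          ((Real.exp (-u) / Ideal.absNorm (n i ⊔ n j)) ^ A *
            (1 + Real.exp (-u) / Ideal.absNorm (n i ⊓ n j)))) := by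
  -- representatives of the classes
  have hrep : ∀ cl : ClassGroup (𝓞 K), ∃ I : Ideal (𝓞 K), ∃ h : I ≠ ⊥,
      ClassGroup.mk0 ⟨I, mem_nonZeroDivisors_of_ne_zero h⟩ = cl := by
    intro cl
    obtain ⟨I, hI⟩ := ClassGroup.mk0_surjective cl
    exact ⟨I, nonZeroDivisors.ne_zero I.2, hI⟩
  choose rep h0 hrep using hrep
  choose Cc hCc hcl using fun cl => class_ineq κ T hA (h0 cl)
  obtain ⟨C1, c1, hF⟩ := FT_good κ T
  set N : ClassGroup (𝓞 K) → ℝ := fun c => ((Ideal.absNorm (rep c) : ℕ) : ℝ) with hN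
  have hN1 : ∀ c, 1 ≤ N c := by
    intro c
    change (1 : ℝ) ≤ ((Ideal.absNorm (rep c) : ℕ) : ℝ)
    have : Ideal.absNorm (rep c) ≠ 0 := by
      rw [Ne, Ideal.absNorm_eq_zero_iff]
      exact h0 c
    exact_mod_cast Nat.one_le_iff_ne_zero.mpr this
  have hN0 : ∀ c, 0 < N c := fun c => lt_of_lt_of_le one_pos (hN1 c)
  have hω0 : 0 < (torsionOrder K : ℝ) := by exact_mod_cast torsionOrder_pos K
  set ω : ℝ := (torsionOrder K : ℝ) with hω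
  have hh0 : 0 ≤ (classNumber K : ℝ) := Nat.cast_nonneg _
  set h : ℝ := (classNumber K : ℝ) with hh
  refine ⟨h / ω ^ 2 * ∑ c, Cc c * N c ^ (A + 1), ?_, ?_⟩
  · refine mul_nonneg (by positivity) (Finset.sum_nonneg fun c _ => mul_nonneg (hCc c) ?_)
    exact Real.rpow_nonneg (hN0 c).le _
  intro 𝔮 h𝔮 h𝔮' ι J n a hJ b hb hbJ E hE u
  -- the coefficients
  have hb0 : b ⊥ = 0 := hb ⊥ (Or.inl rfl)
  set β : ℝ := ∑ i ∈ J, a i with hβ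
  have hbβ : ∀ 𝔠, ‖b 𝔠‖ ≤ β := by
    intro 𝔠
    refine (hbJ 𝔠).trans (Finset.sum_le_sum fun i hi => ?_)
    split_ifs
    · exact le_rfl
    · exact (hJ i hi).1
  have hβ0 : 0 ≤ β := (norm_nonneg _).trans (hbβ ⊥)
  -- residues
  choose g ρ hg hg0 hgc hρ using fun c => exists_res h𝔮 (h0 c)
  -- the shift
  set v : ClassGroup (𝓞 K) → ℝ := fun c => u - Real.log (N c) with hv
  have hvv : ∀ c, v c + Real.log (N c) = u := fun c => by rw [hv]; ring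
  -- the unfolded sums
  set B : MulChar (𝓞 K ⧸ 𝔮) ℂ → ClassGroup (𝓞 K) → (Fin (rank K) → ℝ) → ℂ := fun χ c x =>
    ∑' α : rep c, χ (ρ c α) * (b (quo (rep c) α) * Hh κ T (Yv K (v c) x) ((α : 𝓞 K) : K))
    with hB
  have hB1 : ∀ χ c, IntegrableOn (B χ c) (Set.Icc 0 1) := fun χ c =>
    (unfold_int T (h0 c) χ (ρ c) hbβ hb0 h𝔮 (v c)).2.1
  have hB2 : ∀ χ c, IntegrableOn (fun x => ‖B χ c x‖ ^ 2) (Set.Icc 0 1) := fun χ c =>
    (unfold_int T (h0 c) χ (ρ c) hbβ hb0 h𝔮 (v c)).2.2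
  obtain ⟨hD1, hD2, hD3⟩ := fold_sq κ T rep h0 hrep hbβ hb0 u
  set D : ClassGroup (𝓞 K) → (Fin (rank K) → ℝ) → ℝ := fun c x =>
    ∑' α : rep c, ‖b (quo (rep c) α) * Hh κ T (Yv K (v c) x) ((α : 𝓞 K) : K)‖ ^ 2 with hD
  have hD1' : ∀ c, IntegrableOn (D c) (Set.Icc 0 1) := hD1
  set R : ℝ := ∑' 𝔠 : Ideal (𝓞 K), ‖b 𝔠‖ ^ 2 * kk κ T (u + Real.log (Ideal.absNorm 𝔠)) with hR
  have hD3' : ∑ c, ∫ x in Set.Icc (0 : Fin (rank K) → ℝ) 1, D c x = ω * R := hD3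
  -- the sum over the ideals in terms of the unfolded sums
  have hS : ∀ t ∈ E, (ω : ℂ) * ∑' 𝔠 : Ideal (𝓞 K), b 𝔠 * t.ψ 𝔠 *
      kint K (FT κ t.lam T) (u + Real.log (Ideal.absNorm 𝔠)) =
      ∑ c, tw κ t.lam t.ψ (rep c) (g c) *
        ∫ x in Set.Icc (0 : Fin (rank K) → ℝ) 1, eth t.lam x * B t.χ c x := by
    intro t ht
    obtain ⟨-, -, hψ, -⟩ := hE t ht
    have hle : ∀ 𝔠, ‖b 𝔠 * t.ψ 𝔠‖ ≤ β := by
      intro 𝔠
      rw [norm_mul]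
      have h1 : ‖t.ψ 𝔠‖ ≤ 1 := by
        by_cases h : IsCoprime 𝔠 𝔮
        · rw [hψ.norm_eq_one 𝔠 h]
        · rw [hψ.eq_zero 𝔠 h]
          simp
      calc ‖b 𝔠‖ * ‖t.ψ 𝔠‖ ≤ β * 1 := mul_le_mul (hbβ 𝔠) h1 (norm_nonneg _) hβ0
        _ = β := mul_one β
    have h1 := Dser_classes rep h0 hrep (hF t.lam) hle (by simp [hb0]) u
    unfold Dser at h1
    have h2 : ((Real.exp (u / 2) : ℝ) : ℂ) ≠ 0 := by
      exact_mod_cast (Real.exp_pos _).ne'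
    have h3 := mul_left_cancel₀ h2 h1
    rw [h3, Finset.mul_sum]
    refine Finset.sum_congr rfl fun c _ => ?_
    have h4 := unfold_t h𝔮 h𝔮' T (hE t ht) (h0 c) (hg c) (hg0 c) (hgc c) (hρ c) hbβ hb0 (v c)
    have h5 : v c + Real.log (Ideal.absNorm (rep c)) = u := hvv c
    rw [h5] at h4
    rw [← h4]
    simp [hω]
  -- Bessel for one finite part
  have hbes : ∀ χ : MulChar (𝓞 K ⧸ 𝔮) ℂ, ∑ t ∈ E with t.χ = χ,
      ‖(ω : ℂ) * ∑' 𝔠 : Ideal (𝓞 K), b 𝔠 * t.ψ 𝔠 *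
        kint K (FT κ t.lam T) (u + Real.log (Ideal.absNorm 𝔠))‖ ^ 2 ≤
      h * ∑ c, ∫ x in Set.Icc (0 : Fin (rank K) → ℝ) 1, ‖B χ c x‖ ^ 2 := by
    intro χ
    refine le_trans (le_of_eq ?_) (torus_bessel (κ := κ) (χ := χ) h𝔮 h𝔮' rep h0 hrep g hg hg0
      hgc (E.filter fun t => t.χ = χ) (fun t ht => ?_) (B χ) (hB1 χ) (hB2 χ))
    · refine Finset.sum_congr rfl fun t ht => ?_
      rw [Finset.mem_filter] at ht
      rw [hS t ht.1, ht.2]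
    · rw [Finset.mem_filter] at ht
      exact ⟨hE t ht.1, ht.2⟩
  -- the error term of one class
  set Er : ℝ → ℝ := fun e => 2 ^ (QK 𝔮).card * ∑ i ∈ J, ∑ j ∈ J, a i * a j *
    ((e / Ideal.absNorm (n i ⊔ n j)) ^ A * (1 + e / Ideal.absNorm (n i ⊓ n j))) with hEr
  have hEr0 : ∀ c, Er (Real.exp (-(v c))) ≤ N c ^ (A + 1) * Er (Real.exp (-u)) := by
    intro c
    have he : Real.exp (-(v c)) = N c * Real.exp (-u) := by
      rw [hv]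
      simp only
      rw [neg_sub, Real.exp_sub, Real.exp_log (hN0 c), Real.exp_neg]
      field_simp
    rw [he, hEr]
    simp only
    rw [mul_left_comm]
    apply mul_le_mul_of_nonneg_left _ (by positivity)
    rw [Finset.mul_sum]
    refine Finset.sum_le_sum fun i hi => ?_
    rw [Finset.mul_sum]
    refine Finset.sum_le_sum fun j hj => ?_
    rw [mul_left_comm (N c ^ (A + 1))]
    apply mul_le_mul_of_nonneg_left _ (mul_nonneg (hJ i hi).1 (hJ j hj).1)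
    exact me4_shift A (hN1 c) (Real.exp_pos _) _ (Nat.cast_nonneg _)
  set X : Finset (MulChar (𝓞 K ⧸ 𝔮) ℂ) := E.image fun t => t.χ with hX
  have hXp : ∀ χ ∈ X, IsPrim 𝔮 χ := by
    intro χ hχ
    rw [hX, Finset.mem_image] at hχ
    obtain ⟨t, ht, rfl⟩ := hχ
    exact (hE t ht).2.1
  have hvol : (volume : Measure (Fin (rank K) → ℝ)) (Set.Icc 0 1) = 1 := by
    rw [Real.volume_Icc_pi]
    simp
  have hclass : ∀ c, ∑ χ ∈ X, ∫ x in Set.Icc (0 : Fin (rank K) → ℝ) 1, ‖B χ c x‖ ^ 2 ≤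
      nprim 𝔮 * (∫ x in Set.Icc (0 : Fin (rank K) → ℝ) 1, D c x) +
        Cc c * (N c ^ (A + 1) * Er (Real.exp (-u))) := by
    intro c
    have hci : IntegrableOn (fun _ : Fin (rank K) → ℝ => Cc c * Er (Real.exp (-(v c))))
        (Set.Icc 0 1) := integrableOn_const (by rw [hvol]; exact ENNReal.one_ne_top)
    have h1 : ∑ χ ∈ X, ∫ x in Set.Icc (0 : Fin (rank K) → ℝ) 1, ‖B χ c x‖ ^ 2 =
        ∫ x in Set.Icc (0 : Fin (rank K) → ℝ) 1, ∑ χ ∈ X, ‖B χ c x‖ ^ 2 := by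
      rw [integral_finsetSum]
      intro χ _
      exact hB2 χ c
    have h2 : ∫ x in Set.Icc (0 : Fin (rank K) → ℝ) 1, ∑ χ ∈ X, ‖B χ c x‖ ^ 2 ≤
        ∫ x in Set.Icc (0 : Fin (rank K) → ℝ) 1,
          (nprim 𝔮 * D c x + Cc c * Er (Real.exp (-(v c)))) := by
      apply integral_mono
      · exact integrable_finsetSum _ (fun χ _ => hB2 χ c)
      · exact ((hD1' c).const_mul _).add hci
      · intro x
        exact hcl c 𝔮 h𝔮 (g c) (ρ c) (hg c) (hg0 c) (hgc c) (hρ c) ι J n a hJ b hb hbJ X hXp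
          (v c) x
    have h3 : ∫ x in Set.Icc (0 : Fin (rank K) → ℝ) 1,
          (nprim 𝔮 * D c x + Cc c * Er (Real.exp (-(v c)))) =
        nprim 𝔮 * (∫ x in Set.Icc (0 : Fin (rank K) → ℝ) 1, D c x) +
          Cc c * Er (Real.exp (-(v c))) := by
      rw [integral_add ((hD1' c).const_mul _) hci, integral_const_mul, setIntegral_const]
      simp [Measure.real, hvol]
    rw [h1]
    refine h2.trans ?_
    rw [h3]
    have h4 := mul_le_mul_of_nonneg_left (hEr0 c) (hCc c)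
    linarith
  -- the total
  have htot : ω ^ 2 * ∑ t ∈ E, ‖∑' 𝔠 : Ideal (𝓞 K), b 𝔠 * t.ψ 𝔠 *
      kint K (FT κ t.lam T) (u + Real.log (Ideal.absNorm 𝔠))‖ ^ 2 ≤
      h * (nprim 𝔮 * (ω * R) + ∑ c, Cc c * (N c ^ (A + 1) * Er (Real.exp (-u)))) := by
    calc ω ^ 2 * ∑ t ∈ E, ‖∑' 𝔠 : Ideal (𝓞 K), b 𝔠 * t.ψ 𝔠 *
        kint K (FT κ t.lam T) (u + Real.log (Ideal.absNorm 𝔠))‖ ^ 2
        = ∑ t ∈ E, ‖(ω : ℂ) * ∑' 𝔠 : Ideal (𝓞 K), b 𝔠 * t.ψ 𝔠 *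
        kint K (FT κ t.lam T) (u + Real.log (Ideal.absNorm 𝔠))‖ ^ 2 := by
          rw [Finset.mul_sum]
          refine Finset.sum_congr rfl fun t _ => ?_
          rw [norm_mul, mul_pow, Complex.norm_real, Real.norm_eq_abs, abs_of_pos hω0]
      _ = ∑ χ ∈ X, ∑ t ∈ E with t.χ = χ, ‖(ω : ℂ) * ∑' 𝔠 : Ideal (𝓞 K), b 𝔠 * t.ψ 𝔠 *
        kint K (FT κ t.lam T) (u + Real.log (Ideal.absNorm 𝔠))‖ ^ 2 := by
          symm
          apply Finset.sum_fiberwise_of_maps_to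
          intro t ht
          rw [hX]
          exact Finset.mem_image_of_mem _ ht
      _ ≤ ∑ χ ∈ X, h * ∑ c, ∫ x in Set.Icc (0 : Fin (rank K) → ℝ) 1, ‖B χ c x‖ ^ 2 :=
          Finset.sum_le_sum fun χ _ => hbes χ
      _ = h * ∑ c, ∑ χ ∈ X, ∫ x in Set.Icc (0 : Fin (rank K) → ℝ) 1, ‖B χ c x‖ ^ 2 := by
          rw [← Finset.mul_sum, Finset.sum_comm]
      _ ≤ h * ∑ c, (nprim 𝔮 * (∫ x in Set.Icc (0 : Fin (rank K) → ℝ) 1, D c x) +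
            Cc c * (N c ^ (A + 1) * Er (Real.exp (-u)))) :=
          mul_le_mul_of_nonneg_left (Finset.sum_le_sum fun c _ => hclass c) hh0
      _ = _ := by
          rw [Finset.sum_add_distrib, ← Finset.mul_sum, hD3']
  have hfin : ∑ t ∈ E, ‖∑' 𝔠 : Ideal (𝓞 K), b 𝔠 * t.ψ 𝔠 *
      kint K (FT κ t.lam T) (u + Real.log (Ideal.absNorm 𝔠))‖ ^ 2 ≤
      (h * (nprim 𝔮 * (ω * R) + ∑ c, Cc c * (N c ^ (A + 1) * Er (Real.exp (-u))))) / ω ^ 2 := by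
    rw [le_div_iff₀ (by positivity), mul_comm]
    exact htot
  refine hfin.trans (le_of_eq ?_)
  have hsum : ∑ c, Cc c * (N c ^ (A + 1) * Er (Real.exp (-u))) =
      (∑ c, Cc c * N c ^ (A + 1)) * Er (Real.exp (-u)) := by
    rw [Finset.sum_mul]
    refine Finset.sum_congr rfl fun c _ => ?_
    ring
  rw [hsum]
  unfold hT
  rw [← hh, ← hω]
  change _ = h / ω * nprim 𝔮 * R + h / ω ^ 2 * (∑ c, Cc c * N c ^ (A + 1)) * Er (Real.exp (-u))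
  field_simp


end Pool.Agent.LVK

namespace Pool.Agent.LVK

theorem key_ineq : type_of% @key_ineq_pr := @key_ineq_pr

end Pool.Agent.LVK
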