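import Pool.Agent.Lib_helper42.LVK.Defs
import Pool.Agent.Lib_helper41.HZF.YB
import Pool.Agent.Lib_helper41.HZF.KG
import Pool.Agent.Lib_helper92.KSA.BRG
import Pool.Agent.Lib_helper92.KSA.FKE
import Pool.Agent.Lib_helper39.LVX.K_MA1

/-!
# LVK block MF1: the mollified density as a Dirichlet series, direct
-/

namespace Pool.Agent.LVK

open NumberField NumberField.InfinitePlace NumberField.Units Complex MeasureTheory Filter Topology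
open Pool.Agent.HZ Pool.Agent.AS Pool.Agent.KS

variable {K : Type} [Field K] [NumberField K]

variable {𝔮 : Ideal (𝓞 K)} {κ : InfinitePlace K → ℤ} {lam : InfinitePlace K → ℝ}
  {χ : MulChar (𝓞 K ⧸ 𝔮) ℂ} {ψ : Ideal (𝓞 K) →* ℂ}

theorem mf1_bn (h : HD 𝔮 κ lam χ ψ) {ι : Type} (J : Finset ι) (n : ι → Ideal (𝓞 K))
    (a : ι → ℂ) (𝔠 : Ideal (𝓞 K)) :
    bn 𝔮 J n a 𝔠 * ψ 𝔠 =
      open scoped Classical in ∑ j ∈ J, a j * ((if n j ∣ 𝔠 then 1 else 0) * ψ 𝔠) := by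
  classical
  unfold bn
  by_cases hc : 𝔠 ≠ ⊥ ∧ IsCoprime 𝔠 𝔮
  · rw [if_pos hc, Finset.sum_mul]
    refine Finset.sum_congr rfl fun j _ => ?_
    by_cases hd : n j ∣ 𝔠
    · rw [if_pos hd, if_pos hd]; ring
    · rw [if_neg hd, if_neg hd]; ring
  · rw [if_neg hc, zero_mul]
    have : ψ 𝔠 = 0 := by
      by_cases h1 : 𝔠 = ⊥
      · rw [h1, h.psi_bot]
      · exact h.hecke.eq_zero 𝔠 fun h2 => hc ⟨h1, h2⟩
    rw [this]
    simp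

/-- the sum over all ideals with the coefficients `bn` -/
theorem mf1_core (h : HD 𝔮 κ lam χ ψ) {F : (InfinitePlace K → ℝ) → ℂ} {C c : ℝ}
    (hF : GoodF F C c) {ι : Type} (J : Finset ι) (n : ι → Ideal (𝓞 K))
    (hn : ∀ j ∈ J, n j ≠ ⊥) (a : ι → ℂ) (u : ℝ) :
    ∑' 𝔠 : Ideal (𝓞 K), bn 𝔮 J n a 𝔠 * ψ 𝔠 * kint K F (u + Real.log (Ideal.absNorm 𝔠)) =
      ∑ j ∈ J, a j * (ψ (n j) * ∑' 𝔠 : Ideal (𝓞 K), ψ 𝔠 *
        kint K F (u + Real.log (Ideal.absNorm (n j)) + Real.log (Ideal.absNorm 𝔠))) := by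
  classical
  have h1 : ∀ 𝔠 : Ideal (𝓞 K), bn 𝔮 J n a 𝔠 * ψ 𝔠 *
      kint K F (u + Real.log (Ideal.absNorm 𝔠)) =
      ∑ j ∈ J, a j * (((if n j ∣ 𝔠 then 1 else 0) * ψ 𝔠) *
        kint K F (u + Real.log (Ideal.absNorm 𝔠))) := by
    intro 𝔠
    rw [mf1_bn h, Finset.sum_mul]
    exact Finset.sum_congr rfl fun j _ => by ring
  rw [tsum_congr h1, Summable.tsum_finsetSum]
  · refine Finset.sum_congr rfl fun j hj => ?_
    rw [tsum_mul_left, fke_mult ψ h.psi_bot (hn j hj) u]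
  · intro j hj
    refine Summable.mul_left _ ?_
    refine Dser_summable hF (b := fun 𝔠 => (if n j ∣ 𝔠 then 1 else 0) * ψ 𝔠) (β := 1)
      (fun 𝔠 => ?_) (by simp [h.psi_bot]) u
    rw [norm_mul]
    split_ifs
    · rw [norm_one, one_mul]; exact h.hecke.norm_le 𝔠
    · rw [norm_zero, zero_mul]; exact zero_le_one

theorem mf1_exp (u : ℝ) (m : PK K →₀ ℕ) :
    (Real.exp ((u + lK m) / 2) : ℂ) = (Real.exp (u / 2) : ℂ) * ((√(nm (NK K) m : ℝ) : ℝ) : ℂ) := by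
  have hp := fke_NK_pos m
  rw [← Complex.ofReal_mul]
  congr 1
  rw [add_div, Real.exp_add, Real.sqrt_eq_rpow, Real.rpow_def_of_pos hp, lK]
  congr 2
  ring

theorem mf1_norm (m : PK K →₀ ℕ) : Real.log (Ideal.absNorm (IK m) : ℝ) = lK m := by
  rw [absNorm_IK, lK]

theorem mf1_DT (T : TD K) (ψ : Ideal (𝓞 K) →* ℂ) (u : ℝ) (m : PK K →₀ ℕ) :
    (((√(nm (NK K) m : ℝ))⁻¹ : ℝ) : ℂ) * DT κ lam T ψ (u + lK m) =
      (Real.exp (u / 2) : ℂ) * ∑' 𝔠 : Ideal (𝓞 K), ψ 𝔠 *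
        kint K (FT κ lam T) (u + Real.log (Ideal.absNorm (IK m)) +
          Real.log (Ideal.absNorm 𝔠)) := by
  have hp : (0 : ℝ) < √(nm (NK K) m : ℝ) := Real.sqrt_pos.2 (fke_NK_pos m)
  have h1 : (((√(nm (NK K) m : ℝ))⁻¹ : ℝ) : ℂ) * ((√(nm (NK K) m : ℝ) : ℝ) : ℂ) = 1 := by
    rw [← Complex.ofReal_mul, inv_mul_cancel₀ hp.ne', Complex.ofReal_one]
  rw [DT, Dser, mf1_exp, mf1_norm]
  linear_combination ((Real.exp (u / 2) : ℂ) * ∑' 𝔠 : Ideal (𝓞 K), ψ 𝔠 *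
        kint K (FT κ lam T) (u + lK m + Real.log (Ideal.absNorm 𝔠))) * h1

theorem EM_direct_pr (h : HD 𝔮 κ lam χ ψ) (T : TD K) (S : Finset (PK K →₀ ℕ))
    (a : (PK K →₀ ℕ) → ℝ) (η L u : ℝ) :
    EM κ lam T ψ S a η L u = (Real.exp (u / 2) : ℂ) * ∑' 𝔠 : Ideal (𝓞 K),
      bcf 𝔮 S a η L u 𝔠 * ψ 𝔠 * kint K (FT κ lam T) (u + Real.log (Ideal.absNorm 𝔠)) := by
  obtain ⟨C, c, hC⟩ := FT_good κ T
  have h1 := mf1_core h (hC lam) S IK (fun m _ => IK_ne_bot m)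
    (fun m => ((a m * (1 + η * (u + lK m) / L) : ℝ) : ℂ)) u
  unfold bcf
  rw [h1, EM, Finset.mul_sum]
  refine Finset.sum_congr rfl fun m _ => ?_
  have h2 := mf1_DT (κ := κ) (lam := lam) T ψ u m
  push_cast at h2 ⊢
  linear_combination ((a m : ℂ) * (1 + η * (u + lK m) / L) * ψ (IK m)) * h2

theorem mf1_bcf_le (S : Finset (PK K →₀ ℕ))
    (a : (PK K →₀ ℕ) → ℝ) (η L u : ℝ) (𝔠 : Ideal (𝓞 K)) :
    ‖bcf 𝔮 S a η L u 𝔠‖ ≤ ∑ m ∈ S, ‖((a m * (1 + η * (u + lK m) / L) : ℝ) : ℂ)‖ := by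
  classical
  unfold bcf bn
  split_ifs
  · refine (norm_sum_le _ _).trans (Finset.sum_le_sum fun m _ => ?_)
    split_ifs
    · exact le_rfl
    · rw [norm_zero]
      exact norm_nonneg _
  · rw [norm_zero]
    exact Finset.sum_nonneg fun m _ => norm_nonneg _

open scoped Classical in
/-- the term `𝔠 = 1` is `E0` -/
theorem EM_E0_pr (h : HD 𝔮 κ lam χ ψ) (T : TD K) (S : Finset (PK K →₀ ℕ))
    (a : (PK K →₀ ℕ) → ℝ) (h0 : (0 : PK K →₀ ℕ) ∈ S) (ha0 : a 0 = 1) (η L u : ℝ) :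
    EM κ lam T ψ S a η L u - E0 κ lam T η L u = (Real.exp (u / 2) : ℂ) * ∑' 𝔠 : Ideal (𝓞 K),
      (if 𝔠 = ⊤ then 0 else bcf 𝔮 S a η L u 𝔠) * ψ 𝔠 *
        kint K (FT κ lam T) (u + Real.log (Ideal.absNorm 𝔠)) := by
  obtain ⟨C, c, hC⟩ := FT_good κ T
  set β : ℝ := ∑ m ∈ S, ‖((a m * (1 + η * (u + lK m) / L) : ℝ) : ℂ)‖ with hβ
  have hsum : Summable (fun 𝔠 : Ideal (𝓞 K) => bcf 𝔮 S a η L u 𝔠 * ψ 𝔠 *
      kint K (FT κ lam T) (u + Real.log (Ideal.absNorm 𝔠))) := by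
    refine Dser_summable (hC lam) (b := fun 𝔠 => bcf 𝔮 S a η L u 𝔠 * ψ 𝔠) (β := β)
      (fun 𝔠 => ?_) (by simp [h.psi_bot]) u
    rw [norm_mul]
    have hβ0 : 0 ≤ β := Finset.sum_nonneg fun m _ => norm_nonneg _
    calc ‖bcf 𝔮 S a η L u 𝔠‖ * ‖ψ 𝔠‖ ≤ β * 1 :=
          mul_le_mul (mf1_bcf_le S a η L u 𝔠) (h.hecke.norm_le 𝔠) (norm_nonneg _) hβ0
      _ = β := mul_one _
  have htop : bcf 𝔮 S a η L u ⊤ * ψ ⊤ * kint K (FT κ lam T) (u + Real.log (Ideal.absNorm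
      (⊤ : Ideal (𝓞 K)))) = ((1 + η * u / L : ℝ) : ℂ) * kint K (FT κ lam T) u := by
    have h1 : ψ ⊤ = 1 := by
      have : (⊤ : Ideal (𝓞 K)) = 1 := Ideal.one_eq_top.symm
      rw [this, map_one]
    have h2 : bcf 𝔮 S a η L u ⊤ = ((1 + η * u / L : ℝ) : ℂ) := by
      unfold bcf bn
      have h3 : (⊤ : Ideal (𝓞 K)) ≠ ⊥ ∧ IsCoprime (⊤ : Ideal (𝓞 K)) 𝔮 :=
        ⟨top_ne_bot, by rw [Ideal.isCoprime_iff_sup_eq, top_sup_eq]⟩
      rw [if_pos h3, Finset.sum_eq_single (0 : PK K →₀ ℕ)]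
      · rw [if_pos (by rw [IK_zero])]
        dsimp only
        rw [ha0]
        have : lK (0 : PK K →₀ ℕ) = 0 := by
          rw [lK, ← absNorm_IK, IK_zero, Ideal.absNorm_top]
          simp
        rw [this, add_zero, one_mul]
      · intro m _ hm
        rw [if_neg]
        intro hd
        apply hm
        rw [← IK_zero, IK_dvd] at hd
        exact le_antisymm hd bot_le
      · intro hm
        exact absurd h0 hm
    rw [h1, h2, Ideal.absNorm_top]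
    simp
  rw [EM_direct_pr h, hsum.tsum_eq_add_tsum_ite (⊤ : Ideal (𝓞 K)), htop, E0]
  have h5 : ∀ 𝔠 : Ideal (𝓞 K), (if 𝔠 = ⊤ then 0 else bcf 𝔮 S a η L u 𝔠 * ψ 𝔠 *
      kint K (FT κ lam T) (u + Real.log (Ideal.absNorm 𝔠))) =
      (if 𝔠 = ⊤ then 0 else bcf 𝔮 S a η L u 𝔠) * ψ 𝔠 *
        kint K (FT κ lam T) (u + Real.log (Ideal.absNorm 𝔠)) := by
    intro 𝔠
    by_cases h6 : 𝔠 = ⊤
    · rw [if_pos h6, if_pos h6]; ring
    · rw [if_neg h6, if_neg h6]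
  rw [tsum_congr h5]
  ring


end Pool.Agent.LVK

namespace Pool.Agent.LVK

theorem EM_direct : type_of% @EM_direct_pr := @EM_direct_pr
theorem EM_E0 : type_of% @EM_E0_pr := @EM_E0_pr

end Pool.Agent.LVK
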