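import Pool.Agent.Lib_helper42.LVK.Defs
import Pool.Agent.Lib_helper41.HZF.YB
import Pool.Agent.Lib_helper41.HZF.KG
import Pool.Agent.Lib_helper92.KSA.BRG
import Pool.Agent.Lib_helper39.LVX.K_MA1
import Pool.Agent.Lib_helper39.LVX.K_MA3A
import Pool.Agent.Lib_helper39.LVX.K_MF1

/-!
# LVK block MF2: the mollified density as a Dirichlet series, dual
-/

namespace Pool.Agent.LVK

open NumberField NumberField.InfinitePlace NumberField.Units Complex MeasureTheory Filter Topology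
open Pool.Agent.HZ Pool.Agent.AS Pool.Agent.KS

variable {K : Type} [Field K] [NumberField K]

variable {𝔮 : Ideal (𝓞 K)} {κ : InfinitePlace K → ℤ} {lam : InfinitePlace K → ℝ}
  {χ : MulChar (𝓞 K ⧸ 𝔮) ℂ} {ψ : Ideal (𝓞 K) →* ℂ}

theorem mf2_cop {𝔏 m : PK K →₀ ℕ} (hm : m ≤ 𝔏) (h𝔏 : IsCoprime (IK 𝔏) 𝔮) :
    IsCoprime (IK m) 𝔮 := by
  have h1 : IK m ∣ IK 𝔏 := IK_dvd.2 hm
  exact h𝔏.of_isCoprime_of_dvd_left h1

theorem EM_dual_pr (h : HD 𝔮 κ lam χ ψ) (T : TD K) (S : Finset (PK K →₀ ℕ))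
    (a : (PK K →₀ ℕ) → ℝ) (𝔏 : PK K →₀ ℕ) (hS : ∀ m ∈ S, m ≤ 𝔏)
    (h𝔏 : IsCoprime (IK 𝔏) 𝔮) (η L u v : ℝ) (hv : v = -u - Real.log (cond 𝔮)) :
    ‖EM κ lam T ψ S a η L u‖ = Real.exp (v / 2) * ‖∑' 𝔠 : Ideal (𝓞 K),
      bn 𝔮 S (fun m => IK (𝔏 - m))
        (fun m => ((a m * (1 + η * (u + lK m) / L) / nm (NK K) m : ℝ) : ℂ)) 𝔠 * ψ 𝔠 *
        kint K (FT κ lam T.star) (v - lK 𝔏 + Real.log (Ideal.absNorm 𝔠))‖ := by
  obtain ⟨Ω, hΩ, -, hfe⟩ := DT_fe h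
  obtain ⟨C, c, hC⟩ := FT_good κ T.star
  have hψ𝔏 : ‖ψ (IK 𝔏)‖ = 1 := h.hecke.norm_eq_one _ h𝔏
  have hψm : ∀ m ∈ S, ψ (IK (𝔏 - m)) = ψ (IK 𝔏) * starRingEnd ℂ (ψ (IK m)) := by
    intro m hm
    have h1 : IK (𝔏 - m) * IK m = IK 𝔏 := by
      rw [← IK_add, tsub_add_cancel_of_le (hS m hm)]
    have h2 : ψ (IK m) * starRingEnd ℂ (ψ (IK m)) = 1 := by
      rw [Complex.mul_conj', h.hecke.norm_eq_one _ (mf2_cop (hS m hm) h𝔏)]
      norm_num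
    calc ψ (IK (𝔏 - m)) = (ψ (IK (𝔏 - m)) * ψ (IK m)) * starRingEnd ℂ (ψ (IK m)) := by
          rw [mul_assoc, h2, mul_one]
      _ = _ := by rw [← map_mul, h1]
  have hlog : ∀ m ∈ S, Real.log (Ideal.absNorm (IK (𝔏 - m)) : ℝ) = lK 𝔏 - lK m := by
    intro m hm
    have h1 : IK (𝔏 - m) * IK m = IK 𝔏 := by
      rw [← IK_add, tsub_add_cancel_of_le (hS m hm)]
    have h2 := congrArg Ideal.absNorm h1
    rw [map_mul, absNorm_IK, absNorm_IK, absNorm_IK] at h2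
    have h3 : (nm (NK K) (𝔏 - m) : ℝ) * nm (NK K) m = nm (NK K) 𝔏 := by exact_mod_cast h2
    rw [absNorm_IK]
    unfold lK
    rw [← h3, Real.log_mul (fke_NK_pos _).ne' (fke_NK_pos _).ne']
    ring
  have hcore := mf1_core h (hC lam) S (fun m => IK (𝔏 - m)) (fun m _ => IK_ne_bot _)
    (fun m => ((a m * (1 + η * (u + lK m) / L) / nm (NK K) m : ℝ) : ℂ)) (v - lK 𝔏)
  -- the terms
  have hterm : ∀ m ∈ S, (Real.exp (v / 2) : ℂ) *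
      (((a m * (1 + η * (u + lK m) / L) / nm (NK K) m : ℝ) : ℂ) * (ψ (IK (𝔏 - m)) *
        ∑' 𝔠 : Ideal (𝓞 K), ψ 𝔠 * kint K (FT κ lam T.star) (v - lK 𝔏 +
          Real.log (Ideal.absNorm (IK (𝔏 - m))) + Real.log (Ideal.absNorm 𝔠)))) =
      ψ (IK 𝔏) * ((a m : ℂ) * starRingEnd ℂ (ψ (IK m)) *
        (((√(nm (NK K) m : ℝ))⁻¹ : ℝ) : ℂ) * ((1 + η * (u + lK m) / L : ℝ) : ℂ) *
        DT κ lam T.star ψ (v - lK m)) := by
    intro m hm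
    have hp := fke_NK_pos m
    have hsp : (0 : ℝ) < √(nm (NK K) m : ℝ) := Real.sqrt_pos.2 hp
    have e1 : v - lK 𝔏 + Real.log (Ideal.absNorm (IK (𝔏 - m)) : ℝ) = v - lK m := by
      rw [hlog m hm]
      ring
    have e2 : (Real.exp (v / 2) : ℂ) = ((√(nm (NK K) m : ℝ) : ℝ) : ℂ) *
        (Real.exp ((v - lK m) / 2) : ℂ) := by
      have h1 := mf1_exp (v - lK m) m
      rw [sub_add_cancel] at h1
      rw [h1]
      ring
    have e3 : ((√(nm (NK K) m : ℝ) : ℝ) : ℂ) *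
        ((a m * (1 + η * (u + lK m) / L) / nm (NK K) m : ℝ) : ℂ) =
        (a m : ℂ) * (((√(nm (NK K) m : ℝ))⁻¹ : ℝ) : ℂ) *
          ((1 + η * (u + lK m) / L : ℝ) : ℂ) := by
      rw [← Complex.ofReal_mul, ← Complex.ofReal_mul, ← Complex.ofReal_mul]
      congr 1
      have h2 : (nm (NK K) m : ℝ) = √(nm (NK K) m : ℝ) * √(nm (NK K) m : ℝ) :=
        (Real.mul_self_sqrt hp.le).symm
      have h3 : √(nm (NK K) m : ℝ) * (a m * (1 + η * (u + lK m) / L) / nm (NK K) m) =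
        √(nm (NK K) m : ℝ) * (a m * (1 + η * (u + lK m) / L) /
          (√(nm (NK K) m : ℝ) * √(nm (NK K) m : ℝ))) := by rw [← h2]
      rw [h3]
      field_simp
    rw [e1, hψm m hm, e2, DT, Dser]
    linear_combination (ψ (IK 𝔏) * starRingEnd ℂ (ψ (IK m)) *
      ((Real.exp ((v - lK m) / 2) : ℂ) * ∑' 𝔠 : Ideal (𝓞 K), ψ 𝔠 *
        kint K (FT κ lam T.star) (v - lK m + Real.log (Ideal.absNorm 𝔠)))) * e3
  have hEM : starRingEnd ℂ (EM κ lam T ψ S a η L u) = starRingEnd ℂ Ω *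
      ∑ m ∈ S, ((a m : ℂ) * starRingEnd ℂ (ψ (IK m)) *
        (((√(nm (NK K) m : ℝ))⁻¹ : ℝ) : ℂ) * ((1 + η * (u + lK m) / L : ℝ) : ℂ) *
        DT κ lam T.star ψ (v - lK m)) := by
    rw [EM, map_sum, Finset.mul_sum]
    refine Finset.sum_congr rfl fun m _ => ?_
    rw [hfe T (u + lK m)]
    have e1 : -(u + lK m) - Real.log (cond 𝔮) = v - lK m := by rw [hv]; ring
    rw [e1]
    simp only [map_mul, Complex.conj_ofReal, Complex.conj_conj]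
    ring
  have hall : (Real.exp (v / 2) : ℂ) * ∑' 𝔠 : Ideal (𝓞 K),
      bn 𝔮 S (fun m => IK (𝔏 - m))
        (fun m => ((a m * (1 + η * (u + lK m) / L) / nm (NK K) m : ℝ) : ℂ)) 𝔠 * ψ 𝔠 *
        kint K (FT κ lam T.star) (v - lK 𝔏 + Real.log (Ideal.absNorm 𝔠)) =
      ψ (IK 𝔏) * ∑ m ∈ S, ((a m : ℂ) * starRingEnd ℂ (ψ (IK m)) *
        (((√(nm (NK K) m : ℝ))⁻¹ : ℝ) : ℂ) * ((1 + η * (u + lK m) / L : ℝ) : ℂ) *
        DT κ lam T.star ψ (v - lK m)) := by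
    rw [hcore, Finset.mul_sum, Finset.mul_sum]
    exact Finset.sum_congr rfl hterm
  have hn1 : ‖EM κ lam T ψ S a η L u‖ = ‖∑ m ∈ S, ((a m : ℂ) * starRingEnd ℂ (ψ (IK m)) *
        (((√(nm (NK K) m : ℝ))⁻¹ : ℝ) : ℂ) * ((1 + η * (u + lK m) / L : ℝ) : ℂ) *
        DT κ lam T.star ψ (v - lK m))‖ := by
    rw [← RCLike.norm_conj, hEM, norm_mul, RCLike.norm_conj, hΩ, one_mul]
  have hn2 := congrArg norm hall
  rw [norm_mul, norm_mul, hψ𝔏, one_mul, Complex.norm_real, Real.norm_eq_abs,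
    abs_of_pos (Real.exp_pos _)] at hn2
  rw [hn1, ← hn2]

theorem exists_lcm_pr (h𝔮 : 𝔮 ≠ ⊥) (S : Finset (PK K →₀ ℕ))
    (hS : ∀ m ∈ S, IsCoprime (IK m) 𝔮) :
    ∃ 𝔏 : PK K →₀ ℕ, (∀ m ∈ S, m ≤ 𝔏) ∧ IsCoprime (IK 𝔏) 𝔮 := by
  refine ⟨∑ l ∈ S, l, fun l hl =>
    Finset.single_le_sum (f := fun l : PK K →₀ ℕ => l) (fun _ _ => by exact bot_le) hl,
    (cop_QK h𝔮 _).mp fun p hp => ?_⟩
  rw [Finsupp.finsetSum_apply]
  exact Finset.sum_eq_zero fun l hl => (cop_QK h𝔮 _).mpr (hS l hl) p hp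


end Pool.Agent.LVK

namespace Pool.Agent.LVK

theorem EM_dual : type_of% @EM_dual_pr := @EM_dual_pr
theorem exists_lcm : type_of% @exists_lcm_pr := @exists_lcm_pr

end Pool.Agent.LVK
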