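import Pool.Agent.Lib_helper42.LVK.Defs
import Pool.Agent.Lib_helper41.HZF.YB
import Pool.Agent.Lib_helper41.HZF.KG
import Pool.Agent.Lib_helper92.KSA.BRG

/-!
# LVK block MF4: norms of sums and intersections of the ideals `IK`
-/

namespace Pool.Agent.LVK

open NumberField NumberField.InfinitePlace NumberField.Units Complex MeasureTheory Filter Topology
open Pool.Agent.HZ Pool.Agent.AS Pool.Agent.KS

variable {K : Type} [Field K] [NumberField K]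

variable {𝔮 : Ideal (𝓞 K)} {κ : InfinitePlace K → ℤ} {lam : InfinitePlace K → ℝ}
  {χ : MulChar (𝓞 K ⧸ 𝔮) ℂ} {ψ : Ideal (𝓞 K) →* ℂ}

theorem mf4_nm_pos (g : PK K →₀ ℕ) : 0 < nm (NK K) g := by
  unfold nm
  rw [Finsupp.prod]
  exact Finset.prod_pos fun p _ => pow_pos (by have := two_le_NK p; omega) _

theorem mf4_exp (g : PK K →₀ ℕ) : Real.exp (lK g) = nm (NK K) g :=
  Real.exp_log (by exact_mod_cast mf4_nm_pos g)

theorem mf4_lK_add (g h : PK K →₀ ℕ) : lK (g + h) = lK g + lK h := by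
  classical
  have h1 : nm (NK K) (g + h) = nm (NK K) g * nm (NK K) h := by
    unfold nm
    exact Finsupp.prod_add_index' (fun _ => pow_zero _) (fun _ _ _ => pow_add _ _ _)
  have hg : (nm (NK K) g : ℝ) ≠ 0 := by exact_mod_cast (mf4_nm_pos g).ne'
  have hh : (nm (NK K) h : ℝ) ≠ 0 := by exact_mod_cast (mf4_nm_pos h).ne'
  unfold lK
  rw [h1, Nat.cast_mul, Real.log_mul hg hh]

theorem mf4_IK_inf (g h : PK K →₀ ℕ) : IK g ⊓ IK h = IK (g ⊔ h) := by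
  apply le_antisymm
  · have h0 : IK g ⊓ IK h ≠ ⊥ := by
      intro h1
      have h2 : IK (g + h) ≤ ⊥ := by
        rw [← h1, IK_add]
        exact Ideal.mul_le_inf
      exact IK_ne_bot (g + h) (le_bot_iff.mp h2)
    obtain ⟨k, hk⟩ := IK_surj h0
    rw [← hk]
    apply Ideal.le_of_dvd
    rw [IK_dvd]
    refine sup_le ?_ ?_
    · rw [← IK_dvd, Ideal.dvd_iff_le, hk]; exact inf_le_left
    · rw [← IK_dvd, Ideal.dvd_iff_le, hk]; exact inf_le_right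
  · refine le_inf ?_ ?_
    · exact Ideal.le_of_dvd (IK_dvd.mpr le_sup_left)
    · exact Ideal.le_of_dvd (IK_dvd.mpr le_sup_right)

theorem mf4_lK_sub {x y : PK K →₀ ℕ} (h : x ≤ y) : lK (y - x) = lK y - lK x := by
  have h1 := mf4_lK_add (y - x) x
  rw [tsub_add_cancel_of_le h] at h1
  linarith

theorem absNorm_IK_sup_pr (g h : PK K →₀ ℕ) :
    (Ideal.absNorm (IK g ⊔ IK h) : ℝ) = Real.exp (lK (g ⊓ h)) := by
  rw [IK_sup, absNorm_IK, mf4_exp]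

theorem absNorm_IK_inf_pr (g h : PK K →₀ ℕ) :
    (Ideal.absNorm (IK g ⊓ IK h) : ℝ) = Real.exp (lK (g ⊔ h)) := by
  rw [mf4_IK_inf, absNorm_IK, mf4_exp]

theorem lK_sup_inf_pr (g h : PK K →₀ ℕ) : lK (g ⊔ h) + lK (g ⊓ h) = lK g + lK h := by
  rw [← mf4_lK_add, ← mf4_lK_add]
  congr 1
  ext p
  simp only [Finsupp.add_apply, Finsupp.sup_apply, Finsupp.inf_apply]
  exact max_add_min _ _

theorem lK_dual_pr {𝔏 m m' : PK K →₀ ℕ} (h : m ≤ 𝔏) (h' : m' ≤ 𝔏) :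
    lK ((𝔏 - m) ⊓ (𝔏 - m')) = lK 𝔏 - lK (m ⊔ m') ∧
    lK ((𝔏 - m) ⊔ (𝔏 - m')) = lK 𝔏 - lK (m ⊓ m') := by
  have e1 : (𝔏 - m) ⊓ (𝔏 - m') = 𝔏 - (m ⊔ m') := by
    ext p
    simp only [Finsupp.tsub_apply, Finsupp.sup_apply, Finsupp.inf_apply]
    omega
  have e2 : (𝔏 - m) ⊔ (𝔏 - m') = 𝔏 - (m ⊓ m') := by
    ext p
    simp only [Finsupp.tsub_apply, Finsupp.sup_apply, Finsupp.inf_apply]
    omega
  rw [e1, e2, mf4_lK_sub (sup_le h h'), mf4_lK_sub (inf_le_left.trans h)]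
  exact ⟨rfl, rfl⟩

theorem bn_le_pr {ι : Type} (h𝔮 : 𝔮 ≠ ⊥) (J : Finset ι) (n : ι → Ideal (𝓞 K)) (a : ι → ℂ)
    (𝔠 : Ideal (𝓞 K)) :
    open scoped Classical in
    ‖bn 𝔮 J n a 𝔠‖ ≤ ∑ i ∈ J, (if n i ∣ 𝔠 then ‖a i‖ else 0) ∧
    (𝔠 = ⊥ ∨ ¬ IsCoprime 𝔠 𝔮 → bn 𝔮 J n a 𝔠 = 0) := by
  classical
  constructor
  · unfold bn
    split_ifs with h
    · refine (norm_sum_le _ _).trans (Finset.sum_le_sum fun i _ => ?_)
      by_cases hi : n i ∣ 𝔠
      · rw [if_pos hi, if_pos hi]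
      · rw [if_neg hi, if_neg hi, norm_zero]
    · rw [norm_zero]
      refine Finset.sum_nonneg fun i _ => ?_
      by_cases hi : n i ∣ 𝔠
      · rw [if_pos hi]; exact norm_nonneg _
      · rw [if_neg hi]
  · intro hc
    unfold bn
    rw [if_neg]
    rintro ⟨h1, h2⟩
    rcases hc with hc | hc
    · exact h1 hc
    · exact hc h2


end Pool.Agent.LVK

namespace Pool.Agent.LVK

theorem absNorm_IK_sup : type_of% @absNorm_IK_sup_pr := @absNorm_IK_sup_pr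
theorem absNorm_IK_inf : type_of% @absNorm_IK_inf_pr := @absNorm_IK_inf_pr
theorem lK_sup_inf : type_of% @lK_sup_inf_pr := @lK_sup_inf_pr
theorem lK_dual : type_of% @lK_dual_pr := @lK_dual_pr
theorem bn_le : type_of% @bn_le_pr := @bn_le_pr

end Pool.Agent.LVK
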