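import Pool.Agent.Lib_helper42.LVK.Defs
import Pool.Agent.Lib_helper41.HZF.YB
import Pool.Agent.Lib_helper41.HZF.KG
import Pool.Agent.Lib_helper92.KSA.BRG
import Pool.Agent.Lib_helper41.HZF.SUM
import Pool.Agent.Lib_helper92.KSA.DGE
import Pool.Agent.Lib_helper39.LVX.K_MF4

/-! LVK, block MF3: the diagonals -/

namespace Pool.Agent.LVK

open NumberField NumberField.InfinitePlace NumberField.Units Complex MeasureTheory Filter Topology
open Pool.Agent.HZ Pool.Agent.AS Pool.Agent.KS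

variable {K : Type} [Field K] [NumberField K]

variable {𝔮 : Ideal (𝓞 K)} {κ : InfinitePlace K → ℤ} {lam : InfinitePlace K → ℝ}
  {χ : MulChar (𝓞 K ⧸ 𝔮) ℂ} {ψ : Ideal (𝓞 K) →* ℂ}

open scoped Classical in
theorem direct_diag_pr (h𝔮 : 𝔮 ≠ ⊥) {k : ℝ → ℝ} (S : Finset (PK K →₀ ℕ))
    (a : (PK K →₀ ℕ) → ℝ) (η L u : ℝ) :
    ∑' 𝔠 : Ideal (𝓞 K), ‖bcf 𝔮 S a η L u 𝔠‖ ^ 2 * k (u + Real.log (Ideal.absNorm 𝔠)) =
      ∑' g : PK K →₀ ℕ, (if Cop (QK 𝔮) g then bS S a η L u g ^ 2 * k (u + lK g) else 0) := by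
  rw [(summable_IK (K := K) (fun 𝔠 => ‖bcf 𝔮 S a η L u 𝔠‖ ^ 2 *
    k (u + Real.log (Ideal.absNorm 𝔠))) (by simp [bcf, bn])).2]
  refine tsum_congr fun g => ?_
  have h1 : bcf 𝔮 S a η L u (IK g) =
      ((if Cop (QK 𝔮) g then bS S a η L u g else 0 : ℝ) : ℂ) := by
    rw [bcf, bn]
    by_cases hc : Cop (QK 𝔮) g
    · rw [if_pos ⟨IK_ne_bot g, (cop_QK h𝔮 g).mp hc⟩, if_pos hc, bS]
      push_cast
      refine Finset.sum_congr rfl (fun j _ => ?_)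
      by_cases hd : j ≤ g
      · rw [if_pos (IK_dvd.mpr hd), if_pos hd]
        push_cast
        rfl
      · rw [if_neg (fun h => hd (IK_dvd.mp h)), if_neg hd]
        simp
    · rw [if_neg (fun h => hc ((cop_QK h𝔮 g).mpr h.2)), if_neg hc]
      simp
  rw [h1, Complex.norm_real, Real.norm_eq_abs, sq_abs, absNorm_IK]
  by_cases hc : Cop (QK 𝔮) g
  · rw [if_pos hc, if_pos hc]
    rfl
  · rw [if_neg hc, if_neg hc]
    simp

theorem mf3_summable {k : ℝ → ℝ}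
    (hk : ∀ A : ℝ, 0 < A → ∃ C : ℝ, ∀ w, |k w| ≤ C * Real.exp (-(A * w))) (w : ℝ) :
    Summable (fun g : PK K →₀ ℕ => k (w + Real.log (nm (NK K) g))) := by
  obtain ⟨C, hC⟩ := hk 2 (by norm_num)
  have h1 := ideal_summable (K := K) (A := 2) (by norm_num)
  have h2 := (summable_IK (K := K) (fun 𝔠 => (Ideal.absNorm 𝔠 : ℝ) ^ (-2 : ℝ)) (by
    simp only [Ideal.absNorm_bot, Nat.cast_zero]
    exact Real.zero_rpow (by norm_num))).1.mp h1
  have h3 : Summable (fun g : PK K →₀ ℕ => (nm (NK K) g : ℝ) ^ (-2 : ℝ)) := by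
    refine h2.congr fun g => ?_
    rw [absNorm_IK]
  refine Summable.of_norm_bounded (h3.mul_left (C * Real.exp (-(2 * w)))) fun g => ?_
  have hn0 : (0 : ℝ) < (nm (NK K) g : ℝ) := by exact_mod_cast nm_pos two_le_NK g
  rw [Real.norm_eq_abs]
  refine (hC _).trans (le_of_eq ?_)
  rw [mul_assoc, Real.rpow_def_of_pos hn0, ← Real.exp_add]
  congr 2
  ring

open scoped Classical in
theorem mf3_inner {k : ℝ → ℝ} (Q : Finset (PK K)) (h : PK K →₀ ℕ) (hh : Cop Q h) (w : ℝ) :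
    ∑' g : PK K →₀ ℕ, (if Cop Q g ∧ h ≤ g then k (w + Real.log (nm (NK K) g)) else 0) =
      WW (NK K) k Q (w + Real.log (nm (NK K) h)) := by
  have hinj : Function.Injective (fun g' : PK K →₀ ℕ => h + g') := add_right_injective h
  have hsupp : Function.support (fun g : PK K →₀ ℕ =>
      (if Cop Q g ∧ h ≤ g then k (w + Real.log (nm (NK K) g)) else 0)) ⊆
      Set.range (fun g' : PK K →₀ ℕ => h + g') := by
    intro g hg
    rw [Function.mem_support] at hg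
    have : h ≤ g := by
      by_contra hcon
      apply hg
      rw [if_neg (fun h' => hcon h'.2)]
    exact ⟨g - h, add_tsub_cancel_of_le this⟩
  rw [← hinj.tsum_eq hsupp, WW]
  refine tsum_congr (fun g' => ?_)
  have hpos : ∀ g : PK K →₀ ℕ, (0 : ℝ) < (nm (NK K) g : ℝ) := fun g => by
    exact_mod_cast nm_pos two_le_NK g
  have hlog : Real.log (nm (NK K) (h + g')) =
      Real.log (nm (NK K) h) + Real.log (nm (NK K) g') := by
    rw [nm_add]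
    push_cast
    rw [Real.log_mul (hpos h).ne' (hpos g').ne']
  have hle : h ≤ h + g' := le_self_add
  by_cases hc : Cop Q g'
  · rw [if_pos ⟨cop_add.mpr ⟨hh, hc⟩, hle⟩, if_pos hc, hlog]
    congr 1
    ring
  · rw [if_neg (fun h' => hc (cop_add.mp h'.1).2), if_neg hc]

open scoped Classical in
theorem dual_diag_pr (h𝔮 : 𝔮 ≠ ⊥) {k : ℝ → ℝ}
    (hk : ∀ A : ℝ, 0 < A → ∃ C : ℝ, ∀ w, |k w| ≤ C * Real.exp (-(A * w)))
    (S : Finset (PK K →₀ ℕ)) (c : (PK K →₀ ℕ) → ℝ) (𝔏 : PK K →₀ ℕ) (hS : ∀ m ∈ S, m ≤ 𝔏)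
    (h𝔏 : IsCoprime (IK 𝔏) 𝔮) (v : ℝ) :
    ∑' 𝔠 : Ideal (𝓞 K), ‖bn 𝔮 S (fun m => IK (𝔏 - m)) (fun m => ((c m : ℝ) : ℂ)) 𝔠‖ ^ 2 *
        k (v - lK 𝔏 + Real.log (Ideal.absNorm 𝔠)) =
      ∑ m ∈ S, ∑ m' ∈ S, c m * c m' * WW (NK K) k (QK 𝔮) (v - lK (m ⊓ m')) := by
  have hcop : ∀ m m' : PK K →₀ ℕ, Cop (QK 𝔮) ((𝔏 - m) ⊔ (𝔏 - m')) := by
    intro m m' p hp
    have h1 : 𝔏 p = 0 := (cop_QK h𝔮 𝔏).mpr h𝔏 p hp
    rw [Finsupp.sup_apply, Finsupp.tsub_apply, Finsupp.tsub_apply, h1]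
    simp
  rw [(summable_IK (K := K) (fun 𝔠 => ‖bn 𝔮 S (fun m => IK (𝔏 - m))
    (fun m => ((c m : ℝ) : ℂ)) 𝔠‖ ^ 2 * k (v - lK 𝔏 + Real.log (Ideal.absNorm 𝔠)))
    (by simp [bn])).2]
  have hterm : ∀ g : PK K →₀ ℕ, ‖bn 𝔮 S (fun m => IK (𝔏 - m)) (fun m => ((c m : ℝ) : ℂ))
        (IK g)‖ ^ 2 * k (v - lK 𝔏 + Real.log (Ideal.absNorm (IK g))) =
      ∑ j ∈ S, ∑ j' ∈ S, c j * c j' *
        (if Cop (QK 𝔮) g ∧ (𝔏 - j) ⊔ (𝔏 - j') ≤ g then
          k (v - lK 𝔏 + Real.log (nm (NK K) g)) else 0) := by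
    intro g
    rw [dge_bn h𝔮 S (fun m => IK (𝔏 - m)) (fun m => 𝔏 - m) (fun _ _ => rfl) c g,
      Finset.sum_mul, absNorm_IK]
    refine Finset.sum_congr rfl (fun j _ => ?_)
    rw [Finset.sum_mul]
    refine Finset.sum_congr rfl (fun j' _ => ?_)
    split_ifs <;> ring
  have hsum : ∀ j j' : PK K →₀ ℕ, Summable (fun g : PK K →₀ ℕ =>
      (if Cop (QK 𝔮) g ∧ (𝔏 - j) ⊔ (𝔏 - j') ≤ g then
          k (v - lK 𝔏 + Real.log (nm (NK K) g)) else 0)) := by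
    intro j j'
    have h1 := (mf3_summable (K := K) hk (v - lK 𝔏)).indicator
      {g : PK K →₀ ℕ | Cop (QK 𝔮) g ∧ (𝔏 - j) ⊔ (𝔏 - j') ≤ g}
    refine h1.congr (fun g => ?_)
    rw [Set.indicator_apply]
    rfl
  rw [tsum_congr hterm, Summable.tsum_finsetSum (fun j _ =>
    summable_sum (fun j' _ => (hsum j j').mul_left _))]
  refine Finset.sum_congr rfl (fun j hj => ?_)
  rw [Summable.tsum_finsetSum (fun j' _ => (hsum j j').mul_left _)]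
  refine Finset.sum_congr rfl (fun j' hj' => ?_)
  rw [tsum_mul_left, mf3_inner (QK 𝔮) ((𝔏 - j) ⊔ (𝔏 - j')) (hcop j j') (v - lK 𝔏)]
  congr 2
  have h2 := (lK_dual (hS j hj) (hS j' hj')).2
  unfold lK at h2 ⊢
  rw [h2]
  ring

end Pool.Agent.LVK

namespace Pool.Agent.LVK

theorem direct_diag : type_of% @direct_diag_pr := @direct_diag_pr
theorem dual_diag : type_of% @dual_diag_pr := @dual_diag_pr

end Pool.Agent.LVK
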