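import Pool.Agent.Lib_helper42.LVK.Defs
import Pool.Agent.Lib_helper41.HZF.YB
import Pool.Agent.Lib_helper41.HZF.KG
import Pool.Agent.Lib_helper92.KSA.BRG
import Pool.Agent.Lib_helper92.KSA.LATU
import Pool.Agent.Lib_helper92.KSA.LNZ
import Pool.Agent.Lib_helper92.KSA.ZKA
import Pool.Agent.Lib_helper92.KSA.ZK
import Pool.Agent.Lib_helper39.LVX.K_MA1

/-!
# LVK block MG1: basic facts on the kernels `k_T`
-/

namespace Pool.Agent.LVK

open NumberField NumberField.InfinitePlace NumberField.Units Complex MeasureTheory Filter Topology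
open Pool.Agent.HZ Pool.Agent.AS Pool.Agent.KS

variable {K : Type} [Field K] [NumberField K]

theorem mg1_sq (κ : InfinitePlace K → ℤ) (T : TD K) : ∃ C c : ℝ, 0 ≤ C ∧ 0 < c ∧
    ContinuousOn (fun y : InfinitePlace K → ℝ => ‖fT κ T y‖ ^ 2) {y | ∀ w, 0 < y w} ∧
    ∀ y : InfinitePlace K → ℝ, (∀ w, 0 < y w) →
      ‖(‖fT κ T y‖ ^ 2 : ℝ)‖ ≤ C * Real.exp (-c * qn y) := by
  obtain ⟨C, c, h0, hc, hcont, hb⟩ := fT_good κ T
  refine ⟨C ^ 2, 2 * c, by positivity, by positivity, hcont.norm.pow 2, fun y hy => ?_⟩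
  rw [Real.norm_of_nonneg (by positivity)]
  calc ‖fT κ T y‖ ^ 2 ≤ (C * Real.exp (-c * qn y)) ^ 2 :=
        pow_le_pow_left₀ (norm_nonneg _) (hb y hy) 2
    _ = C ^ 2 * Real.exp (-(2 * c) * qn y) := by
        rw [mul_pow, ← Real.exp_nat_mul]
        congr 2
        push_cast
        ring

theorem kk_continuous_pr (κ : InfinitePlace K → ℤ) (T : TD K) : Continuous (kk κ T) := by
  obtain ⟨C, c, h0, hc, hcont, hb⟩ := mg1_sq κ T
  exact kgb_gen_cont (K := K) (G := fun y => ‖fT κ T y‖ ^ 2) h0 hc hcont hb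

theorem kk_nonneg_pr (κ : InfinitePlace K → ℤ) (T : TD K) (u : ℝ) : 0 ≤ kk κ T u :=
  integral_nonneg fun _ => by positivity

theorem kk_decay_pr (κ : InfinitePlace K → ℤ) (T : TD K) {A : ℝ} (hA : 0 < A) :
    ∃ C : ℝ, 0 ≤ C ∧ ∀ u : ℝ, kk κ T u ≤ C * Real.exp (-(A * u)) := by
  obtain ⟨C, c, h0, hc, hcont, hb⟩ := mg1_sq κ T
  obtain ⟨C', hC', h⟩ := kg_le (K := K) hc hA
  refine ⟨C * C', by positivity, fun u => ?_⟩
  have h1 : kk κ T u ≤ C * kg K c u := by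
    unfold kk kg
    rw [← integral_const_mul]
    refine integral_mono (kgb_gen_int (K := K) (G := fun y => ‖fT κ T y‖ ^ 2) h0 hc hcont hb u)
      ((kg_integrable hc u).const_mul C) fun x => ?_
    exact (Real.le_norm_self _).trans (hb _ (Yv_pos u x))
  calc kk κ T u ≤ C * kg K c u := h1
    _ ≤ C * (C' * Real.exp (-(A * u))) := mul_le_mul_of_nonneg_left (h u) h0
    _ = _ := by ring

theorem kk_sum_pr (κ : InfinitePlace K → ℤ) (T : TD K) {A : ℝ} (hA : 1 < A) :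
    ∃ C : ℝ, 0 ≤ C ∧ ∀ w : ℝ, (Summable fun g : PK K →₀ ℕ => kk κ T (w + lK g)) ∧
      ∑' g : PK K →₀ ℕ, kk κ T (w + lK g) ≤ C * Real.exp (-(A * w)) := by
  have hkd : ∀ A : ℝ, 0 < A → ∃ C : ℝ, ∀ w, kk κ T w ≤ C * Real.exp (-(A * w)) := fun A hA => by
    obtain ⟨C, -, h⟩ := kk_decay_pr κ T hA
    exact ⟨C, h⟩
  obtain ⟨C, hC, h⟩ := zk_W_le (ν := fun g : PK K →₀ ℕ => (nm (NK K) g : ℝ)) (zk_one_le K)
    (zk_summable K) (kk_nonneg_pr κ T) hkd hA
  exact ⟨C, hC, fun w => ⟨zk_summable_k (ν := fun g : PK K →₀ ℕ => (nm (NK K) g : ℝ))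
    (zk_one_le K) (zk_summable K) (kk_nonneg_pr κ T) hkd w, h w⟩⟩



end Pool.Agent.LVK

namespace Pool.Agent.LVK

theorem kk_continuous : type_of% @kk_continuous_pr := @kk_continuous_pr
theorem kk_nonneg : type_of% @kk_nonneg_pr := @kk_nonneg_pr
theorem kk_decay : type_of% @kk_decay_pr := @kk_decay_pr
theorem kk_sum : type_of% @kk_sum_pr := @kk_sum_pr

end Pool.Agent.LVK
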