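import Pool.Agent.Lib_helper42.LVK.Defs
import Pool.Agent.Lib_helper41.HZF.YB
import Pool.Agent.Lib_helper41.HZF.KG
import Pool.Agent.Lib_helper92.KSA.BRG
import Pool.Agent.Lib_helper92.KSA.LATU
import Pool.Agent.Lib_helper92.KSA.LNZ
import Pool.Agent.Lib_helper41.HZF.SUM
import Pool.Agent.Lib_helper39.LVX.K_MG1

/-! LVK, block MG2: integrability of the diagonals -/

namespace Pool.Agent.LVK

open NumberField NumberField.InfinitePlace NumberField.Units Complex MeasureTheory Filter Topology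
open Pool.Agent.HZ Pool.Agent.AS Pool.Agent.KS

variable {K : Type} [Field K] [NumberField K]

theorem mg2_sq {b : ℝ} (hb : 0 < b) : ∃ C : ℝ, 0 ≤ C ∧ ∀ u : ℝ,
    (1 + |u|) ^ 2 ≤ C * Real.exp (b * |u|) := by
  refine ⟨2 + 4 / b ^ 2, by positivity, fun u => ?_⟩
  have h1 := Real.quadratic_le_exp_of_nonneg (x := b * |u|) (by positivity)
  have h2 : 0 ≤ |u| := abs_nonneg u
  have h3 : (1 + |u|) ^ 2 ≤ 2 + 4 / b ^ 2 * ((b * |u|) ^ 2 / 2) := by
    have e1 : 4 / b ^ 2 * ((b * |u|) ^ 2 / 2) = 2 * |u| ^ 2 := by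
      field_simp
      ring
    rw [e1]
    nlinarith [sq_nonneg (1 - |u|)]
  have h4 : 1 ≤ Real.exp (b * |u|) := Real.one_le_exp (by positivity)
  have h5 : (b * |u|) ^ 2 / 2 ≤ Real.exp (b * |u|) := by
    have : 0 ≤ b * |u| := by positivity
    linarith
  have h6 : 0 ≤ 4 / b ^ 2 := by positivity
  nlinarith [mul_le_mul_of_nonneg_left h5 h6]

theorem mg2_Ioi {b : ℝ} (hb : 0 < b) (U : ℝ) :
    IntegrableOn (fun u : ℝ => (1 + |u|) ^ 2 * Real.exp (-(b * u))) (Set.Ioi (-U)) := by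
  obtain ⟨C, hC, h⟩ := mg2_sq (half_pos hb)
  have h1 : IntegrableOn (fun u : ℝ => (C * Real.exp (b * |U|)) * Real.exp (-(b / 2) * u))
      (Set.Ioi (-U)) := (exp_neg_integrableOn_Ioi (-U) (half_pos hb)).const_mul _
  refine Integrable.mono' h1 (by fun_prop) ?_
  refine (ae_restrict_iff' measurableSet_Ioi).2 (ae_of_all _ fun u hu => ?_)
  have hu' : -U < u := hu
  rw [Real.norm_of_nonneg (by positivity)]
  have h2 : |u| ≤ u + 2 * |U| := by
    have := le_abs_self U
    rcases abs_cases u with ⟨h, _⟩ | ⟨h, _⟩ <;> rw [h]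
    · linarith [abs_nonneg U]
    · linarith
  calc (1 + |u|) ^ 2 * Real.exp (-(b * u))
      ≤ (C * Real.exp (b / 2 * |u|)) * Real.exp (-(b * u)) :=
        mul_le_mul_of_nonneg_right (h u) (Real.exp_pos _).le
    _ ≤ (C * Real.exp (b / 2 * (u + 2 * |U|))) * Real.exp (-(b * u)) := by
        refine mul_le_mul_of_nonneg_right (mul_le_mul_of_nonneg_left ?_ hC) (Real.exp_pos _).le
        exact Real.exp_le_exp.2 (mul_le_mul_of_nonneg_left h2 (half_pos hb).le)
    _ = (C * Real.exp (b * |U|)) * Real.exp (-(b / 2) * u) := by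
        rw [mul_assoc, mul_assoc, ← Real.exp_add, ← Real.exp_add]
        congr 2
        ring

theorem mg2_Iic {b : ℝ} (hb : 0 < b) (U : ℝ) :
    IntegrableOn (fun u : ℝ => (1 + |u|) ^ 2 * Real.exp (b * u)) (Set.Iic (-U)) := by
  obtain ⟨C, hC, h⟩ := mg2_sq (half_pos hb)
  have h1 : IntegrableOn (fun u : ℝ => (C * Real.exp (b * |U|)) * Real.exp (b / 2 * u))
      (Set.Iic (-U)) := (integrableOn_exp_mul_Iic (half_pos hb) (-U)).const_mul _
  refine Integrable.mono' h1 (by fun_prop) ?_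
  refine (ae_restrict_iff' measurableSet_Iic).2 (ae_of_all _ fun u hu => ?_)
  have hu' : u ≤ -U := hu
  rw [Real.norm_of_nonneg (by positivity)]
  have h2 : |u| ≤ -u + 2 * |U| := by
    have := neg_abs_le U
    rcases abs_cases u with ⟨h, _⟩ | ⟨h, _⟩ <;> rw [h]
    · linarith
    · linarith [abs_nonneg U]
  calc (1 + |u|) ^ 2 * Real.exp (b * u)
      ≤ (C * Real.exp (b / 2 * |u|)) * Real.exp (b * u) :=
        mul_le_mul_of_nonneg_right (h u) (Real.exp_pos _).le
    _ ≤ (C * Real.exp (b / 2 * (-u + 2 * |U|))) * Real.exp (b * u) := by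
        refine mul_le_mul_of_nonneg_right (mul_le_mul_of_nonneg_left ?_ hC) (Real.exp_pos _).le
        exact Real.exp_le_exp.2 (mul_le_mul_of_nonneg_left h2 (half_pos hb).le)
    _ = (C * Real.exp (b * |U|)) * Real.exp (b / 2 * u) := by
        rw [mul_assoc, mul_assoc, ← Real.exp_add, ← Real.exp_add]
        congr 2
        ring

theorem mg2_lin (η L c u : ℝ) :
    |1 + η * (u + c) / L| ≤ (1 + |η| / |L| * (1 + |c|)) * (1 + |u|) := by
  have h1 : |η * (u + c) / L| ≤ |η| / |L| * (|u| + |c|) := by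
    rw [abs_div, abs_mul, mul_div_right_comm]
    exact mul_le_mul_of_nonneg_left (abs_add_le u c) (by positivity)
  have h2 := abs_add_le 1 (η * (u + c) / L)
  rw [abs_one] at h2
  have h3 : 0 ≤ |η| / |L| := by positivity
  have h4 : 0 ≤ |u| := abs_nonneg u
  have h5 : 0 ≤ |c| := abs_nonneg c
  nlinarith [mul_nonneg h3 h4, mul_nonneg h3 h5, mul_nonneg (mul_nonneg h3 h4) h5]

theorem mg2_countable : Countable (PK K →₀ ℕ) := by
  have h1 := ideal_summable (K := K) (A := 2) (by norm_num)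
  have h2 := (summable_IK (K := K) (fun 𝔠 => (Ideal.absNorm 𝔠 : ℝ) ^ (-2 : ℝ)) (by
    simp only [Ideal.absNorm_bot, Nat.cast_zero]
    exact Real.zero_rpow (by norm_num))).1.mp h1
  have h3 := h2.countable_support
  have h4 : Function.support (fun g : PK K →₀ ℕ => (Ideal.absNorm (IK g) : ℝ) ^ (-2 : ℝ)) =
      Set.univ := by
    ext g
    simp only [Function.mem_support, Set.mem_univ, iff_true, absNorm_IK]
    have hn0 : (0 : ℝ) < (nm (NK K) g : ℝ) := by exact_mod_cast nm_pos two_le_NK g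
    exact (Real.rpow_pos_of_pos hn0 _).ne'
  rw [h4] at h3
  exact Set.countable_univ_iff.1 h3

open scoped Classical in
theorem DIR_int_pr (κ : InfinitePlace K → ℤ) (T : TD K) (Q : Finset (PK K))
    (S : Finset (PK K →₀ ℕ)) (a : (PK K →₀ ℕ) → ℝ) (η L σ U : ℝ) :
    IntegrableOn (fun u => Real.exp (2 * σ * u) *
      ∑' g : PK K →₀ ℕ, if Cop Q g then bS S a η L u g ^ 2 * kk κ T (u + lK g) else 0)
      (Set.Ioi (-U)) := by
  have hcount := mg2_countable (K := K)
  have hkc := kk_continuous κ T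
  set A : ℝ := 2 * |σ| + 2 with hA
  have hA1 : 1 < A := by
    have := abs_nonneg σ
    rw [hA]
    linarith
  have hb : 0 < A - 2 * σ := by
    have := le_abs_self σ
    rw [hA]
    linarith
  obtain ⟨C, hC, hs⟩ := kk_sum κ T hA1
  set M : ℝ := ∑ m ∈ S, |a m| * (1 + |η| / |L| * (1 + |lK m|)) with hM
  have hM0 : 0 ≤ M := Finset.sum_nonneg fun m _ => by positivity
  have hbS : ∀ (u : ℝ) (g : PK K →₀ ℕ), |bS S a η L u g| ≤ M * (1 + |u|) := by
    intro u g
    unfold bS
    refine (Finset.abs_sum_le_sum_abs _ _).trans ?_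
    rw [hM, Finset.sum_mul]
    refine Finset.sum_le_sum fun m _ => ?_
    split_ifs
    · rw [abs_mul, mul_assoc]
      exact mul_le_mul_of_nonneg_left (mg2_lin η L (lK m) u) (abs_nonneg _)
    · rw [abs_zero]
      positivity
  have hbSc : ∀ g : PK K →₀ ℕ, Continuous fun u => bS S a η L u g := by
    intro g
    unfold bS
    refine continuous_finsetSum _ fun m _ => ?_
    split_ifs
    · fun_prop
    · exact continuous_const
  have hF0 : ∀ (u : ℝ) (g : PK K →₀ ℕ),
      0 ≤ (if Cop Q g then bS S a η L u g ^ 2 * kk κ T (u + lK g) else 0) := by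
    intro u g
    split_ifs
    · exact mul_nonneg (sq_nonneg _) (kk_nonneg κ T _)
    · exact le_rfl
  have hF1 : ∀ (u : ℝ) (g : PK K →₀ ℕ),
      (if Cop Q g then bS S a η L u g ^ 2 * kk κ T (u + lK g) else 0) ≤
        (M * (1 + |u|)) ^ 2 * kk κ T (u + lK g) := by
    intro u g
    have hk := kk_nonneg κ T (u + lK g)
    split_ifs
    · refine mul_le_mul_of_nonneg_right ?_ hk
      rw [← sq_abs (bS S a η L u g)]
      exact pow_le_pow_left₀ (abs_nonneg _) (hbS u g) 2
    · exact mul_nonneg (sq_nonneg _) hk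
  have hT : ∀ u : ℝ, 0 ≤ (∑' g : PK K →₀ ℕ,
      if Cop Q g then bS S a η L u g ^ 2 * kk κ T (u + lK g) else 0) ∧
      (∑' g : PK K →₀ ℕ, if Cop Q g then bS S a η L u g ^ 2 * kk κ T (u + lK g) else 0) ≤
        (M * (1 + |u|)) ^ 2 * (C * Real.exp (-(A * u))) := by
    intro u
    refine ⟨tsum_nonneg (hF0 u), ?_⟩
    have h1 := (hs u).1.mul_left ((M * (1 + |u|)) ^ 2)
    have h2 := Summable.of_nonneg_of_le (hF0 u) (hF1 u) h1
    calc _ ≤ ∑' g : PK K →₀ ℕ, (M * (1 + |u|)) ^ 2 * kk κ T (u + lK g) :=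
          h2.tsum_le_tsum (hF1 u) h1
      _ = (M * (1 + |u|)) ^ 2 * ∑' g : PK K →₀ ℕ, kk κ T (u + lK g) := tsum_mul_left
      _ ≤ _ := mul_le_mul_of_nonneg_left (hs u).2 (sq_nonneg _)
  refine Integrable.mono' ((mg2_Ioi hb U).const_mul (M ^ 2 * C)) ?_ (ae_of_all _ fun u => ?_)
  · refine Measurable.aestronglyMeasurable ?_
    refine Measurable.mul (by fun_prop) (Measurable.tsum fun g => ?_)
    split_ifs
    · have := hbSc g
      exact (by fun_prop : Continuous fun u => bS S a η L u g ^ 2 * kk κ T (u + lK g)).measurable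
    · exact measurable_const
  · rw [Real.norm_of_nonneg (mul_nonneg (Real.exp_pos _).le (hT u).1)]
    calc Real.exp (2 * σ * u) * (∑' g : PK K →₀ ℕ,
          if Cop Q g then bS S a η L u g ^ 2 * kk κ T (u + lK g) else 0)
        ≤ Real.exp (2 * σ * u) * ((M * (1 + |u|)) ^ 2 * (C * Real.exp (-(A * u)))) :=
          mul_le_mul_of_nonneg_left (hT u).2 (Real.exp_pos _).le
      _ = M ^ 2 * C * ((1 + |u|) ^ 2 * (Real.exp (2 * σ * u) * Real.exp (-(A * u)))) := by ring
      _ = M ^ 2 * C * ((1 + |u|) ^ 2 * Real.exp (-((A - 2 * σ) * u))) := by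
          rw [← Real.exp_add]
          congr 3
          ring

/-- the kernel `WW` is measurable and decays -/
theorem mg2_WW (κ : InfinitePlace K → ℤ) (T : TD K) (Q : Finset (PK K)) :
    Measurable (WW (NK K) (kk κ T) Q) ∧ ∀ A : ℝ, 1 < A → ∃ C : ℝ, 0 ≤ C ∧ ∀ w : ℝ,
      |WW (NK K) (kk κ T) Q w| ≤ C * Real.exp (-(A * w)) := by
  classical
  have hcount := mg2_countable (K := K)
  have hkc := kk_continuous κ T
  refine ⟨?_, fun A hA => ?_⟩
  · unfold WW
    refine Measurable.tsum fun g => ?_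
    split_ifs
    · exact (by fun_prop : Continuous fun w =>
        kk κ T (w + Real.log (nm (NK K) g))).measurable
    · exact measurable_const
  · obtain ⟨C, hC, hs⟩ := kk_sum κ T hA
    refine ⟨C, hC, fun w => ?_⟩
    have h0 : ∀ g : PK K →₀ ℕ,
        0 ≤ (if Cop Q g then kk κ T (w + Real.log (nm (NK K) g)) else 0) := by
      intro g
      split_ifs
      · exact kk_nonneg κ T _
      · exact le_rfl
    have h1 : ∀ g : PK K →₀ ℕ,
        (if Cop Q g then kk κ T (w + Real.log (nm (NK K) g)) else 0) ≤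
          kk κ T (w + lK g) := by
      intro g
      split_ifs
      · exact le_rfl
      · exact kk_nonneg κ T _
    have h2 := Summable.of_nonneg_of_le h0 h1 (hs w).1
    have h3 : WW (NK K) (kk κ T) Q w =
        ∑' g : PK K →₀ ℕ, (if Cop Q g then kk κ T (w + Real.log (nm (NK K) g)) else 0) := rfl
    rw [h3, abs_of_nonneg (tsum_nonneg h0)]
    exact (h2.tsum_le_tsum h1 (hs w).1).trans (hs w).2

theorem DUAL_int_pr (κ : InfinitePlace K → ℤ) (T : TD K) (Q : Finset (PK K))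
    (S : Finset (PK K →₀ ℕ)) (a : (PK K →₀ ℕ) → ℝ) (η L σ U ℓ : ℝ) :
    IntegrableOn (fun u => Real.exp ((2 * σ - 2) * u) *
      ∑ m ∈ S, ∑ m' ∈ S, a m * a m' / (nm (NK K) m * nm (NK K) m') *
        (1 + η * (u + lK m) / L) * (1 + η * (u + lK m') / L) *
        WW (NK K) (kk κ T) Q (-u - ℓ - lK (m ⊓ m'))) (Set.Iic (-U)) := by
  obtain ⟨hm, hd⟩ := mg2_WW κ T Q
  set A : ℝ := 2 * |σ| + 4 with hA
  have hA1 : 1 < A := by
    have := abs_nonneg σ
    rw [hA]
    linarith
  have hb : 0 < 2 * σ - 2 + A := by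
    have := neg_abs_le σ
    rw [hA]
    linarith
  obtain ⟨C, hC, hW⟩ := hd A hA1
  simp_rw [Finset.mul_sum]
  refine integrable_finsetSum _ fun m _ => integrable_finsetSum _ fun m' _ => ?_
  set c : ℝ := lK (m ⊓ m') with hc
  set a₀ : ℝ := a m * a m' / (nm (NK K) m * nm (NK K) m') with ha₀
  set M : ℝ := (1 + |η| / |L| * (1 + |lK m|)) with hM
  set M' : ℝ := (1 + |η| / |L| * (1 + |lK m'|)) with hM'
  have hM0 : 0 ≤ M := by positivity
  have hM0' : 0 ≤ M' := by positivity
  refine Integrable.mono' ((mg2_Iic hb U).const_mul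
    (|a₀| * M * M' * (C * Real.exp (A * (ℓ + c))))) ?_ (ae_of_all _ fun u => ?_)
  · refine Measurable.aestronglyMeasurable ?_
    have h1 : Measurable fun u : ℝ => WW (NK K) (kk κ T) Q (-u - ℓ - c) :=
      hm.comp (by fun_prop)
    fun_prop
  · have h1 := hW (-u - ℓ - c)
    have h2 := mg2_lin η L (lK m) u
    have h3 := mg2_lin η L (lK m') u
    rw [norm_mul, norm_mul, norm_mul, norm_mul, Real.norm_of_nonneg (Real.exp_pos _).le,
      Real.norm_eq_abs, Real.norm_eq_abs, Real.norm_eq_abs, Real.norm_eq_abs]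
    calc Real.exp ((2 * σ - 2) * u) * (|a₀| * |1 + η * (u + lK m) / L| *
          |1 + η * (u + lK m') / L| * |WW (NK K) (kk κ T) Q (-u - ℓ - c)|)
        ≤ Real.exp ((2 * σ - 2) * u) * (|a₀| * (M * (1 + |u|)) *
          (M' * (1 + |u|)) * (C * Real.exp (-(A * (-u - ℓ - c))))) := by
          gcongr
      _ = (|a₀| * M * M' * C) * ((1 + |u|) ^ 2 *
          (Real.exp ((2 * σ - 2) * u) * Real.exp (-(A * (-u - ℓ - c))))) := by ring
      _ = (|a₀| * M * M' * C) * ((1 + |u|) ^ 2 *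
          (Real.exp (A * (ℓ + c)) * Real.exp ((2 * σ - 2 + A) * u))) := by
          rw [← Real.exp_add, ← Real.exp_add]
          congr 3
          ring
      _ = _ := by ring

end Pool.Agent.LVK

namespace Pool.Agent.LVK

theorem DIR_int : type_of% @DIR_int_pr := @DIR_int_pr
theorem DUAL_int : type_of% @DUAL_int_pr := @DUAL_int_pr

end Pool.Agent.LVK
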