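import Pool.Agent.Lib_helper42.LVK.Defs
import Pool.Agent.Lib_helper41.HZF.YB
import Pool.Agent.Lib_helper41.HZF.KG
import Pool.Agent.Lib_helper92.KSA.BRG
import Pool.Agent.Lib_helper92.KSA.LATU
import Pool.Agent.Lib_helper92.KSA.LNZ
import Pool.Agent.Lib_helper39.LVX.K_ME4
import Pool.Agent.Lib_helper39.LVX.K_MF1
import Pool.Agent.Lib_helper39.LVX.K_MF3
import Pool.Agent.Lib_helper39.LVX.K_MF4

/-!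
# LVK part M, block MG3A: the direct part, pointwise
-/

namespace Pool.Agent.LVK

open NumberField NumberField.InfinitePlace NumberField.Units Complex MeasureTheory Filter Topology
open Pool.Agent.HZ Pool.Agent.AS Pool.Agent.KS

variable {K : Type} [Field K] [NumberField K]

theorem mg3a_hd {𝔮 : Ideal (𝓞 K)} (h𝔮 : 𝔮 ≠ ⊥) (h𝔮' : 𝔮 ≠ ⊤) {κ : InfinitePlace K → ℤ}
    (hκ : ∀ w : InfinitePlace K, w.IsReal → κ w = 0 ∨ κ w = 1) {t : HDat 𝔮}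
    (ht : t ∈ FamK 𝔮 κ) : HD 𝔮 κ t.lam t.χ t.ψ := by
  obtain ⟨h1, h2, h3, h4⟩ := ht
  rw [h1] at h3
  exact ⟨hκ, h4, h𝔮, h𝔮', h2, h3⟩

/-- the absolute coefficients -/
noncomputable def mg3aA (a : (PK K →₀ ℕ) → ℝ) (η L u : ℝ) (m : PK K →₀ ℕ) : ℝ :=
  |a m| * (1 + |η| * |u + lK m| / |L|)

theorem mg3aA_nonneg (a : (PK K →₀ ℕ) → ℝ) (η L u : ℝ) (m : PK K →₀ ℕ) :
    0 ≤ mg3aA a η L u m := by
  unfold mg3aA; positivity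

theorem mg3a_coef (a : (PK K →₀ ℕ) → ℝ) (η L u : ℝ) (m : PK K →₀ ℕ) :
    ‖((a m * (1 + η * (u + lK m) / L) : ℝ) : ℂ)‖ ≤ mg3aA a η L u m := by
  rw [Complex.norm_real, Real.norm_eq_abs, abs_mul]
  unfold mg3aA
  refine mul_le_mul_of_nonneg_left ?_ (abs_nonneg _)
  calc |1 + η * (u + lK m) / L| ≤ |1| + |η * (u + lK m) / L| := abs_add_le _ _
    _ = 1 + |η| * |u + lK m| / |L| := by rw [abs_one, abs_div, abs_mul]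

open scoped Classical in
theorem mg3a_bcf_le {𝔮 : Ideal (𝓞 K)} (h𝔮 : 𝔮 ≠ ⊥) (S : Finset (PK K →₀ ℕ))
    (a : (PK K →₀ ℕ) → ℝ) (η L u : ℝ) (𝔠 : Ideal (𝓞 K)) :
    ‖bcf 𝔮 S a η L u 𝔠‖ ≤ ∑ m ∈ S, (if IK m ∣ 𝔠 then mg3aA a η L u m else 0) := by
  unfold bcf
  refine ((bn_le h𝔮 S IK (fun m => ((a m * (1 + η * (u + lK m) / L) : ℝ) : ℂ)) 𝔠).1).trans ?_
  refine Finset.sum_le_sum fun m _ => ?_
  by_cases h : IK m ∣ 𝔠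
  · rw [if_pos h, if_pos h]; exact mg3a_coef a η L u m
  · rw [if_neg h, if_neg h]

theorem mg3a_bcf_zero {𝔮 : Ideal (𝓞 K)} (h𝔮 : 𝔮 ≠ ⊥) (S : Finset (PK K →₀ ℕ))
    (a : (PK K →₀ ℕ) → ℝ) (η L u : ℝ) (𝔠 : Ideal (𝓞 K)) (h : 𝔠 = ⊥ ∨ ¬ IsCoprime 𝔠 𝔮) :
    bcf 𝔮 S a η L u 𝔠 = 0 := by
  unfold bcf
  exact (bn_le h𝔮 S IK (fun m => ((a m * (1 + η * (u + lK m) / L) : ℝ) : ℂ)) 𝔠).2 h

/-- the key inequality for the coefficients `b`, written in the semigroup -/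
theorem mg3a_key (κ : InfinitePlace K → ℤ) (T : TD K) {A : ℝ} (hA : 1 ≤ A) :
    ∃ C : ℝ, 0 ≤ C ∧ ∀ (𝔮 : Ideal (𝓞 K)) (_ : 𝔮 ≠ ⊥) (_ : 𝔮 ≠ ⊤) (E : Finset (HDat 𝔮))
      (_ : ∀ t ∈ E, t ∈ FamK 𝔮 κ) (S : Finset (PK K →₀ ℕ)) (a : (PK K →₀ ℕ) → ℝ)
      (_ : ∀ m ∈ S, IsCoprime (IK m) 𝔮) (η L u : ℝ) (b : Ideal (𝓞 K) → ℂ)
      (_ : ∀ 𝔠, ‖b 𝔠‖ ≤ ‖bcf 𝔮 S a η L u 𝔠‖),
      ∑ t ∈ E, ‖∑' 𝔠 : Ideal (𝓞 K), b 𝔠 * t.ψ 𝔠 *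
          kint K (FT κ t.lam T) (u + Real.log (Ideal.absNorm 𝔠))‖ ^ 2 ≤
        hT K * nprim 𝔮 * ∑' 𝔠 : Ideal (𝓞 K), ‖b 𝔠‖ ^ 2 *
          kk κ T (u + Real.log (Ideal.absNorm 𝔠)) +
        C * (2 ^ (QK 𝔮).card * ∑ m ∈ S, ∑ m' ∈ S,
          mg3aA a η L u m * mg3aA a η L u m' *
          (Real.exp (-(A * (u + lK (m ⊓ m')))) * (1 + Real.exp (-(u + lK (m ⊔ m')))))) := by
  classical
  obtain ⟨C, hC, h⟩ := key_ineq κ T hA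
  refine ⟨C, hC, fun 𝔮 h𝔮 h𝔮' E hE S a hS η L u b hb => ?_⟩
  refine (h 𝔮 h𝔮 h𝔮' (PK K →₀ ℕ) S IK (mg3aA a η L u)
    (fun i hi => ⟨mg3aA_nonneg a η L u i, IK_ne_bot i, hS i hi⟩) b ?_ ?_ E hE u).trans ?_
  · intro 𝔠 h𝔠
    have h1 := hb 𝔠
    rw [mg3a_bcf_zero h𝔮 S a η L u 𝔠 h𝔠, norm_zero] at h1
    exact norm_le_zero_iff.1 h1
  · intro 𝔠
    exact (hb 𝔠).trans (mg3a_bcf_le h𝔮 S a η L u 𝔠)
  · refine add_le_add le_rfl (mul_le_mul_of_nonneg_left (mul_le_mul_of_nonneg_left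
      (le_of_eq ?_) (by positivity)) hC)
    refine Finset.sum_congr rfl fun m _ => Finset.sum_congr rfl fun m' _ => ?_
    rw [absNorm_IK_sup, absNorm_IK_inf, ← Real.exp_sub, ← Real.exp_sub, ← Real.exp_mul]
    congr 3
    · ring
    · congr 1; ring

open scoped Classical in
theorem direct_pt_pr (κ : InfinitePlace K → ℤ)
    (hκ : ∀ w : InfinitePlace K, w.IsReal → κ w = 0 ∨ κ w = 1) (T : TD K) {A : ℝ} (hA : 1 ≤ A) :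
    ∃ C : ℝ, 0 ≤ C ∧ ∀ (𝔮 : Ideal (𝓞 K)) (_ : 𝔮 ≠ ⊥) (_ : 𝔮 ≠ ⊤) (E : Finset (HDat 𝔮))
      (_ : ∀ t ∈ E, t ∈ FamK 𝔮 κ) (S : Finset (PK K →₀ ℕ)) (a : (PK K →₀ ℕ) → ℝ)
      (_ : ∀ m ∈ S, IsCoprime (IK m) 𝔮) (η L u : ℝ),
      ∑ t ∈ E, ‖EM κ t.lam T t.ψ S a η L u‖ ^ 2 ≤
        hT K * nprim 𝔮 * (Real.exp u * ∑' g : PK K →₀ ℕ, (if Cop (QK 𝔮) g then
          bS S a η L u g ^ 2 * kk κ T (u + lK g) else 0)) +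
        C * (2 ^ (QK 𝔮).card * (Real.exp u * ∑ m ∈ S, ∑ m' ∈ S,
          (|a m| * (1 + |η| * |u + lK m| / |L|)) * (|a m'| * (1 + |η| * |u + lK m'| / |L|)) *
          (Real.exp (-(A * (u + lK (m ⊓ m')))) * (1 + Real.exp (-(u + lK (m ⊔ m'))))))) := by
  obtain ⟨C, hC, h⟩ := mg3a_key κ T hA
  refine ⟨C, hC, fun 𝔮 h𝔮 h𝔮' E hE S a hS η L u => ?_⟩
  have h1 := h 𝔮 h𝔮 h𝔮' E hE S a hS η L u (bcf 𝔮 S a η L u) (fun _ => le_rfl)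
  rw [direct_diag h𝔮] at h1
  have h2 : ∀ t ∈ E, ‖EM κ t.lam T t.ψ S a η L u‖ ^ 2 = Real.exp u *
      ‖∑' 𝔠 : Ideal (𝓞 K), bcf 𝔮 S a η L u 𝔠 * t.ψ 𝔠 *
          kint K (FT κ t.lam T) (u + Real.log (Ideal.absNorm 𝔠))‖ ^ 2 := by
    intro t ht
    rw [EM_direct (mg3a_hd h𝔮 h𝔮' hκ (hE t ht)) T S a η L u, norm_mul, mul_pow,
      Complex.norm_real, Real.norm_eq_abs, abs_of_pos (Real.exp_pos _), ← Real.exp_nat_mul]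
    congr 2
    push_cast
    ring
  rw [Finset.sum_congr rfl h2, ← Finset.mul_sum]
  refine (mul_le_mul_of_nonneg_left h1 (Real.exp_pos u).le).trans (le_of_eq ?_)
  unfold mg3aA
  ring

end Pool.Agent.LVK

namespace Pool.Agent.LVK

theorem direct_pt : type_of% @direct_pt_pr := @direct_pt_pr

end Pool.Agent.LVK
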