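import Pool.Agent.Lib_helper42.LVK.Defs
import Pool.Agent.Lib_helper41.HZF.YB
import Pool.Agent.Lib_helper41.HZF.KG
import Pool.Agent.Lib_helper92.KSA.BRG
import Pool.Agent.Lib_helper92.KSA.LATU
import Pool.Agent.Lib_helper92.KSA.LNZ
import Pool.Agent.Lib_helper39.LVX.K_MA3B
import Pool.Agent.Lib_helper39.LVX.K_MG2
import Pool.Agent.Lib_helper39.LVX.K_MG3A

/-!
# LVK part M, block MG3B: the direct part, integrated
-/

namespace Pool.Agent.LVK

open NumberField NumberField.InfinitePlace NumberField.Units Complex MeasureTheory Filter Topology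
open Pool.Agent.HZ Pool.Agent.AS Pool.Agent.KS

variable {K : Type} [Field K] [NumberField K]

theorem mg3b_nm_pos (m : PK K →₀ ℕ) : (0 : ℝ) < nm (NK K) m := by
  exact_mod_cast nm_pos two_le_NK m

theorem mg3b_lK_nonneg (m : PK K →₀ ℕ) : 0 ≤ lK m := by
  have h : 0 < nm (NK K) m := nm_pos two_le_NK m
  exact Real.log_nonneg (by exact_mod_cast h)

theorem mg3b_lK_is (m m' : PK K →₀ ℕ) : lK (m ⊓ m') + lK (m ⊔ m') = lK m + lK m' := by
  have h := nm_inf_sup (NK K) m m'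
  have h' : (nm (NK K) (m ⊓ m') : ℝ) * nm (NK K) (m ⊔ m') = nm (NK K) m * nm (NK K) m' := by
    exact_mod_cast h
  unfold lK
  rw [← Real.log_mul (mg3b_nm_pos _).ne' (mg3b_nm_pos _).ne', h',
    Real.log_mul (mg3b_nm_pos _).ne' (mg3b_nm_pos _).ne']

theorem mg3b_exp (m : PK K →₀ ℕ) : Real.exp (-lK m) = (nm (NK K) m : ℝ)⁻¹ := by
  unfold lK
  rw [Real.exp_neg, Real.exp_log (mg3b_nm_pos m)]

/-- the error term -/
noncomputable def mg3bE (S : Finset (PK K →₀ ℕ)) (a : (PK K →₀ ℕ) → ℝ) (η L A u : ℝ) : ℝ :=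
  Real.exp u * ∑ m ∈ S, ∑ m' ∈ S,
    (|a m| * (1 + |η| * |u + lK m| / |L|)) * (|a m'| * (1 + |η| * |u + lK m'| / |L|)) *
    (Real.exp (-(A * (u + lK (m ⊓ m')))) * (1 + Real.exp (-(u + lK (m ⊔ m')))))

theorem mg3b_neg {S : Finset (PK K →₀ ℕ)} (a : (PK K →₀ ℕ) → ℝ) (η : ℝ) {L u : ℝ} (hL : 1 ≤ L)
    (hu : -L ≤ u) (hu0 : u ≤ 0) (hS : ∀ m ∈ S, lK m ≤ L) :
    mg3bE S a η L 1 u ≤ (1 + |η|) ^ 2 * ((∑ m ∈ S, |a m|) ^ 2 +
      Real.exp (-u) * (∑ m ∈ S, |a m| / nm (NK K) m) ^ 2) := by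
  have hL0 : 0 < L := lt_of_lt_of_le one_pos hL
  have h1 : ∀ m ∈ S, |a m| * (1 + |η| * |u + lK m| / |L|) ≤ (1 + |η|) * |a m| := by
    intro m hm
    have h2 : |u + lK m| ≤ L := by
      rw [abs_le]
      have := mg3b_lK_nonneg m
      constructor <;> linarith [hS m hm]
    have h3 : |η| * |u + lK m| / |L| ≤ |η| := by
      rw [abs_of_pos hL0, div_le_iff₀ hL0]
      exact mul_le_mul_of_nonneg_left h2 (abs_nonneg _)
    calc |a m| * (1 + |η| * |u + lK m| / |L|) ≤ |a m| * (1 + |η|) :=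
          mul_le_mul_of_nonneg_left (by linarith) (abs_nonneg _)
      _ = (1 + |η|) * |a m| := mul_comm _ _
  have h4 : ∀ m m' : PK K →₀ ℕ, Real.exp u * (Real.exp (-(1 * (u + lK (m ⊓ m')))) *
      (1 + Real.exp (-(u + lK (m ⊔ m'))))) ≤
        1 + Real.exp (-u) * ((nm (NK K) m : ℝ)⁻¹ * (nm (NK K) m' : ℝ)⁻¹) := by
    intro m m'
    have e1 : Real.exp u * (Real.exp (-(1 * (u + lK (m ⊓ m')))) *
        (1 + Real.exp (-(u + lK (m ⊔ m'))))) =
        Real.exp (-lK (m ⊓ m')) + Real.exp (-u) * (Real.exp (-lK m) * Real.exp (-lK m')) := by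
      rw [mul_add, mul_one, mul_add, ← Real.exp_add, ← Real.exp_add, ← Real.exp_add,
        ← Real.exp_add, ← Real.exp_add]
      congr 2
      · ring
      · have := mg3b_lK_is m m'
        linarith
    rw [e1, mg3b_exp m, mg3b_exp m']
    have h5 : Real.exp (-lK (m ⊓ m')) ≤ 1 := by
      rw [Real.exp_le_one_iff]
      linarith [mg3b_lK_nonneg (m ⊓ m')]
    linarith
  unfold mg3bE
  rw [Finset.mul_sum]
  have h6 : ∀ m ∈ S, Real.exp u * ∑ m' ∈ S,
      (|a m| * (1 + |η| * |u + lK m| / |L|)) * (|a m'| * (1 + |η| * |u + lK m'| / |L|)) *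
      (Real.exp (-(1 * (u + lK (m ⊓ m')))) * (1 + Real.exp (-(u + lK (m ⊔ m'))))) ≤
      ∑ m' ∈ S, ((1 + |η|) ^ 2 * (|a m| * |a m'|) + (1 + |η|) ^ 2 * Real.exp (-u) *
        ((|a m| / nm (NK K) m) * (|a m'| / nm (NK K) m'))) := by
    intro m hm
    rw [Finset.mul_sum]
    refine Finset.sum_le_sum fun m' hm' => ?_
    have h7 : (|a m| * (1 + |η| * |u + lK m| / |L|)) * (|a m'| * (1 + |η| * |u + lK m'| / |L|)) ≤
        ((1 + |η|) * |a m|) * ((1 + |η|) * |a m'|) :=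
      mul_le_mul (h1 m hm) (h1 m' hm') (by positivity) (by positivity)
    calc Real.exp u * ((|a m| * (1 + |η| * |u + lK m| / |L|)) *
          (|a m'| * (1 + |η| * |u + lK m'| / |L|)) *
          (Real.exp (-(1 * (u + lK (m ⊓ m')))) * (1 + Real.exp (-(u + lK (m ⊔ m'))))))
        = ((|a m| * (1 + |η| * |u + lK m| / |L|)) * (|a m'| * (1 + |η| * |u + lK m'| / |L|))) *
          (Real.exp u * (Real.exp (-(1 * (u + lK (m ⊓ m')))) *
            (1 + Real.exp (-(u + lK (m ⊔ m')))))) := by ring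
      _ ≤ (((1 + |η|) * |a m|) * ((1 + |η|) * |a m'|)) *
          (1 + Real.exp (-u) * ((nm (NK K) m : ℝ)⁻¹ * (nm (NK K) m' : ℝ)⁻¹)) :=
          mul_le_mul h7 (h4 m m') (by positivity) (by positivity)
      _ = _ := by
          rw [div_eq_mul_inv, div_eq_mul_inv]
          ring
  refine (Finset.sum_le_sum h6).trans (le_of_eq ?_)
  simp only [Finset.sum_add_distrib, ← Finset.mul_sum]
  simp only [← Finset.sum_mul]
  ring

theorem mg3b_pos {S : Finset (PK K →₀ ℕ)} (a : (PK K →₀ ℕ) → ℝ) (η : ℝ) {L u : ℝ} (hL : 1 ≤ L)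
    (hu0 : 0 < u) (hS : ∀ m ∈ S, lK m ≤ L) :
    mg3bE S a η L 3 u ≤ 8 * (1 + |η|) ^ 2 * (∑ m ∈ S, |a m|) ^ 2 * Real.exp (-u) := by
  have hL0 : 0 < L := lt_of_lt_of_le one_pos hL
  have h1 : ∀ m ∈ S, |a m| * (1 + |η| * |u + lK m| / |L|) ≤ (1 + |η|) * (1 + u) * |a m| := by
    intro m hm
    have h0 := mg3b_lK_nonneg m
    have h2 : |u + lK m| / |L| ≤ 1 + u := by
      rw [abs_of_pos hL0, abs_of_nonneg (by linarith), div_le_iff₀ hL0]
      nlinarith [hS m hm]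
    have h3 : |η| * |u + lK m| / |L| ≤ |η| * (1 + u) := by
      rw [mul_div_assoc]
      exact mul_le_mul_of_nonneg_left h2 (abs_nonneg _)
    have h4 : 1 + |η| * |u + lK m| / |L| ≤ (1 + |η|) * (1 + u) := by
      nlinarith [abs_nonneg η]
    calc |a m| * (1 + |η| * |u + lK m| / |L|) ≤ |a m| * ((1 + |η|) * (1 + u)) :=
          mul_le_mul_of_nonneg_left h4 (abs_nonneg _)
      _ = (1 + |η|) * (1 + u) * |a m| := mul_comm _ _
  have h4 : ∀ m m' : PK K →₀ ℕ, Real.exp u * (Real.exp (-(3 * (u + lK (m ⊓ m')))) *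
      (1 + Real.exp (-(u + lK (m ⊔ m'))))) ≤ 2 * Real.exp (-(2 * u)) := by
    intro m m'
    have h5 : Real.exp (-(3 * (u + lK (m ⊓ m')))) ≤ Real.exp (-(3 * u)) := by
      apply Real.exp_le_exp.2
      linarith [mg3b_lK_nonneg (m ⊓ m')]
    have h6 : Real.exp (-(u + lK (m ⊔ m'))) ≤ 1 := by
      rw [Real.exp_le_one_iff]
      linarith [mg3b_lK_nonneg (m ⊔ m')]
    calc Real.exp u * (Real.exp (-(3 * (u + lK (m ⊓ m')))) * (1 + Real.exp (-(u + lK (m ⊔ m')))))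
        ≤ Real.exp u * (Real.exp (-(3 * u)) * (1 + 1)) := by
          refine mul_le_mul_of_nonneg_left ?_ (Real.exp_pos _).le
          exact mul_le_mul h5 (by linarith) (by positivity) (by positivity)
      _ = 2 * (Real.exp u * Real.exp (-(3 * u))) := by ring
      _ = 2 * Real.exp (-(2 * u)) := by
          rw [← Real.exp_add]
          congr 2
          ring
  have h8 : (1 + u) ^ 2 * Real.exp (-(2 * u)) ≤ 4 * Real.exp (-u) := by
    have h9 : 1 + u ≤ 2 * Real.exp (u / 2) := by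
      have := Real.add_one_le_exp (u / 2)
      linarith
    have h10 : (1 + u) ^ 2 ≤ (2 * Real.exp (u / 2)) ^ 2 := pow_le_pow_left₀ (by linarith) h9 2
    have h11 : (2 * Real.exp (u / 2)) ^ 2 = 4 * Real.exp u := by
      rw [mul_pow, ← Real.exp_nat_mul]
      congr 1
      · norm_num
      · congr 1
        push_cast
        ring
    calc (1 + u) ^ 2 * Real.exp (-(2 * u)) ≤ 4 * Real.exp u * Real.exp (-(2 * u)) :=
          mul_le_mul_of_nonneg_right (by rw [← h11]; exact h10) (Real.exp_pos _).le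
      _ = 4 * Real.exp (-u) := by
          rw [mul_assoc, ← Real.exp_add]
          congr 2
          ring
  unfold mg3bE
  rw [Finset.mul_sum]
  have h6 : ∀ m ∈ S, Real.exp u * ∑ m' ∈ S,
      (|a m| * (1 + |η| * |u + lK m| / |L|)) * (|a m'| * (1 + |η| * |u + lK m'| / |L|)) *
      (Real.exp (-(3 * (u + lK (m ⊓ m')))) * (1 + Real.exp (-(u + lK (m ⊔ m'))))) ≤
      ∑ m' ∈ S, (8 * (1 + |η|) ^ 2 * Real.exp (-u)) * (|a m| * |a m'|) := by
    intro m hm
    rw [Finset.mul_sum]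
    refine Finset.sum_le_sum fun m' hm' => ?_
    have h7 : (|a m| * (1 + |η| * |u + lK m| / |L|)) * (|a m'| * (1 + |η| * |u + lK m'| / |L|)) ≤
        ((1 + |η|) * (1 + u) * |a m|) * ((1 + |η|) * (1 + u) * |a m'|) :=
      mul_le_mul (h1 m hm) (h1 m' hm') (by positivity) (by positivity)
    calc Real.exp u * ((|a m| * (1 + |η| * |u + lK m| / |L|)) *
          (|a m'| * (1 + |η| * |u + lK m'| / |L|)) *
          (Real.exp (-(3 * (u + lK (m ⊓ m')))) * (1 + Real.exp (-(u + lK (m ⊔ m'))))))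
        = ((|a m| * (1 + |η| * |u + lK m| / |L|)) * (|a m'| * (1 + |η| * |u + lK m'| / |L|))) *
          (Real.exp u * (Real.exp (-(3 * (u + lK (m ⊓ m')))) *
            (1 + Real.exp (-(u + lK (m ⊔ m')))))) := by ring
      _ ≤ (((1 + |η|) * (1 + u) * |a m|) * ((1 + |η|) * (1 + u) * |a m'|)) *
          (2 * Real.exp (-(2 * u))) :=
          mul_le_mul h7 (h4 m m') (by positivity) (by positivity)
      _ = 2 * (1 + |η|) ^ 2 * (|a m| * |a m'|) * ((1 + u) ^ 2 * Real.exp (-(2 * u))) := by ring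
      _ ≤ 2 * (1 + |η|) ^ 2 * (|a m| * |a m'|) * (4 * Real.exp (-u)) :=
          mul_le_mul_of_nonneg_left h8 (by positivity)
      _ = _ := by ring
  refine (Finset.sum_le_sum h6).trans (le_of_eq ?_)
  simp only [← Finset.mul_sum]
  simp only [← Finset.sum_mul]
  ring

theorem mg3b_int (U A B : ℝ) (hU : 0 ≤ U) :
    IntegrableOn (fun u => A + Real.exp (-u) * B) (Set.Ioc (-U) 0) ∧
    ∫ u in Set.Ioc (-U) 0, (A + Real.exp (-u) * B) = U * A + (Real.exp U - 1) * B := by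
  have hc : Continuous fun u : ℝ => A + Real.exp (-u) * B := by fun_prop
  refine ⟨hc.integrableOn_Ioc, ?_⟩
  rw [← intervalIntegral.integral_of_le (by linarith : -U ≤ 0),
    intervalIntegral.integral_add (by simp) ((by fun_prop : Continuous fun u : ℝ =>
      Real.exp (-u) * B).intervalIntegrable _ _), intervalIntegral.integral_const,
    intervalIntegral.integral_mul_const, intervalIntegral.integral_comp_neg (fun x => Real.exp x),
    integral_exp]
  simp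

open scoped Classical in
theorem direct_int_pr (κ : InfinitePlace K → ℤ)
    (hκ : ∀ w : InfinitePlace K, w.IsReal → κ w = 0 ∨ κ w = 1) (T : TD K) (η R : ℝ)
    (hR : 0 ≤ R) :
    ∃ C : ℝ, 0 ≤ C ∧ ∀ (𝔮 : Ideal (𝓞 K)) (_ : 𝔮 ≠ ⊥) (_ : 𝔮 ≠ ⊤) (E : Finset (HDat 𝔮))
      (_ : ∀ t ∈ E, t ∈ FamK 𝔮 κ) (S : Finset (PK K →₀ ℕ)) (a : (PK K →₀ ℕ) → ℝ)
      (_ : ∀ m ∈ S, IsCoprime (IK m) 𝔮) (L U : ℝ) (_ : 1 ≤ L) (_ : 0 ≤ U) (_ : U ≤ L)
      (_ : ∀ m ∈ S, lK m ≤ L),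
      ∑ t ∈ E, ∫ u in Set.Ioi (-U), ‖EM κ t.lam T t.ψ S a η L u‖ ^ 2 *
          Real.exp (-(2 * R / L * u)) ≤
        hT K * nprim 𝔮 * DIR (kk κ T) (QK 𝔮) S a η L (1 / 2 - R / L) U +
        C * (2 ^ (QK 𝔮).card * (L * (∑ m ∈ S, |a m|) ^ 2 +
          Real.exp U * (∑ m ∈ S, |a m| / nm (NK K) m) ^ 2)) := by
  obtain ⟨C1, hC1, h1⟩ := direct_pt κ hκ T (A := 1) le_rfl
  obtain ⟨C3, hC3, h3⟩ := direct_pt κ hκ T (A := 3) (by norm_num)
  refine ⟨C1 * Real.exp (2 * R) * (1 + |η|) ^ 2 + C3 * (8 * (1 + |η|) ^ 2), by positivity, ?_⟩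
  intro 𝔮 h𝔮 h𝔮' E hE S a hS L U hL hU hUL hlK
  have hL0 : 0 < L := lt_of_lt_of_le one_pos hL
  have hRL : R / L ≤ R := div_le_self hR hL
  have hRL0 : 0 ≤ R / L := by positivity
  set f : HDat 𝔮 → ℝ → ℝ := fun t u => ‖EM κ t.lam T t.ψ S a η L u‖ ^ 2 *
    Real.exp (-(2 * R / L * u)) with hf
  set Mn : ℝ → ℝ := fun u => Real.exp (2 * (1 / 2 - R / L) * u) *
      ∑' g : PK K →₀ ℕ, if Cop (QK 𝔮) g then bS S a η L u g ^ 2 * kk κ T (u + lK g) else 0
    with hMn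
  have hMi : IntegrableOn Mn (Set.Ioi (-U)) := DIR_int κ T (QK 𝔮) S a η L (1 / 2 - R / L) U
  have hfi : ∀ t ∈ E, IntegrableOn (f t) (Set.Ioi (-U)) := by
    intro t ht
    obtain ⟨e1, e2, e3, e4⟩ := hE t ht
    have hHD : HD 𝔮 κ t.lam t.χ t.ψ :=
      { hκ := hκ, hlam := e4, bot := h𝔮, top := h𝔮', prim := e2, hecke := e1 ▸ e3 }
    obtain ⟨C, hC⟩ := EM_decay hHD T S a η L (R + 1)
    have hc : Continuous (f t) := by
      have := EM_continuous hHD T S a η L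
      simp only [hf]
      fun_prop
    have hg : IntegrableOn (fun u : ℝ => C ^ 2 * Real.exp (-2 * u)) (Set.Ioi (-U)) :=
      (exp_neg_integrableOn_Ioi (-U) (by norm_num : (0 : ℝ) < 2)).const_mul _
    refine hg.mono' hc.aestronglyMeasurable (Eventually.of_forall fun u => ?_)
    have h5 := pow_le_pow_left₀ (norm_nonneg _) (hC u) 2
    rw [Real.norm_of_nonneg (by simp only [hf]; positivity)]
    simp only [hf]
    calc ‖EM κ t.lam T t.ψ S a η L u‖ ^ 2 * Real.exp (-(2 * R / L * u))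
        ≤ (C * Real.exp (-((R + 1) * |u|))) ^ 2 * Real.exp (-(2 * R / L * u)) :=
          mul_le_mul_of_nonneg_right h5 (Real.exp_pos _).le
      _ = C ^ 2 * Real.exp (-2 * ((R + 1) * |u|) - 2 * (R / L) * u) := by
          rw [mul_pow, ← Real.exp_nat_mul, mul_assoc, ← Real.exp_add]
          congr 2
          push_cast
          ring
      _ ≤ C ^ 2 * Real.exp (-2 * u) := by
          refine mul_le_mul_of_nonneg_left (Real.exp_le_exp.2 ?_) (sq_nonneg C)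
          have h6 : -(R / L * u) ≤ R * |u| := by
            have h7 : -(R / L * u) ≤ R / L * |u| := by
              have := neg_abs_le u
              nlinarith
            exact h7.trans (mul_le_mul_of_nonneg_right hRL (abs_nonneg u))
          have h8 := le_abs_self u
          nlinarith
  have hFi : IntegrableOn (fun u => ∑ t ∈ E, f t u) (Set.Ioi (-U)) :=
    integrable_finsetSum _ hfi
  have hFeq : ∑ t ∈ E, ∫ u in Set.Ioi (-U), f t u = ∫ u in Set.Ioi (-U), ∑ t ∈ E, f t u :=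
    (integral_finsetSum _ hfi).symm
  -- pointwise
  have hpt : ∀ (A C : ℝ) (u : ℝ), (∑ t ∈ E, ‖EM κ t.lam T t.ψ S a η L u‖ ^ 2 ≤
        hT K * nprim 𝔮 * (Real.exp u * ∑' g : PK K →₀ ℕ, (if Cop (QK 𝔮) g then
          bS S a η L u g ^ 2 * kk κ T (u + lK g) else 0)) +
        C * (2 ^ (QK 𝔮).card * mg3bE S a η L A u)) →
      ∑ t ∈ E, f t u ≤ hT K * nprim 𝔮 * Mn u +
        C * (2 ^ (QK 𝔮).card * (mg3bE S a η L A u * Real.exp (-(2 * R / L * u)))) := by
    intro A C u h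
    have h5 := mul_le_mul_of_nonneg_right h (Real.exp_pos (-(2 * R / L * u))).le
    simp only [hf, ← Finset.sum_mul]
    refine h5.trans (le_of_eq ?_)
    have h6 : Real.exp (2 * (1 / 2 - R / L) * u) =
        Real.exp u * Real.exp (-(2 * R / L * u)) := by
      rw [← Real.exp_add]
      congr 1
      ring
    simp only [hMn, h6]
    ring
  set Sa : ℝ := ∑ m ∈ S, |a m| with hSa
  set Sb : ℝ := ∑ m ∈ S, |a m| / nm (NK K) m with hSb
  set q : ℝ := 2 ^ (QK 𝔮).card with hq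
  have hq0 : 0 ≤ q := by positivity
  set K1 : ℝ := C1 * q * (Real.exp (2 * R) * (1 + |η|) ^ 2) with hK1
  have hK10 : 0 ≤ K1 := by positivity
  set K3 : ℝ := C3 * q * (8 * (1 + |η|) ^ 2 * Sa ^ 2) with hK3
  have hE0 : ∀ A u, 0 ≤ mg3bE S a η L A u := fun A u => by
    unfold mg3bE
    positivity
  have hp1 : ∀ u ∈ Set.Ioc (-U) 0, ∑ t ∈ E, f t u ≤
      hT K * nprim 𝔮 * Mn u + (K1 * Sa ^ 2 + Real.exp (-u) * (K1 * Sb ^ 2)) := by
    intro u hu
    have h5 := hpt 1 C1 u (h1 𝔮 h𝔮 h𝔮' E hE S a hS η L u)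
    refine h5.trans (add_le_add le_rfl ?_)
    have h6 := mg3b_neg a η hL (by linarith [hu.1] : -L ≤ u) hu.2 hlK
    have h7 : Real.exp (-(2 * R / L * u)) ≤ Real.exp (2 * R) := by
      apply Real.exp_le_exp.2
      have h8 : R / L * (-u) ≤ R := by
        have h9 : -u ≤ L := by linarith [hu.1]
        have h10 : R / L * (-u) ≤ R / L * L := mul_le_mul_of_nonneg_left h9 hRL0
        rwa [div_mul_cancel₀ R hL0.ne'] at h10
      have h11 : -(2 * R / L * u) = 2 * (R / L * (-u)) := by ring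
      rw [h11]
      linarith
    have h8 := mul_le_mul h6 h7 (Real.exp_pos _).le ((hE0 1 u).trans h6)
    have h9 := mul_le_mul_of_nonneg_left (mul_le_mul_of_nonneg_left h8 hq0) hC1
    refine h9.trans (le_of_eq ?_)
    simp only [hK1]
    ring
  have hp3 : ∀ u ∈ Set.Ioi (0 : ℝ), ∑ t ∈ E, f t u ≤
      hT K * nprim 𝔮 * Mn u + K3 * Real.exp (-u) := by
    intro u hu
    have h5 := hpt 3 C3 u (h3 𝔮 h𝔮 h𝔮' E hE S a hS η L u)
    refine h5.trans (add_le_add le_rfl ?_)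
    have h6 := mg3b_pos a η hL hu hlK
    have hu' : 0 < u := hu
    have h7 : Real.exp (-(2 * R / L * u)) ≤ 1 := by
      rw [Real.exp_le_one_iff]
      have : 0 ≤ 2 * R / L * u := by positivity
      linarith
    have h8 := mul_le_mul h6 h7 (Real.exp_pos _).le ((hE0 3 u).trans h6)
    have h9 := mul_le_mul_of_nonneg_left (mul_le_mul_of_nonneg_left h8 hq0) hC3
    refine h9.trans (le_of_eq ?_)
    simp only [hK3]
    ring
  -- integration
  have hset : Set.Ioc (-U) 0 ∪ Set.Ioi 0 = Set.Ioi (-U) := Set.Ioc_union_Ioi_eq_Ioi (by linarith)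
  have hsub1 : Set.Ioc (-U) 0 ⊆ Set.Ioi (-U) := Set.Ioc_subset_Ioi_self
  have hsub2 : Set.Ioi (0 : ℝ) ⊆ Set.Ioi (-U) := Set.Ioi_subset_Ioi (by linarith)
  have hdis : Disjoint (Set.Ioc (-U) 0) (Set.Ioi (0 : ℝ)) := by
    rw [Set.disjoint_left]
    intro x hx hx'
    exact absurd hx.2 (not_le.2 hx')
  have hsplit : ∀ g : ℝ → ℝ, IntegrableOn g (Set.Ioi (-U)) → ∫ u in Set.Ioi (-U), g u =
      (∫ u in Set.Ioc (-U) 0, g u) + ∫ u in Set.Ioi (0 : ℝ), g u := by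
    intro g hg
    rw [← hset, setIntegral_union hdis measurableSet_Ioi (hg.mono_set hsub1)
      (hg.mono_set hsub2)]
  obtain ⟨hi1, hi1'⟩ := mg3b_int U (K1 * Sa ^ 2) (K1 * Sb ^ 2) hU
  have hi3 : IntegrableOn (fun u : ℝ => K3 * Real.exp (-u)) (Set.Ioi 0) := by
    have h := (exp_neg_integrableOn_Ioi 0 (by norm_num : (0 : ℝ) < 1)).const_mul K3
    refine h.congr (Eventually.of_forall fun u => ?_)
    show K3 * Real.exp (-1 * u) = K3 * Real.exp (-u)
    rw [neg_one_mul]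
  have hi3' : ∫ u in Set.Ioi (0 : ℝ), K3 * Real.exp (-u) = K3 := by
    rw [integral_const_mul, integral_exp_neg_Ioi_zero, mul_one]
  have hMc : IntegrableOn (fun u => hT K * nprim 𝔮 * Mn u) (Set.Ioi (-U)) := hMi.const_mul _
  have hA := setIntegral_mono_on (hFi.mono_set hsub1) ((hMc.mono_set hsub1).add hi1)
    measurableSet_Ioc hp1
  have hB := setIntegral_mono_on (hFi.mono_set hsub2) ((hMc.mono_set hsub2).add hi3)
    measurableSet_Ioi hp3
  simp only [Pi.add_apply] at hA hB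
  rw [integral_add (hMc.mono_set hsub1) hi1, hi1'] at hA
  rw [integral_add (hMc.mono_set hsub2) hi3, hi3'] at hB
  rw [hFeq, hsplit _ hFi]
  have hMs := hsplit _ hMc
  have hDIR : DIR (kk κ T) (QK 𝔮) S a η L (1 / 2 - R / L) U = ∫ u in Set.Ioi (-U), Mn u := rfl
  rw [integral_const_mul] at hMs
  rw [hDIR, hMs]
  refine (add_le_add hA hB).trans ?_
  have hSa0 : 0 ≤ Sa ^ 2 := sq_nonneg _
  have hSb0 : 0 ≤ Sb ^ 2 := sq_nonneg _
  have hfin : U * (K1 * Sa ^ 2) + (Real.exp U - 1) * (K1 * Sb ^ 2) + K3 ≤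
      (C1 * Real.exp (2 * R) * (1 + |η|) ^ 2 + C3 * (8 * (1 + |η|) ^ 2)) *
        (q * (L * Sa ^ 2 + Real.exp U * Sb ^ 2)) := by
    have g1 : U * (K1 * Sa ^ 2) ≤ L * (K1 * Sa ^ 2) :=
      mul_le_mul_of_nonneg_right hUL (by positivity)
    have g2 : (Real.exp U - 1) * (K1 * Sb ^ 2) ≤ Real.exp U * (K1 * Sb ^ 2) :=
      mul_le_mul_of_nonneg_right (by linarith) (by positivity)
    have g3 : K3 ≤ C3 * q * (8 * (1 + |η|) ^ 2) * (L * Sa ^ 2 + Real.exp U * Sb ^ 2) := by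
      have g4 : Sa ^ 2 ≤ L * Sa ^ 2 + Real.exp U * Sb ^ 2 := by
        have : Sa ^ 2 ≤ L * Sa ^ 2 := le_mul_of_one_le_left hSa0 hL
        have : 0 ≤ Real.exp U * Sb ^ 2 := by positivity
        linarith
      have g5 := mul_le_mul_of_nonneg_left g4
        (by positivity : 0 ≤ C3 * q * (8 * (1 + |η|) ^ 2))
      refine (le_of_eq ?_).trans g5
      simp only [hK3]
      ring
    have g6 : L * (K1 * Sa ^ 2) + Real.exp U * (K1 * Sb ^ 2) +
        C3 * q * (8 * (1 + |η|) ^ 2) * (L * Sa ^ 2 + Real.exp U * Sb ^ 2) =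
        (C1 * Real.exp (2 * R) * (1 + |η|) ^ 2 + C3 * (8 * (1 + |η|) ^ 2)) *
        (q * (L * Sa ^ 2 + Real.exp U * Sb ^ 2)) := by
      simp only [hK1]
      ring
    linarith
  linarith


end Pool.Agent.LVK

namespace Pool.Agent.LVK

theorem direct_int : type_of% @direct_int_pr := @direct_int_pr

end Pool.Agent.LVK
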