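import Pool.Agent.Lib_helper42.LVK.Defs
import Pool.Agent.Lib_helper41.HZF.YB
import Pool.Agent.Lib_helper41.HZF.KG
import Pool.Agent.Lib_helper92.KSA.BRG
import Pool.Agent.Lib_helper92.KSA.LATU
import Pool.Agent.Lib_helper92.KSA.LNZ
import Pool.Agent.Lib_helper39.LVX.K_ME4
import Pool.Agent.Lib_helper39.LVX.K_MF2
import Pool.Agent.Lib_helper39.LVX.K_MF3
import Pool.Agent.Lib_helper39.LVX.K_MF4
import Pool.Agent.Lib_helper39.LVX.K_MG1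

/-! LVK block MG4A: the dual part, pointwise. -/

namespace Pool.Agent.LVK

open NumberField NumberField.InfinitePlace NumberField.Units Complex MeasureTheory Filter Topology
open Pool.Agent.HZ Pool.Agent.AS Pool.Agent.KS

variable {K : Type} [Field K] [NumberField K]

theorem mg4a_hd {𝔮 : Ideal (𝓞 K)} (h𝔮 : 𝔮 ≠ ⊥) (h𝔮' : 𝔮 ≠ ⊤) {κ : InfinitePlace K → ℤ}
    (hκ : ∀ w : InfinitePlace K, w.IsReal → κ w = 0 ∨ κ w = 1) {t : HDat 𝔮}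
    (ht : t ∈ FamK 𝔮 κ) : HD 𝔮 κ t.lam t.χ t.ψ := by
  obtain ⟨h1, h2, h3, h4⟩ := ht
  rw [h1] at h3
  exact ⟨hκ, h4, h𝔮, h𝔮', h2, h3⟩

open scoped Classical in
theorem dual_pt_pr (κ : InfinitePlace K → ℤ)
    (hκ : ∀ w : InfinitePlace K, w.IsReal → κ w = 0 ∨ κ w = 1) (T : TD K) {A : ℝ} (hA : 1 ≤ A) :
    ∃ C : ℝ, 0 ≤ C ∧ ∀ (𝔮 : Ideal (𝓞 K)) (_ : 𝔮 ≠ ⊥) (_ : 𝔮 ≠ ⊤) (E : Finset (HDat 𝔮))
      (_ : ∀ t ∈ E, t ∈ FamK 𝔮 κ) (S : Finset (PK K →₀ ℕ)) (a : (PK K →₀ ℕ) → ℝ)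
      (_ : ∀ m ∈ S, IsCoprime (IK m) 𝔮) (η L u v : ℝ) (_ : v = -u - Real.log (cond 𝔮)),
      ∑ t ∈ E, ‖EM κ t.lam T t.ψ S a η L u‖ ^ 2 ≤
        hT K * nprim 𝔮 * (Real.exp v * ∑ m ∈ S, ∑ m' ∈ S,
          a m * a m' / (nm (NK K) m * nm (NK K) m') *
          (1 + η * (u + lK m) / L) * (1 + η * (u + lK m') / L) *
          WW (NK K) (kk κ T.star) (QK 𝔮) (v - lK (m ⊓ m'))) +
        C * (2 ^ (QK 𝔮).card * (Real.exp v * ∑ m ∈ S, ∑ m' ∈ S,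
          (|a m| / nm (NK K) m * (1 + |η| * |u + lK m| / |L|)) *
          (|a m'| / nm (NK K) m' * (1 + |η| * |u + lK m'| / |L|)) *
          (Real.exp (-(A * (v - lK (m ⊔ m')))) * (1 + Real.exp (-(v - lK (m ⊓ m'))))))) := by
  obtain ⟨C, hC0, hC⟩ := key_ineq (K := K) κ T.star hA
  refine ⟨C, hC0, ?_⟩
  intro 𝔮 h𝔮 h𝔮' E hE S a hS η L u v hv
  obtain ⟨𝔏, h𝔏, h𝔏c⟩ := exists_lcm h𝔮 S hS
  set c : (PK K →₀ ℕ) → ℝ := fun m => a m * (1 + η * (u + lK m) / L) / nm (NK K) m with hc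
  set a' : (PK K →₀ ℕ) → ℝ := fun m =>
    |a m| / nm (NK K) m * (1 + |η| * |u + lK m| / |L|) with ha'
  set b : Ideal (𝓞 K) → ℂ :=
    bn 𝔮 S (fun m => IK (𝔏 - m)) (fun m => ((c m : ℝ) : ℂ)) with hb
  have hnmpos : ∀ m : PK K →₀ ℕ, 0 ≤ (nm (NK K) m : ℝ) := fun m => Nat.cast_nonneg _
  have hca : ∀ m, ‖((c m : ℝ) : ℂ)‖ ≤ a' m := by
    intro m
    rw [Complex.norm_real, hc, ha']
    show ‖a m * (1 + η * (u + lK m) / L) / nm (NK K) m‖ ≤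
      |a m| / nm (NK K) m * (1 + |η| * |u + lK m| / |L|)
    rw [norm_div, norm_mul, Real.norm_eq_abs, Real.norm_eq_abs, Real.norm_eq_abs,
      abs_of_nonneg (hnmpos m)]
    have h1 : |1 + η * (u + lK m) / L| ≤ 1 + |η| * |u + lK m| / |L| := by
      refine le_trans (abs_add_le _ _) ?_
      rw [abs_one, abs_div, abs_mul]
    have h2 : |a m| * |1 + η * (u + lK m) / L| / (nm (NK K) m : ℝ) =
        |a m| / nm (NK K) m * |1 + η * (u + lK m) / L| := by ring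
    rw [h2]
    exact mul_le_mul_of_nonneg_left h1 (div_nonneg (abs_nonneg _) (hnmpos m))
  have ha'0 : ∀ m, 0 ≤ a' m := fun m => le_trans (norm_nonneg _) (hca m)
  have hcop : ∀ m ∈ S, IsCoprime (IK (𝔏 - m)) 𝔮 := by
    intro m hm
    refine IsCoprime.of_isCoprime_of_dvd_left h𝔏c ?_
    exact IK_dvd.mpr (tsub_le_self)
  have hmain := hC 𝔮 h𝔮 h𝔮' (PK K →₀ ℕ) S (fun m => IK (𝔏 - m)) a'
    (fun m hm => ⟨ha'0 m, IK_ne_bot _, hcop m hm⟩) b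
    (fun 𝔠 h𝔠 => (bn_le h𝔮 S (fun m => IK (𝔏 - m)) (fun m => ((c m : ℝ) : ℂ)) 𝔠).2 h𝔠)
    (by
      intro 𝔠
      refine le_trans
        (bn_le h𝔮 S (fun m => IK (𝔏 - m)) (fun m => ((c m : ℝ) : ℂ)) 𝔠).1 ?_
      refine Finset.sum_le_sum fun m _ => ?_
      by_cases hd : IK (𝔏 - m) ∣ 𝔠
      · simp only [hd, if_true]
        exact hca m
      · simp only [hd, if_false]
        exact le_refl _)
    E hE (v - lK 𝔏)
  have hEM : ∀ t ∈ E, ‖EM κ t.lam T t.ψ S a η L u‖ ^ 2 =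
      Real.exp v * ‖∑' 𝔠 : Ideal (𝓞 K), b 𝔠 * t.ψ 𝔠 *
          kint K (FT κ t.lam T.star) (v - lK 𝔏 + Real.log (Ideal.absNorm 𝔠))‖ ^ 2 := by
    intro t ht
    have hd := mg4a_hd h𝔮 h𝔮' hκ (hE t ht)
    rw [EM_dual hd T S a 𝔏 h𝔏 h𝔏c η L u v hv, mul_pow]
    congr 1
    rw [← Real.exp_nat_mul]
    congr 1
    push_cast
    ring
  rw [Finset.sum_congr rfl hEM, ← Finset.mul_sum]
  refine le_trans (mul_le_mul_of_nonneg_left hmain (Real.exp_pos v).le) ?_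
  have hk : ∀ A : ℝ, 0 < A → ∃ C : ℝ, ∀ w, |kk κ T.star w| ≤ C * Real.exp (-(A * w)) := by
    intro A hA
    obtain ⟨C, _, hC⟩ := kk_decay κ T.star hA
    exact ⟨C, fun w => by rw [abs_of_nonneg (kk_nonneg κ T.star w)]; exact hC w⟩
  have hdiag := dual_diag h𝔮 hk S c 𝔏 h𝔏 h𝔏c v
  rw [hb, hdiag]
  have herr : ∀ m ∈ S, ∀ m' ∈ S,
      (Real.exp (-(v - lK 𝔏)) / Ideal.absNorm (IK (𝔏 - m) ⊔ IK (𝔏 - m'))) ^ A *
        (1 + Real.exp (-(v - lK 𝔏)) / Ideal.absNorm (IK (𝔏 - m) ⊓ IK (𝔏 - m'))) =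
      Real.exp (-(A * (v - lK (m ⊔ m')))) * (1 + Real.exp (-(v - lK (m ⊓ m')))) := by
    intro m hm m' hm'
    obtain ⟨h1, h2⟩ := lK_dual (h𝔏 m hm) (h𝔏 m' hm')
    rw [absNorm_IK_sup, absNorm_IK_inf, h1, h2, ← Real.exp_sub, ← Real.exp_sub,
      ← Real.exp_mul]
    congr 2
    · ring
    · congr 1
      ring
  have hmainterm : ∑ m ∈ S, ∑ m' ∈ S, c m * c m' *
      WW (NK K) (kk κ T.star) (QK 𝔮) (v - lK (m ⊓ m')) =
      ∑ m ∈ S, ∑ m' ∈ S, a m * a m' / (nm (NK K) m * nm (NK K) m') *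
          (1 + η * (u + lK m) / L) * (1 + η * (u + lK m') / L) *
          WW (NK K) (kk κ T.star) (QK 𝔮) (v - lK (m ⊓ m')) := by
    refine Finset.sum_congr rfl fun m _ => Finset.sum_congr rfl fun m' _ => ?_
    rw [hc]
    show a m * (1 + η * (u + lK m) / L) / nm (NK K) m *
      (a m' * (1 + η * (u + lK m') / L) / nm (NK K) m') * _ = _
    rw [div_mul_div_comm]
    ring
  have herr2 : ∑ m ∈ S, ∑ m' ∈ S, a' m * a' m' *
      ((Real.exp (-(v - lK 𝔏)) / Ideal.absNorm (IK (𝔏 - m) ⊔ IK (𝔏 - m'))) ^ A *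
        (1 + Real.exp (-(v - lK 𝔏)) / Ideal.absNorm (IK (𝔏 - m) ⊓ IK (𝔏 - m')))) =
      ∑ m ∈ S, ∑ m' ∈ S,
          (|a m| / nm (NK K) m * (1 + |η| * |u + lK m| / |L|)) *
          (|a m'| / nm (NK K) m' * (1 + |η| * |u + lK m'| / |L|)) *
          (Real.exp (-(A * (v - lK (m ⊔ m')))) * (1 + Real.exp (-(v - lK (m ⊓ m'))))) := by
    refine Finset.sum_congr rfl fun m hm => Finset.sum_congr rfl fun m' hm' => ?_
    rw [herr m hm m' hm']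
  rw [hmainterm, herr2]
  refine le_of_eq ?_
  ring


end Pool.Agent.LVK

namespace Pool.Agent.LVK

theorem dual_pt : type_of% @dual_pt_pr := @dual_pt_pr

end Pool.Agent.LVK
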