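import Pool.Agent.Lib_helper42.LVK.Defs
import Pool.Agent.Lib_helper41.HZF.YB
import Pool.Agent.Lib_helper41.HZF.KG
import Pool.Agent.Lib_helper92.KSA.BRG
import Pool.Agent.Lib_helper92.KSA.LATU
import Pool.Agent.Lib_helper92.KSA.LNZ
import Pool.Agent.Lib_helper39.LVX.K_MA3B
import Pool.Agent.Lib_helper39.LVX.K_MF4
import Pool.Agent.Lib_helper39.LVX.K_MG2
import Pool.Agent.Lib_helper39.LVX.K_MG4A

/-!
# LVK part M, block MG4B: `dual_int_pr`
-/

namespace Pool.Agent.LVK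

open NumberField NumberField.InfinitePlace NumberField.Units Complex MeasureTheory Filter Topology
open Pool.Agent.HZ Pool.Agent.AS Pool.Agent.KS

variable {K : Type} [Field K] [NumberField K]

theorem mg4b_nm (g : PK K →₀ ℕ) : (1 : ℝ) ≤ nm (NK K) g := by
  exact_mod_cast Nat.succ_le_of_lt (nm_pos two_le_NK g)

theorem mg4b_lK (g : PK K →₀ ℕ) : 0 ≤ lK g := Real.log_nonneg (mg4b_nm g)

theorem mg4b_exp (g : PK K →₀ ℕ) : Real.exp (lK g) = nm (NK K) g := by
  unfold lK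
  exact Real.exp_log (by linarith [mg4b_nm g])

/-- `N(m ⊔ m') N(m ⊓ m') = N m N m'` -/
theorem mg4b_mul (m m' : PK K →₀ ℕ) :
    Real.exp (lK (m ⊔ m')) * Real.exp (lK (m ⊓ m')) = (nm (NK K) m : ℝ) * nm (NK K) m' := by
  rw [← Real.exp_add, lK_sup_inf, Real.exp_add, mg4b_exp, mg4b_exp]

omit [NumberField K] in
/-- a double sum against the square of the sum -/
theorem mg4b_sum (S : Finset (PK K →₀ ℕ)) (a : (PK K →₀ ℕ) → ℝ) (c B : ℝ)
    (F : (PK K →₀ ℕ) → (PK K →₀ ℕ) → ℝ)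
    (h : ∀ m ∈ S, ∀ m' ∈ S, c * F m m' ≤ B * (|a m| * |a m'|)) :
    c * ∑ m ∈ S, ∑ m' ∈ S, F m m' ≤ B * (∑ m ∈ S, |a m|) ^ 2 := by
  have e : (∑ m ∈ S, |a m|) ^ 2 = ∑ m ∈ S, ∑ m' ∈ S, |a m| * |a m'| := by
    rw [sq, Finset.sum_mul_sum]
  rw [e, Finset.mul_sum, Finset.mul_sum]
  refine Finset.sum_le_sum fun m hm => ?_
  rw [Finset.mul_sum, Finset.mul_sum]
  exact Finset.sum_le_sum fun m' hm' => h m hm m' hm'

/-- region 1: `A = 1` -/
theorem mg4b_r1 (S : Finset (PK K →₀ ℕ)) (a w : (PK K →₀ ℕ) → ℝ) (W v : ℝ)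
    (hw : ∀ m ∈ S, 0 ≤ w m) (hW : ∀ m ∈ S, w m ≤ W) :
    Real.exp v * ∑ m ∈ S, ∑ m' ∈ S,
          (|a m| / nm (NK K) m * w m) * (|a m'| / nm (NK K) m' * w m') *
          (Real.exp (-(1 * (v - lK (m ⊔ m')))) * (1 + Real.exp (-(v - lK (m ⊓ m'))))) ≤
      W ^ 2 * (1 + Real.exp (-v)) * (∑ m ∈ S, |a m|) ^ 2 := by
  refine mg4b_sum S a _ _ _ fun m hm m' hm' => ?_
  have h1 := mg4b_nm m
  have h2 := mg4b_nm m'
  have h3 := mg4b_mul m m'
  have hq : 1 ≤ Real.exp (lK (m ⊓ m')) := by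
    rw [mg4b_exp]; exact mg4b_nm _
  have hp : 1 ≤ Real.exp (lK (m ⊔ m')) := by
    rw [mg4b_exp]; exact mg4b_nm _
  have e1 : Real.exp (-(1 * (v - lK (m ⊔ m')))) = Real.exp (-v) * Real.exp (lK (m ⊔ m')) := by
    rw [← Real.exp_add]; congr 1; ring
  have e2 : Real.exp (-(v - lK (m ⊓ m'))) = Real.exp (-v) * Real.exp (lK (m ⊓ m')) := by
    rw [← Real.exp_add]; congr 1; ring
  have e3 : Real.exp v * Real.exp (-v) = 1 := by rw [← Real.exp_add]; simp
  set p := Real.exp (lK (m ⊔ m')) with hpdef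
  set q := Real.exp (lK (m ⊓ m')) with hqdef
  set x : ℝ := (nm (NK K) m : ℝ) with hx
  set y : ℝ := (nm (NK K) m' : ℝ) with hy
  have hx0 : x ≠ 0 := by positivity
  have hy0 : y ≠ 0 := by positivity
  have hq0 : q ≠ 0 := by positivity
  rw [e1, e2]
  have key : Real.exp v * (|a m| / x * w m * (|a m'| / y * w m') *
      (Real.exp (-v) * p * (1 + Real.exp (-v) * q))) =
      (w m * w m') * (|a m| * |a m'|) * (1 / q + Real.exp (-v)) := by
    have : Real.exp v * (|a m| / x * w m * (|a m'| / y * w m') *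
      (Real.exp (-v) * p * (1 + Real.exp (-v) * q))) =
      (Real.exp v * Real.exp (-v)) * ((w m * w m') * (|a m| * |a m'|) *
        ((p / (x * y)) * (1 + Real.exp (-v) * q))) := by
      field_simp
    rw [this, e3, ← h3, one_mul]
    have hp0 : p ≠ 0 := by positivity
    field_simp
  rw [key]
  have h4 : 1 / q + Real.exp (-v) ≤ 1 + Real.exp (-v) := by
    have : 1 / q ≤ 1 := by
      rw [div_le_one (by positivity)]; exact hq
    linarith
  have h5 : w m * w m' ≤ W ^ 2 := by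
    rw [sq]
    exact mul_le_mul (hW m hm) (hW m' hm') (hw m' hm') ((hw m hm).trans (hW m hm))
  have h6 : 0 ≤ w m * w m' := mul_nonneg (hw m hm) (hw m' hm')
  have h7 : 0 ≤ |a m| * |a m'| := by positivity
  calc w m * w m' * (|a m| * |a m'|) * (1 / q + Real.exp (-v))
      ≤ W ^ 2 * (|a m| * |a m'|) * (1 + Real.exp (-v)) := by
        refine mul_le_mul (mul_le_mul_of_nonneg_right h5 h7) h4 (by positivity) (by positivity)
    _ = W ^ 2 * (1 + Real.exp (-v)) * (|a m| * |a m'|) := by ring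

/-- region 2: `A` large -/
theorem mg4b_r2 (S : Finset (PK K →₀ ℕ)) (a w : (PK K →₀ ℕ) → ℝ) (W v A L : ℝ) (hA : 0 ≤ A)
    (hL : ∀ m ∈ S, lK m ≤ L) (hv : L ≤ v)
    (hw : ∀ m ∈ S, 0 ≤ w m) (hW : ∀ m ∈ S, w m ≤ W) :
    Real.exp v * ∑ m ∈ S, ∑ m' ∈ S,
          (|a m| / nm (NK K) m * w m) * (|a m'| / nm (NK K) m' * w m') *
          (Real.exp (-(A * (v - lK (m ⊔ m')))) * (1 + Real.exp (-(v - lK (m ⊓ m'))))) ≤
      2 * W ^ 2 * Real.exp (v - A * v + 2 * A * L) * (∑ m ∈ S, |a m|) ^ 2 := by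
  refine mg4b_sum S a _ _ _ fun m hm m' hm' => ?_
  have h1 := mg4b_nm m
  have h2 := mg4b_nm m'
  have h3 := lK_sup_inf m m'
  have h3a := mg4b_lK (m ⊓ m')
  have h3b := mg4b_lK (m ⊔ m')
  have h3c := hL m hm
  have h3d := hL m' hm'
  have h3e := mg4b_lK m
  have h3f := mg4b_lK m'
  have hinf : lK (m ⊓ m') ≤ L := by
    refine le_trans ?_ h3c
    unfold lK
    refine Real.log_le_log (by linarith [mg4b_nm (m ⊓ m')]) ?_
    exact_mod_cast nm_le two_le_NK inf_le_left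
  have e2 : Real.exp (-(v - lK (m ⊓ m'))) ≤ 1 := by
    rw [Real.exp_le_one_iff]; linarith
  have e1 : Real.exp (-(A * (v - lK (m ⊔ m')))) ≤ Real.exp (-(A * v) + 2 * A * L) := by
    rw [Real.exp_le_exp]
    nlinarith
  have e4 : Real.exp (v - A * v + 2 * A * L) = Real.exp v * Real.exp (-(A * v) + 2 * A * L) := by
    rw [← Real.exp_add]; congr 1; ring
  rw [e4]
  have b1 : |a m| / nm (NK K) m * w m ≤ |a m| * W := by
    refine mul_le_mul ?_ (hW m hm) (hw m hm) (abs_nonneg _)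
    exact div_le_self (abs_nonneg _) h1
  have b2 : |a m'| / nm (NK K) m' * w m' ≤ |a m'| * W := by
    refine mul_le_mul ?_ (hW m' hm') (hw m' hm') (abs_nonneg _)
    exact div_le_self (abs_nonneg _) h2
  have c1 : 0 ≤ |a m| / nm (NK K) m * w m := mul_nonneg (by positivity) (hw m hm)
  have c2 : 0 ≤ |a m'| / nm (NK K) m' * w m' := mul_nonneg (by positivity) (hw m' hm')
  have d1 : |a m| / nm (NK K) m * w m * (|a m'| / nm (NK K) m' * w m') ≤
      |a m| * W * (|a m'| * W) := mul_le_mul b1 b2 c2 (c1.trans b1)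
  have d2 : Real.exp (-(A * (v - lK (m ⊔ m')))) * (1 + Real.exp (-(v - lK (m ⊓ m')))) ≤
      Real.exp (-(A * v) + 2 * A * L) * 2 :=
    mul_le_mul e1 (by linarith) (by positivity) (by positivity)
  have d3 : |a m| / nm (NK K) m * w m * (|a m'| / nm (NK K) m' * w m') *
      (Real.exp (-(A * (v - lK (m ⊔ m')))) * (1 + Real.exp (-(v - lK (m ⊓ m'))))) ≤
      |a m| * W * (|a m'| * W) * (Real.exp (-(A * v) + 2 * A * L) * 2) :=
    mul_le_mul d1 d2 (by positivity) ((mul_nonneg c1 c2).trans d1)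
  calc Real.exp v * (|a m| / nm (NK K) m * w m * (|a m'| / nm (NK K) m' * w m') *
      (Real.exp (-(A * (v - lK (m ⊔ m')))) * (1 + Real.exp (-(v - lK (m ⊓ m'))))))
      ≤ Real.exp v * (|a m| * W * (|a m'| * W) * (Real.exp (-(A * v) + 2 * A * L) * 2)) :=
        mul_le_mul_of_nonneg_left d3 (Real.exp_pos _).le
    _ = 2 * W ^ 2 * (Real.exp v * Real.exp (-(A * v) + 2 * A * L)) * (|a m| * |a m'|) := by ring

/-- the majorant -/
noncomputable def mg4b_g (b c ℓ : ℝ) (u : ℝ) : ℝ :=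
  (Set.Ioc b c).indicator (fun _ => (1 : ℝ)) u + Real.exp (u + ℓ) +
    (Set.Iic b).indicator (fun u => Real.exp (u - b)) u

theorem mg4b_g_int {b c : ℝ} (hbc : b ≤ c) (ℓ : ℝ) :
    IntegrableOn (mg4b_g b c ℓ) (Set.Iic c) ∧
      ∫ u in Set.Iic c, mg4b_g b c ℓ u = (c - b) + Real.exp (c + ℓ) + 1 := by
  have i1 : IntegrableOn ((Set.Ioc b c).indicator (fun _ => (1 : ℝ))) (Set.Iic c) := by
    rw [integrableOn_indicator_iff measurableSet_Ioc]
    refine IntegrableOn.mono_set (t := Set.Ioc b c) ?_ Set.inter_subset_left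
    exact integrableOn_const (by simp)
  have i2 : IntegrableOn (fun u => Real.exp (u + ℓ)) (Set.Iic c) := by
    have : (fun u => Real.exp (u + ℓ)) = fun u => Real.exp ℓ * Real.exp u := by
      funext u; rw [← Real.exp_add]; congr 1; ring
    rw [this]
    exact (integrableOn_exp_Iic c).const_mul _
  have i3 : IntegrableOn ((Set.Iic b).indicator (fun u => Real.exp (u - b))) (Set.Iic c) := by
    rw [integrableOn_indicator_iff measurableSet_Iic]
    refine IntegrableOn.mono_set (t := Set.Iic b) ?_ Set.inter_subset_left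
    have : (fun u => Real.exp (u - b)) = fun u => Real.exp (-b) * Real.exp u := by
      funext u; rw [← Real.exp_add]; congr 1; ring
    rw [this]
    exact (integrableOn_exp_Iic b).const_mul _
  refine ⟨(i1.add i2).add i3, ?_⟩
  have e : ∫ u in Set.Iic c, mg4b_g b c ℓ u =
      (∫ u in Set.Iic c, (Set.Ioc b c).indicator (fun _ => (1 : ℝ)) u) +
      (∫ u in Set.Iic c, Real.exp (u + ℓ)) +
      ∫ u in Set.Iic c, (Set.Iic b).indicator (fun u => Real.exp (u - b)) u := by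
    have i12 : IntegrableOn (fun u => (Set.Ioc b c).indicator (fun _ => (1 : ℝ)) u +
      Real.exp (u + ℓ)) (Set.Iic c) := i1.add i2
    rw [← integral_add i1 i2, ← integral_add i12 i3]
    rfl
  rw [e]
  congr 1
  · congr 1
    · rw [setIntegral_indicator measurableSet_Ioc]
      have : Set.Iic c ∩ Set.Ioc b c = Set.Ioc b c :=
        Set.inter_eq_right.mpr Set.Ioc_subset_Iic_self
      rw [this]
      simp [hbc]
    · have : (fun u => Real.exp (u + ℓ)) = fun u => Real.exp ℓ * Real.exp u := by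
        funext u; rw [← Real.exp_add]; congr 1; ring
      rw [this, integral_const_mul, integral_exp_Iic, ← Real.exp_add]
      congr 1; ring
  · rw [setIntegral_indicator measurableSet_Iic]
    have : Set.Iic c ∩ Set.Iic b = Set.Iic b :=
      Set.inter_eq_right.mpr (Set.Iic_subset_Iic.mpr hbc)
    rw [this]
    have : (fun u => Real.exp (u - b)) = fun u => Real.exp (-b) * Real.exp u := by
      funext u; rw [← Real.exp_add]; congr 1; ring
    rw [this, integral_const_mul, integral_exp_Iic, ← Real.exp_add]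
    simp

theorem mg4b_g_nonneg (b c ℓ u : ℝ) : 0 ≤ mg4b_g b c ℓ u := by
  unfold mg4b_g
  have h1 : 0 ≤ (Set.Ioc b c).indicator (fun _ => (1 : ℝ)) u :=
    Set.indicator_nonneg (fun _ _ => zero_le_one) u
  have h2 : 0 ≤ (Set.Iic b).indicator (fun u => Real.exp (u - b)) u :=
    Set.indicator_nonneg (fun _ _ => (Real.exp_pos _).le) u
  have h3 := Real.exp_pos (u + ℓ)
  linarith

/-- integrability of the left side -/
theorem mg4b_int {𝔮 : Ideal (𝓞 K)} {κ : InfinitePlace K → ℤ} {lam : InfinitePlace K → ℝ}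
    {χ : MulChar (𝓞 K ⧸ 𝔮) ℂ} {ψ : Ideal (𝓞 K) →* ℂ} (h : HD 𝔮 κ lam χ ψ) (T : TD K)
    (S : Finset (PK K →₀ ℕ)) (a : (PK K →₀ ℕ) → ℝ) (η L R : ℝ) {U : ℝ} (hU : 0 ≤ U) :
    IntegrableOn (fun u => ‖EM κ lam T ψ S a η L u‖ ^ 2 * Real.exp (-(2 * R / L * u)))
      (Set.Iic (-U)) := by
  obtain ⟨C, hC⟩ := EM_decay h T S a η L (1 + R / L)
  have hc := EM_continuous h T S a η L
  refine Integrable.mono' (g := fun u => C ^ 2 * Real.exp u)
    ((integrableOn_exp_Iic (-U)).const_mul _) ?_ ?_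
  · exact (by fun_prop : Continuous fun u => ‖EM κ lam T ψ S a η L u‖ ^ 2 *
      Real.exp (-(2 * R / L * u))).aestronglyMeasurable
  · rw [ae_restrict_iff' measurableSet_Iic]
    refine Eventually.of_forall fun u hu => ?_
    have hu' : u ≤ 0 := by
      have : u ≤ -U := hu
      linarith
    rw [Real.norm_of_nonneg (by positivity)]
    have h1 := hC u
    rw [abs_of_nonpos hu'] at h1
    have h2 : ‖EM κ lam T ψ S a η L u‖ ^ 2 ≤
        (C * Real.exp (-((1 + R / L) * -u))) ^ 2 := by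
      gcongr
    have h3 : (C * Real.exp (-((1 + R / L) * -u))) ^ 2 =
        C ^ 2 * Real.exp (2 * ((1 + R / L) * u)) := by
      rw [mul_pow, ← Real.exp_nat_mul]
      congr 2
      push_cast
      ring
    calc ‖EM κ lam T ψ S a η L u‖ ^ 2 * Real.exp (-(2 * R / L * u))
        ≤ C ^ 2 * Real.exp (2 * ((1 + R / L) * u)) * Real.exp (-(2 * R / L * u)) := by
          rw [← h3]; gcongr
      _ = C ^ 2 * Real.exp (2 * u) := by
          rw [mul_assoc, ← Real.exp_add]; congr 2; ring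
      _ ≤ C ^ 2 * Real.exp u := by
          gcongr; linarith

/-- the final numerical bound of the integrand, `v = -u - ℓ`, region 1 -/
theorem mg4b_w1 {η R L D ℓ u x : ℝ} (hR : 0 ≤ R) (hL : 1 ≤ L) (hℓ0 : 0 ≤ ℓ) (hℓ : ℓ ≤ D * L)
    (hx0 : 0 ≤ x) (hx : x ≤ L) (hu : u ≤ 0) {y : ℝ} (hy : 0 ≤ y)
    (hv : -u - ℓ ≤ (3 + 2 * R) * L + y) :
    1 + |η| * |u + x| / |L| ≤ (1 + |η| * (1 + (3 + 2 * R + D + D + 1))) * (1 + y) := by
  have hL0 : 0 < L := by linarith
  have hD : 0 ≤ D := by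
    by_contra hc
    push Not at hc
    nlinarith
  rw [abs_of_pos hL0]
  have h1 : |u + x| ≤ (3 + 2 * R + D + D + 1) * L + y := by
    rw [abs_le]
    constructor
    · nlinarith
    · nlinarith [mul_nonneg hR hL0.le, mul_nonneg hD hL0.le]
  have h2 : |u + x| / L ≤ (3 + 2 * R + D + D + 1) + y := by
    rw [div_le_iff₀ hL0]
    nlinarith
  have h3 : |η| * |u + x| / L = |η| * (|u + x| / L) := by ring
  rw [h3]
  have h4 := mul_le_mul_of_nonneg_left h2 (abs_nonneg η)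
  have h5 : 0 ≤ |η| * (3 + 2 * R + D + D + 1) * y := by positivity
  nlinarith [abs_nonneg η, mul_nonneg (abs_nonneg η) hy]

theorem mg4b_x {x : ℝ} (hx : 0 ≤ x) : (1 + x) ^ 2 ≤ 4 * Real.exp x := by
  have h1 := Real.add_one_le_exp (x / 2)
  have h2 : Real.exp x = Real.exp (x / 2) ^ 2 := by
    rw [← Real.exp_nat_mul]; congr 1; push_cast; ring
  rw [h2]
  nlinarith

open scoped Classical in
theorem dual_int_pr (κ : InfinitePlace K → ℤ)
    (hκ : ∀ w : InfinitePlace K, w.IsReal → κ w = 0 ∨ κ w = 1) (T : TD K) (η R : ℝ)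
    (hR : 0 ≤ R) :
    ∃ C : ℝ, 0 ≤ C ∧ ∀ (𝔮 : Ideal (𝓞 K)) (_ : 𝔮 ≠ ⊥) (_ : 𝔮 ≠ ⊤) (E : Finset (HDat 𝔮))
      (_ : ∀ t ∈ E, t ∈ FamK 𝔮 κ) (S : Finset (PK K →₀ ℕ)) (a : (PK K →₀ ℕ) → ℝ)
      (_ : ∀ m ∈ S, IsCoprime (IK m) 𝔮) (L U : ℝ) (_ : 1 ≤ L)
      (_ : L = Real.log (Ideal.absNorm 𝔮)) (_ : 0 ≤ U) (_ : U ≤ L) (_ : ∀ m ∈ S, lK m ≤ L),
      ∑ t ∈ E, ∫ u in Set.Iic (-U), ‖EM κ t.lam T t.ψ S a η L u‖ ^ 2 *
          Real.exp (-(2 * R / L * u)) ≤
        hT K * nprim 𝔮 * DUAL (kk κ T.star) (QK 𝔮) S a η L (1 / 2 - R / L) U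
          (Real.log (cond 𝔮)) +
        C * (2 ^ (QK 𝔮).card * ((L + Real.exp (L - U)) * (∑ m ∈ S, |a m|) ^ 2)) := by
  obtain ⟨Ca, hCa, H1⟩ := dual_pt κ hκ T (A := 1) le_rfl
  obtain ⟨Cb, hCb, H2⟩ := dual_pt κ hκ T (A := 3 + 2 * R) (by linarith)
  obtain ⟨d, hd⟩ : ∃ d : ℝ, d = |(discr K : ℝ)| := ⟨_, rfl⟩
  have hd1 : 1 ≤ d := by
    rw [hd]
    have h1 : discr K ≠ 0 := discr_ne_zero K
    have h2 : 1 ≤ |discr K| := Int.one_le_abs h1
    exact_mod_cast h2
  have hlogd : 0 ≤ Real.log d := Real.log_nonneg hd1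
  obtain ⟨D, hD⟩ : ∃ D : ℝ, D = Real.log d + 1 := ⟨_, rfl⟩
  have hD1 : 1 ≤ D := by rw [hD]; linarith
  obtain ⟨W, hW⟩ : ∃ W : ℝ, W = 1 + |η| * (1 + (3 + 2 * R + D + D + 1)) := ⟨_, rfl⟩
  have hW1 : 0 ≤ W := by rw [hW]; positivity
  obtain ⟨C0, hC0⟩ : ∃ C0 : ℝ, C0 = Ca * (W ^ 2 * Real.exp (2 * R * (3 + 2 * R + D))) +
    Cb * (8 * W ^ 2 * Real.exp (2 * R * D)) := ⟨_, rfl⟩
  have hC01 : 0 ≤ C0 := by rw [hC0]; positivity
  refine ⟨C0 * (D + 4 + 2 * R + d), by positivity, ?_⟩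
  intro 𝔮 h𝔮 h𝔮' E hE S a hS L U hL hLq hU hUL hm
  have hL0 : 0 < L := by linarith
  have hN : (Ideal.absNorm 𝔮 : ℝ) ≠ 0 := by
    intro h0
    rw [h0, Real.log_zero] at hLq
    linarith
  have hNpos : 0 < (Ideal.absNorm 𝔮 : ℝ) := lt_of_le_of_ne (Nat.cast_nonneg _) (Ne.symm hN)
  obtain ⟨ℓ, hℓ⟩ : ∃ ℓ : ℝ, ℓ = Real.log (cond 𝔮) := ⟨_, rfl⟩
  have hℓe : ℓ = Real.log d + L := by
    rw [hℓ, Pool.Agent.HZ.cond, ← hd, Real.log_mul (by positivity) hN, hLq]
  have hexp : Real.exp ℓ = d * Real.exp L := by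
    rw [hℓe, Real.exp_add, Real.exp_log (by positivity)]
  have hℓ0 : 0 ≤ ℓ := by rw [hℓe]; linarith
  have hℓD : ℓ ≤ D * L := by
    rw [hℓe, hD]
    nlinarith
  obtain ⟨b, hb⟩ : ∃ b : ℝ, b = -ℓ - (3 + 2 * R) * L := ⟨_, rfl⟩
  have hRL : 0 ≤ R * L := mul_nonneg hR hL0.le
  have hbU : b ≤ -U := by rw [hb]; nlinarith
  obtain ⟨F, hF⟩ : ∃ F : ℝ → ℝ, F = fun u => ∑ m ∈ S, ∑ m' ∈ S,
      a m * a m' / (nm (NK K) m * nm (NK K) m') *
      (1 + η * (u + lK m) / L) * (1 + η * (u + lK m') / L) *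
      WW (NK K) (kk κ T.star) (QK 𝔮) (-u - ℓ - lK (m ⊓ m')) := ⟨_, rfl⟩
  obtain ⟨Sa, hSa⟩ : ∃ Sa : ℝ, Sa = ∑ m ∈ S, |a m| := ⟨_, rfl⟩
  obtain ⟨P, hP⟩ : ∃ P : ℝ, P = (2 : ℝ) ^ (QK 𝔮).card := ⟨_, rfl⟩
  have hP0 : 0 ≤ P := by rw [hP]; positivity
  -- the pointwise inequality
  have hpt : ∀ u ∈ Set.Iic (-U), ∑ t ∈ E, ‖EM κ t.lam T t.ψ S a η L u‖ ^ 2 *
      Real.exp (-(2 * R / L * u)) ≤
      hT K * nprim 𝔮 * Real.exp (-ℓ) * (Real.exp ((2 * (1 / 2 - R / L) - 2) * u) * F u) +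
        C0 * (P * Sa ^ 2) * mg4b_g b (-U) ℓ u := by
    intro u hu
    have hu' : u ≤ -U := hu
    have hu0 : u ≤ 0 := by linarith
    rw [← Finset.sum_mul]
    have hmain : hT K * nprim 𝔮 * (Real.exp (-u - ℓ) * F u) * Real.exp (-(2 * R / L * u)) =
        hT K * nprim 𝔮 * Real.exp (-ℓ) *
          (Real.exp ((2 * (1 / 2 - R / L) - 2) * u) * F u) := by
      have : Real.exp (-u - ℓ) * Real.exp (-(2 * R / L * u)) =
          Real.exp (-ℓ) * Real.exp ((2 * (1 / 2 - R / L) - 2) * u) := by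
        rw [← Real.exp_add, ← Real.exp_add]; congr 1; ring
      linear_combination (hT K * nprim 𝔮 * F u) * this
    rw [← hmain]
    have hω : 0 ≤ Real.exp (-(2 * R / L * u)) := (Real.exp_pos _).le
    have hw0 : ∀ m ∈ S, 0 ≤ 1 + |η| * |u + lK m| / |L| := fun m _ => by positivity
    by_cases hub : b < u
    · -- region 1
      have hv : -u - ℓ ≤ (3 + 2 * R) * L + 0 := by rw [hb] at hub; linarith
      have hwW : ∀ m ∈ S, 1 + |η| * |u + lK m| / |L| ≤ W := fun m hmS => by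
        have := mg4b_w1 (η := η) hR hL hℓ0 hℓD (mg4b_lK m) (hm m hmS) hu0 le_rfl hv
        rw [hW]; linarith
      have A1 := H1 𝔮 h𝔮 h𝔮' E hE S a hS η L u (-u - ℓ) (by rw [hℓ])
      have A2 := mg4b_r1 S a (fun m => 1 + |η| * |u + lK m| / |L|) W (-u - ℓ) hw0 hwW
      have hg : mg4b_g b (-U) ℓ u = 1 + Real.exp (-(-u - ℓ)) := by
        unfold mg4b_g
        rw [Set.indicator_of_mem (show u ∈ Set.Ioc b (-U) from ⟨hub, hu'⟩),
          Set.indicator_of_notMem (show u ∉ Set.Iic b from fun h => absurd hub (not_lt.mpr h))]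
        rw [add_zero]
        congr 2; ring
      have A3 : Real.exp (-(2 * R / L * u)) ≤ Real.exp (2 * R * (3 + 2 * R + D)) := by
        rw [Real.exp_le_exp]
        have h1 : -(2 * R / L * u) = 2 * R * (-u / L) := by ring
        rw [h1]
        refine mul_le_mul_of_nonneg_left ?_ (by positivity)
        rw [div_le_iff₀ hL0]
        linarith
      have A4 : ∑ t ∈ E, ‖EM κ t.lam T t.ψ S a η L u‖ ^ 2 ≤
          hT K * nprim 𝔮 * (Real.exp (-u - ℓ) * F u) +
            Ca * (P * (W ^ 2 * (1 + Real.exp (-(-u - ℓ))) * Sa ^ 2)) := by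
        refine A1.trans ?_
        rw [hF, hP, hSa]
        refine add_le_add le_rfl ?_
        refine mul_le_mul_of_nonneg_left ?_ hCa
        exact mul_le_mul_of_nonneg_left A2 (by positivity)
      have A5 := mul_le_mul_of_nonneg_right A4 hω
      refine A5.trans ?_
      rw [add_mul]
      refine add_le_add le_rfl ?_
      rw [hg]
      have hpos : 0 ≤ Ca * (P * (W ^ 2 * (1 + Real.exp (-(-u - ℓ))) * Sa ^ 2)) := by positivity
      calc Ca * (P * (W ^ 2 * (1 + Real.exp (-(-u - ℓ))) * Sa ^ 2)) * Real.exp (-(2 * R / L * u))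
          ≤ Ca * (P * (W ^ 2 * (1 + Real.exp (-(-u - ℓ))) * Sa ^ 2)) *
            Real.exp (2 * R * (3 + 2 * R + D)) := mul_le_mul_of_nonneg_left A3 hpos
        _ = (Ca * (W ^ 2 * Real.exp (2 * R * (3 + 2 * R + D)))) * (P * Sa ^ 2) *
            (1 + Real.exp (-(-u - ℓ))) := by ring
        _ ≤ C0 * (P * Sa ^ 2) * (1 + Real.exp (-(-u - ℓ))) := by
          refine mul_le_mul_of_nonneg_right (mul_le_mul_of_nonneg_right ?_ (by positivity))
            (by positivity)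
          rw [hC0]
          have : 0 ≤ Cb * (8 * W ^ 2 * Real.exp (2 * R * D)) := by positivity
          linarith
    · -- region 2
      push Not at hub
      obtain ⟨x, hx⟩ : ∃ x : ℝ, x = b - u := ⟨_, rfl⟩
      have hx0 : 0 ≤ x := by rw [hx]; linarith
      have hvx : -u - ℓ = (3 + 2 * R) * L + x := by rw [hx, hb]; ring
      have hwW : ∀ m ∈ S, 1 + |η| * |u + lK m| / |L| ≤ W * (1 + x) := fun m hmS => by
        have := mg4b_w1 (η := η) hR hL hℓ0 hℓD (mg4b_lK m) (hm m hmS) hu0 hx0 hvx.le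
        rw [hW]; exact this
      have hLv : L ≤ -u - ℓ := by rw [hvx]; nlinarith
      have A1 := H2 𝔮 h𝔮 h𝔮' E hE S a hS η L u (-u - ℓ) (by rw [hℓ])
      have A2 := mg4b_r2 S a (fun m => 1 + |η| * |u + lK m| / |L|) (W * (1 + x)) (-u - ℓ)
        (3 + 2 * R) L (by positivity) hm hLv hw0 hwW
      have hg : Real.exp (-x) ≤ mg4b_g b (-U) ℓ u := by
        unfold mg4b_g
        rw [Set.indicator_of_notMem (show u ∉ Set.Ioc b (-U) from fun h => absurd h.1
          (not_lt.mpr hub)), Set.indicator_of_mem (show u ∈ Set.Iic b from hub)]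
        have h1 : Real.exp (-x) = Real.exp (u - b) := by rw [hx]; congr 1; ring
        rw [h1]
        have := Real.exp_pos (u + ℓ)
        linarith
      have A3 : Real.exp (-(2 * R / L * u)) ≤ Real.exp (2 * R * (-u - ℓ) + 2 * R * D) := by
        rw [Real.exp_le_exp]
        have h1 : -(2 * R / L * u) = 2 * R * (-u / L) := by ring
        rw [h1, ← mul_add]
        refine mul_le_mul_of_nonneg_left ?_ (by positivity)
        rw [div_le_iff₀ hL0]
        have h0 : 0 ≤ -u - ℓ := by linarith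
        nlinarith
      have A4 : ∑ t ∈ E, ‖EM κ t.lam T t.ψ S a η L u‖ ^ 2 ≤
          hT K * nprim 𝔮 * (Real.exp (-u - ℓ) * F u) +
            Cb * (P * (2 * (W * (1 + x)) ^ 2 * Real.exp (-u - ℓ - (3 + 2 * R) * (-u - ℓ) +
              2 * (3 + 2 * R) * L) * Sa ^ 2)) := by
        refine A1.trans ?_
        rw [hF, hP, hSa]
        refine add_le_add le_rfl ?_
        refine mul_le_mul_of_nonneg_left ?_ hCb
        exact mul_le_mul_of_nonneg_left A2 (by positivity)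
      have A5 := mul_le_mul_of_nonneg_right A4 hω
      refine A5.trans ?_
      rw [add_mul]
      refine add_le_add le_rfl ?_
      have hpos : 0 ≤ Cb * (P * (2 * (W * (1 + x)) ^ 2 * Real.exp (-u - ℓ -
        (3 + 2 * R) * (-u - ℓ) + 2 * (3 + 2 * R) * L) * Sa ^ 2)) := by positivity
      have e1 : Real.exp (-u - ℓ - (3 + 2 * R) * (-u - ℓ) + 2 * (3 + 2 * R) * L) *
          Real.exp (2 * R * (-u - ℓ) + 2 * R * D) =
          Real.exp (-x) * Real.exp (-x) * Real.exp (2 * R * D) := by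
        rw [← Real.exp_add, ← Real.exp_add, ← Real.exp_add, hvx]
        congr 1; ring
      have e2 : (1 + x) ^ 2 * Real.exp (-x) ≤ 4 := by
        have := mul_le_mul_of_nonneg_right (mg4b_x hx0) (Real.exp_pos (-x)).le
        rwa [mul_assoc, ← Real.exp_add, add_neg_cancel, Real.exp_zero, mul_one] at this
      calc Cb * (P * (2 * (W * (1 + x)) ^ 2 * Real.exp (-u - ℓ - (3 + 2 * R) * (-u - ℓ) +
              2 * (3 + 2 * R) * L) * Sa ^ 2)) * Real.exp (-(2 * R / L * u))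
          ≤ Cb * (P * (2 * (W * (1 + x)) ^ 2 * Real.exp (-u - ℓ - (3 + 2 * R) * (-u - ℓ) +
              2 * (3 + 2 * R) * L) * Sa ^ 2)) * Real.exp (2 * R * (-u - ℓ) + 2 * R * D) :=
            mul_le_mul_of_nonneg_left A3 hpos
        _ = (Cb * (2 * W ^ 2 * Real.exp (2 * R * D))) * (P * Sa ^ 2) * Real.exp (-x) *
            ((1 + x) ^ 2 * Real.exp (-x)) := by
            linear_combination (Cb * (P * (2 * (W * (1 + x)) ^ 2 * Sa ^ 2))) * e1
        _ ≤ (Cb * (2 * W ^ 2 * Real.exp (2 * R * D))) * (P * Sa ^ 2) * Real.exp (-x) * 4 :=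
            mul_le_mul_of_nonneg_left e2 (by positivity)
        _ = (Cb * (8 * W ^ 2 * Real.exp (2 * R * D))) * (P * Sa ^ 2) * Real.exp (-x) := by ring
        _ ≤ C0 * (P * Sa ^ 2) * Real.exp (-x) := by
          refine mul_le_mul_of_nonneg_right (mul_le_mul_of_nonneg_right ?_ (by positivity))
            (by positivity)
          rw [hC0]
          have : 0 ≤ Ca * (W ^ 2 * Real.exp (2 * R * (3 + 2 * R + D))) := by positivity
          linarith
        _ ≤ C0 * (P * Sa ^ 2) * mg4b_g b (-U) ℓ u :=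
          mul_le_mul_of_nonneg_left hg (by positivity)
  -- integration
  have hHD : ∀ t ∈ E, HD 𝔮 κ t.lam t.χ t.ψ := by
    intro t ht
    obtain ⟨h1, h2, h3, h4⟩ := hE t ht
    exact ⟨hκ, h4, h𝔮, h𝔮', h2, h1 ▸ h3⟩
  have hI : ∀ t ∈ E, IntegrableOn (fun u => ‖EM κ t.lam T t.ψ S a η L u‖ ^ 2 *
      Real.exp (-(2 * R / L * u))) (Set.Iic (-U)) := fun t ht =>
    mg4b_int (hHD t ht) T S a η L R hU
  have hDint : IntegrableOn (fun u => Real.exp ((2 * (1 / 2 - R / L) - 2) * u) * F u)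
      (Set.Iic (-U)) := by
    have := DUAL_int κ T.star (QK 𝔮) S a η L (1 / 2 - R / L) U ℓ
    rw [hF]
    exact this
  obtain ⟨hgi, hgv⟩ := mg4b_g_int hbU ℓ
  have hDUAL : DUAL (kk κ T.star) (QK 𝔮) S a η L (1 / 2 - R / L) U ℓ =
      Real.exp (-ℓ) * ∫ u in Set.Iic (-U), Real.exp ((2 * (1 / 2 - R / L) - 2) * u) * F u := by
    rw [DUAL, hF]
  have hRi : IntegrableOn (fun u => hT K * nprim 𝔮 * Real.exp (-ℓ) *
      (Real.exp ((2 * (1 / 2 - R / L) - 2) * u) * F u) +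
        C0 * (P * Sa ^ 2) * mg4b_g b (-U) ℓ u) (Set.Iic (-U)) :=
    Integrable.add (hDint.const_mul _) (hgi.const_mul _)
  rw [← integral_finsetSum E hI]
  calc ∫ u in Set.Iic (-U), ∑ t ∈ E, ‖EM κ t.lam T t.ψ S a η L u‖ ^ 2 *
          Real.exp (-(2 * R / L * u))
      ≤ ∫ u in Set.Iic (-U), (hT K * nprim 𝔮 * Real.exp (-ℓ) *
          (Real.exp ((2 * (1 / 2 - R / L) - 2) * u) * F u) +
        C0 * (P * Sa ^ 2) * mg4b_g b (-U) ℓ u) :=
        setIntegral_mono_on (integrable_finsetSum E hI) hRi measurableSet_Iic hpt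
    _ = hT K * nprim 𝔮 * DUAL (kk κ T.star) (QK 𝔮) S a η L (1 / 2 - R / L) U ℓ +
        C0 * (P * Sa ^ 2) * ((-U - b) + Real.exp (-U + ℓ) + 1) := by
        rw [integral_add (hDint.const_mul _) (hgi.const_mul _), integral_const_mul,
          integral_const_mul, hgv, hDUAL]
        ring
    _ ≤ hT K * nprim 𝔮 * DUAL (kk κ T.star) (QK 𝔮) S a η L (1 / 2 - R / L) U
          (Real.log (cond 𝔮)) +
        C0 * (D + 4 + 2 * R + d) * (2 ^ (QK 𝔮).card * ((L + Real.exp (L - U)) *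
          (∑ m ∈ S, |a m|) ^ 2)) := by
        rw [← hℓ, ← hSa, ← hP]
        refine add_le_add le_rfl ?_
        have h1 : Real.exp (-U + ℓ) = d * Real.exp (L - U) := by
          rw [Real.exp_add, hexp, Real.exp_sub, Real.exp_neg]
          ring
        have h2 : (-U - b) + Real.exp (-U + ℓ) + 1 ≤
            (D + 4 + 2 * R + d) * (L + Real.exp (L - U)) := by
          rw [h1, hb]
          have h3 := Real.exp_pos (L - U)
          have h4 : 0 ≤ (D + 4 + 2 * R) * Real.exp (L - U) := by positivity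
          have h5 : 0 ≤ d * L := by positivity
          nlinarith
        calc C0 * (P * Sa ^ 2) * ((-U - b) + Real.exp (-U + ℓ) + 1)
            ≤ C0 * (P * Sa ^ 2) * ((D + 4 + 2 * R + d) * (L + Real.exp (L - U))) :=
              mul_le_mul_of_nonneg_left h2 (by positivity)
          _ = C0 * (D + 4 + 2 * R + d) * (P * ((L + Real.exp (L - U)) * Sa ^ 2)) := by ring


end Pool.Agent.LVK

namespace Pool.Agent.LVK

theorem dual_int : type_of% @dual_int_pr := @dual_int_pr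

end Pool.Agent.LVK
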