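import Pool.Agent.Lib_helper42.LVK.Defs
import Pool.Agent.Lib_helper41.HZF.YB
import Pool.Agent.Lib_helper41.HZF.KG
import Pool.Agent.Lib_helper92.KSA.BRG
import Pool.Agent.Lib_helper92.KSA.LATU
import Pool.Agent.Lib_helper92.KSA.LNZ
import Pool.Agent.Lib_helper39.LVX.K_MA3B
import Pool.Agent.Lib_helper39.LVX.K_MG3B
import Pool.Agent.Lib_helper39.LVX.K_MG4B

/-!
# LVK part M, block MG5
-/

namespace Pool.Agent.LVK

open NumberField NumberField.InfinitePlace NumberField.Units Complex MeasureTheory Filter Topology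
open Pool.Agent.HZ Pool.Agent.AS Pool.Agent.KS

variable {K : Type} [Field K] [NumberField K]

theorem mg5_exp : Integrable (fun u : ℝ => Real.exp (-(2 * |u|))) := by
  have h1 : IntegrableOn (fun u : ℝ => Real.exp (-(2 * |u|))) (Set.Ioi 0) := by
    refine (integrableOn_exp_mul_Ioi (a := -2) (by norm_num) 0).congr_fun (fun u hu => ?_)
      measurableSet_Ioi
    simp only [abs_of_pos (Set.mem_Ioi.1 hu)]
    congr 1; ring
  have h2 : IntegrableOn (fun u : ℝ => Real.exp (-(2 * |u|))) (Set.Iic 0) := by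
    refine (integrableOn_exp_mul_Iic (a := 2) (by norm_num) 0).congr_fun (fun u hu => ?_)
      measurableSet_Iic
    simp only [abs_of_nonpos (Set.mem_Iic.1 hu)]
    congr 1; ring
  rw [← integrableOn_univ, ← Set.Iic_union_Ioi (a := (0 : ℝ))]
  exact h2.union h1

theorem mg5_int {𝔮 : Ideal (𝓞 K)} {κ : InfinitePlace K → ℤ} {lam : InfinitePlace K → ℝ}
    {χ : MulChar (𝓞 K ⧸ 𝔮) ℂ} {ψ : Ideal (𝓞 K) →* ℂ} (h : HD 𝔮 κ lam χ ψ) (T : TD K)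
    (S : Finset (PK K →₀ ℕ)) (a : (PK K →₀ ℕ) → ℝ) (η : ℝ) {L R : ℝ} (hL : 1 ≤ L)
    (hR : 0 ≤ R) :
    Integrable (fun u : ℝ => ‖EM κ lam T ψ S a η L u‖ ^ 2 * Real.exp (-(2 * R / L * u))) := by
  obtain ⟨C, hC⟩ := EM_decay h T S a η L (R + 1)
  have hcont := EM_continuous h T S a η L
  refine (mg5_exp.const_mul (C ^ 2)).mono' ?_ (Eventually.of_forall fun u => ?_)
  · exact ((hcont.norm.pow 2).mul (by fun_prop)).aestronglyMeasurable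
  · rw [Real.norm_of_nonneg (by positivity)]
    have h0 : 0 ≤ C * Real.exp (-((R + 1) * |u|)) := (norm_nonneg _).trans (hC u)
    have h1 : ‖EM κ lam T ψ S a η L u‖ ^ 2 ≤ (C * Real.exp (-((R + 1) * |u|))) ^ 2 :=
      pow_le_pow_left₀ (norm_nonneg _) (hC u) 2
    have h2 : Real.exp (-(2 * R / L * u)) ≤ Real.exp (2 * R * |u|) := by
      apply Real.exp_le_exp.2
      have h3 : -(2 * R / L * u) ≤ 2 * R / L * |u| := by
        have h5 : 0 ≤ 2 * R / L := by positivity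
        have := neg_abs_le u
        nlinarith [mul_le_mul_of_nonneg_left (neg_le_abs u) h5]
      refine h3.trans ?_
      apply mul_le_mul_of_nonneg_right _ (abs_nonneg u)
      exact div_le_self (by positivity) hL
    calc ‖EM κ lam T ψ S a η L u‖ ^ 2 * Real.exp (-(2 * R / L * u))
        ≤ (C * Real.exp (-((R + 1) * |u|))) ^ 2 * Real.exp (2 * R * |u|) :=
          mul_le_mul h1 h2 (Real.exp_pos _).le (by positivity)
      _ = C ^ 2 * Real.exp (-(2 * |u|)) := by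
          rw [mul_pow, ← Real.exp_nat_mul, mul_assoc, ← Real.exp_add]
          congr 2
          push_cast
          ring

theorem mg5_hd {𝔮 : Ideal (𝓞 K)} (h𝔮 : 𝔮 ≠ ⊥) (h𝔮' : 𝔮 ≠ ⊤) {κ : InfinitePlace K → ℤ}
    (hκ : ∀ w : InfinitePlace K, w.IsReal → κ w = 0 ∨ κ w = 1) {t : HDat 𝔮}
    (ht : t ∈ FamK 𝔮 κ) : HD 𝔮 κ t.lam t.χ t.ψ := by
  obtain ⟨h1, h2, h3, h4⟩ := ht
  exact ⟨hκ, h4, h𝔮, h𝔮', h2, h1 ▸ h3⟩

theorem mean_EM_pr (κ : InfinitePlace K → ℤ)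
    (hκ : ∀ w : InfinitePlace K, w.IsReal → κ w = 0 ∨ κ w = 1) (T : TD K) (η R : ℝ)
    (hR : 0 ≤ R) :
    ∃ C : ℝ, 0 ≤ C ∧ ∀ (𝔮 : Ideal (𝓞 K)) (_ : 𝔮 ≠ ⊥) (_ : 𝔮 ≠ ⊤) (E : Finset (HDat 𝔮))
      (_ : ∀ t ∈ E, t ∈ FamK 𝔮 κ) (S : Finset (PK K →₀ ℕ)) (a : (PK K →₀ ℕ) → ℝ)
      (_ : ∀ m ∈ S, IsCoprime (IK m) 𝔮) (L U : ℝ) (_ : 1 ≤ L)
      (_ : L = Real.log (Ideal.absNorm 𝔮)) (_ : 0 ≤ U) (_ : U ≤ L) (_ : ∀ m ∈ S, lK m ≤ L),
      ∑ t ∈ E, ∫ u : ℝ, ‖EM κ t.lam T t.ψ S a η L u‖ ^ 2 * Real.exp (-(2 * R / L * u)) ≤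
        hT K * nprim 𝔮 * (DIR (kk κ T) (QK 𝔮) S a η L (1 / 2 - R / L) U +
          DUAL (kk κ T.star) (QK 𝔮) S a η L (1 / 2 - R / L) U (Real.log (cond 𝔮))) +
        C * (2 ^ (QK 𝔮).card * ((L + Real.exp (L - U)) * (∑ m ∈ S, |a m|) ^ 2 +
          Real.exp U * (∑ m ∈ S, |a m| / nm (NK K) m) ^ 2)) := by
  obtain ⟨C1, hC1, H1⟩ := direct_int κ hκ T η R hR
  obtain ⟨C2, hC2, H2⟩ := dual_int κ hκ T η R hR
  refine ⟨C1 + C2, by positivity, fun 𝔮 h𝔮 h𝔮' E hE S a hS L U hL hLN hU hUL hSL => ?_⟩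
  have h1 := H1 𝔮 h𝔮 h𝔮' E hE S a hS L U hL hU hUL hSL
  have h2 := H2 𝔮 h𝔮 h𝔮' E hE S a hS L U hL hLN hU hUL hSL
  have h3 : ∑ t ∈ E, ∫ u : ℝ, ‖EM κ t.lam T t.ψ S a η L u‖ ^ 2 *
      Real.exp (-(2 * R / L * u)) =
      (∑ t ∈ E, ∫ u in Set.Ioi (-U), ‖EM κ t.lam T t.ψ S a η L u‖ ^ 2 *
          Real.exp (-(2 * R / L * u))) +
      ∑ t ∈ E, ∫ u in Set.Iic (-U), ‖EM κ t.lam T t.ψ S a η L u‖ ^ 2 *
          Real.exp (-(2 * R / L * u)) := by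
    rw [← Finset.sum_add_distrib]
    refine Finset.sum_congr rfl fun t ht => ?_
    have hi := mg5_int (mg5_hd h𝔮 h𝔮' hκ (hE t ht)) T S a η hL hR
    rw [add_comm, ← setIntegral_union (Set.Iic_disjoint_Ioi le_rfl) measurableSet_Ioi
      hi.integrableOn hi.integrableOn, Set.Iic_union_Ioi, setIntegral_univ]
  rw [h3]
  have hA : 0 ≤ (∑ m ∈ S, |a m|) ^ 2 := by positivity
  have hB : 0 ≤ Real.exp U * (∑ m ∈ S, |a m| / nm (NK K) m) ^ 2 := by positivity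
  have hw : (0 : ℝ) ≤ 2 ^ (QK 𝔮).card := by positivity
  have e1 : L * (∑ m ∈ S, |a m|) ^ 2 ≤ (L + Real.exp (L - U)) * (∑ m ∈ S, |a m|) ^ 2 :=
    mul_le_mul_of_nonneg_right (by linarith [Real.exp_pos (L - U)]) hA
  have e2 : C1 * (2 ^ (QK 𝔮).card * (L * (∑ m ∈ S, |a m|) ^ 2 +
      Real.exp U * (∑ m ∈ S, |a m| / nm (NK K) m) ^ 2)) ≤
      C1 * (2 ^ (QK 𝔮).card * ((L + Real.exp (L - U)) * (∑ m ∈ S, |a m|) ^ 2 +
          Real.exp U * (∑ m ∈ S, |a m| / nm (NK K) m) ^ 2)) :=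
    mul_le_mul_of_nonneg_left (mul_le_mul_of_nonneg_left (by linarith) hw) hC1
  have e3 : C2 * (2 ^ (QK 𝔮).card * ((L + Real.exp (L - U)) * (∑ m ∈ S, |a m|) ^ 2)) ≤
      C2 * (2 ^ (QK 𝔮).card * ((L + Real.exp (L - U)) * (∑ m ∈ S, |a m|) ^ 2 +
          Real.exp U * (∑ m ∈ S, |a m| / nm (NK K) m) ^ 2)) :=
    mul_le_mul_of_nonneg_left (mul_le_mul_of_nonneg_left (by linarith) hw) hC2
  calc _ ≤ _ := add_le_add h1 h2
    _ ≤ _ := by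
      rw [mul_add (hT K * nprim 𝔮), add_mul C1 C2]
      linarith


end Pool.Agent.LVK

namespace Pool.Agent.LVK

theorem mean_EM : type_of% @mean_EM_pr := @mean_EM_pr

end Pool.Agent.LVK
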