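import Pool.Agent.Lib_helper42.LVK.Defs
import Pool.Agent.Lib_helper41.HZF.YB
import Pool.Agent.Lib_helper41.HZF.KG
import Pool.Agent.Lib_helper92.KSA.BRG
import Pool.Agent.Lib_helper92.KSA.LATU
import Pool.Agent.Lib_helper92.KSA.LNZ
import Pool.Agent.Lib_helper41.HZF.SUM
import Pool.Agent.Lib_helper92.ASA.BAS
import Pool.Agent.Lib_helper39.LVX.K_MG1

/-! LVK, block MH1: the diagonal on a line far to the right -/

namespace Pool.Agent.LVK

open NumberField NumberField.InfinitePlace NumberField.Units Complex MeasureTheory Filter Topology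
open Pool.Agent.HZ Pool.Agent.AS Pool.Agent.KS

variable {K : Type} [Field K] [NumberField K]

theorem mh1_nm_pos (g : PK K →₀ ℕ) : 0 < nm (NK K) g := nm_pos two_le_NK g

theorem mh1_one_le (g : PK K →₀ ℕ) : (1 : ℝ) ≤ (nm (NK K) g : ℝ) := by
  exact_mod_cast mh1_nm_pos g

theorem mh1_lK_nonneg (g : PK K →₀ ℕ) : 0 ≤ lK g := Real.log_nonneg (mh1_one_le g)

theorem mh1_lK_mono {g h : PK K →₀ ℕ} (hgh : g ≤ h) : lK g ≤ lK h := by
  unfold lK
  refine Real.log_le_log (by linarith [mh1_one_le g]) ?_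
  exact_mod_cast nm_le two_le_NK hgh

theorem mh1_bet_nonneg (S : Finset (PK K →₀ ℕ)) (a : (PK K →₀ ℕ) → ℝ) {L : ℝ} (hL : 0 < L)
    (g : PK K →₀ ℕ) : 0 ≤ bet S a L g := by
  unfold bet
  have h1 : 0 ≤ (1 + lK g) / L := div_nonneg (by linarith [mh1_lK_nonneg g]) hL.le
  refine add_nonneg (abs_nonneg _) (mul_nonneg h1 (Finset.sum_nonneg fun m _ => ?_))
  split_ifs
  · exact abs_nonneg _
  · exact le_rfl

theorem bS_le_pr (S : Finset (PK K →₀ ℕ)) (a : (PK K →₀ ℕ) → ℝ) (η : ℝ) {L : ℝ} (hL : 1 ≤ L)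
    (v : ℝ) (g : PK K →₀ ℕ) :
    |bS S a η L (v - lK g) g| ≤ (1 + 2 * |η|) * (1 + |v|) * bet S a L g := by
  classical
  have hL0 : 0 < L := by linarith
  set A : ℝ := ∑ m ∈ S, if m ≤ g then a m else 0 with hA
  set B : ℝ := ∑ m ∈ S, if m ≤ g then |a m| else 0 with hB
  have hB0 : 0 ≤ B := Finset.sum_nonneg fun m _ => by
    split_ifs
    · exact abs_nonneg _
    · exact le_rfl
  have hbet : bet S a L g = |A| + (1 + lK g) / L * B := by
    unfold bet
    rw [hA, hB]
  have hg := mh1_lK_nonneg g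
  have h1 : bS S a η L (v - lK g) g = (1 + η * v / L) * A +
      η / L * ∑ m ∈ S, if m ≤ g then a m * (lK m - lK g) else 0 := by
    unfold bS
    rw [hA, Finset.mul_sum, Finset.mul_sum, ← Finset.sum_add_distrib]
    refine Finset.sum_congr rfl fun m _ => ?_
    split_ifs
    · ring
    · ring
  have h2 : |∑ m ∈ S, if m ≤ g then a m * (lK m - lK g) else 0| ≤ lK g * B := by
    refine (Finset.abs_sum_le_sum_abs _ _).trans ?_
    rw [hB, Finset.mul_sum]
    refine Finset.sum_le_sum fun m _ => ?_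
    split_ifs with hm
    · rw [abs_mul, mul_comm]
      refine mul_le_mul_of_nonneg_right ?_ (abs_nonneg _)
      have h3 := mh1_lK_mono hm
      have h4 := mh1_lK_nonneg m
      rw [abs_le]
      constructor <;> linarith
    · simp
  rw [h1, hbet]
  have hη := abs_nonneg η
  have hv := abs_nonneg v
  have hA0 := abs_nonneg A
  have h3 : |1 + η * v / L| ≤ (1 + 2 * |η|) * (1 + |v|) := by
    have h4 : |η * v / L| ≤ |η| * |v| := by
      rw [abs_div, abs_mul, abs_of_pos hL0]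
      exact div_le_self (by positivity) hL
    have h5 := abs_add_le 1 (η * v / L)
    rw [abs_one] at h5
    nlinarith [mul_nonneg hη hv]
  have h6 : |η / L| * (lK g * B) ≤ (1 + 2 * |η|) * (1 + |v|) * ((1 + lK g) / L * B) := by
    rw [abs_div, abs_of_pos hL0]
    have e1 : |η| / L * (lK g * B) = |η| * (lK g / L * B) := by ring
    rw [e1]
    have h7 : lK g / L * B ≤ (1 + lK g) / L * B := by
      refine mul_le_mul_of_nonneg_right ?_ hB0
      exact div_le_div_of_nonneg_right (by linarith) hL0.le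
    have h8 : 0 ≤ (1 + lK g) / L * B := mul_nonneg (div_nonneg (by linarith) hL0.le) hB0
    have h9 : |η| ≤ (1 + 2 * |η|) * (1 + |v|) := by nlinarith [mul_nonneg hη hv]
    calc |η| * (lK g / L * B) ≤ |η| * ((1 + lK g) / L * B) :=
          mul_le_mul_of_nonneg_left h7 hη
      _ ≤ (1 + 2 * |η|) * (1 + |v|) * ((1 + lK g) / L * B) :=
          mul_le_mul_of_nonneg_right h9 h8
  calc |(1 + η * v / L) * A + η / L * ∑ m ∈ S, if m ≤ g then a m * (lK m - lK g) else 0|
      ≤ |(1 + η * v / L) * A| +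
        |η / L * ∑ m ∈ S, if m ≤ g then a m * (lK m - lK g) else 0| := abs_add_le _ _
    _ = |1 + η * v / L| * |A| +
        |η / L| * |∑ m ∈ S, if m ≤ g then a m * (lK m - lK g) else 0| := by
        rw [abs_mul, abs_mul]
    _ ≤ (1 + 2 * |η|) * (1 + |v|) * |A| + |η / L| * (lK g * B) :=
        add_le_add (mul_le_mul_of_nonneg_right h3 hA0)
          (mul_le_mul_of_nonneg_left h2 (abs_nonneg _))
    _ ≤ (1 + 2 * |η|) * (1 + |v|) * |A| +
        (1 + 2 * |η|) * (1 + |v|) * ((1 + lK g) / L * B) := by linarith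
    _ = _ := by ring

theorem mh1_summable : Summable fun g : PK K →₀ ℕ => (nm (NK K) g : ℝ) ^ (-(3 / 2 : ℝ)) := by
  have h1 := ideal_summable (K := K) (A := 3 / 2) (by norm_num)
  have h2 := (summable_IK (K := K) (fun 𝔠 => (Ideal.absNorm 𝔠 : ℝ) ^ (-(3 / 2 : ℝ))) (by
    simp only [Ideal.absNorm_bot, Nat.cast_zero]
    exact Real.zero_rpow (by norm_num))).1.mp h1
  refine h2.congr fun g => ?_
  rw [absNorm_IK]

open scoped Classical in
theorem mh1_le (S : Finset (PK K →₀ ℕ)) (a : (PK K →₀ ℕ) → ℝ) {L : ℝ} (hL : 1 ≤ L)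
    (Q : Finset (PK K)) (g : PK K →₀ ℕ) :
    0 ≤ (if g ≠ 0 ∧ Cop Q g then ((nm (NK K) g : ℝ)⁻¹) ^ 2 * bet S a L g else 0) ∧
    (if g ≠ 0 ∧ Cop Q g then ((nm (NK K) g : ℝ)⁻¹) ^ 2 * bet S a L g else 0) ≤
      (4 * ∑ m ∈ S, |a m|) * (nm (NK K) g : ℝ) ^ (-(3 / 2 : ℝ)) := by
  have hL0 : 0 < L := by linarith
  have hn := mh1_one_le g
  have hn0 : (0 : ℝ) < (nm (NK K) g : ℝ) := by linarith
  have hb := mh1_bet_nonneg S a hL0 g
  have hA0 : 0 ≤ ∑ m ∈ S, |a m| := Finset.sum_nonneg fun m _ => abs_nonneg _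
  have hlog : lK g ≤ 2 * (nm (NK K) g : ℝ) ^ (1 / 2 : ℝ) := by
    unfold lK
    have := Real.log_le_rpow_div hn0.le (show (0 : ℝ) < 1 / 2 by norm_num)
    linarith
  have hr1 : 1 ≤ (nm (NK K) g : ℝ) ^ (1 / 2 : ℝ) := Real.one_le_rpow hn (by norm_num)
  have hbet : bet S a L g ≤ (4 * ∑ m ∈ S, |a m|) * (nm (NK K) g : ℝ) ^ (1 / 2 : ℝ) := by
    unfold bet
    have h1 : |∑ m ∈ S, if m ≤ g then a m else 0| ≤ ∑ m ∈ S, |a m| := by
      refine (Finset.abs_sum_le_sum_abs _ _).trans (Finset.sum_le_sum fun m _ => ?_)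
      split_ifs
      · exact le_rfl
      · simp
    have h2 : (∑ m ∈ S, if m ≤ g then |a m| else 0) ≤ ∑ m ∈ S, |a m| := by
      refine Finset.sum_le_sum fun m _ => ?_
      split_ifs
      · exact le_rfl
      · exact abs_nonneg _
    have h3 : (1 + lK g) / L ≤ 1 + lK g := div_le_self (by linarith [mh1_lK_nonneg g]) hL
    have h4 : 0 ≤ (1 + lK g) / L := div_nonneg (by linarith [mh1_lK_nonneg g]) hL0.le
    have h5 : (1 + lK g) / L * (∑ m ∈ S, if m ≤ g then |a m| else 0) ≤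
        (1 + lK g) * ∑ m ∈ S, |a m| :=
      (mul_le_mul_of_nonneg_left h2 h4).trans (mul_le_mul_of_nonneg_right h3 hA0)
    have h6 : 2 + lK g ≤ 4 * (nm (NK K) g : ℝ) ^ (1 / 2 : ℝ) := by linarith
    have h7 := mul_le_mul_of_nonneg_right h6 hA0
    linarith
  have hpos : 0 ≤ ((nm (NK K) g : ℝ)⁻¹) ^ 2 := by positivity
  split_ifs
  · refine ⟨mul_nonneg hpos hb, ?_⟩
    have e1 : ((nm (NK K) g : ℝ)⁻¹) ^ 2 * (nm (NK K) g : ℝ) ^ (1 / 2 : ℝ) =
        (nm (NK K) g : ℝ) ^ (-(3 / 2 : ℝ)) := by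
      have e2 : ((nm (NK K) g : ℝ)⁻¹) ^ 2 = (nm (NK K) g : ℝ) ^ (-2 : ℝ) := by
        rw [Real.rpow_neg hn0.le, inv_pow]
        norm_num
      rw [e2, ← Real.rpow_add hn0]
      norm_num
    calc ((nm (NK K) g : ℝ)⁻¹) ^ 2 * bet S a L g
        ≤ ((nm (NK K) g : ℝ)⁻¹) ^ 2 *
          ((4 * ∑ m ∈ S, |a m|) * (nm (NK K) g : ℝ) ^ (1 / 2 : ℝ)) :=
          mul_le_mul_of_nonneg_left hbet hpos
      _ = (4 * ∑ m ∈ S, |a m|) *
          (((nm (NK K) g : ℝ)⁻¹) ^ 2 * (nm (NK K) g : ℝ) ^ (1 / 2 : ℝ)) := by ring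
      _ = _ := by rw [e1]
  · exact ⟨le_rfl, by positivity⟩

open scoped Classical in
theorem bet_summable_pr (S : Finset (PK K →₀ ℕ)) (a : (PK K →₀ ℕ) → ℝ) {L : ℝ} (hL : 1 ≤ L)
    (Q : Finset (PK K)) :
    Summable fun g : PK K →₀ ℕ => if g ≠ 0 ∧ Cop Q g then
      ((nm (NK K) g : ℝ)⁻¹) ^ 2 * bet S a L g else 0 :=
  Summable.of_nonneg_of_le (fun g => (mh1_le S a hL Q g).1) (fun g => (mh1_le S a hL Q g).2)
    (mh1_summable.mul_left _)

/-- a sum of squares is at most the square of the sum -/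
theorem mh1_sq {ι : Type} {f : ι → ℝ} (h0 : ∀ i, 0 ≤ f i) (hf : Summable f) :
    Summable (fun i => f i ^ 2) ∧ ∑' i, f i ^ 2 ≤ (∑' i, f i) ^ 2 := by
  have h1 : ∀ i, f i ^ 2 ≤ (∑' i, f i) * f i := fun i => by
    rw [pow_two]
    exact mul_le_mul_of_nonneg_right (hf.le_tsum i fun j _ => h0 j) (h0 i)
  have h2 : Summable (fun i => f i ^ 2) :=
    Summable.of_nonneg_of_le (fun i => sq_nonneg _) h1 (hf.mul_left _)
  refine ⟨h2, ?_⟩
  calc ∑' i, f i ^ 2 ≤ ∑' i, (∑' i, f i) * f i := h2.tsum_le_tsum h1 (hf.mul_left _)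
    _ = (∑' i, f i) ^ 2 := by rw [tsum_mul_left, pow_two]

/-- integrability of a sum of nonnegative functions -/
theorem mh1_tsum {ι : Type} [Countable ι] {F : ι → ℝ → ℝ} (h0 : ∀ i u, 0 ≤ F i u)
    (hF : ∀ i, Integrable (F i)) {b : ι → ℝ} (hb : Summable b) (hle : ∀ i, ∫ u, F i u ≤ b i) :
    Integrable (fun u => ∑' i, F i u) ∧ ∫ u, ∑' i, F i u ≤ ∑' i, b i := by
  have hb0 : ∀ i, 0 ≤ b i := fun i => (integral_nonneg fun u => h0 i u).trans (hle i)
  have hs : Summable fun i => ∫ u, F i u :=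
    Summable.of_nonneg_of_le (fun i => integral_nonneg fun u => h0 i u) hle hb
  have hs' : Summable fun i => ∫ u, ‖F i u‖ := by
    refine hs.congr fun i => ?_
    refine integral_congr_ae (ae_of_all _ fun u => ?_)
    simp only [Real.norm_of_nonneg (h0 i u)]
  have hint := hasSum_integral_of_summable_integral_norm hF hs'
  refine ⟨?_, ?_⟩
  · have hm : ∀ i, AEMeasurable (fun u => ENNReal.ofReal (F i u)) volume := fun i =>
      (hF i).aestronglyMeasurable.aemeasurable.ennreal_ofReal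
    have h1 : ∫⁻ u, ∑' i, ENNReal.ofReal (F i u) < ⊤ := by
      rw [lintegral_tsum hm]
      have h2 : ∀ i, ∫⁻ u, ENNReal.ofReal (F i u) = ENNReal.ofReal (∫ u, F i u) := fun i =>
        (ofReal_integral_eq_lintegral_ofReal (hF i) (ae_of_all _ fun u => h0 i u)).symm
      simp_rw [h2]
      rw [← ENNReal.ofReal_tsum_of_nonneg (fun i => integral_nonneg fun u => h0 i u) hs]
      exact ENNReal.ofReal_lt_top
    have h3 : ∀ᵐ u : ℝ, ∑' i, ENNReal.ofReal (F i u) < ⊤ :=
      ae_lt_top' (AEMeasurable.tsum hm) h1.ne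
    have h4 : ∀ᵐ u : ℝ, (∑' i, F i u) = (∑' i, ENNReal.ofReal (F i u)).toReal := by
      filter_upwards [h3] with u hu
      rw [ENNReal.tsum_toReal_eq (fun i => ENNReal.ofReal_ne_top)]
      exact tsum_congr fun i => (ENNReal.toReal_ofReal (h0 i u)).symm
    have h5 : Integrable (fun u => (∑' i, ENNReal.ofReal (F i u)).toReal) :=
      integrable_toReal_of_lintegral_ne_top (AEMeasurable.tsum hm) h1.ne
    exact h5.congr (h4.mono fun u hu => hu.symm)
  · rw [← hint.tsum_eq]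
    exact hs.tsum_le_tsum hle hb

theorem mh1_exp_abs : Integrable (fun v : ℝ => Real.exp (-(1 / 2) * |v|)) := by
  rw [← integrableOn_univ, ← Set.Iic_union_Ioi (a := (0 : ℝ))]
  refine IntegrableOn.union ?_ ?_
  · refine (integrableOn_exp_mul_Iic (show (0 : ℝ) < 1 / 2 by norm_num) 0).congr_fun
      (fun v hv => ?_) measurableSet_Iic
    dsimp only
    rw [abs_of_nonpos hv]
    congr 1
    ring
  · refine (exp_neg_integrableOn_Ioi 0 (show (0 : ℝ) < 1 / 2 by norm_num)).congr_fun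
      (fun v hv => ?_) measurableSet_Ioi
    dsimp only
    rw [abs_of_pos hv]

/-- the weight of the integral over one `g` -/
theorem mh1_weight (κ : InfinitePlace K → ℤ) (T : TD K) {σ : ℝ} (hσ : 2 ≤ σ) :
    Integrable (fun v : ℝ => Real.exp (2 * σ * v) * ((1 + |v|) ^ 2 * kk κ T v)) := by
  obtain ⟨C₁, hC₁, h1⟩ := kk_decay κ T (A := 2 * σ + 1) (by linarith)
  obtain ⟨C₂, hC₂, h2⟩ := kk_decay κ T (A := 2 * σ - 1) (by linarith)
  have hcont := kk_continuous κ T
  have hbd : ∀ v : ℝ, Real.exp (2 * σ * v) * ((1 + |v|) ^ 2 * kk κ T v) ≤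
      (8 * (C₁ + C₂) * Real.exp (1 / 2)) * Real.exp (-(1 / 2) * |v|) := by
    intro v
    have h3 : (1 + |v|) ^ 2 ≤ 8 * Real.exp (1 / 2) * Real.exp ((1 / 2) * |v|) := by
      have h4 : (1 + |v|) / 2 ≤ Real.exp ((1 + |v|) / 2) := by
        have := Real.add_one_le_exp ((1 + |v|) / 2)
        linarith
      have h5 := Real.quadratic_le_exp_of_nonneg (x := (1 + |v|) / 2) (by positivity)
      rw [mul_assoc, ← Real.exp_add]
      have e1 : (1 / 2 + 1 / 2 * |v| : ℝ) = (1 + |v|) / 2 := by ring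
      rw [e1]
      have h6 : 0 ≤ |v| := abs_nonneg v
      nlinarith
    have h7 : Real.exp (2 * σ * v) * kk κ T v ≤ (C₁ + C₂) * Real.exp (-|v|) := by
      rcases le_total 0 v with hv | hv
      · rw [abs_of_nonneg hv]
        calc Real.exp (2 * σ * v) * kk κ T v
            ≤ Real.exp (2 * σ * v) * (C₁ * Real.exp (-((2 * σ + 1) * v))) :=
              mul_le_mul_of_nonneg_left (h1 v) (Real.exp_pos _).le
          _ = C₁ * Real.exp (-v) := by
              rw [mul_left_comm, ← Real.exp_add]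
              congr 2
              ring
          _ ≤ _ := mul_le_mul_of_nonneg_right (by linarith) (Real.exp_pos _).le
      · rw [abs_of_nonpos hv]
        calc Real.exp (2 * σ * v) * kk κ T v
            ≤ Real.exp (2 * σ * v) * (C₂ * Real.exp (-((2 * σ - 1) * v))) :=
              mul_le_mul_of_nonneg_left (h2 v) (Real.exp_pos _).le
          _ = C₂ * Real.exp (-(-v)) := by
              rw [mul_left_comm, ← Real.exp_add]
              congr 2
              ring
          _ ≤ _ := mul_le_mul_of_nonneg_right (by linarith) (Real.exp_pos _).le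
    calc Real.exp (2 * σ * v) * ((1 + |v|) ^ 2 * kk κ T v)
        = (1 + |v|) ^ 2 * (Real.exp (2 * σ * v) * kk κ T v) := by ring
      _ ≤ (8 * Real.exp (1 / 2) * Real.exp ((1 / 2) * |v|)) * ((C₁ + C₂) * Real.exp (-|v|)) :=
          mul_le_mul h3 h7 (mul_nonneg (Real.exp_pos _).le (kk_nonneg κ T v)) (by positivity)
      _ = (8 * (C₁ + C₂) * Real.exp (1 / 2)) * (Real.exp ((1 / 2) * |v|) * Real.exp (-|v|)) := by
          ring
      _ = _ := by
          rw [← Real.exp_add]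
          congr 2
          ring
  have hI : Integrable (fun v : ℝ => (8 * (C₁ + C₂) * Real.exp (1 / 2)) *
      Real.exp (-(1 / 2) * |v|)) :=
    mh1_exp_abs.const_mul _
  refine Integrable.mono' hI ?_ (ae_of_all _ fun v => ?_)
  · exact (by fun_prop : Continuous fun v : ℝ =>
      Real.exp (2 * σ * v) * ((1 + |v|) ^ 2 * kk κ T v)).aestronglyMeasurable
  · rw [Real.norm_of_nonneg (mul_nonneg (Real.exp_pos _).le
      (mul_nonneg (by positivity) (kk_nonneg κ T v)))]
    exact hbd v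

open scoped Classical in
theorem diag_right_pr (κ : InfinitePlace K → ℤ) (T : TD K) (η : ℝ) {σ : ℝ} (hσ : 2 ≤ σ) :
    ∃ C : ℝ, 0 ≤ C ∧ ∀ (Q : Finset (PK K)) (S : Finset (PK K →₀ ℕ))
      (a : (PK K →₀ ℕ) → ℝ) (L : ℝ), 1 ≤ L →
      Integrable (fun u : ℝ => Real.exp (2 * σ * u) * ∑' g : PK K →₀ ℕ,
        if g ≠ 0 ∧ Cop Q g then bS S a η L u g ^ 2 * kk κ T (u + lK g) else 0) ∧
      ∫ u : ℝ, Real.exp (2 * σ * u) * ∑' g : PK K →₀ ℕ,
        (if g ≠ 0 ∧ Cop Q g then bS S a η L u g ^ 2 * kk κ T (u + lK g) else 0) ≤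
      C * (∑' g : PK K →₀ ℕ, (if g ≠ 0 ∧ Cop Q g then
        ((nm (NK K) g : ℝ)⁻¹) ^ 2 * bet S a L g else 0)) ^ 2 := by
  have hW := mh1_weight κ T hσ
  set W : ℝ := ∫ v : ℝ, Real.exp (2 * σ * v) * ((1 + |v|) ^ 2 * kk κ T v) with hWdef
  have hW0 : 0 ≤ W := integral_nonneg fun v =>
    mul_nonneg (Real.exp_pos _).le (mul_nonneg (by positivity) (kk_nonneg κ T v))
  have hkc := kk_continuous κ T
  refine ⟨(1 + 2 * |η|) ^ 2 * W, by positivity, fun Q S a L hL => ?_⟩
  have hL0 : 0 < L := by linarith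
  set β : (PK K →₀ ℕ) → ℝ := fun g => if g ≠ 0 ∧ Cop Q g then
      ((nm (NK K) g : ℝ)⁻¹) ^ 2 * bet S a L g else 0 with hβ
  have hβ0 : ∀ g, 0 ≤ β g := fun g => (mh1_le S a hL Q g).1
  have hβs : Summable β := bet_summable_pr S a hL Q
  obtain ⟨hq1, hq2⟩ := mh1_sq hβ0 hβs
  have hbSc : ∀ g : PK K →₀ ℕ, Continuous fun u => bS S a η L u g := by
    intro g
    unfold bS
    refine continuous_finsetSum _ fun m _ => ?_
    split_ifs
    · fun_prop
    · exact continuous_const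
  set F : (PK K →₀ ℕ) → ℝ → ℝ := fun g u => Real.exp (2 * σ * u) *
    (if g ≠ 0 ∧ Cop Q g then bS S a η L u g ^ 2 * kk κ T (u + lK g) else 0) with hF
  have hF0 : ∀ g u, 0 ≤ F g u := by
    intro g u
    rw [hF]
    dsimp only
    split_ifs
    · exact mul_nonneg (Real.exp_pos _).le (mul_nonneg (sq_nonneg _) (kk_nonneg κ T _))
    · simp
  -- the bound in the shifted variable
  have hsh : ∀ (g : PK K →₀ ℕ) (v : ℝ), F g (v - lK g) ≤ ((1 + 2 * |η|) ^ 2 * β g ^ 2) *
      (Real.exp (2 * σ * v) * ((1 + |v|) ^ 2 * kk κ T v)) := by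
    intro g v
    rw [hF, hβ]
    dsimp only
    split_ifs with hg
    · have hn := mh1_one_le g
      have hn0 : (0 : ℝ) < (nm (NK K) g : ℝ) := by linarith
      have h1 : bS S a η L (v - lK g) g ^ 2 ≤ ((1 + 2 * |η|) * (1 + |v|) * bet S a L g) ^ 2 := by
        rw [← sq_abs]
        exact pow_le_pow_left₀ (abs_nonneg _) (bS_le_pr S a η hL v g) 2
      have h2 : Real.exp (2 * σ * (v - lK g)) ≤
          Real.exp (2 * σ * v) * (((nm (NK K) g : ℝ)⁻¹) ^ 2) ^ 2 := by
        have e1 : Real.exp (2 * σ * (v - lK g)) =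
            Real.exp (2 * σ * v) * Real.exp (-(2 * σ * lK g)) := by
          rw [← Real.exp_add]
          congr 1
          ring
        have e2 : (((nm (NK K) g : ℝ)⁻¹) ^ 2) ^ 2 = Real.exp (-(4 * lK g)) := by
          have e3 : (nm (NK K) g : ℝ)⁻¹ = Real.exp (-lK g) := by
            unfold lK
            rw [Real.exp_neg, Real.exp_log hn0]
          rw [e3, ← Real.exp_nat_mul, ← Real.exp_nat_mul]
          congr 1
          push_cast
          ring
        rw [e1, e2]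
        refine mul_le_mul_of_nonneg_left (Real.exp_le_exp.2 ?_) (Real.exp_pos _).le
        nlinarith [mh1_lK_nonneg g]
      have e4 : v - lK g + lK g = v := by ring
      rw [e4]
      have hk := kk_nonneg κ T v
      calc Real.exp (2 * σ * (v - lK g)) * (bS S a η L (v - lK g) g ^ 2 * kk κ T v)
          ≤ (Real.exp (2 * σ * v) * (((nm (NK K) g : ℝ)⁻¹) ^ 2) ^ 2) *
            (((1 + 2 * |η|) * (1 + |v|) * bet S a L g) ^ 2 * kk κ T v) :=
            mul_le_mul h2 (mul_le_mul_of_nonneg_right h1 hk)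
              (mul_nonneg (sq_nonneg _) hk) (by positivity)
        _ = _ := by ring
    · simp
  have hFsh : ∀ g : PK K →₀ ℕ, Integrable (fun v => F g (v - lK g)) := by
    intro g
    refine Integrable.mono' (hW.const_mul ((1 + 2 * |η|) ^ 2 * β g ^ 2)) ?_
      (ae_of_all _ fun v => ?_)
    · refine Continuous.aestronglyMeasurable ?_
      rw [hF]
      dsimp only
      split_ifs
      · have := hbSc g
        fun_prop
      · fun_prop
    · rw [Real.norm_of_nonneg (hF0 g _)]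
      exact hsh g v
  have hFi : ∀ g, Integrable (F g) := by
    intro g
    have h1 := (hFsh g).comp_add_right (lK g)
    refine h1.congr (ae_of_all _ fun u => ?_)
    simp only [add_sub_cancel_right]
  have hFle : ∀ g, ∫ u, F g u ≤ (1 + 2 * |η|) ^ 2 * W * β g ^ 2 := by
    intro g
    have h1 : ∫ u, F g u = ∫ v, F g (v - lK g) := (integral_sub_right_eq_self _ _).symm
    rw [h1]
    calc ∫ v, F g (v - lK g) ≤ ∫ v, ((1 + 2 * |η|) ^ 2 * β g ^ 2) *
          (Real.exp (2 * σ * v) * ((1 + |v|) ^ 2 * kk κ T v)) :=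
          integral_mono (hFsh g) (hW.const_mul _) (hsh g)
      _ = ((1 + 2 * |η|) ^ 2 * β g ^ 2) * W := integral_const_mul _ _
      _ = _ := by ring
  have hcount : Countable (PK K →₀ ℕ) := by
    have h1 := mh1_summable (K := K)
    have h2 := h1.countable_support
    have h3 : Function.support (fun g : PK K →₀ ℕ => (nm (NK K) g : ℝ) ^ (-(3 / 2 : ℝ))) =
        Set.univ := by
      ext g
      simp only [Function.mem_support, Set.mem_univ, iff_true]
      exact (Real.rpow_pos_of_pos (by linarith [mh1_one_le g]) _).ne'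
    rw [h3] at h2
    exact Set.countable_univ_iff.1 h2
  obtain ⟨hI, hle⟩ := mh1_tsum hF0 hFi (hq1.mul_left ((1 + 2 * |η|) ^ 2 * W)) hFle
  have heq : ∀ u : ℝ, ∑' g, F g u = Real.exp (2 * σ * u) * ∑' g : PK K →₀ ℕ,
      (if g ≠ 0 ∧ Cop Q g then bS S a η L u g ^ 2 * kk κ T (u + lK g) else 0) := by
    intro u
    rw [hF]
    dsimp only
    rw [tsum_mul_left]
  simp_rw [heq] at hI hle
  refine ⟨hI, hle.trans ?_⟩
  rw [tsum_mul_left]
  exact mul_le_mul_of_nonneg_left hq2 (by positivity)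

end Pool.Agent.LVK

namespace Pool.Agent.LVK

theorem bS_le : type_of% @bS_le_pr := @bS_le_pr
theorem bet_summable : type_of% @bet_summable_pr := @bet_summable_pr
theorem diag_right : type_of% @diag_right_pr := @diag_right_pr

end Pool.Agent.LVK
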