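import Pool.Agent.Lib_helper42.LVK.Defs
import Pool.Agent.Lib_helper41.HZF.YB
import Pool.Agent.Lib_helper41.HZF.KG
import Pool.Agent.Lib_helper92.KSA.BRG
import Pool.Agent.Lib_helper92.KSA.LATU
import Pool.Agent.Lib_helper92.KSA.LNZ
import Pool.Agent.Lib_helper39.LVX.K_MA3B
import Pool.Agent.Lib_helper39.LVX.K_MF1
import Pool.Agent.Lib_helper39.LVX.K_MF3
import Pool.Agent.Lib_helper39.LVX.K_MG3A
import Pool.Agent.Lib_helper39.LVX.K_MH1

/-!
# LVK part M, block MH2A: the mean square on a line far to the right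
-/

namespace Pool.Agent.LVK

open NumberField NumberField.InfinitePlace NumberField.Units Complex MeasureTheory Filter Topology
open Pool.Agent.HZ Pool.Agent.AS Pool.Agent.KS

variable {K : Type} [Field K] [NumberField K]

theorem mh2a_lK_nonneg (g : PK K →₀ ℕ) : 0 ≤ lK g := Real.log_natCast_nonneg _

theorem mh2a_lK_zero : lK (0 : PK K →₀ ℕ) = 0 := by
  unfold lK
  rw [← absNorm_IK, IK_zero, Ideal.absNorm_top, Nat.cast_one, Real.log_one]

theorem mh2a_log_pos {𝔠 : Ideal (𝓞 K)} (h : 𝔠 ≠ ⊥) (h' : 𝔠 ≠ ⊤) :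
    0 < Real.log (Ideal.absNorm 𝔠) := by
  apply Real.log_pos
  have h1 : Ideal.absNorm 𝔠 ≠ 0 := fun e => h (Ideal.absNorm_eq_zero_iff.1 e)
  have h2 : Ideal.absNorm 𝔠 ≠ 1 := fun e => h' (Ideal.absNorm_eq_one_iff.1 e)
  have : 1 < Ideal.absNorm 𝔠 := by omega
  exact_mod_cast this

theorem mh2a_lK_pos {g : PK K →₀ ℕ} (h : g ≠ 0) : 0 < lK g := by
  unfold lK
  rw [← absNorm_IK]
  refine mh2a_log_pos (IK_ne_bot g) fun e => h (IK_inj ?_)
  rw [e, IK_zero]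

open scoped Classical in
theorem mh2a_diag {𝔮 : Ideal (𝓞 K)} (h𝔮 : 𝔮 ≠ ⊥) (k : ℝ → ℝ) (S : Finset (PK K →₀ ℕ))
    (a : (PK K →₀ ℕ) → ℝ) (η L u : ℝ) :
    ∑' 𝔠 : Ideal (𝓞 K), ‖(if 𝔠 = ⊤ then (0 : ℂ) else bcf 𝔮 S a η L u 𝔠)‖ ^ 2 *
        k (u + Real.log (Ideal.absNorm 𝔠)) =
      ∑' g : PK K →₀ ℕ, (if g ≠ 0 ∧ Cop (QK 𝔮) g then bS S a η L u g ^ 2 * k (u + lK g)
        else 0) := by
  have h := direct_diag h𝔮 (k := fun w => if w = u then 0 else k w) S a η L u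
  have h1 : ∀ 𝔠 : Ideal (𝓞 K), ‖(if 𝔠 = ⊤ then (0 : ℂ) else bcf 𝔮 S a η L u 𝔠)‖ ^ 2 *
        k (u + Real.log (Ideal.absNorm 𝔠)) = ‖bcf 𝔮 S a η L u 𝔠‖ ^ 2 *
        (if u + Real.log (Ideal.absNorm 𝔠) = u then 0
          else k (u + Real.log (Ideal.absNorm 𝔠))) := by
    intro 𝔠
    by_cases ht : 𝔠 = ⊤
    · rw [if_pos ht, ht, Ideal.absNorm_top]
      simp
    · rw [if_neg ht]
      by_cases hb : 𝔠 = ⊥
      · rw [mg3a_bcf_zero h𝔮 S a η L u 𝔠 (Or.inl hb)]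
        simp
      · have h2 := mh2a_log_pos hb ht
        rw [if_neg (by linarith)]
  have h3 : ∀ g : PK K →₀ ℕ, (if g ≠ 0 ∧ Cop (QK 𝔮) g then bS S a η L u g ^ 2 * k (u + lK g)
        else 0) = (if Cop (QK 𝔮) g then bS S a η L u g ^ 2 *
          (if u + lK g = u then 0 else k (u + lK g)) else 0) := by
    intro g
    by_cases hg : g = 0
    · subst hg
      simp [mh2a_lK_zero]
    · have h2 := mh2a_lK_pos hg
      rw [if_neg (show ¬ (u + lK g = u) by linarith)]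
      simp [hg]
  rw [tsum_congr h1, tsum_congr h3]
  exact h

/-- the pointwise bound -/
theorem mh2a_pt (κ : InfinitePlace K → ℤ)
    (hκ : ∀ w : InfinitePlace K, w.IsReal → κ w = 0 ∨ κ w = 1) (T : TD K) {A : ℝ} (hA : 1 ≤ A) :
    open scoped Classical in
    ∃ C : ℝ, 0 ≤ C ∧ ∀ (𝔮 : Ideal (𝓞 K)) (_ : 𝔮 ≠ ⊥) (_ : 𝔮 ≠ ⊤) (E : Finset (HDat 𝔮))
      (_ : ∀ t ∈ E, t ∈ FamK 𝔮 κ) (S : Finset (PK K →₀ ℕ)) (a : (PK K →₀ ℕ) → ℝ)
      (_ : ∀ m ∈ S, IsCoprime (IK m) 𝔮) (_ : (0 : PK K →₀ ℕ) ∈ S) (_ : a 0 = 1) (η L u : ℝ),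
      ∑ t ∈ E, ‖EM κ t.lam T t.ψ S a η L u - E0 κ t.lam T η L u‖ ^ 2 ≤
        hT K * nprim 𝔮 * (Real.exp u * ∑' g : PK K →₀ ℕ, (if g ≠ 0 ∧ Cop (QK 𝔮) g then
          bS S a η L u g ^ 2 * kk κ T (u + lK g) else 0)) +
        C * (2 ^ (QK 𝔮).card * (Real.exp u * ∑ m ∈ S, ∑ m' ∈ S,
          mg3aA a η L u m * mg3aA a η L u m' *
          (Real.exp (-(A * (u + lK (m ⊓ m')))) * (1 + Real.exp (-(u + lK (m ⊔ m'))))))) := by
  classical
  obtain ⟨C, hC, h⟩ := mg3a_key κ T hA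
  refine ⟨C, hC, fun 𝔮 h𝔮 h𝔮' E hE S a hS h0 ha0 η L u => ?_⟩
  have h1 := h 𝔮 h𝔮 h𝔮' E hE S a hS η L u
    (fun 𝔠 => if 𝔠 = ⊤ then (0 : ℂ) else bcf 𝔮 S a η L u 𝔠) (fun 𝔠 => by
      by_cases ht : 𝔠 = ⊤
      · simp only [ht, if_true, norm_zero]; exact norm_nonneg _
      · simp only [ht, if_false]; exact le_rfl)
  simp only [mh2a_diag h𝔮] at h1
  have h2 : ∀ t ∈ E, ‖EM κ t.lam T t.ψ S a η L u - E0 κ t.lam T η L u‖ ^ 2 = Real.exp u *
      ‖∑' 𝔠 : Ideal (𝓞 K), (if 𝔠 = ⊤ then (0 : ℂ) else bcf 𝔮 S a η L u 𝔠) * t.ψ 𝔠 *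
          kint K (FT κ t.lam T) (u + Real.log (Ideal.absNorm 𝔠))‖ ^ 2 := by
    intro t ht
    rw [EM_E0 (mg3a_hd h𝔮 h𝔮' hκ (hE t ht)) T S a h0 ha0 η L u, norm_mul, mul_pow,
      Complex.norm_real, Real.norm_eq_abs, abs_of_pos (Real.exp_pos _), ← Real.exp_nat_mul]
    congr 2
    push_cast
    ring
  rw [Finset.sum_congr rfl h2, ← Finset.mul_sum]
  refine (mul_le_mul_of_nonneg_left h1 (Real.exp_pos u).le).trans (le_of_eq ?_)
  ring

theorem mh2a_coef (a : (PK K →₀ ℕ) → ℝ) (η : ℝ) {L : ℝ} (hL : 1 ≤ L) (u : ℝ) {m : PK K →₀ ℕ}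
    (hm : lK m ≤ L) : mg3aA a η L u m ≤ |a m| * ((1 + |η|) * (1 + |u|)) := by
  unfold mg3aA
  refine mul_le_mul_of_nonneg_left ?_ (abs_nonneg _)
  have hL0 : 0 < L := by linarith
  rw [abs_of_pos hL0]
  have h1 : |u + lK m| ≤ |u| + L := by
    refine (abs_add_le _ _).trans ?_
    rw [abs_of_nonneg (mh2a_lK_nonneg m)]
    linarith
  have h2 : |u + lK m| / L ≤ |u| + 1 := by
    rw [div_le_iff₀ hL0]
    have : |u| ≤ |u| * L := le_mul_of_one_le_right (abs_nonneg u) hL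
    nlinarith
  have h3 : |η| * |u + lK m| / L ≤ |η| * (|u| + 1) := by
    rw [mul_div_assoc]
    exact mul_le_mul_of_nonneg_left h2 (abs_nonneg η)
  have h4 : 0 ≤ |u| := abs_nonneg u
  nlinarith

theorem mh2a_dbl (S : Finset (PK K →₀ ℕ)) (a : (PK K →₀ ℕ) → ℝ) (η : ℝ) {L : ℝ} (hL : 1 ≤ L)
    (u : ℝ) (hS : ∀ m ∈ S, lK m ≤ L) (w : (PK K →₀ ℕ) → (PK K →₀ ℕ) → ℝ) {W : ℝ}
    (h0 : ∀ m m', 0 ≤ w m m') (hW : ∀ m m', w m m' ≤ W) :
    ∑ m ∈ S, ∑ m' ∈ S, mg3aA a η L u m * mg3aA a η L u m' * w m m' ≤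
      ((1 + |η|) * (1 + |u|)) ^ 2 * (∑ m ∈ S, |a m|) ^ 2 * W := by
  have hW0 : 0 ≤ W := (h0 0 0).trans (hW 0 0)
  calc ∑ m ∈ S, ∑ m' ∈ S, mg3aA a η L u m * mg3aA a η L u m' * w m m'
      ≤ ∑ m ∈ S, ∑ m' ∈ S, (|a m| * ((1 + |η|) * (1 + |u|))) *
          (|a m'| * ((1 + |η|) * (1 + |u|))) * W := by
        refine Finset.sum_le_sum fun m hm => Finset.sum_le_sum fun m' hm' => ?_
        refine mul_le_mul (mul_le_mul (mh2a_coef a η hL u (hS m hm))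
          (mh2a_coef a η hL u (hS m' hm')) (mg3aA_nonneg a η L u m') (by positivity))
          (hW m m') (h0 m m') (by positivity)
    _ = ((1 + |η|) * (1 + |u|)) ^ 2 * (∑ m ∈ S, |a m|) ^ 2 * W := by
        rw [sq (∑ m ∈ S, |a m|), Finset.sum_mul_sum, Finset.mul_sum, Finset.sum_mul]
        refine Finset.sum_congr rfl fun m _ => ?_
        rw [Finset.mul_sum, Finset.sum_mul]
        refine Finset.sum_congr rfl fun m' _ => ?_
        ring

theorem mh2a_exp_int : Integrable (fun u : ℝ => Real.exp (-|u|)) := by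
  have h1 : IntegrableOn (fun u : ℝ => Real.exp (-|u|)) (Set.Iic 0) := by
    refine (integrableOn_exp_Iic 0).congr_fun (fun u hu => ?_) measurableSet_Iic
    simp only [abs_of_nonpos (show u ≤ 0 from hu), neg_neg]
  have h2 : IntegrableOn (fun u : ℝ => Real.exp (-|u|)) (Set.Ioi 0) := by
    refine (integrableOn_exp_neg_Ioi 0).congr_fun (fun u hu => ?_) measurableSet_Ioi
    simp only [abs_of_pos (show 0 < u from hu)]
  have h3 := h1.union h2
  rwa [Set.Iic_union_Ioi, integrableOn_univ] at h3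

theorem mh2a_poly (u : ℝ) : (1 + |u|) ^ 2 * (2 * Real.exp (-(2 * |u|))) ≤
    8 * Real.exp (-|u|) := by
  have h0 : 0 ≤ |u| := abs_nonneg u
  have h1 : 1 + |u| ≤ 2 * Real.exp (|u| / 2) := by
    have := Real.add_one_le_exp (|u| / 2)
    linarith
  have h2 : (1 + |u|) ^ 2 ≤ 4 * Real.exp |u| := by
    calc (1 + |u|) ^ 2 ≤ (2 * Real.exp (|u| / 2)) ^ 2 := pow_le_pow_left₀ (by positivity) h1 2
      _ = 4 * Real.exp |u| := by
        rw [mul_pow, ← Real.exp_nat_mul]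
        norm_num
        ring
  calc (1 + |u|) ^ 2 * (2 * Real.exp (-(2 * |u|)))
      ≤ 4 * Real.exp |u| * (2 * Real.exp (-(2 * |u|))) :=
        mul_le_mul_of_nonneg_right h2 (by positivity)
    _ = 8 * Real.exp (-|u|) := by
        rw [show -|u| = |u| + -(2 * |u|) by ring, Real.exp_add]; ring

open scoped Classical in
theorem mean_right_pr (κ : InfinitePlace K → ℤ)
    (hκ : ∀ w : InfinitePlace K, w.IsReal → κ w = 0 ∨ κ w = 1) (T : TD K) (η : ℝ) {σ : ℝ}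
    (hσ : 2 ≤ σ) :
    ∃ C : ℝ, 0 ≤ C ∧ ∀ (𝔮 : Ideal (𝓞 K)) (_ : 𝔮 ≠ ⊥) (_ : 𝔮 ≠ ⊤) (E : Finset (HDat 𝔮))
      (_ : ∀ t ∈ E, t ∈ FamK 𝔮 κ) (S : Finset (PK K →₀ ℕ)) (a : (PK K →₀ ℕ) → ℝ)
      (_ : ∀ m ∈ S, IsCoprime (IK m) 𝔮) (L : ℝ) (_ : 1 ≤ L) (_ : ∀ m ∈ S, lK m ≤ L)
      (_ : (0 : PK K →₀ ℕ) ∈ S) (_ : a 0 = 1),
      ∑ t ∈ E, ∫ u : ℝ, ‖EM κ t.lam T t.ψ S a η L u - E0 κ t.lam T η L u‖ ^ 2 *
          Real.exp ((2 * σ - 1) * u) ≤
        C * (nprim 𝔮 * (∑' g : PK K →₀ ℕ, (if g ≠ 0 ∧ Cop (QK 𝔮) g then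
          ((nm (NK K) g : ℝ)⁻¹) ^ 2 * bet S a L g else 0)) ^ 2 +
          2 ^ (QK 𝔮).card * (∑ m ∈ S, |a m|) ^ 2) := by
  obtain ⟨C₁, hC₁, H₁⟩ := mh2a_pt κ hκ T (A := 1) le_rfl
  obtain ⟨C₂, hC₂, H₂⟩ := mh2a_pt κ hκ T (A := 2 * σ + 2) (by linarith)
  obtain ⟨C₃, hC₃, H₃⟩ := diag_right κ T η hσ
  have hhT : 0 ≤ hT K := by unfold hT; positivity
  set I₀ : ℝ := ∫ u : ℝ, Real.exp (-|u|) with hI₀
  have hI₀n : 0 ≤ I₀ := integral_nonneg fun u => (Real.exp_pos _).le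
  refine ⟨hT K * C₃ + (C₁ + C₂) * (8 * (1 + |η|) ^ 2) * I₀, by positivity,
    fun 𝔮 h𝔮 h𝔮' E hE S a hS L hL hSL h0 ha0 => ?_⟩
  have hnp : 0 ≤ nprim 𝔮 := by unfold nprim; positivity
  obtain ⟨HI, HB⟩ := H₃ (QK 𝔮) S a L hL
  set G : ℝ → ℝ := fun u => Real.exp (2 * σ * u) * ∑' g : PK K →₀ ℕ,
        if g ≠ 0 ∧ Cop (QK 𝔮) g then bS S a η L u g ^ 2 * kk κ T (u + lK g) else 0 with hG
  set Sa : ℝ := (∑ m ∈ S, |a m|) ^ 2 with hSa
  set P : ℝ := (2 : ℝ) ^ (QK 𝔮).card with hP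
  -- the second term
  have key : ∀ u : ℝ, ∑ t ∈ E, ‖EM κ t.lam T t.ψ S a η L u - E0 κ t.lam T η L u‖ ^ 2 *
      Real.exp ((2 * σ - 1) * u) ≤ hT K * nprim 𝔮 * G u +
        (C₁ + C₂) * (8 * (1 + |η|) ^ 2) * (P * Sa) * Real.exp (-|u|) := by
    intro u
    rw [← Finset.sum_mul]
    have hexp : Real.exp u * Real.exp ((2 * σ - 1) * u) = Real.exp (2 * σ * u) := by
      rw [← Real.exp_add]; congr 1; ring
    -- general step
    have gen : ∀ (A C : ℝ), 0 ≤ C → 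
        (∑ t ∈ E, ‖EM κ t.lam T t.ψ S a η L u - E0 κ t.lam T η L u‖ ^ 2 ≤
        hT K * nprim 𝔮 * (Real.exp u * ∑' g : PK K →₀ ℕ, (if g ≠ 0 ∧ Cop (QK 𝔮) g then
          bS S a η L u g ^ 2 * kk κ T (u + lK g) else 0)) +
        C * (2 ^ (QK 𝔮).card * (Real.exp u * ∑ m ∈ S, ∑ m' ∈ S,
          mg3aA a η L u m * mg3aA a η L u m' *
          (Real.exp (-(A * (u + lK (m ⊓ m')))) * (1 + Real.exp (-(u + lK (m ⊔ m')))))))) →
        (∀ m m' : PK K →₀ ℕ, Real.exp (2 * σ * u) *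
          (Real.exp (-(A * (u + lK (m ⊓ m')))) * (1 + Real.exp (-(u + lK (m ⊔ m'))))) ≤
          2 * Real.exp (-(2 * |u|))) →
        (∑ t ∈ E, ‖EM κ t.lam T t.ψ S a η L u - E0 κ t.lam T η L u‖ ^ 2) *
          Real.exp ((2 * σ - 1) * u) ≤ hT K * nprim 𝔮 * G u +
          C * (8 * (1 + |η|) ^ 2) * (P * Sa) * Real.exp (-|u|) := by
      intro A C hC h1 h2
      have h3 := mul_le_mul_of_nonneg_right h1 (Real.exp_pos ((2 * σ - 1) * u)).le
      refine h3.trans ?_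
      rw [add_mul]
      refine add_le_add (le_of_eq ?_) ?_
      · simp only [hG]
        rw [← hexp]; ring
      · have h4 : (∑ m ∈ S, ∑ m' ∈ S, mg3aA a η L u m * mg3aA a η L u m' *
            (Real.exp (2 * σ * u) * (Real.exp (-(A * (u + lK (m ⊓ m')))) *
              (1 + Real.exp (-(u + lK (m ⊔ m'))))))) ≤
            ((1 + |η|) * (1 + |u|)) ^ 2 * (∑ m ∈ S, |a m|) ^ 2 * (2 * Real.exp (-(2 * |u|))) :=
          mh2a_dbl S a η hL u hSL _ (fun m m' => by positivity) h2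
        have h5 : C * (2 ^ (QK 𝔮).card * (Real.exp u * ∑ m ∈ S, ∑ m' ∈ S,
            mg3aA a η L u m * mg3aA a η L u m' *
            (Real.exp (-(A * (u + lK (m ⊓ m')))) * (1 + Real.exp (-(u + lK (m ⊔ m'))))))) *
            Real.exp ((2 * σ - 1) * u) = C * P * (∑ m ∈ S, ∑ m' ∈ S,
            mg3aA a η L u m * mg3aA a η L u m' *
            (Real.exp (2 * σ * u) * (Real.exp (-(A * (u + lK (m ⊓ m')))) *
              (1 + Real.exp (-(u + lK (m ⊔ m'))))))) := by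
          have h6 : (∑ m ∈ S, ∑ m' ∈ S, mg3aA a η L u m * mg3aA a η L u m' *
              (Real.exp (2 * σ * u) * (Real.exp (-(A * (u + lK (m ⊓ m')))) *
              (1 + Real.exp (-(u + lK (m ⊔ m'))))))) = Real.exp (2 * σ * u) * ∑ m ∈ S,
              ∑ m' ∈ S, mg3aA a η L u m * mg3aA a η L u m' *
              (Real.exp (-(A * (u + lK (m ⊓ m')))) *
              (1 + Real.exp (-(u + lK (m ⊔ m'))))) := by
            rw [Finset.mul_sum]
            refine Finset.sum_congr rfl fun m _ => ?_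
            rw [Finset.mul_sum]
            refine Finset.sum_congr rfl fun m' _ => ?_
            ring
          rw [h6, ← hexp]; ring
        rw [h5]
        calc C * P * _ ≤ C * P * (((1 + |η|) * (1 + |u|)) ^ 2 * (∑ m ∈ S, |a m|) ^ 2 *
              (2 * Real.exp (-(2 * |u|)))) :=
              mul_le_mul_of_nonneg_left h4 (by positivity)
          _ = C * P * ((1 + |η|) ^ 2 * Sa) * ((1 + |u|) ^ 2 * (2 * Real.exp (-(2 * |u|)))) := by
              rw [hSa]; ring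
          _ ≤ C * P * ((1 + |η|) ^ 2 * Sa) * (8 * Real.exp (-|u|)) :=
              mul_le_mul_of_nonneg_left (mh2a_poly u) (by positivity)
          _ = C * (8 * (1 + |η|) ^ 2) * (P * Sa) * Real.exp (-|u|) := by ring
    have hrest : ∀ c : ℝ, 0 ≤ c → 0 ≤ c * (8 * (1 + |η|) ^ 2) * (P * Sa) * Real.exp (-|u|) := by
      intro c hc; positivity
    rcases le_or_gt u 0 with hu | hu
    · have h1 := gen 1 C₁ hC₁ (H₁ 𝔮 h𝔮 h𝔮' E hE S a hS h0 ha0 η L u) (fun m m' => ?_)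
      · have := hrest C₂ hC₂
        calc _ ≤ _ := h1
          _ ≤ _ := by nlinarith
      · have e1 := mh2a_lK_nonneg (m ⊓ m')
        have e2 := mh2a_lK_nonneg (m ⊔ m')
        rw [abs_of_nonpos hu]
        have f1 : Real.exp (-(1 * (u + lK (m ⊓ m')))) ≤ Real.exp (-u) :=
          Real.exp_le_exp.2 (by linarith)
        have f2 : 1 + Real.exp (-(u + lK (m ⊔ m'))) ≤ 2 * Real.exp (-u) := by
          have g1 : Real.exp (-(u + lK (m ⊔ m'))) ≤ Real.exp (-u) :=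
            Real.exp_le_exp.2 (by linarith)
          have g2 : 1 ≤ Real.exp (-u) := Real.one_le_exp (by linarith)
          linarith
        calc Real.exp (2 * σ * u) * (Real.exp (-(1 * (u + lK (m ⊓ m')))) *
              (1 + Real.exp (-(u + lK (m ⊔ m')))))
            ≤ Real.exp (2 * σ * u) * (Real.exp (-u) * (2 * Real.exp (-u))) := by
              refine mul_le_mul_of_nonneg_left (mul_le_mul f1 f2 (by positivity)
                (by positivity)) (by positivity)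
          _ = 2 * Real.exp ((2 * σ - 2) * u) := by
              rw [show (2 * σ - 2) * u = 2 * σ * u + (-u + -u) by ring, Real.exp_add,
                Real.exp_add]; ring
          _ ≤ 2 * Real.exp (-(2 * -u)) := by
              refine mul_le_mul_of_nonneg_left (Real.exp_le_exp.2 ?_) (by norm_num)
              nlinarith
    · have h1 := gen (2 * σ + 2) C₂ hC₂ (H₂ 𝔮 h𝔮 h𝔮' E hE S a hS h0 ha0 η L u) (fun m m' => ?_)
      · have := hrest C₁ hC₁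
        calc _ ≤ _ := h1
          _ ≤ _ := by nlinarith
      · have e1 := mh2a_lK_nonneg (m ⊓ m')
        have e2 := mh2a_lK_nonneg (m ⊔ m')
        rw [abs_of_pos hu]
        have f1 : Real.exp (-((2 * σ + 2) * (u + lK (m ⊓ m')))) ≤
            Real.exp (-((2 * σ + 2) * u)) := Real.exp_le_exp.2 (by nlinarith)
        have f2 : 1 + Real.exp (-(u + lK (m ⊔ m'))) ≤ 2 := by
          have g1 : Real.exp (-(u + lK (m ⊔ m'))) ≤ 1 :=
            Real.exp_le_one_iff.2 (by linarith)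
          linarith
        calc Real.exp (2 * σ * u) * (Real.exp (-((2 * σ + 2) * (u + lK (m ⊓ m')))) *
              (1 + Real.exp (-(u + lK (m ⊔ m')))))
            ≤ Real.exp (2 * σ * u) * (Real.exp (-((2 * σ + 2) * u)) * 2) := by
              refine mul_le_mul_of_nonneg_left (mul_le_mul f1 f2 (by positivity)
                (by positivity)) (by positivity)
          _ = 2 * Real.exp (-(2 * u)) := by
              rw [show -(2 * u) = 2 * σ * u + -((2 * σ + 2) * u) by ring, Real.exp_add]; ring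
  -- integration
  set RH : ℝ → ℝ := fun u => hT K * nprim 𝔮 * G u +
        (C₁ + C₂) * (8 * (1 + |η|) ^ 2) * (P * Sa) * Real.exp (-|u|) with hRH
  have hRHint : Integrable RH := (HI.const_mul _).add (mh2a_exp_int.const_mul _)
  have hfint : ∀ t ∈ E, Integrable fun u : ℝ =>
      ‖EM κ t.lam T t.ψ S a η L u - E0 κ t.lam T η L u‖ ^ 2 *
          Real.exp ((2 * σ - 1) * u) := by
    intro t ht
    have hc : Continuous fun u : ℝ => ‖EM κ t.lam T t.ψ S a η L u - E0 κ t.lam T η L u‖ ^ 2 *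
          Real.exp ((2 * σ - 1) * u) := by
      have h1 := EM_continuous (mg3a_hd h𝔮 h𝔮' hκ (hE t ht)) T S a η L
      have h2 := E0_continuous κ t.lam T η L
      fun_prop
    refine hRHint.mono' hc.aestronglyMeasurable (Eventually.of_forall fun u => ?_)
    rw [Real.norm_eq_abs, abs_of_nonneg (by positivity)]
    refine le_trans ?_ (key u)
    exact Finset.single_le_sum (f := fun t : HDat 𝔮 =>
      ‖EM κ t.lam T t.ψ S a η L u - E0 κ t.lam T η L u‖ ^ 2 * Real.exp ((2 * σ - 1) * u))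
      (fun t _ => by positivity) ht
  rw [← integral_finsetSum E hfint]
  calc ∫ u : ℝ, ∑ t ∈ E, ‖EM κ t.lam T t.ψ S a η L u - E0 κ t.lam T η L u‖ ^ 2 *
          Real.exp ((2 * σ - 1) * u) ≤ ∫ u : ℝ, RH u :=
        integral_mono (integrable_finsetSum E hfint) hRHint key
    _ = hT K * nprim 𝔮 * (∫ u : ℝ, G u) +
        (C₁ + C₂) * (8 * (1 + |η|) ^ 2) * (P * Sa) * I₀ := by
        rw [hRH, integral_add (HI.const_mul _) (mh2a_exp_int.const_mul _),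
          integral_const_mul, integral_const_mul]
    _ ≤ hT K * nprim 𝔮 * (C₃ * (∑' g : PK K →₀ ℕ, (if g ≠ 0 ∧ Cop (QK 𝔮) g then
          ((nm (NK K) g : ℝ)⁻¹) ^ 2 * bet S a L g else 0)) ^ 2) +
        (C₁ + C₂) * (8 * (1 + |η|) ^ 2) * (P * Sa) * I₀ := by
        refine add_le_add (mul_le_mul_of_nonneg_left HB (by positivity)) le_rfl
    _ ≤ _ := by
        set Z : ℝ := (∑' g : PK K →₀ ℕ, (if g ≠ 0 ∧ Cop (QK 𝔮) g then
          ((nm (NK K) g : ℝ)⁻¹) ^ 2 * bet S a L g else 0)) ^ 2 with hZ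
        have z1 : 0 ≤ hT K * C₃ * (P * Sa) := by positivity
        have z2 : 0 ≤ (C₁ + C₂) * (8 * (1 + |η|) ^ 2) * I₀ * (nprim 𝔮 * Z) := by positivity
        nlinarith

end Pool.Agent.LVK

namespace Pool.Agent.LVK

theorem mean_right : type_of% @mean_right_pr := @mean_right_pr

end Pool.Agent.LVK
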