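import Pool.Agent.Lib_helper42.LVK.Defs
import Pool.Agent.Lib_helper41.HZF.YB
import Pool.Agent.Lib_helper41.HZF.KG
import Pool.Agent.Lib_helper92.KSA.BRG
import Pool.Agent.Lib_helper92.KSA.LATU
import Pool.Agent.Lib_helper92.KSA.LNZ
import Pool.Agent.Lib_helper39.LVX.K_MA3B

/-!
# LVK block MH2B (helper3)
-/

namespace Pool.Agent.LVK

open NumberField NumberField.InfinitePlace NumberField.Units Complex MeasureTheory Filter Topology
open Pool.Agent.HZ Pool.Agent.AS Pool.Agent.KS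

variable {K : Type} [Field K] [NumberField K]

theorem mh2b_int {b : ℝ} (hb : 0 < b) : Integrable fun u : ℝ => Real.exp (-(b * |u|)) := by
  have h1 : IntegrableOn (fun u : ℝ => Real.exp (-(b * |u|))) (Set.Ioi 0) := by
    have : IntegrableOn (fun u : ℝ => Real.exp (-b * u)) (Set.Ioi 0) :=
      exp_neg_integrableOn_Ioi 0 hb
    refine this.congr_fun (fun u hu => ?_) measurableSet_Ioi
    show Real.exp (-b * u) = Real.exp (-(b * |u|))
    rw [abs_of_pos hu]; ring_nf
  have h2 : IntegrableOn (fun u : ℝ => Real.exp (-(b * |u|))) (Set.Iic 0) := by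
    have := h1.comp_neg
    simp only [abs_neg, Set.neg_Ioi, neg_zero] at this
    rw [integrableOn_Iic_iff_integrableOn_Iio]
    exact this
  rw [← integrableOn_univ, ← Set.Iic_union_Ioi (a := (0 : ℝ))]
  exact h2.union h1

/-- `E0` on all lines -/
theorem E0_sq_pr (κ : InfinitePlace K → ℤ) (T : TD K) (η σ₁ : ℝ) :
    ∃ C : ℝ, 0 ≤ C ∧ ∀ (lam : InfinitePlace K → ℝ) (L σ : ℝ), 1 ≤ L → 1 / 4 ≤ σ → σ ≤ σ₁ →
      Integrable (fun u : ℝ => ‖E0 κ lam T η L u‖ ^ 2 * Real.exp ((2 * σ - 1) * u)) ∧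
      ∫ u : ℝ, ‖E0 κ lam T η L u‖ ^ 2 * Real.exp ((2 * σ - 1) * u) ≤ C := by
  set A : ℝ := |σ₁| + 1 with hA
  have hA0 : 0 < A := by positivity
  obtain ⟨C, hC0, hC⟩ := E0_decay (K := K) κ T η hA0
  have hint := mh2b_int (show (0 : ℝ) < 2 / 5 by norm_num)
  refine ⟨C ^ 2 * ∫ u : ℝ, Real.exp (-(2 / 5 * |u|)), by positivity, ?_⟩
  intro lam L σ hL hσ hσ₁
  have hb : ∀ u : ℝ, ‖E0 κ lam T η L u‖ ^ 2 * Real.exp ((2 * σ - 1) * u) ≤
      C ^ 2 * Real.exp (-(2 / 5 * |u|)) := by
    intro u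
    obtain ⟨h1, h2⟩ := hC lam L hL u
    rcases le_total u 0 with hu | hu
    · rw [abs_of_nonpos hu]
      calc ‖E0 κ lam T η L u‖ ^ 2 * Real.exp ((2 * σ - 1) * u)
          ≤ (C * Real.exp (9 / 20 * u)) ^ 2 * Real.exp ((2 * σ - 1) * u) := by gcongr
        _ = C ^ 2 * Real.exp (9 / 10 * u + (2 * σ - 1) * u) := by
            rw [mul_pow, ← Real.exp_nat_mul, mul_assoc, ← Real.exp_add]
            congr 2
            push_cast
            ring
        _ ≤ C ^ 2 * Real.exp (-(2 / 5 * -u)) := by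
            have : 9 / 10 * u + (2 * σ - 1) * u ≤ -(2 / 5 * -u) := by nlinarith
            gcongr
    · rw [abs_of_nonneg hu]
      calc ‖E0 κ lam T η L u‖ ^ 2 * Real.exp ((2 * σ - 1) * u)
          ≤ (C * Real.exp (-(A * u))) ^ 2 * Real.exp ((2 * σ - 1) * u) := by gcongr
        _ = C ^ 2 * Real.exp (-(2 * A * u) + (2 * σ - 1) * u) := by
            rw [mul_pow, ← Real.exp_nat_mul, mul_assoc, ← Real.exp_add]
            congr 2
            push_cast
            ring
        _ ≤ C ^ 2 * Real.exp (-(2 / 5 * u)) := by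
            have h3 := le_abs_self σ₁
            have : -(2 * A * u) + (2 * σ - 1) * u ≤ -(2 / 5 * u) := by
              rw [hA]
              nlinarith
            gcongr
  have hcont : Continuous fun u : ℝ => ‖E0 κ lam T η L u‖ ^ 2 * Real.exp ((2 * σ - 1) * u) := by
    have := E0_continuous κ lam T η L
    fun_prop
  have hI : Integrable (fun u : ℝ => ‖E0 κ lam T η L u‖ ^ 2 * Real.exp ((2 * σ - 1) * u)) := by
    refine (hint.const_mul (C ^ 2)).mono' hcont.aestronglyMeasurable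
      (Filter.Eventually.of_forall fun u => ?_)
    rw [Real.norm_of_nonneg (by positivity)]
    exact hb u
  refine ⟨hI, ?_⟩
  rw [← integral_const_mul]
  exact integral_mono hI (hint.const_mul (C ^ 2)) hb


end Pool.Agent.LVK

namespace Pool.Agent.LVK

theorem E0_sq : type_of% @E0_sq_pr := @E0_sq_pr

end Pool.Agent.LVK
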