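import Pool.Agent.Lib_helper42.LVK.Defs
import Pool.Agent.Lib_helper41.HZF.YB
import Pool.Agent.Lib_helper41.HZF.KG
import Pool.Agent.Lib_helper92.KSA.BRG
import Pool.Agent.Lib_helper92.KSA.LATU
import Pool.Agent.Lib_helper92.KSA.LNZ

/-!
# LVK block MH3: convexity in `σ`
-/

namespace Pool.Agent.LVK

open Complex MeasureTheory Filter Topology

theorem mh3_exp (a b τ u : ℝ) :
    Real.exp ((2 * ((1 - τ) * a + τ * b) - 1) * u) =
      Real.exp ((2 * a - 1) * u) ^ (1 - τ) * Real.exp ((2 * b - 1) * u) ^ τ := by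
  rw [← Real.exp_mul, ← Real.exp_mul, ← Real.exp_add]
  congr 1
  ring

theorem mh3_pt {F a b τ u : ℝ} (hF : 0 ≤ F) (hτ : 0 ≤ τ) (hτ1 : τ ≤ 1) :
    F * Real.exp ((2 * ((1 - τ) * a + τ * b) - 1) * u) =
      (F * Real.exp ((2 * a - 1) * u)) ^ (1 - τ) * (F * Real.exp ((2 * b - 1) * u)) ^ τ := by
  rw [mh3_exp, Real.mul_rpow hF (Real.exp_pos _).le, Real.mul_rpow hF (Real.exp_pos _).le]
  have h1 : F = F ^ (1 - τ) * F ^ τ := by
    rw [← Real.rpow_add_of_nonneg hF (by linarith) hτ]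
    simp
  calc F * (Real.exp ((2 * a - 1) * u) ^ (1 - τ) * Real.exp ((2 * b - 1) * u) ^ τ) =
        (F ^ (1 - τ) * F ^ τ) *
          (Real.exp ((2 * a - 1) * u) ^ (1 - τ) * Real.exp ((2 * b - 1) * u) ^ τ) := by
        rw [← h1]
    _ = _ := by ring

theorem log_conv_pr {ι : Type} (E : Finset ι) (F : ι → ℝ → ℝ) (hF : ∀ i, Continuous (F i))
    (h0 : ∀ i u, 0 ≤ F i u) {a b τ : ℝ} (hτ : 0 ≤ τ) (hτ1 : τ ≤ 1)
    (ha : ∀ i ∈ E, Integrable (fun u => F i u * Real.exp ((2 * a - 1) * u)))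
    (hb : ∀ i ∈ E, Integrable (fun u => F i u * Real.exp ((2 * b - 1) * u))) :
    (∀ i ∈ E, Integrable (fun u =>
      F i u * Real.exp ((2 * ((1 - τ) * a + τ * b) - 1) * u))) ∧
    ∑ i ∈ E, ∫ u, F i u * Real.exp ((2 * ((1 - τ) * a + τ * b) - 1) * u) ≤
      (∑ i ∈ E, ∫ u, F i u * Real.exp ((2 * a - 1) * u)) ^ (1 - τ) *
        (∑ i ∈ E, ∫ u, F i u * Real.exp ((2 * b - 1) * u)) ^ τ := by
  have hFa : ∀ i u, 0 ≤ F i u * Real.exp ((2 * a - 1) * u) := fun i u =>
    mul_nonneg (h0 i u) (Real.exp_pos _).le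
  have hFb : ∀ i u, 0 ≤ F i u * Real.exp ((2 * b - 1) * u) := fun i u =>
    mul_nonneg (h0 i u) (Real.exp_pos _).le
  have hFc : ∀ i u, 0 ≤ F i u * Real.exp ((2 * ((1 - τ) * a + τ * b) - 1) * u) := fun i u =>
    mul_nonneg (h0 i u) (Real.exp_pos _).le
  have hint : ∀ i ∈ E, Integrable (fun u =>
      F i u * Real.exp ((2 * ((1 - τ) * a + τ * b) - 1) * u)) := by
    intro i hi
    refine Integrable.mono' (((ha i hi).const_mul (1 - τ)).add ((hb i hi).const_mul τ)) ?_ ?_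
    · apply Continuous.aestronglyMeasurable
      exact (hF i).mul (by fun_prop)
    · refine ae_of_all _ fun u => ?_
      rw [Real.norm_eq_abs, abs_of_nonneg (hFc i u), mh3_pt (h0 i u) hτ hτ1]
      exact Real.geom_mean_le_arith_mean2_weighted (by linarith) hτ (hFa i u) (hFb i u) (by ring)
  refine ⟨hint, ?_⟩
  set A := ∑ i ∈ E, ∫ u, F i u * Real.exp ((2 * a - 1) * u) with hA
  set B := ∑ i ∈ E, ∫ u, F i u * Real.exp ((2 * b - 1) * u) with hB
  have hA0 : 0 ≤ A := Finset.sum_nonneg fun i _ => integral_nonneg (hFa i)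
  have hB0 : 0 ≤ B := Finset.sum_nonneg fun i _ => integral_nonneg (hFb i)
  -- vanishing
  have hvan : ∀ c d : ℝ, (∀ i ∈ E, Integrable (fun u => F i u * Real.exp ((2 * c - 1) * u))) →
      ∑ i ∈ E, ∫ u, F i u * Real.exp ((2 * c - 1) * u) = 0 →
      ∑ i ∈ E, ∫ u, F i u * Real.exp ((2 * d - 1) * u) = 0 := by
    intro c d hc hs
    rw [Finset.sum_eq_zero_iff_of_nonneg (fun i _ => integral_nonneg fun u =>
      mul_nonneg (h0 i u) (Real.exp_pos _).le)] at hs
    apply Finset.sum_eq_zero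
    intro i hi
    have h1 := (integral_eq_zero_iff_of_nonneg (fun u => mul_nonneg (h0 i u) (Real.exp_pos _).le)
      (hc i hi)).mp (hs i hi)
    rw [integral_eq_zero_of_ae]
    filter_upwards [h1] with u hu
    have h2 : F i u * Real.exp ((2 * c - 1) * u) = 0 := hu
    have h3 : F i u = 0 := by
      rcases mul_eq_zero.mp h2 with h3 | h3
      · exact h3
      · exact absurd h3 (Real.exp_pos _).ne'
    simp [h3]
  rcases hA0.eq_or_lt with hA1 | hA1
  · rw [hvan a ((1 - τ) * a + τ * b) ha hA1.symm]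
    positivity
  rcases hB0.eq_or_lt with hB1 | hB1
  · rw [hvan b ((1 - τ) * a + τ * b) hb hB1.symm]
    positivity
  have hAr : 0 < A ^ (1 - τ) := Real.rpow_pos_of_pos hA1 _
  have hBr : 0 < B ^ τ := Real.rpow_pos_of_pos hB1 _
  -- the pointwise inequality
  have hpt : ∀ i u, F i u * Real.exp ((2 * ((1 - τ) * a + τ * b) - 1) * u) ≤
      A ^ (1 - τ) * B ^ τ * ((1 - τ) / A * (F i u * Real.exp ((2 * a - 1) * u)) +
        τ / B * (F i u * Real.exp ((2 * b - 1) * u))) := by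
    intro i u
    rw [mh3_pt (h0 i u) hτ hτ1]
    have h1 := Real.geom_mean_le_arith_mean2_weighted (by linarith : (0:ℝ) ≤ 1 - τ) hτ
      (div_nonneg (hFa i u) hA0) (div_nonneg (hFb i u) hB0) (by ring)
    rw [Real.div_rpow (hFa i u) hA0, Real.div_rpow (hFb i u) hB0, div_mul_div_comm,
      div_le_iff₀ (mul_pos hAr hBr)] at h1
    calc _ ≤ _ := h1
      _ = _ := by ring
  calc ∑ i ∈ E, ∫ u, F i u * Real.exp ((2 * ((1 - τ) * a + τ * b) - 1) * u) ≤
        ∑ i ∈ E, ∫ u, A ^ (1 - τ) * B ^ τ * ((1 - τ) / A * (F i u * Real.exp ((2 * a - 1) * u)) +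
        τ / B * (F i u * Real.exp ((2 * b - 1) * u))) := by
        apply Finset.sum_le_sum
        intro i hi
        apply integral_mono (hint i hi)
        · exact (((ha i hi).const_mul _).add ((hb i hi).const_mul _)).const_mul _
        · exact hpt i
    _ = ∑ i ∈ E, A ^ (1 - τ) * B ^ τ * ((1 - τ) / A * (∫ u, F i u * Real.exp ((2 * a - 1) * u)) +
        τ / B * (∫ u, F i u * Real.exp ((2 * b - 1) * u))) := by
        apply Finset.sum_congr rfl
        intro i hi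
        rw [integral_const_mul, integral_add ((ha i hi).const_mul _) ((hb i hi).const_mul _),
          integral_const_mul, integral_const_mul]
    _ = A ^ (1 - τ) * B ^ τ * ((1 - τ) / A * A + τ / B * B) := by
        rw [← Finset.mul_sum, Finset.sum_add_distrib, ← Finset.mul_sum, ← Finset.mul_sum]
    _ = A ^ (1 - τ) * B ^ τ := by
        rw [div_mul_cancel₀ _ hA1.ne', div_mul_cancel₀ _ hB1.ne']
        ring

end Pool.Agent.LVK

namespace Pool.Agent.LVK

theorem log_conv : type_of% @log_conv_pr := @log_conv_pr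

end Pool.Agent.LVK
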