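import Pool.Agent.Lib_helper42.LVK.Defs
import Pool.Agent.Lib_helper41.HZF.YB
import Pool.Agent.Lib_helper41.HZF.KG
import Pool.Agent.Lib_helper92.KSA.BRG
import Pool.Agent.Lib_helper92.KSA.LATU
import Pool.Agent.Lib_helper92.KSA.LNZ
import Pool.Agent.Lib_helper24.SQ.PL

/-!
# LVK block MH4: Plancherel on a vertical line
-/

namespace Pool.Agent.LVK

open Complex MeasureTheory Filter Topology

theorem plancherel_pr {f : ℝ → ℂ} (hf : Continuous f) (σ : ℝ)
    (h1 : Integrable fun u => f u * cexp (((σ - 1 / 2) * u : ℝ)))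
    (h2 : Integrable fun u => ‖f u‖ ^ 2 * Real.exp ((2 * σ - 1) * u)) :
    Integrable (fun t : ℝ => ‖∫ u : ℝ, f u * cexp ((((σ : ℂ) + t * I) - 1 / 2) * u)‖ ^ 2) ∧
    ∫ t : ℝ, ‖∫ u : ℝ, f u * cexp ((((σ : ℂ) + t * I) - 1 / 2) * u)‖ ^ 2 =
      2 * Real.pi * ∫ u : ℝ, ‖f u‖ ^ 2 * Real.exp ((2 * σ - 1) * u) := by
  set h : ℝ → ℂ := fun u => f u * cexp (((σ - 1 / 2) * u : ℝ)) with hh
  have e1 : ∀ u, ‖h u‖ ^ 2 = ‖f u‖ ^ 2 * Real.exp ((2 * σ - 1) * u) := by
    intro u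
    rw [hh]
    simp only
    rw [norm_mul, mul_pow, Complex.norm_exp, Complex.ofReal_re, ← Real.exp_nat_mul]
    congr 2
    push_cast
    ring
  have e2 : ∀ t : ℝ, Pool.Agent.SQS.hat h t =
      ∫ u : ℝ, f u * cexp ((((σ : ℂ) + t * I) - 1 / 2) * u) := by
    intro t
    unfold Pool.Agent.SQS.hat
    congr 1
    funext u
    rw [hh]
    simp only
    rw [mul_assoc, ← Complex.exp_add]
    congr 2
    push_cast
    ring
  have h3 : Integrable fun u => ‖h u‖ ^ 2 := by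
    simp_rw [e1]
    exact h2
  have h4 := Pool.Agent.SQS.PL1 h h1 h3
  simp_rw [e1, e2] at h4
  exact h4

end Pool.Agent.LVK

namespace Pool.Agent.LVK

theorem plancherel : type_of% @plancherel_pr := @plancherel_pr

end Pool.Agent.LVK
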