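import Pool.Agent.Lib_helper42.LVK.Defs
import Pool.Agent.Lib_helper41.HZF.YB
import Pool.Agent.Lib_helper41.HZF.KG
import Pool.Agent.Lib_helper92.KSA.BRG
import Pool.Agent.Lib_helper92.KSA.LATU
import Pool.Agent.Lib_helper92.KSA.LNZ
import Pool.Agent.Lib_helper39.LVX.K_MA3B
import Pool.Agent.Lib_helper39.LVX.K_MA4B
import Pool.Agent.Lib_helper39.LVX.K_MA4C
import Pool.Agent.Lib_helper39.LVX.K_MH4

/-!
# LVK block MH5 (helper3)
-/

namespace Pool.Agent.LVK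

open NumberField NumberField.InfinitePlace NumberField.Units Complex MeasureTheory Filter Topology
open Pool.Agent.HZ Pool.Agent.AS Pool.Agent.KS

variable {K : Type} [Field K] [NumberField K]

theorem mh5_int {b : ℝ} (hb : 0 < b) : Integrable fun u : ℝ => Real.exp (-(b * |u|)) := by
  have h1 : IntegrableOn (fun u : ℝ => Real.exp (-(b * |u|))) (Set.Ioi 0) := by
    have : IntegrableOn (fun u : ℝ => Real.exp (-b * u)) (Set.Ioi 0) :=
      exp_neg_integrableOn_Ioi 0 hb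
    refine this.congr_fun (fun u hu => ?_) measurableSet_Ioi
    show Real.exp (-b * u) = Real.exp (-(b * |u|))
    rw [abs_of_pos hu]; ring_nf
  have h2 : IntegrableOn (fun u : ℝ => Real.exp (-(b * |u|))) (Set.Iic 0) := by
    have := h1.comp_neg
    simp only [abs_neg, Set.neg_Ioi, neg_zero] at this
    rw [integrableOn_Iic_iff_integrableOn_Iio]
    exact this
  rw [← integrableOn_univ, ← Set.Iic_union_Ioi (a := (0 : ℝ))]
  exact h2.union h1

variable {𝔮 : Ideal (𝓞 K)} {κ : InfinitePlace K → ℤ} {lam : InfinitePlace K → ℝ}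
  {χ : MulChar (𝓞 K ⧸ 𝔮) ℂ} {ψ : Ideal (𝓞 K) →* ℂ}

/-- two-sided exponential bounds for a continuous function give integrability on a line -/
theorem mh5_line {f : ℝ → ℂ} (hf : Continuous f) {C b σ : ℝ} (hb : 0 < b)
    (hC : ∀ u, ‖f u‖ * Real.exp ((σ - 1 / 2) * u) ≤ C * Real.exp (-(b * |u|))) :
    Integrable (fun u => f u * cexp (((σ - 1 / 2) * u : ℝ))) ∧
    Integrable (fun u => ‖f u‖ ^ 2 * Real.exp ((2 * σ - 1) * u)) := by
  constructor
  · refine ((mh5_int hb).const_mul C).mono' ?_ (Filter.Eventually.of_forall fun u => ?_)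
    · exact Continuous.aestronglyMeasurable (by fun_prop)
    · rw [norm_mul, ← Complex.ofReal_exp, Complex.norm_real, Real.norm_of_nonneg (Real.exp_pos _).le]
      exact hC u
  · have h2 : (0 : ℝ) < 2 * b := by linarith
    refine ((mh5_int h2).const_mul (C ^ 2)).mono' ?_ (Filter.Eventually.of_forall fun u => ?_)
    · exact Continuous.aestronglyMeasurable (by fun_prop)
    · rw [Real.norm_of_nonneg (by positivity)]
      have h1 := hC u
      have h3 : ‖f u‖ ^ 2 * Real.exp ((2 * σ - 1) * u) =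
          (‖f u‖ * Real.exp ((σ - 1 / 2) * u)) ^ 2 := by
        rw [mul_pow, ← Real.exp_nat_mul]
        congr 2
        push_cast
        ring
      rw [h3]
      calc (‖f u‖ * Real.exp ((σ - 1 / 2) * u)) ^ 2 ≤ (C * Real.exp (-(b * |u|))) ^ 2 := by
            gcongr
        _ = C ^ 2 * Real.exp (-(2 * b * |u|)) := by
            rw [mul_pow, ← Real.exp_nat_mul]
            congr 2
            push_cast
            ring

theorem mh5_EM (h : HD 𝔮 κ lam χ ψ) (T : TD K) (S : Finset (PK K →₀ ℕ))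
    (a : (PK K →₀ ℕ) → ℝ) (η L σ : ℝ) :
    ∃ C : ℝ, ∀ u, ‖EM κ lam T ψ S a η L u‖ * Real.exp ((σ - 1 / 2) * u) ≤
      C * Real.exp (-(1 / 5 * |u|)) := by
  obtain ⟨C, hC⟩ := EM_decay h T S a η L (|σ - 1 / 2| + 1 / 5)
  have hC0 : 0 ≤ C := by
    have := (norm_nonneg _).trans (hC 0)
    exact nonneg_of_mul_nonneg_left this (Real.exp_pos _)
  refine ⟨C, fun u => ?_⟩
  calc ‖EM κ lam T ψ S a η L u‖ * Real.exp ((σ - 1 / 2) * u)
      ≤ C * Real.exp (-((|σ - 1 / 2| + 1 / 5) * |u|)) * Real.exp ((σ - 1 / 2) * u) := by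
        gcongr
        exact hC u
    _ = C * Real.exp (-((|σ - 1 / 2| + 1 / 5) * |u|) + (σ - 1 / 2) * u) := by
        rw [mul_assoc, ← Real.exp_add]
    _ ≤ C * Real.exp (-(1 / 5 * |u|)) := by
        have h1 : (σ - 1 / 2) * u ≤ |σ - 1 / 2| * |u| := by
          rw [← abs_mul]
          exact le_abs_self _
        have : -((|σ - 1 / 2| + 1 / 5) * |u|) + (σ - 1 / 2) * u ≤ -(1 / 5 * |u|) := by linarith
        gcongr

theorem mh5_E0 (κ : InfinitePlace K → ℤ) (T : TD K) (lam : InfinitePlace K → ℝ)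
    (η L : ℝ) {σ : ℝ} (hσ : 1 / 4 ≤ σ) :
    ∃ C : ℝ, ∀ u, ‖E0 κ lam T η L u‖ * Real.exp ((σ - 1 / 2) * u) ≤
      C * Real.exp (-(1 / 5 * |u|)) := by
  obtain ⟨C, hC0, hC⟩ := E0_decay (K := K) κ T (η / L)
    (show 0 < |σ - 1 / 2| + 1 / 5 by positivity)
  have he : ∀ u, E0 κ lam T η L u = E0 κ lam T (η / L) 1 u := by
    intro u
    unfold E0
    congr 3
    ring
  refine ⟨C, fun u => ?_⟩
  obtain ⟨h1, h2⟩ := hC lam 1 le_rfl u
  rw [← he u] at h1 h2
  rcases le_total u 0 with hu | hu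
  · rw [abs_of_nonpos hu]
    calc ‖E0 κ lam T η L u‖ * Real.exp ((σ - 1 / 2) * u)
        ≤ C * Real.exp (9 / 20 * u) * Real.exp ((σ - 1 / 2) * u) := by gcongr
      _ = C * Real.exp (9 / 20 * u + (σ - 1 / 2) * u) := by rw [mul_assoc, ← Real.exp_add]
      _ ≤ C * Real.exp (-(1 / 5 * -u)) := by
          have : 9 / 20 * u + (σ - 1 / 2) * u ≤ -(1 / 5 * -u) := by nlinarith
          gcongr
  · rw [abs_of_nonneg hu]
    calc ‖E0 κ lam T η L u‖ * Real.exp ((σ - 1 / 2) * u)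
        ≤ C * Real.exp (-((|σ - 1 / 2| + 1 / 5) * u)) * Real.exp ((σ - 1 / 2) * u) := by gcongr
      _ = C * Real.exp (-((|σ - 1 / 2| + 1 / 5) * u) + (σ - 1 / 2) * u) := by
          rw [mul_assoc, ← Real.exp_add]
      _ ≤ C * Real.exp (-(1 / 5 * u)) := by
          have h3 := le_abs_self (σ - 1 / 2)
          have : -((|σ - 1 / 2| + 1 / 5) * u) + (σ - 1 / 2) * u ≤ -(1 / 5 * u) := by nlinarith
          gcongr

theorem EM_planch_pr (h : HD 𝔮 κ lam χ ψ) (T : TD K) (S : Finset (PK K →₀ ℕ))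
    (a : (PK K →₀ ℕ) → ℝ) (η L σ : ℝ) :
    Integrable (fun u : ℝ => ‖EM κ lam T ψ S a η L u‖ ^ 2 * Real.exp ((2 * σ - 1) * u)) ∧
    Integrable (fun t : ℝ => ‖(Xf κ lam T ψ (σ + t * I) + ((η / L : ℝ) : ℂ) *
      deriv (Xf κ lam T ψ) (σ + t * I)) * Mf ψ S a (σ + t * I)‖ ^ 2) ∧
    ∫ t : ℝ, ‖(Xf κ lam T ψ (σ + t * I) + ((η / L : ℝ) : ℂ) *
      deriv (Xf κ lam T ψ) (σ + t * I)) * Mf ψ S a (σ + t * I)‖ ^ 2 =
      2 * Real.pi * ∫ u : ℝ, ‖EM κ lam T ψ S a η L u‖ ^ 2 *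
        Real.exp ((2 * σ - 1) * u) := by
  have hc := EM_continuous h T S a η L
  obtain ⟨C, hC⟩ := mh5_EM h T S a η L σ
  obtain ⟨h1, h2⟩ := mh5_line hc (by norm_num) hC
  have hP := plancherel hc σ h1 h2
  simp_rw [EM_mellin h T S a η L] at hP
  exact ⟨h2, hP⟩

theorem EM0_planch_pr (h : HD 𝔮 κ lam χ ψ) (T : TD K) (S : Finset (PK K →₀ ℕ))
    (a : (PK K →₀ ℕ) → ℝ) (η L : ℝ) {σ : ℝ} (hσ : 1 / 4 ≤ σ) :
    Integrable (fun u : ℝ => ‖EM κ lam T ψ S a η L u - E0 κ lam T η L u‖ ^ 2 *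
      Real.exp ((2 * σ - 1) * u)) ∧
    Integrable (fun t : ℝ => ‖(Xf κ lam T ψ (σ + t * I) + ((η / L : ℝ) : ℂ) *
      deriv (Xf κ lam T ψ) (σ + t * I)) * Mf ψ S a (σ + t * I) -
      (gh κ lam T (σ + t * I) + ((η / L : ℝ) : ℂ) * deriv (gh κ lam T) (σ + t * I))‖ ^ 2) ∧
    ∫ t : ℝ, ‖(Xf κ lam T ψ (σ + t * I) + ((η / L : ℝ) : ℂ) *
      deriv (Xf κ lam T ψ) (σ + t * I)) * Mf ψ S a (σ + t * I) -
      (gh κ lam T (σ + t * I) + ((η / L : ℝ) : ℂ) * deriv (gh κ lam T) (σ + t * I))‖ ^ 2 =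
      2 * Real.pi * ∫ u : ℝ, ‖EM κ lam T ψ S a η L u - E0 κ lam T η L u‖ ^ 2 *
        Real.exp ((2 * σ - 1) * u) := by
  obtain ⟨C₁, hC₁⟩ := mh5_EM h T S a η L σ
  obtain ⟨C₂, hC₂⟩ := mh5_E0 κ T lam η L hσ
  have hcM := EM_continuous h T S a η L
  have hc0 := E0_continuous κ lam T η L
  have hc : Continuous fun u => EM κ lam T ψ S a η L u - E0 κ lam T η L u := hcM.sub hc0
  have hb : ∀ u, ‖EM κ lam T ψ S a η L u - E0 κ lam T η L u‖ * Real.exp ((σ - 1 / 2) * u) ≤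
      (C₁ + C₂) * Real.exp (-(1 / 5 * |u|)) := by
    intro u
    calc ‖EM κ lam T ψ S a η L u - E0 κ lam T η L u‖ * Real.exp ((σ - 1 / 2) * u)
        ≤ (‖EM κ lam T ψ S a η L u‖ + ‖E0 κ lam T η L u‖) * Real.exp ((σ - 1 / 2) * u) := by
          gcongr
          exact norm_sub_le _ _
      _ ≤ (C₁ + C₂) * Real.exp (-(1 / 5 * |u|)) := by
          rw [add_mul, add_mul]
          exact add_le_add (hC₁ u) (hC₂ u)
  obtain ⟨h1, h2⟩ := mh5_line hc (by norm_num) hb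
  have hP := plancherel hc σ h1 h2
  have hI : ∀ {f : ℝ → ℂ}, Continuous f → ∀ {C : ℝ},
      (∀ u, ‖f u‖ * Real.exp ((σ - 1 / 2) * u) ≤ C * Real.exp (-(1 / 5 * |u|))) → ∀ t : ℝ,
      Integrable (fun u : ℝ => f u * cexp ((((σ : ℂ) + t * I) - 1 / 2) * u)) := by
    intro f hf C hC t
    refine ((mh5_int (show (0 : ℝ) < 1 / 5 by norm_num)).const_mul C).mono' ?_
      (Filter.Eventually.of_forall fun u => ?_)
    · exact Continuous.aestronglyMeasurable (by fun_prop)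
    · rw [norm_mul, Complex.norm_exp]
      have : ((((σ : ℂ) + t * I) - 1 / 2) * u).re = (σ - 1 / 2) * u := by
        simp
      rw [this]
      exact hC u
  have hT : ∀ t : ℝ, ∫ u : ℝ, (EM κ lam T ψ S a η L u - E0 κ lam T η L u) *
      cexp ((((σ : ℂ) + t * I) - 1 / 2) * u) =
      (Xf κ lam T ψ (σ + t * I) + ((η / L : ℝ) : ℂ) *
      deriv (Xf κ lam T ψ) (σ + t * I)) * Mf ψ S a (σ + t * I) -
      (gh κ lam T (σ + t * I) + ((η / L : ℝ) : ℂ) * deriv (gh κ lam T) (σ + t * I)) := by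
    intro t
    simp_rw [sub_mul]
    have hs : 1 / 10 < ((σ : ℂ) + t * I).re := by
      simp
      linarith
    have e := integral_sub (hI hcM hC₁ t) (hI hc0 hC₂ t)
    simp only [sub_mul] at e
    rw [← EM_mellin h T S a η L, ← E0_mellin κ h.hlam T η L hs]
    simp only [sub_mul]
    exact e
  simp_rw [hT] at hP
  exact ⟨h2, hP⟩


end Pool.Agent.LVK

namespace Pool.Agent.LVK

theorem EM_planch : type_of% @EM_planch_pr := @EM_planch_pr
theorem EM0_planch : type_of% @EM0_planch_pr := @EM0_planch_pr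

end Pool.Agent.LVK
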