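import Pool.Agent.Lib_helper42.LVK.DefsT
import Pool.Agent.Lib_helper42.LVK.Defs
import Pool.Agent.Lib_helper41.HZF.YB
import Pool.Agent.Lib_helper41.HZF.KG
import Pool.Agent.Lib_helper92.KSA.BRG
import Pool.Agent.Lib_helper92.KSA.LATU
import Pool.Agent.Lib_helper92.KSA.LNZ
import Pool.Agent.Lib_helper92.LVA.Defs
import Pool.Agent.Lib_helper92.KSA.KPO
import Pool.Agent.Lib_helper92.KSA.ZKA
import Pool.Agent.Lib_helper92.ASA.All

/-!
# LVK part T, block TA1: square free elements
-/

namespace Pool.Agent.LVK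

open NumberField NumberField.InfinitePlace NumberField.Units Complex MeasureTheory Filter Topology
open Pool.Agent.HZ Pool.Agent.AS Pool.Agent.KS

variable {K : Type} [Field K] [NumberField K]

open scoped Classical in
theorem ta1_apply (m : Finset (PK K)) (q : PK K) : sq m q = if q ∈ m then 1 else 0 := by
  unfold sq
  rw [Finsupp.finsetSum_apply]
  simp only [Finsupp.single_apply]
  rw [Finset.sum_ite_eq' m q (fun _ => 1)]

theorem sq_support_pr (m : Finset (PK K)) : (sq m).support = m := by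
  classical
  ext q
  rw [Finsupp.mem_support_iff, ta1_apply]
  by_cases h : q ∈ m
  · simp [h]
  · simp [h]

theorem sq_inj_pr : Function.Injective (sq (K := K)) := by
  intro m m' h
  rw [← sq_support_pr m, ← sq_support_pr m', h]

theorem sq_empty_pr : sq (∅ : Finset (PK K)) = 0 := by
  unfold sq
  rw [Finset.sum_empty]

theorem sq_le_pr {m : Finset (PK K)} {g : PK K →₀ ℕ} : sq m ≤ g ↔ m ⊆ g.support := by
  classical
  rw [Finsupp.le_def]
  constructor
  · intro h q hq
    have h1 := h q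
    rw [ta1_apply, if_pos hq] at h1
    rw [Finsupp.mem_support_iff]
    omega
  · intro h q
    rw [ta1_apply]
    split_ifs with hq
    · have h1 := Finsupp.mem_support_iff.1 (h hq)
      omega
    · exact Nat.zero_le _

open scoped Classical in
theorem sq_inf_pr (m m' : Finset (PK K)) : sq m ⊓ sq m' = sq (m ∩ m') := by
  ext q
  rw [Finsupp.inf_apply, ta1_apply, ta1_apply, ta1_apply]
  by_cases h : q ∈ m <;> by_cases h' : q ∈ m' <;> simp [h, h']

open scoped Classical in
theorem sq_sup_pr (m m' : Finset (PK K)) : sq m ⊔ sq m' = sq (m ∪ m') := by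
  ext q
  rw [Finsupp.sup_apply, ta1_apply, ta1_apply, ta1_apply]
  by_cases h : q ∈ m <;> by_cases h' : q ∈ m' <;> simp [h, h']

theorem nm_sq_pr (m : Finset (PK K)) :
    (nm (NK K) (sq m) : ℝ) = Real.exp (LVA.lg (NK K) m) := by
  classical
  unfold nm LVA.lg
  rw [Finsupp.prod, sq_support_pr, Real.exp_sum]
  push_cast
  refine Finset.prod_congr rfl fun q hq => ?_
  rw [ta1_apply, if_pos hq, pow_one]
  have h1 : (0 : ℝ) < NK K q := by
    have := two_le_NK q
    exact_mod_cast (by omega : 0 < NK K q)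
  rw [Real.exp_log h1]

theorem lK_sq_pr (m : Finset (PK K)) : lK (sq m) = LVA.lg (NK K) m := by
  unfold lK
  rw [nm_sq_pr, Real.log_exp]

theorem cop_sq_pr {𝔮 : Ideal (𝓞 K)} (h𝔮 : 𝔮 ≠ ⊥) {m : Finset (PK K)} (h : Disjoint m (QK 𝔮)) :
    IsCoprime (IK (sq m)) 𝔮 := by
  classical
  rw [← cop_QK h𝔮]
  intro q hq
  rw [ta1_apply, if_neg]
  intro h1
  exact Finset.disjoint_left.1 h h1 hq

theorem lg_QK_pr {𝔮 : Ideal (𝓞 K)} (h𝔮 : 𝔮 ≠ ⊥) :
    LVA.lg (NK K) (QK 𝔮) ≤ Real.log (Ideal.absNorm 𝔮) := sum_log_QK h𝔮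


end Pool.Agent.LVK

namespace Pool.Agent.LVK

theorem sq_support : type_of% @sq_support_pr := @sq_support_pr
theorem sq_inj : type_of% @sq_inj_pr := @sq_inj_pr
theorem sq_empty : type_of% @sq_empty_pr := @sq_empty_pr
theorem sq_le : type_of% @sq_le_pr := @sq_le_pr
theorem sq_inf : type_of% @sq_inf_pr := @sq_inf_pr
theorem sq_sup : type_of% @sq_sup_pr := @sq_sup_pr
theorem nm_sq : type_of% @nm_sq_pr := @nm_sq_pr
theorem lK_sq : type_of% @lK_sq_pr := @lK_sq_pr
theorem cop_sq : type_of% @cop_sq_pr := @cop_sq_pr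
theorem lg_QK : type_of% @lg_QK_pr := @lg_QK_pr

end Pool.Agent.LVK
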