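import Pool.Agent.Lib_helper42.LVK.DefsT
import Pool.Agent.Lib_helper42.LVK.Defs
import Pool.Agent.Lib_helper41.HZF.YB
import Pool.Agent.Lib_helper41.HZF.KG
import Pool.Agent.Lib_helper92.KSA.BRG
import Pool.Agent.Lib_helper92.KSA.LATU
import Pool.Agent.Lib_helper92.KSA.LNZ
import Pool.Agent.Lib_helper92.LVA.Defs
import Pool.Agent.Lib_helper92.KSA.KPO
import Pool.Agent.Lib_helper92.KSA.ZKA
import Pool.Agent.Lib_helper92.ASA.All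
import Pool.Agent.Lib_helper92.KSA.GDK
import Pool.Agent.Lib_helper92.LVAF.All
import Pool.Agent.Lib_helper39.LVX.K_KP6
import Pool.Agent.Lib_helper39.LVX.K_TA1

/-!
# LVK block TA2: the mollifier of part A
-/

namespace Pool.Agent.LVK

open NumberField NumberField.InfinitePlace NumberField.Units Complex MeasureTheory Filter Topology
open Pool.Agent.HZ Pool.Agent.AS Pool.Agent.KS

variable {K : Type} [Field K] [NumberField K]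

theorem ta2_good (K : Type) [Field K] [NumberField K] : Good (NK K) := good_NK K

theorem mem_SM_pr {𝔮 : Ideal (𝓞 K)} {θ L : ℝ} {g : PK K →₀ ℕ} :
    g ∈ SM 𝔮 θ L ↔ ∃ m ∈ LVA.SF (NK K) (QK 𝔮) (θ * L), sq m = g := by
  classical
  unfold SM
  rw [Finset.mem_image]

theorem SM_cop_pr {𝔮 : Ideal (𝓞 K)} (h𝔮 : 𝔮 ≠ ⊥) {θ L : ℝ} {g : PK K →₀ ℕ}
    (hg : g ∈ SM 𝔮 θ L) : IsCoprime (IK g) 𝔮 ∧ lK g ≤ θ * L := by
  obtain ⟨m, hm, rfl⟩ := mem_SM_pr.1 hg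
  obtain ⟨h1, h2⟩ := (LVA.mem_SF (ta2_good K)).1 hm
  refine ⟨cop_sq h𝔮 h1, ?_⟩
  rw [lK_sq]
  exact h2

theorem zero_SM_pr {𝔮 : Ideal (𝓞 K)} {θ L : ℝ} (h : 0 ≤ θ * L) :
    (0 : PK K →₀ ℕ) ∈ SM 𝔮 θ L := by
  refine mem_SM_pr.2 ⟨∅, (LVA.mem_SF (ta2_good K)).2 ⟨Finset.disjoint_empty_left _, ?_⟩, sq_empty⟩
  rw [LVA.lg_empty]
  exact h

theorem aM_zero_pr {𝔮 : Ideal (𝓞 K)} {b θ R L : ℝ} (hb : |b| ≤ 1 / 2) (h : 0 < θ * L) :
    aM 𝔮 b θ R L (0 : PK K →₀ ℕ) = 1 := by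
  unfold aM LVA.am
  rw [Finsupp.support_zero, LVA.lam_empty (ta2_good K) hb h, LVA.lg_empty]
  simp

/-- sums over the mollifier -/
theorem sum_SM_pr (𝔮 : Ideal (𝓞 K)) (θ L : ℝ) {M : Type} [AddCommMonoid M]
    (f : (PK K →₀ ℕ) → M) :
    ∑ g ∈ SM 𝔮 θ L, f g = ∑ m ∈ LVA.SF (NK K) (QK 𝔮) (θ * L), f (sq m) := by
  classical
  unfold SM
  rw [Finset.sum_image fun x _ y _ h => sq_inj h]

theorem ta2_aM_sq (𝔮 : Ideal (𝓞 K)) (b θ R L : ℝ) (m : Finset (PK K)) :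
    aM 𝔮 b θ R L (sq m) = LVA.am (NK K) b θ R L (QK 𝔮) m := by
  unfold aM
  rw [sq_support]

/-- uniform bound for the coefficients -/
theorem aM_abs_pr (K : Type) [Field K] [NumberField K] {ε : ℝ} (hε : 0 < ε) : ∃ C : ℝ, 1 ≤ C ∧
    ∀ (𝔮 : Ideal (𝓞 K)) (b θ R L : ℝ), |b| ≤ 1 / 2 → 0 < θ → 0 ≤ R → 0 < L →
      ∀ g : PK K →₀ ℕ, g ∈ SM 𝔮 θ L → |aM 𝔮 b θ R L g| ≤ C * Real.exp (ε * lK g) := by
  obtain ⟨C, hC, h⟩ := LVA.am_abs (ta2_good K) hε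
  refine ⟨C, hC, fun 𝔮 b θ R L hb hθ hR hL g hg => ?_⟩
  obtain ⟨m, hm, rfl⟩ := mem_SM_pr.1 hg
  rw [ta2_aM_sq, lK_sq]
  exact h b θ R L (QK 𝔮) m hb hθ hR hL

open scoped Classical in
theorem ta2_Sh (𝔮 : Ideal (𝓞 K)) (t : ℝ) :
    ∑ m ∈ LVA.SF (NK K) (QK 𝔮) t, ((nm (NK K) (sq m) : ℝ))⁻¹ ≤ LVA.Sh (NK K) t := by
  unfold LVA.Sh
  have h : ∑ m ∈ LVA.SF (NK K) (QK 𝔮) t, ((nm (NK K) (sq m) : ℝ))⁻¹ =
      ∑ g ∈ (LVA.SF (NK K) (QK 𝔮) t).image sq, ((nm (NK K) g : ℝ))⁻¹ := by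
    rw [Finset.sum_image fun x _ y _ h => sq_inj h]
  rw [h]
  refine Finset.sum_le_sum_of_subset_of_nonneg ?_ fun g _ _ => by positivity
  intro g hg
  obtain ⟨m, hm, rfl⟩ := Finset.mem_image.1 hg
  rw [AS.mem_ball (ta2_good K), nm_sq]
  exact Real.exp_le_exp.2 ((LVA.mem_SF (ta2_good K)).1 hm).2

theorem sum_aM_pr (K : Type) [Field K] [NumberField K] {ε : ℝ} (hε : 0 < ε) : ∃ C : ℝ, 1 ≤ C ∧
    ∀ (𝔮 : Ideal (𝓞 K)) (b θ R L : ℝ), |b| ≤ 1 / 2 → 0 < θ → θ ≤ 1 → 0 ≤ R → 1 ≤ L →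
      ∑ g ∈ SM 𝔮 θ L, |aM 𝔮 b θ R L g| ≤ C * Real.exp ((θ + ε) * L) ∧
      ∑ g ∈ SM 𝔮 θ L, |aM 𝔮 b θ R L g| / nm (NK K) g ≤ C * Real.exp (ε * L) := by
  have hε2 : 0 < ε / 2 := by linarith
  obtain ⟨C₁, hC₁, h1⟩ := LVA.am_abs (ta2_good K) hε2
  obtain ⟨C₂, hC₂, h2⟩ := LVA.card_SF (ta2_good K) (cnt_K (K := K))
  obtain ⟨C₃, hC₃, h3⟩ := LVA.Sh_asymp (ta2_good K) (cnt_K (K := K)) one_pos
  have hρ : 0 < dedekindZeta_residue K := (cnt_K (K := K)).1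
  set ρ := dedekindZeta_residue K with hρd
  have hD : 0 ≤ (ρ + 1) * (2 / ε) + C₃ := by positivity
  refine ⟨C₁ * C₂ + C₁ * ((ρ + 1) * (2 / ε) + C₃), ?_, ?_⟩
  · have : 1 ≤ C₁ * C₂ := one_le_mul_of_one_le_of_one_le hC₁ hC₂
    have h0 : 0 ≤ C₁ * ((ρ + 1) * (2 / ε) + C₃) := by positivity
    linarith
  intro 𝔮 b θ R L hb hθ hθ1 hR hL
  have hL0 : 0 < L := by linarith
  have hθL : 0 ≤ θ * L := by positivity
  have hθLL : θ * L ≤ L := by nlinarith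
  -- the bound of one coefficient
  have hone : ∀ m ∈ LVA.SF (NK K) (QK 𝔮) (θ * L),
      |LVA.am (NK K) b θ R L (QK 𝔮) m| ≤ C₁ * Real.exp (ε / 2 * L) := by
    intro m hm
    refine (h1 b θ R L (QK 𝔮) m hb hθ hR hL0).trans ?_
    have h4 := ((LVA.mem_SF (ta2_good K)).1 hm).2
    gcongr
    linarith
  constructor
  · rw [sum_SM_pr]
    simp only [ta2_aM_sq]
    have h5 : ∑ m ∈ LVA.SF (NK K) (QK 𝔮) (θ * L), |LVA.am (NK K) b θ R L (QK 𝔮) m| ≤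
        (LVA.SF (NK K) (QK 𝔮) (θ * L)).card * (C₁ * Real.exp (ε / 2 * L)) := by
      refine (Finset.sum_le_sum hone).trans ?_
      rw [Finset.sum_const, nsmul_eq_mul]
    have h6 := h2 (QK 𝔮) (θ * L) hθL
    calc ∑ m ∈ LVA.SF (NK K) (QK 𝔮) (θ * L), |LVA.am (NK K) b θ R L (QK 𝔮) m|
        ≤ (LVA.SF (NK K) (QK 𝔮) (θ * L)).card * (C₁ * Real.exp (ε / 2 * L)) := h5
      _ ≤ (C₂ * Real.exp (θ * L)) * (C₁ * Real.exp (ε / 2 * L)) := by gcongr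
      _ = C₁ * C₂ * Real.exp ((θ + ε / 2) * L) := by
          rw [add_mul, Real.exp_add]; ring
      _ ≤ (C₁ * C₂ + C₁ * ((ρ + 1) * (2 / ε) + C₃)) * Real.exp ((θ + ε) * L) := by
          have h7 : Real.exp ((θ + ε / 2) * L) ≤ Real.exp ((θ + ε) * L) := by
            apply Real.exp_le_exp.2
            nlinarith
          have h8 : 0 ≤ C₁ * ((ρ + 1) * (2 / ε) + C₃) := by positivity
          have h9 : C₁ * C₂ ≤ C₁ * C₂ + C₁ * ((ρ + 1) * (2 / ε) + C₃) := by linarith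
          exact mul_le_mul h9 h7 (Real.exp_pos _).le (by positivity)
  · rw [sum_SM_pr]
    simp only [ta2_aM_sq]
    have h5 : ∑ m ∈ LVA.SF (NK K) (QK 𝔮) (θ * L),
        |LVA.am (NK K) b θ R L (QK 𝔮) m| / (nm (NK K) (sq m) : ℝ) ≤
        C₁ * Real.exp (ε / 2 * L) * LVA.Sh (NK K) (θ * L) := by
      calc ∑ m ∈ LVA.SF (NK K) (QK 𝔮) (θ * L),
            |LVA.am (NK K) b θ R L (QK 𝔮) m| / (nm (NK K) (sq m) : ℝ)
          ≤ ∑ m ∈ LVA.SF (NK K) (QK 𝔮) (θ * L),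
            (C₁ * Real.exp (ε / 2 * L)) * ((nm (NK K) (sq m) : ℝ))⁻¹ := by
            refine Finset.sum_le_sum fun m hm => ?_
            rw [div_eq_mul_inv]
            exact mul_le_mul_of_nonneg_right (hone m hm) (by positivity)
        _ = (C₁ * Real.exp (ε / 2 * L)) * ∑ m ∈ LVA.SF (NK K) (QK 𝔮) (θ * L),
            ((nm (NK K) (sq m) : ℝ))⁻¹ := by rw [Finset.mul_sum]
        _ ≤ (C₁ * Real.exp (ε / 2 * L)) * LVA.Sh (NK K) (θ * L) := by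
            gcongr
            exact ta2_Sh 𝔮 (θ * L)
    have h6 : LVA.Sh (NK K) (θ * L) ≤ ((ρ + 1) * (2 / ε) + C₃) * Real.exp (ε / 2 * L) := by
      have h7 := (abs_le.1 (h3 (θ * L) hθL)).2
      have h8 : ε / 2 * L ≤ Real.exp (ε / 2 * L) := by
        have := Real.add_one_le_exp (ε / 2 * L)
        linarith
      have h9 : L ≤ 2 / ε * Real.exp (ε / 2 * L) := by
        calc L = 2 / ε * (ε / 2 * L) := by field_simp
          _ ≤ 2 / ε * Real.exp (ε / 2 * L) := by gcongr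
      have h10 : 1 ≤ Real.exp (ε / 2 * L) := Real.one_le_exp (by positivity)
      have h11 : (ρ + 1) * (θ * L) ≤ (ρ + 1) * (2 / ε * Real.exp (ε / 2 * L)) :=
        mul_le_mul_of_nonneg_left (by linarith) (by positivity)
      have h12 : C₃ ≤ C₃ * Real.exp (ε / 2 * L) := le_mul_of_one_le_right hC₃ h10
      calc LVA.Sh (NK K) (θ * L) ≤ (ρ + 1) * (θ * L) + C₃ := by linarith
        _ ≤ (ρ + 1) * (2 / ε * Real.exp (ε / 2 * L)) + C₃ * Real.exp (ε / 2 * L) := by linarith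
        _ = _ := by ring
    calc ∑ m ∈ LVA.SF (NK K) (QK 𝔮) (θ * L),
          |LVA.am (NK K) b θ R L (QK 𝔮) m| / (nm (NK K) (sq m) : ℝ)
        ≤ C₁ * Real.exp (ε / 2 * L) * LVA.Sh (NK K) (θ * L) := h5
      _ ≤ C₁ * Real.exp (ε / 2 * L) *
          (((ρ + 1) * (2 / ε) + C₃) * Real.exp (ε / 2 * L)) := by gcongr
      _ = C₁ * ((ρ + 1) * (2 / ε) + C₃) * Real.exp (ε * L) := by
          have : Real.exp (ε * L) = Real.exp (ε / 2 * L) * Real.exp (ε / 2 * L) := by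
            rw [← Real.exp_add]; congr 1; ring
          rw [this]; ring
      _ ≤ (C₁ * C₂ + C₁ * ((ρ + 1) * (2 / ε) + C₃)) * Real.exp (ε * L) := by
          have h8 : 0 ≤ C₁ * C₂ := by positivity
          gcongr
          linarith


end Pool.Agent.LVK

namespace Pool.Agent.LVK

theorem mem_SM : type_of% @mem_SM_pr := @mem_SM_pr
theorem SM_cop : type_of% @SM_cop_pr := @SM_cop_pr
theorem zero_SM : type_of% @zero_SM_pr := @zero_SM_pr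
theorem aM_zero : type_of% @aM_zero_pr := @aM_zero_pr
theorem sum_SM : type_of% @sum_SM_pr := @sum_SM_pr
theorem aM_abs : type_of% @aM_abs_pr := @aM_abs_pr
theorem sum_aM : type_of% @sum_aM_pr := @sum_aM_pr

end Pool.Agent.LVK
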