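import Pool.Agent.Lib_helper42.LVK.DefsT
import Pool.Agent.Lib_helper42.LVK.Defs
import Pool.Agent.Lib_helper41.HZF.YB
import Pool.Agent.Lib_helper41.HZF.KG
import Pool.Agent.Lib_helper92.KSA.BRG
import Pool.Agent.Lib_helper92.KSA.LATU
import Pool.Agent.Lib_helper92.KSA.LNZ
import Pool.Agent.Lib_helper92.LVA.Defs
import Pool.Agent.Lib_helper92.KSA.KPO
import Pool.Agent.Lib_helper92.KSA.ZKA
import Pool.Agent.Lib_helper92.ASA.All
import Pool.Agent.Lib_helper92.KSA.GDK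
import Pool.Agent.Lib_helper92.LVAF.All
import Pool.Agent.Lib_helper39.LVX.K_TA1
import Pool.Agent.Lib_helper39.LVX.K_TA2

/-!
# LVK part T, block TA3A: the diagonals of part A
-/

namespace Pool.Agent.LVK

open NumberField NumberField.InfinitePlace NumberField.Units Complex MeasureTheory Filter Topology
open Pool.Agent.HZ Pool.Agent.AS Pool.Agent.KS

variable {K : Type} [Field K] [NumberField K]

theorem ta3a_aM (𝔮 : Ideal (𝓞 K)) (b θ R L : ℝ) (m : Finset (PK K)) :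
    aM 𝔮 b θ R L (sq m) = LVA.am (NK K) b θ R L (QK 𝔮) m := by
  unfold aM
  rw [sq_support]

open scoped Classical in
theorem ta3a_bS (𝔮 : Ideal (𝓞 K)) (b θ R η L u : ℝ) (g : PK K →₀ ℕ) :
    bS (SM 𝔮 θ L) (aM 𝔮 b θ R L) η L u g =
      ∑ m ∈ (LVA.SF (NK K) (QK 𝔮) (θ * L)).filter (fun m => m ⊆ g.support),
        LVA.am (NK K) b θ R L (QK 𝔮) m * (1 + η * (u + LVA.lg (NK K) m) / L) := by
  unfold bS
  rw [sum_SM, Finset.sum_filter]
  refine Finset.sum_congr rfl fun m _ => ?_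
  simp only [sq_le, ta3a_aM, lK_sq]

open scoped Classical in
theorem DIR_eq_pr (𝔮 : Ideal (𝓞 K)) {k : ℝ → ℝ} {ρ : ℝ} (hk : Kern (NK K) k ρ)
    (b θ R η L U : ℝ) :
    (DIR k (QK 𝔮) (SM 𝔮 θ L) (aM 𝔮 b θ R L) η L (1 / 2 - R / L) U : ℂ) =
      ∫ u in Set.Ioi (-U), LVA.dirF (NK K) k b θ R L (QK 𝔮) (fun y => 1 + η * y)
        (fun y => 1 + η * y) u := by
  unfold DIR
  rw [← integral_complex_ofReal]
  refine setIntegral_congr_fun measurableSet_Ioi fun u _ => ?_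
  have h1 := (LVA.dir_square (good_NK_pr K) hk (QK 𝔮) (θ * L) u
    (fun m => LVA.am (NK K) b θ R L (QK 𝔮) m * (1 + η * (u + LVA.lg (NK K) m) / L))).2
  have h2 : (∑' g : PK K →₀ ℕ, if Cop (QK 𝔮) g then
      bS (SM 𝔮 θ L) (aM 𝔮 b θ R L) η L u g ^ 2 * k (u + lK g) else 0) =
      ∑ m ∈ LVA.SF (NK K) (QK 𝔮) (θ * L), ∑ n ∈ LVA.SF (NK K) (QK 𝔮) (θ * L),
        (LVA.am (NK K) b θ R L (QK 𝔮) m * (1 + η * (u + LVA.lg (NK K) m) / L)) *
        (LVA.am (NK K) b θ R L (QK 𝔮) n * (1 + η * (u + LVA.lg (NK K) n) / L)) *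
          WW (NK K) k (QK 𝔮) (u + LVA.lg (NK K) (m ∪ n)) := by
    rw [← h1]
    refine tsum_congr fun g => ?_
    rw [ta3a_bS]
    rfl
  rw [h2]
  unfold LVA.dirF
  rw [ofReal_mul, ofReal_exp]
  congr 1
  · congr 2
    ring
  · push_cast
    refine Finset.sum_congr rfl fun m _ => Finset.sum_congr rfl fun n _ => ?_
    ring

open scoped Classical in
theorem DUAL_eq_pr (𝔮 : Ideal (𝓞 K)) (k : ℝ → ℝ) (b θ R η L U ℓ : ℝ) :
    (DUAL k (QK 𝔮) (SM 𝔮 θ L) (aM 𝔮 b θ R L) η L (1 / 2 - R / L) U ℓ : ℂ) =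
      ∫ u in Set.Iio (-U), LVA.dualF (NK K) k b θ R L ℓ (QK 𝔮) (fun y => 1 + η * y)
        (fun y => 1 + η * y) u := by
  unfold DUAL
  rw [← integral_const_mul, ← integral_complex_ofReal, integral_Iic_eq_integral_Iio]
  refine setIntegral_congr_fun measurableSet_Iio fun u _ => ?_
  unfold LVA.dualF
  rw [← mul_assoc, ofReal_mul, ← Real.exp_add, ofReal_exp]
  congr 1
  · congr 2
    ring
  · rw [sum_SM]
    push_cast
    refine Finset.sum_congr rfl fun m _ => ?_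
    rw [sum_SM]
    refine Finset.sum_congr rfl fun n _ => ?_
    rw [ta3a_aM, ta3a_aM, sq_inf, lK_sq, lK_sq, lK_sq]
    have h1 : ((nm (NK K) (sq m) : ℕ) : ℂ) = Complex.exp (LVA.lg (NK K) m) := by
      have h := nm_sq m
      rw [← ofReal_exp, ← h]
      push_cast
      rfl
    have h2 : ((nm (NK K) (sq n) : ℕ) : ℂ) = Complex.exp (LVA.lg (NK K) n) := by
      have h := nm_sq n
      rw [← ofReal_exp, ← h]
      push_cast
      rfl
    rw [h1, h2, ← Complex.exp_add, div_eq_mul_inv, ← Complex.exp_neg]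
    ring


end Pool.Agent.LVK

namespace Pool.Agent.LVK

theorem DIR_eq : type_of% @DIR_eq_pr := @DIR_eq_pr
theorem DUAL_eq : type_of% @DUAL_eq_pr := @DUAL_eq_pr

end Pool.Agent.LVK
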