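import Pool.Agent.Lib_helper42.LVK.DefsT
import Pool.Agent.Lib_helper42.LVK.Defs
import Pool.Agent.Lib_helper41.HZF.YB
import Pool.Agent.Lib_helper41.HZF.KG
import Pool.Agent.Lib_helper92.KSA.BRG
import Pool.Agent.Lib_helper92.KSA.LATU
import Pool.Agent.Lib_helper92.KSA.LNZ
import Pool.Agent.Lib_helper92.LVA.Defs
import Pool.Agent.Lib_helper92.KSA.KPO
import Pool.Agent.Lib_helper92.KSA.ZKA
import Pool.Agent.Lib_helper92.ASA.All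
import Pool.Agent.Lib_helper92.KSA.GDK
import Pool.Agent.Lib_helper92.LVAF.All
import Pool.Agent.Lib_helper39.LVX.K_KP5B
import Pool.Agent.Lib_helper39.LVX.K_KP6
import Pool.Agent.Lib_helper39.LVX.K_TA1
import Pool.Agent.Lib_helper39.LVX.K_TA3A

/-!
# LVK part T, block TA3B: part A in the notation of part M
-/

namespace Pool.Agent.LVK

open NumberField NumberField.InfinitePlace NumberField.Units Complex MeasureTheory Filter Topology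
open Pool.Agent.HZ Pool.Agent.AS Pool.Agent.KS

variable {K : Type} [Field K] [NumberField K]

/-- part A in the notation of part M -/
theorem partA_M_pr {κ : InfinitePlace K → ℤ} (T : TD K) {b θ R lm ε₀ ε : ℝ}
    (hb : |b| ≤ 1 / 2) (hθ : 0 < θ) (hR : 1 ≤ R) (hε₀ : 0 < ε₀) (hε : 0 < ε) :
    ∃ L₀ : ℝ, 1 ≤ L₀ ∧ ∀ (𝔮 : Ideal (𝓞 K)) (_ : 𝔮 ≠ ⊥) (L : ℝ) (_ : L₀ ≤ L)
      (_ : L = Real.log (Ideal.absNorm 𝔮)) (U : ℝ) (_ : (2 * θ + 6 * ε₀) * L ≤ U)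
      (_ : U ≤ (1 - 6 * ε₀) * L),
      DIR (kk κ T) (QK 𝔮) (SM 𝔮 θ L) (aM 𝔮 b θ R L) lm L (1 / 2 - R / L) U +
        DUAL (kk κ T.star) (QK 𝔮) (SM 𝔮 θ L) (aM 𝔮 b θ R L) lm L (1 / 2 - R / L) U
          (Real.log (cond 𝔮)) ≤ nrm κ T * LVA.cc b θ R lm + ε := by
  classical
  have hC : LVA.Cnt (NK K) (dedekindZeta_residue K) := cnt_K
  have hk₁ := kern_kk κ T
  have hk₂ := kern_kk κ T.star
  rw [nrm_star] at hk₂
  have hdisc : (1 : ℝ) ≤ |(discr K : ℝ)| := by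
    have h1 : (discr K : ℤ) ≠ 0 := discr_ne_zero K
    have h2 : 1 ≤ |discr K| := Int.one_le_abs h1
    exact_mod_cast h2
  obtain ⟨δ₀, hδ₀⟩ : ∃ δ₀, δ₀ = Real.log |(discr K : ℝ)| := ⟨_, rfl⟩
  have hδ₀0 : 0 ≤ δ₀ := by rw [hδ₀]; exact Real.log_nonneg hdisc
  obtain ⟨L₀, hL₀, h⟩ := LVA.partA (good_NK_pr K) hC hk₁ hk₂ (b := b) (θ := θ) (R := R)
    (lm := lm) (ε₀ := ε₀) (δ₀ := δ₀) (ε := ε) hb hθ hR hε₀ hδ₀0 hε
  refine ⟨L₀, hL₀, fun 𝔮 h𝔮 L hL hLq U hU1 hU2 => ?_⟩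
  have hN0 : (Ideal.absNorm 𝔮 : ℝ) ≠ 0 := by
    have : Ideal.absNorm 𝔮 ≠ 0 := by
      rw [Ne, Ideal.absNorm_eq_zero_iff]
      exact h𝔮
    exact_mod_cast this
  have hcond : Real.log (cond 𝔮) = δ₀ + L := by
    unfold Pool.Agent.HZ.cond
    rw [Real.log_mul (by positivity) hN0, ← hδ₀, ← hLq]
  have hlg : LVA.lg (NK K) (QK 𝔮) ≤ L := by
    rw [hLq]
    exact lg_QK h𝔮
  have hℓ : |Real.log (cond 𝔮) - L| ≤ δ₀ := by
    rw [hcond, add_sub_cancel_right, abs_of_nonneg hδ₀0]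
  obtain ⟨_, _, h1⟩ := h L hL (QK 𝔮) hlg (Real.log (cond 𝔮)) hℓ U hU1 hU2
  rw [← DIR_eq 𝔮 hk₁ b θ R lm L U, ← DUAL_eq 𝔮 (kk κ T.star) b θ R lm L U (Real.log (cond 𝔮)),
    ← ofReal_add, ← ofReal_sub, Complex.norm_real, Real.norm_eq_abs] at h1
  have h2 := (abs_le.1 h1).2
  have h3 : dedekindZeta_residue K * nrm κ T / dedekindZeta_residue K * LVA.cc b θ R lm =
      nrm κ T * LVA.cc b θ R lm := by
    have := hC.1.ne'
    field_simp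
  rw [h3] at h2
  linarith


end Pool.Agent.LVK

namespace Pool.Agent.LVK

theorem partA_M : type_of% @partA_M_pr := @partA_M_pr

end Pool.Agent.LVK
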