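import Pool.Agent.Lib_helper42.LVK.DefsT
import Pool.Agent.Lib_helper42.LVK.Defs
import Pool.Agent.Lib_helper41.HZF.YB
import Pool.Agent.Lib_helper41.HZF.KG
import Pool.Agent.Lib_helper92.KSA.BRG
import Pool.Agent.Lib_helper92.KSA.LATU
import Pool.Agent.Lib_helper92.KSA.LNZ
import Pool.Agent.Lib_helper92.LVA.Defs
import Pool.Agent.Lib_helper92.KSA.KPO
import Pool.Agent.Lib_helper92.KSA.ZKA
import Pool.Agent.Lib_helper92.ASA.All
import Pool.Agent.Lib_helper92.KSA.GDK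
import Pool.Agent.Lib_helper92.LVAF.All
import Pool.Agent.Lib_helper39.LVX.K_KP6
import Pool.Agent.Lib_helper39.LVX.K_TA1
import Pool.Agent.Lib_helper39.LVX.K_TA2

/-!
# LVK part T, block TA4: the coefficients far to the right
-/

namespace Pool.Agent.LVK

open NumberField NumberField.InfinitePlace NumberField.Units Complex MeasureTheory Filter Topology
open Pool.Agent.HZ Pool.Agent.AS Pool.Agent.KS

variable {K : Type} [Field K] [NumberField K]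

open scoped Classical in
/-- a sum over the mollifier, restricted to the divisors of `g` -/
theorem ta4_sum (𝔮 : Ideal (𝓞 K)) (b θ R L : ℝ) (g : PK K →₀ ℕ) (F : ℝ → ℝ) (hF : F 0 = 0) :
    (∑ m ∈ SM 𝔮 θ L, if m ≤ g then F (aM 𝔮 b θ R L m) else 0) =
      ∑ m ∈ g.support.powerset, F (LVA.am (NK K) b θ R L (QK 𝔮) m) := by
  rw [sum_SM]
  have h1 : ∀ m ∈ LVA.SF (NK K) (QK 𝔮) (θ * L),
      (if sq m ≤ g then F (aM 𝔮 b θ R L (sq m)) else 0) =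
        if m ⊆ g.support then F (LVA.am (NK K) b θ R L (QK 𝔮) m) else 0 := by
    intro m _
    simp only [sq_le, aM, sq_support]
  rw [Finset.sum_congr rfl h1, ← Finset.sum_filter]
  apply Finset.sum_subset
  · intro m hm
    rw [Finset.mem_filter] at hm
    exact Finset.mem_powerset.2 hm.2
  · intro m hm hm'
    have h2 : m ∉ LVA.SF (NK K) (QK 𝔮) (θ * L) := fun h =>
      hm' (Finset.mem_filter.2 ⟨h, Finset.mem_powerset.1 hm⟩)
    unfold LVA.am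
    rw [LVA.lam_zero (good_NK_pr K) h2, zero_mul, hF]

open scoped Classical in
theorem bet_eq_pr (𝔮 : Ideal (𝓞 K)) (b θ R L : ℝ) (g : PK K →₀ ℕ) :
    bet (SM 𝔮 θ L) (aM 𝔮 b θ R L) L g =
      |∑ m ∈ g.support.powerset, LVA.am (NK K) b θ R L (QK 𝔮) m| +
        (1 + lK g) / L * ∑ m ∈ g.support.powerset, |LVA.am (NK K) b θ R L (QK 𝔮) m| := by
  unfold bet
  rw [ta4_sum 𝔮 b θ R L g (fun x => x) rfl, ta4_sum 𝔮 b θ R L g (fun x => |x|) abs_zero]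

open scoped Classical in
theorem bet_small_pr (K : Type) [Field K] [NumberField K] {b θ R ε : ℝ} (hb : |b| ≤ 1 / 2)
    (hθ : 0 < θ) (hθ1 : θ ≤ 1) (hR : 0 ≤ R) (hε : 0 < ε) :
    ∃ L₀ : ℝ, 1 ≤ L₀ ∧ ∀ (𝔮 : Ideal (𝓞 K)) (_ : 𝔮 ≠ ⊥) (L : ℝ) (_ : L₀ ≤ L)
      (_ : L = Real.log (Ideal.absNorm 𝔮)),
      ∑' g : PK K →₀ ℕ, (if g ≠ 0 ∧ Cop (QK 𝔮) g then
        ((nm (NK K) g : ℝ)⁻¹) ^ 2 * bet (SM 𝔮 θ L) (aM 𝔮 b θ R L) L g else 0) ≤ ε := by
  obtain ⟨L₀, hL₀, h⟩ := LVA.beta_small (good_NK_pr K) (cnt_K (K := K)) hb hθ hθ1 hR hε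
  refine ⟨L₀, hL₀, fun 𝔮 h𝔮 L hL hLq => ?_⟩
  have h1 : LVA.lg (NK K) (QK 𝔮) ≤ L := by rw [hLq]; exact lg_QK h𝔮
  refine le_trans (le_of_eq ?_) (h L hL (QK 𝔮) h1).2
  refine tsum_congr fun g => ?_
  rw [bet_eq_pr]
  rfl


end Pool.Agent.LVK

namespace Pool.Agent.LVK

theorem bet_eq : type_of% @bet_eq_pr := @bet_eq_pr
theorem bet_small : type_of% @bet_small_pr := @bet_small_pr

end Pool.Agent.LVK
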