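import Pool.Agent.Lib_helper42.LVK.DefsT
import Pool.Agent.Lib_helper42.LVK.Defs
import Pool.Agent.Lib_helper41.HZF.YB
import Pool.Agent.Lib_helper41.HZF.KG
import Pool.Agent.Lib_helper92.KSA.BRG
import Pool.Agent.Lib_helper92.KSA.LATU
import Pool.Agent.Lib_helper92.KSA.LNZ
import Pool.Agent.Lib_helper92.LVA.Defs
import Pool.Agent.Lib_helper92.KSA.KPO
import Pool.Agent.Lib_helper92.KSA.ZKA
import Pool.Agent.Lib_helper92.ASA.All
import Pool.Agent.Lib_helper39.LVX.K_MC4A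
import Pool.Agent.Lib_helper39.LVX.K_MC4B
import Pool.Agent.Lib_helper39.LVX.K_TA2

/-!
# LVK block TB1: the error terms are `o(nprim)`
-/

namespace Pool.Agent.LVK

open NumberField NumberField.InfinitePlace NumberField.Units Complex MeasureTheory Filter Topology
open Pool.Agent.HZ Pool.Agent.AS Pool.Agent.KS

variable {K : Type} [Field K] [NumberField K]

theorem tb1_exp_beats {D c ε : ℝ} (hc : 0 < c) (hε : 0 < ε) (hD : 0 ≤ D) :
    ∃ L₀ : ℝ, 1 ≤ L₀ ∧ ∀ L : ℝ, L₀ ≤ L → D * Real.exp (-(c * L)) ≤ ε := by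
  refine ⟨max 1 (D / (ε * c)), le_max_left _ _, fun L hL => ?_⟩
  have h1 : D / (ε * c) ≤ L := le_trans (le_max_right _ _) hL
  have h2 : D ≤ L * (ε * c) := by rwa [div_le_iff₀ (by positivity)] at h1
  have h3 : c * L ≤ Real.exp (c * L) := le_trans (by linarith) (Real.add_one_le_exp (c * L))
  have h4 : D ≤ ε * Real.exp (c * L) := by
    calc D ≤ ε * (c * L) := by linarith
    _ ≤ ε * Real.exp (c * L) := mul_le_mul_of_nonneg_left h3 hε.le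
  rw [Real.exp_neg, ← div_eq_mul_inv, div_le_iff₀ (Real.exp_pos _)]
  exact h4

theorem famK_nprim_pr {𝔮 : Ideal (𝓞 K)} (h𝔮 : 𝔮 ≠ ⊥) {κ : InfinitePlace K → ℤ} {t : HDat 𝔮}
    (ht : t ∈ FamK 𝔮 κ) : 0 < nprim 𝔮 := by
  unfold nprim
  haveI : Finite (𝓞 K ⧸ 𝔮) := Ideal.finiteQuotientOfFreeOfNeBot 𝔮 h𝔮
  haveI : Finite (MulChar (𝓞 K ⧸ 𝔮) ℂ) := inferInstance
  haveI : Nonempty {χ : MulChar (𝓞 K ⧸ 𝔮) ℂ // IsPrim 𝔮 χ} := ⟨⟨t.χ, ht.2.1⟩⟩
  exact_mod_cast Nat.card_pos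

theorem omega_small_pr (K : Type) [Field K] [NumberField K] {c ε : ℝ} (hc : 0 < c) (hε : 0 < ε) :
    ∃ L₀ : ℝ, 1 ≤ L₀ ∧ ∀ (𝔮 : Ideal (𝓞 K)) (_ : 𝔮 ≠ ⊥) (L : ℝ) (_ : L₀ ≤ L)
      (_ : L = Real.log (Ideal.absNorm 𝔮)), 0 < nprim 𝔮 →
      2 ^ (QK 𝔮).card * Real.exp ((1 - c) * L) ≤ ε * nprim 𝔮 := by
  obtain ⟨C, hC1, hC⟩ := four_omega K (ε := c / 4) (by positivity)
  obtain ⟨L₀, hL₀, hL⟩ := tb1_exp_beats (D := C * C) (c := c / 2) (ε := ε) (by positivity) hε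
    (by positivity)
  refine ⟨L₀, hL₀, fun 𝔮 h𝔮 L hLL hLN hn => ?_⟩
  have hN0 : (0 : ℝ) < Ideal.absNorm 𝔮 := by
    have : Ideal.absNorm 𝔮 ≠ 0 := by rwa [Ne, Ideal.absNorm_eq_zero_iff]
    positivity
  have hNe : (Ideal.absNorm 𝔮 : ℝ) = Real.exp L := by rw [hLN, Real.exp_log hN0]
  have h4 := hC 𝔮 h𝔮
  rw [hNe, ← Real.exp_mul] at h4
  have hge : Real.exp L / 4 ^ (QK 𝔮).card ≤ nprim 𝔮 := by
    rcases nprim_ge h𝔮 with h | h
    · exact absurd h hn.ne'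
    · rwa [hNe] at h
  have hE := Real.exp_pos (L * (c / 4))
  have hge' : Real.exp L / (C * Real.exp (L * (c / 4))) ≤ nprim 𝔮 :=
    le_trans (div_le_div_of_nonneg_left (Real.exp_pos _).le (by positivity) h4) hge
  have h2 : (2 : ℝ) ^ (QK 𝔮).card ≤ C * Real.exp (L * (c / 4)) :=
    le_trans (pow_le_pow_left₀ (by norm_num) (by norm_num) _) h4
  have hb := hL L hLL
  calc (2 : ℝ) ^ (QK 𝔮).card * Real.exp ((1 - c) * L)
      ≤ C * Real.exp (L * (c / 4)) * Real.exp ((1 - c) * L) :=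
        mul_le_mul_of_nonneg_right h2 (Real.exp_pos _).le
    _ = (C * C * Real.exp (-(c / 2 * L))) * (Real.exp L / (C * Real.exp (L * (c / 4)))) := by
        have e1 : Real.exp ((1 - c) * L) * Real.exp (L * (c / 4)) * Real.exp (L * (c / 4)) =
            Real.exp (-(c / 2 * L)) * Real.exp L := by
          rw [← Real.exp_add, ← Real.exp_add, ← Real.exp_add]
          congr 1
          ring
        have hC0 : C ≠ 0 := by linarith
        have e2 : C * C * Real.exp (-(c / 2 * L)) *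
            (Real.exp L / (C * Real.exp (L * (c / 4)))) =
            C * C * Real.exp (-(c / 2 * L)) * Real.exp L / (C * Real.exp (L * (c / 4))) :=
          (mul_div_assoc _ _ _).symm
        rw [e2, eq_div_iff (mul_ne_zero hC0 hE.ne')]
        linear_combination (C * C) * e1
    _ ≤ ε * nprim 𝔮 := by
        have hq : 0 ≤ Real.exp L / (C * Real.exp (L * (c / 4))) := by positivity
        exact mul_le_mul hb hge' hq hε.le

theorem err_small_pr (K : Type) [Field K] [NumberField K] {b θ R ε₀ ε : ℝ} (hb : |b| ≤ 1 / 2)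
    (hθ : 0 < θ) (hR : 0 ≤ R) (hε₀ : 0 < ε₀) (hθ2 : 2 * θ + 6 * ε₀ ≤ 1 - 6 * ε₀)
    (hε : 0 < ε) :
    ∃ L₀ : ℝ, 1 ≤ L₀ ∧ ∀ (𝔮 : Ideal (𝓞 K)) (_ : 𝔮 ≠ ⊥) (L : ℝ) (_ : L₀ ≤ L)
      (_ : L = Real.log (Ideal.absNorm 𝔮)), 0 < nprim 𝔮 →
      2 ^ (QK 𝔮).card * ((L + Real.exp (L - (2 * θ + 6 * ε₀) * L)) *
          (∑ m ∈ SM 𝔮 θ L, |aM 𝔮 b θ R L m|) ^ 2 +
        Real.exp ((2 * θ + 6 * ε₀) * L) *
          (∑ m ∈ SM 𝔮 θ L, |aM 𝔮 b θ R L m| / nm (NK K) m) ^ 2) ≤ ε * nprim 𝔮 := by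
  obtain ⟨C, hC1, hC⟩ := sum_aM K (ε := ε₀ / 10) (by positivity)
  set D : ℝ := C ^ 2 * (1 / ε₀ + 2) with hD
  have hD0 : 0 < D := by positivity
  obtain ⟨L₀, hL₀, hL⟩ := omega_small_pr K (c := 5 * ε₀) (ε := ε / D) (by positivity)
    (by positivity)
  refine ⟨L₀, hL₀, fun 𝔮 h𝔮 L hLL hLN hn => ?_⟩
  have hL1 : 1 ≤ L := le_trans hL₀ hLL
  have hL0 : 0 < L := by linarith
  obtain ⟨hA, hB⟩ := hC 𝔮 b θ R L hb hθ (by linarith) hR hL1
  have hmain := hL 𝔮 h𝔮 L hLL hLN hn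
  set A := ∑ m ∈ SM 𝔮 θ L, |aM 𝔮 b θ R L m| with hAd
  set B := ∑ m ∈ SM 𝔮 θ L, |aM 𝔮 b θ R L m| / nm (NK K) m with hBd
  have hA0 : 0 ≤ A := Finset.sum_nonneg fun _ _ => abs_nonneg _
  have hB0 : 0 ≤ B := Finset.sum_nonneg fun _ _ => by positivity
  have hA2 : A ^ 2 ≤ C ^ 2 * Real.exp ((2 * θ + ε₀ / 5) * L) := by
    calc A ^ 2 ≤ (C * Real.exp ((θ + ε₀ / 10) * L)) ^ 2 := pow_le_pow_left₀ hA0 hA 2
    _ = C ^ 2 * Real.exp ((2 * θ + ε₀ / 5) * L) := by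
      rw [mul_pow, ← Real.exp_nat_mul]
      congr 2
      push_cast
      ring
  have hB2 : B ^ 2 ≤ C ^ 2 * Real.exp (ε₀ / 5 * L) := by
    calc B ^ 2 ≤ (C * Real.exp (ε₀ / 10 * L)) ^ 2 := pow_le_pow_left₀ hB0 hB 2
    _ = C ^ 2 * Real.exp (ε₀ / 5 * L) := by
      rw [mul_pow, ← Real.exp_nat_mul]
      congr 2
      push_cast
      ring
  have hLe : L ≤ 1 / ε₀ * Real.exp (ε₀ * L) := by
    have h1 : ε₀ * L ≤ Real.exp (ε₀ * L) := by linarith [Real.add_one_le_exp (ε₀ * L)]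
    rw [one_div, inv_mul_eq_div, le_div_iff₀ hε₀]
    linarith
  have k1 : L * A ^ 2 ≤ C ^ 2 * (1 / ε₀) * Real.exp ((1 - 5 * ε₀) * L) := by
    calc L * A ^ 2 ≤ (1 / ε₀ * Real.exp (ε₀ * L)) * (C ^ 2 * Real.exp ((2 * θ + ε₀ / 5) * L)) :=
          mul_le_mul hLe hA2 (by positivity) (by positivity)
      _ = C ^ 2 * (1 / ε₀) * (Real.exp (ε₀ * L) * Real.exp ((2 * θ + ε₀ / 5) * L)) := by ring
      _ ≤ C ^ 2 * (1 / ε₀) * Real.exp ((1 - 5 * ε₀) * L) := by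
          rw [← Real.exp_add]
          refine mul_le_mul_of_nonneg_left (Real.exp_le_exp.2 ?_) (by positivity)
          nlinarith
  have k2 : Real.exp (L - (2 * θ + 6 * ε₀) * L) * A ^ 2 ≤
      C ^ 2 * Real.exp ((1 - 5 * ε₀) * L) := by
    calc Real.exp (L - (2 * θ + 6 * ε₀) * L) * A ^ 2
        ≤ Real.exp (L - (2 * θ + 6 * ε₀) * L) * (C ^ 2 * Real.exp ((2 * θ + ε₀ / 5) * L)) :=
          mul_le_mul_of_nonneg_left hA2 (Real.exp_pos _).le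
      _ = C ^ 2 * (Real.exp (L - (2 * θ + 6 * ε₀) * L) * Real.exp ((2 * θ + ε₀ / 5) * L)) := by
          ring
      _ ≤ C ^ 2 * Real.exp ((1 - 5 * ε₀) * L) := by
          rw [← Real.exp_add]
          refine mul_le_mul_of_nonneg_left (Real.exp_le_exp.2 ?_) (by positivity)
          nlinarith
  have k3 : Real.exp ((2 * θ + 6 * ε₀) * L) * B ^ 2 ≤
      C ^ 2 * Real.exp ((1 - 5 * ε₀) * L) := by
    calc Real.exp ((2 * θ + 6 * ε₀) * L) * B ^ 2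
        ≤ Real.exp ((2 * θ + 6 * ε₀) * L) * (C ^ 2 * Real.exp (ε₀ / 5 * L)) :=
          mul_le_mul_of_nonneg_left hB2 (Real.exp_pos _).le
      _ = C ^ 2 * (Real.exp ((2 * θ + 6 * ε₀) * L) * Real.exp (ε₀ / 5 * L)) := by
          ring
      _ ≤ C ^ 2 * Real.exp ((1 - 5 * ε₀) * L) := by
          rw [← Real.exp_add]
          refine mul_le_mul_of_nonneg_left (Real.exp_le_exp.2 ?_) (by positivity)
          nlinarith
  have ktot : (L + Real.exp (L - (2 * θ + 6 * ε₀) * L)) * A ^ 2 +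
      Real.exp ((2 * θ + 6 * ε₀) * L) * B ^ 2 ≤ D * Real.exp ((1 - 5 * ε₀) * L) := by
    have : D * Real.exp ((1 - 5 * ε₀) * L) =
        C ^ 2 * (1 / ε₀) * Real.exp ((1 - 5 * ε₀) * L) +
          C ^ 2 * Real.exp ((1 - 5 * ε₀) * L) + C ^ 2 * Real.exp ((1 - 5 * ε₀) * L) := by
      rw [hD]; ring
    rw [this]
    nlinarith
  calc (2 : ℝ) ^ (QK 𝔮).card * ((L + Real.exp (L - (2 * θ + 6 * ε₀) * L)) * A ^ 2 +
        Real.exp ((2 * θ + 6 * ε₀) * L) * B ^ 2)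
      ≤ 2 ^ (QK 𝔮).card * (D * Real.exp ((1 - 5 * ε₀) * L)) :=
        mul_le_mul_of_nonneg_left ktot (by positivity)
    _ = D * (2 ^ (QK 𝔮).card * Real.exp ((1 - 5 * ε₀) * L)) := by ring
    _ ≤ D * (ε / D * nprim 𝔮) := mul_le_mul_of_nonneg_left hmain hD0.le
    _ = ε * nprim 𝔮 := by field_simp

end Pool.Agent.LVK

namespace Pool.Agent.LVK

theorem famK_nprim : type_of% @famK_nprim_pr := @famK_nprim_pr
theorem omega_small : type_of% @omega_small_pr := @omega_small_pr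
theorem err_small : type_of% @err_small_pr := @err_small_pr

end Pool.Agent.LVK
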