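import Pool.Agent.Lib_helper42.LVK.DefsT
import Pool.Agent.Lib_helper42.LVK.Defs
import Pool.Agent.Lib_helper41.HZF.YB
import Pool.Agent.Lib_helper41.HZF.KG
import Pool.Agent.Lib_helper92.KSA.BRG
import Pool.Agent.Lib_helper92.KSA.LATU
import Pool.Agent.Lib_helper92.KSA.LNZ
import Pool.Agent.Lib_helper92.LVA.Defs
import Pool.Agent.Lib_helper92.KSA.KPO
import Pool.Agent.Lib_helper92.KSA.ZKA
import Pool.Agent.Lib_helper92.ASA.All
import Pool.Agent.Lib_helper39.LVX.K_MG5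
import Pool.Agent.Lib_helper39.LVX.K_MH2A
import Pool.Agent.Lib_helper39.LVX.K_TA2
import Pool.Agent.Lib_helper39.LVX.K_TA3B
import Pool.Agent.Lib_helper39.LVX.K_TA4
import Pool.Agent.Lib_helper39.LVX.K_TB1

/-!
# LVK block TB2: the sharp mean square
-/

namespace Pool.Agent.LVK

open NumberField NumberField.InfinitePlace NumberField.Units Complex MeasureTheory Filter Topology
open Pool.Agent.HZ Pool.Agent.AS Pool.Agent.KS

variable {K : Type} [Field K] [NumberField K]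

theorem tb2_hT (K : Type) [Field K] [NumberField K] : 0 < hT K := by
  unfold hT
  have h1 : 0 < classNumber K := by
    unfold classNumber
    exact Fintype.card_pos
  have h2 : 0 < torsionOrder K := torsionOrder_pos K
  positivity

theorem tb2_nprim (𝔮 : Ideal (𝓞 K)) : 0 ≤ nprim 𝔮 := by
  unfold nprim
  positivity

theorem tb2_empty {𝔮 : Ideal (𝓞 K)} (h𝔮 : 𝔮 ≠ ⊥) {κ : InfinitePlace K → ℤ}
    {E : Finset (HDat 𝔮)} (hE : ∀ t ∈ E, t ∈ FamK 𝔮 κ) (h : nprim 𝔮 = 0) : E = ∅ := by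
  rw [Finset.eq_empty_iff_forall_notMem]
  intro t ht
  exact absurd h (famK_nprim_pr h𝔮 (hE t ht)).ne'

theorem sharp_pr {κ : InfinitePlace K → ℤ}
    (hκ : ∀ w : InfinitePlace K, w.IsReal → κ w = 0 ∨ κ w = 1) (T : TD K) {b θ R lm ε : ℝ}
    (hb : |b| ≤ 1 / 2) (hθ : 0 < θ) (hθ2 : θ < 1 / 2) (hR : 1 ≤ R) (hε : 0 < ε) :
    ∃ L₀ : ℝ, 1 ≤ L₀ ∧ ∀ (𝔮 : Ideal (𝓞 K)) (_ : 𝔮 ≠ ⊥) (_ : 𝔮 ≠ ⊤) (L : ℝ) (_ : L₀ ≤ L)
      (_ : L = Real.log (Ideal.absNorm 𝔮)) (E : Finset (HDat 𝔮)) (_ : ∀ t ∈ E, t ∈ FamK 𝔮 κ),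
      ∑ t ∈ E, ∫ u : ℝ, ‖EM κ t.lam T t.ψ (SM 𝔮 θ L) (aM 𝔮 b θ R L) lm L u‖ ^ 2 *
          Real.exp ((2 * (1 / 2 - R / L) - 1) * u) ≤
        hT K * nprim 𝔮 * (nrm κ T * LVA.cc b θ R lm + ε) := by
  have hhT := tb2_hT K
  set ε₀ : ℝ := (1 - 2 * θ) / 12 with hε₀
  have hε₀p : 0 < ε₀ := by rw [hε₀]; linarith
  have hs : 2 * θ + 6 * ε₀ = 1 - 6 * ε₀ := by rw [hε₀]; ring
  obtain ⟨C, hC0, hC⟩ := mean_EM κ hκ T lm R (by linarith)
  obtain ⟨L₁, hL₁, hA⟩ := partA_M (κ := κ) T (lm := lm) hb hθ hR hε₀p (half_pos hε)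
  have hε2 : 0 < hT K * ε / (2 * (C + 1)) := by positivity
  obtain ⟨L₂, hL₂, hB⟩ := err_small_pr K hb hθ (by linarith : (0 : ℝ) ≤ R) hε₀p hs.le hε2
  refine ⟨max L₁ L₂, le_trans hL₁ (le_max_left _ _), fun 𝔮 h𝔮 h𝔮' L hL hLN E hE => ?_⟩
  have hLL1 : L₁ ≤ L := le_trans (le_max_left _ _) hL
  have hLL2 : L₂ ≤ L := le_trans (le_max_right _ _) hL
  have hL1 : 1 ≤ L := le_trans hL₁ hLL1
  have hL0 : 0 < L := by linarith
  rcases (tb2_nprim 𝔮).eq_or_lt with h0 | hn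
  · rw [tb2_empty h𝔮 hE h0.symm, ← h0]
    simp
  · have h1 := hC 𝔮 h𝔮 h𝔮' E hE (SM 𝔮 θ L) (aM 𝔮 b θ R L) (fun m hm => (SM_cop h𝔮 hm).1)
      L ((2 * θ + 6 * ε₀) * L) hL1 hLN (by positivity)
      (by nlinarith) (fun m hm => le_trans (SM_cop h𝔮 hm).2 (by nlinarith))
    have h2 := hA 𝔮 h𝔮 L hLL1 hLN ((2 * θ + 6 * ε₀) * L) le_rfl (by rw [hs])
    have h3 := hB 𝔮 h𝔮 L hLL2 hLN hn
    have e1 : ∀ u : ℝ, Real.exp ((2 * (1 / 2 - R / L) - 1) * u) =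
        Real.exp (-(2 * R / L * u)) := by
      intro u
      congr 1
      ring
    simp_rw [e1]
    refine le_trans h1 ?_
    have h4 : C * (2 ^ (QK 𝔮).card * ((L + Real.exp (L - (2 * θ + 6 * ε₀) * L)) *
          (∑ m ∈ SM 𝔮 θ L, |aM 𝔮 b θ R L m|) ^ 2 +
        Real.exp ((2 * θ + 6 * ε₀) * L) *
          (∑ m ∈ SM 𝔮 θ L, |aM 𝔮 b θ R L m| / nm (NK K) m) ^ 2)) ≤
        hT K * nprim 𝔮 * (ε / 2) := by
      refine le_trans (mul_le_mul_of_nonneg_left h3 hC0) ?_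
      have e2 : C * (hT K * ε / (2 * (C + 1)) * nprim 𝔮) =
          hT K * nprim 𝔮 * (ε / 2) * (C / (C + 1)) := by
        field_simp
      rw [e2]
      have e3 : C / (C + 1) ≤ 1 := by
        rw [div_le_one (by linarith)]
        linarith
      have e4 : 0 ≤ hT K * nprim 𝔮 * (ε / 2) := by positivity
      nlinarith
    have h5 := mul_le_mul_of_nonneg_left h2 (by positivity : 0 ≤ hT K * nprim 𝔮)
    calc _ ≤ hT K * nprim 𝔮 * (nrm κ T * LVA.cc b θ R lm + ε / 2) +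
          hT K * nprim 𝔮 * (ε / 2) := add_le_add h5 h4
      _ = _ := by ring

open scoped Classical in
theorem right_small_pr {κ : InfinitePlace K → ℤ}
    (hκ : ∀ w : InfinitePlace K, w.IsReal → κ w = 0 ∨ κ w = 1) (T : TD K) {b θ R lm σ ε : ℝ}
    (hb : |b| ≤ 1 / 2) (hθ : 0 < θ) (hθ2 : θ < 1 / 2) (hR : 1 ≤ R) (hσ : 2 ≤ σ) (hε : 0 < ε) :
    ∃ L₀ : ℝ, 1 ≤ L₀ ∧ ∀ (𝔮 : Ideal (𝓞 K)) (_ : 𝔮 ≠ ⊥) (_ : 𝔮 ≠ ⊤) (L : ℝ) (_ : L₀ ≤ L)
      (_ : L = Real.log (Ideal.absNorm 𝔮)) (E : Finset (HDat 𝔮)) (_ : ∀ t ∈ E, t ∈ FamK 𝔮 κ),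
      ∑ t ∈ E, ∫ u : ℝ, ‖EM κ t.lam T t.ψ (SM 𝔮 θ L) (aM 𝔮 b θ R L) lm L u -
          E0 κ t.lam T lm L u‖ ^ 2 * Real.exp ((2 * σ - 1) * u) ≤ ε * nprim 𝔮 := by
  obtain ⟨C, hC0, hC⟩ := mean_right κ hκ T lm hσ
  set ε₁ : ℝ := min 1 (ε / (2 * (C + 1))) with hε₁
  have hε₁p : 0 < ε₁ := lt_min one_pos (by positivity)
  obtain ⟨L₁, hL₁, hA⟩ := bet_small K (b := b) (θ := θ) (R := R) (ε := ε₁) hb hθ
    (by linarith) (by linarith) hε₁p
  set c : ℝ := (1 - 2 * θ) / 2 with hc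
  have hcp : 0 < c := by rw [hc]; linarith
  obtain ⟨D, hD1, hD⟩ := sum_aM K (ε := c / 2) (by positivity)
  obtain ⟨L₂, hL₂, hB⟩ := omega_small_pr K (c := c) (ε := ε / (2 * (C + 1) * D ^ 2)) hcp
    (by positivity)
  refine ⟨max L₁ L₂, le_trans hL₁ (le_max_left _ _), fun 𝔮 h𝔮 h𝔮' L hL hLN E hE => ?_⟩
  have hLL1 : L₁ ≤ L := le_trans (le_max_left _ _) hL
  have hLL2 : L₂ ≤ L := le_trans (le_max_right _ _) hL
  have hL1 : 1 ≤ L := le_trans hL₁ hLL1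
  have hL0 : 0 < L := by linarith
  rcases (tb2_nprim 𝔮).eq_or_lt with h0 | hn
  · rw [tb2_empty h𝔮 hE h0.symm, ← h0]
    simp
  · have h1 := hC 𝔮 h𝔮 h𝔮' E hE (SM 𝔮 θ L) (aM 𝔮 b θ R L) (fun m hm => (SM_cop h𝔮 hm).1)
      L hL1 (fun m hm => le_trans (SM_cop h𝔮 hm).2 (by nlinarith)) (zero_SM (by positivity))
      (aM_zero hb (by positivity))
    have h2 := hA 𝔮 h𝔮 L hLL1 hLN
    have h3 := hB 𝔮 h𝔮 L hLL2 hLN hn
    obtain ⟨hS, -⟩ := hD 𝔮 b θ R L hb hθ (by linarith) (by linarith) hL1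
    refine le_trans h1 ?_
    set X := ∑' g : PK K →₀ ℕ, (if g ≠ 0 ∧ Cop (QK 𝔮) g then
      ((nm (NK K) g : ℝ)⁻¹) ^ 2 * bet (SM 𝔮 θ L) (aM 𝔮 b θ R L) L g else 0) with hX
    set S := ∑ m ∈ SM 𝔮 θ L, |aM 𝔮 b θ R L m| with hSd
    have hS0 : 0 ≤ S := Finset.sum_nonneg fun _ _ => abs_nonneg _
    have hX0 : 0 ≤ X := by
      refine tsum_nonneg fun g => ?_
      split_ifs
      · refine mul_nonneg (by positivity) ?_
        unfold bet
        have hlk : 0 ≤ lK g := by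
          unfold lK
          exact Real.log_natCast_nonneg _
        refine add_nonneg (abs_nonneg _) (mul_nonneg (by positivity)
          (Finset.sum_nonneg fun m _ => ?_))
        split_ifs
        · exact abs_nonneg _
        · exact le_rfl
      · exact le_rfl
    have hX2 : X ^ 2 ≤ ε / (2 * (C + 1)) := by
      have a1 : X ≤ 1 := le_trans h2 (min_le_left _ _)
      have a2 : X ≤ ε / (2 * (C + 1)) := le_trans h2 (min_le_right _ _)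
      nlinarith
    have hS2 : S ^ 2 ≤ D ^ 2 * Real.exp ((1 - c) * L) := by
      calc S ^ 2 ≤ (D * Real.exp ((θ + c / 2) * L)) ^ 2 := pow_le_pow_left₀ hS0 hS 2
      _ ≤ D ^ 2 * Real.exp ((1 - c) * L) := by
        rw [mul_pow, ← Real.exp_nat_mul]
        refine mul_le_mul_of_nonneg_left (Real.exp_le_exp.2 (le_of_eq ?_)) (by positivity)
        rw [hc]
        push_cast
        ring
    have k1 : C * (nprim 𝔮 * X ^ 2) ≤ ε / 2 * nprim 𝔮 := by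
      have a1 : C * X ^ 2 ≤ C * (ε / (2 * (C + 1))) := mul_le_mul_of_nonneg_left hX2 hC0
      have a2 : C * (ε / (2 * (C + 1))) = ε / 2 * (C / (C + 1)) := by field_simp
      have a3 : C / (C + 1) ≤ 1 := by
        rw [div_le_one (by linarith)]
        linarith
      have a4 : C * X ^ 2 ≤ ε / 2 := by
        rw [a2] at a1
        nlinarith
      nlinarith
    have k2 : C * (2 ^ (QK 𝔮).card * S ^ 2) ≤ ε / 2 * nprim 𝔮 := by
      have a1 : 2 ^ (QK 𝔮).card * S ^ 2 ≤ D ^ 2 * (ε / (2 * (C + 1) * D ^ 2) * nprim 𝔮) := by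
        calc (2 : ℝ) ^ (QK 𝔮).card * S ^ 2
            ≤ 2 ^ (QK 𝔮).card * (D ^ 2 * Real.exp ((1 - c) * L)) :=
              mul_le_mul_of_nonneg_left hS2 (by positivity)
          _ = D ^ 2 * (2 ^ (QK 𝔮).card * Real.exp ((1 - c) * L)) := by ring
          _ ≤ _ := mul_le_mul_of_nonneg_left h3 (by positivity)
      have hD0 : D ≠ 0 := by linarith
      have a2 : D ^ 2 * (ε / (2 * (C + 1) * D ^ 2) * nprim 𝔮) =
          ε / (2 * (C + 1)) * nprim 𝔮 := by field_simp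
      rw [a2] at a1
      have a3 : C * (ε / (2 * (C + 1)) * nprim 𝔮) = ε / 2 * nprim 𝔮 * (C / (C + 1)) := by
        field_simp
      have a4 : C / (C + 1) ≤ 1 := by
        rw [div_le_one (by linarith)]
        linarith
      have a5 : 0 ≤ ε / 2 * nprim 𝔮 := by positivity
      calc C * (2 ^ (QK 𝔮).card * S ^ 2) ≤ C * (ε / (2 * (C + 1)) * nprim 𝔮) :=
            mul_le_mul_of_nonneg_left a1 hC0
        _ = ε / 2 * nprim 𝔮 * (C / (C + 1)) := a3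
        _ ≤ ε / 2 * nprim 𝔮 := by nlinarith
    calc _ = C * (nprim 𝔮 * X ^ 2) + C * (2 ^ (QK 𝔮).card * S ^ 2) := by ring
      _ ≤ ε / 2 * nprim 𝔮 + ε / 2 * nprim 𝔮 := add_le_add k1 k2
      _ = ε * nprim 𝔮 := by ring

end Pool.Agent.LVK

namespace Pool.Agent.LVK

theorem right_small : type_of% @right_small_pr := @right_small_pr

end Pool.Agent.LVK
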