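import Pool.Agent.Lib_helper42.LVK.DefsT
import Pool.Agent.Lib_helper42.LVK.Defs
import Pool.Agent.Lib_helper41.HZF.YB
import Pool.Agent.Lib_helper41.HZF.KG
import Pool.Agent.Lib_helper92.KSA.BRG
import Pool.Agent.Lib_helper92.KSA.LATU
import Pool.Agent.Lib_helper92.KSA.LNZ
import Pool.Agent.Lib_helper92.LVA.Defs
import Pool.Agent.Lib_helper92.KSA.KPO
import Pool.Agent.Lib_helper92.KSA.ZKA
import Pool.Agent.Lib_helper92.ASA.All
import Pool.Agent.Lib_helper92.KSA.GDK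
import Pool.Agent.Lib_helper92.ASA.BAS
import Pool.Agent.Lib_helper39.LVX.K_KP5B
import Pool.Agent.Lib_helper39.LVX.K_MG1
import Pool.Agent.Lib_helper39.LVX.K_MG2
import Pool.Agent.Lib_helper39.LVX.K_MG5
import Pool.Agent.Lib_helper39.LVX.K_MH2A
import Pool.Agent.Lib_helper39.LVX.K_TB1

/-!
# LVK block TB4: the mean square without mollifier
-/

namespace Pool.Agent.LVK

open NumberField NumberField.InfinitePlace NumberField.Units Complex MeasureTheory Filter Topology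
open Pool.Agent.HZ Pool.Agent.AS Pool.Agent.KS

variable {K : Type} [Field K] [NumberField K]

theorem tb4_lK_zero : lK (0 : PK K →₀ ℕ) = 0 := by
  unfold lK
  rw [nm_zero]
  simp

theorem tb4_ksum (κ : InfinitePlace K → ℤ) (T : TD K) :
    ∃ C : ℝ, 0 ≤ C ∧ ∀ w : ℝ, (Summable fun g : PK K →₀ ℕ => kk κ T (w + lK g)) ∧
      ∑' g : PK K →₀ ℕ, kk κ T (w + lK g) ≤ C * (1 + Real.exp (-w)) ∧
      ∑' g : PK K →₀ ℕ, kk κ T (w + lK g) ≤ C * Real.exp (-(4 * w)) := by
  obtain ⟨C1, h1, hC1⟩ := kk_sum κ T (A := 4) (by norm_num)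
  have hk := kern_kk κ T
  obtain ⟨C2, hC2⟩ := hk.poisson
  have hC20 : 0 ≤ C2 := (abs_nonneg _).trans (hC2 0)
  have hρ := hk.rho
  set ρ := dedekindZeta_residue K * nrm κ T with hρd
  refine ⟨C1 + C2 + ρ, by linarith, fun w => ⟨(hC1 w).1, ?_, ?_⟩⟩
  · have h2 := (abs_le.1 (hC2 w)).2
    have h3 : ∑' g : PK K →₀ ℕ, kk κ T (w + lK g) ≤ C2 + ρ * Real.exp (-w) := by
      have h4 : ∑' g : PK K →₀ ℕ, kk κ T (w + Real.log (nm (NK K) g)) =
        ∑' g : PK K →₀ ℕ, kk κ T (w + lK g) := rfl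
      rw [h4] at h2
      linarith
    have he := Real.exp_pos (-w)
    nlinarith
  · refine (hC1 w).2.trans ?_
    have he := Real.exp_pos (-(4 * w))
    nlinarith

open scoped Classical in
theorem tb4_cop_sum (κ : InfinitePlace K → ℤ) (T : TD K) (Q : Finset (PK K)) (w : ℝ) :
    0 ≤ ∑' g : PK K →₀ ℕ, (if Cop Q g then kk κ T (w + lK g) else 0) ∧
    ∑' g : PK K →₀ ℕ, (if Cop Q g then kk κ T (w + lK g) else 0) ≤
      ∑' g : PK K →₀ ℕ, kk κ T (w + lK g) := by
  obtain ⟨C1, h1, hC1⟩ := tb4_ksum κ T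
  have h2 : ∀ g : PK K →₀ ℕ, 0 ≤ (if Cop Q g then kk κ T (w + lK g) else 0) := by
    intro g
    split_ifs
    · exact kk_nonneg κ T _
    · exact le_rfl
  have h3 : ∀ g : PK K →₀ ℕ, (if Cop Q g then kk κ T (w + lK g) else 0) ≤ kk κ T (w + lK g) := by
    intro g
    split_ifs
    · exact le_rfl
    · exact kk_nonneg κ T _
  exact ⟨tsum_nonneg h2, ((hC1 w).1.of_nonneg_of_le h2 h3).tsum_le_tsum h3 (hC1 w).1⟩

open scoped Classical in
theorem tb4_dir (κ : InfinitePlace K → ℤ) (T : TD K) :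
    ∃ C : ℝ, 0 ≤ C ∧ ∀ (Q : Finset (PK K)) (L : ℝ), 2 ≤ L →
      DIR (kk κ T) Q {0} (fun _ => 1) 0 L (1 / 2 - 1 / L) (L / 2) ≤ C * L := by
  obtain ⟨C1, h1, hC1⟩ := tb4_ksum κ T
  refine ⟨C1 * (1 + Real.exp 1) + C1, by positivity, fun Q L hL => ?_⟩
  have hL0 : 0 < L := by linarith
  have hint := DIR_int κ T Q {0} (fun _ => 1) 0 L (1 / 2 - 1 / L) (L / 2)
  set F : ℝ → ℝ := fun u => Real.exp (2 * (1 / 2 - 1 / L) * u) *
      ∑' g : PK K →₀ ℕ, if Cop Q g then bS {0} (fun _ => 1) 0 L u g ^ 2 * kk κ T (u + lK g) else 0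
    with hF
  have hbS : ∀ (u : ℝ) (g : PK K →₀ ℕ), bS {0} (fun _ => 1) 0 L u g = 1 := by
    intro u g
    unfold bS
    rw [Finset.sum_singleton, if_pos (zero_le : 0 ≤ g)]
    simp
  have hFe : ∀ u, F u = Real.exp (2 * (1 / 2 - 1 / L) * u) *
      ∑' g : PK K →₀ ℕ, (if Cop Q g then kk κ T (u + lK g) else 0) := by
    intro u
    simp only [hF]
    congr 1
    refine tsum_congr fun g => ?_
    rw [hbS, one_pow, one_mul]
  have hF0 : ∀ u, 0 ≤ F u := by
    intro u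
    rw [hFe]
    exact mul_nonneg (Real.exp_pos _).le (tb4_cop_sum κ T Q u).1
  have hsplit : Set.Ioi (-(L / 2)) = Set.Ioc (-(L / 2)) 0 ∪ Set.Ioi 0 :=
    (Set.Ioc_union_Ioi_eq_Ioi (by linarith)).symm
  have hdisj : Disjoint (Set.Ioc (-(L / 2)) 0) (Set.Ioi (0 : ℝ)) := by
    rw [Set.disjoint_left]
    intro x hx hx'
    exact absurd hx.2 (not_le.2 hx')
  have hi1 : IntegrableOn F (Set.Ioc (-(L / 2)) 0) :=
    hint.mono_set (by rw [hsplit]; exact Set.subset_union_left)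
  have hi2 : IntegrableOn F (Set.Ioi 0) :=
    hint.mono_set (by rw [hsplit]; exact Set.subset_union_right)
  have hD : DIR (kk κ T) Q {0} (fun _ => 1) 0 L (1 / 2 - 1 / L) (L / 2) =
      (∫ u in Set.Ioc (-(L / 2)) 0, F u) + ∫ u in Set.Ioi 0, F u := by
    unfold DIR
    rw [hsplit, setIntegral_union hdisj measurableSet_Ioi hi1 hi2]
  have hLe : 0 ≤ 1 / L := by positivity
  have hLe2 : 1 / L ≤ 1 / 2 := one_div_le_one_div_of_le (by norm_num) hL
  -- the bounded part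
  have hA : ∫ u in Set.Ioc (-(L / 2)) 0, F u ≤ C1 * (1 + Real.exp 1) * L := by
    have h2 : ∀ u ∈ Set.Ioc (-(L / 2)) 0, ‖F u‖ ≤ C1 * (1 + Real.exp 1) := by
      intro u hu
      rw [Real.norm_of_nonneg (hF0 u), hFe]
      have h3 := (tb4_cop_sum κ T Q u).2.trans (hC1 u).2.1
      have h4 : Real.exp (2 * (1 / 2 - 1 / L) * u) ≤ 1 := by
        rw [Real.exp_le_one_iff]
        have := hu.2
        nlinarith
      have h5 : Real.exp (2 * (1 / 2 - 1 / L) * u) * Real.exp (-u) ≤ Real.exp 1 := by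
        rw [← Real.exp_add]
        refine Real.exp_le_exp.2 ?_
        have h6 : -(L / 2) ≤ u := hu.1.le
        have h7 : 1 / L * (L / 2) = 1 / 2 := by field_simp
        nlinarith
      have h8 := Real.exp_pos (2 * (1 / 2 - 1 / L) * u)
      calc Real.exp (2 * (1 / 2 - 1 / L) * u) *
            ∑' g : PK K →₀ ℕ, (if Cop Q g then kk κ T (u + lK g) else 0)
          ≤ Real.exp (2 * (1 / 2 - 1 / L) * u) * (C1 * (1 + Real.exp (-u))) :=
            mul_le_mul_of_nonneg_left h3 h8.le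
        _ = C1 * (Real.exp (2 * (1 / 2 - 1 / L) * u) +
            Real.exp (2 * (1 / 2 - 1 / L) * u) * Real.exp (-u)) := by ring
        _ ≤ C1 * (1 + Real.exp 1) := mul_le_mul_of_nonneg_left (add_le_add h4 h5) h1
    have h9 := norm_setIntegral_le_of_norm_le_const (μ := volume) (s := Set.Ioc (-(L / 2)) 0)
      (f := F) (C := C1 * (1 + Real.exp 1)) (by rw [Real.volume_Ioc]; exact ENNReal.ofReal_lt_top)
      h2
    have h10 : volume.real (Set.Ioc (-(L / 2)) 0) = L / 2 := by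
      rw [measureReal_def, Real.volume_Ioc, ENNReal.toReal_ofReal (by linarith)]
      ring
    rw [h10] at h9
    refine (Real.le_norm_self _).trans (h9.trans ?_)
    have : 0 ≤ C1 * (1 + Real.exp 1) := by positivity
    nlinarith
  -- the tail
  have hB : ∫ u in Set.Ioi 0, F u ≤ C1 := by
    have h2 : ∀ u ∈ Set.Ioi (0 : ℝ), F u ≤ C1 * Real.exp (-u) := by
      intro u hu
      have hu0 : 0 < u := hu
      rw [hFe]
      have h3 := (tb4_cop_sum κ T Q u).2.trans (hC1 u).2.2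
      have h8 := Real.exp_pos (2 * (1 / 2 - 1 / L) * u)
      calc Real.exp (2 * (1 / 2 - 1 / L) * u) *
            ∑' g : PK K →₀ ℕ, (if Cop Q g then kk κ T (u + lK g) else 0)
          ≤ Real.exp (2 * (1 / 2 - 1 / L) * u) * (C1 * Real.exp (-(4 * u))) :=
            mul_le_mul_of_nonneg_left h3 h8.le
        _ = C1 * Real.exp (2 * (1 / 2 - 1 / L) * u + -(4 * u)) := by
            rw [Real.exp_add]; ring
        _ ≤ C1 * Real.exp (-u) := by
            refine mul_le_mul_of_nonneg_left (Real.exp_le_exp.2 ?_) h1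
            nlinarith
    have h3 : IntegrableOn (fun u : ℝ => C1 * Real.exp (-u)) (Set.Ioi 0) :=
      (integrableOn_exp_neg_Ioi 0).const_mul C1
    refine (setIntegral_mono_on hi2 h3 measurableSet_Ioi h2).trans ?_
    rw [integral_const_mul, integral_exp_neg_Ioi]
    simp
  rw [hD]
  nlinarith [mul_le_mul_of_nonneg_left (show (1 : ℝ) ≤ L by linarith) h1]

open scoped Classical in
theorem tb4_dual (κ : InfinitePlace K → ℤ) (T : TD K) {d : ℝ} (hd : 0 ≤ d) :
    ∃ C : ℝ, 0 ≤ C ∧ ∀ (Q : Finset (PK K)) (L : ℝ), 2 ≤ L →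
      DUAL (kk κ T) Q {0} (fun _ => 1) 0 L (1 / 2 - 1 / L) (L / 2) (L + d) ≤ C * L := by
  obtain ⟨C1, h1, hC1⟩ := tb4_ksum κ T
  refine ⟨C1 * Real.exp (2 + 2 * d) * (2 * (1 + d) + 1), by positivity, fun Q L hL => ?_⟩
  have hL0 : 0 < L := by linarith
  set l := L + d with hl
  have hint := DUAL_int κ T Q {0} (fun _ => 1) 0 L (1 / 2 - 1 / L) (L / 2) l
  set F : ℝ → ℝ := fun u => Real.exp ((2 * (1 / 2 - 1 / L) - 2) * u) *
      ∑ m ∈ ({0} : Finset (PK K →₀ ℕ)), ∑ m' ∈ ({0} : Finset (PK K →₀ ℕ)),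
        (fun _ => (1 : ℝ)) m * (fun _ => (1 : ℝ)) m' / (nm (NK K) m * nm (NK K) m') *
        (1 + 0 * (u + lK m) / L) * (1 + 0 * (u + lK m') / L) *
        WW (NK K) (kk κ T) Q (-u - l - lK (m ⊓ m')) with hF
  have hFe : ∀ u, F u = Real.exp ((2 * (1 / 2 - 1 / L) - 2) * u) *
      ∑' g : PK K →₀ ℕ, (if Cop Q g then kk κ T ((-u - l) + lK g) else 0) := by
    intro u
    simp only [hF]
    congr 1
    rw [Finset.sum_singleton, Finset.sum_singleton, nm_zero, inf_idem, tb4_lK_zero]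
    unfold WW
    simp [lK]
  have hF0 : ∀ u, 0 ≤ F u := by
    intro u
    rw [hFe]
    exact mul_nonneg (Real.exp_pos _).le (tb4_cop_sum κ T Q _).1
  have hle : -l ≤ -(L / 2) := by rw [hl]; linarith
  have hsplit : Set.Iic (-(L / 2)) = Set.Iic (-l) ∪ Set.Ioc (-l) (-(L / 2)) :=
    (Set.Iic_union_Ioc_eq_Iic hle).symm
  have hdisj : Disjoint (Set.Iic (-l)) (Set.Ioc (-l) (-(L / 2))) := by
    rw [Set.disjoint_left]
    intro x hx hx'
    exact absurd hx'.1 (not_lt.2 hx)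
  have hi1 : IntegrableOn F (Set.Iic (-l)) :=
    hint.mono_set (by rw [hsplit]; exact Set.subset_union_left)
  have hi2 : IntegrableOn F (Set.Ioc (-l) (-(L / 2))) :=
    hint.mono_set (by rw [hsplit]; exact Set.subset_union_right)
  have hD : DUAL (kk κ T) Q {0} (fun _ => 1) 0 L (1 / 2 - 1 / L) (L / 2) l =
      Real.exp (-l) * ((∫ u in Set.Iic (-l), F u) + ∫ u in Set.Ioc (-l) (-(L / 2)), F u) := by
    unfold DUAL
    rw [hsplit, setIntegral_union hdisj measurableSet_Ioc hi1 hi2]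
  have hLe : 0 ≤ 1 / L := by positivity
  have hLe2 : 1 / L ≤ 1 / 2 := one_div_le_one_div_of_le (by norm_num) hL
  have hlL : 1 / L * l ≤ 1 + d := by
    rw [hl, mul_add]
    have h3 : 1 / L * L = 1 := by field_simp
    nlinarith
  have hB : ∀ u, -l ≤ u → u ≤ 0 → F u ≤ 2 * (C1 * Real.exp (2 + 2 * d)) * Real.exp l := by
    intro u hu hu0
    rw [hFe]
    have h3 := (tb4_cop_sum κ T Q (-u - l)).2.trans (hC1 (-u - l)).2.1
    have h8 := Real.exp_pos ((2 * (1 / 2 - 1 / L) - 2) * u)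
    have h4 : Real.exp ((2 * (1 / 2 - 1 / L) - 2) * u) ≤ Real.exp (2 + 2 * d) * Real.exp l := by
      rw [← Real.exp_add]
      refine Real.exp_le_exp.2 ?_
      nlinarith
    have h5 : Real.exp ((2 * (1 / 2 - 1 / L) - 2) * u) * Real.exp (-(-u - l)) ≤
        Real.exp (2 + 2 * d) * Real.exp l := by
      rw [← Real.exp_add, ← Real.exp_add]
      refine Real.exp_le_exp.2 ?_
      nlinarith
    calc Real.exp ((2 * (1 / 2 - 1 / L) - 2) * u) *
          ∑' g : PK K →₀ ℕ, (if Cop Q g then kk κ T ((-u - l) + lK g) else 0)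
        ≤ Real.exp ((2 * (1 / 2 - 1 / L) - 2) * u) * (C1 * (1 + Real.exp (-(-u - l)))) :=
          mul_le_mul_of_nonneg_left h3 h8.le
      _ = C1 * (Real.exp ((2 * (1 / 2 - 1 / L) - 2) * u) +
          Real.exp ((2 * (1 / 2 - 1 / L) - 2) * u) * Real.exp (-(-u - l))) := by ring
      _ ≤ C1 * (Real.exp (2 + 2 * d) * Real.exp l + Real.exp (2 + 2 * d) * Real.exp l) :=
          mul_le_mul_of_nonneg_left (add_le_add h4 h5) h1
      _ = _ := by ring
  have hP1 : Real.exp (-l) * ∫ u in Set.Ioc (-l) (-(L / 2)), F u ≤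
      2 * (C1 * Real.exp (2 + 2 * d)) * l := by
    have h2 : ∀ u ∈ Set.Ioc (-l) (-(L / 2)), ‖F u‖ ≤
        2 * (C1 * Real.exp (2 + 2 * d)) * Real.exp l := by
      intro u hu
      rw [Real.norm_of_nonneg (hF0 u)]
      exact hB u hu.1.le (hu.2.trans (by linarith))
    have h9 := norm_setIntegral_le_of_norm_le_const (μ := volume) (s := Set.Ioc (-l) (-(L / 2)))
      (f := F) (C := 2 * (C1 * Real.exp (2 + 2 * d)) * Real.exp l)
      (by rw [Real.volume_Ioc]; exact ENNReal.ofReal_lt_top) h2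
    have h10 : volume.real (Set.Ioc (-l) (-(L / 2))) ≤ l := by
      rw [measureReal_def, Real.volume_Ioc, ENNReal.toReal_ofReal (by linarith)]
      linarith
    have h11 : (∫ u in Set.Ioc (-l) (-(L / 2)), F u) ≤
        2 * (C1 * Real.exp (2 + 2 * d)) * Real.exp l * l :=
      (Real.le_norm_self _).trans (h9.trans (mul_le_mul_of_nonneg_left h10 (by positivity)))
    calc Real.exp (-l) * ∫ u in Set.Ioc (-l) (-(L / 2)), F u
        ≤ Real.exp (-l) * (2 * (C1 * Real.exp (2 + 2 * d)) * Real.exp l * l) :=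
          mul_le_mul_of_nonneg_left h11 (Real.exp_pos _).le
      _ = 2 * (C1 * Real.exp (2 + 2 * d)) * l * (Real.exp (-l) * Real.exp l) := by ring
      _ = _ := by rw [← Real.exp_add, neg_add_cancel, Real.exp_zero, mul_one]
  have hP2 : Real.exp (-l) * ∫ u in Set.Iic (-l), F u ≤ C1 * Real.exp (2 + 2 * d) := by
    have h2 : ∀ u ∈ Set.Iic (-l), F u ≤
        C1 * Real.exp (2 + 2 * d) * Real.exp (2 * l) * Real.exp u := by
      intro u hu
      have hu0 : u ≤ -l := hu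
      rw [hFe]
      have h3 := (tb4_cop_sum κ T Q (-u - l)).2.trans (hC1 (-u - l)).2.2
      have h8 := Real.exp_pos ((2 * (1 / 2 - 1 / L) - 2) * u)
      calc Real.exp ((2 * (1 / 2 - 1 / L) - 2) * u) *
            ∑' g : PK K →₀ ℕ, (if Cop Q g then kk κ T ((-u - l) + lK g) else 0)
          ≤ Real.exp ((2 * (1 / 2 - 1 / L) - 2) * u) * (C1 * Real.exp (-(4 * (-u - l)))) :=
            mul_le_mul_of_nonneg_left h3 h8.le
        _ = C1 * Real.exp ((2 * (1 / 2 - 1 / L) - 2) * u + -(4 * (-u - l))) := by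
            rw [Real.exp_add]; ring
        _ ≤ C1 * Real.exp ((2 + 2 * d) + 2 * l + u) := by
            refine mul_le_mul_of_nonneg_left (Real.exp_le_exp.2 ?_) h1
            nlinarith [mul_nonneg (show 0 ≤ 1 / 2 - 1 / L by linarith)
              (show 0 ≤ -l - u by linarith)]
        _ = _ := by rw [Real.exp_add, Real.exp_add]; ring
    have h3 : IntegrableOn (fun u : ℝ => C1 * Real.exp (2 + 2 * d) * Real.exp (2 * l) *
        Real.exp u) (Set.Iic (-l)) :=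
      (integrableOn_exp_Iic (-l)).const_mul _
    have h4 : (∫ u in Set.Iic (-l), F u) ≤
        C1 * Real.exp (2 + 2 * d) * Real.exp (2 * l) * Real.exp (-l) := by
      refine (setIntegral_mono_on hi1 h3 measurableSet_Iic h2).trans ?_
      rw [integral_const_mul, integral_exp_Iic]
    calc Real.exp (-l) * ∫ u in Set.Iic (-l), F u
        ≤ Real.exp (-l) * (C1 * Real.exp (2 + 2 * d) * Real.exp (2 * l) * Real.exp (-l)) :=
          mul_le_mul_of_nonneg_left h4 (Real.exp_pos _).le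
      _ = C1 * Real.exp (2 + 2 * d) * (Real.exp (-l) * Real.exp (2 * l) * Real.exp (-l)) := by
          ring
      _ = _ := by
          rw [← Real.exp_add, ← Real.exp_add, show -l + 2 * l + -l = 0 by ring, Real.exp_zero,
            mul_one]
  rw [hD, mul_add]
  have hK : 0 ≤ C1 * Real.exp (2 + 2 * d) := by positivity
  have hl2 : l ≤ (1 + d) * L := by
    rw [hl]
    nlinarith
  calc Real.exp (-l) * (∫ u in Set.Iic (-l), F u) +
        Real.exp (-l) * ∫ u in Set.Ioc (-l) (-(L / 2)), F u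
      ≤ C1 * Real.exp (2 + 2 * d) + 2 * (C1 * Real.exp (2 + 2 * d)) * l := add_le_add hP2 hP1
    _ ≤ C1 * Real.exp (2 + 2 * d) * L + 2 * (C1 * Real.exp (2 + 2 * d)) * ((1 + d) * L) := by
        refine add_le_add ?_ (mul_le_mul_of_nonneg_left hl2 (by positivity))
        nlinarith
    _ = _ := by ring

open scoped Classical in
theorem tb4_bet (K : Type) [Field K] [NumberField K] :
    ∃ B : ℝ, 0 ≤ B ∧ ∀ (Q : Finset (PK K)) (L : ℝ), 1 ≤ L →
      0 ≤ ∑' g : PK K →₀ ℕ, (if g ≠ 0 ∧ Cop Q g then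
        ((nm (NK K) g : ℝ)⁻¹) ^ 2 * bet {0} (fun _ => 1) L g else 0) ∧
      ∑' g : PK K →₀ ℕ, (if g ≠ 0 ∧ Cop Q g then
        ((nm (NK K) g : ℝ)⁻¹) ^ 2 * bet {0} (fun _ => 1) L g else 0) ≤ B := by
  have hgood := good_NK K
  have hs := (hgood.summable (1 / 2) (by norm_num)).mul_left 4
  refine ⟨∑' g : PK K →₀ ℕ, 4 * (nm (NK K) g : ℝ) ^ (-(1 + 1 / 2 : ℝ)), tsum_nonneg fun g => by
    positivity, fun Q L hL => ?_⟩
  have hL0 : 0 < L := by linarith
  have hbet : ∀ g : PK K →₀ ℕ, bet {0} (fun _ => 1) L g = 1 + (1 + lK g) / L := by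
    intro g
    unfold bet
    rw [Finset.sum_singleton, Finset.sum_singleton, if_pos (zero_le : 0 ≤ g),
      if_pos (zero_le : 0 ≤ g)]
    simp
  have hnm : ∀ g : PK K →₀ ℕ, (1 : ℝ) ≤ nm (NK K) g := fun g => by
    exact_mod_cast nm_pos hgood.two_le g
  have hlK0 : ∀ g : PK K →₀ ℕ, 0 ≤ lK g := fun g => Real.log_nonneg (hnm g)
  have h2 : ∀ g : PK K →₀ ℕ, 0 ≤ (if g ≠ 0 ∧ Cop Q g then
        ((nm (NK K) g : ℝ)⁻¹) ^ 2 * bet {0} (fun _ => 1) L g else 0) := by
    intro g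
    split_ifs
    · rw [hbet]
      have := hlK0 g
      positivity
    · exact le_rfl
  have h3 : ∀ g : PK K →₀ ℕ, (if g ≠ 0 ∧ Cop Q g then
        ((nm (NK K) g : ℝ)⁻¹) ^ 2 * bet {0} (fun _ => 1) L g else 0) ≤
        4 * (nm (NK K) g : ℝ) ^ (-(1 + 1 / 2 : ℝ)) := by
    intro g
    split_ifs
    · rw [hbet]
      have hx := hnm g
      set x : ℝ := (nm (NK K) g : ℝ) with hxd
      have hx0 : 0 < x := by linarith
      have h4 : lK g ≤ 2 * x ^ (1 / 2 : ℝ) := by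
        have h5 := Real.log_le_rpow_div hx0.le (show (0 : ℝ) < 1 / 2 by norm_num)
        have h6 : lK g = Real.log x := rfl
        rw [h6]
        calc Real.log x ≤ x ^ (1 / 2 : ℝ) / (1 / 2) := h5
          _ = 2 * x ^ (1 / 2 : ℝ) := by ring
      have h5 : (1 : ℝ) ≤ x ^ (1 / 2 : ℝ) := Real.one_le_rpow hx (by norm_num)
      have h6 : (1 + lK g) / L ≤ 1 + lK g :=
        div_le_self (by have := hlK0 g; linarith) hL
      have h7 : 1 + (1 + lK g) / L ≤ 4 * x ^ (1 / 2 : ℝ) := by linarith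
      have h8 : x ^ (-(1 + 1 / 2 : ℝ)) = (x⁻¹) ^ 2 * x ^ (1 / 2 : ℝ) := by
        rw [show (-(1 + 1 / 2 : ℝ)) = -2 + 1 / 2 by norm_num, Real.rpow_add hx0]
        congr 1
        rw [show (-2 : ℝ) = ((-2 : ℤ) : ℝ) by norm_num, Real.rpow_intCast]
        rw [zpow_neg, inv_pow]
        norm_cast
      rw [h8]
      calc (x⁻¹) ^ 2 * (1 + (1 + lK g) / L) ≤ (x⁻¹) ^ 2 * (4 * x ^ (1 / 2 : ℝ)) :=
            mul_le_mul_of_nonneg_left h7 (by positivity)
        _ = _ := by ring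
    · positivity
  exact ⟨tsum_nonneg h2, (hs.of_nonneg_of_le h2 h3).tsum_le_tsum h3 hs⟩

theorem triv_mean_pr {κ : InfinitePlace K → ℤ}
    (hκ : ∀ w : InfinitePlace K, w.IsReal → κ w = 0 ∨ κ w = 1) (T : TD K) {σ : ℝ}
    (hσ : 2 ≤ σ) :
    ∃ C L₀ : ℝ, 0 ≤ C ∧ 1 ≤ L₀ ∧ ∀ (𝔮 : Ideal (𝓞 K)) (_ : 𝔮 ≠ ⊥) (_ : 𝔮 ≠ ⊤) (L : ℝ)
      (_ : L₀ ≤ L) (_ : L = Real.log (Ideal.absNorm 𝔮)) (E : Finset (HDat 𝔮))
      (_ : ∀ t ∈ E, t ∈ FamK 𝔮 κ),
      ∑ t ∈ E, ∫ u : ℝ, ‖EM κ t.lam T t.ψ {0} (fun _ => 1) 0 L u‖ ^ 2 *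
          Real.exp ((2 * (1 / 2 - 1 / L) - 1) * u) ≤ C * (nprim 𝔮 * L) ∧
      ∑ t ∈ E, ∫ u : ℝ, ‖EM κ t.lam T t.ψ {0} (fun _ => 1) 0 L u -
          E0 κ t.lam T 0 L u‖ ^ 2 * Real.exp ((2 * σ - 1) * u) ≤ C * nprim 𝔮 := by
  classical
  have hdisc : 0 ≤ Real.log |(discr K : ℝ)| := by
    apply Real.log_nonneg
    have h1 : (1 : ℤ) ≤ |discr K| := Int.one_le_abs (discr_ne_zero K)
    exact_mod_cast h1
  obtain ⟨C1, hC1, h1⟩ := mean_EM κ hκ T 0 1 (by norm_num)
  obtain ⟨C2, hC2, h2⟩ := tb4_dir κ T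
  obtain ⟨C3, hC3, h3⟩ := tb4_dual κ T.star hdisc
  obtain ⟨C4, hC4, h4⟩ := mean_right κ hκ T 0 hσ
  obtain ⟨B, hB, h5⟩ := tb4_bet K
  obtain ⟨L1, hL1, h6⟩ := omega_small K (c := 1 / 4) (ε := 1) (by norm_num) (by norm_num)
  have hh : 0 ≤ hT K := by
    unfold hT
    positivity
  refine ⟨hT K * (C2 + C3) + 4 * C1 + C4 * (B ^ 2 + 1), max L1 2, by positivity,
    (show (1 : ℝ) ≤ 2 by norm_num).trans (le_max_right _ _), ?_⟩
  intro 𝔮 hq hq' L hL0 hL E hE
  have hLL1 : L1 ≤ L := (le_max_left _ _).trans hL0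
  have hL2 : 2 ≤ L := (le_max_right _ _).trans hL0
  have hnp : 0 ≤ nprim 𝔮 := by
    unfold nprim
    positivity
  rcases E.eq_empty_or_nonempty with hEe | hEn
  · subst hEe
    rw [Finset.sum_empty, Finset.sum_empty]
    exact ⟨by positivity, by positivity⟩
  · obtain ⟨t₀, ht₀⟩ := hEn
    have hnp1 : 0 < nprim 𝔮 := famK_nprim hq (hE t₀ ht₀)
    have hom := h6 𝔮 hq L hLL1 hL hnp1
    rw [one_mul] at hom
    have hom' : 2 ^ (QK 𝔮).card * Real.exp (L / 2) ≤ nprim 𝔮 := by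
      refine le_trans (mul_le_mul_of_nonneg_left (Real.exp_le_exp.2 ?_) (by positivity)) hom
      linarith
    have hom1 : (2 : ℝ) ^ (QK 𝔮).card ≤ nprim 𝔮 := by
      refine le_trans ?_ hom'
      have : (1 : ℝ) ≤ Real.exp (L / 2) := Real.one_le_exp (by linarith)
      exact le_mul_of_one_le_right (by positivity) this
    have hcop : ∀ m ∈ ({0} : Finset (PK K →₀ ℕ)), IsCoprime (IK m) 𝔮 := by
      intro m hm
      rw [Finset.mem_singleton.1 hm]
      have : IK (0 : PK K →₀ ℕ) = 1 := by simp [IK]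
      rw [this]
      exact isCoprime_one_left
    have hlKm : ∀ m ∈ ({0} : Finset (PK K →₀ ℕ)), lK m ≤ L := by
      intro m hm
      rw [Finset.mem_singleton.1 hm, tb4_lK_zero]
      linarith
    constructor
    · have e1 := h1 𝔮 hq hq' E hE {0} (fun _ => 1) hcop L (L / 2) (by linarith) hL (by linarith)
        (by linarith) hlKm
      have e2 := h2 (QK 𝔮) L hL2
      have e3 := h3 (QK 𝔮) L hL2
      have hcond : Real.log (cond 𝔮) = L + Real.log |(discr K : ℝ)| := by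
        unfold Pool.Agent.HZ.cond
        rw [Real.log_mul, hL, add_comm]
        · rw [abs_ne_zero]
          exact_mod_cast discr_ne_zero K
        · intro h0
          rw [h0, Real.log_zero] at hL
          linarith
      rw [hcond] at e1
      simp only [Finset.sum_singleton, nm_zero, abs_one, Nat.cast_one, div_one, one_pow,
        mul_one] at e1
      have e4 : ∀ u : ℝ, Real.exp ((2 * (1 / 2 - 1 / L) - 1) * u) =
          Real.exp (-(2 / L * u)) := by
        intro u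
        congr 1
        field_simp
        ring
      simp only [e4]
      refine e1.trans ?_
      have e5 : L - L / 2 = L / 2 := by ring
      rw [e5]
      have e6 : L ≤ 2 * Real.exp (L / 2) := by
        have := Real.add_one_le_exp (L / 2)
        linarith
      have e7 : (2 : ℝ) ^ (QK 𝔮).card * (L + Real.exp (L / 2) + Real.exp (L / 2)) ≤
          4 * nprim 𝔮 := by
        calc (2 : ℝ) ^ (QK 𝔮).card * (L + Real.exp (L / 2) + Real.exp (L / 2))
            ≤ (2 : ℝ) ^ (QK 𝔮).card * (4 * Real.exp (L / 2)) :=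
              mul_le_mul_of_nonneg_left (by linarith) (by positivity)
          _ = 4 * ((2 : ℝ) ^ (QK 𝔮).card * Real.exp (L / 2)) := by ring
          _ ≤ 4 * nprim 𝔮 := by linarith
      have e8 : C1 * ((2 : ℝ) ^ (QK 𝔮).card * (L + Real.exp (L / 2) + Real.exp (L / 2))) ≤
          4 * C1 * (nprim 𝔮 * L) := by
        calc C1 * ((2 : ℝ) ^ (QK 𝔮).card * (L + Real.exp (L / 2) + Real.exp (L / 2)))
            ≤ C1 * (4 * nprim 𝔮) := mul_le_mul_of_nonneg_left e7 hC1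
          _ = 4 * C1 * (nprim 𝔮 * 1) := by ring
          _ ≤ 4 * C1 * (nprim 𝔮 * L) := by
              refine mul_le_mul_of_nonneg_left (mul_le_mul_of_nonneg_left ?_ hnp) (by positivity)
              linarith
      have e9 : hT K * nprim 𝔮 * (DIR (kk κ T) (QK 𝔮) {0} (fun _ => 1) 0 L (1 / 2 - 1 / L)
          (L / 2) + DUAL (kk κ T.star) (QK 𝔮) {0} (fun _ => 1) 0 L (1 / 2 - 1 / L) (L / 2)
            (L + Real.log |(discr K : ℝ)|)) ≤ hT K * (C2 + C3) * (nprim 𝔮 * L) := by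
        calc _ ≤ hT K * nprim 𝔮 * (C2 * L + C3 * L) :=
              mul_le_mul_of_nonneg_left (add_le_add e2 e3) (by positivity)
          _ = _ := by ring
      have e10 : 0 ≤ C4 * (B ^ 2 + 1) * (nprim 𝔮 * L) := by positivity
      nlinarith
    · have e1 := h4 𝔮 hq hq' E hE {0} (fun _ => 1) hcop L (by linarith) hlKm
        (Finset.mem_singleton_self 0) rfl
      refine e1.trans ?_
      have e2 := h5 (QK 𝔮) L (by linarith)
      simp only [Finset.sum_singleton, abs_one, one_pow, mul_one]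
      have e3 : (∑' g : PK K →₀ ℕ, (if g ≠ 0 ∧ Cop (QK 𝔮) g then
          ((nm (NK K) g : ℝ)⁻¹) ^ 2 * bet {0} (fun _ => 1) L g else 0)) ^ 2 ≤ B ^ 2 :=
        pow_le_pow_left₀ e2.1 e2.2 2
      have e4 : C4 * (nprim 𝔮 * (∑' g : PK K →₀ ℕ, (if g ≠ 0 ∧ Cop (QK 𝔮) g then
          ((nm (NK K) g : ℝ)⁻¹) ^ 2 * bet {0} (fun _ => 1) L g else 0)) ^ 2 +
          2 ^ (QK 𝔮).card) ≤ C4 * (nprim 𝔮 * B ^ 2 + nprim 𝔮) :=
        mul_le_mul_of_nonneg_left (add_le_add (mul_le_mul_of_nonneg_left e3 hnp) hom1) hC4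
      refine e4.trans ?_
      have e5 : 0 ≤ (hT K * (C2 + C3) + 4 * C1) * nprim 𝔮 := by positivity
      nlinarith


end Pool.Agent.LVK

namespace Pool.Agent.LVK

theorem triv_mean : type_of% @triv_mean_pr := @triv_mean_pr

end Pool.Agent.LVK
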