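import Pool.Agent.Lib_helper42.LVK.DefsT
import Pool.Agent.Lib_helper42.LVK.Defs
import Pool.Agent.Lib_helper41.HZF.YB
import Pool.Agent.Lib_helper41.HZF.KG
import Pool.Agent.Lib_helper92.KSA.BRG
import Pool.Agent.Lib_helper92.KSA.LATU
import Pool.Agent.Lib_helper92.KSA.LNZ
import Pool.Agent.Lib_helper92.LVA.Defs
import Pool.Agent.Lib_helper92.KSA.KPO
import Pool.Agent.Lib_helper92.KSA.ZKA
import Pool.Agent.Lib_helper92.ASA.All
import Pool.Agent.Lib_helper39.LVX.K_FC5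
import Pool.Agent.Lib_helper39.LVX.K_TF2

/-!
# LVK part T, block TB5A
-/

namespace Pool.Agent.LVK

open NumberField NumberField.InfinitePlace NumberField.Units Complex MeasureTheory Filter Topology
open Pool.Agent.HZ Pool.Agent.AS Pool.Agent.KS

variable {K : Type} [Field K] [NumberField K]

theorem tb5a_hT : 0 < hT K := by
  unfold hT
  have h1 : 0 < (classNumber K : ℝ) := by
    have : 0 < classNumber K := Fintype.card_pos
    exact_mod_cast this
  have h2 : 0 < (torsionOrder K : ℝ) := by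
    have : 0 < torsionOrder K := torsionOrder_pos K
    exact_mod_cast this
  positivity

theorem nprim_card_pr (κ : InfinitePlace K → ℤ) {B : ℝ} (hB : 0 < B) :
    ∃ C : ℝ, 0 ≤ C ∧ ∀ 𝔮 : Ideal (𝓞 K), C ≤ Ideal.absNorm 𝔮 → (FamB 𝔮 κ B).Finite ∧
      nprim 𝔮 ≤ C * ((FamB 𝔮 κ B).ncard : ℝ) := by
  obtain ⟨C1, hC1⟩ := family_count (K := K) κ hB (ε := 1 / 2) (by norm_num)
  have hv := ThB_volume (K := K) hB
  set v : ℝ := (volume (ThB K B)).toReal / (2 * Real.pi) ^ rank K with hvdef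
  have hv0 : 0 < v := by
    have := Real.pi_pos
    positivity
  have hh : 0 < hT K := tb5a_hT
  refine ⟨max (max C1 (2 / (hT K * v))) 0, le_max_right _ _, fun 𝔮 h𝔮 => ?_⟩
  have h1 : C1 ≤ Ideal.absNorm 𝔮 := le_trans (le_trans (le_max_left _ _) (le_max_left _ _)) h𝔮
  obtain ⟨hf, hc⟩ := hC1 𝔮 h1
  refine ⟨hf, ?_⟩
  have h2 : nprim 𝔮 ≤ 2 / (hT K * v) * ((FamB 𝔮 κ B).ncard : ℝ) := by
    have h3 : nprim 𝔮 * (hT K * v) ≤ 2 * ((FamB 𝔮 κ B).ncard : ℝ) := by nlinarith
    rw [div_mul_eq_mul_div, le_div_iff₀ (by positivity)]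
    exact h3
  refine h2.trans ?_
  gcongr
  exact le_trans (le_max_right _ _) (le_max_left _ _)

end Pool.Agent.LVK

namespace Pool.Agent.LVK

theorem nprim_card : type_of% @nprim_card_pr := @nprim_card_pr

end Pool.Agent.LVK
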