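import Pool.Agent.Lib_helper42.LVK.DefsT
import Pool.Agent.Lib_helper42.LVK.Defs
import Pool.Agent.Lib_helper41.HZF.YB
import Pool.Agent.Lib_helper41.HZF.KG
import Pool.Agent.Lib_helper92.KSA.BRG
import Pool.Agent.Lib_helper92.KSA.LATU
import Pool.Agent.Lib_helper92.KSA.LNZ
import Pool.Agent.Lib_helper92.LVA.Defs
import Pool.Agent.Lib_helper92.KSA.KPO
import Pool.Agent.Lib_helper92.KSA.ZKA
import Pool.Agent.Lib_helper92.ASA.All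
import Pool.Agent.Lib_helper39.LVX.K_MA3B
import Pool.Agent.Lib_helper39.LVX.K_MH2B
import Pool.Agent.Lib_helper39.LVX.K_MH3
import Pool.Agent.Lib_helper39.LVX.K_MH5
import Pool.Agent.Lib_helper39.LVX.K_TB2
import Pool.Agent.Lib_helper39.LVX.K_TB3
import Pool.Agent.Lib_helper39.LVX.K_TB5A

namespace Pool.Agent.LVK

open NumberField NumberField.InfinitePlace NumberField.Units Complex MeasureTheory Filter Topology
open Pool.Agent.HZ Pool.Agent.AS Pool.Agent.KS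

variable {K : Type} [Field K] [NumberField K]

theorem tb5b_HD {𝔮 : Ideal (𝓞 K)} {κ : InfinitePlace K → ℤ}
    (hκ : ∀ w : InfinitePlace K, w.IsReal → κ w = 0 ∨ κ w = 1) (h𝔮 : 𝔮 ≠ ⊥) (h𝔮' : 𝔮 ≠ ⊤)
    {t : HDat 𝔮} (ht : t ∈ FamK 𝔮 κ) : HD 𝔮 κ t.lam t.χ t.ψ := by
  obtain ⟨h1, h2, h3, h4⟩ := ht
  rw [h1] at h3
  exact ⟨hκ, h4, h𝔮, h𝔮', h2, h3⟩

omit [NumberField K] in
theorem tb5b_nprim (𝔮 : Ideal (𝓞 K)) : 0 ≤ nprim 𝔮 := by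
  unfold nprim
  positivity

/-- the mean square of `EM` from the mean square of the difference -/
theorem tb5b_split {𝔮 : Ideal (𝓞 K)} {κ : InfinitePlace K → ℤ}
    (hκ : ∀ w : InfinitePlace K, w.IsReal → κ w = 0 ∨ κ w = 1) (h𝔮 : 𝔮 ≠ ⊥) (h𝔮' : 𝔮 ≠ ⊤)
    {t : HDat 𝔮} (ht : t ∈ FamK 𝔮 κ) (T : TD K) (S : Finset (PK K →₀ ℕ))
    (a : (PK K →₀ ℕ) → ℝ) (η L : ℝ) {σ C₀ : ℝ} (hσ : 1 / 4 ≤ σ)
    (h0 : Integrable (fun u : ℝ => ‖E0 κ t.lam T η L u‖ ^ 2 * Real.exp ((2 * σ - 1) * u)) ∧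
      ∫ u : ℝ, ‖E0 κ t.lam T η L u‖ ^ 2 * Real.exp ((2 * σ - 1) * u) ≤ C₀) :
    ∫ u : ℝ, ‖EM κ t.lam T t.ψ S a η L u‖ ^ 2 * Real.exp ((2 * σ - 1) * u) ≤
      2 * (∫ u : ℝ, ‖EM κ t.lam T t.ψ S a η L u - E0 κ t.lam T η L u‖ ^ 2 *
        Real.exp ((2 * σ - 1) * u)) + 2 * C₀ := by
  have hd := tb5b_HD hκ h𝔮 h𝔮' ht
  have i1 := (EM_planch hd T S a η L σ).1
  have i2 := (EM0_planch hd T S a η L hσ).1
  have key : ∫ u : ℝ, ‖EM κ t.lam T t.ψ S a η L u‖ ^ 2 * Real.exp ((2 * σ - 1) * u) ≤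
      ∫ u : ℝ, (2 * (‖EM κ t.lam T t.ψ S a η L u - E0 κ t.lam T η L u‖ ^ 2 *
        Real.exp ((2 * σ - 1) * u)) + 2 * (‖E0 κ t.lam T η L u‖ ^ 2 *
          Real.exp ((2 * σ - 1) * u))) := by
    refine integral_mono i1 ((i2.const_mul 2).add (h0.1.const_mul 2)) fun u => ?_
    have h1 : ‖EM κ t.lam T t.ψ S a η L u‖ ≤
        ‖EM κ t.lam T t.ψ S a η L u - E0 κ t.lam T η L u‖ + ‖E0 κ t.lam T η L u‖ := by
      have := norm_add_le (EM κ t.lam T t.ψ S a η L u - E0 κ t.lam T η L u)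
        (E0 κ t.lam T η L u)
      rwa [sub_add_cancel] at this
    have h2 : ‖EM κ t.lam T t.ψ S a η L u‖ ^ 2 ≤
        2 * ‖EM κ t.lam T t.ψ S a η L u - E0 κ t.lam T η L u‖ ^ 2 +
          2 * ‖E0 κ t.lam T η L u‖ ^ 2 := by
      have h3 := pow_le_pow_left₀ (norm_nonneg _) h1 2
      nlinarith [sq_nonneg (‖EM κ t.lam T t.ψ S a η L u - E0 κ t.lam T η L u‖ -
        ‖E0 κ t.lam T η L u‖)]
    have h4 := mul_le_mul_of_nonneg_right h2 (Real.exp_pos ((2 * σ - 1) * u)).le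
    calc ‖EM κ t.lam T t.ψ S a η L u‖ ^ 2 * Real.exp ((2 * σ - 1) * u) ≤ _ := h4
      _ = _ := by ring
  rw [integral_add (i2.const_mul 2) (h0.1.const_mul 2), integral_const_mul,
    integral_const_mul] at key
  linarith [h0.2]

/-- `X M` and `V M` type mean squares on all lines `a ≤ σ ≤ σ₁` -/
theorem line_bdd_pr {κ : InfinitePlace K → ℤ}
    (hκ : ∀ w : InfinitePlace K, w.IsReal → κ w = 0 ∨ κ w = 1) (T : TD K) {b θ R lm σ₁ B : ℝ}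
    (hb : |b| ≤ 1 / 2) (hθ : 0 < θ) (hθ2 : θ < 1 / 2) (hR : 1 ≤ R) (hσ : 2 ≤ σ₁) (hB : 0 < B) :
    ∃ C L₀ : ℝ, 0 ≤ C ∧ 1 ≤ L₀ ∧ ∀ (𝔮 : Ideal (𝓞 K)) (_ : 𝔮 ≠ ⊥) (_ : 𝔮 ≠ ⊤) (L : ℝ)
      (_ : L₀ ≤ L) (_ : L = Real.log (Ideal.absNorm 𝔮)) (E : Finset (HDat 𝔮))
      (_ : ∀ t, t ∈ E ↔ t ∈ FamB 𝔮 κ B) (σ : ℝ) (_ : 1 / 2 - R / L ≤ σ) (_ : σ ≤ σ₁),
      ∑ t ∈ E, ∫ τ : ℝ, ‖(Xf κ t.lam T t.ψ (σ + τ * I) + ((lm / L : ℝ) : ℂ) *
        deriv (Xf κ t.lam T t.ψ) (σ + τ * I)) *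
          Mf t.ψ (SM 𝔮 θ L) (aM 𝔮 b θ R L) (σ + τ * I)‖ ^ 2 ≤ C * E.card := by
  obtain ⟨L₁, hL₁, h₁⟩ := sharp hκ T (b := b) (θ := θ) (R := R) (lm := lm) (ε := 1) hb hθ hθ2 hR
    one_pos
  obtain ⟨L₂, hL₂, h₂⟩ := right_small hκ T (b := b) (θ := θ) (R := R) (lm := lm) (σ := σ₁)
    (ε := 1) hb hθ hθ2 hR hσ one_pos
  obtain ⟨C₀, hC₀, h₀⟩ := E0_sq κ T lm σ₁
  obtain ⟨C₁, hC₁, hcard⟩ := nprim_card κ hB
  set D : ℝ := |hT K * (nrm κ T * LVA.cc b θ R lm + 1)| with hD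
  have hD0 : 0 ≤ D := abs_nonneg _
  refine ⟨2 * Real.pi * ((D + 2) * C₁ + 2 * C₀), max (max L₁ L₂) (C₁ + 1), ?_, ?_, ?_⟩
  · have := Real.pi_pos
    positivity
  · exact hL₁.trans ((le_max_left _ _).trans (le_max_left _ _))
  · intro 𝔮 h𝔮 h𝔮' L hL hLlog E hE σ hσa hσb
    have hLL₁ : L₁ ≤ L := ((le_max_left _ _).trans (le_max_left _ _)).trans hL
    have hLL₂ : L₂ ≤ L := ((le_max_right _ _).trans (le_max_left _ _)).trans hL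
    have hLC : C₁ + 1 ≤ L := (le_max_right _ _).trans hL
    have hL1 : 1 ≤ L := hL₁.trans hLL₁
    have hN : C₁ ≤ Ideal.absNorm 𝔮 := by
      have hNpos : (0 : ℝ) < Ideal.absNorm 𝔮 := by
        have : Ideal.absNorm 𝔮 ≠ 0 := fun h => h𝔮 (Ideal.absNorm_eq_zero_iff.1 h)
        exact_mod_cast Nat.pos_of_ne_zero this
      have h5 := Real.add_one_le_exp L
      rw [hLlog, Real.exp_log hNpos] at h5
      rw [← hLlog] at h5
      linarith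
    have hEK : ∀ t ∈ E, t ∈ FamK 𝔮 κ := fun t ht => ((hE t).1 ht).1
    have hEc : ((FamB 𝔮 κ B).ncard : ℝ) = E.card := by
      have : FamB 𝔮 κ B = (E : Set (HDat 𝔮)) := by
        ext t
        simp [hE t]
      rw [this, Set.ncard_coe_finset]
    have hnp : nprim 𝔮 ≤ C₁ * E.card := by
      have := (hcard 𝔮 hN).2
      rwa [hEc] at this
    have hnp0 : 0 ≤ nprim 𝔮 := tb5b_nprim 𝔮
    set S := SM 𝔮 θ L with hS
    set a := aM 𝔮 b θ R L with ha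
    set Φ : ℝ → ℝ := fun s => ∑ t ∈ E, ∫ u : ℝ, ‖EM κ t.lam T t.ψ S a lm L u‖ ^ 2 *
      Real.exp ((2 * s - 1) * u) with hΦ
    have hΦ0 : ∀ s, 0 ≤ Φ s := fun s => Finset.sum_nonneg fun t _ =>
      integral_nonneg fun u => by positivity
    -- the line `a`
    have hA : Φ (1 / 2 - R / L) ≤ D * nprim 𝔮 := by
      have h3 := h₁ 𝔮 h𝔮 h𝔮' L hLL₁ hLlog E hEK
      calc Φ (1 / 2 - R / L) ≤ hT K * nprim 𝔮 * (nrm κ T * LVA.cc b θ R lm + 1) := h3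
        _ = (hT K * (nrm κ T * LVA.cc b θ R lm + 1)) * nprim 𝔮 := by ring
        _ ≤ D * nprim 𝔮 := mul_le_mul_of_nonneg_right (le_abs_self _) hnp0
    -- the line `σ₁`
    have hB1 : Φ σ₁ ≤ 2 * nprim 𝔮 + 2 * C₀ * E.card := by
      have h3 := h₂ 𝔮 h𝔮 h𝔮' L hLL₂ hLlog E hEK
      calc Φ σ₁ ≤ ∑ t ∈ E, (2 * (∫ u : ℝ, ‖EM κ t.lam T t.ψ S a lm L u -
            E0 κ t.lam T lm L u‖ ^ 2 * Real.exp ((2 * σ₁ - 1) * u)) + 2 * C₀) := by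
            refine Finset.sum_le_sum fun t ht => ?_
            exact tb5b_split hκ h𝔮 h𝔮' (hEK t ht) T S a lm L (by linarith)
              (h₀ t.lam L σ₁ hL1 (by linarith) le_rfl)
        _ = 2 * (∑ t ∈ E, ∫ u : ℝ, ‖EM κ t.lam T t.ψ S a lm L u -
            E0 κ t.lam T lm L u‖ ^ 2 * Real.exp ((2 * σ₁ - 1) * u)) + 2 * C₀ * E.card := by
            rw [Finset.sum_add_distrib, ← Finset.mul_sum, Finset.sum_const, nsmul_eq_mul]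
            ring
        _ ≤ 2 * (1 * nprim 𝔮) + 2 * C₀ * E.card := by linarith
        _ = 2 * nprim 𝔮 + 2 * C₀ * E.card := by ring
    -- convexity
    have hRL : 0 < R / L := by positivity
    have hden : 0 < σ₁ - (1 / 2 - R / L) := by linarith
    set τ := (σ - (1 / 2 - R / L)) / (σ₁ - (1 / 2 - R / L)) with hτ
    have hτ0 : 0 ≤ τ := div_nonneg (by linarith) hden.le
    have hτ1 : τ ≤ 1 := by
      rw [hτ, div_le_one hden]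
      linarith
    have hστ : (1 - τ) * (1 / 2 - R / L) + τ * σ₁ = σ := by
      have h6 : τ * (σ₁ - (1 / 2 - R / L)) = σ - (1 / 2 - R / L) :=
        div_mul_cancel₀ _ hden.ne'
      linarith
    have hconv := (log_conv E.attach (fun t u => ‖EM κ t.1.lam T t.1.ψ S a lm L u‖ ^ 2)
      (fun t => ((EM_continuous (tb5b_HD hκ h𝔮 h𝔮' (hEK t.1 t.2)) T S a lm L).norm).pow 2)
      (fun t u => by positivity) (a := 1 / 2 - R / L) (b := σ₁) hτ0 hτ1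
      (fun t _ => (EM_planch (tb5b_HD hκ h𝔮 h𝔮' (hEK t.1 t.2)) T S a lm L _).1)
      (fun t _ => (EM_planch (tb5b_HD hκ h𝔮 h𝔮' (hEK t.1 t.2)) T S a lm L _).1)).2
    rw [hστ] at hconv
    have hs : ∀ s : ℝ, ∑ t ∈ E.attach, ∫ u : ℝ, ‖EM κ t.1.lam T t.1.ψ S a lm L u‖ ^ 2 *
        Real.exp ((2 * s - 1) * u) = Φ s := fun s =>
      Finset.sum_attach E (fun t => ∫ u : ℝ, ‖EM κ t.lam T t.ψ S a lm L u‖ ^ 2 *
        Real.exp ((2 * s - 1) * u))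
    rw [hs, hs, hs] at hconv
    have hgm := Real.geom_mean_le_arith_mean2_weighted (w₁ := 1 - τ) (w₂ := τ)
      (p₁ := Φ (1 / 2 - R / L)) (p₂ := Φ σ₁) (by linarith) hτ0 (hΦ0 _) (hΦ0 _) (by ring)
    have hΦσ : Φ σ ≤ Φ (1 / 2 - R / L) + Φ σ₁ := by
      have e1 : (1 - τ) * Φ (1 / 2 - R / L) ≤ Φ (1 / 2 - R / L) := by
        nlinarith [hΦ0 (1 / 2 - R / L)]
      have e2 : τ * Φ σ₁ ≤ Φ σ₁ := by nlinarith [hΦ0 σ₁]
      linarith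
    have hfin : Φ σ ≤ ((D + 2) * C₁ + 2 * C₀) * E.card := by
      calc Φ σ ≤ D * nprim 𝔮 + (2 * nprim 𝔮 + 2 * C₀ * E.card) := by linarith
        _ = (D + 2) * nprim 𝔮 + 2 * C₀ * E.card := by ring
        _ ≤ (D + 2) * (C₁ * E.card) + 2 * C₀ * E.card := by
          have := mul_le_mul_of_nonneg_left hnp (by positivity : 0 ≤ D + 2)
          linarith
        _ = _ := by ring
    have heq : ∑ t ∈ E, ∫ τ : ℝ, ‖(Xf κ t.lam T t.ψ (σ + τ * I) + ((lm / L : ℝ) : ℂ) *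
        deriv (Xf κ t.lam T t.ψ) (σ + τ * I)) * Mf t.ψ S a (σ + τ * I)‖ ^ 2 =
        2 * Real.pi * Φ σ := by
      rw [hΦ, Finset.mul_sum]
      exact Finset.sum_congr rfl fun t ht =>
        (EM_planch (tb5b_HD hκ h𝔮 h𝔮' (hEK t ht)) T S a lm L σ).2.2
    rw [heq]
    calc 2 * Real.pi * Φ σ ≤ 2 * Real.pi * (((D + 2) * C₁ + 2 * C₀) * E.card) :=
          mul_le_mul_of_nonneg_left hfin (by positivity)
      _ = _ := by ring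

end Pool.Agent.LVK

namespace Pool.Agent.LVK

theorem line_bdd : type_of% @line_bdd_pr := @line_bdd_pr

end Pool.Agent.LVK
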