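import Pool.Agent.Lib_helper42.LVK.DefsT
import Pool.Agent.Lib_helper42.LVK.Defs
import Pool.Agent.Lib_helper41.HZF.YB
import Pool.Agent.Lib_helper41.HZF.KG
import Pool.Agent.Lib_helper92.KSA.BRG
import Pool.Agent.Lib_helper92.KSA.LATU
import Pool.Agent.Lib_helper92.KSA.LNZ
import Pool.Agent.Lib_helper92.LVA.Defs
import Pool.Agent.Lib_helper92.KSA.KPO
import Pool.Agent.Lib_helper92.KSA.ZKA
import Pool.Agent.Lib_helper92.ASA.All
import Pool.Agent.Lib_helper39.LVX.K_MA3B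
import Pool.Agent.Lib_helper39.LVX.K_MH2B
import Pool.Agent.Lib_helper39.LVX.K_MH3
import Pool.Agent.Lib_helper39.LVX.K_MH5
import Pool.Agent.Lib_helper39.LVX.K_TB2
import Pool.Agent.Lib_helper39.LVX.K_TB3
import Pool.Agent.Lib_helper39.LVX.K_TB5A

namespace Pool.Agent.LVK

open NumberField NumberField.InfinitePlace NumberField.Units Complex MeasureTheory Filter Topology
open Pool.Agent.HZ Pool.Agent.AS Pool.Agent.KS

variable {K : Type} [Field K] [NumberField K]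

theorem tb5c_HD {𝔮 : Ideal (𝓞 K)} {κ : InfinitePlace K → ℤ}
    (hκ : ∀ w : InfinitePlace K, w.IsReal → κ w = 0 ∨ κ w = 1) (h𝔮 : 𝔮 ≠ ⊥) (h𝔮' : 𝔮 ≠ ⊤)
    {t : HDat 𝔮} (ht : t ∈ FamK 𝔮 κ) : HD 𝔮 κ t.lam t.χ t.ψ := by
  obtain ⟨h1, h2, h3, h4⟩ := ht
  rw [h1] at h3
  exact ⟨hκ, h4, h𝔮, h𝔮', h2, h3⟩

omit [NumberField K] in
theorem tb5c_nprim (𝔮 : Ideal (𝓞 K)) : 0 ≤ nprim 𝔮 := by
  unfold nprim
  positivity

/-- the mean square of the difference from the mean square of `EM` -/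
theorem tb5c_split {𝔮 : Ideal (𝓞 K)} {κ : InfinitePlace K → ℤ}
    (hκ : ∀ w : InfinitePlace K, w.IsReal → κ w = 0 ∨ κ w = 1) (h𝔮 : 𝔮 ≠ ⊥) (h𝔮' : 𝔮 ≠ ⊤)
    {t : HDat 𝔮} (ht : t ∈ FamK 𝔮 κ) (T : TD K) (S : Finset (PK K →₀ ℕ))
    (a : (PK K →₀ ℕ) → ℝ) (η L : ℝ) {σ C₀ : ℝ} (hσ : 1 / 4 ≤ σ)
    (h0 : Integrable (fun u : ℝ => ‖E0 κ t.lam T η L u‖ ^ 2 * Real.exp ((2 * σ - 1) * u)) ∧
      ∫ u : ℝ, ‖E0 κ t.lam T η L u‖ ^ 2 * Real.exp ((2 * σ - 1) * u) ≤ C₀) :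
    ∫ u : ℝ, ‖EM κ t.lam T t.ψ S a η L u - E0 κ t.lam T η L u‖ ^ 2 *
        Real.exp ((2 * σ - 1) * u) ≤
      2 * (∫ u : ℝ, ‖EM κ t.lam T t.ψ S a η L u‖ ^ 2 * Real.exp ((2 * σ - 1) * u)) +
        2 * C₀ := by
  have hd := tb5c_HD hκ h𝔮 h𝔮' ht
  have i1 := (EM_planch hd T S a η L σ).1
  have i2 := (EM0_planch hd T S a η L hσ).1
  have key : ∫ u : ℝ, ‖EM κ t.lam T t.ψ S a η L u - E0 κ t.lam T η L u‖ ^ 2 *
        Real.exp ((2 * σ - 1) * u) ≤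
      ∫ u : ℝ, (2 * (‖EM κ t.lam T t.ψ S a η L u‖ ^ 2 *
        Real.exp ((2 * σ - 1) * u)) + 2 * (‖E0 κ t.lam T η L u‖ ^ 2 *
          Real.exp ((2 * σ - 1) * u))) := by
    refine integral_mono i2 ((i1.const_mul 2).add (h0.1.const_mul 2)) fun u => ?_
    have h1 : ‖EM κ t.lam T t.ψ S a η L u - E0 κ t.lam T η L u‖ ≤
        ‖EM κ t.lam T t.ψ S a η L u‖ + ‖E0 κ t.lam T η L u‖ := norm_sub_le _ _
    have h2 : ‖EM κ t.lam T t.ψ S a η L u - E0 κ t.lam T η L u‖ ^ 2 ≤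
        2 * ‖EM κ t.lam T t.ψ S a η L u‖ ^ 2 +
          2 * ‖E0 κ t.lam T η L u‖ ^ 2 := by
      have h3 := pow_le_pow_left₀ (norm_nonneg _) h1 2
      nlinarith [sq_nonneg (‖EM κ t.lam T t.ψ S a η L u‖ - ‖E0 κ t.lam T η L u‖)]
    have h4 := mul_le_mul_of_nonneg_right h2 (Real.exp_pos ((2 * σ - 1) * u)).le
    calc ‖EM κ t.lam T t.ψ S a η L u - E0 κ t.lam T η L u‖ ^ 2 *
          Real.exp ((2 * σ - 1) * u) ≤ _ := h4
      _ = _ := by ring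
  rw [integral_add (i1.const_mul 2) (h0.1.const_mul 2), integral_const_mul,
    integral_const_mul] at key
  linarith [h0.2]

/-- choice of the constants -/
theorem tb5c_interp {P Q n x y τ τ₀ : ℝ} (hP : 1 ≤ P) (hQ : 0 < Q) (hQ1 : Q ≤ 1) (hn : 0 < n)
    (hx0 : 0 ≤ x) (hy0 : 0 ≤ y) (hx : x ≤ P * n) (hy : y ≤ Q * n) (hτ₀ : 0 ≤ τ₀) (hτ : τ₀ ≤ τ)
    (hτ1 : τ ≤ 1) : x ^ (1 - τ) * y ^ τ ≤ P * Q ^ τ₀ * n := by
  have h1 : 0 ≤ 1 - τ := by linarith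
  have h2 : 0 ≤ τ := hτ₀.trans hτ
  have e1 : x ^ (1 - τ) ≤ (P * n) ^ (1 - τ) := Real.rpow_le_rpow hx0 hx h1
  have e2 : y ^ τ ≤ (Q * n) ^ τ := Real.rpow_le_rpow hy0 hy h2
  have e3 : P ^ (1 - τ) ≤ P := by
    have := Real.rpow_le_rpow_of_exponent_le hP (by linarith : 1 - τ ≤ 1)
    rwa [Real.rpow_one] at this
  have e4 : Q ^ τ ≤ Q ^ τ₀ := Real.rpow_le_rpow_of_exponent_ge hQ hQ1 hτ
  calc x ^ (1 - τ) * y ^ τ ≤ (P * n) ^ (1 - τ) * (Q * n) ^ τ :=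
        mul_le_mul e1 e2 (by positivity) (by positivity)
    _ = P ^ (1 - τ) * Q ^ τ * (n ^ (1 - τ) * n ^ τ) := by
        rw [Real.mul_rpow (by linarith) hn.le, Real.mul_rpow hQ.le hn.le]
        ring
    _ = P ^ (1 - τ) * Q ^ τ * n := by
        rw [← Real.rpow_add hn]
        simp
    _ ≤ P * Q ^ τ₀ * n := by
        refine mul_le_mul_of_nonneg_right (mul_le_mul e3 e4 (by positivity) (by linarith)) hn.le

/-- the difference from the main term is small in mean square for `σ ≥ 1/2 + δ` -/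
theorem line_small_pr {κ : InfinitePlace K → ℤ}
    (hκ : ∀ w : InfinitePlace K, w.IsReal → κ w = 0 ∨ κ w = 1) (T : TD K)
    {b θ R lm σ₁ B δ ε : ℝ} (hb : |b| ≤ 1 / 2) (hθ : 0 < θ) (hθ2 : θ < 1 / 2) (hR : 1 ≤ R)
    (hσ : 2 ≤ σ₁) (hB : 0 < B) (hδ : 0 < δ) (hε : 0 < ε) :
    ∃ L₀ : ℝ, 1 ≤ L₀ ∧ ∀ (𝔮 : Ideal (𝓞 K)) (_ : 𝔮 ≠ ⊥) (_ : 𝔮 ≠ ⊤) (L : ℝ)
      (_ : L₀ ≤ L) (_ : L = Real.log (Ideal.absNorm 𝔮)) (E : Finset (HDat 𝔮))
      (_ : ∀ t, t ∈ E ↔ t ∈ FamB 𝔮 κ B) (σ : ℝ) (_ : 1 / 2 + δ ≤ σ) (_ : σ ≤ σ₁),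
      ∑ t ∈ E, ∫ τ : ℝ, ‖(Xf κ t.lam T t.ψ (σ + τ * I) + ((lm / L : ℝ) : ℂ) *
        deriv (Xf κ t.lam T t.ψ) (σ + τ * I)) *
          Mf t.ψ (SM 𝔮 θ L) (aM 𝔮 b θ R L) (σ + τ * I) -
        (gh κ t.lam T (σ + τ * I) + ((lm / L : ℝ) : ℂ) *
          deriv (gh κ t.lam T) (σ + τ * I))‖ ^ 2 ≤ ε * E.card := by
  obtain ⟨L₁, hL₁, h₁⟩ := sharp hκ T (b := b) (θ := θ) (R := R) (lm := lm) (ε := 1) hb hθ hθ2 hR
    one_pos
  obtain ⟨C₀, hC₀, h₀⟩ := E0_sq κ T lm σ₁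
  obtain ⟨C₁, hC₁, hcard⟩ := nprim_card κ hB
  have hpi := Real.pi_pos
  set D : ℝ := |hT K * (nrm κ T * LVA.cc b θ R lm + 1)| with hD
  have hD0 : 0 ≤ D := abs_nonneg _
  set P : ℝ := 2 * (D * C₁) + 2 * C₀ + 1 with hP
  have hP1 : 1 ≤ P := by
    have : 0 ≤ D * C₁ := by positivity
    linarith
  have hP0 : 0 < P := by linarith
  set τ₀ : ℝ := δ / σ₁ with hτ₀
  have hτ₀0 : 0 < τ₀ := by positivity
  set Q : ℝ := min 1 ((ε / (2 * Real.pi * P)) ^ (1 / τ₀)) with hQ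
  have hQ0 : 0 < Q := lt_min one_pos (by positivity)
  have hQ1 : Q ≤ 1 := min_le_left _ _
  have hQτ : Q ^ τ₀ ≤ ε / (2 * Real.pi * P) := by
    have e1 : Q ^ τ₀ ≤ ((ε / (2 * Real.pi * P)) ^ (1 / τ₀)) ^ τ₀ :=
      Real.rpow_le_rpow hQ0.le (min_le_right _ _) hτ₀0.le
    rwa [← Real.rpow_mul (by positivity), one_div, inv_mul_cancel₀ hτ₀0.ne', Real.rpow_one]
      at e1
  obtain ⟨L₂, hL₂, h₂⟩ := right_small hκ T (b := b) (θ := θ) (R := R) (lm := lm) (σ := σ₁)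
    (ε := Q / (C₁ + 1)) hb hθ hθ2 hR hσ (by positivity)
  refine ⟨max (max L₁ L₂) (max (C₁ + 1) (4 * R)), ?_, ?_⟩
  · exact hL₁.trans ((le_max_left _ _).trans (le_max_left _ _))
  · intro 𝔮 h𝔮 h𝔮' L hL hLlog E hE σ hσa hσb
    have hLL₁ : L₁ ≤ L := ((le_max_left _ _).trans (le_max_left _ _)).trans hL
    have hLL₂ : L₂ ≤ L := ((le_max_right _ _).trans (le_max_left _ _)).trans hL
    have hLC : C₁ + 1 ≤ L := ((le_max_left _ _).trans (le_max_right _ _)).trans hL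
    have hLR : 4 * R ≤ L := ((le_max_right _ _).trans (le_max_right _ _)).trans hL
    have hL1 : 1 ≤ L := hL₁.trans hLL₁
    have hL0 : 0 < L := by linarith
    have hN : C₁ ≤ Ideal.absNorm 𝔮 := by
      have hNpos : (0 : ℝ) < Ideal.absNorm 𝔮 := by
        have : Ideal.absNorm 𝔮 ≠ 0 := fun h => h𝔮 (Ideal.absNorm_eq_zero_iff.1 h)
        exact_mod_cast Nat.pos_of_ne_zero this
      have h5 := Real.add_one_le_exp L
      rw [hLlog, Real.exp_log hNpos] at h5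
      rw [← hLlog] at h5
      linarith
    have hEK : ∀ t ∈ E, t ∈ FamK 𝔮 κ := fun t ht => ((hE t).1 ht).1
    have hEc : ((FamB 𝔮 κ B).ncard : ℝ) = E.card := by
      have : FamB 𝔮 κ B = (E : Set (HDat 𝔮)) := by
        ext t
        simp [hE t]
      rw [this, Set.ncard_coe_finset]
    have hnp : nprim 𝔮 ≤ C₁ * E.card := by
      have := (hcard 𝔮 hN).2
      rwa [hEc] at this
    have hnp0 : 0 ≤ nprim 𝔮 := tb5c_nprim 𝔮
    rcases E.eq_empty_or_nonempty with hemp | hne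
    · rw [hemp]
      simp
    have hn : (0 : ℝ) < E.card := by exact_mod_cast hne.card_pos
    set S := SM 𝔮 θ L with hS
    set a := aM 𝔮 b θ R L with ha
    set Φ : ℝ → ℝ := fun s => ∑ t ∈ E, ∫ u : ℝ, ‖EM κ t.lam T t.ψ S a lm L u -
      E0 κ t.lam T lm L u‖ ^ 2 * Real.exp ((2 * s - 1) * u) with hΦ
    have hΦ0 : ∀ s, 0 ≤ Φ s := fun s => Finset.sum_nonneg fun t _ =>
      integral_nonneg fun u => by positivity
    have hRL0 : 0 < R / L := by positivity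
    have hRL : R / L ≤ 1 / 4 := by
      rw [div_le_iff₀ hL0]
      linarith
    have ha4 : 1 / 4 ≤ 1 / 2 - R / L := by linarith
    -- the line `a`
    have hA : Φ (1 / 2 - R / L) ≤ P * E.card := by
      have h3 := h₁ 𝔮 h𝔮 h𝔮' L hLL₁ hLlog E hEK
      have h4 : Φ (1 / 2 - R / L) ≤ ∑ t ∈ E, (2 * (∫ u : ℝ, ‖EM κ t.lam T t.ψ S a lm L u‖ ^ 2 *
          Real.exp ((2 * (1 / 2 - R / L) - 1) * u)) + 2 * C₀) := by
        refine Finset.sum_le_sum fun t ht => ?_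
        exact tb5c_split hκ h𝔮 h𝔮' (hEK t ht) T S a lm L ha4
          (h₀ t.lam L _ hL1 ha4 (by linarith))
      rw [Finset.sum_add_distrib, ← Finset.mul_sum, Finset.sum_const, nsmul_eq_mul] at h4
      have h5 : hT K * nprim 𝔮 * (nrm κ T * LVA.cc b θ R lm + 1) ≤ D * nprim 𝔮 := by
        calc hT K * nprim 𝔮 * (nrm κ T * LVA.cc b θ R lm + 1)
            = (hT K * (nrm κ T * LVA.cc b θ R lm + 1)) * nprim 𝔮 := by ring
          _ ≤ D * nprim 𝔮 := mul_le_mul_of_nonneg_right (le_abs_self _) hnp0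
      have h6 : D * nprim 𝔮 ≤ D * (C₁ * E.card) := mul_le_mul_of_nonneg_left hnp hD0
      calc Φ (1 / 2 - R / L) ≤ 2 * (D * (C₁ * E.card)) + E.card * (2 * C₀) := by linarith
        _ = (P - 1) * E.card := by rw [hP]; ring
        _ ≤ P * E.card := by nlinarith
    -- the line `σ₁`
    have hB1 : Φ σ₁ ≤ Q * E.card := by
      have h3 := h₂ 𝔮 h𝔮 h𝔮' L hLL₂ hLlog E hEK
      calc Φ σ₁ ≤ Q / (C₁ + 1) * nprim 𝔮 := h3
        _ ≤ Q / (C₁ + 1) * (C₁ * E.card) := mul_le_mul_of_nonneg_left hnp (by positivity)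
        _ = Q * E.card * (C₁ / (C₁ + 1)) := by ring
        _ ≤ Q * E.card * 1 := by
          refine mul_le_mul_of_nonneg_left ?_ (by positivity)
          rw [div_le_one (by positivity)]
          linarith
        _ = Q * E.card := by ring
    -- convexity
    have hden : 0 < σ₁ - (1 / 2 - R / L) := by linarith
    set τ := (σ - (1 / 2 - R / L)) / (σ₁ - (1 / 2 - R / L)) with hτ
    have hτ0 : 0 ≤ τ := div_nonneg (by linarith) hden.le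
    have hτ1 : τ ≤ 1 := by
      rw [hτ, div_le_one hden]
      linarith
    have hττ : τ₀ ≤ τ := by
      rw [hτ, hτ₀, div_le_div_iff₀ (by linarith) hden]
      have e1 : σ₁ - (1 / 2 - R / L) ≤ σ₁ := by linarith
      have e2 : δ ≤ σ - (1 / 2 - R / L) := by linarith
      calc δ * (σ₁ - (1 / 2 - R / L)) ≤ δ * σ₁ := mul_le_mul_of_nonneg_left e1 hδ.le
        _ ≤ (σ - (1 / 2 - R / L)) * σ₁ := mul_le_mul_of_nonneg_right e2 (by linarith)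
    have hστ : (1 - τ) * (1 / 2 - R / L) + τ * σ₁ = σ := by
      have h6 : τ * (σ₁ - (1 / 2 - R / L)) = σ - (1 / 2 - R / L) :=
        div_mul_cancel₀ _ hden.ne'
      linarith
    have hconv := (log_conv E.attach (fun t u => ‖EM κ t.1.lam T t.1.ψ S a lm L u -
        E0 κ t.1.lam T lm L u‖ ^ 2)
      (fun t => (((EM_continuous (tb5c_HD hκ h𝔮 h𝔮' (hEK t.1 t.2)) T S a lm L).sub
        (E0_continuous κ t.1.lam T lm L)).norm).pow 2)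
      (fun t u => by positivity) (a := 1 / 2 - R / L) (b := σ₁) hτ0 hτ1
      (fun t _ => (EM0_planch (tb5c_HD hκ h𝔮 h𝔮' (hEK t.1 t.2)) T S a lm L ha4).1)
      (fun t _ => (EM0_planch (tb5c_HD hκ h𝔮 h𝔮' (hEK t.1 t.2)) T S a lm L
        (by linarith : 1 / 4 ≤ σ₁)).1)).2
    rw [hστ] at hconv
    have hs : ∀ s : ℝ, ∑ t ∈ E.attach, ∫ u : ℝ, ‖EM κ t.1.lam T t.1.ψ S a lm L u -
        E0 κ t.1.lam T lm L u‖ ^ 2 * Real.exp ((2 * s - 1) * u) = Φ s := fun s =>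
      Finset.sum_attach E (fun t => ∫ u : ℝ, ‖EM κ t.lam T t.ψ S a lm L u -
        E0 κ t.lam T lm L u‖ ^ 2 * Real.exp ((2 * s - 1) * u))
    rw [hs, hs, hs] at hconv
    have hint := tb5c_interp hP1 hQ0 hQ1 hn (hΦ0 _) (hΦ0 _) hA hB1 hτ₀0.le hττ hτ1
    have hfin : Φ σ ≤ P * Q ^ τ₀ * E.card := hconv.trans hint
    have heq : ∑ t ∈ E, ∫ τ : ℝ, ‖(Xf κ t.lam T t.ψ (σ + τ * I) + ((lm / L : ℝ) : ℂ) *
        deriv (Xf κ t.lam T t.ψ) (σ + τ * I)) * Mf t.ψ S a (σ + τ * I) -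
        (gh κ t.lam T (σ + τ * I) + ((lm / L : ℝ) : ℂ) *
          deriv (gh κ t.lam T) (σ + τ * I))‖ ^ 2 = 2 * Real.pi * Φ σ := by
      rw [hΦ, Finset.mul_sum]
      exact Finset.sum_congr rfl fun t ht =>
        (EM0_planch (tb5c_HD hκ h𝔮 h𝔮' (hEK t ht)) T S a lm L
          (by linarith : 1 / 4 ≤ σ)).2.2
    rw [heq]
    calc 2 * Real.pi * Φ σ ≤ 2 * Real.pi * (P * Q ^ τ₀ * E.card) :=
          mul_le_mul_of_nonneg_left hfin (by positivity)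
      _ = 2 * Real.pi * P * Q ^ τ₀ * E.card := by ring
      _ ≤ 2 * Real.pi * P * (ε / (2 * Real.pi * P)) * E.card :=
          mul_le_mul_of_nonneg_right (mul_le_mul_of_nonneg_left hQτ (by positivity)) hn.le
      _ = ε * E.card := by
          rw [mul_div_cancel₀ _ (by positivity : 2 * Real.pi * P ≠ 0)]

end Pool.Agent.LVK

namespace Pool.Agent.LVK

theorem line_small : type_of% @line_small_pr := @line_small_pr

end Pool.Agent.LVK
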