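import Pool.Agent.Lib_helper42.LVK.DefsT
import Pool.Agent.Lib_helper42.LVK.Defs
import Pool.Agent.Lib_helper41.HZF.YB
import Pool.Agent.Lib_helper41.HZF.KG
import Pool.Agent.Lib_helper92.KSA.BRG
import Pool.Agent.Lib_helper92.KSA.LATU
import Pool.Agent.Lib_helper92.KSA.LNZ
import Pool.Agent.Lib_helper92.LVA.Defs
import Pool.Agent.Lib_helper92.KSA.KPO
import Pool.Agent.Lib_helper92.KSA.ZKA
import Pool.Agent.Lib_helper92.ASA.All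
import Pool.Agent.Lib_helper39.LVX.K_MH2B
import Pool.Agent.Lib_helper39.LVX.K_MH5
import Pool.Agent.Lib_helper39.LVX.K_TB4
import Pool.Agent.Lib_helper39.LVX.K_TB5A

/-!
# LVK block TB5D: the mean square without mollifier on all lines
-/

set_option autoImplicit false

namespace Pool.Agent.LVK

open NumberField NumberField.InfinitePlace NumberField.Units Complex MeasureTheory Filter Topology
open Pool.Agent.HZ Pool.Agent.AS Pool.Agent.KS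

variable {K : Type} [Field K] [NumberField K]

theorem tb5d_IK_zero : IK (0 : PK K →₀ ℕ) = 1 := Finsupp.prod_zero_index

theorem tb5d_lK_zero : lK (0 : PK K →₀ ℕ) = 0 := by
  unfold lK nm
  rw [Finsupp.prod_zero_index]
  simp

theorem tb5d_Mf (ψ : Ideal (𝓞 K) →* ℂ) (s : ℂ) : Mf ψ {0} (fun _ => 1) s = 1 := by
  unfold Mf
  rw [Finset.sum_singleton, tb5d_IK_zero, tb5d_lK_zero, map_one]
  simp

/-- a bound by two lines -/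
theorem tb5d_exp {a σ b : ℝ} (h1 : a ≤ σ) (h2 : σ ≤ b) (u : ℝ) :
    Real.exp ((2 * σ - 1) * u) ≤ Real.exp ((2 * a - 1) * u) + Real.exp ((2 * b - 1) * u) := by
  rcases le_total 0 u with hu | hu
  · have h3 : Real.exp ((2 * σ - 1) * u) ≤ Real.exp ((2 * b - 1) * u) := by
      apply Real.exp_le_exp.2
      exact mul_le_mul_of_nonneg_right (by linarith) hu
    linarith [Real.exp_pos ((2 * a - 1) * u)]
  · have h3 : Real.exp ((2 * σ - 1) * u) ≤ Real.exp ((2 * a - 1) * u) := by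
      apply Real.exp_le_exp.2
      exact mul_le_mul_of_nonpos_right (by linarith) hu
    linarith [Real.exp_pos ((2 * b - 1) * u)]

theorem tb5d_hd {𝔮 : Ideal (𝓞 K)} (h1 : 𝔮 ≠ ⊥) (h2 : 𝔮 ≠ ⊤) {κ : InfinitePlace K → ℤ}
    (hκ : ∀ w : InfinitePlace K, w.IsReal → κ w = 0 ∨ κ w = 1) {t : HDat 𝔮}
    (ht : t ∈ FamK 𝔮 κ) : HD 𝔮 κ t.lam t.χ t.ψ := by
  obtain ⟨h3, h4, h5, h6⟩ := ht
  rw [h3] at h5
  exact ⟨hκ, h6, h1, h2, h4, h5⟩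

/-- one character -/
theorem tb5d_one {𝔮 : Ideal (𝓞 K)} {κ : InfinitePlace K → ℤ} {lam : InfinitePlace K → ℝ}
    {χ : MulChar (𝓞 K ⧸ 𝔮) ℂ} {ψ : Ideal (𝓞 K) →* ℂ} (h : HD 𝔮 κ lam χ ψ) (T : TD K)
    {L a σ σ₁ C₁ : ℝ} (hσ₁ : 1 / 4 ≤ σ₁) (h1 : a ≤ σ) (h2 : σ ≤ σ₁)
    (hE : Integrable (fun u : ℝ => ‖E0 κ lam T 0 L u‖ ^ 2 * Real.exp ((2 * σ₁ - 1) * u)) ∧
      ∫ u : ℝ, ‖E0 κ lam T 0 L u‖ ^ 2 * Real.exp ((2 * σ₁ - 1) * u) ≤ C₁) :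
    ∫ τ : ℝ, ‖Xf κ lam T ψ (σ + τ * I)‖ ^ 2 ≤
      2 * Real.pi * ((∫ u : ℝ, ‖EM κ lam T ψ {0} (fun _ => 1) 0 L u‖ ^ 2 *
          Real.exp ((2 * a - 1) * u)) +
        (2 * (∫ u : ℝ, ‖EM κ lam T ψ {0} (fun _ => 1) 0 L u - E0 κ lam T 0 L u‖ ^ 2 *
          Real.exp ((2 * σ₁ - 1) * u)) + 2 * C₁)) := by
  have hP := EM_planch h T {0} (fun _ => 1) 0 L σ
  have hPa := (EM_planch h T {0} (fun _ => 1) 0 L a).1
  have hP1 := (EM_planch h T {0} (fun _ => 1) 0 L σ₁).1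
  have hP0 := (EM0_planch h T {0} (fun _ => 1) 0 L hσ₁).1
  have h3 : ∫ τ : ℝ, ‖Xf κ lam T ψ (σ + τ * I)‖ ^ 2 =
      2 * Real.pi * ∫ u : ℝ, ‖EM κ lam T ψ {0} (fun _ => 1) 0 L u‖ ^ 2 *
        Real.exp ((2 * σ - 1) * u) := by
    rw [← hP.2.2]
    refine integral_congr_ae (Eventually.of_forall fun τ => ?_)
    simp only [tb5d_Mf, mul_one, zero_div, Complex.ofReal_zero, zero_mul, add_zero]
  rw [h3]
  refine mul_le_mul_of_nonneg_left ?_ (by positivity)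
  have h4 : ∫ u : ℝ, ‖EM κ lam T ψ {0} (fun _ => 1) 0 L u‖ ^ 2 * Real.exp ((2 * σ - 1) * u) ≤
      (∫ u : ℝ, ‖EM κ lam T ψ {0} (fun _ => 1) 0 L u‖ ^ 2 * Real.exp ((2 * a - 1) * u)) +
      ∫ u : ℝ, ‖EM κ lam T ψ {0} (fun _ => 1) 0 L u‖ ^ 2 * Real.exp ((2 * σ₁ - 1) * u) := by
    rw [← integral_add hPa hP1]
    refine integral_mono hP.1 (hPa.add hP1) fun u => ?_
    simp only
    rw [← mul_add]
    exact mul_le_mul_of_nonneg_left (tb5d_exp h1 h2 u) (by positivity)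
  have h5 : ∫ u : ℝ, ‖EM κ lam T ψ {0} (fun _ => 1) 0 L u‖ ^ 2 * Real.exp ((2 * σ₁ - 1) * u) ≤
      2 * (∫ u : ℝ, ‖EM κ lam T ψ {0} (fun _ => 1) 0 L u - E0 κ lam T 0 L u‖ ^ 2 *
          Real.exp ((2 * σ₁ - 1) * u)) +
      2 * ∫ u : ℝ, ‖E0 κ lam T 0 L u‖ ^ 2 * Real.exp ((2 * σ₁ - 1) * u) := by
    rw [← integral_const_mul, ← integral_const_mul,
      ← integral_add (hP0.const_mul 2) (hE.1.const_mul 2)]
    refine integral_mono hP1 ((hP0.const_mul 2).add (hE.1.const_mul 2)) fun u => ?_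
    simp only
    have h6 : ‖EM κ lam T ψ {0} (fun _ => 1) 0 L u‖ ≤
        ‖EM κ lam T ψ {0} (fun _ => 1) 0 L u - E0 κ lam T 0 L u‖ + ‖E0 κ lam T 0 L u‖ := by
      have h7 := norm_add_le (EM κ lam T ψ {0} (fun _ => 1) 0 L u - E0 κ lam T 0 L u)
        (E0 κ lam T 0 L u)
      rwa [sub_add_cancel] at h7
    have h8 : ‖EM κ lam T ψ {0} (fun _ => 1) 0 L u‖ ^ 2 ≤
        2 * ‖EM κ lam T ψ {0} (fun _ => 1) 0 L u - E0 κ lam T 0 L u‖ ^ 2 +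
        2 * ‖E0 κ lam T 0 L u‖ ^ 2 := by
      nlinarith [norm_nonneg (EM κ lam T ψ {0} (fun _ => 1) 0 L u),
        norm_nonneg (EM κ lam T ψ {0} (fun _ => 1) 0 L u - E0 κ lam T 0 L u),
        norm_nonneg (E0 κ lam T 0 L u),
        sq_nonneg (‖EM κ lam T ψ {0} (fun _ => 1) 0 L u - E0 κ lam T 0 L u‖ -
          ‖E0 κ lam T 0 L u‖)]
    have h9 := mul_le_mul_of_nonneg_right h8 (Real.exp_pos ((2 * σ₁ - 1) * u)).le
    refine h9.trans (le_of_eq (by ring))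
  linarith [hE.2]

theorem line_triv_pr {κ : InfinitePlace K → ℤ}
    (hκ : ∀ w : InfinitePlace K, w.IsReal → κ w = 0 ∨ κ w = 1) (T : TD K) {σ₁ B : ℝ}
    (hσ : 2 ≤ σ₁) (hB : 0 < B) :
    ∃ C L₀ : ℝ, 0 ≤ C ∧ 1 ≤ L₀ ∧ ∀ (𝔮 : Ideal (𝓞 K)) (_ : 𝔮 ≠ ⊥) (_ : 𝔮 ≠ ⊤) (L : ℝ)
      (_ : L₀ ≤ L) (_ : L = Real.log (Ideal.absNorm 𝔮)) (E : Finset (HDat 𝔮))
      (_ : ∀ t, t ∈ E ↔ t ∈ FamB 𝔮 κ B) (σ : ℝ) (_ : 1 / 2 - 1 / L ≤ σ) (_ : σ ≤ σ₁),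
      ∑ t ∈ E, ∫ τ : ℝ, ‖Xf κ t.lam T t.ψ (σ + τ * I)‖ ^ 2 ≤ C * (E.card * L) := by
  obtain ⟨C₀, L₀, hC₀, hL₀, htriv⟩ := triv_mean hκ T hσ
  obtain ⟨C₁, hC₁, hE0⟩ := E0_sq κ T 0 σ₁
  obtain ⟨C₂, hC₂, hcard⟩ := nprim_card κ hB
  refine ⟨2 * Real.pi * (C₀ * C₂ + (2 * (C₀ * C₂) + 2 * C₁)), max L₀ (Real.log (C₂ + 1)),
    by positivity, hL₀.trans (le_max_left _ _), fun 𝔮 h1 h2 L hL hLq E hEm σ h3 h4 => ?_⟩
  have hL1 : L₀ ≤ L := (le_max_left _ _).trans hL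
  have hL2 : 1 ≤ L := hL₀.trans hL1
  have hsub : ∀ t ∈ E, t ∈ FamK 𝔮 κ := fun t ht => ((hEm t).1 ht).1
  obtain ⟨hA, hB'⟩ := htriv 𝔮 h1 h2 L hL1 hLq E hsub
  have hN : C₂ ≤ Ideal.absNorm 𝔮 := by
    have h5 : Real.log (C₂ + 1) ≤ Real.log (Ideal.absNorm 𝔮) := by
      rw [← hLq]
      exact (le_max_right _ _).trans hL
    have h6 : (0 : ℝ) < Ideal.absNorm 𝔮 := by
      have := Nat.pos_of_ne_zero (fun h => h1 (Ideal.absNorm_eq_zero_iff.1 h))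
      exact_mod_cast this
    have h7 := (Real.log_le_log_iff (by linarith) h6).1 h5
    linarith
  have hcE : nprim 𝔮 ≤ C₂ * (E.card : ℝ) := by
    obtain ⟨-, h8⟩ := hcard 𝔮 hN
    have h9 : FamB 𝔮 κ B = (E : Set (HDat 𝔮)) := by
      ext t
      rw [Finset.mem_coe]
      exact (hEm t).symm
    rw [h9, Set.ncard_coe_finset] at h8
    exact h8
  have hone : ∀ t ∈ E, ∫ τ : ℝ, ‖Xf κ t.lam T t.ψ (σ + τ * I)‖ ^ 2 ≤
      2 * Real.pi * ((∫ u : ℝ, ‖EM κ t.lam T t.ψ {0} (fun _ => 1) 0 L u‖ ^ 2 *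
          Real.exp ((2 * (1 / 2 - 1 / L) - 1) * u)) +
        (2 * (∫ u : ℝ, ‖EM κ t.lam T t.ψ {0} (fun _ => 1) 0 L u - E0 κ t.lam T 0 L u‖ ^ 2 *
          Real.exp ((2 * σ₁ - 1) * u)) + 2 * C₁)) := fun t ht =>
    tb5d_one (tb5d_hd h1 h2 hκ (hsub t ht)) T (by linarith) h3 h4
      (hE0 t.lam L σ₁ hL2 (by linarith) le_rfl)
  have hsum := Finset.sum_le_sum hone
  rw [← Finset.mul_sum, Finset.sum_add_distrib, Finset.sum_add_distrib, ← Finset.mul_sum,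
    Finset.sum_const, nsmul_eq_mul] at hsum
  refine hsum.trans ?_
  rw [mul_assoc (2 * Real.pi)]
  refine mul_le_mul_of_nonneg_left ?_ (by positivity)
  have hEc : (0 : ℝ) ≤ E.card := Nat.cast_nonneg _
  have hEL : (E.card : ℝ) ≤ E.card * L := by nlinarith
  have hx : C₀ * (nprim 𝔮 * L) ≤ C₀ * C₂ * (E.card * L) := by
    have := mul_le_mul_of_nonneg_left (mul_le_mul_of_nonneg_right hcE (by linarith : (0:ℝ) ≤ L)) hC₀
    linarith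
  have hy : C₀ * nprim 𝔮 ≤ C₀ * C₂ * (E.card * L) := by
    have h5 := mul_le_mul_of_nonneg_left hcE hC₀
    have h6 := mul_le_mul_of_nonneg_left hEL (mul_nonneg hC₀ hC₂)
    linarith
  have hz : C₁ * E.card ≤ C₁ * (E.card * L) := mul_le_mul_of_nonneg_left hEL hC₁
  linarith


end Pool.Agent.LVK

namespace Pool.Agent.LVK

theorem line_triv : type_of% @line_triv_pr := @line_triv_pr

end Pool.Agent.LVK
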