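import Pool.Agent.Lib_helper42.LVK.Defs
import Pool.Agent.Lib_helper41.HZF.YB
import Pool.Agent.Lib_helper41.HZF.KG
import Pool.Agent.Lib_helper92.KSA.BRG
import Pool.Agent.Lib_helper92.KSA.LATU
import Pool.Agent.Lib_helper92.KSA.LNZ
import Pool.Agent.Lib_helper39.LVX.K_MA4A

/-!
# LVK part TF, block TF6: the trivial test function and uniform bounds
-/

namespace Pool.Agent.LVK

open NumberField NumberField.InfinitePlace NumberField.Units Complex MeasureTheory Filter Topology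
open Pool.Agent.HZ Pool.Agent.AS Pool.Agent.KS

variable {K : Type} [Field K] [NumberField K]

/-! ### The factors -/

theorem tf6_GR_diff {s : ℂ} (hs : 0 < s.re) : DifferentiableAt ℂ Gammaℝ s := by
  have h1 : DifferentiableAt ℂ (fun s => (Gammaℝ s)⁻¹) s := Complex.differentiable_Gammaℝ_inv s
  have h2 : (Gammaℝ s)⁻¹ ≠ 0 := inv_ne_zero (Complex.Gammaℝ_ne_zero_of_re_pos hs)
  have h3 := h1.inv h2
  refine h3.congr_of_eventuallyEq (Filter.Eventually.of_forall fun z => ?_)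
  simp

theorem tf6_GC_eq : (Gammaℂ : ℂ → ℂ) = fun s => Gammaℝ s * Gammaℝ (s + 1) := by
  funext s
  exact (Complex.Gammaℝ_mul_Gammaℝ_add_one s).symm

theorem tf6_GC_diff {s : ℂ} (hs : 0 < s.re) : DifferentiableAt ℂ Gammaℂ s := by
  rw [tf6_GC_eq]
  have h1 := tf6_GR_diff hs
  have h2 : 0 < (s + 1).re := by simp; linarith
  have h3 : DifferentiableAt ℂ (fun s : ℂ => Gammaℝ (s + 1)) s :=
    DifferentiableAt.comp (f := fun s : ℂ => s + 1) s (tf6_GR_diff h2) (by fun_prop)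
  exact h1.mul h3

omit [NumberField K] in
theorem tf6_re1 (κ : InfinitePlace K → ℤ) (lam : InfinitePlace K → ℝ) {s : ℂ}
    (hs : 0 < s.re) (w : InfinitePlace K) : 0 < (s + |κ w| + lam w * I).re := by
  have h1 : (s + |κ w| + lam w * I).re = s.re + ((|κ w| : ℤ) : ℝ) := by
    simp [Complex.add_re, Complex.mul_re]
  rw [h1]
  have h2 : (0 : ℝ) ≤ ((|κ w| : ℤ) : ℝ) := by exact_mod_cast abs_nonneg (κ w)
  linarith

omit [NumberField K] in
theorem tf6_re2 (κ : InfinitePlace K → ℤ) (lam : InfinitePlace K → ℝ) {s : ℂ}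
    (hs : 0 < s.re) (w : InfinitePlace K) : 0 < (s + |κ w| / 2 + lam w / 2 * I).re := by
  have h1 : (s + |κ w| / 2 + lam w / 2 * I).re = s.re + ((|κ w| : ℤ) : ℝ) / 2 := by
    have h3 : ((|κ w| : ℤ) : ℂ) / 2 = ((((|κ w| : ℤ) : ℝ) / 2 : ℝ) : ℂ) := by
      rw [Complex.ofReal_div, Complex.ofReal_intCast]
      norm_num
    have h4 : (lam w : ℂ) / 2 * I = ((lam w / 2 : ℝ) : ℂ) * I := by push_cast; ring
    rw [h3, h4, Complex.add_re, Complex.add_re, Complex.ofReal_re, Complex.re_ofReal_mul]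
    simp
  rw [h1]
  have h2 : (0 : ℝ) ≤ ((|κ w| : ℤ) : ℝ) := by exact_mod_cast abs_nonneg (κ w)
  linarith

open scoped Classical in
/-- One factor. -/
noncomputable def tf6_f (κ : InfinitePlace K → ℤ) (w : InfinitePlace K)
    (p : (InfinitePlace K → ℝ) × ℂ) : ℂ :=
  if w.IsReal then Gammaℝ (p.2 + |κ w| + p.1 w * I)
    else Gammaℂ (p.2 + |κ w| / 2 + p.1 w / 2 * I)

theorem tf6_gam (κ : InfinitePlace K → ℤ) (p : (InfinitePlace K → ℝ) × ℂ) :
    gam κ p.1 p.2 = ∏ w : InfinitePlace K, tf6_f κ w p := rfl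

theorem tf6_f_cont (κ : InfinitePlace K → ℤ) (w : InfinitePlace K)
    {p : (InfinitePlace K → ℝ) × ℂ} (hp : 0 < p.2.re) : ContinuousAt (tf6_f κ w) p := by
  by_cases hw : w.IsReal
  · have h1 : tf6_f κ w = fun p : (InfinitePlace K → ℝ) × ℂ =>
        Gammaℝ (p.2 + |κ w| + p.1 w * I) := by
      funext p; simp [tf6_f, hw]
    rw [h1]
    exact ContinuousAt.comp (f := fun p : (InfinitePlace K → ℝ) × ℂ => p.2 + |κ w| + p.1 w * I)
      (tf6_GR_diff (tf6_re1 κ p.1 hp w)).continuousAt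
      (Continuous.continuousAt (by fun_prop))
  · have h1 : tf6_f κ w = fun p : (InfinitePlace K → ℝ) × ℂ =>
        Gammaℂ (p.2 + |κ w| / 2 + p.1 w / 2 * I) := by
      funext p; simp [tf6_f, hw]
    rw [h1]
    exact ContinuousAt.comp (f := fun p : (InfinitePlace K → ℝ) × ℂ =>
      p.2 + |κ w| / 2 + p.1 w / 2 * I)
      (tf6_GC_diff (tf6_re2 κ p.1 hp w)).continuousAt
      (Continuous.continuousAt (by fun_prop))

theorem tf6_f_diff (κ : InfinitePlace K → ℤ) (w : InfinitePlace K) (lam : InfinitePlace K → ℝ)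
    {s : ℂ} (hs : 0 < s.re) : DifferentiableAt ℂ (fun s => tf6_f κ w (lam, s)) s := by
  by_cases hw : w.IsReal
  · have h1 : (fun s => tf6_f κ w (lam, s)) = fun s : ℂ =>
        Gammaℝ (s + |κ w| + lam w * I) := by
      funext s; simp [tf6_f, hw]
    rw [h1]
    exact DifferentiableAt.comp (f := fun s : ℂ => s + |κ w| + lam w * I) s
      (tf6_GR_diff (tf6_re1 κ lam hs w)) (by fun_prop)
  · have h1 : (fun s => tf6_f κ w (lam, s)) = fun s : ℂ =>
        Gammaℂ (s + |κ w| / 2 + lam w / 2 * I) := by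
      funext s; simp [tf6_f, hw]
    rw [h1]
    exact DifferentiableAt.comp (f := fun s : ℂ => s + |κ w| / 2 + lam w / 2 * I) s
      (tf6_GC_diff (tf6_re2 κ lam hs w)) (by fun_prop)

theorem tf6_f_ne (κ : InfinitePlace K → ℤ) (w : InfinitePlace K)
    {p : (InfinitePlace K → ℝ) × ℂ} (hp : 0 < p.2.re) : tf6_f κ w p ≠ 0 := by
  by_cases hw : w.IsReal
  · have h1 : tf6_f κ w p = Gammaℝ (p.2 + |κ w| + p.1 w * I) := by simp [tf6_f, hw]
    rw [h1]
    exact Complex.Gammaℝ_ne_zero_of_re_pos (tf6_re1 κ p.1 hp w)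
  · have h1 : tf6_f κ w p = Gammaℂ (p.2 + |κ w| / 2 + p.1 w / 2 * I) := by simp [tf6_f, hw]
    rw [h1, tf6_GC_eq]
    refine mul_ne_zero (Complex.Gammaℝ_ne_zero_of_re_pos (tf6_re2 κ p.1 hp w))
      (Complex.Gammaℝ_ne_zero_of_re_pos ?_)
    have h2 := tf6_re2 κ p.1 hp w
    rw [Complex.add_re, Complex.one_re]
    linarith

theorem gam_diff_pr (κ : InfinitePlace K → ℤ) (lam : InfinitePlace K → ℝ) :
    DifferentiableOn ℂ (gam κ lam) {s | 0 < s.re} := by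
  intro s hs
  have h1 : gam κ lam = fun s => ∏ w : InfinitePlace K, tf6_f κ w (lam, s) := by
    funext s; exact tf6_gam κ (lam, s)
  rw [h1]
  have h2 : DifferentiableAt ℂ (fun s => ∏ w : InfinitePlace K, tf6_f κ w (lam, s)) s :=
    DifferentiableAt.fun_finsetProd fun w _ => tf6_f_diff κ w lam hs
  exact h2.differentiableWithinAt

theorem gam_ne_pr (κ : InfinitePlace K → ℤ) (lam : InfinitePlace K → ℝ) {s : ℂ}
    (hs : 0 < s.re) : gam κ lam s ≠ 0 := by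
  rw [tf6_gam κ (lam, s)]
  exact Finset.prod_ne_zero_iff.2 fun w _ => tf6_f_ne κ w (p := (lam, s)) hs

theorem tf6_PT_diff (lam : InfinitePlace K → ℝ) (T : TD K) : Differentiable ℂ (PT lam T) := by
  unfold PT
  fun_prop

theorem gh_diff_pr (κ : InfinitePlace K → ℤ) (lam : InfinitePlace K → ℝ) (T : TD K) :
    DifferentiableOn ℂ (gh κ lam T) {s | 0 < s.re} := by
  unfold gh
  exact (tf6_PT_diff lam T).differentiableOn.mul ((gam_diff_pr κ lam).const_mul _)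

/-! ### Joint continuity and compactness -/

theorem tf6_gam_cont (κ : InfinitePlace K → ℤ) : ContinuousOn
    (fun p : (InfinitePlace K → ℝ) × ℂ => gam κ p.1 p.2) {p | 0 < p.2.re} := by
  intro p hp
  have h2 : ContinuousAt (fun p => ∏ w : InfinitePlace K, tf6_f κ w p) p :=
    tendsto_finsetProd _ fun w _ => tf6_f_cont κ w hp
  exact h2.continuousWithinAt

theorem tf6_PT_cont (T : TD K) : Continuous
    (fun p : (InfinitePlace K → ℝ) × ℂ => PT p.1 T p.2) := by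
  unfold PT th
  fun_prop

/-- The compact region. -/
def tf6_R (K : Type) [Field K] [NumberField K] (B a b T₀ : ℝ) :
    Set ((InfinitePlace K → ℝ) × ℂ) :=
  (Set.pi Set.univ fun _ => Set.Icc (-B) B) ×ˢ (Set.Icc a b ×ℂ Set.Icc (-T₀) T₀)

theorem tf6_R_compact (B a b T₀ : ℝ) : IsCompact (tf6_R K B a b T₀) :=
  (isCompact_univ_pi fun _ => isCompact_Icc).prod (isCompact_Icc.reProdIm isCompact_Icc)

theorem tf6_mem_R {B a b T₀ : ℝ} {lam : InfinitePlace K → ℝ} {s : ℂ} (h : ∀ w, |lam w| ≤ B)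
    (h1 : a ≤ s.re) (h2 : s.re ≤ b) (h3 : |s.im| ≤ T₀) : (lam, s) ∈ tf6_R K B a b T₀ := by
  refine ⟨fun w _ => abs_le.1 (h w), ⟨?_, ?_⟩⟩
  · exact ⟨h1, h2⟩
  · exact abs_le.1 h3

theorem tf6_R_pos {B a b T₀ : ℝ} (ha : 0 < a) :
    tf6_R K B a b T₀ ⊆ {p | 0 < p.2.re} := by
  intro p hp
  have h1 : a ≤ p.2.re := hp.2.1.1
  show 0 < p.2.re
  linarith

theorem triv_large_pr (κ : InfinitePlace K → ℤ) (B s2 T₀ : ℝ) :
    ∃ c : ℝ, 0 < c ∧ ∀ lam : InfinitePlace K → ℝ, (∀ w, |lam w| ≤ B) → ∀ s : ℂ,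
      1 / 4 ≤ s.re → s.re ≤ 2 * s2 → |s.im| ≤ T₀ → 1 ≤ ‖gh κ lam (TD.triv K c) s‖ := by
  have hC0 : (C0 K : ℂ) ≠ 0 := by exact_mod_cast (C0_pos (K := K)).ne'
  have hc : ContinuousOn (fun p : (InfinitePlace K → ℝ) × ℂ => (C0 K * gam κ p.1 p.2)⁻¹)
      (tf6_R K B (1 / 4) (2 * s2) T₀) := by
    refine ContinuousOn.inv₀ (((tf6_gam_cont κ).mono (tf6_R_pos (by norm_num))).const_mul _) ?_
    intro p hp
    exact mul_ne_zero hC0 (gam_ne_pr κ p.1 (tf6_R_pos (by norm_num) hp))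
  obtain ⟨C, hC⟩ := (tf6_R_compact (K := K) B (1 / 4) (2 * s2) T₀).exists_bound_of_continuousOn hc
  refine ⟨max C 1, lt_max_of_lt_right one_pos, ?_⟩
  intro lam hlam s h1 h2 h3
  have h4 := hC (lam, s) (tf6_mem_R hlam h1 h2 h3)
  have hs : 0 < s.re := by linarith
  have hne : (C0 K : ℂ) * gam κ lam s ≠ 0 := mul_ne_zero hC0 (gam_ne_pr κ lam hs)
  have e1 : gh κ lam (TD.triv K ((max C 1 : ℝ) : ℂ)) s =
      ((max C 1 : ℝ) : ℂ) * (C0 K * gam κ lam s) := by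
    unfold gh PT TD.triv
    simp
  rw [e1, norm_mul, Complex.norm_real, Real.norm_eq_abs, abs_of_pos (lt_max_of_lt_right one_pos)]
  rw [norm_inv] at h4
  have h5 : 0 < ‖(C0 K : ℂ) * gam κ lam s‖ := norm_pos_iff.2 hne
  have h6 : 1 ≤ C * ‖(C0 K : ℂ) * gam κ lam s‖ := by
    rw [inv_le_iff_one_le_mul₀ h5] at h4
    linarith
  exact h6.trans (mul_le_mul_of_nonneg_right (le_max_left _ _) h5.le)

/-- Cauchy's estimate. -/
theorem tf6_cauchy {f : ℂ → ℂ} (hf : DifferentiableOn ℂ f {s | 0 < s.re}) {s : ℂ} {M : ℝ}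
    (hs : 1 / 4 ≤ s.re) (hM : ∀ w : ℂ, ‖w - s‖ ≤ 1 / 8 → ‖f w‖ ≤ M) : ‖deriv f s‖ ≤ M / (1 / 8) := by
  have hsub : Metric.closedBall s (1 / 8) ⊆ {w : ℂ | 0 < w.re} := by
    intro w hw
    rw [Metric.mem_closedBall, dist_eq_norm] at hw
    have h1 : |w.re - s.re| ≤ 1 / 8 := by
      have := Complex.abs_re_le_norm (w - s)
      rw [Complex.sub_re] at this
      exact this.trans hw
    have := (abs_le.1 h1).1
    show 0 < w.re
    linarith
  refine Complex.norm_deriv_le_of_forall_mem_sphere_norm_le (by norm_num) ?_ ?_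
  · exact (hf.mono hsub).diffContOnCl_ball (Set.Subset.refl _)
  · intro w hw
    refine hM w ?_
    rw [mem_sphere_iff_norm] at hw
    exact hw.le

theorem tf6_near {s w : ℂ} {s2 T₀ : ℝ} (h1 : 1 / 4 ≤ s.re) (h2 : s.re ≤ 2 * s2)
    (h3 : |s.im| ≤ T₀) (hw : ‖w - s‖ ≤ 1 / 8) :
    1 / 8 ≤ w.re ∧ w.re ≤ 2 * s2 + 1 ∧ |w.im| ≤ T₀ + 1 := by
  have h4 : |w.re - s.re| ≤ 1 / 8 := by
    have := Complex.abs_re_le_norm (w - s)
    rw [Complex.sub_re] at this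
    exact this.trans hw
  have h5 : |w.im - s.im| ≤ 1 / 8 := by
    have := Complex.abs_im_le_norm (w - s)
    rw [Complex.sub_im] at this
    exact this.trans hw
  have h6 := abs_le.1 h4
  have h7 := abs_sub_abs_le_abs_sub w.im s.im
  exact ⟨by linarith [h6.1], by linarith [h6.2], by linarith⟩

/-- Bounds for a jointly continuous function and its derivative. -/
theorem tf6_unif {F : (InfinitePlace K → ℝ) → ℂ → ℂ}
    (hc : ContinuousOn (fun p : (InfinitePlace K → ℝ) × ℂ => F p.1 p.2) {p | 0 < p.2.re})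
    (hd : ∀ lam, DifferentiableOn ℂ (F lam) {s | 0 < s.re}) (B s2 T₀ : ℝ) :
    ∃ C : ℝ, 0 ≤ C ∧ ∀ lam : InfinitePlace K → ℝ, (∀ w, |lam w| ≤ B) → ∀ s : ℂ,
      1 / 4 ≤ s.re → s.re ≤ 2 * s2 → |s.im| ≤ T₀ → ‖F lam s‖ ≤ C ∧ ‖deriv (F lam) s‖ ≤ C := by
  obtain ⟨C, hC⟩ := (tf6_R_compact (K := K) B (1 / 8) (2 * s2 + 1) (T₀ + 1)).exists_bound_of_continuousOn
    (hc.mono (tf6_R_pos (by norm_num)))
  refine ⟨8 * |C|, by positivity, ?_⟩
  intro lam hlam s h1 h2 h3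
  have h4 : ∀ w : ℂ, ‖w - s‖ ≤ 1 / 8 → ‖F lam w‖ ≤ |C| := by
    intro w hw
    obtain ⟨h5, h6, h7⟩ := tf6_near h1 h2 h3 hw
    exact (hC (lam, w) (tf6_mem_R hlam h5 h6 h7)).trans (le_abs_self C)
  constructor
  · have := h4 s (by simp)
    have h8 := abs_nonneg C
    linarith
  · have := tf6_cauchy (hd lam) h1 h4
    have h8 := abs_nonneg C
    linarith

theorem gh_unif_pr (κ : InfinitePlace K → ℤ) (T : TD K) (B s2 T₀ : ℝ) :
    ∃ C : ℝ, 0 ≤ C ∧ ∀ lam : InfinitePlace K → ℝ, (∀ w, |lam w| ≤ B) → ∀ s : ℂ,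
      1 / 4 ≤ s.re → s.re ≤ 2 * s2 → |s.im| ≤ T₀ →
      ‖gh κ lam T s‖ ≤ C ∧ ‖deriv (gh κ lam T) s‖ ≤ C := by
  refine tf6_unif (F := fun lam => gh κ lam T) ?_ (fun lam => gh_diff_pr κ lam T) B s2 T₀
  exact (tf6_PT_cont T).continuousOn.mul ((tf6_gam_cont κ).const_mul _)

theorem gam_log_pr (κ : InfinitePlace K → ℤ) (B s2 T₀ : ℝ) :
    ∃ C : ℝ, 0 ≤ C ∧ ∀ lam : InfinitePlace K → ℝ, (∀ w, |lam w| ≤ B) → ∀ s : ℂ,
      1 / 4 ≤ s.re → s.re ≤ 2 * s2 → |s.im| ≤ T₀ →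
      ‖logDeriv (gam κ lam) s‖ ≤ C := by
  obtain ⟨C, hC0, hC⟩ := tf6_unif (F := fun lam => gam κ lam) (tf6_gam_cont κ)
    (fun lam => gam_diff_pr κ lam) B s2 T₀
  have hc : ContinuousOn (fun p : (InfinitePlace K → ℝ) × ℂ => (gam κ p.1 p.2)⁻¹)
      (tf6_R K B (1 / 4) (2 * s2) T₀) := by
    refine ContinuousOn.inv₀ ((tf6_gam_cont κ).mono (tf6_R_pos (by norm_num))) ?_
    intro p hp
    exact gam_ne_pr κ p.1 (tf6_R_pos (by norm_num) hp)
  obtain ⟨D, hD⟩ := (tf6_R_compact (K := K) B (1 / 4) (2 * s2) T₀).exists_bound_of_continuousOn hc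
  refine ⟨C * |D|, by positivity, ?_⟩
  intro lam hlam s h1 h2 h3
  have h4 := (hD (lam, s) (tf6_mem_R hlam h1 h2 h3)).trans (le_abs_self D)
  have h5 := (hC lam hlam s h1 h2 h3).2
  rw [logDeriv_apply, div_eq_mul_inv, norm_mul]
  exact mul_le_mul h5 h4 (norm_nonneg _) hC0

end Pool.Agent.LVK

namespace Pool.Agent.LVK

theorem triv_large : type_of% @triv_large_pr := @triv_large_pr
theorem gh_unif : type_of% @gh_unif_pr := @gh_unif_pr
theorem gam_log : type_of% @gam_log_pr := @gam_log_pr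
theorem gam_diff : type_of% @gam_diff_pr := @gam_diff_pr
theorem gam_ne : type_of% @gam_ne_pr := @gam_ne_pr
theorem gh_diff : type_of% @gh_diff_pr := @gh_diff_pr

end Pool.Agent.LVK
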