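import Pool.Agent.Lib_helper42.LVK.DefsT
import Pool.Agent.Lib_helper42.LVK.Defs
import Pool.Agent.Lib_helper41.HZF.YB
import Pool.Agent.Lib_helper41.HZF.KG
import Pool.Agent.Lib_helper92.KSA.BRG
import Pool.Agent.Lib_helper92.KSA.LATU
import Pool.Agent.Lib_helper92.KSA.LNZ
import Pool.Agent.Lib_helper92.LVA.Defs
import Pool.Agent.Lib_helper92.KSA.KPO
import Pool.Agent.Lib_helper92.KSA.ZKA
import Pool.Agent.Lib_helper92.ASA.All
import Pool.Agent.Lib_helper39.LVK.DefsZ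
import Pool.Agent.Lib_helper39.LVX.K_MA4A
import Pool.Agent.Lib_helper39.LVX.K_MA4D
import Pool.Agent.Lib_helper39.LVX.K_TF6

namespace Pool.Agent.LVK

open NumberField NumberField.InfinitePlace NumberField.Units Complex MeasureTheory Filter Topology
open Pool.Agent.HZ Pool.Agent.AS Pool.Agent.KS
open scoped ENNReal

variable {K : Type} [Field K] [NumberField K]

theorem tc3_Lf_diff {𝔮 : Ideal (𝓞 K)} {κ : InfinitePlace K → ℤ} {lam : InfinitePlace K → ℝ}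
    {χ : MulChar (𝓞 K ⧸ 𝔮) ℂ} {ψ : Ideal (𝓞 K) →* ℂ} (h : HD 𝔮 κ lam χ ψ) {s : ℂ}
    (hs : 0 < s.re) : DifferentiableAt ℂ (Lf κ lam ψ) s := by
  have hopen : IsOpen {s : ℂ | 0 < s.re} := isOpen_lt continuous_const Complex.continuous_re
  have hC : (C0 K : ℂ) ≠ 0 := by exact_mod_cast (C0_pos (K := K)).ne'
  have hg : DifferentiableAt ℂ (gam κ lam) s :=
    ((gam_diff κ lam) s hs).differentiableAt (hopen.mem_nhds hs)
  have h1 : DifferentiableAt ℂ (LamD κ lam ψ) s := h.differentiable s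
  unfold Lf
  exact h1.fun_div (hg.const_mul _) (mul_ne_zero hC (gam_ne κ lam hs))

theorem tc3_deriv {𝔮 : Ideal (𝓞 K)} {κ : InfinitePlace K → ℤ} {lam : InfinitePlace K → ℝ}
    {χ : MulChar (𝓞 K ⧸ 𝔮) ℂ} {ψ : Ideal (𝓞 K) →* ℂ} (h : HD 𝔮 κ lam χ ψ) (T : TD K) {s : ℂ}
    (hs : 0 < s.re) : deriv (Xf κ lam T ψ) s =
      deriv (gh κ lam T) s * Lf κ lam ψ s + gh κ lam T s * deriv (Lf κ lam ψ) s := by
  have hopen : IsOpen {s : ℂ | 0 < s.re} := isOpen_lt continuous_const Complex.continuous_re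
  have hg : DifferentiableAt ℂ (gh κ lam T) s :=
    ((gh_diff κ lam T) s hs).differentiableAt (hopen.mem_nhds hs)
  have hev : Xf κ lam T ψ =ᶠ[𝓝 s] fun z => gh κ lam T z * Lf κ lam ψ z := by
    filter_upwards [hopen.mem_nhds hs] with z hz
    exact Xf_eq κ lam T ψ hz
  rw [hev.deriv_eq]
  exact (hg.hasDerivAt.fun_mul (tc3_Lf_diff h hs).hasDerivAt).deriv

/-- at a point with `|ĝ| ≥ 1`, `|ĝ'| ≤ C` -/
theorem VM_le_pr {𝔮 : Ideal (𝓞 K)} {κ : InfinitePlace K → ℤ} {t : HDat 𝔮}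
    (h : HD 𝔮 κ t.lam t.χ t.ψ) (hk : t.κ = κ) (T : TD K) (b θ R lm L : ℝ) (hL : 1 ≤ L) {s : ℂ}
    (hs : 0 < s.re) {C : ℝ} (h1 : 1 ≤ ‖gh κ t.lam T s‖) (h2 : ‖deriv (gh κ t.lam T) s‖ ≤ C) :
    ‖(ldat b θ R L t).L s * (ldat b θ R L t).M s‖ ≤
      ‖Xf κ t.lam T t.ψ s * Mf t.ψ (SM 𝔮 θ L) (aM 𝔮 b θ R L) s‖ ∧
    ‖(ldat b θ R L t).V lm L s * (ldat b θ R L t).M s‖ ≤
      ‖(Xf κ t.lam T t.ψ s + ((lm / L : ℝ) : ℂ) * deriv (Xf κ t.lam T t.ψ) s) *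
        Mf t.ψ (SM 𝔮 θ L) (aM 𝔮 b θ R L) s‖ +
      |lm| * C / L * ‖Xf κ t.lam T t.ψ s * Mf t.ψ (SM 𝔮 θ L) (aM 𝔮 b θ R L) s‖ ∧
    ‖(ldat b θ R L t).V lm L s * (ldat b θ R L t).M s - 1‖ ≤
      ‖(Xf κ t.lam T t.ψ s + ((lm / L : ℝ) : ℂ) * deriv (Xf κ t.lam T t.ψ) s) *
        Mf t.ψ (SM 𝔮 θ L) (aM 𝔮 b θ R L) s -
        (gh κ t.lam T s + ((lm / L : ℝ) : ℂ) * deriv (gh κ t.lam T) s)‖ +
      |lm| * C / L * (1 + ‖Xf κ t.lam T t.ψ s * Mf t.ψ (SM 𝔮 θ L) (aM 𝔮 b θ R L) s‖) ∧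
    ‖(ldat b θ R L t).L s‖ ≤ ‖Xf κ t.lam T t.ψ s‖ := by
  have hX := Xf_eq κ t.lam T t.ψ hs
  have hX' := tc3_deriv h T hs
  have hL' : (ldat b θ R L t).L = Lf κ t.lam t.ψ := by
    rw [← hk]
    rfl
  have hM' : (ldat b θ R L t).M = Mf t.ψ (SM 𝔮 θ L) (aM 𝔮 b θ R L) := rfl
  have hV' : (ldat b θ R L t).V lm L s = Lf κ t.lam t.ψ s +
      ((lm / L : ℝ) : ℂ) * deriv (Lf κ t.lam t.ψ) s := by
    unfold LDat.V
    rw [hL']
  rw [hV', hL', hM', hX', hX]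
  set g := gh κ t.lam T s with hg
  set g' := deriv (gh κ t.lam T) s with hg'
  set l := Lf κ t.lam t.ψ s with hl
  set l' := deriv (Lf κ t.lam t.ψ) s with hl'
  set M := Mf t.ψ (SM 𝔮 θ L) (aM 𝔮 b θ R L) s with hM
  have hL0 : 0 < L := by linarith
  have hlm : ‖((lm / L : ℝ) : ℂ)‖ = |lm| / L := by
    rw [Complex.norm_real, Real.norm_eq_abs, abs_div, abs_of_pos hL0]
  set c : ℂ := ((lm / L : ℝ) : ℂ) with hc
  have key : ∀ z : ℂ, ‖z‖ ≤ ‖g * z‖ := by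
    intro z
    rw [norm_mul]
    exact le_mul_of_one_le_left (norm_nonneg _) h1
  have hC0 : 0 ≤ C := (norm_nonneg _).trans h2
  have hcg : ‖c * g'‖ ≤ |lm| * C / L := by
    rw [norm_mul, hlm]
    calc |lm| / L * ‖g'‖ ≤ |lm| / L * C := mul_le_mul_of_nonneg_left h2 (by positivity)
      _ = _ := by ring
  have hlM : ‖l * M‖ ≤ ‖g * l * M‖ := by
    have := key (l * M)
    rwa [← mul_assoc] at this
  have hcC : 0 ≤ |lm| * C / L := by positivity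
  refine ⟨hlM, ?_, ?_, key l⟩
  · have e : g * ((l + c * l') * M) =
        (g * l + c * (g' * l + g * l')) * M - c * g' * (l * M) := by ring
    calc ‖(l + c * l') * M‖ ≤ ‖g * ((l + c * l') * M)‖ := key _
      _ ≤ ‖(g * l + c * (g' * l + g * l')) * M‖ + ‖c * g' * (l * M)‖ := by
          rw [e]
          exact norm_sub_le _ _
      _ ≤ _ := by
          rw [norm_mul (c * g') (l * M)]
          gcongr
  · have e : g * ((l + c * l') * M - 1) =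
        ((g * l + c * (g' * l + g * l')) * M - (g + c * g')) + c * g' * (1 - l * M) := by ring
    calc ‖(l + c * l') * M - 1‖ ≤ ‖g * ((l + c * l') * M - 1)‖ := key _
      _ ≤ ‖(g * l + c * (g' * l + g * l')) * M - (g + c * g')‖ + ‖c * g' * (1 - l * M)‖ := by
          rw [e]
          exact norm_add_le _ _
      _ ≤ _ := by
          rw [norm_mul (c * g') (1 - l * M)]
          have h3 : ‖1 - l * M‖ ≤ 1 + ‖g * l * M‖ := by
            calc ‖1 - l * M‖ ≤ ‖(1 : ℂ)‖ + ‖l * M‖ := norm_sub_le _ _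
              _ ≤ _ := by
                rw [norm_one]
                gcongr
          gcongr


end Pool.Agent.LVK

namespace Pool.Agent.LVK

theorem VM_le : type_of% @VM_le_pr := @VM_le_pr

end Pool.Agent.LVK
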