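import Pool.Agent.Lib_helper39.LVX.O4

/-!
# LVK part T, blocks TC1 and TC2
-/

namespace Pool.Agent.LVK

open NumberField NumberField.InfinitePlace NumberField.Units Complex MeasureTheory Filter Topology
open Pool.Agent.HZ Pool.Agent.AS Pool.Agent.KS Pool.Agent.NL
open scoped ENNReal

variable {K : Type} [Field K] [NumberField K]

theorem famB_hd_pr {𝔮 : Ideal (𝓞 K)} (h𝔮 : 𝔮 ≠ ⊥) (h𝔮' : 𝔮 ≠ ⊤) {κ : InfinitePlace K → ℤ}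
    (hκ : ∀ w : InfinitePlace K, w.IsReal → κ w = 0 ∨ κ w = 1) {B : ℝ} {t : HDat 𝔮}
    (ht : t ∈ FamB 𝔮 κ B) : HD 𝔮 κ t.lam t.χ t.ψ ∧ t.κ = κ := by
  obtain ⟨⟨h1, h2, h3, h4⟩, -⟩ := ht
  exact ⟨⟨hκ, h4, h𝔮, h𝔮', h2, h1 ▸ h3⟩, h1⟩

theorem rt_spec_pr {𝔮 : Ideal (𝓞 K)} {t : HDat 𝔮} (h : HD 𝔮 t.κ t.lam t.χ t.ψ) :
    ‖rt t‖ = 1 ∧ ∀ s : ℂ, LamD t.κ t.lam t.ψ s = rt t ^ 2 *
      cexp (-((s - 1 / 2) * Real.log (cond 𝔮))) *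
      starRingEnd ℂ (LamD t.κ t.lam t.ψ (1 - starRingEnd ℂ s)) := o_rt h

/-- the number `s2` depends only on `K` -/
theorem right_line_pr (K : Type) [Field K] [NumberField K] : ∃ s2 : ℝ, 2 ≤ s2 ∧
    (∀ ψ : Ideal (𝓞 K) →* ℂ, (∀ 𝔞, ‖ψ 𝔞‖ ≤ 1) → ψ ⊥ = 0 → ∀ s : ℂ, s2 - 1 ≤ s.re →
      ‖(∑' 𝔞 : Ideal (𝓞 K), ψ 𝔞 * (Ideal.absNorm 𝔞 : ℂ) ^ (-s)) - 1‖ ≤ 1 / 16) ∧
    ∀ (𝔮 : Ideal (𝓞 K)) (b θ R L : ℝ), |b| ≤ 1 / 2 → 0 < θ → 0 ≤ R → 0 < L →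
      ∀ ψ : Ideal (𝓞 K) →* ℂ, (∀ 𝔞, ‖ψ 𝔞‖ ≤ 1) → ∀ s : ℂ, s2 - 1 ≤ s.re →
        ‖Mf ψ (SM 𝔮 θ L) (aM 𝔮 b θ R L) s - 1‖ ≤ 1 / 16 := o_right K

theorem tc2_cond {𝔮 : Ideal (𝓞 K)} (h𝔮 : 𝔮 ≠ ⊥) : Real.log (cond 𝔮) =
    Real.log |(discr K : ℝ)| + Real.log (Ideal.absNorm 𝔮) := by
  unfold Pool.Agent.HZ.cond
  apply Real.log_mul
  · have := one_le_discr (K := K)
    linarith
  · have h1 : Ideal.absNorm 𝔮 ≠ 0 := by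
      rw [Ne, Ideal.absNorm_eq_zero_iff]
      exact h𝔮
    exact_mod_cast h1

theorem ldat_ok_pr {κ : InfinitePlace K → ℤ}
    (hκ : ∀ w : InfinitePlace K, w.IsReal → κ w = 0 ∨ κ w = 1) {B : ℝ} (hB : 0 < B)
    {b θ R : ℝ} (hb : |b| ≤ 1 / 2) (hθ : 0 < θ) (hR : 0 ≤ R) {s2 : ℝ} (hs2 : 2 ≤ s2)
    (h1 : ∀ ψ : Ideal (𝓞 K) →* ℂ, (∀ 𝔞, ‖ψ 𝔞‖ ≤ 1) → ψ ⊥ = 0 → ∀ s : ℂ, s2 - 1 ≤ s.re →
      ‖(∑' 𝔞 : Ideal (𝓞 K), ψ 𝔞 * (Ideal.absNorm 𝔞 : ℂ) ^ (-s)) - 1‖ ≤ 1 / 16)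
    (h2 : ∀ (𝔮 : Ideal (𝓞 K)) (b θ R L : ℝ), |b| ≤ 1 / 2 → 0 < θ → 0 ≤ R → 0 < L →
      ∀ ψ : Ideal (𝓞 K) →* ℂ, (∀ 𝔞, ‖ψ 𝔞‖ ≤ 1) → ∀ s : ℂ, s2 - 1 ≤ s.re →
        ‖Mf ψ (SM 𝔮 θ L) (aM 𝔮 b θ R L) s - 1‖ ≤ 1 / 16) (T₀ : ℝ) :
    ∃ C : ℝ, 0 ≤ C ∧ ∀ (𝔮 : Ideal (𝓞 K)) (_ : 𝔮 ≠ ⊥) (_ : 𝔮 ≠ ⊤) (L : ℝ)
      (_ : 0 < L) (_ : L = Real.log (Ideal.absNorm 𝔮)) (t : HDat 𝔮) (_ : t ∈ FamB 𝔮 κ B),
      (ldat b θ R L t).Ok L C s2 T₀ := by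
  classical
  set B' : ℝ := B + ∑ w, |(κ w : ℝ)| with hB'
  obtain ⟨C, hC, hgam⟩ := o_gam (K := K) B' (1 / 4) (2 * s2) T₀ (by norm_num)
  set c : ℝ := abs (Real.log |(discr K : ℝ)|) / 2 with hc
  refine ⟨C + c, by positivity, ?_⟩
  intro 𝔮 h𝔮 h𝔮' L hL hLq t ht
  obtain ⟨hd', hk⟩ := famB_hd_pr h𝔮 h𝔮' hκ ht
  have hd : HD 𝔮 t.κ t.lam t.χ t.ψ := hk.symm ▸ hd'
  have hlam : ∀ w, |t.lam w| ≤ B' := fun w => (ht.2 w).trans (by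
    have : 0 ≤ ∑ w, |(κ w : ℝ)| := Finset.sum_nonneg fun _ _ => abs_nonneg _
    linarith)
  have hkap : ∀ w, |(t.κ w : ℝ)| ≤ B' := fun w => by
    rw [hk]
    have := Finset.single_le_sum (f := fun w => |(κ w : ℝ)|) (fun _ _ => abs_nonneg _)
      (Finset.mem_univ w)
    have h3 : |(κ w : ℝ)| ≤ ∑ w, |(κ w : ℝ)| := this
    linarith
  have hψ1 : ∀ 𝔞, ‖t.ψ 𝔞‖ ≤ 1 := nzk_psi_le hd.hecke
  have hC0 : (C0 K : ℂ) ≠ 0 := by exact_mod_cast (o_C0_spec K).1.ne'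
  have hrt : (rt t)⁻¹ ≠ 0 := inv_ne_zero (o_rt_ne hd)
  have hcfd : Differentiable ℂ (cf t) := by
    rw [o_cf]
    exact ofac_diff _ _
  have hcf0 : ∀ s, cf t s ≠ 0 := by
    intro s
    rw [o_cf]
    exact ofac_ne hrt _ _
  have hgamd := gam_analytic t.κ t.lam
  have hfar : ∀ s : ℂ, s2 - 1 ≤ s.re → 1 < s.re → ‖Lf t.κ t.lam t.ψ s - 1‖ ≤ 1 / 16 := by
    intro s hs h
    rw [o_Lf hd h]
    have h3 := h1 t.ψ hψ1 hd.psi_bot s hs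
    rw [nzk_L_eq hd.psi_bot] at h3
    exact h3
  refine ⟨?_, ?_, ?_, ?_, ?_, ?_, ?_, ?_, ?_⟩
  · exact hcfd.mul (hd.differentiable.const_mul _)
  · intro s
    exact o_xi_sym hd s
  · exact hcfd.differentiableOn.mul hgamd
  · intro s hs
    exact mul_ne_zero (hcf0 s) (nzk_gam_ne _ _ hs)
  · intro s hs
    have hg := nzk_gam_ne t.κ t.lam hs
    show cf t s * ((C0 K : ℂ)⁻¹ * LamD t.κ t.lam t.ψ s) =
      cf t s * gam t.κ t.lam s * (LamD t.κ t.lam t.ψ s / (C0 K * gam t.κ t.lam s))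
    field_simp
  · show Differentiable ℂ (Mf t.ψ (SM 𝔮 θ L) (aM 𝔮 b θ R L))
    unfold Mf
    fun_prop
  · intro s hs1 hs2' hs3
    have hs0 : 0 < s.re := by linarith
    have hopen : IsOpen {s : ℂ | 0 < s.re} := isOpen_lt continuous_const Complex.continuous_re
    have hgd : DifferentiableAt ℂ (gam t.κ t.lam) s :=
      (hgamd s hs0).differentiableAt (hopen.mem_nhds hs0)
    show ‖logDeriv (fun s => cf t s * gam t.κ t.lam s) s - ((L / 2 : ℝ) : ℂ)‖ ≤ C + c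
    rw [logDeriv_mul s (hcf0 s) (nzk_gam_ne _ _ hs0) (hcfd s) hgd]
    rw [o_cf, ofac_logDeriv hrt, tc2_cond h𝔮, ← hLq]
    have e1 : (((Real.log |(discr K : ℝ)| + L) / 2 : ℝ) : ℂ) + logDeriv (gam t.κ t.lam) s -
        ((L / 2 : ℝ) : ℂ) = logDeriv (gam t.κ t.lam) s + ((Real.log |(discr K : ℝ)| / 2 : ℝ) : ℂ) := by
      push_cast
      ring
    rw [e1]
    refine (norm_add_le _ _).trans (add_le_add (hgam t.κ hkap t.lam hlam s hs1 hs2' hs3) ?_)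
    rw [Complex.norm_real, Real.norm_eq_abs, abs_div, abs_two]
  · intro s hs
    have hs1 : 1 ≤ s.re := by linarith
    rcases hs1.lt_or_eq with h | h
    · exact hfar s hs h
    · have hs0 : 0 < s.re := by linarith
      have hopen : IsOpen {s : ℂ | 0 < s.re} := isOpen_lt continuous_const Complex.continuous_re
      have hgd : DifferentiableAt ℂ (gam t.κ t.lam) s :=
        (hgamd s hs0).differentiableAt (hopen.mem_nhds hs0)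
      have hLc : ContinuousAt (Lf t.κ t.lam t.ψ) s := by
        unfold Lf
        exact (hd.differentiable s).continuousAt.div (hgd.continuousAt.const_mul _)
          (mul_ne_zero hC0 (nzk_gam_ne _ _ hs0))
      have hl : Tendsto (fun ε : ℝ => s + (ε : ℂ)) (𝓝[>] 0) (𝓝 s) := by
        have h4 : Tendsto (fun ε : ℝ => s + (ε : ℂ)) (𝓝 0) (𝓝 (s + ((0 : ℝ) : ℂ))) :=
          (continuous_const.add Complex.continuous_ofReal).tendsto 0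
        rw [Complex.ofReal_zero, add_zero] at h4
        exact h4.mono_left nhdsWithin_le_nhds
      have h5 : Tendsto (fun ε : ℝ => ‖Lf t.κ t.lam t.ψ (s + (ε : ℂ)) - 1‖) (𝓝[>] 0)
          (𝓝 ‖Lf t.κ t.lam t.ψ s - 1‖) :=
        ((hLc.tendsto.comp hl).sub_const 1).norm
      refine le_of_tendsto h5 ?_
      filter_upwards [self_mem_nhdsWithin] with ε hε
      have hε' : 0 < ε := hε
      apply hfar
      · rw [Complex.add_re, Complex.ofReal_re]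
        linarith
      · rw [Complex.add_re, Complex.ofReal_re]
        linarith
  · intro s hs
    exact h2 𝔮 b θ R L hb hθ hR hL t.ψ hψ1 s hs

end Pool.Agent.LVK

namespace Pool.Agent.LVK

theorem famB_hd : type_of% @famB_hd_pr := @famB_hd_pr
theorem rt_spec : type_of% @rt_spec_pr := @rt_spec_pr
theorem right_line : type_of% @right_line_pr := @right_line_pr
theorem ldat_ok : type_of% @ldat_ok_pr := @ldat_ok_pr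

end Pool.Agent.LVK
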