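import Pool.Agent.Lib_helper42.LVK.DefsT
import Pool.Agent.Lib_helper42.LVK.Defs
import Pool.Agent.Lib_helper41.HZF.YB
import Pool.Agent.Lib_helper41.HZF.KG
import Pool.Agent.Lib_helper92.KSA.BRG
import Pool.Agent.Lib_helper92.KSA.LATU
import Pool.Agent.Lib_helper92.KSA.LNZ
import Pool.Agent.Lib_helper92.LVA.Defs
import Pool.Agent.Lib_helper92.KSA.KPO
import Pool.Agent.Lib_helper92.KSA.ZKA
import Pool.Agent.Lib_helper92.ASA.All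
import Pool.Agent.Lib_helper39.LVK.DefsZ
import Pool.Agent.Lib_helper39.LVX.K_MH5
import Pool.Agent.Lib_helper39.LVX.K_TB5B
import Pool.Agent.Lib_helper39.LVX.K_TB5C
import Pool.Agent.Lib_helper39.LVX.K_TB5D
import Pool.Agent.Lib_helper39.LVX.K_TC3
import Pool.Agent.Lib_helper39.LVX.K_TF6
import Pool.Agent.Lib_helper39.LVX.TC1

/-!
# LVK block TC4A: the crude mean square conditions of `FamOk`
-/

namespace Pool.Agent.LVK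

open NumberField NumberField.InfinitePlace NumberField.Units Complex MeasureTheory Filter Topology
open Pool.Agent.HZ Pool.Agent.AS Pool.Agent.KS
open scoped ENNReal

variable {K : Type} [Field K] [NumberField K]

/-! ### Real analysis -/

theorem tc4a_int {f g : ℝ → ℝ} {T₀ c : ℝ} (hf : ∀ τ, 0 ≤ f τ) (hg : Integrable g)
    (hg0 : ∀ τ, 0 ≤ g τ) (hc : 0 ≤ c) (h : ∀ τ, |τ| ≤ T₀ → f τ ≤ c + g τ) :
    ∫ τ in (-T₀)..T₀, f τ ≤ 2 * |T₀| * c + ∫ τ, g τ := by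
  have hG : 0 ≤ ∫ τ, g τ := integral_nonneg hg0
  rcases lt_or_ge T₀ 0 with hT | hT
  · have h1 : ∫ τ in (-T₀)..T₀, f τ = -∫ τ in T₀..(-T₀), f τ := intervalIntegral.integral_symm _ _
    have h2 : 0 ≤ ∫ τ in T₀..(-T₀), f τ :=
      intervalIntegral.integral_nonneg_of_forall (by linarith) hf
    rw [h1]
    have : 0 ≤ 2 * |T₀| * c := by positivity
    linarith
  · rw [intervalIntegral.integral_of_le (by linarith), abs_of_nonneg hT]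
    have h1 : ∫ τ in Set.Ioc (-T₀) T₀, f τ ≤ ∫ τ in Set.Ioc (-T₀) T₀, (c + g τ) := by
      apply integral_mono_of_nonneg
      · exact ae_of_all _ hf
      · exact (integrable_const c).add hg.integrableOn
      · filter_upwards [ae_restrict_mem measurableSet_Ioc] with τ hτ
        exact h τ (abs_le.2 ⟨hτ.1.le, hτ.2⟩)
    have h2 : ∫ τ in Set.Ioc (-T₀) T₀, (c + g τ) =
        2 * T₀ * c + ∫ τ in Set.Ioc (-T₀) T₀, g τ := by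
      rw [integral_add (integrable_const c) hg.integrableOn]
      congr 1
      rw [setIntegral_const, Real.volume_real_Ioc_of_le (by linarith), smul_eq_mul]
      ring
    have h3 : ∫ τ in Set.Ioc (-T₀) T₀, g τ ≤ ∫ τ, g τ :=
      setIntegral_le_integral hg (ae_of_all _ hg0)
    linarith

theorem tc4a_sum {ι : Type} (E : Finset ι) {f g : ι → ℝ → ℝ} {T₀ c : ℝ}
    (hf : ∀ t ∈ E, ∀ τ, 0 ≤ f t τ) (hg : ∀ t ∈ E, Integrable (g t))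
    (hg0 : ∀ t ∈ E, ∀ τ, 0 ≤ g t τ) (hc : 0 ≤ c)
    (h : ∀ t ∈ E, ∀ τ, |τ| ≤ T₀ → f t τ ≤ c + g t τ) :
    ∑ t ∈ E, ∫ τ in (-T₀)..T₀, f t τ ≤ E.card * (2 * |T₀| * c) + ∑ t ∈ E, ∫ τ, g t τ := by
  calc ∑ t ∈ E, ∫ τ in (-T₀)..T₀, f t τ ≤ ∑ t ∈ E, (2 * |T₀| * c + ∫ τ, g t τ) :=
        Finset.sum_le_sum fun t ht => tc4a_int (hf t ht) (hg t ht) (hg0 t ht) hc (h t ht)
    _ = E.card * (2 * |T₀| * c) + ∑ t ∈ E, ∫ τ, g t τ := by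
        rw [Finset.sum_add_distrib, Finset.sum_const, nsmul_eq_mul]

theorem tc4a_exp {C δ L : ℝ} (hδ : 0 < δ) (hL : 0 ≤ L) (h : 2 * C / δ ^ 2 ≤ L) :
    C * L ≤ Real.exp (δ * L) := by
  have h1 := Real.quadratic_le_exp_of_nonneg (mul_nonneg hδ.le hL)
  rw [div_le_iff₀ (by positivity)] at h
  have h2 : C * L ≤ (δ * L) ^ 2 / 2 := by
    have : (2 * C) * L ≤ (L * δ ^ 2) * L := mul_le_mul_of_nonneg_right h hL
    nlinarith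
  have h3 : 0 ≤ δ * L := mul_nonneg hδ.le hL
  linarith

theorem tc4a_sq2 {x a b : ℝ} (hx : 0 ≤ x) (h : x ≤ a + b) :
    x ^ 2 ≤ 0 + (2 * a ^ 2 + 2 * b ^ 2) := by
  have : x ^ 2 ≤ (a + b) ^ 2 := pow_le_pow_left₀ hx h 2
  nlinarith [sq_nonneg (a - b)]

theorem tc4a_sq3 {x d r b : ℝ} (hx : 0 ≤ x) (h : x ≤ d + r * (1 + b)) :
    x ^ 2 ≤ 3 * r ^ 2 + (3 * d ^ 2 + 3 * r ^ 2 * b ^ 2) := by
  have : x ^ 2 ≤ (d + r * (1 + b)) ^ 2 := pow_le_pow_left₀ hx h 2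
  nlinarith [sq_nonneg (d - r), sq_nonneg (d - r * b), sq_nonneg (r - r * b)]

/-! ### The transforms -/

theorem tc4a_pt (σ τ : ℝ) : pt σ τ = (σ : ℂ) + τ * I := rfl

theorem tc4a_re (σ τ : ℝ) : ((σ : ℂ) + τ * I).re = σ := by simp

theorem tc4a_im (σ τ : ℝ) : ((σ : ℂ) + τ * I).im = τ := by simp

theorem tc4a_one (ψ : Ideal (𝓞 K) →* ℂ) (s : ℂ) :
    Mf ψ ({0} : Finset (PK K →₀ ℕ)) (fun _ => (1 : ℝ)) s = 1 := by
  have h1 : IK (0 : PK K →₀ ℕ) = 1 := by rw [IK, Finsupp.prod_zero_index]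
  have h2 : lK (0 : PK K →₀ ℕ) = 0 := by
    rw [lK, nm, Finsupp.prod_zero_index, Nat.cast_one, Real.log_one]
  rw [Mf, Finset.sum_singleton, h1, h2, map_one, ofReal_zero, mul_zero, neg_zero,
    Complex.exp_zero, ofReal_one, mul_one, mul_one]

theorem tc4a_Xint {𝔮 : Ideal (𝓞 K)} {κ : InfinitePlace K → ℤ} {lam : InfinitePlace K → ℝ}
    {χ : MulChar (𝓞 K ⧸ 𝔮) ℂ} {ψ : Ideal (𝓞 K) →* ℂ} (h : HD 𝔮 κ lam χ ψ) (T : TD K) (σ : ℝ) :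
    Integrable (fun τ : ℝ => ‖Xf κ lam T ψ (σ + τ * I)‖ ^ 2) := by
  have h1 := (EM_planch h T {0} (fun _ => 1) 0 1 σ).2.1
  refine h1.congr (ae_of_all _ fun τ => ?_)
  simp only [tc4a_one, zero_div, ofReal_zero, zero_mul, add_zero, mul_one]

theorem tc4a_XMint {𝔮 : Ideal (𝓞 K)} {κ : InfinitePlace K → ℤ} {lam : InfinitePlace K → ℝ}
    {χ : MulChar (𝓞 K ⧸ 𝔮) ℂ} {ψ : Ideal (𝓞 K) →* ℂ} (h : HD 𝔮 κ lam χ ψ) (T : TD K)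
    (S : Finset (PK K →₀ ℕ)) (a : (PK K →₀ ℕ) → ℝ) (σ : ℝ) :
    Integrable (fun τ : ℝ => ‖Xf κ lam T ψ (σ + τ * I) * Mf ψ S a (σ + τ * I)‖ ^ 2) := by
  have h1 := (EM_planch h T S a 0 1 σ).2.1
  refine h1.congr (ae_of_all _ fun τ => ?_)
  simp only [zero_div, ofReal_zero, zero_mul, add_zero]

/-- the crude conditions (m1), (m3a), (m3b), (m3c) -/
theorem fam_crude_pr {κ : InfinitePlace K → ℤ}
    (hκ : ∀ w : InfinitePlace K, w.IsReal → κ w = 0 ∨ κ w = 1) {b θ R lm s2 T₀ B : ℝ}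
    (hb : |b| ≤ 1 / 2) (hθ : 0 < θ) (hθ2 : θ < 1 / 2) (hR : 1 ≤ R) (hs2 : 2 ≤ s2) (hB : 0 < B) :
    ∃ C1 : ℝ, 0 ≤ C1 ∧ ∀ δ : ℝ, 0 < δ → ∃ L₀ : ℝ, 1 ≤ L₀ ∧ ∀ (𝔮 : Ideal (𝓞 K)) (_ : 𝔮 ≠ ⊥)
      (_ : 𝔮 ≠ ⊤) (L : ℝ) (_ : L₀ ≤ L) (_ : L = Real.log (Ideal.absNorm 𝔮))
      (E : Finset (HDat 𝔮)) (_ : ∀ t, t ∈ E ↔ t ∈ FamB 𝔮 κ B) (σ : ℝ) (_ : σ ≤ 2 * s2),
      (1 / 2 - 1 / L ≤ σ →
        ∑ t ∈ E, ∫ τ in (-T₀)..T₀, ‖(ldat b θ R L t).L (pt σ τ)‖ ^ 2 ≤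
          E.card * Real.exp (δ * L)) ∧
      (1 / 2 - R / L ≤ σ →
        ∑ t ∈ E, ∫ τ in (-T₀)..T₀, ‖(ldat b θ R L t).L (pt σ τ) *
          (ldat b θ R L t).M (pt σ τ)‖ ^ 2 ≤ E.card * C1 ∧
        ∑ t ∈ E, ∫ τ in (-T₀)..T₀, ‖(ldat b θ R L t).V lm L (pt σ τ) *
          (ldat b θ R L t).M (pt σ τ)‖ ^ 2 ≤ E.card * C1) ∧
      (1 / 2 + δ ≤ σ →
        ∑ t ∈ E, ∫ τ in (-T₀)..T₀, ‖(ldat b θ R L t).V lm L (pt σ τ) *
          (ldat b θ R L t).M (pt σ τ) - 1‖ ^ 2 ≤ E.card * δ) := by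
  obtain ⟨c, hc, hlarge⟩ := triv_large κ B s2 T₀
  set T : TD K := TD.triv K (c : ℂ) with hT
  obtain ⟨C, hC, hunif⟩ := gh_unif κ T B s2 T₀
  have hσ1 : (2 : ℝ) ≤ 2 * s2 := by linarith
  obtain ⟨Cb, Lb, hCb, hLb, hbdd⟩ := line_bdd (lm := lm) hκ T hb hθ hθ2 hR hσ1 hB
  obtain ⟨C0', Lc, hC0', hLc, hbdd0⟩ := line_bdd (lm := 0) hκ T hb hθ hθ2 hR hσ1 hB
  obtain ⟨Ct, Lt, hCt, hLt, htriv⟩ := line_triv hκ T hσ1 hB
  -- the common pointwise facts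
  have hpt : ∀ (𝔮 : Ideal (𝓞 K)) (h𝔮 : 𝔮 ≠ ⊥) (h𝔮' : 𝔮 ≠ ⊤) (L : ℝ) (hL : 1 ≤ L) (t : HDat 𝔮)
      (ht : t ∈ FamB 𝔮 κ B) (σ τ : ℝ) (hσ : 1 / 4 ≤ σ) (hσ2 : σ ≤ 2 * s2) (hτ : |τ| ≤ T₀), _ :=
    fun 𝔮 h𝔮 h𝔮' L hL t ht σ τ hσ hσ2 hτ =>
      VM_le (C := C) (famB_hd h𝔮 h𝔮' hκ ht).1 (famB_hd h𝔮 h𝔮' hκ ht).2 T b θ R lm L hL
        (s := (σ : ℂ) + τ * I) (by rw [tc4a_re]; linarith)
        (hlarge t.lam ht.2 _ (by rw [tc4a_re]; exact hσ) (by rw [tc4a_re]; exact hσ2)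
          (by rw [tc4a_im]; exact hτ))
        (hunif t.lam ht.2 _ (by rw [tc4a_re]; exact hσ) (by rw [tc4a_re]; exact hσ2)
          (by rw [tc4a_im]; exact hτ)).2
  refine ⟨max C0' (2 * Cb + 2 * (|lm| * C) ^ 2 * C0'), le_max_of_le_left hC0', fun δ hδ => ?_⟩
  obtain ⟨Ls, hLs, hsmall⟩ := line_small (lm := lm) (ε := δ / 6) hκ T hb hθ hθ2 hR hσ1 hB hδ
    (by positivity)
  refine ⟨1 + 4 * R + Lb + Lc + Lt + Ls + 2 * Ct / δ ^ 2 +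
    2 * ((|lm| * C) ^ 2 * (6 * |T₀| + 3 * C0')) / δ, ?_, ?_⟩
  · have h1 : 0 ≤ 2 * Ct / δ ^ 2 := by positivity
    have h2 : 0 ≤ 2 * ((|lm| * C) ^ 2 * (6 * |T₀| + 3 * C0')) / δ := by positivity
    linarith
  intro 𝔮 h𝔮 h𝔮' L hL hLdef E hE σ hσ2
  have e1 : 0 ≤ 2 * Ct / δ ^ 2 := by positivity
  have e2 : 0 ≤ 2 * ((|lm| * C) ^ 2 * (6 * |T₀| + 3 * C0')) / δ := by positivity
  have hL1 : 1 ≤ L := by linarith
  have hL0 : 0 < L := by linarith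
  have hL4 : 4 * R ≤ L := by linarith
  have hHD : ∀ t ∈ E, HD 𝔮 κ t.lam t.χ t.ψ := fun t ht => (famB_hd h𝔮 h𝔮' hκ ((hE t).1 ht)).1
  have hR4 : R / L ≤ 1 / 4 := by
    rw [div_le_iff₀ hL0]; linarith
  have h14 : 1 / L ≤ 1 / 4 := by
    rw [div_le_iff₀ hL0]; linarith
  have hcard : (0 : ℝ) ≤ E.card := Nat.cast_nonneg _
  refine ⟨fun hσ => ?_, fun hσ => ⟨?_, ?_⟩, fun hσ => ?_⟩
  · -- (m1)
    have hσ4 : 1 / 4 ≤ σ := by linarith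
    have h1 := tc4a_sum E (T₀ := T₀) (c := 0)
      (f := fun t τ => ‖(ldat b θ R L t).L (pt σ τ)‖ ^ 2)
      (g := fun t τ => ‖Xf κ t.lam T t.ψ (σ + τ * I)‖ ^ 2)
      (fun t _ τ => by positivity) (fun t ht => tc4a_Xint (hHD t ht) T σ)
      (fun t _ τ => by positivity) le_rfl
      (fun t ht τ hτ => by
        have h2 := (hpt 𝔮 h𝔮 h𝔮' L hL1 t ((hE t).1 ht) σ τ hσ4 hσ2 hτ).2.2.2
        rw [zero_add, tc4a_pt]
        exact pow_le_pow_left₀ (norm_nonneg _) h2 2)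
    have h2 := htriv 𝔮 h𝔮 h𝔮' L (by linarith) hLdef E hE σ hσ hσ2
    have h3 : Ct * L ≤ Real.exp (δ * L) := tc4a_exp hδ hL0.le (by linarith)
    calc _ ≤ (E.card : ℝ) * (2 * |T₀| * 0) +
          ∑ t ∈ E, ∫ τ : ℝ, ‖Xf κ t.lam T t.ψ (σ + τ * I)‖ ^ 2 := h1
      _ ≤ (E.card : ℝ) * (2 * |T₀| * 0) + Ct * (E.card * L) := by linarith
      _ = E.card * (Ct * L) := by ring
      _ ≤ E.card * Real.exp (δ * L) := mul_le_mul_of_nonneg_left h3 hcard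
  · -- (m3a)
    have hσ4 : 1 / 4 ≤ σ := by linarith
    have h1 := tc4a_sum E (T₀ := T₀) (c := 0)
      (f := fun t τ => ‖(ldat b θ R L t).L (pt σ τ) * (ldat b θ R L t).M (pt σ τ)‖ ^ 2)
      (g := fun t τ => ‖Xf κ t.lam T t.ψ (σ + τ * I) *
        Mf t.ψ (SM 𝔮 θ L) (aM 𝔮 b θ R L) (σ + τ * I)‖ ^ 2)
      (fun t _ τ => by positivity) (fun t ht => tc4a_XMint (hHD t ht) T _ _ σ)
      (fun t _ τ => by positivity) le_rfl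
      (fun t ht τ hτ => by
        have h2 := (hpt 𝔮 h𝔮 h𝔮' L hL1 t ((hE t).1 ht) σ τ hσ4 hσ2 hτ).1
        rw [zero_add, tc4a_pt]
        exact pow_le_pow_left₀ (norm_nonneg _) h2 2)
    have h2 := hbdd0 𝔮 h𝔮 h𝔮' L (by linarith) hLdef E hE σ hσ hσ2
    simp only [zero_div, ofReal_zero, zero_mul, add_zero] at h2
    calc _ ≤ (E.card : ℝ) * (2 * |T₀| * 0) +
          ∑ t ∈ E, ∫ τ : ℝ, ‖Xf κ t.lam T t.ψ (σ + τ * I) *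
            Mf t.ψ (SM 𝔮 θ L) (aM 𝔮 b θ R L) (σ + τ * I)‖ ^ 2 := h1
      _ ≤ (E.card : ℝ) * (2 * |T₀| * 0) + C0' * E.card := by linarith
      _ = E.card * C0' := by ring
      _ ≤ _ := mul_le_mul_of_nonneg_left (le_max_left _ _) hcard
  · -- (m3b)
    have hσ4 : 1 / 4 ≤ σ := by linarith
    have hr0 : 0 ≤ |lm| * C := by positivity
    have hr : |lm| * C / L ≤ |lm| * C := div_le_self hr0 hL1
    have h1 := tc4a_sum E (T₀ := T₀) (c := 0)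
      (f := fun t τ => ‖(ldat b θ R L t).V lm L (pt σ τ) * (ldat b θ R L t).M (pt σ τ)‖ ^ 2)
      (g := fun t τ => 2 * ‖(Xf κ t.lam T t.ψ (σ + τ * I) + ((lm / L : ℝ) : ℂ) *
          deriv (Xf κ t.lam T t.ψ) (σ + τ * I)) *
            Mf t.ψ (SM 𝔮 θ L) (aM 𝔮 b θ R L) (σ + τ * I)‖ ^ 2 +
        2 * (|lm| * C) ^ 2 * ‖Xf κ t.lam T t.ψ (σ + τ * I) *
          Mf t.ψ (SM 𝔮 θ L) (aM 𝔮 b θ R L) (σ + τ * I)‖ ^ 2)
      (fun t _ τ => by positivity)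
      (fun t ht => ((EM_planch (hHD t ht) T _ _ lm L σ).2.1.const_mul 2).add
        ((tc4a_XMint (hHD t ht) T _ _ σ).const_mul (2 * (|lm| * C) ^ 2)))
      (fun t _ τ => by positivity) le_rfl
      (fun t ht τ hτ => by
        have h2 := (hpt 𝔮 h𝔮 h𝔮' L hL1 t ((hE t).1 ht) σ τ hσ4 hσ2 hτ).2.1
        rw [tc4a_pt]
        have h3 := tc4a_sq2 (norm_nonneg _) (h2.trans (add_le_add_right
          (mul_le_mul_of_nonneg_right hr (norm_nonneg _)) _))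
        rw [mul_pow (|lm| * C), ← mul_assoc] at h3
        exact h3)
    have h2 := hbdd0 𝔮 h𝔮 h𝔮' L (by linarith) hLdef E hE σ hσ hσ2
    simp only [zero_div, ofReal_zero, zero_mul, add_zero] at h2
    have h3 := hbdd 𝔮 h𝔮 h𝔮' L (by linarith) hLdef E hE σ hσ hσ2
    have h4 : ∑ t ∈ E, ∫ τ : ℝ, (2 * ‖(Xf κ t.lam T t.ψ (σ + τ * I) + ((lm / L : ℝ) : ℂ) *
          deriv (Xf κ t.lam T t.ψ) (σ + τ * I)) *
            Mf t.ψ (SM 𝔮 θ L) (aM 𝔮 b θ R L) (σ + τ * I)‖ ^ 2 +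
        2 * (|lm| * C) ^ 2 * ‖Xf κ t.lam T t.ψ (σ + τ * I) *
          Mf t.ψ (SM 𝔮 θ L) (aM 𝔮 b θ R L) (σ + τ * I)‖ ^ 2) =
        2 * (∑ t ∈ E, ∫ τ : ℝ, ‖(Xf κ t.lam T t.ψ (σ + τ * I) + ((lm / L : ℝ) : ℂ) *
          deriv (Xf κ t.lam T t.ψ) (σ + τ * I)) *
            Mf t.ψ (SM 𝔮 θ L) (aM 𝔮 b θ R L) (σ + τ * I)‖ ^ 2) +
        2 * (|lm| * C) ^ 2 * ∑ t ∈ E, ∫ τ : ℝ, ‖Xf κ t.lam T t.ψ (σ + τ * I) *
          Mf t.ψ (SM 𝔮 θ L) (aM 𝔮 b θ R L) (σ + τ * I)‖ ^ 2 := by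
      rw [Finset.mul_sum, Finset.mul_sum, ← Finset.sum_add_distrib]
      refine Finset.sum_congr rfl fun t ht => ?_
      rw [integral_add ((EM_planch (hHD t ht) T _ _ lm L σ).2.1.const_mul 2)
        ((tc4a_XMint (hHD t ht) T _ _ σ).const_mul (2 * (|lm| * C) ^ 2)),
        integral_const_mul, integral_const_mul]
    have h5 : 2 * (|lm| * C) ^ 2 * ∑ t ∈ E, ∫ τ : ℝ, ‖Xf κ t.lam T t.ψ (σ + τ * I) *
          Mf t.ψ (SM 𝔮 θ L) (aM 𝔮 b θ R L) (σ + τ * I)‖ ^ 2 ≤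
        2 * (|lm| * C) ^ 2 * (C0' * E.card) := mul_le_mul_of_nonneg_left h2 (by positivity)
    calc _ ≤ (E.card : ℝ) * (2 * |T₀| * 0) + _ := h1
      _ ≤ (E.card : ℝ) * (2 * |T₀| * 0) +
          (2 * (Cb * E.card) + 2 * (|lm| * C) ^ 2 * (C0' * E.card)) := by
        rw [h4]; linarith
      _ = E.card * (2 * Cb + 2 * (|lm| * C) ^ 2 * C0') := by ring
      _ ≤ _ := mul_le_mul_of_nonneg_left (le_max_right _ _) hcard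
  · -- (m3c)
    have hσ4 : 1 / 4 ≤ σ := by linarith
    have hσa : 1 / 2 - R / L ≤ σ := by
      have : 0 ≤ R / L := by positivity
      linarith
    have hr0 : 0 ≤ |lm| * C := by positivity
    set r : ℝ := |lm| * C / L with hr
    have h1 := tc4a_sum E (T₀ := T₀) (c := 3 * r ^ 2)
      (f := fun t τ => ‖(ldat b θ R L t).V lm L (pt σ τ) *
        (ldat b θ R L t).M (pt σ τ) - 1‖ ^ 2)
      (g := fun t τ => 3 * ‖(Xf κ t.lam T t.ψ (σ + τ * I) + ((lm / L : ℝ) : ℂ) *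
          deriv (Xf κ t.lam T t.ψ) (σ + τ * I)) *
            Mf t.ψ (SM 𝔮 θ L) (aM 𝔮 b θ R L) (σ + τ * I) -
            (gh κ t.lam T (σ + τ * I) + ((lm / L : ℝ) : ℂ) *
              deriv (gh κ t.lam T) (σ + τ * I))‖ ^ 2 +
        3 * r ^ 2 * ‖Xf κ t.lam T t.ψ (σ + τ * I) *
          Mf t.ψ (SM 𝔮 θ L) (aM 𝔮 b θ R L) (σ + τ * I)‖ ^ 2)
      (fun t _ τ => by positivity)
      (fun t ht => ((EM0_planch (hHD t ht) T _ _ lm L hσ4).2.1.const_mul 3).add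
        ((tc4a_XMint (hHD t ht) T _ _ σ).const_mul (3 * r ^ 2)))
      (fun t _ τ => by positivity) (by positivity)
      (fun t ht τ hτ => by
        have h2 := (hpt 𝔮 h𝔮 h𝔮' L hL1 t ((hE t).1 ht) σ τ hσ4 hσ2 hτ).2.2.1
        rw [tc4a_pt]
        exact tc4a_sq3 (norm_nonneg _) h2)
    have h2 := hbdd0 𝔮 h𝔮 h𝔮' L (by linarith) hLdef E hE σ hσa hσ2
    simp only [zero_div, ofReal_zero, zero_mul, add_zero] at h2
    have h3 := hsmall 𝔮 h𝔮 h𝔮' L (by linarith) hLdef E hE σ hσ hσ2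
    have h4 : ∑ t ∈ E, ∫ τ : ℝ, (3 * ‖(Xf κ t.lam T t.ψ (σ + τ * I) + ((lm / L : ℝ) : ℂ) *
          deriv (Xf κ t.lam T t.ψ) (σ + τ * I)) *
            Mf t.ψ (SM 𝔮 θ L) (aM 𝔮 b θ R L) (σ + τ * I) -
            (gh κ t.lam T (σ + τ * I) + ((lm / L : ℝ) : ℂ) *
              deriv (gh κ t.lam T) (σ + τ * I))‖ ^ 2 +
        3 * r ^ 2 * ‖Xf κ t.lam T t.ψ (σ + τ * I) *
          Mf t.ψ (SM 𝔮 θ L) (aM 𝔮 b θ R L) (σ + τ * I)‖ ^ 2) =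
        3 * (∑ t ∈ E, ∫ τ : ℝ, ‖(Xf κ t.lam T t.ψ (σ + τ * I) + ((lm / L : ℝ) : ℂ) *
          deriv (Xf κ t.lam T t.ψ) (σ + τ * I)) *
            Mf t.ψ (SM 𝔮 θ L) (aM 𝔮 b θ R L) (σ + τ * I) -
            (gh κ t.lam T (σ + τ * I) + ((lm / L : ℝ) : ℂ) *
              deriv (gh κ t.lam T) (σ + τ * I))‖ ^ 2) +
        3 * r ^ 2 * ∑ t ∈ E, ∫ τ : ℝ, ‖Xf κ t.lam T t.ψ (σ + τ * I) *
          Mf t.ψ (SM 𝔮 θ L) (aM 𝔮 b θ R L) (σ + τ * I)‖ ^ 2 := by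
      rw [Finset.mul_sum, Finset.mul_sum, ← Finset.sum_add_distrib]
      refine Finset.sum_congr rfl fun t ht => ?_
      rw [integral_add ((EM0_planch (hHD t ht) T _ _ lm L hσ4).2.1.const_mul 3)
        ((tc4a_XMint (hHD t ht) T _ _ σ).const_mul (3 * r ^ 2)),
        integral_const_mul, integral_const_mul]
    have h5 : 3 * r ^ 2 * ∑ t ∈ E, ∫ τ : ℝ, ‖Xf κ t.lam T t.ψ (σ + τ * I) *
          Mf t.ψ (SM 𝔮 θ L) (aM 𝔮 b θ R L) (σ + τ * I)‖ ^ 2 ≤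
        3 * r ^ 2 * (C0' * E.card) := mul_le_mul_of_nonneg_left h2 (by positivity)
    have h6 : r ^ 2 * (6 * |T₀| + 3 * C0') ≤ δ / 2 := by
      have h7 : r ^ 2 ≤ (|lm| * C) ^ 2 / L := by
        rw [hr, div_pow]
        apply div_le_div_of_nonneg_left (by positivity) hL0
        nlinarith
      have h8 : 2 * ((|lm| * C) ^ 2 * (6 * |T₀| + 3 * C0')) / δ ≤ L := by linarith
      rw [div_le_iff₀ hδ] at h8
      calc r ^ 2 * (6 * |T₀| + 3 * C0') ≤ (|lm| * C) ^ 2 / L * (6 * |T₀| + 3 * C0') :=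
            mul_le_mul_of_nonneg_right h7 (by positivity)
        _ = (|lm| * C) ^ 2 * (6 * |T₀| + 3 * C0') / L := by ring
        _ ≤ δ / 2 := by
          rw [div_le_iff₀ hL0]; linarith
    calc _ ≤ (E.card : ℝ) * (2 * |T₀| * (3 * r ^ 2)) + _ := h1
      _ ≤ (E.card : ℝ) * (2 * |T₀| * (3 * r ^ 2)) +
          (3 * (δ / 6 * E.card) + 3 * r ^ 2 * (C0' * E.card)) := by
        rw [h4]; linarith
      _ = E.card * (δ / 2 + r ^ 2 * (6 * |T₀| + 3 * C0')) := by ring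
      _ ≤ E.card * δ := mul_le_mul_of_nonneg_left (by linarith) hcard

end Pool.Agent.LVK

namespace Pool.Agent.LVK

theorem fam_crude : type_of% @fam_crude_pr := @fam_crude_pr

end Pool.Agent.LVK
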