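import Pool.Agent.Lib_helper42.LVK.Defs
import Pool.Agent.Lib_helper41.HZF.YB
import Pool.Agent.Lib_helper41.HZF.KG
import Pool.Agent.Lib_helper92.KSA.BRG
import Pool.Agent.Lib_helper92.KSA.LATU
import Pool.Agent.Lib_helper92.KSA.LNZ

/-!
# LVK block TF1: exponential sums approximating the Fourier transform of a Schwartz function
-/

set_option autoImplicit false

namespace Pool.Agent.LVK

open NumberField NumberField.InfinitePlace NumberField.Units Complex MeasureTheory Filter Topology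
open Pool.Agent.HZ Pool.Agent.AS Pool.Agent.KS

/-- the phase -/
noncomputable def tf1_ph {r : ℕ} (p q : ℝ × (Fin r → ℝ)) : ℝ := p.1 * q.1 + ∑ i, p.2 i * q.2 i

theorem tf1_ph_sub {r : ℕ} (p q q' : ℝ × (Fin r → ℝ)) :
    |tf1_ph p q - tf1_ph p q'| ≤ (r + 1) * ‖p‖ * dist q q' := by
  have h1 : tf1_ph p q - tf1_ph p q' = p.1 * (q.1 - q'.1) + ∑ i, p.2 i * (q.2 i - q'.2 i) := by
    unfold tf1_ph
    have : ∑ i, p.2 i * (q.2 i - q'.2 i) = ∑ i, p.2 i * q.2 i - ∑ i, p.2 i * q'.2 i := by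
      rw [← Finset.sum_sub_distrib]
      exact Finset.sum_congr rfl fun i _ => by ring
    rw [this]
    ring
  have ha : |p.1 * (q.1 - q'.1)| ≤ ‖p‖ * dist q q' := by
    rw [abs_mul]
    have h2 : |p.1| ≤ ‖p‖ := norm_fst_le p
    have h3 : |q.1 - q'.1| ≤ dist q q' := by
      rw [dist_eq_norm]
      exact norm_fst_le (q - q')
    exact mul_le_mul h2 h3 (abs_nonneg _) (norm_nonneg _)
  have hb : ∀ i : Fin r, |p.2 i * (q.2 i - q'.2 i)| ≤ ‖p‖ * dist q q' := by
    intro i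
    rw [abs_mul]
    have h2 : |p.2 i| ≤ ‖p‖ := (norm_le_pi_norm p.2 i).trans (norm_snd_le p)
    have h3 : |q.2 i - q'.2 i| ≤ dist q q' := by
      rw [dist_eq_norm]
      exact (norm_le_pi_norm (q - q').2 i).trans (norm_snd_le (q - q'))
    exact mul_le_mul h2 h3 (abs_nonneg _) (norm_nonneg _)
  rw [h1]
  calc |p.1 * (q.1 - q'.1) + ∑ i, p.2 i * (q.2 i - q'.2 i)|
      ≤ |p.1 * (q.1 - q'.1)| + |∑ i, p.2 i * (q.2 i - q'.2 i)| := abs_add_le _ _
    _ ≤ ‖p‖ * dist q q' + ∑ i : Fin r, ‖p‖ * dist q q' :=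
        add_le_add ha ((Finset.abs_sum_le_sum_abs _ _).trans (Finset.sum_le_sum fun i _ => hb i))
    _ = (r + 1) * ‖p‖ * dist q q' := by
        rw [Finset.sum_const, Finset.card_univ, Fintype.card_fin, nsmul_eq_mul]
        ring

theorem tf1_exp_sub (a b : ℝ) : ‖cexp ((a : ℂ) * I) - cexp ((b : ℂ) * I)‖ ≤ |a - b| := by
  have h1 : cexp ((a : ℂ) * I) - cexp ((b : ℂ) * I) =
      cexp ((b : ℂ) * I) * (cexp (((a - b : ℝ) : ℂ) * I) - 1) := by
    rw [mul_sub, ← Complex.exp_add, mul_one]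
    congr 2
    push_cast
    ring
  rw [h1, norm_mul, Complex.norm_exp_ofReal_mul_I, one_mul]
  have h2 := Real.norm_exp_I_mul_ofReal_sub_one_le (x := a - b)
  rw [Real.norm_eq_abs, mul_comm I] at h2
  exact h2

theorem tf1_exp_sub_two (a b : ℝ) : ‖cexp ((a : ℂ) * I) - cexp ((b : ℂ) * I)‖ ≤ 2 := by
  calc ‖cexp ((a : ℂ) * I) - cexp ((b : ℂ) * I)‖ ≤ ‖cexp ((a : ℂ) * I)‖ + ‖cexp ((b : ℂ) * I)‖ :=
        norm_sub_le _ _
    _ = 2 := by rw [Complex.norm_exp_ofReal_mul_I, Complex.norm_exp_ofReal_mul_I]; norm_num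

/-- discretisation by a simple function -/
theorem tf1_simple {r : ℕ} {Φ : ℝ × (Fin r → ℝ) → ℂ} (hΦ : Integrable Φ)
    (s : SimpleFunc (ℝ × (Fin r → ℝ)) (ℝ × (Fin r → ℝ))) (g : ℝ × (Fin r → ℝ) → ℂ) :
    ∑ y ∈ s.range, (∫ q in s ⁻¹' {y}, Φ q) * g y = ∫ q, Φ q * g (s q) := by
  classical
  have h1 : ∀ q, Φ q * g (s q) =
      ∑ y ∈ s.range, (s ⁻¹' {y}).indicator (fun q => Φ q * g y) q := by
    intro q
    rw [Finset.sum_eq_single (s q)]
    · rw [Set.indicator_of_mem]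
      rfl
    · intro y _ hy
      rw [Set.indicator_of_notMem]
      intro h
      exact hy h.symm
    · intro h
      exact absurd (s.mem_range_self q) h
  rw [integral_congr_ae (Eventually.of_forall h1), integral_finsetSum]
  · refine Finset.sum_congr rfl fun y _ => ?_
    rw [integral_indicator (s.measurableSet_fiber y), integral_mul_const]
  · intro y _
    exact (hΦ.mul_const (g y)).indicator (s.measurableSet_fiber y)

theorem tf1_simple_norm {r : ℕ} {Φ : ℝ × (Fin r → ℝ) → ℂ} (hΦ : Integrable Φ)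
    (s : SimpleFunc (ℝ × (Fin r → ℝ)) (ℝ × (Fin r → ℝ))) :
    ∑ y ∈ s.range, ‖∫ q in s ⁻¹' {y}, Φ q‖ ≤ ∫ q, ‖Φ q‖ := by
  classical
  have h1 : ∀ q, ‖Φ q‖ = ∑ y ∈ s.range, (s ⁻¹' {y}).indicator (fun q => ‖Φ q‖) q := by
    intro q
    rw [Finset.sum_eq_single (s q)]
    · rw [Set.indicator_of_mem]
      rfl
    · intro y _ hy
      rw [Set.indicator_of_notMem]
      intro h
      exact hy h.symm
    · intro h
      exact absurd (s.mem_range_self q) h
  have h2 : ∫ q, ‖Φ q‖ = ∑ y ∈ s.range, ∫ q in s ⁻¹' {y}, ‖Φ q‖ := by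
    rw [integral_congr_ae (Eventually.of_forall h1), integral_finsetSum]
    · refine Finset.sum_congr rfl fun y _ => ?_
      rw [integral_indicator (s.measurableSet_fiber y)]
    · intro y _
      exact hΦ.norm.indicator (s.measurableSet_fiber y)
  rw [h2]
  exact Finset.sum_le_sum fun y _ => norm_integral_le_integral_norm _

/-- the discretisation error tends to zero -/
theorem tf1_lim {r : ℕ} {Φ : ℝ × (Fin r → ℝ) → ℂ} (hΦ : Integrable Φ) {D : ℝ} (hD : 0 ≤ D)
    (s : ℕ → SimpleFunc (ℝ × (Fin r → ℝ)) (ℝ × (Fin r → ℝ)))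
    (hs : ∀ q, Tendsto (fun N => s N q) atTop (𝓝 q)) :
    Tendsto (fun N => ∫ q, ‖Φ q‖ * min 2 (D * dist (s N q) q)) atTop (𝓝 0) := by
  have h0 : (0 : ℝ) = ∫ q : ℝ × (Fin r → ℝ), (0 : ℝ) := by simp
  have hm : ∀ N, AEStronglyMeasurable (fun q => ‖Φ q‖ * min 2 (D * dist (s N q) q)) volume := by
    intro N
    refine hΦ.norm.aestronglyMeasurable.mul ?_
    have h1 : Measurable fun q => min 2 (D * dist (s N q) q) :=
      measurable_const.min (measurable_const.mul ((s N).measurable.dist measurable_id))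
    exact h1.aestronglyMeasurable
  rw [h0]
  refine tendsto_integral_of_dominated_convergence (fun q => ‖Φ q‖ * 2) hm
    (hΦ.norm.mul_const 2) ?_ ?_
  · intro N
    refine Eventually.of_forall fun q => ?_
    have h2 : 0 ≤ min 2 (D * dist (s N q) q) :=
      le_min (by norm_num) (mul_nonneg hD dist_nonneg)
    rw [Real.norm_of_nonneg (mul_nonneg (norm_nonneg _) h2)]
    exact mul_le_mul_of_nonneg_left (min_le_left _ _) (norm_nonneg _)
  · refine Eventually.of_forall fun q => ?_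
    have h3 : Tendsto (fun N => dist (s N q) q) atTop (𝓝 0) := tendsto_iff_dist_tendsto_zero.1 (hs q)
    have h4 : Tendsto (fun N => ‖Φ q‖ * min 2 (D * dist (s N q) q)) atTop
        (𝓝 (‖Φ q‖ * min 2 (D * 0))) :=
      (tendsto_const_nhds.min (h3.const_mul D)).const_mul _
    simpa using h4

/-- Riemann sums: for a Schwartz function `Φ` on `ℝ × ℝ^r` with transform
`Φ^(t,θ) = ∫ Φ(u,x) e^{i t u + i θ·x}` -/
theorem exp_sums_pr {r : ℕ} (Φ : SchwartzMap (ℝ × (Fin r → ℝ)) ℂ) :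
    ∃ B : ℝ, 0 ≤ B ∧ ∀ (S : Set (ℝ × (Fin r → ℝ))), IsCompact S → ∀ ε : ℝ, 0 < ε →
      ∃ (n : ℕ) (c : Fin n → ℂ) (u : Fin n → ℝ) (x : Fin n → (Fin r → ℝ)),
        (∑ j, ‖c j‖ ≤ B) ∧
        ∀ p ∈ S, ‖∑ j, c j * cexp (((∑ i, p.2 i * x j i : ℝ) : ℂ) * I) *
            cexp (((p.1 * u j : ℝ) : ℂ) * I) -
          ∫ q : ℝ × (Fin r → ℝ), Φ q * cexp (((p.1 * q.1 + ∑ i, p.2 i * q.2 i : ℝ) : ℂ) * I)‖ ≤
            ε := by
  classical
  have hH : (volume : Measure (ℝ × (Fin r → ℝ))).IsAddHaarMeasure :=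
    Measure.prod.instIsAddHaarMeasure (volume : Measure ℝ) (volume : Measure (Fin r → ℝ))
  have hΦ : Integrable (fun q => Φ q) := Φ.integrable
  refine ⟨∫ q, ‖Φ q‖, integral_nonneg fun q => norm_nonneg _, fun S hS ε hε => ?_⟩
  obtain ⟨P, hP⟩ := hS.isBounded.exists_norm_le
  obtain ⟨e, he⟩ := TopologicalSpace.exists_dense_seq (ℝ × (Fin r → ℝ))
  have hs : ∀ q, Tendsto (fun N => SimpleFunc.nearestPt e N q) atTop (𝓝 q) := fun q =>
    SimpleFunc.tendsto_nearestPt (he q)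
  have hD : 0 ≤ (r + 1) * |P| := by positivity
  have hl := tf1_lim hΦ hD (fun N => SimpleFunc.nearestPt e N) hs
  obtain ⟨N, hN⟩ := ((tendsto_order.1 hl).2 ε hε).exists
  set s := SimpleFunc.nearestPt e N with hsdef
  let y : Fin s.range.card → ℝ × (Fin r → ℝ) := fun j => (s.range.equivFin.symm j : _)
  refine ⟨s.range.card, fun j => ∫ q in s ⁻¹' {y j}, Φ q, fun j => (y j).1, fun j => (y j).2,
    ?_, fun p hp => ?_⟩
  · refine le_trans (le_of_eq ?_) (tf1_simple_norm hΦ s)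
    rw [← Finset.sum_coe_sort s.range (fun y => ‖∫ q in s ⁻¹' {y}, Φ q‖)]
    exact Equiv.sum_comp s.range.equivFin.symm (fun y : s.range => ‖∫ q in s ⁻¹' {(y : ℝ × (Fin r → ℝ))}, Φ q‖)
  · have h1 : ∑ j, (∫ q in s ⁻¹' {y j}, Φ q) * cexp (((∑ i, p.2 i * (y j).2 i : ℝ) : ℂ) * I) *
        cexp (((p.1 * (y j).1 : ℝ) : ℂ) * I) =
        ∑ z ∈ s.range, (∫ q in s ⁻¹' {z}, Φ q) * cexp ((tf1_ph p z : ℂ) * I) := by
      rw [← Finset.sum_coe_sort s.range
        (fun z => (∫ q in s ⁻¹' {z}, Φ q) * cexp ((tf1_ph p z : ℂ) * I)),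
        ← Equiv.sum_comp s.range.equivFin.symm
          (fun z : s.range => (∫ q in s ⁻¹' {(z : ℝ × (Fin r → ℝ))}, Φ q) *
            cexp ((tf1_ph p z : ℂ) * I))]
      refine Finset.sum_congr rfl fun j _ => ?_
      rw [mul_assoc, ← Complex.exp_add]
      congr 2
      unfold tf1_ph
      push_cast
      ring
    rw [h1, tf1_simple hΦ s (fun z => cexp ((tf1_ph p z : ℂ) * I))]
    have hc : Continuous fun q => cexp ((tf1_ph p q : ℂ) * I) := by
      unfold tf1_ph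
      fun_prop
    have hi1 : Integrable fun q => Φ q * cexp ((tf1_ph p (s q) : ℂ) * I) := by
      refine Integrable.mono hΦ (hΦ.aestronglyMeasurable.mul
        (hc.measurable.comp s.measurable).aestronglyMeasurable) (Eventually.of_forall fun q => ?_)
      rw [norm_mul, Complex.norm_exp_ofReal_mul_I, mul_one]
    have hi2 : Integrable fun q => Φ q * cexp ((tf1_ph p q : ℂ) * I) := by
      refine Integrable.mono hΦ (hΦ.aestronglyMeasurable.mul hc.aestronglyMeasurable)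
        (Eventually.of_forall fun q => ?_)
      rw [norm_mul, Complex.norm_exp_ofReal_mul_I, mul_one]
    have h2 : (∫ q, Φ q * cexp ((tf1_ph p (s q) : ℂ) * I)) -
        ∫ q : ℝ × (Fin r → ℝ), Φ q * cexp (((p.1 * q.1 + ∑ i, p.2 i * q.2 i : ℝ) : ℂ) * I) =
        ∫ q, (Φ q * cexp ((tf1_ph p (s q) : ℂ) * I) - Φ q * cexp ((tf1_ph p q : ℂ) * I)) :=
      (integral_sub hi1 hi2).symm
    rw [h2]
    refine le_trans (norm_integral_le_of_norm_le ?_ (Eventually.of_forall fun q => ?_)) hN.le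
    · refine Integrable.mono' (hΦ.norm.mul_const 2) ?_ (Eventually.of_forall fun q => ?_)
      · refine hΦ.norm.aestronglyMeasurable.mul ?_
        exact (measurable_const.min
          (measurable_const.mul (s.measurable.dist measurable_id))).aestronglyMeasurable
      · have h2 : 0 ≤ min 2 ((r + 1) * |P| * dist (s q) q) :=
          le_min (by norm_num) (mul_nonneg hD dist_nonneg)
        rw [Real.norm_of_nonneg (mul_nonneg (norm_nonneg _) h2)]
        exact mul_le_mul_of_nonneg_left (min_le_left _ _) (norm_nonneg _)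
    · rw [← mul_sub, norm_mul]
      refine mul_le_mul_of_nonneg_left (le_min (tf1_exp_sub_two _ _) ?_) (norm_nonneg _)
      refine (tf1_exp_sub _ _).trans ((tf1_ph_sub p (s q) q).trans ?_)
      have h3 : ‖p‖ ≤ |P| := (hP p hp).trans (le_abs_self P)
      gcongr


end Pool.Agent.LVK

namespace Pool.Agent.LVK

theorem exp_sums : type_of% @exp_sums_pr := @exp_sums_pr

end Pool.Agent.LVK
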