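import Pool.Agent.Lib_helper42.LVK.Defs
import Pool.Agent.Lib_helper41.HZF.YB
import Pool.Agent.Lib_helper41.HZF.KG
import Pool.Agent.Lib_helper92.KSA.BRG
import Pool.Agent.Lib_helper92.KSA.LATU
import Pool.Agent.Lib_helper92.KSA.LNZ

/-!
# LVK block TF0A (helper26): Plancherel on `ℝ × ℝ^r`
-/

namespace Pool.Agent.LVK

open Complex MeasureTheory Filter Topology FourierTransform SchwartzMap
open scoped ContDiff

section tf0a

variable {V : Type} [NormedAddCommGroup V] [InnerProductSpace ℝ V] [FiniteDimensional ℝ V]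
  [MeasurableSpace V] [BorelSpace V]

/-- the Fourier integral of an `L¹ ∩ L²` function is a.e. its `L²` Fourier transform -/
theorem tf0a_ae (f : V → ℂ) (h1 : Integrable f) (h2 : MemLp f 2) :
    (𝓕 (h2.toLp f) : Lp ℂ 2 (volume : Measure V)) =ᵐ[volume] 𝓕 f := by
  have hcont : Continuous (𝓕 f) :=
    (VectorFourier.fourierIntegral_continuous Real.continuous_fourierChar
      (by exact (innerSL ℝ (E := V)).continuous₂) h1)
  apply ae_eq_of_integral_contDiff_smul_eq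
  · exact (Lp.memLp _).locallyIntegrable (by norm_num)
  · exact hcont.locallyIntegrable
  · intro g g_smooth g_cpt
    have hg₁ : HasCompactSupport (Complex.ofRealCLM ∘ g) := g_cpt.comp_left rfl
    have hg₂ : ContDiff ℝ ∞ (Complex.ofRealCLM ∘ g) := by fun_prop
    have key := congrArg (fun T : 𝓢'(V, ℂ) => T (hg₁.toSchwartzMap hg₂))
      (Lp.fourier_toTemperedDistribution_eq (h2.toLp f))
    simp only [TemperedDistribution.fourier_apply, Lp.toTemperedDistribution_apply] at key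
    have e1 : ∫ x, (𝓕 (hg₁.toSchwartzMap hg₂)) x • (h2.toLp f) x
        = ∫ x, (𝓕 (hg₁.toSchwartzMap hg₂)) x • f x := by
      apply integral_congr_ae
      filter_upwards [h2.coeFn_toLp] with x hx
      rw [hx]
    rw [e1] at key
    have e2 : ∫ x, (𝓕 (hg₁.toSchwartzMap hg₂)) x • f x
        = ∫ x, (hg₁.toSchwartzMap hg₂) x • 𝓕 f x := by
      have := VectorFourier.integral_fourierIntegral_smul_eq_flip (μ := (volume : Measure V))
        (ν := (volume : Measure V)) (L := innerₗ V) (e := Real.fourierChar)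
        (f := fun x => (hg₁.toSchwartzMap hg₂) x) (g := f)
        Real.continuous_fourierChar (by exact (innerSL ℝ (E := V)).continuous₂)
        (hg₁.toSchwartzMap hg₂).integrable h1
      rw [flip_innerₗ] at this
      exact this
    rw [e2] at key
    simpa using key.symm

theorem tf0a_planch (f : V → ℂ) (h1 : Integrable f) (h2 : Integrable fun x => ‖f x‖ ^ 2) :
    (Integrable fun x => ‖𝓕 f x‖ ^ 2) ∧ ∫ x, ‖𝓕 f x‖ ^ 2 = ∫ x, ‖f x‖ ^ 2 := by
  have hm : MemLp f 2 := by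
    rw [← integrable_norm_rpow_iff h1.aestronglyMeasurable (by norm_num) (by norm_num)]
    simpa using h2
  have h := tf0a_ae f h1 hm
  have hn := Lp.norm_fourier_eq (hm.toLp f)
  have hF : MemLp (𝓕 f) 2 := (memLp_congr_ae h).1 (Lp.memLp _)
  have hE : eLpNorm (𝓕 f) 2 volume = eLpNorm f 2 volume := by
    rw [Lp.norm_def, Lp.norm_def] at hn
    have e2 := (ENNReal.toReal_eq_toReal_iff' (Lp.eLpNorm_ne_top _) (Lp.eLpNorm_ne_top _)).1 hn
    rw [← eLpNorm_congr_ae h, e2]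
    exact eLpNorm_congr_ae hm.coeFn_toLp
  have hI : ∀ g : V → ℂ, MemLp g 2 → ∫ x, ‖g x‖ ^ 2 = (eLpNorm g 2 volume).toReal ^ 2 := by
    intro g hg
    have e := hg.eLpNorm_eq_integral_rpow_norm (by norm_num) (by norm_num)
    have h0 : 0 ≤ ∫ x, ‖g x‖ ^ 2 := integral_nonneg fun x => by positivity
    rw [e, ENNReal.toReal_ofReal (by positivity), ENNReal.toReal_ofNat]
    have e3 : ∫ x, ‖g x‖ ^ (2 : ℝ) = ∫ x, ‖g x‖ ^ 2 := by
      refine integral_congr_ae (Filter.Eventually.of_forall fun x => ?_)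
      simp
    rw [e3, ← Real.rpow_natCast, ← Real.rpow_mul h0]
    norm_num
  refine ⟨by simpa using hF.integrable_norm_rpow (by norm_num) (by norm_num), ?_⟩
  rw [hI _ hF, hI _ hm, hE]

end tf0a

/-- the coordinates on the Euclidean space -/
theorem tf0a_equiv (r : ℕ) : ∃ T : EuclideanSpace ℝ (Fin (r + 1)) ≃ᵐ ℝ × (Fin r → ℝ),
    MeasurePreserving T volume volume ∧ Continuous T ∧ Continuous T.symm ∧
    (∀ v, (T v).1 = v 0 ∧ ∀ i, (T v).2 i = v i.succ) ∧
    ∀ (c : ℝ) (v : EuclideanSpace ℝ (Fin (r + 1))), T (c • v) = c • T v := by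
  let T : EuclideanSpace ℝ (Fin (r + 1)) ≃ᵐ ℝ × (Fin r → ℝ) :=
    (MeasurableEquiv.toLp 2 (Fin (r + 1) → ℝ)).symm.trans
      (MeasurableEquiv.piFinSuccAbove (fun _ => ℝ) 0)
  have hT : ∀ v, (T v).1 = v 0 ∧ ∀ i, (T v).2 i = v i.succ := by
    intro v
    exact ⟨rfl, fun i => rfl⟩
  refine ⟨T, ?_, ?_, ?_, hT, ?_⟩
  · exact (PiLp.volume_preserving_ofLp (Fin (r + 1))).trans
      (volume_preserving_piFinSuccAbove (fun _ => ℝ) 0)
  · have h : (T : EuclideanSpace ℝ (Fin (r + 1)) → ℝ × (Fin r → ℝ)) =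
        fun v => (v 0, fun i => v i.succ) := by
      funext v
      exact Prod.ext (hT v).1 (funext fun i => (hT v).2 i)
    rw [h]
    fun_prop
  · have h : (T.symm : ℝ × (Fin r → ℝ) → EuclideanSpace ℝ (Fin (r + 1))) =
        fun p => WithLp.toLp 2 (Fin.cons p.1 p.2 : Fin (r + 1) → ℝ) := by
      funext p
      rw [MeasurableEquiv.symm_apply_eq]
      refine Prod.ext ?_ ?_
      · rw [(hT _).1]; simp
      · funext i; rw [(hT _).2 i]; simp
    rw [h]
    refine (PiLp.continuous_toLp 2 _).comp (continuous_pi fun i => ?_)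
    refine Fin.cases ?_ (fun j => ?_) i
    · simpa using continuous_fst
    · simp only [Fin.cons_succ]
      fun_prop
  · intro c v
    refine Prod.ext ?_ ?_
    · rw [(hT _).1, Prod.smul_fst, (hT _).1]; rfl
    · funext i; rw [(hT _).2 i, Prod.smul_snd, Pi.smul_apply, (hT _).2 i]; rfl

/-- Plancherel -/
theorem ft_planch_pr {r : ℕ} {f : ℝ × (Fin r → ℝ) → ℂ} (hf : Continuous f) (h1 : Integrable f)
    (h2 : Integrable fun q => ‖f q‖ ^ 2) :
    Integrable (fun p : ℝ × (Fin r → ℝ) => ‖∫ q : ℝ × (Fin r → ℝ), f q *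
      cexp (((p.1 * q.1 + ∑ i, p.2 i * q.2 i : ℝ) : ℂ) * I)‖ ^ 2) ∧
    ∫ p : ℝ × (Fin r → ℝ), ‖∫ q : ℝ × (Fin r → ℝ), f q *
      cexp (((p.1 * q.1 + ∑ i, p.2 i * q.2 i : ℝ) : ℂ) * I)‖ ^ 2 =
      (2 * Real.pi) ^ (r + 1) * ∫ q : ℝ × (Fin r → ℝ), ‖f q‖ ^ 2 := by
  obtain ⟨T, hT, hTc, hTs, hTv, hTm⟩ := tf0a_equiv r
  have hπ : (2 * Real.pi : ℝ) ≠ 0 := by positivity
  set F : EuclideanSpace ℝ (Fin (r + 1)) → ℂ := fun v => f (T v) with hF
  have hF1 : Integrable F := (hT.integrable_comp_emb T.measurableEmbedding).2 h1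
  have hF2 : Integrable fun v => ‖F v‖ ^ 2 :=
    (hT.integrable_comp_emb T.measurableEmbedding (g := fun q => ‖f q‖ ^ 2)).2 h2
  obtain ⟨hI, hE⟩ := tf0a_planch F hF1 hF2
  -- the transform
  have key : ∀ v, ∫ q : ℝ × (Fin r → ℝ), f q *
      cexp ((((T v).1 * q.1 + ∑ i, (T v).2 i * q.2 i : ℝ) : ℂ) * I) =
      𝓕 F ((-(2 * Real.pi)⁻¹ : ℝ) • v) := by
    intro v
    rw [← hT.integral_comp T.measurableEmbedding, Real.fourier_eq]
    refine integral_congr_ae (Filter.Eventually.of_forall fun w => ?_)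
    have e1 : (T v).1 * (T w).1 + ∑ i, (T v).2 i * (T w).2 i = inner ℝ w v := by
      rw [PiLp.inner_apply, Fin.sum_univ_succ, (hTv v).1, (hTv w).1]
      congr 1
      refine Finset.sum_congr rfl fun i _ => ?_
      rw [(hTv v).2 i, (hTv w).2 i]
      rfl
    simp only [e1, inner_smul_right, Circle.smul_def, smul_eq_mul, Real.fourierChar_apply]
    rw [mul_comm]
    congr 2
    push_cast
    have : (Real.pi : ℂ) ≠ 0 := by exact_mod_cast Real.pi_ne_zero
    field_simp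
  have hs : (-(2 * Real.pi)⁻¹ : ℝ) ≠ 0 := by
    rw [neg_ne_zero]; exact inv_ne_zero hπ
  have e1 : (fun p : ℝ × (Fin r → ℝ) => ‖∫ q : ℝ × (Fin r → ℝ), f q *
      cexp (((p.1 * q.1 + ∑ i, p.2 i * q.2 i : ℝ) : ℂ) * I)‖ ^ 2) ∘ T =
      fun v => ‖𝓕 F ((-(2 * Real.pi)⁻¹ : ℝ) • v)‖ ^ 2 := by
    funext v
    simp only [Function.comp_apply]
    rw [key v]
  constructor
  · rw [← hT.integrable_comp_emb T.measurableEmbedding, e1]
    exact hI.comp_smul hs
  · rw [← hT.integral_comp T.measurableEmbedding]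
    have e2 : ∀ v, (‖∫ q : ℝ × (Fin r → ℝ), f q *
      cexp ((((T v).1 * q.1 + ∑ i, (T v).2 i * q.2 i : ℝ) : ℂ) * I)‖ ^ 2 : ℝ) =
      ‖𝓕 F ((-(2 * Real.pi)⁻¹ : ℝ) • v)‖ ^ 2 := fun v => by rw [key v]
    rw [integral_congr_ae (Filter.Eventually.of_forall e2)]
    have e3 := Measure.integral_comp_smul (volume : Measure (EuclideanSpace ℝ (Fin (r + 1))))
      (fun v => ‖𝓕 F v‖ ^ 2) (-(2 * Real.pi)⁻¹ : ℝ)
    rw [e3, hE, finrank_euclideanSpace_fin, smul_eq_mul]
    congr 1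
    · rw [← inv_pow, inv_neg, inv_inv, abs_pow, abs_neg, abs_of_pos (by positivity)]
    · rw [← hT.integral_comp T.measurableEmbedding]

end Pool.Agent.LVK

namespace Pool.Agent.LVK

theorem ft_planch : type_of% @ft_planch_pr := @ft_planch_pr

end Pool.Agent.LVK
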