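import Pool.Agent.Lib_helper42.LVK.Defs
import Pool.Agent.Lib_helper41.HZF.YB
import Pool.Agent.Lib_helper41.HZF.KG
import Pool.Agent.Lib_helper92.KSA.BRG
import Pool.Agent.Lib_helper92.KSA.LATU
import Pool.Agent.Lib_helper92.KSA.LNZ
import Pool.Agent.Lib_helper39.LVX.K_MA4A
import Pool.Agent.Lib_helper39.LVX.K_TF0A

/-!
# LVK part TF, block TF3: the two-variable transform and Plancherel
-/

namespace Pool.Agent.LVK

open NumberField NumberField.InfinitePlace NumberField.Units Complex MeasureTheory Filter Topology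
open Pool.Agent.HZ Pool.Agent.AS Pool.Agent.KS

variable {K : Type} [Field K] [NumberField K]

/-- the two-variable density -/
noncomputable def tf3_f (κ : InfinitePlace K → ℤ) (T : TD K) (p : ℝ × (Fin (rank K) → ℝ)) : ℂ :=
  (Real.exp (p.1 / 2) : ℂ) * fT κ T (Yv K p.1 p.2)

theorem tf3_cont (κ : InfinitePlace K → ℤ) (T : TD K) : Continuous (tf3_f κ T) := by
  obtain ⟨C, c, h⟩ := fT_good_pr κ T
  unfold tf3_f
  refine Continuous.mul ?_ ?_
  · exact Complex.continuous_ofReal.comp (by fun_prop)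
  · rw [← continuousOn_univ]
    exact h.2.2.1.comp kgb_cont_joint.continuousOn (fun p _ w => Yv_pos p.1 p.2 w)

theorem tf3_int_abs {a : ℝ} (ha : 0 < a) : Integrable (fun u : ℝ => Real.exp (-(a * |u|))) := by
  have h := exp_abs_integrable.comp_mul_left' ha.ne'
  refine h.congr (ae_of_all _ fun u => ?_)
  show Real.exp (-(1 * |a * u|)) = Real.exp (-(a * |u|))
  rw [one_mul, abs_mul, abs_of_pos ha]

/-- the bound -/
theorem tf3_bound (κ : InfinitePlace K → ℤ) (T : TD K) : ∃ C a : ℝ, 0 ≤ C ∧ 0 < a ∧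
    ∀ p : ℝ × (Fin (rank K) → ℝ), ‖tf3_f κ T p‖ ≤
      C * (Real.exp (-(1 / 4 * |p.1|)) * Real.exp (-a * ‖p.2‖)) := by
  obtain ⟨C, c, hC, hc, -, hb⟩ := fT_good_pr κ T
  obtain ⟨c', hc', h⟩ := kgb_main (K := K)
  have hn : (0 : ℝ) < Module.finrank ℚ K := by exact_mod_cast Module.finrank_pos
  set n : ℝ := ((Module.finrank ℚ K : ℕ) : ℝ) with hnn
  have hM1 : 0 < n := hn
  have hM2 : 0 < n / 8 := by positivity
  set D1 : ℝ := (n / c) ^ n with hD1
  set D2 : ℝ := (n / 8 / c) ^ (n / 8) with hD2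
  have hD10 : 0 ≤ D1 := by positivity
  have hD20 : 0 ≤ D2 := by positivity
  refine ⟨C * (D1 + D2), n / 8 * c', by positivity, by positivity, fun p => ?_⟩
  have hY := hb (Yv K p.1 p.2) (fun w => Yv_pos p.1 p.2 w)
  have h1 := h c hc n hM1 p.1 p.2
  have h2 := h c hc (n / 8) hM2 p.1 p.2
  have hx : 0 ≤ ‖p.2‖ := norm_nonneg _
  have e1 : Real.exp (-(n * (2 * p.1 / n))) = Real.exp (-(2 * p.1)) := by
    congr 2
    field_simp
  have e2 : Real.exp (-(n / 8 * (2 * p.1 / n))) = Real.exp (-(p.1 / 4)) := by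
    congr 2
    field_simp
    ring
  rw [e1] at h1
  rw [e2] at h2
  have key : Real.exp (p.1 / 2) * Real.exp (-c * qn (Yv K p.1 p.2)) ≤
      (D1 + D2) * (Real.exp (-(1 / 4 * |p.1|)) * Real.exp (-(n / 8 * c') * ‖p.2‖)) := by
    rcases le_total 0 p.1 with hu | hu
    · have hE : Real.exp (p.1 / 2) * Real.exp (-c * qn (Yv K p.1 p.2)) ≤
          Real.exp (p.1 / 2) * ((D1 * Real.exp (-(2 * p.1))) * Real.exp (-(n * c') * ‖p.2‖)) :=
        mul_le_mul_of_nonneg_left h1 (Real.exp_pos _).le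
      refine hE.trans ?_
      have e3 : Real.exp (p.1 / 2) * ((D1 * Real.exp (-(2 * p.1))) * Real.exp (-(n * c') * ‖p.2‖)) =
          D1 * (Real.exp (p.1 / 2 + -(2 * p.1)) * Real.exp (-(n * c') * ‖p.2‖)) := by
        rw [Real.exp_add]
        ring
      rw [e3, abs_of_nonneg hu]
      refine mul_le_mul (by linarith) ?_ (by positivity) (by positivity)
      refine mul_le_mul (Real.exp_le_exp.2 (by linarith)) (Real.exp_le_exp.2 ?_)
        (Real.exp_pos _).le (Real.exp_pos _).le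
      have : n / 8 * c' * ‖p.2‖ ≤ n * c' * ‖p.2‖ := by
        refine mul_le_mul_of_nonneg_right ?_ hx
        refine mul_le_mul_of_nonneg_right ?_ hc'.le
        linarith
      linarith
    · have hE : Real.exp (p.1 / 2) * Real.exp (-c * qn (Yv K p.1 p.2)) ≤
          Real.exp (p.1 / 2) * ((D2 * Real.exp (-(p.1 / 4))) *
            Real.exp (-(n / 8 * c') * ‖p.2‖)) :=
        mul_le_mul_of_nonneg_left h2 (Real.exp_pos _).le
      refine hE.trans ?_
      have e3 : Real.exp (p.1 / 2) * ((D2 * Real.exp (-(p.1 / 4))) *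
          Real.exp (-(n / 8 * c') * ‖p.2‖)) =
          D2 * (Real.exp (p.1 / 2 + -(p.1 / 4)) * Real.exp (-(n / 8 * c') * ‖p.2‖)) := by
        rw [Real.exp_add]
        ring
      rw [e3, abs_of_nonpos hu]
      refine mul_le_mul (by linarith) ?_ (by positivity) (by positivity)
      refine mul_le_mul (Real.exp_le_exp.2 (by linarith)) le_rfl
        (Real.exp_pos _).le (Real.exp_pos _).le
  unfold tf3_f
  rw [norm_mul, Complex.norm_real, Real.norm_of_nonneg (Real.exp_pos _).le]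
  calc Real.exp (p.1 / 2) * ‖fT κ T (Yv K p.1 p.2)‖
      ≤ Real.exp (p.1 / 2) * (C * Real.exp (-c * qn (Yv K p.1 p.2))) := by gcongr
    _ = C * (Real.exp (p.1 / 2) * Real.exp (-c * qn (Yv K p.1 p.2))) := by ring
    _ ≤ C * ((D1 + D2) * (Real.exp (-(1 / 4 * |p.1|)) * Real.exp (-(n / 8 * c') * ‖p.2‖))) :=
        mul_le_mul_of_nonneg_left key hC
    _ = _ := by ring

theorem tf3_dom {a : ℝ} (ha : 0 < a) : Integrable (fun p : ℝ × (Fin (rank K) → ℝ) =>
    Real.exp (-(1 / 4 * |p.1|)) * Real.exp (-a * ‖p.2‖)) :=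
  (tf3_int_abs (by norm_num : (0:ℝ) < 1 / 4)).mul_prod (kgb_integrable_exp ha)

theorem tf3_integrable (κ : InfinitePlace K → ℤ) (T : TD K) : Integrable (tf3_f κ T) := by
  obtain ⟨C, a, -, ha, h⟩ := tf3_bound κ T
  exact ((tf3_dom ha).const_mul C).mono' (tf3_cont κ T).aestronglyMeasurable (ae_of_all _ h)

theorem tf3_sq (κ : InfinitePlace K → ℤ) (T : TD K) : Integrable (fun p => ‖tf3_f κ T p‖ ^ 2) := by
  obtain ⟨C, a, hC, ha, h⟩ := tf3_bound κ T
  refine ((tf3_integrable κ T).norm.const_mul C).mono'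
    ((tf3_cont κ T).norm.pow 2).aestronglyMeasurable (ae_of_all _ fun p => ?_)
  rw [norm_pow, norm_norm, sq]
  refine mul_le_mul_of_nonneg_right ((h p).trans ?_) (norm_nonneg _)
  have h1 : Real.exp (-(1 / 4 * |p.1|)) ≤ 1 := Real.exp_le_one_iff.2 (by
    have := abs_nonneg p.1
    linarith)
  have h2 : Real.exp (-a * ‖p.2‖) ≤ 1 := Real.exp_le_one_iff.2 (by
    have := mul_nonneg ha.le (norm_nonneg p.2)
    linarith)
  exact mul_le_of_le_one_right hC (mul_le_one₀ h1 (Real.exp_pos _).le h2)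

/-- `∫∫ e^{u/2} f_T(Y(u,x)) e^{i t u + i θ·x} = P_T C₀ γ(1/2 + it)` -/
theorem fT_transform_pr (κ : InfinitePlace K → ℤ) (T : TD K) {lam : InfinitePlace K → ℝ}
    (hlam : ∑ w, lam w = 0) (t : ℝ) :
    Integrable (fun p : ℝ × (Fin (rank K) → ℝ) =>
      (Real.exp (p.1 / 2) : ℂ) * fT κ T (Yv K p.1 p.2)) ∧
    ∫ p : ℝ × (Fin (rank K) → ℝ), (Real.exp (p.1 / 2) : ℂ) * fT κ T (Yv K p.1 p.2) *
        cexp (((t * p.1 + ∑ i, th lam i * p.2 i : ℝ) : ℂ) * I) =
      gh κ lam T (1 / 2 + t * I) := by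
  refine ⟨tf3_integrable κ T, ?_⟩
  have hs : 0 < (1 / 2 + (t : ℂ) * I).re := by simp
  have hint : Integrable (fun p : ℝ × (Fin (rank K) → ℝ) =>
      (Real.exp (p.1 / 2) : ℂ) * fT κ T (Yv K p.1 p.2) *
        cexp (((t * p.1 + ∑ i, th lam i * p.2 i : ℝ) : ℂ) * I)) := by
    refine (tf3_integrable κ T).norm.mono' ?_ (ae_of_all _ fun p => ?_)
    · refine ((tf3_cont κ T).mul ?_).aestronglyMeasurable
      fun_prop
    · rw [norm_mul, Complex.norm_exp_ofReal_mul_I, mul_one]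
      exact le_rfl
  rw [Measure.volume_eq_prod] at hint ⊢
  rw [integral_prod _ hint]
  have h1 : ∀ u : ℝ, ∫ x : Fin (rank K) → ℝ, (Real.exp (u / 2) : ℂ) * fT κ T (Yv K u x) *
        cexp (((t * u + ∑ i, th lam i * x i : ℝ) : ℂ) * I) =
      ∑ j, T.c j * eth lam (T.x j) * cexp ((1 / 2 + t * I - 1 / 2) * T.u j) *
        (kint K (Gf κ lam) (u - T.u j) * cexp ((1 / 2 + t * I) * ((u - T.u j : ℝ) : ℂ))) := by
    intro u
    have h2 : ∀ x : Fin (rank K) → ℝ, (Real.exp (u / 2) : ℂ) * fT κ T (Yv K u x) *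
        cexp (((t * u + ∑ i, th lam i * x i : ℝ) : ℂ) * I) =
        cexp ((1 / 2 + t * I) * u) * FT κ lam T (Yv K u x) := by
      intro x
      unfold FT
      rw [th_Yv_pr hlam u x]
      have h3 : cexp (((t * u + ∑ i, th lam i * x i : ℝ) : ℂ) * I) =
          cexp (t * I * u) * cexp (((∑ i, th lam i * x i : ℝ) : ℂ) * I) := by
        rw [← Complex.exp_add]
        congr 1
        push_cast
        ring
      have h4 : cexp ((1 / 2 + t * I) * u) = (Real.exp (u / 2) : ℂ) * cexp (t * I * u) := by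
        rw [Complex.ofReal_exp, ← Complex.exp_add]
        congr 1
        push_cast
        ring
      rw [h3, h4]
      ring
    simp_rw [h2]
    rw [integral_const_mul]
    have h5 := kint_FT_pr κ hlam T u
    unfold kint at h5 ⊢
    rw [h5, Finset.mul_sum]
    refine Finset.sum_congr rfl fun j _ => ?_
    have h6 : cexp ((1 / 2 + t * I) * u) * (Real.exp (-(T.u j / 2)) : ℂ) =
        cexp ((1 / 2 + t * I - 1 / 2) * T.u j) * cexp ((1 / 2 + t * I) * ((u - T.u j : ℝ) : ℂ)) := by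
      rw [Complex.ofReal_exp, ← Complex.exp_add, ← Complex.exp_add]
      congr 1
      push_cast
      ring
    calc _ = (cexp ((1 / 2 + t * I) * u) * (Real.exp (-(T.u j / 2)) : ℂ)) *
          (T.c j * eth lam (T.x j) * ∫ x : Fin (rank K) → ℝ, Gf κ lam (Yv K (u - T.u j) x)) := by
          ring
      _ = _ := by
          rw [h6]
          ring
  simp_rw [h1]
  obtain ⟨hi, he⟩ := C0_spec_pr κ lam hs
  rw [integral_finsetSum]
  · unfold gh PT
    rw [Finset.sum_mul]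
    refine Finset.sum_congr rfl fun j _ => ?_
    rw [integral_const_mul, integral_sub_right_eq_self
      (fun u : ℝ => kint K (Gf κ lam) u * cexp ((1 / 2 + t * I) * (u : ℂ))) (T.u j), he]
    rfl
  · intro j _
    exact (hi.comp_sub_right (T.u j)).const_mul _

/-- Plancherel in `1 + r` variables -/
theorem nrm_eq_pr (κ : InfinitePlace K → ℤ) (T : TD K)
    (Λ : (Fin (rank K) → ℝ) →L[ℝ] (InfinitePlace K → ℝ)) (h0 : ∀ θ, ∑ w, Λ θ w = 0)
    (h1 : ∀ θ, th (Λ θ) = θ) :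
    Integrable (fun p : ℝ × (Fin (rank K) → ℝ) => ‖gh κ (Λ p.2) T (1 / 2 + p.1 * I)‖ ^ 2) ∧
    (2 * Real.pi) ^ (rank K + 1) * nrm κ T =
      ∫ p : ℝ × (Fin (rank K) → ℝ), ‖gh κ (Λ p.2) T (1 / 2 + p.1 * I)‖ ^ 2 := by
  obtain ⟨hi, he⟩ := ft_planch (tf3_cont κ T) (tf3_integrable κ T) (tf3_sq κ T)
  have h2 : ∀ p : ℝ × (Fin (rank K) → ℝ), ∫ q : ℝ × (Fin (rank K) → ℝ), tf3_f κ T q *
      cexp (((p.1 * q.1 + ∑ i, p.2 i * q.2 i : ℝ) : ℂ) * I) =
      gh κ (Λ p.2) T (1 / 2 + p.1 * I) := by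
    intro p
    have h3 := (fT_transform_pr κ T (h0 p.2) p.1).2
    rw [h1 p.2] at h3
    exact h3
  simp_rw [h2] at hi he
  refine ⟨hi, ?_⟩
  rw [he]
  congr 1
  have hsq := tf3_sq κ T
  rw [Measure.volume_eq_prod] at hsq ⊢
  rw [integral_prod _ hsq]
  unfold nrm kk
  refine integral_congr_ae (ae_of_all _ fun u => ?_)
  show (∫ x : Fin (rank K) → ℝ, ‖fT κ T (Yv K u x)‖ ^ 2) * Real.exp u =
    ∫ x : Fin (rank K) → ℝ, ‖tf3_f κ T (u, x)‖ ^ 2
  have h4 : ∀ x : Fin (rank K) → ℝ, ‖tf3_f κ T (u, x)‖ ^ 2 =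
      ‖fT κ T (Yv K u x)‖ ^ 2 * Real.exp u := by
    intro x
    unfold tf3_f
    rw [norm_mul, Complex.norm_real, Real.norm_of_nonneg (Real.exp_pos _).le, mul_pow,
      ← Real.exp_nat_mul]
    rw [show ((2 : ℕ) : ℝ) * (u / 2) = u by push_cast; ring]
    ring
  simp_rw [h4]
  rw [integral_mul_const]

end Pool.Agent.LVK

namespace Pool.Agent.LVK

theorem fT_transform : type_of% @fT_transform_pr := @fT_transform_pr
theorem nrm_eq : type_of% @nrm_eq_pr := @nrm_eq_pr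

end Pool.Agent.LVK
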