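import Pool.Agent.Lib_helper42.LVK.Defs
import Pool.Agent.Lib_helper41.HZF.YB
import Pool.Agent.Lib_helper41.HZF.KG
import Pool.Agent.Lib_helper92.KSA.BRG
import Pool.Agent.Lib_helper92.KSA.LATU
import Pool.Agent.Lib_helper92.KSA.LNZ

/-!
# LVK block TF0B: smooth functions with compact support are transforms
-/

namespace Pool.Agent.LVK

open Complex MeasureTheory Filter Topology
open scoped FourierTransform RealInnerProductSpace SchwartzMap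

/-- the Euclidean space -/
abbrev Tf0bE (r : ℕ) : Type := WithLp 2 (ℝ × EuclideanSpace ℝ (Fin r))

/-- linear coordinates -/
noncomputable def tf0b_e (r : ℕ) : (ℝ × (Fin r → ℝ)) ≃L[ℝ] Tf0bE r :=
  ((ContinuousLinearEquiv.refl ℝ ℝ).prodCongr
    (EuclideanSpace.equiv (Fin r) ℝ).symm).trans
    (WithLp.prodContinuousLinearEquiv 2 ℝ ℝ (EuclideanSpace ℝ (Fin r))).symm

theorem tf0b_inner {r : ℕ} (p q : ℝ × (Fin r → ℝ)) :
    ⟪tf0b_e r q, tf0b_e r p⟫ = p.1 * q.1 + ∑ i, p.2 i * q.2 i := by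
  simp [tf0b_e, WithLp.prod_inner_apply, PiLp.inner_apply]

theorem tf0b_mp (r : ℕ) : MeasurePreserving (tf0b_e r) := by
  have h1 : MeasurePreserving (fun q : ℝ × (Fin r → ℝ) =>
      ((q.1, WithLp.toLp 2 q.2) : ℝ × EuclideanSpace ℝ (Fin r))) :=
    (MeasurePreserving.id (volume : Measure ℝ)).prod (PiLp.volume_preserving_toLp (Fin r))
  exact (WithLp.volume_preserving_toLp ℝ (EuclideanSpace ℝ (Fin r))).comp h1

theorem ft_inv_pr {r : ℕ} {h : ℝ × (Fin r → ℝ) → ℂ} (hh : ContDiff ℝ ((⊤ : ℕ∞) : WithTop ℕ∞) h)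
    (hc : HasCompactSupport h) :
    ∃ Φ : SchwartzMap (ℝ × (Fin r → ℝ)) ℂ, ∀ p : ℝ × (Fin r → ℝ),
      ∫ q : ℝ × (Fin r → ℝ), Φ q *
        cexp (((p.1 * q.1 + ∑ i, p.2 i * q.2 i : ℝ) : ℂ) * I) = h p := by
  set e := tf0b_e r with he
  have hc' : HasCompactSupport (h ∘ e.symm) := hc.comp_homeomorph e.symm.toHomeomorph
  have hh' : ContDiff ℝ ((⊤ : ℕ∞) : WithTop ℕ∞) (h ∘ e.symm) := hh.comp e.symm.contDiff
  set g : 𝓢(Tf0bE r, ℂ) := hc'.toSchwartzMap hh' with hg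
  set G : 𝓢(Tf0bE r, ℂ) := 𝓕 g with hG
  set R : ℝ := (2 * Real.pi)⁻¹ with hR
  have hR0 : R ≠ 0 := by positivity
  set n := Module.finrank ℝ (ℝ × (Fin r → ℝ)) with hn
  set c : ℝ := |R ^ n| with hcdef
  have hc0 : c ≠ 0 := by positivity
  set A : (ℝ × (Fin r → ℝ)) ≃L[ℝ] Tf0bE r :=
    (ContinuousLinearEquiv.smulLeft (Units.mk0 R hR0)).trans e with hA
  have hAq : ∀ q, A q = e (R • q) := fun q => rfl
  refine ⟨(c : ℂ) • SchwartzMap.compCLMOfContinuousLinearEquiv ℂ A G, fun p => ?_⟩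
  -- inversion
  have h1 : h p = ∫ v : Tf0bE r, cexp (((2 * Real.pi * ⟪v, e p⟫ : ℝ) : ℂ) * I) • G v := by
    have h2 : g (e p) = h p := by
      show (h ∘ e.symm) (e p) = h p
      simp
    have h3 : (𝓕⁻ G) (e p) = g (e p) := by
      rw [hG, FourierTransform.fourierInv_fourier_eq]
    rw [← h2, ← h3, SchwartzMap.fourierInv_coe, Real.fourierInv_eq']
  have h4 : ∫ v : Tf0bE r, cexp (((2 * Real.pi * ⟪v, e p⟫ : ℝ) : ℂ) * I) • G v =
      ∫ q : ℝ × (Fin r → ℝ), cexp (((2 * Real.pi * ⟪e q, e p⟫ : ℝ) : ℂ) * I) • G (e q) :=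
    ((tf0b_mp r).integral_comp e.toHomeomorph.measurableEmbedding
      (fun v => cexp (((2 * Real.pi * ⟪v, e p⟫ : ℝ) : ℂ) * I) • G v)).symm
  have : (volume : Measure (ℝ × (Fin r → ℝ))).IsAddHaarMeasure := by
    rw [Measure.volume_eq_prod]
    infer_instance
  have h5 := Measure.integral_comp_smul (volume : Measure (ℝ × (Fin r → ℝ)))
    (fun q => cexp (((2 * Real.pi * ⟪e q, e p⟫ : ℝ) : ℂ) * I) • G (e q)) R
  rw [h1, h4]
  have h6 : ∀ q : ℝ × (Fin r → ℝ),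
      ((c : ℂ) • SchwartzMap.compCLMOfContinuousLinearEquiv ℂ A G) q *
        cexp (((p.1 * q.1 + ∑ i, p.2 i * q.2 i : ℝ) : ℂ) * I) =
      (c : ℂ) * (cexp (((2 * Real.pi * ⟪e (R • q), e p⟫ : ℝ) : ℂ) * I) • G (e (R • q))) := by
    intro q
    have h7 : 2 * Real.pi * ⟪e (R • q), e p⟫ = p.1 * q.1 + ∑ i, p.2 i * q.2 i := by
      rw [map_smul, real_inner_smul_left, tf0b_inner, hR]
      field_simp
    rw [h7]
    show (c : ℂ) • (G (A q)) * _ = _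
    rw [hAq, smul_eq_mul, smul_eq_mul]
    ring
  simp_rw [h6]
  rw [integral_const_mul, h5, ← hn]
  have h8 : (c : ℂ) * (|(R ^ n)⁻¹| • ∫ q : ℝ × (Fin r → ℝ),
      cexp (((2 * Real.pi * ⟪e q, e p⟫ : ℝ) : ℂ) * I) • G (e q)) =
      ((c * |(R ^ n)⁻¹| : ℝ) : ℂ) * ∫ q : ℝ × (Fin r → ℝ),
      cexp (((2 * Real.pi * ⟪e q, e p⟫ : ℝ) : ℂ) * I) • G (e q) := by
    rw [Complex.real_smul]
    push_cast
    ring
  rw [h8]
  have h9 : c * |(R ^ n)⁻¹| = 1 := by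
    rw [abs_inv, ← hcdef, mul_inv_cancel₀ hc0]
  rw [h9]
  simp

end Pool.Agent.LVK

namespace Pool.Agent.LVK

theorem ft_inv : type_of% @ft_inv_pr := @ft_inv_pr

end Pool.Agent.LVK
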