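import Pool.Agent.Lib_helper42.LVK.Defs
import Pool.Agent.Lib_helper41.HZF.YB
import Pool.Agent.Lib_helper41.HZF.KG
import Pool.Agent.Lib_helper92.KSA.BRG
import Pool.Agent.Lib_helper92.KSA.LATU
import Pool.Agent.Lib_helper92.KSA.LNZ
import Pool.Agent.Lib_helper39.LVX.K_MA4A
import Pool.Agent.Lib_helper39.LVX.K_TF0B
import Pool.Agent.Lib_helper39.LVX.K_TF2
import Pool.Agent.Lib_helper39.LVX.K_TF6

/-!
# LVK block TF4: the smooth target function
-/

namespace Pool.Agent.LVK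

open NumberField NumberField.InfinitePlace NumberField.Units Complex MeasureTheory Filter Topology
open Pool.Agent.HZ Pool.Agent.AS Pool.Agent.KS

variable {K : Type} [Field K] [NumberField K]

/-- a smooth function slightly larger than the indicator of a compact set -/
theorem tf4_bump {E : Type*} [NormedAddCommGroup E] [NormedSpace ℝ E] [FiniteDimensional ℝ E]
    [MeasurableSpace E] [BorelSpace E] (μ : Measure E) [IsFiniteMeasureOnCompacts μ]
    [μ.OuterRegular] {S : Set E} (hS : IsCompact S) {ε : ℝ} (hε : 0 < ε) :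
    ∃ (g : E → ℝ) (δ : ℝ), 0 < δ ∧ ContDiff ℝ ((⊤ : ℕ∞) : WithTop ℕ∞) g ∧ HasCompactSupport g ∧
      (∀ p, 0 ≤ g p) ∧ (∀ p ∈ S, 1 + 2 * δ ≤ g p) ∧ ∫ p, g p ^ 2 ∂μ ≤ (μ S).toReal + ε := by
  have hSf : μ S ≠ ⊤ := hS.measure_lt_top.ne
  obtain ⟨U0, hSU0, hU0, hU0v⟩ := S.exists_isOpen_lt_add (μ := μ) hSf
    (ε := ENNReal.ofReal (ε / 2)) (by simpa using hε)
  obtain ⟨R, hR⟩ := hS.isBounded.subset_ball (0 : E)
  set U := U0 ∩ Metric.ball 0 R with hU
  have hUo : IsOpen U := hU0.inter Metric.isOpen_ball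
  have hSU : S ⊆ U := Set.subset_inter hSU0 hR
  have hUb : U ⊆ Metric.closedBall 0 R := fun x hx => Metric.ball_subset_closedBall hx.2
  have hUv : μ U < μ S + ENNReal.ofReal (ε / 2) :=
    lt_of_le_of_lt (measure_mono Set.inter_subset_left) hU0v
  have hUf : μ U ≠ ⊤ := (hUv.trans (by
    rw [ENNReal.add_lt_top]; exact ⟨hSf.lt_top, ENNReal.ofReal_lt_top⟩)).ne
  set V := (μ U).toReal with hV
  have hV0 : 0 ≤ V := ENNReal.toReal_nonneg
  have hVS : V ≤ (μ S).toReal + ε / 2 := by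
    have h1 := ENNReal.toReal_mono (b := μ S + ENNReal.ofReal (ε / 2))
      (by rw [ENNReal.add_ne_top]; exact ⟨hSf, ENNReal.ofReal_ne_top⟩) hUv.le
    rw [ENNReal.toReal_add hSf ENNReal.ofReal_ne_top, ENNReal.toReal_ofReal (by positivity)] at h1
    exact h1
  obtain ⟨f1, h1s, h1d, h1r⟩ := hUo.exists_contDiff_support_eq (n := ⊤)
  obtain ⟨f2, h2s, h2d, h2r⟩ := hS.isClosed.isOpen_compl.exists_contDiff_support_eq (n := ⊤)
  have h10 : ∀ x, 0 ≤ f1 x := fun x => (h1r (Set.mem_range_self x)).1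
  have h20 : ∀ x, 0 ≤ f2 x := fun x => (h2r (Set.mem_range_self x)).1
  have hpos : ∀ x, 0 < f1 x + f2 x := by
    intro x
    by_cases hx : x ∈ S
    · have h3 : f1 x ≠ 0 := by
        have : x ∈ Function.support f1 := by rw [h1s]; exact hSU hx
        exact this
      have := (h10 x).lt_of_ne h3.symm
      linarith [h20 x]
    · have h3 : f2 x ≠ 0 := by
        have : x ∈ Function.support f2 := by rw [h2s]; exact hx
        exact this
      have := (h20 x).lt_of_ne h3.symm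
      linarith [h10 x]
  set φ : E → ℝ := fun x => f1 x / (f1 x + f2 x) with hφ
  have hφd : ContDiff ℝ ((⊤ : ℕ∞) : WithTop ℕ∞) φ := h1d.div (h1d.add h2d) fun x => (hpos x).ne'
  have hφ0 : ∀ x, 0 ≤ φ x := fun x => div_nonneg (h10 x) (hpos x).le
  have hφ1 : ∀ x, φ x ≤ 1 := fun x => by
    rw [hφ]
    simp only
    rw [div_le_one (hpos x)]
    linarith [h20 x]
  have hφS : ∀ x ∈ S, φ x = 1 := by
    intro x hx
    have h3 : f2 x = 0 := by
      by_contra h
      have : x ∈ Function.support f2 := h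
      rw [h2s] at this
      exact this hx
    have h4 := hpos x
    rw [hφ]
    simp only
    rw [h3, add_zero] at h4 ⊢
    exact div_self h4.ne'
  have hφU : ∀ x, x ∉ U → φ x = 0 := by
    intro x hx
    have h3 : f1 x = 0 := by
      by_contra h
      have : x ∈ Function.support f1 := h
      rw [h1s] at this
      exact hx this
    rw [hφ]
    simp only
    rw [h3, zero_div]
  set δ : ℝ := min 1 (ε / (16 * (V + 1))) with hδ
  have hδ0 : 0 < δ := lt_min one_pos (by positivity)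
  have hδ1 : δ ≤ 1 := min_le_left _ _
  have hδ2 : 16 * V * δ ≤ ε := by
    have h3 : δ ≤ ε / (16 * (V + 1)) := min_le_right _ _
    rw [le_div_iff₀ (by positivity)] at h3
    nlinarith
  refine ⟨fun x => (1 + 2 * δ) * φ x, δ, hδ0, contDiff_const.mul hφd, ?_, ?_, ?_, ?_⟩
  · apply HasCompactSupport.of_support_subset_isCompact (isCompact_closedBall (0:E) R)
    intro x hx
    apply hUb
    by_contra h
    apply hx
    simp only
    rw [hφU x h, mul_zero]
  · intro x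
    have := hφ0 x
    positivity
  · intro x hx
    simp only
    rw [hφS x hx, mul_one]
  · have hind : ∀ x, ((1 + 2 * δ) * φ x) ^ 2 ≤ U.indicator (fun _ => (1 + 2 * δ) ^ 2) x := by
      intro x
      by_cases hx : x ∈ U
      · rw [Set.indicator_of_mem hx, mul_pow]
        have h3 : φ x ^ 2 ≤ 1 := pow_le_one₀ (hφ0 x) (hφ1 x)
        have h4 : 0 ≤ (1 + 2 * δ) ^ 2 := by positivity
        nlinarith
      · rw [Set.indicator_of_notMem hx, hφU x hx]
        simp
    have hii : Integrable (U.indicator (fun _ => (1 + 2 * δ) ^ 2)) μ := by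
      rw [integrable_indicator_iff hUo.measurableSet]
      exact integrableOn_const hUf
    have h3 : ∫ x, ((1 + 2 * δ) * φ x) ^ 2 ∂μ ≤ ∫ x, U.indicator (fun _ => (1 + 2 * δ) ^ 2) x ∂μ := by
      apply integral_mono_of_nonneg (ae_of_all _ fun x => sq_nonneg _) hii (ae_of_all _ hind)
    rw [integral_indicator_const _ hUo.measurableSet] at h3
    refine h3.trans ?_
    have h4 : μ.real U = V := rfl
    rw [h4, smul_eq_mul]
    nlinarith

/-- the inverse of the Gamma factor is smooth -/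
theorem tf4_gam (κ : InfinitePlace K → ℤ)
    (Λ : (Fin (rank K) → ℝ) →L[ℝ] (InfinitePlace K → ℝ)) :
    ContDiff ℝ ((⊤ : ℕ∞) : WithTop ℕ∞) (fun p : ℝ × (Fin (rank K) → ℝ) =>
      (gam κ (Λ p.2) (1 / 2 + p.1 * I))⁻¹) := by
  classical
  unfold gam
  simp_rw [← Finset.prod_inv_distrib]
  apply contDiff_prod
  intro w _
  have hs : ContDiff ℝ ((⊤ : ℕ∞) : WithTop ℕ∞) (fun p : ℝ × (Fin (rank K) → ℝ) => (p.1 : ℂ)) :=
    Complex.ofRealCLM.contDiff.comp contDiff_fst
  have hl : ContDiff ℝ ((⊤ : ℕ∞) : WithTop ℕ∞)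
      (fun p : ℝ × (Fin (rank K) → ℝ) => ((Λ p.2 w : ℝ) : ℂ)) := by
    have h1 : ContDiff ℝ ((⊤ : ℕ∞) : WithTop ℕ∞) (fun p : ℝ × (Fin (rank K) → ℝ) => Λ p.2 w) :=
      (contDiff_apply ℝ ℝ w).comp (Λ.contDiff.comp contDiff_snd)
    exact Complex.ofRealCLM.contDiff.comp h1
  by_cases hw : w.IsReal
  · simp only [hw, if_true]
    have h1 : ContDiff ℝ ((⊤ : ℕ∞) : WithTop ℕ∞) (fun s : ℂ => (Gammaℝ s)⁻¹) :=
      (differentiable_Gammaℝ_inv.contDiff (n := ((⊤ : ℕ∞) : WithTop ℕ∞))).restrict_scalars ℝ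
    exact h1.comp (((contDiff_const.add (hs.mul contDiff_const)).add contDiff_const).add
      (hl.mul contDiff_const))
  · simp only [hw, if_false]
    have h1 : ContDiff ℝ ((⊤ : ℕ∞) : WithTop ℕ∞) (fun s : ℂ => (Gammaℂ s)⁻¹) :=
      (differentiable_Gammaℂ_inv.contDiff (n := ((⊤ : ℕ∞) : WithTop ℕ∞))).restrict_scalars ℝ
    exact h1.comp (((contDiff_const.add (hs.mul contDiff_const)).add contDiff_const).add
      ((hl.div_const 2).mul contDiff_const))

theorem exists_target_pr (κ : InfinitePlace K → ℤ) {x1 x2 B ε : ℝ} (hx : x1 < x2) (hB : 0 < B)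
    (hε : 0 < ε) (Λ : (Fin (rank K) → ℝ) →L[ℝ] (InfinitePlace K → ℝ)) :
    ∃ (Φ : SchwartzMap (ℝ × (Fin (rank K) → ℝ)) ℂ) (g : ℝ × (Fin (rank K) → ℝ) → ℝ) (δ : ℝ),
      0 < δ ∧ Continuous g ∧ HasCompactSupport g ∧ (∀ p, 0 ≤ g p) ∧
      (∀ t ∈ Set.Icc x1 x2, ∀ θ ∈ ThB K B, 1 + 2 * δ ≤ g (t, θ)) ∧
      ∫ p, g p ^ 2 ≤ (x2 - x1) * (volume (ThB K B)).toReal + ε ∧
      ∀ p : ℝ × (Fin (rank K) → ℝ),
        (∫ q : ℝ × (Fin (rank K) → ℝ), Φ q *
          cexp (((p.1 * q.1 + ∑ i, p.2 i * q.2 i : ℝ) : ℂ) * I)) *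
          (C0 K * gam κ (Λ p.2) (1 / 2 + p.1 * I)) = g p := by
  have hS : IsCompact (Set.Icc x1 x2 ×ˢ ThB K B) := isCompact_Icc.prod (ThB_compact B)
  have : (volume : Measure (ℝ × (Fin (rank K) → ℝ))).IsAddHaarMeasure := by
    rw [Measure.volume_eq_prod]
    infer_instance
  obtain ⟨g, δ, hδ, hgd, hgc, hg0, hgS, hgi⟩ :=
    tf4_bump (volume : Measure (ℝ × (Fin (rank K) → ℝ))) hS hε
  have hC0 : (C0 K : ℂ) ≠ 0 := by
    have := C0_pos (K := K)
    exact_mod_cast this.ne'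
  have hgamne : ∀ p : ℝ × (Fin (rank K) → ℝ), gam κ (Λ p.2) (1 / 2 + p.1 * I) ≠ 0 := by
    intro p
    apply gam_ne
    simp
  set h : ℝ × (Fin (rank K) → ℝ) → ℂ := fun p =>
    (g p : ℂ) * ((C0 K : ℂ)⁻¹ * (gam κ (Λ p.2) (1 / 2 + p.1 * I))⁻¹) with hh
  have hhd : ContDiff ℝ ((⊤ : ℕ∞) : WithTop ℕ∞) h :=
    (Complex.ofRealCLM.contDiff.comp hgd).mul (contDiff_const.mul (tf4_gam κ Λ))
  have hhc : HasCompactSupport h := by
    have h1 : HasCompactSupport (fun p => (g p : ℂ)) := hgc.comp_left Complex.ofReal_zero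
    exact h1.mul_right
  obtain ⟨Φ, hΦ⟩ := ft_inv hhd hhc
  refine ⟨Φ, g, δ, hδ, hgd.continuous, hgc, hg0, fun t ht θ hθ => hgS (t, θ) ⟨ht, hθ⟩, ?_, ?_⟩
  · have h1 : (volume (Set.Icc x1 x2 ×ˢ ThB K B)).toReal =
        (x2 - x1) * (volume (ThB K B)).toReal := by
      rw [Measure.volume_eq_prod, Measure.prod_prod, ENNReal.toReal_mul, Real.volume_Icc,
        ENNReal.toReal_ofReal (by linarith)]
    rw [← h1]
    exact hgi
  · intro p
    rw [hΦ p, hh]
    simp only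
    have hG := hgamne p
    generalize gam κ (Λ p.2) (1 / 2 + p.1 * I) = G at hG ⊢
    field_simp


end Pool.Agent.LVK

namespace Pool.Agent.LVK

theorem exists_target : type_of% @exists_target_pr := @exists_target_pr

end Pool.Agent.LVK
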