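import Pool.Agent.Lib_helper42.LVK.Defs
import Pool.Agent.Lib_helper41.HZF.YB
import Pool.Agent.Lib_helper41.HZF.KG
import Pool.Agent.Lib_helper92.KSA.BRG
import Pool.Agent.Lib_helper92.KSA.LATU
import Pool.Agent.Lib_helper92.KSA.LNZ
import Pool.Agent.Lib_helper39.LVX.K_TF1
import Pool.Agent.Lib_helper39.LVX.K_TF2
import Pool.Agent.Lib_helper39.LVX.K_TF3
import Pool.Agent.Lib_helper39.LVX.K_TF4
import Pool.Agent.Lib_helper39.LVX.K_TF6

/-!
# LVK block TF5: the test function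
-/

namespace Pool.Agent.LVK

open NumberField NumberField.InfinitePlace NumberField.Units Complex MeasureTheory Filter Topology
open Pool.Agent.HZ Pool.Agent.AS Pool.Agent.KS

variable {K : Type} [Field K] [NumberField K]

/-- the exponential sum of the test data -/
noncomputable def tf5_P (T : TD K) (p : ℝ × (Fin (rank K) → ℝ)) : ℂ :=
  ∑ j, T.c j * cexp (((∑ i, p.2 i * T.x j i : ℝ) : ℂ) * I) * cexp (((p.1 * T.u j : ℝ) : ℂ) * I)

theorem tf5_PT (Λ : (Fin (rank K) → ℝ) → (InfinitePlace K → ℝ))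
    (h1 : ∀ θ, th (Λ θ) = θ) (T : TD K) (p : ℝ × (Fin (rank K) → ℝ)) :
    PT (Λ p.2) T (1 / 2 + p.1 * I) = tf5_P T p := by
  unfold PT tf5_P
  refine Finset.sum_congr rfl fun j _ => ?_
  rw [h1 p.2]
  congr 2
  push_cast
  ring

theorem tf5_norm_P (T : TD K) (p : ℝ × (Fin (rank K) → ℝ)) :
    ‖tf5_P T p‖ ≤ ∑ j, ‖T.c j‖ := by
  unfold tf5_P
  refine (norm_sum_le _ _).trans (Finset.sum_le_sum fun j _ => ?_)
  rw [norm_mul, norm_mul, Complex.norm_exp_ofReal_mul_I, Complex.norm_exp_ofReal_mul_I, mul_one,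
    mul_one]

theorem tf5_gh (κ : InfinitePlace K → ℤ) (Λ : (Fin (rank K) → ℝ) → (InfinitePlace K → ℝ))
    (h1 : ∀ θ, th (Λ θ) = θ) (T : TD K) (p : ℝ × (Fin (rank K) → ℝ)) :
    gh κ (Λ p.2) T (1 / 2 + p.1 * I) =
      tf5_P T p * (C0 K * gam κ (Λ p.2) (1 / 2 + p.1 * I)) := by
  unfold gh
  rw [tf5_PT Λ h1]

theorem tf5_triv (κ : InfinitePlace K → ℤ) (lam : InfinitePlace K → ℝ) (s : ℂ) :
    gh κ lam (TD.triv K 1) s = C0 K * gam κ lam s := by
  unfold gh PT TD.triv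
  simp

theorem exists_test_pr (κ : InfinitePlace K → ℤ) {x1 x2 B ε : ℝ} (hx : x1 < x2) (hB : 0 < B)
    (hε : 0 < ε) :
    ∃ (T : TD K) (δ : ℝ), 0 < δ ∧
      (∀ lam : InfinitePlace K → ℝ, ∑ w, lam w = 0 → (∀ w, |lam w| ≤ B) →
        ∀ t ∈ Set.Icc x1 x2, 1 + δ ≤ ‖gh κ lam T (1 / 2 + t * I)‖) ∧
      2 * Real.pi * nrm κ T ≤
        (x2 - x1) * (volume (ThB K B)).toReal / (2 * Real.pi) ^ rank K + ε := by
  obtain ⟨Λ, h0, h1, h2⟩ := th_equiv (K := K)
  have hpi : 0 < (2 * Real.pi) ^ rank K := by positivity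
  have hε₁ : 0 < ε * (2 * Real.pi) ^ rank K / 2 := by positivity
  obtain ⟨Φ, g, δ, hδ, hgc, hgs, hg0, hgw, hgi, hΦ⟩ := exists_target κ hx hB hε₁ Λ
  obtain ⟨B₀, hB₀, hex⟩ := exp_sums Φ
  -- the approximating test data
  have hk : ∀ k : ℕ, ∃ T : TD K, (∑ j, ‖T.c j‖ ≤ B₀) ∧
      ∀ p ∈ Metric.closedBall (0 : ℝ × (Fin (rank K) → ℝ)) (k : ℝ),
        ‖tf5_P T p - ∫ q : ℝ × (Fin (rank K) → ℝ), Φ q *
          cexp (((p.1 * q.1 + ∑ i, p.2 i * q.2 i : ℝ) : ℂ) * I)‖ ≤ 1 / ((k : ℝ) + 1) := by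
    intro k
    obtain ⟨n, c, u, x, hc, hp⟩ := hex (Metric.closedBall (0 : ℝ × (Fin (rank K) → ℝ)) (k : ℝ))
      (isCompact_closedBall _ _) (1 / ((k : ℝ) + 1)) (by positivity)
    exact ⟨⟨n, c, u, x⟩, hc, hp⟩
  choose T hT1 hT2 using hk
  have hgh : ∀ (T' : TD K) (p : ℝ × (Fin (rank K) → ℝ)),
      gh κ (Λ p.2) T' (1 / 2 + p.1 * I) =
        tf5_P T' p * (C0 K * gam κ (Λ p.2) (1 / 2 + p.1 * I)) := fun T' p =>
    tf5_gh κ (fun θ => Λ θ) h1 T' p
  -- the square integrability of the weight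
  have hW : Integrable (fun p : ℝ × (Fin (rank K) → ℝ) =>
      ‖(C0 K * gam κ (Λ p.2) (1 / 2 + p.1 * I) : ℂ)‖ ^ 2) := by
    have h := (nrm_eq κ (TD.triv K 1) Λ h0 h1).1
    refine h.congr (ae_of_all _ fun p => ?_)
    simp only [tf5_triv]
  -- pointwise convergence
  have hpt : ∀ p : ℝ × (Fin (rank K) → ℝ),
      Tendsto (fun k : ℕ => tf5_P (T k) p) atTop (𝓝 (∫ q : ℝ × (Fin (rank K) → ℝ), Φ q *
          cexp (((p.1 * q.1 + ∑ i, p.2 i * q.2 i : ℝ) : ℂ) * I))) := by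
    intro p
    rw [tendsto_iff_norm_sub_tendsto_zero]
    refine squeeze_zero' (Eventually.of_forall fun _ => norm_nonneg _) ?_
      (tendsto_one_div_add_atTop_nhds_zero_nat (𝕜 := ℝ))
    filter_upwards [Filter.eventually_ge_atTop ⌈‖p‖⌉₊] with k hk
    refine hT2 k p ?_
    rw [mem_closedBall_zero_iff]
    exact (Nat.le_ceil _).trans (by exact_mod_cast hk)
  have hlim : Tendsto (fun k : ℕ => ∫ p : ℝ × (Fin (rank K) → ℝ),
      ‖gh κ (Λ p.2) (T k) (1 / 2 + p.1 * I)‖ ^ 2) atTop (𝓝 (∫ p, g p ^ 2)) := by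
    refine tendsto_integral_of_dominated_convergence
      (fun p => B₀ ^ 2 * ‖(C0 K * gam κ (Λ p.2) (1 / 2 + p.1 * I) : ℂ)‖ ^ 2) ?_ ?_ ?_ ?_
    · intro k
      exact (nrm_eq κ (T k) Λ h0 h1).1.aestronglyMeasurable
    · exact hW.const_mul _
    · intro k
      refine ae_of_all _ fun p => ?_
      rw [Real.norm_of_nonneg (by positivity), hgh, norm_mul, mul_pow]
      gcongr
      exact (tf5_norm_P _ _).trans (hT1 k)
    · refine ae_of_all _ fun p => ?_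
      have hc := ((hpt p).mul_const (C0 K * gam κ (Λ p.2) (1 / 2 + p.1 * I) : ℂ)).norm.pow 2
      rw [hΦ p] at hc
      have hg2 : ‖((g p : ℝ) : ℂ)‖ ^ 2 = g p ^ 2 := by
        rw [Complex.norm_real, Real.norm_of_nonneg (hg0 p)]
      rw [hg2] at hc
      refine hc.congr fun k => ?_
      rw [hgh]
  have hev1 : ∀ᶠ k : ℕ in atTop, ∫ p : ℝ × (Fin (rank K) → ℝ),
      ‖gh κ (Λ p.2) (T k) (1 / 2 + p.1 * I)‖ ^ 2 <
        (∫ p, g p ^ 2) + ε * (2 * Real.pi) ^ rank K / 2 :=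
    hlim.eventually_lt_const (by linarith)
  -- the window
  obtain ⟨C, hC, hCb⟩ := gh_unif κ (TD.triv K 1) B 1 (max |x1| |x2|)
  obtain ⟨ρ, hρ⟩ := (isCompact_Icc.prod (ThB_compact (K := K) B) :
    IsCompact (Set.Icc x1 x2 ×ˢ ThB K B)).isBounded.subset_closedBall
      (0 : ℝ × (Fin (rank K) → ℝ))
  have hev2 : ∀ᶠ k : ℕ in atTop, 1 / ((k : ℝ) + 1) * C < δ := by
    have : Tendsto (fun k : ℕ => 1 / ((k : ℝ) + 1) * C) atTop (𝓝 (0 * C)) :=
      (tendsto_one_div_add_atTop_nhds_zero_nat (𝕜 := ℝ)).mul_const C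
    rw [zero_mul] at this
    exact this.eventually_lt_const hδ
  obtain ⟨k, hk1, hk2, hk3⟩ := (hev1.and (hev2.and
    (Filter.eventually_ge_atTop ⌈ρ⌉₊))).exists
  refine ⟨T k, δ, hδ, ?_, ?_⟩
  · intro lam hlam hlB t ht
    have hΛ : Λ (th lam) = lam := h2 lam hlam
    have hθ : th lam ∈ ThB K B := ⟨lam, hlam, hlB, rfl⟩
    have hmem : ((t, th lam) : ℝ × (Fin (rank K) → ℝ)) ∈
        Metric.closedBall (0 : ℝ × (Fin (rank K) → ℝ)) (k : ℝ) := by
      refine Metric.closedBall_subset_closedBall ?_ (hρ (Set.mk_mem_prod ht hθ))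
      exact (Nat.le_ceil _).trans (by exact_mod_cast hk3)
    have he := hT2 k (t, th lam) hmem
    have hgg := hΦ (t, th lam)
    have hgt := hgh (T k) (t, th lam)
    simp only [hΛ] at hgg hgt he
    rw [hgt]
    set F : ℂ := ∫ q : ℝ × (Fin (rank K) → ℝ), Φ q *
      cexp (((t * q.1 + ∑ i, th lam i * q.2 i : ℝ) : ℂ) * I) with hF
    set W : ℂ := C0 K * gam κ lam (1 / 2 + t * I) with hWd
    have hWb : ‖W‖ ≤ C := by
      have h := (hCb lam hlB (1 / 2 + t * I) ?_ ?_ ?_).1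
      · rwa [tf5_triv] at h
      · simp; norm_num
      · simp; norm_num
      · have : ((1 / 2 : ℂ) + t * I).im = t := by simp
        rw [this]
        exact abs_le_max_abs_abs ht.1 ht.2
    have hgw' := hgw t ht (th lam) hθ
    have h3 : ‖F * W‖ ≤ ‖tf5_P (T k) (t, th lam) * W‖ + 1 / ((k : ℝ) + 1) * C := by
      have e : F * W = tf5_P (T k) (t, th lam) * W -
          (tf5_P (T k) (t, th lam) - F) * W := by ring
      rw [e]
      refine (norm_sub_le _ _).trans ?_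
      gcongr
      rw [norm_mul]
      gcongr
    have h4 : ‖F * W‖ = g (t, th lam) := by
      rw [hgg, Complex.norm_real, Real.norm_of_nonneg (hg0 _)]
    linarith
  · have hn := (nrm_eq κ (T k) Λ h0 h1).2
    have hle : (2 * Real.pi) ^ (rank K + 1) * nrm κ (T k) ≤
        (x2 - x1) * (volume (ThB K B)).toReal + ε * (2 * Real.pi) ^ rank K := by
      rw [hn]
      have := hk1.le
      linarith
    have h6 : 2 * Real.pi * nrm κ (T k) =
        ((2 * Real.pi) ^ (rank K + 1) * nrm κ (T k)) / (2 * Real.pi) ^ rank K := by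
      rw [pow_succ]
      field_simp
    rw [h6, div_le_iff₀ hpi, add_mul, div_mul_cancel₀ _ hpi.ne']
    exact hle


end Pool.Agent.LVK

namespace Pool.Agent.LVK

theorem exists_test : type_of% @exists_test_pr := @exists_test_pr

end Pool.Agent.LVK
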