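import Pool.Agent.Lib_helper42.LVK.DefsT
import Pool.Agent.Lib_helper42.LVK.Defs
import Pool.Agent.Lib_helper41.HZF.YB
import Pool.Agent.Lib_helper41.HZF.KG
import Pool.Agent.Lib_helper92.KSA.BRG
import Pool.Agent.Lib_helper92.KSA.LATU
import Pool.Agent.Lib_helper92.KSA.LNZ
import Pool.Agent.Lib_helper92.LVA.Defs
import Pool.Agent.Lib_helper92.KSA.KPO
import Pool.Agent.Lib_helper92.KSA.ZKA
import Pool.Agent.Lib_helper92.ASA.All
import Pool.Agent.Lib_helper39.LVK.DefsZ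
import Pool.Agent.Lib_helper39.LVX.K_FC5
import Pool.Agent.Lib_helper39.LVX.K_MH5
import Pool.Agent.Lib_helper39.LVX.K_TB2
import Pool.Agent.Lib_helper39.LVX.K_TC3
import Pool.Agent.Lib_helper39.LVX.K_TF2
import Pool.Agent.Lib_helper39.LVX.K_TF5
import Pool.Agent.Lib_helper39.LVX.K_TF6
import Pool.Agent.Lib_helper39.LVX.TC1

/-!
# LVK block TC4B: the sharp condition (m2)
-/

namespace Pool.Agent.LVK

open NumberField NumberField.InfinitePlace NumberField.Units Complex MeasureTheory Filter Topology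
open Pool.Agent.HZ Pool.Agent.AS Pool.Agent.KS
open scoped ENNReal

variable {K : Type} [Field K] [NumberField K]

theorem tc4b_sq {a y N ε : ℝ} (hN : 0 ≤ N) (hε : 0 < ε) (h : N ≤ a + y) :
    N ^ 2 ≤ (1 + ε) * a ^ 2 + (1 + 1 / ε) * y ^ 2 := by
  have h1 : N ^ 2 ≤ (a + y) ^ 2 := pow_le_pow_left₀ hN h 2
  have h2 : 0 ≤ (ε * a - y) ^ 2 / ε := by positivity
  have h3 : (ε * a - y) ^ 2 / ε = ε * a ^ 2 - 2 * a * y + 1 / ε * y ^ 2 := by
    rw [div_eq_iff hε.ne']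
    have h4 : 1 / ε * ε = 1 := by rw [one_div, inv_mul_cancel₀ hε.ne']
    calc (ε * a - y) ^ 2 = (ε * a ^ 2 - 2 * a * y) * ε + (1 : ℝ) * y ^ 2 := by ring
      _ = (ε * a ^ 2 - 2 * a * y) * ε + (1 / ε * ε) * y ^ 2 := by rw [h4]
      _ = _ := by ring
  nlinarith

theorem tc4b_int {f g h : ℝ → ℝ} {x1 x2 c d : ℝ} (hx : x1 ≤ x2) (hf : ∀ t, 0 ≤ f t)
    (hg : Integrable g) (hh : Integrable h) (hg0 : ∀ t, 0 ≤ g t) (hh0 : ∀ t, 0 ≤ h t)
    (hc : 0 ≤ c) (hd : 0 ≤ d) (hle : ∀ t ∈ Set.Icc x1 x2, f t ≤ c * g t + d * h t) :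
    ∫ t in x1..x2, f t ≤ c * (∫ t, g t) + d * ∫ t, h t := by
  have hi : Integrable (fun t => c * g t + d * h t) := (hg.const_mul c).add (hh.const_mul d)
  rw [intervalIntegral.integral_of_le hx]
  have h1 : ∫ t in Set.Ioc x1 x2, f t ≤ ∫ t in Set.Ioc x1 x2, (c * g t + d * h t) := by
    refine integral_mono_of_nonneg (Eventually.of_forall hf) hi.integrableOn ?_
    refine (ae_restrict_iff' measurableSet_Ioc).2 (Eventually.of_forall fun t ht => ?_)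
    exact hle t (Set.Ioc_subset_Icc_self ht)
  have h2 : ∫ t in Set.Ioc x1 x2, (c * g t + d * h t) ≤ ∫ t, (c * g t + d * h t) := by
    refine setIntegral_le_integral hi (Eventually.of_forall fun t => ?_)
    have h3 := hg0 t
    have h4 := hh0 t
    show 0 ≤ c * g t + d * h t
    positivity
  refine h1.trans (h2.trans (le_of_eq ?_))
  rw [integral_add (hg.const_mul c) (hh.const_mul d), integral_const_mul, integral_const_mul]

theorem tc4b_gh (κ : InfinitePlace K → ℤ) (T : TD K) {B x1 x2 R δ : ℝ} (hR : 0 ≤ R)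
    (hδ : 0 < δ)
    (h1 : ∀ lam : InfinitePlace K → ℝ, ∑ w, lam w = 0 → (∀ w, |lam w| ≤ B) →
        ∀ t ∈ Set.Icc x1 x2, 1 + δ ≤ ‖gh κ lam T (1 / 2 + t * I)‖) :
    ∃ C L₁ : ℝ, 0 ≤ C ∧ 1 ≤ L₁ ∧ ∀ L : ℝ, L₁ ≤ L → R / L ≤ 1 / 4 ∧
      ∀ lam : InfinitePlace K → ℝ, ∑ w, lam w = 0 → (∀ w, |lam w| ≤ B) →
        ∀ t ∈ Set.Icc x1 x2, 1 ≤ ‖gh κ lam T (pt (1 / 2 - R / L) t)‖ ∧
          ‖deriv (gh κ lam T) (pt (1 / 2 - R / L) t)‖ ≤ C := by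
  obtain ⟨C, hC, h2⟩ := gh_unif κ T B 1 (max |x1| |x2|)
  refine ⟨C, max 1 (max (4 * R) (C * R / δ)), hC, le_max_left _ _, fun L hL => ?_⟩
  have hL1 : 1 ≤ L := (le_max_left _ _).trans hL
  have hL0 : 0 < L := by linarith
  have hL2 : 4 * R ≤ L := (le_max_left _ _).trans ((le_max_right _ _).trans hL)
  have hL3 : C * R / δ ≤ L := (le_max_right _ _).trans ((le_max_right _ _).trans hL)
  have hRL : R / L ≤ 1 / 4 := by
    rw [div_le_div_iff₀ hL0 (by norm_num)]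
    linarith
  have hRL0 : 0 ≤ R / L := by positivity
  have hCR : C * (R / L) ≤ δ := by
    rw [div_le_iff₀ hδ] at hL3
    rw [← mul_div_assoc, div_le_iff₀ hL0]
    linarith
  refine ⟨hRL, fun lam hlam hB t ht => ?_⟩
  have htm : |t| ≤ max |x1| |x2| := abs_le_max_abs_abs ht.1 ht.2
  have hre : (pt (1 / 2 - R / L) t).re = 1 / 2 - R / L := by simp [pt]
  have him : (pt (1 / 2 - R / L) t).im = t := by simp [pt]
  have hre0 : (1 / 2 + t * I : ℂ).re = 1 / 2 := by simp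
  have him0 : (1 / 2 + t * I : ℂ).im = t := by simp
  let S : Set ℂ := {z | 1 / 4 ≤ z.re} ∩ {z | z.re ≤ 2 * 1} ∩
    ({z | -(max |x1| |x2|) ≤ z.im} ∩ {z | z.im ≤ max |x1| |x2|})
  have hS : Convex ℝ S :=
    ((convex_halfSpace_re_ge _).inter (convex_halfSpace_re_le _)).inter
      ((convex_halfSpace_im_ge _).inter (convex_halfSpace_im_le _))
  have hSm : ∀ z : ℂ, z ∈ S ↔ (1 / 4 ≤ z.re ∧ z.re ≤ 2 * 1) ∧
      (-(max |x1| |x2|) ≤ z.im ∧ z.im ≤ max |x1| |x2|) := fun z => Iff.rfl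
  have hSb : ∀ z ∈ S, ‖deriv (gh κ lam T) z‖ ≤ C := by
    intro z hz
    rw [hSm] at hz
    exact (h2 lam hB z hz.1.1 hz.1.2 (abs_le.2 hz.2)).2
  have hSd : ∀ z ∈ S, DifferentiableAt ℂ (gh κ lam T) z := by
    intro z hz
    rw [hSm] at hz
    refine (gh_diff κ lam T).differentiableAt ?_
    refine (isOpen_lt continuous_const Complex.continuous_re).mem_nhds ?_
    show 0 < z.re
    linarith [hz.1.1]
  have hz1 : pt (1 / 2 - R / L) t ∈ S := by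
    rw [hSm, hre, him]
    exact ⟨⟨by linarith, by linarith⟩, abs_le.1 htm⟩
  have hz0 : (1 / 2 + t * I : ℂ) ∈ S := by
    rw [hSm, hre0, him0]
    exact ⟨⟨by norm_num, by norm_num⟩, abs_le.1 htm⟩
  refine ⟨?_, hSb _ hz1⟩
  have h3 := hS.norm_image_sub_le_of_norm_deriv_le hSd hSb hz1 hz0
  have h4 : ‖(1 / 2 + t * I : ℂ) - pt (1 / 2 - R / L) t‖ = R / L := by
    have : (1 / 2 + t * I : ℂ) - pt (1 / 2 - R / L) t = ((R / L : ℝ) : ℂ) := by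
      unfold pt
      push_cast
      ring
    rw [this, Complex.norm_real, Real.norm_of_nonneg hRL0]
  rw [h4] at h3
  have h5 := h1 lam hlam hB t ht
  have h6 : ‖gh κ lam T (1 / 2 + t * I)‖ ≤ ‖gh κ lam T (pt (1 / 2 - R / L) t)‖ +
      ‖gh κ lam T (1 / 2 + t * I) - gh κ lam T (pt (1 / 2 - R / L) t)‖ := by
    have := norm_add_le (gh κ lam T (pt (1 / 2 - R / L) t))
      (gh κ lam T (1 / 2 + t * I) - gh κ lam T (pt (1 / 2 - R / L) t))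
    rwa [add_sub_cancel] at this
  linarith

theorem tc4b_eps {v X c δ : ℝ} (hv : 0 < v) (hX : 0 < X) (hδ : 0 < δ) :
    ∃ ε : ℝ, 0 < ε ∧ ε < 1 ∧
      (1 + ε) * ((X * v + ε) * c + 2 * Real.pi * ε) ≤ (1 - ε) * v * (X * (c + δ / 2)) := by
  have h1 : Tendsto (fun ε : ℝ => (1 - ε) * v * (X * (c + δ / 2)) -
      (1 + ε) * ((X * v + ε) * c + 2 * Real.pi * ε)) (𝓝 0)
      (𝓝 ((1 - 0) * v * (X * (c + δ / 2)) -
      (1 + 0) * ((X * v + 0) * c + 2 * Real.pi * 0))) := by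
    apply Continuous.tendsto
    fun_prop
  have h2 : (1 - 0) * v * (X * (c + δ / 2)) -
      (1 + 0) * ((X * v + 0) * c + 2 * Real.pi * 0) = v * X * (δ / 2) := by ring
  rw [h2] at h1
  have h3 : ∀ᶠ ε : ℝ in 𝓝 0, 0 < (1 - ε) * v * (X * (c + δ / 2)) -
      (1 + ε) * ((X * v + ε) * c + 2 * Real.pi * ε) :=
    h1.eventually (lt_mem_nhds (by positivity))
  have h4 : ∀ᶠ ε : ℝ in 𝓝[>] 0, 0 < (1 - ε) * v * (X * (c + δ / 2)) -
      (1 + ε) * ((X * v + ε) * c + 2 * Real.pi * ε) := h3.filter_mono nhdsWithin_le_nhds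
  have h5 : ∀ᶠ ε : ℝ in 𝓝[>] 0, ε < 1 :=
    (gt_mem_nhds (show (0 : ℝ) < 1 by norm_num)).filter_mono nhdsWithin_le_nhds
  obtain ⟨ε, h6, h7, h8⟩ := (h4.and (h5.and self_mem_nhdsWithin)).exists
  exact ⟨ε, h8, h7, by linarith⟩

/-- the sharp condition (m2) -/
theorem fam_sharp_pr {κ : InfinitePlace K → ℤ}
    (hκ : ∀ w : InfinitePlace K, w.IsReal → κ w = 0 ∨ κ w = 1) {b θ R lm x1 x2 B δ : ℝ}
    (hb : |b| ≤ 1 / 2) (hθ : 0 < θ) (hθ2 : θ < 1 / 2) (hR : 1 ≤ R) (hB : 0 < B) (hx : x1 < x2)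
    (hcc : 0 < LVA.cc b θ R lm) (hδ : 0 < δ) :
    ∃ L₀ : ℝ, 1 ≤ L₀ ∧ ∀ (𝔮 : Ideal (𝓞 K)) (_ : 𝔮 ≠ ⊥)
      (_ : 𝔮 ≠ ⊤) (L : ℝ) (_ : L₀ ≤ L) (_ : L = Real.log (Ideal.absNorm 𝔮))
      (E : Finset (HDat 𝔮)) (_ : ∀ t, t ∈ E ↔ t ∈ FamB 𝔮 κ B),
      ∑ t ∈ E, ∫ τ in x1..x2, ‖(ldat b θ R L t).V lm L (pt (1 / 2 - R / L) τ) *
        (ldat b θ R L t).M (pt (1 / 2 - R / L) τ)‖ ^ 2 ≤
        E.card * ((x2 - x1) * (LVA.cc b θ R lm + δ)) := by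
  have hR0 : 0 ≤ R := by linarith
  set X := x2 - x1 with hX
  have hX0 : 0 < X := by rw [hX]; linarith
  set v : ℝ := (volume (ThB K B)).toReal / (2 * Real.pi) ^ rank K with hv
  have hv0 : 0 < v := div_pos (ThB_volume hB) (by positivity)
  set c := LVA.cc b θ R lm with hc
  obtain ⟨ε, hε, hε1, hεle⟩ := tc4b_eps (c := c) hv0 hX0 hδ
  obtain ⟨T, δ', hδ', hT1, hT2⟩ := exists_test κ hx hB hε
  obtain ⟨C, L1, hC, hL1, hgh⟩ := tc4b_gh κ T (R := R) hR0 hδ' hT1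
  obtain ⟨L2, hL2, hs1⟩ := sharp hκ T (lm := lm) hb hθ hθ2 hR hε
  obtain ⟨L3, hL3, hs2⟩ := sharp hκ T (lm := 0) hb hθ hθ2 hR one_pos
  obtain ⟨C5, hfc⟩ := family_count κ hB hε
  set D : ℝ := 2 * Real.pi * (|nrm κ T * LVA.cc b θ R 0| + 1) with hD
  have hD0 : 0 ≤ D := by positivity
  set ω : ℝ := (1 - ε) * v * (X * (δ / 2)) with hω
  have hω0 : 0 < ω := by
    have : 0 < 1 - ε := by linarith
    positivity
  set Kc : ℝ := (1 + 1 / ε) * (|lm| * C) ^ 2 * D with hKc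
  have hKc0 : 0 ≤ Kc := by positivity
  refine ⟨max (max L1 L2) (max L3 (max C5 (Kc / ω))), ?_, ?_⟩
  · exact hL1.trans ((le_max_left _ _).trans (le_max_left _ _))
  intro 𝔮 hq hq' L hL0 hL E hE
  have hLL1 : L1 ≤ L := (le_max_left _ _).trans ((le_max_left _ _).trans hL0)
  have hLL2 : L2 ≤ L := (le_max_right _ _).trans ((le_max_left _ _).trans hL0)
  have hLL3 : L3 ≤ L := (le_max_left _ _).trans ((le_max_right _ _).trans hL0)
  have hLL4 : C5 ≤ L := (le_max_left _ _).trans ((le_max_right _ _).trans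
    ((le_max_right _ _).trans hL0))
  have hLL5 : Kc / ω ≤ L := (le_max_right _ _).trans ((le_max_right _ _).trans
    ((le_max_right _ _).trans hL0))
  have hL1' : 1 ≤ L := hL1.trans hLL1
  have hLpos : 0 < L := by linarith
  have hnorm : (0 : ℝ) < Ideal.absNorm 𝔮 := by
    have : Ideal.absNorm 𝔮 ≠ 0 := by rwa [Ne, Ideal.absNorm_eq_zero_iff]
    exact_mod_cast Nat.pos_of_ne_zero this
  have hCN : C5 ≤ Ideal.absNorm 𝔮 := by
    have h1 : (Ideal.absNorm 𝔮 : ℝ) = Real.exp L := by rw [hL, Real.exp_log hnorm]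
    rw [h1]
    have h2 := Real.add_one_le_exp L
    linarith
  obtain ⟨-, hcard⟩ := hfc 𝔮 hCN
  have hEF : FamB 𝔮 κ B = (E : Set (HDat 𝔮)) := by
    ext t
    rw [Finset.mem_coe, hE t]
  rw [hEF, Set.ncard_coe_finset] at hcard
  have hEK : ∀ t ∈ E, t ∈ FamK 𝔮 κ := fun t ht => ((hE t).1 ht).1
  set σ : ℝ := 1 / 2 - R / L with hσ
  have hg := hgh L hLL1
  have hσ0 : 0 < σ := by
    rw [hσ]
    linarith [hg.1]
  -- the two transforms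
  let fA : HDat 𝔮 → ℝ → ℝ := fun t τ => ‖(Xf κ t.lam T t.ψ (σ + τ * I) +
    ((lm / L : ℝ) : ℂ) * deriv (Xf κ t.lam T t.ψ) (σ + τ * I)) *
      Mf t.ψ (SM 𝔮 θ L) (aM 𝔮 b θ R L) (σ + τ * I)‖ ^ 2
  let fB : HDat 𝔮 → ℝ → ℝ := fun t τ => ‖(Xf κ t.lam T t.ψ (σ + τ * I) +
    ((0 / L : ℝ) : ℂ) * deriv (Xf κ t.lam T t.ψ) (σ + τ * I)) *
      Mf t.ψ (SM 𝔮 θ L) (aM 𝔮 b θ R L) (σ + τ * I)‖ ^ 2
  set x : ℝ := |lm| * C / L with hxd
  have hkey : ∀ t ∈ E, ∫ τ in x1..x2, ‖(ldat b θ R L t).V lm L (pt σ τ) *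
      (ldat b θ R L t).M (pt σ τ)‖ ^ 2 ≤
      (1 + ε) * (∫ τ, fA t τ) + ((1 + 1 / ε) * x ^ 2) * ∫ τ, fB t τ := by
    intro t ht
    have htB := (hE t).1 ht
    obtain ⟨hHD, hk⟩ := famB_hd hq hq' hκ htB
    have hp1 := EM_planch hHD T (SM 𝔮 θ L) (aM 𝔮 b θ R L) lm L σ
    have hp2 := EM_planch hHD T (SM 𝔮 θ L) (aM 𝔮 b θ R L) 0 L σ
    refine tc4b_int hx.le (fun τ => by positivity) hp1.2.1 hp2.2.1 (fun τ => by positivity)
      (fun τ => by positivity) (by positivity) (by positivity) ?_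
    intro τ hτ
    obtain ⟨hg1, hg2⟩ := hg.2 t.lam htB.1.2.2.2 htB.2 τ hτ
    have hre : (pt σ τ).re = σ := by simp [pt]
    have hVM := (VM_le hHD hk T b θ R lm L hL1' (s := pt σ τ) (by rw [hre]; exact hσ0)
      hg1 hg2).2.1
    have h3 := tc4b_sq (norm_nonneg _) hε hVM
    refine h3.trans (le_of_eq ?_)
    have hfB : fB t τ = ‖Xf κ t.lam T t.ψ (pt σ τ) *
        Mf t.ψ (SM 𝔮 θ L) (aM 𝔮 b θ R L) (pt σ τ)‖ ^ 2 := by
      show ‖(Xf κ t.lam T t.ψ (pt σ τ) +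
        ((0 / L : ℝ) : ℂ) * deriv (Xf κ t.lam T t.ψ) (pt σ τ)) *
          Mf t.ψ (SM 𝔮 θ L) (aM 𝔮 b θ R L) (pt σ τ)‖ ^ 2 = _
      rw [zero_div, Complex.ofReal_zero, zero_mul, add_zero]
    have hfA : fA t τ = ‖(Xf κ t.lam T t.ψ (pt σ τ) +
        ((lm / L : ℝ) : ℂ) * deriv (Xf κ t.lam T t.ψ) (pt σ τ)) *
          Mf t.ψ (SM 𝔮 θ L) (aM 𝔮 b θ R L) (pt σ τ)‖ ^ 2 := rfl
    rw [hfA, hfB, hxd]
    ring
  have hsum := Finset.sum_le_sum hkey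
  rw [Finset.sum_add_distrib, ← Finset.mul_sum, ← Finset.mul_sum] at hsum
  have hA : ∑ t ∈ E, ∫ τ, fA t τ ≤ hT K * nprim 𝔮 * ((X * v + ε) * c + 2 * Real.pi * ε) := by
    have h1 : ∑ t ∈ E, ∫ τ, fA t τ = 2 * Real.pi * ∑ t ∈ E, ∫ u : ℝ,
        ‖EM κ t.lam T t.ψ (SM 𝔮 θ L) (aM 𝔮 b θ R L) lm L u‖ ^ 2 *
          Real.exp ((2 * (1 / 2 - R / L) - 1) * u) := by
      rw [Finset.mul_sum]
      refine Finset.sum_congr rfl fun t ht => ?_
      obtain ⟨hHD, hk⟩ := famB_hd hq hq' hκ ((hE t).1 ht)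
      exact (EM_planch hHD T (SM 𝔮 θ L) (aM 𝔮 b θ R L) lm L σ).2.2
    rw [h1]
    have h2 := hs1 𝔮 hq hq' L hLL2 hL E hEK
    have hH : 0 ≤ hT K * nprim 𝔮 := by
      unfold hT nprim
      positivity
    have h3 : 2 * Real.pi * (nrm κ T * c + ε) ≤ (X * v + ε) * c + 2 * Real.pi * ε := by
      have h4 : 2 * Real.pi * nrm κ T ≤ X * v + ε := by
        have h5 : X * v = X * (volume (ThB K B)).toReal / (2 * Real.pi) ^ rank K := by
          rw [hv, mul_div_assoc]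
        rw [h5]
        exact hT2
      nlinarith
    calc 2 * Real.pi * ∑ t ∈ E, ∫ u : ℝ,
        ‖EM κ t.lam T t.ψ (SM 𝔮 θ L) (aM 𝔮 b θ R L) lm L u‖ ^ 2 *
          Real.exp ((2 * (1 / 2 - R / L) - 1) * u)
        ≤ 2 * Real.pi * (hT K * nprim 𝔮 * (nrm κ T * c + ε)) :=
          mul_le_mul_of_nonneg_left h2 (by positivity)
      _ = hT K * nprim 𝔮 * (2 * Real.pi * (nrm κ T * c + ε)) := by ring
      _ ≤ _ := mul_le_mul_of_nonneg_left h3 hH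
  have hH : 0 ≤ hT K * nprim 𝔮 := by
    unfold hT nprim
    positivity
  have hBs : ∑ t ∈ E, ∫ τ, fB t τ ≤ hT K * nprim 𝔮 * D := by
    have h1 : ∑ t ∈ E, ∫ τ, fB t τ = 2 * Real.pi * ∑ t ∈ E, ∫ u : ℝ,
        ‖EM κ t.lam T t.ψ (SM 𝔮 θ L) (aM 𝔮 b θ R L) 0 L u‖ ^ 2 *
          Real.exp ((2 * (1 / 2 - R / L) - 1) * u) := by
      rw [Finset.mul_sum]
      refine Finset.sum_congr rfl fun t ht => ?_
      obtain ⟨hHD, hk⟩ := famB_hd hq hq' hκ ((hE t).1 ht)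
      exact (EM_planch hHD T (SM 𝔮 θ L) (aM 𝔮 b θ R L) 0 L σ).2.2
    rw [h1]
    have h2 := hs2 𝔮 hq hq' L hLL3 hL E hEK
    calc 2 * Real.pi * ∑ t ∈ E, ∫ u : ℝ,
        ‖EM κ t.lam T t.ψ (SM 𝔮 θ L) (aM 𝔮 b θ R L) 0 L u‖ ^ 2 *
          Real.exp ((2 * (1 / 2 - R / L) - 1) * u)
        ≤ 2 * Real.pi * (hT K * nprim 𝔮 * (nrm κ T * LVA.cc b θ R 0 + 1)) :=
          mul_le_mul_of_nonneg_left h2 (by positivity)
      _ ≤ 2 * Real.pi * (hT K * nprim 𝔮 * (|nrm κ T * LVA.cc b θ R 0| + 1)) := by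
          refine mul_le_mul_of_nonneg_left (mul_le_mul_of_nonneg_left ?_ hH) (by positivity)
          linarith [le_abs_self (nrm κ T * LVA.cc b θ R 0)]
      _ = _ := by rw [hD]; ring
  have hxK : (1 + 1 / ε) * x ^ 2 * D ≤ ω := by
    have h1 : x ^ 2 ≤ (|lm| * C) ^ 2 / L := by
      rw [hxd, div_pow]
      refine div_le_div_of_nonneg_left (by positivity) hLpos ?_
      nlinarith
    have h2 : (1 + 1 / ε) * x ^ 2 * D ≤ Kc / L := by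
      calc (1 + 1 / ε) * x ^ 2 * D ≤ (1 + 1 / ε) * ((|lm| * C) ^ 2 / L) * D :=
            mul_le_mul_of_nonneg_right (mul_le_mul_of_nonneg_left h1 (by positivity)) hD0
        _ = Kc / L := by rw [hKc]; ring
    refine h2.trans ?_
    rw [div_le_iff₀ hLpos]
    rw [div_le_iff₀ hω0] at hLL5
    linarith
  refine hsum.trans ?_
  have hfin : (1 + ε) * (∑ t ∈ E, ∫ τ, fA t τ) + (1 + 1 / ε) * x ^ 2 * ∑ t ∈ E, ∫ τ, fB t τ ≤
      hT K * nprim 𝔮 * ((1 - ε) * v * (X * (c + δ))) := by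
    calc (1 + ε) * (∑ t ∈ E, ∫ τ, fA t τ) + (1 + 1 / ε) * x ^ 2 * ∑ t ∈ E, ∫ τ, fB t τ
        ≤ (1 + ε) * (hT K * nprim 𝔮 * ((X * v + ε) * c + 2 * Real.pi * ε)) +
          (1 + 1 / ε) * x ^ 2 * (hT K * nprim 𝔮 * D) :=
          add_le_add (mul_le_mul_of_nonneg_left hA (by linarith))
            (mul_le_mul_of_nonneg_left hBs (by positivity))
      _ = hT K * nprim 𝔮 * ((1 + ε) * ((X * v + ε) * c + 2 * Real.pi * ε) +
          (1 + 1 / ε) * x ^ 2 * D) := by ring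
      _ ≤ hT K * nprim 𝔮 * ((1 - ε) * v * (X * (c + δ / 2)) + ω) :=
          mul_le_mul_of_nonneg_left (add_le_add hεle hxK) hH
      _ = _ := by rw [hω]; ring
  refine hfin.trans ?_
  have hXc : 0 ≤ X * (c + δ) := by positivity
  calc hT K * nprim 𝔮 * ((1 - ε) * v * (X * (c + δ)))
      = ((1 - ε) * (hT K * nprim 𝔮 * v)) * (X * (c + δ)) := by ring
    _ ≤ E.card * (X * (c + δ)) := mul_le_mul_of_nonneg_right hcard hXc


end Pool.Agent.LVK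

namespace Pool.Agent.LVK

theorem fam_sharp : type_of% @fam_sharp_pr := @fam_sharp_pr

end Pool.Agent.LVK
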