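import Pool.Agent.Lib_helper39.LVO.O2
import Pool.Agent.Lib_helper42.LVK.DefsT
import Pool.Agent.Lib_helper92.LVAF.All

/-!
# LVK part O: the data of one Hecke character satisfy the hypotheses of part Z
-/

namespace Pool.Agent.LVK

open NumberField NumberField.InfinitePlace NumberField.Units Complex MeasureTheory Filter Topology
open Pool.Agent.HZ Pool.Agent.AS Pool.Agent.KS Pool.Agent.NL
open scoped ENNReal

variable {K : Type} [Field K] [NumberField K]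

theorem o_hd {𝔮 : Ideal (𝓞 K)} (h𝔮 : 𝔮 ≠ ⊥) (h𝔮' : 𝔮 ≠ ⊤) {B : ℝ} {t : HDat 𝔮}
    (ht : t ∈ Fam 𝔮 B) : HD 𝔮 t.κ t.lam t.χ t.ψ :=
  ⟨ht.2.2.2.1, ht.2.2.1, h𝔮, h𝔮', ht.1, ht.2.1⟩

variable (K) in
theorem o_C0_spec : 0 < C0 K ∧ ∀ (κ : InfinitePlace K → ℤ) (lam : InfinitePlace K → ℝ) (s : ℂ),
    0 < s.re → ∫ u : ℝ, kint K (Gf κ lam) u * cexp (s * u) = C0 K * gam κ lam s :=
  ⟨(mellin_kint (K := K)).choose_spec.1, fun κ lam s hs =>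
    ((mellin_kint (K := K)).choose_spec.2 κ lam s hs).2⟩

theorem o_completed {𝔮 : Ideal (𝓞 K)} {κ : InfinitePlace K → ℤ} {lam : InfinitePlace K → ℝ}
    {χ : MulChar (𝓞 K ⧸ 𝔮) ℂ} {ψ : Ideal (𝓞 K) →* ℂ} (h : HD 𝔮 κ lam χ ψ) {Λ : ℂ → ℂ}
    (hΛ : IsCompleted κ lam ψ Λ) (s : ℂ) : LamD κ lam ψ s = C0 K * Λ s :=
  nzk_F_eq κ lam ψ (nzk_psi_le h.hecke) h.psi_bot (C0 K) (fun s hs => (o_C0_spec K).2 κ lam s hs)
    h.differentiable Λ hΛ s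

/-- `LamD / C0` is the completed L-function -/
theorem o_isCompleted {𝔮 : Ideal (𝓞 K)} {κ : InfinitePlace K → ℤ} {lam : InfinitePlace K → ℝ}
    {χ : MulChar (𝓞 K ⧸ 𝔮) ℂ} {ψ : Ideal (𝓞 K) →* ℂ} (h : HD 𝔮 κ lam χ ψ) :
    IsCompleted κ lam ψ (fun s => (C0 K : ℂ)⁻¹ * LamD κ lam ψ s) := by
  have hC : (C0 K : ℂ) ≠ 0 := by exact_mod_cast (o_C0_spec K).1.ne'
  refine ⟨h.differentiable.const_mul _, fun s hs => ?_⟩
  have h1 : LamD κ lam ψ s = C0 K * gam κ lam s *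
      ∑' 𝔞 : Ideal (𝓞 K), ψ 𝔞 * (Ideal.absNorm 𝔞 : ℂ) ^ (-s) := by
    unfold LamD
    rw [mellin_Dser (nzk_psi_le h.hecke) h.psi_bot hs, (o_C0_spec K).2 κ lam s (by linarith)]
  show (C0 K : ℂ)⁻¹ * LamD κ lam ψ s = _
  rw [h1, mul_assoc, inv_mul_cancel_left₀ hC]

theorem o_rt {𝔮 : Ideal (𝓞 K)} {t : HDat 𝔮} (h : HD 𝔮 t.κ t.lam t.χ t.ψ) : ‖rt t‖ = 1 ∧
    ∀ s : ℂ, LamD t.κ t.lam t.ψ s = rt t ^ 2 *
      cexp (-((s - 1 / 2) * Real.log (cond 𝔮))) *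
      starRingEnd ℂ (LamD t.κ t.lam t.ψ (1 - starRingEnd ℂ s)) := by
  have hex : ∃ ω : ℂ, ‖ω‖ = 1 ∧ ∀ s : ℂ, LamD t.κ t.lam t.ψ s = ω ^ 2 *
      cexp (-((s - 1 / 2) * Real.log (cond 𝔮))) *
      starRingEnd ℂ (LamD t.κ t.lam t.ψ (1 - starRingEnd ℂ s)) := by
    obtain ⟨Ω, hΩ, hfe⟩ := h.fe
    obtain ⟨v, hv⟩ := IsAlgClosed.exists_pow_nat_eq Ω (n := 2) (by norm_num)
    have hv1 : ‖v‖ = 1 := by
      have h1 : ‖v‖ ^ 2 = 1 := by rw [← norm_pow, hv, hΩ]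
      exact (pow_eq_one_iff_of_nonneg (norm_nonneg v) (by norm_num)).1 h1
    refine ⟨v, hv1, fun s => ?_⟩
    rw [hv]
    exact nzk_F_fe t.κ t.lam t.ψ Ω (Real.log (cond 𝔮)) hfe s
  unfold rt
  rw [dif_pos hex]
  exact hex.choose_spec

theorem o_rt_ne {𝔮 : Ideal (𝓞 K)} {t : HDat 𝔮} (h : HD 𝔮 t.κ t.lam t.χ t.ψ) : rt t ≠ 0 := by
  intro h0
  have := (o_rt h).1
  rw [h0, norm_zero] at this
  exact zero_ne_one this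

theorem o_cf {𝔮 : Ideal (𝓞 K)} (t : HDat 𝔮) :
    cf t = ofac (rt t)⁻¹ (Real.log (cond 𝔮)) := by
  funext s
  unfold cf ofac
  congr 2
  push_cast
  ring

theorem o_xi_sym {𝔮 : Ideal (𝓞 K)} {t : HDat 𝔮} (h : HD 𝔮 t.κ t.lam t.χ t.ψ) (s : ℂ) :
    cf t (1 - starRingEnd ℂ s) * ((C0 K : ℂ)⁻¹ * LamD t.κ t.lam t.ψ (1 - starRingEnd ℂ s)) =
      starRingEnd ℂ (cf t s * ((C0 K : ℂ)⁻¹ * LamD t.κ t.lam t.ψ s)) := by
  obtain ⟨hω, hfe⟩ := o_rt h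
  have hω0 := o_rt_ne h
  set ω := rt t with hωdef
  set ℓ := Real.log (cond 𝔮) with hℓ
  have hvv : ω * starRingEnd ℂ ω = 1 := by
    rw [Complex.mul_conj, Complex.normSq_eq_norm_sq, hω]
    norm_num
  have hinv : starRingEnd ℂ ω⁻¹ = ω := by
    rw [map_inv₀]
    exact inv_eq_of_mul_eq_one_left hvv
  have h1 := hfe (1 - starRingEnd ℂ s)
  have h2 : 1 - starRingEnd ℂ (1 - starRingEnd ℂ s) = s := by
    rw [map_sub, map_one, Complex.conj_conj]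
    ring
  rw [h2] at h1
  rw [h1]
  unfold cf
  rw [← hωdef, ← hℓ, map_mul, map_mul, map_mul, hinv, ← Complex.exp_conj, map_inv₀,
    Complex.conj_ofReal]
  have h3 : starRingEnd ℂ ((s - 1 / 2) * (ℓ : ℝ) / 2) =
      (starRingEnd ℂ s - 1 / 2) * (ℓ : ℝ) / 2 := by
    simp only [map_mul, map_sub, map_one, map_div₀, Complex.conj_ofReal, map_ofNat]
  have h4 : cexp (-((1 - starRingEnd ℂ s - 1 / 2) * (ℓ : ℝ))) =
      cexp ((starRingEnd ℂ s - 1 / 2) * (ℓ : ℝ) / 2) *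
        cexp ((starRingEnd ℂ s - 1 / 2) * (ℓ : ℝ) / 2) := by
    rw [← Complex.exp_add]
    congr 1
    ring
  have h5 : cexp ((1 - starRingEnd ℂ s - 1 / 2) * (ℓ : ℝ) / 2) *
      cexp ((starRingEnd ℂ s - 1 / 2) * (ℓ : ℝ) / 2) = 1 := by
    rw [← Complex.exp_add, ← Complex.exp_zero]
    congr 1
    ring
  rw [h3, h4]
  calc ω⁻¹ * cexp ((1 - starRingEnd ℂ s - 1 / 2) * (ℓ : ℝ) / 2) * ((C0 K : ℂ)⁻¹ *
      (ω ^ 2 * (cexp ((starRingEnd ℂ s - 1 / 2) * (ℓ : ℝ) / 2) *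
        cexp ((starRingEnd ℂ s - 1 / 2) * (ℓ : ℝ) / 2)) *
        starRingEnd ℂ (LamD t.κ t.lam t.ψ s))) =
      (ω⁻¹ * ω) * (cexp ((1 - starRingEnd ℂ s - 1 / 2) * (ℓ : ℝ) / 2) *
      cexp ((starRingEnd ℂ s - 1 / 2) * (ℓ : ℝ) / 2)) *
      (ω * cexp ((starRingEnd ℂ s - 1 / 2) * (ℓ : ℝ) / 2) * ((C0 K : ℂ)⁻¹ *
        starRingEnd ℂ (LamD t.κ t.lam t.ψ s))) := by ring
    _ = _ := by
      rw [h5, inv_mul_cancel₀ hω0]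
      ring

/-- the L-function is the Dirichlet series -/
theorem o_Lf {𝔮 : Ideal (𝓞 K)} {t : HDat 𝔮} (h : HD 𝔮 t.κ t.lam t.χ t.ψ) {s : ℂ}
    (hs : 1 < s.re) : Lf t.κ t.lam t.ψ s =
      ∑' g : PK K →₀ ℕ, t.ψ (IK g) * (nm (NK K) g : ℂ) ^ (-s) := by
  have hC : (C0 K : ℂ) ≠ 0 := by exact_mod_cast (o_C0_spec K).1.ne'
  have hg := nzk_gam_ne t.κ t.lam (s := s) (by linarith)
  have h1 := (o_isCompleted h).2 s hs
  rw [nzk_L_eq h.psi_bot] at h1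
  unfold Lf
  have h2 : LamD t.κ t.lam t.ψ s = C0 K * (gam t.κ t.lam s * ∑' g, nzk_X t.ψ s g) := by
    rw [← h1, mul_inv_cancel_left₀ hC]
  rw [h2, ← mul_assoc, mul_div_assoc, mul_comm, div_mul_cancel₀ _ (mul_ne_zero hC hg)]
  rfl

end Pool.Agent.LVK
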