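import Pool.Agent.Lib_helper39.LVX.O3

/-!
# LVK part O: the mollifier far to the right
-/

namespace Pool.Agent.LVK

open NumberField NumberField.InfinitePlace NumberField.Units Complex MeasureTheory Filter Topology
open Pool.Agent.HZ Pool.Agent.AS Pool.Agent.KS Pool.Agent.NL
open scoped ENNReal

variable {K : Type} [Field K] [NumberField K]

theorem o_sq_apply (m : Finset (PK K)) (p : PK K) [Decidable (p ∈ m)] :
    sq m p = if p ∈ m then 1 else 0 := by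
  classical
  unfold sq
  rw [Finsupp.finsetSum_apply]
  simp only [Finsupp.single_apply]
  rw [Finset.sum_ite_eq' m p (fun _ => 1)]
  congr

theorem o_sq_support (m : Finset (PK K)) : (sq m).support = m := by
  classical
  ext p
  rw [Finsupp.mem_support_iff, o_sq_apply]
  split_ifs with h
  · simp [h]
  · simp [h]

theorem o_nm_sq (m : Finset (PK K)) : nm (NK K) (sq m) = ∏ p ∈ m, NK K p := by
  classical
  unfold sq
  induction m using Finset.induction_on with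
  | empty => rw [Finset.sum_empty, Finset.prod_empty, nm_zero]
  | insert p m hp ih => rw [Finset.sum_insert hp, Finset.prod_insert hp, nm_add, ih, nm_single,
      pow_one]

theorem o_ph (m : Finset (PK K)) : (ph (NK K) m)⁻¹ ≤ ∏ p ∈ m, (NK K p : ℝ) := by
  unfold ph
  rw [← Finset.prod_inv_distrib]
  apply Finset.prod_le_prod
  · intro p _
    have h2 : (2 : ℝ) ≤ NK K p := by exact_mod_cast two_le_NK p
    have h3 : ((NK K p : ℝ))⁻¹ ≤ 1 / 2 := by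
      rw [inv_le_comm₀ (by linarith) (by norm_num)]
      linarith
    exact inv_nonneg.2 (by linarith)
  · intro p _
    have h2 : (2 : ℝ) ≤ NK K p := by exact_mod_cast two_le_NK p
    have h3 : ((NK K p : ℝ))⁻¹ ≤ 1 / 2 := by
      rw [inv_le_comm₀ (by linarith) (by norm_num)]
      linarith
    rw [inv_le_comm₀ (by linarith) (by linarith)]
    linarith

theorem o_aM_abs {𝔮 : Ideal (𝓞 K)} {b θ R L : ℝ} (hb : |b| ≤ 1 / 2) (hθ : 0 < θ) (hR : 0 ≤ R)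
    (hL : 0 < L) {g : PK K →₀ ℕ} (hg : g ∈ SM 𝔮 θ L) :
    |aM 𝔮 b θ R L g| ≤ 3 * (nm (NK K) g : ℝ) := by
  classical
  unfold SM at hg
  rw [Finset.mem_image] at hg
  obtain ⟨m, hm, rfl⟩ := hg
  unfold aM LVA.am
  rw [o_sq_support, abs_mul, abs_of_pos (Real.exp_pos _), o_nm_sq]
  have h1 := LVA.lam_abs (good_NK K) hb (mul_pos hθ hL) (QK 𝔮) m
  have h2 : 0 ≤ LVA.lg (NK K) m := by
    unfold LVA.lg
    apply Finset.sum_nonneg
    intro p _
    apply Real.log_nonneg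
    exact_mod_cast (by norm_num : 1 ≤ 2).trans (two_le_NK p)
  have h3 : Real.exp (-(R / L) * LVA.lg (NK K) m) ≤ 1 := by
    rw [Real.exp_le_one_iff]
    have := mul_nonneg (div_nonneg hR hL.le) h2
    linarith
  calc |LVA.lam (NK K) b (θ * L) (QK 𝔮) m| * Real.exp (-(R / L) * LVA.lg (NK K) m) ≤
      |LVA.lam (NK K) b (θ * L) (QK 𝔮) m| := mul_le_of_le_one_right (abs_nonneg _) h3
    _ ≤ 3 * (ph (NK K) m)⁻¹ := h1
    _ ≤ 3 * ∏ p ∈ m, (NK K p : ℝ) := mul_le_mul_of_nonneg_left (o_ph m) (by norm_num)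
    _ = _ := by push_cast; rfl

theorem o_zero_mem {𝔮 : Ideal (𝓞 K)} {θ L : ℝ} (hθ : 0 < θ) (hL : 0 < L) :
    (0 : PK K →₀ ℕ) ∈ SM 𝔮 θ L := by
  classical
  unfold SM
  rw [Finset.mem_image]
  refine ⟨∅, ?_, by unfold sq; rw [Finset.sum_empty]⟩
  unfold LVA.SF
  rw [Finset.mem_filter]
  refine ⟨Finset.empty_mem_powerset _, Finset.disjoint_empty_left _, ?_⟩
  unfold LVA.lg
  rw [Finset.sum_empty]
  positivity

theorem o_aM_zero {𝔮 : Ideal (𝓞 K)} {b θ R L : ℝ} (hb : |b| ≤ 1 / 2) (hθ : 0 < θ)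
    (hL : 0 < L) : aM 𝔮 b θ R L 0 = 1 := by
  unfold aM LVA.am
  rw [Finsupp.support_zero, LVA.lam_empty (good_NK K) hb (mul_pos hθ hL)]
  unfold LVA.lg
  simp

theorem o_Mf (ψ : Ideal (𝓞 K) →* ℂ) (S : Finset (PK K →₀ ℕ)) (a : (PK K →₀ ℕ) → ℝ) (s : ℂ) :
    Mf ψ S a s = ∑' g : PK K →₀ ℕ, (open scoped Classical in
      if g ∈ S then (a g : ℂ) * ψ (IK g) else 0) * (nm (NK K) g : ℂ) ^ (-s) := by
  classical
  rw [tsum_eq_sum (s := S)]
  · unfold Mf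
    refine Finset.sum_congr rfl fun g hg => ?_
    have hpos := nm_pos two_le_NK g
    have h1 : ((nm (NK K) g : ℕ) : ℂ) ≠ 0 := by exact_mod_cast hpos.ne'
    rw [if_pos hg, Complex.cpow_def_of_ne_zero h1]
    congr 2
    unfold lK
    rw [← Complex.ofReal_natCast, ← Complex.ofReal_log (Nat.cast_nonneg _)]
    ring
  · intro g hg
    rw [if_neg hg, zero_mul]

theorem o_right (K : Type) [Field K] [NumberField K] : ∃ s2 : ℝ, 2 ≤ s2 ∧
    (∀ ψ : Ideal (𝓞 K) →* ℂ, (∀ 𝔞, ‖ψ 𝔞‖ ≤ 1) → ψ ⊥ = 0 → ∀ s : ℂ, s2 - 1 ≤ s.re →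
      ‖(∑' 𝔞 : Ideal (𝓞 K), ψ 𝔞 * (Ideal.absNorm 𝔞 : ℂ) ^ (-s)) - 1‖ ≤ 1 / 16) ∧
    ∀ (𝔮 : Ideal (𝓞 K)) (b θ R L : ℝ), |b| ≤ 1 / 2 → 0 < θ → 0 ≤ R → 0 < L →
      ∀ ψ : Ideal (𝓞 K) →* ℂ, (∀ 𝔞, ‖ψ 𝔞‖ ≤ 1) → ∀ s : ℂ, s2 - 1 ≤ s.re →
        ‖Mf ψ (SM 𝔮 θ L) (aM 𝔮 b θ R L) s - 1‖ ≤ 1 / 16 := by
  classical
  obtain ⟨S, hS, h⟩ := o_far K
  have hnm : ∀ g : PK K →₀ ℕ, (1 : ℝ) ≤ nm (NK K) g := fun g => by
    exact_mod_cast nm_pos two_le_NK g
  refine ⟨S, by linarith, ?_, ?_⟩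
  · intro ψ hψ hψ0 s hs
    rw [nzk_L_eq hψ0]
    refine h (fun g => ψ (IK g)) ?_ (fun g => ?_) s hs
    · show ψ (IK 0) = 1
      rw [IK_zero, ← Ideal.one_eq_top, map_one]
    · exact (hψ _).trans (by linarith [hnm g])
  · intro 𝔮 b θ R L hb hθ hR hL ψ hψ s hs
    rw [o_Mf]
    refine h _ ?_ (fun g => ?_) s hs
    · rw [if_pos (o_zero_mem hθ hL), o_aM_zero hb hθ hL, IK_zero, ← Ideal.one_eq_top, map_one]
      simp
    · split_ifs with hg
      · rw [norm_mul, Complex.norm_real, Real.norm_eq_abs]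
        exact (mul_le_of_le_one_right (abs_nonneg _) (hψ _)).trans (o_aM_abs hb hθ hR hL hg)
      · rw [norm_zero]
        linarith [hnm g]

end Pool.Agent.LVK
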