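import Pool.Agent.Lib_helper39.LVX.TC1
import Pool.Agent.Lib_helper39.LVX.K_TC4A
import Pool.Agent.Lib_helper39.LVX.K_TC4B
import Pool.Agent.Lib_helper39.LVZ.TPA

/-!
# LVK part T, block TC5: the theorem for fixed `κ`
-/

namespace Pool.Agent.LVK

open NumberField NumberField.InfinitePlace NumberField.Units Complex MeasureTheory Filter Topology
open Pool.Agent.HZ Pool.Agent.AS Pool.Agent.KS
open scoped ENNReal

variable {K : Type} [Field K] [NumberField K]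

theorem tc5_nat (F : ℂ → ℂ) (z : ℂ) : analyticOrderNatAt F z = 1 ↔ analyticOrderAt F z = 1 := by
  unfold analyticOrderNatAt
  cases h : analyticOrderAt F z with
  | top => simp
  | coe n => simp

theorem tc5_simp {Λ e : ℂ → ℂ} (hΛ : Differentiable ℂ Λ) (he : Differentiable ℂ e)
    (he0 : ∀ s, e s ≠ 0) (a b : ℝ) :
    simpZ (fun s => e s * Λ s) a b = simpleCritical Λ a b := by
  unfold simpZ simpleCritical
  congr 2
  ext t
  simp only [Set.mem_setOf_eq]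
  rw [o_ord hΛ he he0, tc5_nat]

theorem tc5_all {Λ e : ℂ → ℂ} (hΛ : Differentiable ℂ Λ) (he : Differentiable ℂ e)
    (he0 : ∀ s, e s ≠ 0) (a b : ℝ) :
    allZ (fun s => e s * Λ s) a b = allZeros Λ a b := by
  unfold allZ allZeros
  refine tsum_congr fun ρ => ?_
  rw [o_ord hΛ he he0]

/-- the zeros of the function of part Z are those of the completed L-function -/
theorem ldat_zeros {𝔮 : Ideal (𝓞 K)} {t : HDat 𝔮} (h : HD 𝔮 t.κ t.lam t.χ t.ψ) (b θ R L : ℝ)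
    {Λ : ℂ → ℂ} (hΛ : IsCompleted t.κ t.lam t.ψ Λ) (x1 x2 : ℝ) :
    simpZ (ldat b θ R L t).ξ x1 x2 = simpleCritical Λ x1 x2 ∧
    allZ (ldat b θ R L t).ξ x1 x2 = allZeros Λ x1 x2 := by
  have hC0 : (C0 K : ℂ) ≠ 0 := by exact_mod_cast (o_C0_spec K).1.ne'
  have hrt : (rt t)⁻¹ ≠ 0 := inv_ne_zero (o_rt_ne h)
  have hcfd : Differentiable ℂ (cf t) := by
    rw [o_cf]
    exact ofac_diff _ _
  have hcf0 : ∀ s, cf t s ≠ 0 := by
    intro s
    rw [o_cf]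
    exact ofac_ne hrt _ _
  have e1 : (ldat b θ R L t).ξ = fun s => cf t s * Λ s := by
    funext s
    show cf t s * ((C0 K : ℂ)⁻¹ * LamD t.κ t.lam t.ψ s) = cf t s * Λ s
    rw [o_completed h hΛ, inv_mul_cancel_left₀ hC0]
  rw [e1]
  exact ⟨tc5_simp hΛ.1 hcfd hcf0 _ _, tc5_all hΛ.1 hcfd hcf0 _ _⟩

theorem per_kappa_pr {κ : InfinitePlace K → ℤ}
    (hκ : ∀ w : InfinitePlace K, w.IsReal → κ w = 0 ∨ κ w = 1) {x1 x2 B ε : ℝ}
    (hB : 0 < B) (hx : x1 < x2) (hε : 0 < ε) :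
    ∃ C : ℝ, ∀ 𝔮 : Ideal (𝓞 K), C ≤ Ideal.absNorm 𝔮 → ∀ E : Finset (HDat 𝔮),
      (∀ t, t ∈ E ↔ t ∈ FamB 𝔮 κ B) → ∀ Λ : HDat 𝔮 → ℂ → ℂ,
      (∀ t ∈ E, IsCompleted t.κ t.lam t.ψ (Λ t)) →
      ENNReal.ofReal (E.card * ((1 - Real.log (LVA.cc (-28 / 125) (4999 / 10000) (31 / 25)
        (26 / 25)) / (31 / 25) - ε) *
        (Real.log (Ideal.absNorm 𝔮) / (2 * Real.pi)) * (x2 - x1))) ≤
        ∑ t ∈ E, simpleCritical (Λ t) x1 x2 ∧
      ∑ t ∈ E, allZeros (Λ t) x1 x2 ≤ ENNReal.ofReal (E.card * ((1 + ε) *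
        (Real.log (Ideal.absNorm 𝔮) / (2 * Real.pi)) * (x2 - x1))) := by
  classical
  have hb : |(-28 / 125 : ℝ)| ≤ 1 / 2 := by
    rw [abs_le]
    constructor <;> norm_num
  have hccn := LVA.cc_num
  have hcc : 0 < LVA.cc (-28 / 125) (4999 / 10000) (31 / 25) (26 / 25) := by
    have := hccn.1
    linarith
  obtain ⟨s2, hs2, hr1, hr2⟩ := right_line K
  set T₀ : ℝ := |x1| + |x2| + 2 * s2 + 3 with hT₀
  obtain ⟨C0', hC0', hok⟩ := ldat_ok hκ hB hb (θ := 4999 / 10000) (by norm_num)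
    (R := 31 / 25) (by norm_num) hs2 hr1 hr2 T₀
  obtain ⟨C1, hC1, hcr⟩ := fam_crude hκ (b := -28 / 125) (θ := 4999 / 10000) (R := 31 / 25)
    (lm := 26 / 25) (s2 := s2) (T₀ := T₀) (B := B) hb (by norm_num) (by norm_num) (by norm_num)
    hs2 hB
  obtain ⟨δ, hδ, ℒ₀, hz⟩ := z_top (x1 := x1) (x2 := x2) (R := 31 / 25) (lam := 26 / 25)
    (C0 := C0') (C1 := C1) (s2 := s2) (T := T₀)
    (cc := LVA.cc (-28 / 125) (4999 / 10000) (31 / 25) (26 / 25)) (ε := ε) hx (by norm_num)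
    (by norm_num) (by norm_num) hC0' hC1 hs2 le_rfl hcc hε
  obtain ⟨L₁, hL₁, hcr'⟩ := hcr δ hδ
  obtain ⟨L₂, hL₂, hsh⟩ := fam_sharp hκ (b := -28 / 125) (θ := 4999 / 10000) (R := 31 / 25)
    (lm := 26 / 25) (x1 := x1) (x2 := x2) (B := B) (δ := δ) hb (by norm_num) (by norm_num)
    (by norm_num) hB hx hcc hδ
  set L₀ : ℝ := max (max L₁ L₂) (max ℒ₀ 1) with hL₀
  refine ⟨Real.exp L₀, ?_⟩
  intro 𝔮 hN E hE Λ hΛ
  have hN0 : (0 : ℝ) < Ideal.absNorm 𝔮 := (Real.exp_pos _).trans_le hN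
  have hLL : L₀ ≤ Real.log (Ideal.absNorm 𝔮) := by
    rwa [Real.le_log_iff_exp_le hN0]
  set L : ℝ := Real.log (Ideal.absNorm 𝔮) with hL
  have hL1 : 1 ≤ L := ((le_max_right _ _).trans (le_max_right _ _)).trans hLL
  have h𝔮 : 𝔮 ≠ ⊥ := by
    rintro rfl
    rw [Ideal.absNorm_bot] at hN0
    simp at hN0
  have h𝔮' : 𝔮 ≠ ⊤ := by
    rintro rfl
    rw [hL, Ideal.absNorm_top] at hL1
    simp at hL1
    linarith
  have hE1 : L₁ ≤ L := ((le_max_left _ _).trans (le_max_left _ _)).trans hLL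
  have hE2 : L₂ ≤ L := ((le_max_right _ _).trans (le_max_left _ _)).trans hLL
  have hE3 : ℒ₀ ≤ L := ((le_max_left _ _).trans (le_max_right _ _)).trans hLL
  have hcr2 := hcr' 𝔮 h𝔮 h𝔮' L hE1 hL E hE
  have hsh2 := hsh 𝔮 h𝔮 h𝔮' L hE2 hL E hE
  have hcard : (Fintype.card E : ℝ) = E.card := by rw [Fintype.card_coe]
  have hs2' : 0 < s2 := by linarith
  have hfam : FamOk (fun i : E => ldat (-28 / 125) (4999 / 10000) (31 / 25) L i.1) L (31 / 25)
      (26 / 25) C1 s2 T₀ x1 x2 (LVA.cc (-28 / 125) (4999 / 10000) (31 / 25) (26 / 25)) δ := by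
    refine ⟨?_, ?_, ?_, ?_, ?_⟩
    · intro σ h1 h2
      rw [hcard]
      have h3 := (hcr2 σ h2).1 h1
      rw [← Finset.sum_coe_sort] at h3
      exact h3
    · rw [hcard]
      rw [← Finset.sum_coe_sort] at hsh2
      exact hsh2
    · intro σ h1 h2
      rw [hcard]
      have h3 := ((hcr2 σ h2).2.1 h1).1
      rw [← Finset.sum_coe_sort] at h3
      exact h3
    · intro σ h1 h2
      rw [hcard]
      have h3 := ((hcr2 σ h2).2.1 h1).2
      rw [← Finset.sum_coe_sort] at h3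
      exact h3
    · intro σ h1 h2
      rw [hcard]
      have h3 := (hcr2 σ h2).2.2 h1
      rw [← Finset.sum_coe_sort] at h3
      exact h3
  have hmain := hz L hE3 E (fun i : E => ldat (-28 / 125) (4999 / 10000) (31 / 25) L i.1)
    (fun i => hok 𝔮 h𝔮 h𝔮' L (by linarith) hL i.1 ((hE i.1).1 i.2)) hfam
  rw [hcard] at hmain
  have hzer : ∀ i : E, simpZ (ldat (-28 / 125) (4999 / 10000) (31 / 25) L i.1).ξ x1 x2 =
      simpleCritical (Λ i.1) x1 x2 ∧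
      allZ (ldat (-28 / 125) (4999 / 10000) (31 / 25) L i.1).ξ x1 x2 =
      allZeros (Λ i.1) x1 x2 := by
    intro i
    obtain ⟨hd', hk⟩ := famB_hd_pr h𝔮 h𝔮' hκ ((hE i.1).1 i.2)
    exact ldat_zeros (hk.symm ▸ hd') _ _ _ _ (hΛ i.1 i.2) x1 x2
  simp only [hzer] at hmain
  rw [Finset.sum_coe_sort E (fun t => simpleCritical (Λ t) x1 x2),
    Finset.sum_coe_sort E (fun t => allZeros (Λ t) x1 x2)] at hmain
  exact hmain

end Pool.Agent.LVK

namespace Pool.Agent.LVK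

theorem per_kappa : type_of% @per_kappa_pr := @per_kappa_pr

end Pool.Agent.LVK
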