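import Pool.Agent.Lib_helper39.LVX.TC5
import Pool.Agent.Lib_helper39.LVX.K_FC5
import Pool.Agent.Lib_helper39.LVX.K_TF2

/-!
# LVK part T, block TC6: the theorem
-/

namespace Pool.Agent.LVK

open NumberField NumberField.InfinitePlace NumberField.Units Complex MeasureTheory Filter Topology
open Pool.Agent.HZ Pool.Agent.AS Pool.Agent.KS
open scoped ENNReal

variable {K : Type} [Field K] [NumberField K]

/-- the possible `κ` -/
def tc6K (K : Type) [Field K] [NumberField K] (B : ℝ) : Set (InfinitePlace K → ℤ) :=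
  {κ | (∀ w : InfinitePlace K, w.IsReal → κ w = 0 ∨ κ w = 1) ∧ ∀ w, |(κ w : ℝ)| ≤ B}

theorem tc6_finite (K : Type) [Field K] [NumberField K] (B : ℝ) : (tc6K K B).Finite := by
  have h1 : tc6K K B ⊆ Set.univ.pi fun _ : InfinitePlace K => Set.Icc (-⌈B⌉) ⌈B⌉ := by
    rintro κ ⟨-, hκ⟩ w -
    have h2 := abs_le.1 (hκ w)
    have h3 : (B : ℝ) ≤ ⌈B⌉ := Int.le_ceil B
    constructor
    · have : (-(⌈B⌉ : ℝ)) ≤ κ w := by linarith [h2.1]
      exact_mod_cast this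
    · have : (κ w : ℝ) ≤ ⌈B⌉ := by linarith [h2.2]
      exact_mod_cast this
  exact (Set.Finite.pi' fun _ => Set.finite_Icc _ _).subset (fun κ hκ w => h1 hκ w trivial)

theorem tc6_mem {𝔮 : Ideal (𝓞 K)} {B : ℝ} {t : HDat 𝔮} :
    t ∈ Fam 𝔮 B ↔ t.κ ∈ tc6K K B ∧ t ∈ FamB 𝔮 t.κ B := by
  unfold Fam FamB FamK tc6K
  simp only [Set.mem_setOf_eq]
  constructor
  · rintro ⟨h1, h2, h3, h4, h5⟩
    exact ⟨⟨h4, fun w => (h5 w).1⟩, ⟨trivial, h1, h2, h3⟩, fun w => (h5 w).2⟩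
  · rintro ⟨⟨h4, h5⟩, ⟨-, h1, h2, h3⟩, h6⟩
    exact ⟨h1, h2, h3, h4, fun w => ⟨h5 w, h6 w⟩⟩

theorem tc6_max {α : Type*} {S : Set α} (hS : S.Finite) (P : α → ℝ → Prop)
    (h : ∀ a ∈ S, ∃ C, ∀ x, C ≤ x → P a x) : ∃ C, ∀ x, C ≤ x → ∀ a ∈ S, P a x := by
  classical
  choose! C hC using h
  refine ⟨∑ a ∈ hS.toFinset, |C a|, fun x hx a ha => hC a ha x ?_⟩
  have h1 : |C a| ≤ ∑ a ∈ hS.toFinset, |C a| :=
    Finset.single_le_sum (f := fun a => |C a|) (fun _ _ => abs_nonneg _) (hS.mem_toFinset.2 ha)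
  exact (le_abs_self _).trans (h1.trans hx)

theorem main_pr {x1 x2 B : ℝ} (hB : 0 < B) (hx : x1 < x2) :
    ∃ C : ℝ, ∀ 𝔮 : Ideal (𝓞 K), C ≤ Ideal.absNorm 𝔮 →
      (Fam 𝔮 B).Finite ∧ ((∃ χ, IsPrim 𝔮 χ) → (Fam 𝔮 B).Nonempty) ∧
      (∀ t ∈ Fam 𝔮 B, ∃ Λ, IsCompleted t.κ t.lam t.ψ Λ) ∧
      ∀ Λ : HDat 𝔮 → ℂ → ℂ, (∀ t ∈ Fam 𝔮 B, IsCompleted t.κ t.lam t.ψ (Λ t)) →
        ENNReal.ofReal (355 / 1000) * ∑' t : Fam 𝔮 B, allZeros (Λ t) x1 x2 ≤
          ∑' t : Fam 𝔮 B, simpleCritical (Λ t) x1 x2 ∧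
        ENNReal.ofReal (355 / 1000 * ((Fam 𝔮 B).ncard * ((x2 - x1) *
          (Real.log (Ideal.absNorm 𝔮) / (2 * Real.pi))))) ≤
          ∑' t : Fam 𝔮 B, simpleCritical (Λ t) x1 x2 := by
  classical
  have hccn := (LVA.cc_num).2
  set k0 : ℝ := 1 - Real.log (LVA.cc (-28 / 125) (4999 / 10000) (31 / 25) (26 / 25)) / (31 / 25)
    with hk0
  set ε : ℝ := (k0 - 355 / 1000) / 2 with hε
  have hε0 : 0 < ε := by rw [hε]; linarith
  -- the constants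
  have hA := tc6_max (tc6_finite K B) (fun κ x => ∀ 𝔮 : Ideal (𝓞 K), x = Ideal.absNorm 𝔮 →
      ∀ E : Finset (HDat 𝔮), (∀ t, t ∈ E ↔ t ∈ FamB 𝔮 κ B) → ∀ Λ : HDat 𝔮 → ℂ → ℂ,
      (∀ t ∈ E, IsCompleted t.κ t.lam t.ψ (Λ t)) →
      ENNReal.ofReal (E.card * ((k0 - ε) *
        (Real.log (Ideal.absNorm 𝔮) / (2 * Real.pi)) * (x2 - x1))) ≤
        ∑ t ∈ E, simpleCritical (Λ t) x1 x2 ∧
      ∑ t ∈ E, allZeros (Λ t) x1 x2 ≤ ENNReal.ofReal (E.card * ((1 + ε) *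
        (Real.log (Ideal.absNorm 𝔮) / (2 * Real.pi)) * (x2 - x1)))) (by
    intro κ hκ
    obtain ⟨C, hC⟩ := per_kappa hκ.1 hB hx hε0
    exact ⟨C, fun x hx' 𝔮 h𝔮 E hE Λ hΛ => hC 𝔮 (h𝔮 ▸ hx') E hE Λ hΛ⟩)
  have hF := tc6_max (tc6_finite K B) (fun κ x => ∀ 𝔮 : Ideal (𝓞 K), x = Ideal.absNorm 𝔮 →
      (FamB 𝔮 κ B).Finite ∧ (1 - 1 / 2) * (hT K * nprim 𝔮 * ((volume (ThB K B)).toReal /
        (2 * Real.pi) ^ rank K)) ≤ ((FamB 𝔮 κ B).ncard : ℝ)) (by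
    intro κ _
    obtain ⟨C, hC⟩ := family_count (K := K) κ hB (ε := 1 / 2) (by norm_num)
    exact ⟨C, fun x hx' 𝔮 h𝔮 => hC 𝔮 (h𝔮 ▸ hx')⟩)
  obtain ⟨C1, hC1⟩ := hA
  obtain ⟨C2, hC2⟩ := hF
  refine ⟨max (max C1 C2) 2, ?_⟩
  intro 𝔮 hN
  have hN1 : C1 ≤ Ideal.absNorm 𝔮 := ((le_max_left _ _).trans (le_max_left _ _)).trans hN
  have hN2 : C2 ≤ Ideal.absNorm 𝔮 := ((le_max_right _ _).trans (le_max_left _ _)).trans hN
  have hN3 : (2 : ℝ) ≤ Ideal.absNorm 𝔮 := (le_max_right _ _).trans hN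
  have h𝔮 : 𝔮 ≠ ⊥ := by
    rintro rfl
    rw [Ideal.absNorm_bot] at hN3
    norm_num at hN3
  have h𝔮' : 𝔮 ≠ ⊤ := by
    rintro rfl
    rw [Ideal.absNorm_top] at hN3
    norm_num at hN3
  have hfin : ∀ κ ∈ tc6K K B, (FamB 𝔮 κ B).Finite := fun κ hκ => (hC2 _ hN2 κ hκ 𝔮 rfl).1
  have hU : Fam 𝔮 B = ⋃ κ ∈ tc6K K B, FamB 𝔮 κ B := by
    ext t
    simp only [Set.mem_iUnion, exists_prop]
    rw [tc6_mem]
    constructor
    · rintro ⟨h1, h2⟩
      exact ⟨t.κ, h1, h2⟩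
    · rintro ⟨κ, h1, h2⟩
      have h3 : t.κ = κ := h2.1.1
      rw [h3]
      exact ⟨h1, h2⟩
  have hFfin : (Fam 𝔮 B).Finite := by
    rw [hU]
    exact (tc6_finite K B).biUnion hfin
  refine ⟨hFfin, ?_, ?_, ?_⟩
  · rintro ⟨χ, hχ⟩
    have hk : (fun _ => 0 : InfinitePlace K → ℤ) ∈ tc6K K B :=
      ⟨fun w _ => Or.inl rfl, fun w => by simpa using hB.le⟩
    have h1 := (hC2 _ hN2 _ hk 𝔮 rfl).2
    have h2 : 0 < nprim 𝔮 := by
      haveI : Finite (𝓞 K ⧸ 𝔮) := Pool.Agent.KS.finite_quo h𝔮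
      unfold nprim
      haveI : Nonempty {χ : MulChar (𝓞 K ⧸ 𝔮) ℂ // IsPrim 𝔮 χ} := ⟨⟨χ, hχ⟩⟩
      exact_mod_cast Nat.card_pos
    have h3 : 0 < hT K := by
      unfold hT
      have h4 : 0 < classNumber K := Fintype.card_pos
      have h5 : 0 < torsionOrder K := torsionOrder_pos K
      positivity
    have h6 : 0 < (volume (ThB K B)).toReal := ThB_volume hB
    have h7 : (0 : ℝ) < ((FamB 𝔮 (fun _ => 0) B).ncard : ℝ) := by
      refine lt_of_lt_of_le ?_ h1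
      positivity
    have h8 : (FamB 𝔮 (fun _ => 0) B).Nonempty := by
      apply Set.nonempty_of_ncard_ne_zero
      intro h9
      rw [h9] at h7
      simp at h7
    obtain ⟨t, ht⟩ := h8
    refine ⟨t, ?_⟩
    rw [hU]
    simp only [Set.mem_iUnion, exists_prop]
    exact ⟨_, hk, ht⟩
  · intro t ht
    exact ⟨_, o_isCompleted (o_hd h𝔮 h𝔮' ht)⟩
  · intro Λ hΛ
    set Ek : (InfinitePlace K → ℤ) → Finset (HDat 𝔮) := fun κ =>
      if h : (FamB 𝔮 κ B).Finite then h.toFinset else ∅ with hEk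
    have hEk' : ∀ κ ∈ tc6K K B, ∀ t, t ∈ Ek κ ↔ t ∈ FamB 𝔮 κ B := by
      intro κ hκ t
      simp only [hEk, dif_pos (hfin κ hκ)]
      rw [Set.Finite.mem_toFinset]
    set EF : Finset (HDat 𝔮) := hFfin.toFinset with hEF
    have hEF' : ∀ t, t ∈ EF ↔ t ∈ Fam 𝔮 B := fun t => hFfin.mem_toFinset
    set KK : Finset (InfinitePlace K → ℤ) := (tc6_finite K B).toFinset with hKK
    have hKK' : ∀ κ, κ ∈ KK ↔ κ ∈ tc6K K B := fun κ => (tc6_finite K B).mem_toFinset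
    have hsum : ∀ {M : Type} [AddCommMonoid M] (f : HDat 𝔮 → M),
        ∑ t ∈ EF, f t = ∑ κ ∈ KK, ∑ t ∈ Ek κ, f t := by
      intro M _ f
      rw [← Finset.sum_fiberwise_of_maps_to (s := EF) (t := KK) (g := fun t => t.κ)]
      · refine Finset.sum_congr rfl fun κ hκ => ?_
        refine Finset.sum_congr ?_ fun _ _ => rfl
        ext t
        rw [Finset.mem_filter, hEF', hEk' κ ((hKK' κ).1 hκ), tc6_mem]
        constructor
        · rintro ⟨⟨-, h2⟩, h3⟩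
          rw [← h3]
          exact h2
        · intro h2
          have h3 : t.κ = κ := h2.1.1
          rw [h3]
          exact ⟨⟨(hKK' κ).1 hκ, h2⟩, rfl⟩
      · intro t ht
        rw [hKK']
        exact (tc6_mem.1 ((hEF' t).1 ht)).1
    have hts : ∀ f : HDat 𝔮 → ℝ≥0∞, ∑' t : Fam 𝔮 B, f t = ∑ t ∈ EF, f t := by
      intro f
      have h1 : (Fam 𝔮 B) = (EF : Set (HDat 𝔮)) := by rw [hEF, Set.Finite.coe_toFinset]
      rw [h1]
      exact Finset.tsum_subtype EF f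
    set LN : ℝ := Real.log (Ideal.absNorm 𝔮) / (2 * Real.pi) with hLN
    have hLN0 : 0 ≤ LN := by
      rw [hLN]
      have : 0 ≤ Real.log (Ideal.absNorm 𝔮) := Real.log_nonneg (by linarith)
      positivity
    have hxx : 0 ≤ x2 - x1 := by linarith
    have hkap : ∀ κ ∈ KK,
        ENNReal.ofReal ((Ek κ).card * ((k0 - ε) * LN * (x2 - x1))) ≤
        ∑ t ∈ Ek κ, simpleCritical (Λ t) x1 x2 ∧
        ∑ t ∈ Ek κ, allZeros (Λ t) x1 x2 ≤
          ENNReal.ofReal ((Ek κ).card * ((1 + ε) * LN * (x2 - x1))) := by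
      intro κ hκ
      have hκ' := (hKK' κ).1 hκ
      refine hC1 _ hN1 κ hκ' 𝔮 rfl (Ek κ) (hEk' κ hκ') Λ fun t ht => hΛ t ?_
      have h2 := (hEk' κ hκ' t).1 ht
      have h3 : t.κ = κ := h2.1.1
      rw [tc6_mem, h3]
      exact ⟨hκ', h2⟩
    rw [hts (fun t => allZeros (Λ t) x1 x2), hts (fun t => simpleCritical (Λ t) x1 x2)]
    have hcard : (Fam 𝔮 B).ncard = EF.card := by
      rw [hEF, Set.ncard_eq_toFinset_card _ hFfin]
    constructor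
    · rw [hsum, hsum, Finset.mul_sum]
      refine Finset.sum_le_sum fun κ hκ => ?_
      obtain ⟨h1, h2⟩ := hkap κ hκ
      refine (mul_le_mul_right h2 _).trans (le_trans ?_ h1)
      rw [← ENNReal.ofReal_mul (by norm_num)]
      apply ENNReal.ofReal_le_ofReal
      have h3 : 355 / 1000 * (1 + ε) ≤ k0 - ε := by
        rw [hε]
        linarith
      have h4 : 0 ≤ ((Ek κ).card : ℝ) * (LN * (x2 - x1)) :=
        mul_nonneg (Nat.cast_nonneg _) (mul_nonneg hLN0 hxx)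
      calc 355 / 1000 * (((Ek κ).card : ℝ) * ((1 + ε) * LN * (x2 - x1))) =
          (355 / 1000 * (1 + ε)) * (((Ek κ).card : ℝ) * (LN * (x2 - x1))) := by ring
        _ ≤ (k0 - ε) * (((Ek κ).card : ℝ) * (LN * (x2 - x1))) :=
          mul_le_mul_of_nonneg_right h3 h4
        _ = _ := by ring
    · rw [hcard, hsum]
      have h5 : (EF.card : ℝ) = ∑ κ ∈ KK, ((Ek κ).card : ℝ) := by
        have h6 := hsum (fun _ => (1 : ℝ))
        simp only [Finset.sum_const, nsmul_eq_mul, mul_one] at h6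
        exact h6
      have h7 : ENNReal.ofReal (355 / 1000 * (EF.card * ((x2 - x1) * LN))) =
          ∑ κ ∈ KK, ENNReal.ofReal (355 / 1000 * ((Ek κ).card * ((x2 - x1) * LN))) := by
        rw [← ENNReal.ofReal_sum_of_nonneg (fun κ _ => mul_nonneg (by norm_num)
            (mul_nonneg (Nat.cast_nonneg _) (mul_nonneg hxx hLN0))), h5, Finset.sum_mul,
          Finset.mul_sum]
      rw [h7]
      refine Finset.sum_le_sum fun κ hκ => ?_
      refine le_trans ?_ (hkap κ hκ).1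
      apply ENNReal.ofReal_le_ofReal
      have h3 : 355 / 1000 ≤ k0 - ε := by
        rw [hε]
        linarith
      have h4 : 0 ≤ ((Ek κ).card : ℝ) * (LN * (x2 - x1)) :=
        mul_nonneg (Nat.cast_nonneg _) (mul_nonneg hLN0 hxx)
      calc 355 / 1000 * (((Ek κ).card : ℝ) * ((x2 - x1) * LN)) =
          355 / 1000 * (((Ek κ).card : ℝ) * (LN * (x2 - x1))) := by ring
        _ ≤ (k0 - ε) * (((Ek κ).card : ℝ) * (LN * (x2 - x1))) :=
          mul_le_mul_of_nonneg_right h3 h4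
        _ = _ := by ring

end Pool.Agent.LVK

namespace Pool.Agent.LVK

theorem main : type_of% @main_pr := @main_pr

end Pool.Agent.LVK
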